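import Pool.Agent.KS.Defs

/-!
# Local objects on `ℂ²`: mixed discriminants, Monge-Ampere densities, scalar curvature
-/

namespace Pool.Agent.KS

open MeasureTheory Complex Topology
open scoped ContDiff Matrix ComplexOrder ComplexConjugate Manifold

noncomputable section

/-- The model space `ℂ²` (with the sup norm). -/
abbrev C2 : Type := Cn 2

/-- `∂u/∂z_i` for a real function `u`. -/
def gz {n : ℕ} (i : Fin n) (u : Cn n → ℝ) (z : Cn n) : ℂ := dz i (fun w => ((u w : ℝ) : ℂ)) z

/-- The mixed discriminant (real part) of two `2 × 2` matrices, `mdet A A = Re det A`. -/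
def mdet (A B : Matrix (Fin 2) (Fin 2) ℂ) : ℝ :=
  ((A 0 0 * B 1 1 + A 1 1 * B 0 0 - A 0 1 * B 1 0 - A 1 0 * B 0 1) / 2).re

/-- Mixed Monge-Ampere density of two real functions. -/
def Dm (u v : C2 → ℝ) (z : C2) : ℝ := mdet (cHess u z) (cHess v z)

/-- Monge-Ampere density `det (u_{i \bar j})`. -/
def dt (u : C2 → ℝ) (z : C2) : ℝ := (cHess u z).det.re

/-- One quarter of the scalar curvature of the metric with Kaehler potential `φ`:
`-(1/2) tr_g (∂∂̄ log det g)`. -/
def sh (φ : C2 → ℝ) (z : C2) : ℝ := - Dm (fun w => Real.log (dt φ w)) φ z / dt φ z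

/-- Complex Jacobian matrix of a map `F : ℂⁿ → ℂᵐ`. -/
def Jm {n m : ℕ} (F : Cn n → Cn m) (z : Cn n) : Matrix (Fin m) (Fin n) ℂ :=
  fun a i => fderiv ℂ F z (Pi.single i 1) a

end

end Pool.Agent.KS
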