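import Pool.Agent.KS.Calc

/-!
# Circle averages (module BERG1)
-/

namespace Pool.Agent.KS

open MeasureTheory Complex Topology
open scoped ContDiff Matrix ComplexOrder ComplexConjugate Manifold Interval

noncomputable section

/-- Average over the circle `θ ↦ e^{iθ} w`. -/
def cmean (g : C2 → ℝ) (w : C2) : ℝ :=
  (1 / (2 * Real.pi)) * ∫ θ in (0 : ℝ)..(2 * Real.pi), g (Complex.exp (θ * I) • w)

theorem cmean_eq_circleAverage (g : C2 → ℝ) (w : C2) :
    cmean g w = Real.circleAverage (fun ζ : ℂ => g (ζ • w)) 0 1 := by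
  simp [cmean, Real.circleAverage, circleMap]

/-- one variable Jensen inequality with a weight -/
theorem jensen_one {g : ℂ → ℂ} (hg : AnalyticOnNhd ℂ g (Metric.closedBall 0 1)) (h0 : g 0 ≠ 0)
    {b : ℂ → ℝ} (hb : ContinuousOn b (Metric.sphere 0 1)) :
    ‖g 0‖ ^ 2 * Real.exp (Real.circleAverage b 0 1)
      ≤ Real.circleAverage (fun ζ => ‖g ζ‖ ^ 2 * Real.exp (b ζ)) 0 1 := by
  have hbI : CircleIntegrable b 0 1 := by
    apply ContinuousOn.circleIntegrable (by norm_num) hb
  have hgc : ContinuousOn g (Metric.sphere 0 1) :=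
    (hg.continuousOn).mono Metric.sphere_subset_closedBall
  have hFI : CircleIntegrable (fun ζ => ‖g ζ‖ ^ 2 * Real.exp (b ζ)) 0 1 := by
    apply ContinuousOn.circleIntegrable (by norm_num)
    exact (hgc.norm.pow 2).mul hb.rexp
  have hlogI : CircleIntegrable (fun ζ => Real.log ‖g ζ‖) 0 1 := by
    apply MeromorphicOn.circleIntegrable_log_norm
    have : AnalyticOnNhd ℂ g (Metric.sphere 0 |1|) := by
      simpa using hg.mono Metric.sphere_subset_closedBall
    exact this.meromorphicOn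
  have hsub : Real.log ‖g 0‖ ≤ Real.circleAverage (fun ζ => Real.log ‖g ζ‖) 0 1 := by
    have hg' : AnalyticOnNhd ℂ g (Metric.closedBall 0 |1|) := by simpa using hg
    rw [AnalyticOnNhd.circleAverage_log_norm (by norm_num) hg' h0]
    have : 0 ≤ ∑ᶠ u, ((MeromorphicOn.divisor g (Metric.closedBall 0 |1|)) u : ℝ)
        * Real.log (1 * ‖(0 : ℂ) - u‖⁻¹) := by
      apply finsum_nonneg
      intro u
      by_cases hu : u ∈ Metric.closedBall (0 : ℂ) |1|
      · apply mul_nonneg
        · exact_mod_cast (MeromorphicOn.AnalyticOnNhd.divisor_nonneg hg') u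
        · simp only [zero_sub, norm_neg, one_mul]
          have h1 : ‖u‖ ≤ 1 := by simpa using hu
          rcases eq_or_ne u 0 with rfl | hu0
          · simp
          · apply Real.log_nonneg
            rw [one_le_inv₀ (norm_pos_iff.mpr hu0)]
            exact h1
      · rw [Function.locallyFinsuppWithin.apply_eq_zero_of_notMem _ hu]
        simp
    linarith
  set m : ℝ := 2 * Real.log ‖g 0‖ + Real.circleAverage b 0 1 with hm
  have hexpm : Real.exp m = ‖g 0‖ ^ 2 * Real.exp (Real.circleAverage b 0 1) := by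
    rw [hm, Real.exp_add]
    congr 1
    rw [mul_comm, Real.exp_mul, Real.exp_log (norm_pos_iff.mpr h0)]
    norm_cast
  rw [← hexpm]
  let H : ℂ → ℝ := fun ζ => Real.exp m * (1 + (2 * Real.log ‖g ζ‖ + b ζ - m))
  let H' : ℂ → ℝ := fun ζ => if g ζ = 0 then 0 else H ζ
  have hHI : CircleIntegrable H 0 1 := by
    have h1 : CircleIntegrable (fun ζ => 2 * Real.log ‖g ζ‖) 0 1 := hlogI.const_mul 2
    have h2 : CircleIntegrable (fun ζ => 2 * Real.log ‖g ζ‖ + b ζ) 0 1 := h1.add hbI
    have h3 : CircleIntegrable (fun ζ => 2 * Real.log ‖g ζ‖ + b ζ - m) 0 1 :=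
      h2.sub (circleIntegrable_const m 0 1)
    have h4 : CircleIntegrable (fun ζ => 1 + (2 * Real.log ‖g ζ‖ + b ζ - m)) 0 1 :=
      (circleIntegrable_const 1 0 1).add h3
    exact h4.const_mul _
  have hcod : H =ᶠ[Filter.codiscreteWithin (Metric.sphere 0 |1|)] H' := by
    have hcd : ∀ᶠ x in Filter.codiscreteWithin (Metric.closedBall (0 : ℂ) 1), g x ≠ 0 := by
      rcases hg.eqOn_zero_or_eventually_ne_zero_of_preconnected
        (convex_closedBall _ _).isPreconnected with h | h
      · exact absurd (h (Metric.mem_closedBall_self (by norm_num))) h0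
      · exact h
    have hmono : Filter.codiscreteWithin (Metric.sphere (0 : ℂ) |1|)
        ≤ Filter.codiscreteWithin (Metric.closedBall (0 : ℂ) 1) := by
      apply Filter.codiscreteWithin_mono
      simpa using (Metric.sphere_subset_closedBall : Metric.sphere (0 : ℂ) 1 ⊆ _)
    filter_upwards [hmono hcd] with x hx
    simp [H', hx]
  have hH'I : CircleIntegrable H' 0 1 := hHI.congr_codiscreteWithin hcod
  have hle : Real.circleAverage H' 0 1
      ≤ Real.circleAverage (fun ζ => ‖g ζ‖ ^ 2 * Real.exp (b ζ)) 0 1 := by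
    apply Real.circleAverage_mono hH'I hFI
    intro x _
    simp only [H', H]
    split_ifs with hx
    · simp [hx]
    · have h1 : ‖g x‖ ^ 2 * Real.exp (b x) = Real.exp m * Real.exp (2 * Real.log ‖g x‖ + b x - m) := by
        rw [← Real.exp_add]
        have : m + (2 * Real.log ‖g x‖ + b x - m) = Real.log ‖g x‖ * 2 + b x := by ring
        rw [this, Real.exp_add]
        congr 1
        rw [Real.exp_mul, Real.exp_log (norm_pos_iff.mpr hx)]
        norm_cast
      rw [h1]
      apply mul_le_mul_of_nonneg_left _ (Real.exp_pos _).le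
      have := Real.add_one_le_exp (2 * Real.log ‖g x‖ + b x - m)
      linarith
  refine le_trans ?_ hle
  rw [← Real.circleAverage_congr_codiscreteWithin hcod (by norm_num)]
  have hav : Real.circleAverage H 0 1 = Real.exp m * (1 + (2 * Real.circleAverage (fun ζ => Real.log ‖g ζ‖) 0 1
      + Real.circleAverage b 0 1 - m)) := by
    have h1 : CircleIntegrable (fun ζ => 2 * Real.log ‖g ζ‖) 0 1 := hlogI.const_mul 2
    have h2 : CircleIntegrable (fun ζ => 2 * Real.log ‖g ζ‖ + b ζ) 0 1 := h1.add hbI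
    have h3 : CircleIntegrable (fun ζ => 2 * Real.log ‖g ζ‖ + b ζ - m) 0 1 :=
      h2.sub (circleIntegrable_const m 0 1)
    show Real.circleAverage (fun ζ => Real.exp m • (1 + (2 * Real.log ‖g ζ‖ + b ζ - m))) 0 1 = _
    rw [Real.circleAverage_fun_smul, Real.circleAverage_fun_add (circleIntegrable_const 1 0 1) h3,
      Real.circleAverage_fun_sub h2 (circleIntegrable_const m 0 1),
      Real.circleAverage_fun_add h1 hbI]
    have : Real.circleAverage (fun ζ => 2 * Real.log ‖g ζ‖) 0 1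
        = 2 * Real.circleAverage (fun ζ => Real.log ‖g ζ‖) 0 1 := by
      have := Real.circleAverage_fun_smul (a := (2 : ℝ)) (f := fun ζ => Real.log ‖g ζ‖) (c := 0) (R := 1)
      simpa using this
    rw [this, Real.circleAverage_const, Real.circleAverage_const]
    simp
  rw [hav]
  nlinarith [Real.exp_pos m]

/-- Jensen type inequality on a circle: `|f(0)|² exp(mean b) ≤ mean (|f|² e^b)`. -/
theorem jensen_circle {f : C2 → ℂ} {U : Set C2} (hU : IsOpen U) (hf : DifferentiableOn ℂ f U)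
    {r : ℝ} (hr : 0 < r) (hrU : Metric.closedBall (0 : C2) r ⊆ U) {b : C2 → ℝ}
    (hb : ContinuousOn b U) {w : C2} (hw : w ∈ Metric.closedBall (0 : C2) r) :
    ‖f 0‖ ^ 2 * Real.exp (cmean b w) ≤ cmean (fun x => ‖f x‖ ^ 2 * Real.exp (b x)) w := by
  have hmem : ∀ ζ : ℂ, ζ ∈ Metric.closedBall (0 : ℂ) 1 → ζ • w ∈ U := by
    intro ζ hζ
    apply hrU
    rw [mem_closedBall_zero_iff] at *
    rw [norm_smul]
    calc ‖ζ‖ * ‖w‖ ≤ 1 * r := by gcongr
      _ = r := one_mul r
  have hcont : Continuous (fun ζ : ℂ => ζ • w) := by fun_prop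
  by_cases h0 : f 0 = 0
  · rw [h0]
    simp only [norm_zero, ne_eq, OfNat.ofNat_ne_zero, not_false_eq_true, zero_pow, zero_mul]
    rw [cmean_eq_circleAverage]
    apply Real.circleAverage_nonneg_of_nonneg
    intro x _
    positivity
  · rw [cmean_eq_circleAverage, cmean_eq_circleAverage]
    have hg : AnalyticOnNhd ℂ (fun ζ : ℂ => f (ζ • w)) (Metric.closedBall 0 1) := by
      have hV : IsOpen ((fun ζ : ℂ => ζ • w) ⁻¹' U) := hU.preimage hcont
      have hd : DifferentiableOn ℂ (fun ζ : ℂ => f (ζ • w)) ((fun ζ : ℂ => ζ • w) ⁻¹' U) := by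
        apply hf.comp
        · exact (differentiable_id.smul_const w).differentiableOn
        · intro x hx; exact hx
      exact (hd.analyticOnNhd hV).mono hmem
    have := jensen_one (g := fun ζ : ℂ => f (ζ • w)) hg (by simpa using h0)
      (b := fun ζ => b (ζ • w)) ?_
    · simpa using this
    · apply hb.comp hcont.continuousOn
      intro ζ hζ
      exact hmem ζ (Metric.sphere_subset_closedBall hζ)

theorem norm_exp_smul (θ : ℝ) (w : C2) : ‖Complex.exp (θ * I) • w‖ = ‖w‖ := by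
  rw [norm_smul, Complex.norm_exp_ofReal_mul_I, one_mul]

/-- `∂_i ∂̄_l (g_{j \bar k})`. -/
def d4 (g : C2 → ℝ) (i j k l : Fin 2) (z : C2) : ℂ :=
  dz i (fun w => dzb l (fun x => cHess g x j k) w) z

/-- the `(1,1)` part of the Taylor polynomial at `0` -/
def T2 (g : C2 → ℝ) (w : C2) : ℝ := (∑ i, ∑ j, w i * conj (w j) * cHess g 0 i j).re

/-- the `(2,2)` part of the Taylor polynomial at `0` is `T4/4` -/
def T4 (g : C2 → ℝ) (w : C2) : ℝ :=
  (∑ i, ∑ j, ∑ k, ∑ l, w i * w j * conj (w k) * conj (w l) * d4 g i j k l 0).re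

/-- holomorphic directional operator -/
def Lw (w : C2) (F : C2 → ℂ) (z : C2) : ℂ := ∑ i, w i * dz i F z

/-- antiholomorphic directional operator -/
def Lbw (w : C2) (F : C2 → ℂ) (z : C2) : ℂ := ∑ i, conj (w i) * dzb i F z

section ops

variable {U : Set C2} {F G : C2 → ℂ}

theorem diffAt_of (hU : IsOpen U) (hF : ContDiffOn ℝ ∞ F U) {z : C2} (hz : z ∈ U) :
    DifferentiableAt ℝ F z :=
  (hF.contDiffAt (hU.mem_nhds hz)).differentiableAt (by simp)

theorem contDiffOn_Lw (hU : IsOpen U) (w : C2) (hF : ContDiffOn ℝ ∞ F U) :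
    ContDiffOn ℝ ∞ (Lw w F) U := by
  unfold Lw
  apply ContDiffOn.sum
  intro i _
  exact contDiffOn_const.mul (contDiffOn_dz hU i hF)

theorem contDiffOn_Lbw (hU : IsOpen U) (w : C2) (hF : ContDiffOn ℝ ∞ F U) :
    ContDiffOn ℝ ∞ (Lbw w F) U := by
  unfold Lbw
  apply ContDiffOn.sum
  intro i _
  exact contDiffOn_const.mul (contDiffOn_dzb hU i hF)

theorem Lw_congr (hU : IsOpen U) (w : C2) (h : Set.EqOn F G U) :
    Set.EqOn (Lw w F) (Lw w G) U := by
  intro z hz
  unfold Lw
  apply Finset.sum_congr rfl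
  intro i _
  rw [dz_congr i (h.eventuallyEq_of_mem (hU.mem_nhds hz))]

theorem Lbw_congr (hU : IsOpen U) (w : C2) (h : Set.EqOn F G U) :
    Set.EqOn (Lbw w F) (Lbw w G) U := by
  intro z hz
  unfold Lbw
  apply Finset.sum_congr rfl
  intro i _
  rw [dzb_congr i (h.eventuallyEq_of_mem (hU.mem_nhds hz))]

theorem Lw_Lbw_expand (hU : IsOpen U) (w : C2) (hF : ContDiffOn ℝ ∞ F U) {z : C2} (hz : z ∈ U) :
    Lw w (Lbw w F) z = ∑ i, ∑ j, w i * conj (w j) * dz i (fun x => dzb j F x) z := by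
  have h : ∀ i, dz i (Lbw w F) z = ∑ j, conj (w j) * dz i (fun x => dzb j F x) z := by
    intro i
    show dz i (fun x => ∑ j, conj (w j) * dzb j F x) z = _
    rw [dz_sum]
    · apply Finset.sum_congr rfl
      intro j _
      rw [dz_const_mul]
      exact diffAt_of hU (contDiffOn_dzb hU j hF) hz
    · intro j _
      exact (diffAt_of hU (contDiffOn_dzb hU j hF) hz).const_mul _
  unfold Lw
  apply Finset.sum_congr rfl
  intro i _
  rw [h, Finset.mul_sum]
  apply Finset.sum_congr rfl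
  intro j _
  ring

theorem Lbw_Lw_expand (hU : IsOpen U) (w : C2) (hF : ContDiffOn ℝ ∞ F U) {z : C2} (hz : z ∈ U) :
    Lbw w (Lw w F) z = ∑ j, ∑ i, conj (w j) * w i * dzb j (fun x => dz i F x) z := by
  have h : ∀ j, dzb j (Lw w F) z = ∑ i, w i * dzb j (fun x => dz i F x) z := by
    intro j
    show dzb j (fun x => ∑ i, w i * dz i F x) z = _
    rw [dzb_sum]
    · apply Finset.sum_congr rfl
      intro i _
      rw [dzb_const_mul]
      exact diffAt_of hU (contDiffOn_dz hU i hF) hz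
    · intro i _
      exact (diffAt_of hU (contDiffOn_dz hU i hF) hz).const_mul _
  unfold Lbw
  apply Finset.sum_congr rfl
  intro j _
  rw [h, Finset.mul_sum]
  apply Finset.sum_congr rfl
  intro i _
  ring

theorem Lw_comm (hU : IsOpen U) (w : C2) (hF : ContDiffOn ℝ ∞ F U) :
    Set.EqOn (Lbw w (Lw w F)) (Lw w (Lbw w F)) U := by
  intro z hz
  rw [Lw_Lbw_expand hU w hF hz, Lbw_Lw_expand hU w hF hz, Finset.sum_comm]
  apply Finset.sum_congr rfl
  intro i _
  apply Finset.sum_congr rfl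
  intro j _
  rw [dz_dzb_comm]
  · ring
  · exact (hF.contDiffAt (hU.mem_nhds hz)).of_le ENat.LEInfty.out

theorem fderiv_smul_eq (hU : IsOpen U) (w : C2) (hF : ContDiffOn ℝ ∞ F U) {z : C2} (hz : z ∈ U)
    (c : ℂ) : fderiv ℝ F z (c • w) = c * Lw w F z + conj c * Lbw w F z := by
  rw [fderiv_eq_dz_dzb (diffAt_of hU hF hz)]
  unfold Lw Lbw
  rw [Finset.sum_add_distrib, Finset.mul_sum, Finset.mul_sum]
  congr 1
  · apply Finset.sum_congr rfl
    intro i _
    simp only [Pi.smul_apply, smul_eq_mul]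
    ring
  · apply Finset.sum_congr rfl
    intro i _
    simp only [Pi.smul_apply, smul_eq_mul, map_mul]
    ring

/-- iterated operators `L^p Lbar^q F` -/
def apq (w : C2) (F : C2 → ℂ) (p q : ℕ) : C2 → ℂ := (Lw w)^[p] ((Lbw w)^[q] F)

theorem contDiffOn_apq (hU : IsOpen U) (w : C2) (hF : ContDiffOn ℝ ∞ F U) (p q : ℕ) :
    ContDiffOn ℝ ∞ (apq w F p q) U := by
  unfold apq
  induction p with
  | zero =>
    simp only [Function.iterate_zero, id_eq]
    induction q with
    | zero => simpa using hF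
    | succ q ih =>
      rw [Function.iterate_succ_apply']
      exact contDiffOn_Lbw hU w ih
  | succ p ih =>
    rw [Function.iterate_succ_apply']
    exact contDiffOn_Lw hU w ih

theorem Lw_apq (w : C2) (F : C2 → ℂ) (p q : ℕ) : Lw w (apq w F p q) = apq w F (p + 1) q := by
  unfold apq
  rw [Function.iterate_succ_apply']

theorem Lbw_apq (hU : IsOpen U) (w : C2) (hF : ContDiffOn ℝ ∞ F U) (p q : ℕ) :
    Set.EqOn (Lbw w (apq w F p q)) (apq w F p (q + 1)) U := by
  induction p with
  | zero =>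
    intro z _
    unfold apq
    rw [Function.iterate_succ_apply']
    simp
  | succ p ih =>
    rw [← Lw_apq, ← Lw_apq]
    exact (Lw_comm hU w (contDiffOn_apq hU w hF p q)).trans (Lw_congr hU w ih)

theorem iteratedFDeriv_eq (hU : IsOpen U) (w : C2) (hF : ContDiffOn ℝ ∞ F U) (c : ℂ) (m : ℕ) :
    ∀ z ∈ U, iteratedFDeriv ℝ m F z (fun _ => c • w)
      = ∑ ij ∈ Finset.HasAntidiagonal.antidiagonal m, (m.choose ij.1 : ℂ) *
          (c ^ ij.1 * conj c ^ ij.2 * apq w F ij.1 ij.2 z) := by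
  induction m with
  | zero =>
    intro z hz
    simp [apq]
  | succ m ih =>
    intro z hz
    rw [iteratedFDeriv_succ_apply_left]
    have hd : DifferentiableAt ℝ (iteratedFDeriv ℝ m F) z := by
      apply (hF.contDiffAt (hU.mem_nhds hz)).differentiableAt_iteratedFDeriv
      exact_mod_cast ENat.natCast_lt_top m
    have h1 : (fderiv ℝ (iteratedFDeriv ℝ m F) z (c • w)) (fun _ => c • w)
        = fderiv ℝ (fun y => iteratedFDeriv ℝ m F y (fun _ => c • w)) z (c • w) := by
      rw [fderiv_continuousMultilinear_apply_const_apply hd]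
    have h2 : (fun y => iteratedFDeriv ℝ m F y (fun _ => c • w)) =ᶠ[𝓝 z]
        fun y => ∑ ij ∈ Finset.HasAntidiagonal.antidiagonal m, (m.choose ij.1 : ℂ) *
          (c ^ ij.1 * conj c ^ ij.2 * apq w F ij.1 ij.2 y) := by
      filter_upwards [hU.mem_nhds hz] with y hy
      exact ih y hy
    have h3 : Fin.tail (fun _ : Fin (m + 1) => c • w) = fun _ => c • w := rfl
    rw [h3, h1, h2.fderiv_eq]
    have hda : ∀ p q, DifferentiableAt ℝ (apq w F p q) z := fun p q =>
      diffAt_of hU (contDiffOn_apq hU w hF p q) hz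
    rw [fderiv_fun_sum (fun ij _ => ((hda ij.1 ij.2).const_mul _).const_mul _)]
    rw [_root_.sum_apply]
    have h4 : ∀ ij ∈ Finset.HasAntidiagonal.antidiagonal m,
        (fderiv ℝ (fun y => (m.choose ij.1 : ℂ) *
          (c ^ ij.1 * conj c ^ ij.2 * apq w F ij.1 ij.2 y)) z) (c • w)
        = (m.choose ij.2 : ℂ) * (c ^ (ij.1 + 1) * conj c ^ ij.2 * apq w F (ij.1 + 1) ij.2 z)
          + (m.choose ij.1 : ℂ) * (c ^ ij.1 * conj c ^ (ij.2 + 1) * apq w F ij.1 (ij.2 + 1) z) := by
      intro ij hij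
      have hch : m.choose ij.2 = m.choose ij.1 := by
        rw [Finset.HasAntidiagonal.mem_antidiagonal] at hij
        rw [← hij]
        exact (Nat.choose_symm_add (a := ij.1) (b := ij.2)).symm
      rw [fderiv_const_mul ((hda ij.1 ij.2).const_mul _), fderiv_const_mul (hda ij.1 ij.2)]
      simp only [_root_.smul_apply, smul_eq_mul]
      rw [fderiv_smul_eq hU w (contDiffOn_apq hU w hF _ _) hz, Lw_apq, Lbw_apq hU w hF _ _ hz, hch]
      ring
    rw [Finset.sum_congr rfl h4, Finset.sum_add_distrib,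
      Finset.sum_antidiagonal_choose_succ_mul (fun p q => c ^ p * conj c ^ q * apq w F p q z) m]
    rw [add_comm]

end ops

section taylor

/-- the average of `c^p \bar c^q` over the unit circle -/
theorem circle_mono_integral (p q : ℕ) :
    ∫ θ in (0 : ℝ)..(2 * Real.pi), Complex.exp (θ * I) ^ p * conj (Complex.exp (θ * I)) ^ q
      = if p = q then ((2 * Real.pi : ℝ) : ℂ) else 0 := by
  have h1 : ∀ θ : ℝ, Complex.exp (θ * I) ^ p * conj (Complex.exp (θ * I)) ^ q
      = Complex.exp ((((p : ℤ) - (q : ℤ) : ℤ) : ℂ) * I * θ) := by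
    intro θ
    rw [← Complex.exp_conj, ← Complex.exp_nat_mul, ← Complex.exp_nat_mul, ← Complex.exp_add]
    congr 1
    simp only [map_mul, Complex.conj_ofReal, Complex.conj_I]
    push_cast
    ring
  simp_rw [h1]
  split_ifs with h
  · subst h
    simp
  · have hc : (((p : ℤ) - (q : ℤ) : ℤ) : ℂ) * I ≠ 0 := by
      apply mul_ne_zero _ Complex.I_ne_zero
      rw [Int.cast_ne_zero]
      omega
    rw [integral_exp_mul_complex hc]
    have h2 : Complex.exp ((((p : ℤ) - (q : ℤ) : ℤ) : ℂ) * I * ((2 * Real.pi : ℝ) : ℂ)) = 1 := by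
      rw [Complex.exp_eq_one_iff]
      refine ⟨(p : ℤ) - (q : ℤ), ?_⟩
      push_cast
      ring
    rw [h2]
    simp

/-- circle means up to order `N`, uniform remainder -/
theorem circle_taylorN (N : ℕ) (g : C2 → ℝ) (U : Set C2) (hU : IsOpen U) (r : ℝ)
    (hrU : Metric.closedBall (0 : C2) r ⊆ U) (hg : ContDiffOn ℝ ∞ g U) (B : ℝ)
    (hB : ∀ w ∈ Metric.closedBall (0 : C2) r, ‖iteratedFDeriv ℝ (N + 1) g w‖ ≤ B)
    (w : C2) (hw : w ∈ Metric.closedBall (0 : C2) r) :
    ‖((cmean g w : ℝ) : ℂ) - ∑ m ∈ Finset.range (N + 1), ((m.factorial : ℝ)⁻¹ : ℂ) *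
        ∑ ij ∈ Finset.HasAntidiagonal.antidiagonal m, (m.choose ij.1 : ℂ) *
          ((if ij.1 = ij.2 then 1 else 0) * apq w (fun x => ((g x : ℝ) : ℂ)) ij.1 ij.2 0)‖
      ≤ B * ‖w‖ ^ (N + 1) := by
  set F : C2 → ℂ := fun x => ((g x : ℝ) : ℂ) with hFdef
  have hF : ContDiffOn ℝ ∞ F U := Complex.ofRealCLM.contDiff.comp_contDiffOn hg
  have hmem : ∀ (θ : ℝ) (t : ℝ), t ∈ Set.Icc (0 : ℝ) 1 →
      (0 : C2) + t • (Complex.exp (θ * I) • w) ∈ Metric.closedBall (0 : C2) r := by
    intro θ t ht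
    rw [mem_closedBall_zero_iff] at *
    rw [zero_add, norm_smul, norm_exp_smul, Real.norm_eq_abs, abs_of_nonneg ht.1]
    calc t * ‖w‖ ≤ 1 * ‖w‖ := by gcongr; exact ht.2
      _ ≤ r := by rw [one_mul]; exact hw
  have h0 : (0 : C2) ∈ U := by
    apply hrU
    rw [mem_closedBall_zero_iff] at *
    simpa using (norm_nonneg w).trans hw
  have hBF : ∀ z ∈ Metric.closedBall (0 : C2) r, ‖iteratedFDeriv ℝ (N + 1) F z‖ ≤ B := by
    intro z hz
    have := Complex.ofRealLI.norm_iteratedFDeriv_comp_left (n := ∞) (i := N + 1)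
      (hg.contDiffAt (hU.mem_nhds (hrU hz))) (by exact_mod_cast le_top)
    have h2 : (Complex.ofRealLI ∘ g) = F := by
      funext x
      simp [hFdef]
    rw [h2] at this
    rw [this]
    exact hB z hz
  -- Taylor polynomial as a trigonometric polynomial
  set P : ℝ → ℂ := fun θ => ∑ m ∈ Finset.range (N + 1), ((m.factorial : ℝ)⁻¹ : ℂ) *
      ∑ ij ∈ Finset.HasAntidiagonal.antidiagonal m, (m.choose ij.1 : ℂ) *
        (Complex.exp (θ * I) ^ ij.1 * conj (Complex.exp (θ * I)) ^ ij.2 * apq w F ij.1 ij.2 0)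
    with hP
  have hPc : Continuous P := by
    rw [hP]
    fun_prop
  have hrem : ∀ θ : ℝ, ‖F (Complex.exp (θ * I) • w) - P θ‖ ≤ B * ‖w‖ ^ (N + 1) := by
    intro θ
    have hT := map_add_eq_sum_add_integral_iteratedFDeriv (f := F) (x := 0)
      (y := Complex.exp (θ * I) • w) (n := N) (fun t ht => by
        have := hF.contDiffAt (hU.mem_nhds (hrU (hmem θ t ht)))
        exact this.of_le (by exact_mod_cast le_top))
    rw [zero_add] at hT
    have hsum : ∑ k ∈ Finset.range (N + 1), (k.factorial : ℝ)⁻¹ •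
        (iteratedFDeriv ℝ k F 0 (fun _ => Complex.exp (θ * I) • w)) = P θ := by
      rw [hP]
      apply Finset.sum_congr rfl
      intro k _
      rw [iteratedFDeriv_eq hU w hF _ k 0 h0]
      rw [Complex.real_smul]
      push_cast
      rfl
    rw [hsum] at hT
    rw [hT, add_sub_cancel_left, norm_smul]
    have hint : ‖∫ t in (0 : ℝ)..1, (1 - t) ^ N •
        iteratedFDeriv ℝ (N + 1) F (0 + t • (Complex.exp (θ * I) • w))
          (fun _ => Complex.exp (θ * I) • w)‖ ≤ B * ‖w‖ ^ (N + 1) * |1 - 0| := by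
      apply intervalIntegral.norm_integral_le_of_norm_le_const
      intro t ht
      rw [Set.uIoc_of_le zero_le_one] at ht
      have ht' : t ∈ Set.Icc (0 : ℝ) 1 := ⟨ht.1.le, ht.2⟩
      rw [norm_smul]
      have h1 : ‖(1 - t) ^ N‖ ≤ 1 := by
        rw [norm_pow]
        apply pow_le_one₀ (norm_nonneg _)
        rw [Real.norm_eq_abs, abs_of_nonneg (by linarith [ht'.2])]
        linarith [ht'.1]
      have h2 : ‖iteratedFDeriv ℝ (N + 1) F (0 + t • (Complex.exp (θ * I) • w))
          (fun _ => Complex.exp (θ * I) • w)‖ ≤ B * ‖w‖ ^ (N + 1) := by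
        refine (ContinuousMultilinearMap.le_opNorm _ _).trans ?_
        simp only [Finset.prod_const, Finset.card_univ, Fintype.card_fin]
        rw [norm_exp_smul]
        gcongr
        exact hBF _ (hmem θ t ht')
      calc _ ≤ 1 * (B * ‖w‖ ^ (N + 1)) := by
            apply mul_le_mul h1 h2 (norm_nonneg _) zero_le_one
        _ = _ := one_mul _
    rw [sub_zero, abs_one, mul_one] at hint
    have hfac : ‖((N.factorial : ℝ)⁻¹)‖ ≤ 1 := by
      rw [norm_inv, Real.norm_natCast]
      apply inv_le_one_of_one_le₀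
      exact_mod_cast Nat.factorial_pos N
    calc _ ≤ 1 * (B * ‖w‖ ^ (N + 1)) := by
          apply mul_le_mul hfac hint (norm_nonneg _) zero_le_one
      _ = _ := one_mul _
  have hpi : (0 : ℝ) < 2 * Real.pi := by positivity
  have hFc : Continuous fun θ : ℝ => F (Complex.exp (θ * I) • w) := by
    have h1 : ContinuousOn F (Metric.closedBall (0 : C2) r) := (hF.continuousOn).mono hrU
    have h2 : ContinuousOn (fun θ : ℝ => F (Complex.exp (θ * I) • w)) Set.univ := by
      apply h1.comp (by fun_prop)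
      intro θ _
      rw [mem_closedBall_zero_iff, norm_exp_smul]
      simpa using hw
    exact continuousOn_univ.mp h2
  have hcm : ((cmean g w : ℝ) : ℂ)
      = ((2 * Real.pi : ℝ) : ℂ)⁻¹ * ∫ θ in (0 : ℝ)..(2 * Real.pi), F (Complex.exp (θ * I) • w) := by
    unfold cmean
    rw [hFdef]
    rw [intervalIntegral.integral_ofReal]
    push_cast
    simp
  have hPint : ∫ θ in (0 : ℝ)..(2 * Real.pi), P θ = ((2 * Real.pi : ℝ) : ℂ) *
      ∑ m ∈ Finset.range (N + 1), ((m.factorial : ℝ)⁻¹ : ℂ) *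
        ∑ ij ∈ Finset.HasAntidiagonal.antidiagonal m, (m.choose ij.1 : ℂ) *
          ((if ij.1 = ij.2 then 1 else 0) * apq w F ij.1 ij.2 0) := by
    rw [hP, intervalIntegral.integral_finsetSum
      (fun m _ => Continuous.intervalIntegrable (by fun_prop) _ _), Finset.mul_sum]
    apply Finset.sum_congr rfl
    intro m _
    rw [intervalIntegral.integral_const_mul, intervalIntegral.integral_finsetSum
      (fun ij _ => Continuous.intervalIntegrable (by fun_prop) _ _), mul_left_comm]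
    congr 1
    rw [Finset.mul_sum]
    apply Finset.sum_congr rfl
    intro ij _
    rw [intervalIntegral.integral_const_mul, intervalIntegral.integral_mul_const,
      circle_mono_integral]
    split_ifs <;> ring
  have hS : ∑ m ∈ Finset.range (N + 1), ((m.factorial : ℝ)⁻¹ : ℂ) *
        ∑ ij ∈ Finset.HasAntidiagonal.antidiagonal m, (m.choose ij.1 : ℂ) *
          ((if ij.1 = ij.2 then 1 else 0) * apq w F ij.1 ij.2 0)
      = ((2 * Real.pi : ℝ) : ℂ)⁻¹ * ∫ θ in (0 : ℝ)..(2 * Real.pi), P θ := by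
    rw [hPint, ← mul_assoc, inv_mul_cancel₀, one_mul]
    exact_mod_cast hpi.ne'
  rw [hcm, hS, ← mul_sub, ← intervalIntegral.integral_sub (hFc.intervalIntegrable _ _)
    (hPc.intervalIntegrable _ _), norm_mul]
  have hfin : ‖∫ θ in (0 : ℝ)..(2 * Real.pi), (F (Complex.exp (θ * I) • w) - P θ)‖
      ≤ B * ‖w‖ ^ (N + 1) * |2 * Real.pi - 0| := by
    apply intervalIntegral.norm_integral_le_of_norm_le_const
    intro θ _
    exact hrem θ
  rw [sub_zero, abs_of_pos hpi] at hfin
  calc _ ≤ ‖((2 * Real.pi : ℝ) : ℂ)⁻¹‖ * (B * ‖w‖ ^ (N + 1) * (2 * Real.pi)) := by gcongr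
    _ = B * ‖w‖ ^ (N + 1) := by
      rw [norm_inv, Complex.norm_real, Real.norm_of_nonneg hpi.le]
      field_simp

theorem apq_11 {U : Set C2} (hU : IsOpen U) (h0 : (0 : C2) ∈ U) {g : C2 → ℝ}
    (hg : ContDiffOn ℝ ∞ g U) (w : C2) :
    (apq w (fun x => ((g x : ℝ) : ℂ)) 1 1 0).re = T2 g w := by
  have hF : ContDiffOn ℝ ∞ (fun x => ((g x : ℝ) : ℂ)) U :=
    Complex.ofRealCLM.contDiff.comp_contDiffOn hg
  unfold apq T2
  simp only [Function.iterate_one]
  rw [Lw_Lbw_expand hU w hF h0]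
  rfl

theorem apq_22 {U : Set C2} (hU : IsOpen U) (h0 : (0 : C2) ∈ U) {g : C2 → ℝ}
    (hg : ContDiffOn ℝ ∞ g U) (w : C2) :
    (apq w (fun x => ((g x : ℝ) : ℂ)) 2 2 0).re = T4 g w := by
  set F : C2 → ℂ := fun x => ((g x : ℝ) : ℂ) with hFdef
  have hF : ContDiffOn ℝ ∞ F U := Complex.ofRealCLM.contDiff.comp_contDiffOn hg
  have h1 : apq w F 2 2 = Lw w (Lw w (Lbw w (Lbw w F))) := rfl
  have hb := contDiffOn_Lbw hU w hF
  have h2 : Lw w (Lw w (Lbw w (Lbw w F))) 0 = Lw w (Lbw w (Lw w (Lbw w F))) 0 :=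
    Lw_congr hU w (Lw_comm hU w hb).symm h0
  have hA : Set.EqOn (Lw w (Lbw w F))
      (fun z => ∑ j, ∑ k, w j * conj (w k) * cHess g z j k) U := by
    intro z hz
    rw [Lw_Lbw_expand hU w hF hz]
    rfl
  have h3 : Lw w (Lbw w (Lw w (Lbw w F))) 0
      = Lw w (Lbw w (fun z => ∑ j, ∑ k, w j * conj (w k) * cHess g z j k)) 0 :=
    Lw_congr hU w (Lbw_congr hU w hA) h0
  have hH : ∀ j k, ContDiffOn ℝ ∞ (fun z => cHess g z j k) U := fun j k =>
    contDiffOn_cHess hU j k hg
  have hB : Set.EqOn (Lbw w (fun z => ∑ j, ∑ k, w j * conj (w k) * cHess g z j k))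
      (fun z => ∑ l, ∑ j, ∑ k, conj (w l) * (w j * conj (w k))
        * dzb l (fun x => cHess g x j k) z) U := by
    intro z hz
    unfold Lbw
    apply Finset.sum_congr rfl
    intro l _
    rw [dzb_sum _ _ (fun j _ => DifferentiableAt.fun_sum fun k _ =>
      (diffAt_of hU (hH j k) hz).const_mul _), Finset.mul_sum]
    apply Finset.sum_congr rfl
    intro j _
    rw [dzb_sum _ _ (fun k _ => (diffAt_of hU (hH j k) hz).const_mul _), Finset.mul_sum]
    apply Finset.sum_congr rfl
    intro k _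
    rw [dzb_const_mul _ _ (diffAt_of hU (hH j k) hz)]
    ring
  have h4 : Lw w (Lbw w (fun z => ∑ j, ∑ k, w j * conj (w k) * cHess g z j k)) 0
      = Lw w (fun z => ∑ l, ∑ j, ∑ k, conj (w l) * (w j * conj (w k))
        * dzb l (fun x => cHess g x j k) z) 0 := Lw_congr hU w hB h0
  have hD : ∀ l j k, DifferentiableAt ℝ (fun z => dzb l (fun x => cHess g x j k) z) 0 :=
    fun l j k => diffAt_of hU (contDiffOn_dzb hU l (hH j k)) h0
  have h5 : Lw w (fun z => ∑ l, ∑ j, ∑ k, conj (w l) * (w j * conj (w k))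
        * dzb l (fun x => cHess g x j k) z) 0
      = ∑ i, ∑ l, ∑ j, ∑ k, w i * (conj (w l) * (w j * conj (w k))
        * dz i (fun z => dzb l (fun x => cHess g x j k) z) 0) := by
    unfold Lw
    apply Finset.sum_congr rfl
    intro i _
    rw [dz_sum _ _ (fun l _ => DifferentiableAt.fun_sum fun j _ => DifferentiableAt.fun_sum
      fun k _ => (hD l j k).const_mul _), Finset.mul_sum]
    apply Finset.sum_congr rfl
    intro l _
    rw [dz_sum _ _ (fun j _ => DifferentiableAt.fun_sum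
      fun k _ => (hD l j k).const_mul _), Finset.mul_sum]
    apply Finset.sum_congr rfl
    intro j _
    rw [dz_sum _ _ (fun k _ => (hD l j k).const_mul _), Finset.mul_sum]
    apply Finset.sum_congr rfl
    intro k _
    rw [dz_const_mul _ _ (hD l j k)]
  rw [h1, h2, h3, h4, h5]
  unfold T4 d4
  congr 1
  apply Finset.sum_congr rfl
  intro i _
  rw [Finset.sum_comm]
  apply Finset.sum_congr rfl
  intro j _
  rw [Finset.sum_comm]
  apply Finset.sum_congr rfl
  intro k _
  apply Finset.sum_congr rfl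
  intro l _
  ring

/-- circle means up to order 4, uniform remainder -/
theorem circle_taylor4 : ∃ C : ℝ, 0 ≤ C ∧ ∀ (g : C2 → ℝ) (U : Set C2), IsOpen U → ∀ r : ℝ, 0 < r →
    Metric.closedBall (0 : C2) r ⊆ U → ContDiffOn ℝ ∞ g U → ∀ B : ℝ,
    (∀ w ∈ Metric.closedBall (0 : C2) r, ‖iteratedFDeriv ℝ 5 g w‖ ≤ B) →
    ∀ w ∈ Metric.closedBall (0 : C2) r,
      |cmean g w - (g 0 + T2 g w + T4 g w / 4)| ≤ C * B * ‖w‖ ^ 5 := by
  refine ⟨1, zero_le_one, ?_⟩
  intro g U hU r hr hrU hg B hB w hw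
  have h0 : (0 : C2) ∈ U := hrU (Metric.mem_closedBall_self hr.le)
  have h := circle_taylorN 4 g U hU r hrU hg B hB w hw
  rw [one_mul]
  refine le_trans ?_ h
  refine le_trans ?_ (Complex.abs_re_le_norm _)
  apply le_of_eq
  congr 1
  rw [Complex.sub_re, Complex.ofReal_re]
  congr 1
  rw [← apq_11 hU h0 hg w, ← apq_22 hU h0 hg w]
  simp [Finset.sum_range_succ, Finset.Nat.antidiagonal_succ, Nat.factorial, Nat.choose, apq]
  ring

/-- circle means up to order 2, uniform remainder -/
theorem circle_taylor2 : ∃ C : ℝ, 0 ≤ C ∧ ∀ (g : C2 → ℝ) (U : Set C2), IsOpen U → ∀ r : ℝ, 0 < r →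
    Metric.closedBall (0 : C2) r ⊆ U → ContDiffOn ℝ ∞ g U → ∀ B : ℝ,
    (∀ w ∈ Metric.closedBall (0 : C2) r, ‖iteratedFDeriv ℝ 3 g w‖ ≤ B) →
    ∀ w ∈ Metric.closedBall (0 : C2) r,
      |cmean g w - (g 0 + T2 g w)| ≤ C * B * ‖w‖ ^ 3 := by
  refine ⟨1, zero_le_one, ?_⟩
  intro g U hU r hr hrU hg B hB w hw
  have h0 : (0 : C2) ∈ U := hrU (Metric.mem_closedBall_self hr.le)
  have h := circle_taylorN 2 g U hU r hrU hg B hB w hw
  rw [one_mul]
  refine le_trans ?_ h
  refine le_trans ?_ (Complex.abs_re_le_norm _)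
  apply le_of_eq
  congr 1
  rw [Complex.sub_re, Complex.ofReal_re]
  congr 1
  rw [← apq_11 hU h0 hg w]
  simp [Finset.sum_range_succ, Finset.Nat.antidiagonal_succ, Nat.factorial, Nat.choose, apq]

end taylor

theorem mp_rot (θ : ℝ) :
    MeasurePreserving (fun w : C2 => Complex.exp (θ * I) • w) volume volume := by
  have h1 : MeasurePreserving (fun z : ℂ => Complex.exp (θ * I) * z) volume volume := by
    have e : (fun z : ℂ => Complex.exp (θ * I) * z) = rotation (Circle.exp θ) := by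
      funext z
      simp [rotation_apply]
    rw [e]
    exact (rotation (Circle.exp θ)).measurePreserving
  exact volume_preserving_pi (fun _ : Fin 2 => h1)

/-- integrals over rotation invariant balls equal the integrals of the circle averages -/
theorem integral_ball_cmean {g : C2 → ℝ} {r : ℝ} (hr : 0 < r)
    (hg : ContinuousOn g (Metric.closedBall (0 : C2) r)) :
    ∫ w in Metric.closedBall (0 : C2) r, g w
      = ∫ w in Metric.closedBall (0 : C2) r, cmean g w := by
  have hrot : ∀ θ : ℝ, ∫ w in Metric.closedBall (0 : C2) r, g (Complex.exp (θ * I) • w)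
      = ∫ w in Metric.closedBall (0 : C2) r, g w := by
    intro θ
    have hme : MeasurableEmbedding (fun w : C2 => Complex.exp (θ * I) • w) :=
      (Homeomorph.smulOfNeZero (Complex.exp (θ * I)) (Complex.exp_ne_zero _)).measurableEmbedding
    have := (mp_rot θ).setIntegral_preimage_emb hme g (Metric.closedBall (0 : C2) r)
    rw [← this]
    congr 1
    congr 1
    ext w
    simp only [mem_closedBall_zero_iff, Set.mem_preimage]
    rw [norm_exp_smul]
  have hpi : (0 : ℝ) < 2 * Real.pi := by positivity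
  have hcont : ContinuousOn (fun p : C2 × ℝ => g (Complex.exp (p.2 * I) • p.1))
      (Metric.closedBall (0 : C2) r ×ˢ Set.Icc 0 (2 * Real.pi)) := by
    apply hg.comp (by fun_prop)
    rintro ⟨w, θ⟩ ⟨hw, _⟩
    simp only [mem_closedBall_zero_iff] at *
    rwa [norm_exp_smul]
  have hint : IntegrableOn (fun p : C2 × ℝ => g (Complex.exp (p.2 * I) • p.1))
      (Metric.closedBall (0 : C2) r ×ˢ Set.Ioc 0 (2 * Real.pi)) := by
    have hK : IsCompact (Metric.closedBall (0 : C2) r ×ˢ Set.Icc 0 (2 * Real.pi)) :=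
      (isCompact_closedBall _ _).prod isCompact_Icc
    exact (hcont.integrableOn_compact hK).mono_set (Set.prod_mono le_rfl Set.Ioc_subset_Icc_self)
  have hint' : Integrable (Function.uncurry fun (w : C2) (θ : ℝ) => g (Complex.exp (θ * I) • w))
      ((volume.restrict (Metric.closedBall (0 : C2) r)).prod
        (volume.restrict (Set.Ioc 0 (2 * Real.pi)))) := by
    rw [Measure.prod_restrict]
    exact hint
  have hsw := integral_integral_swap hint'
  unfold cmean
  rw [integral_const_mul]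
  simp_rw [intervalIntegral.integral_of_le hpi.le]
  rw [hsw]
  simp_rw [hrot]
  rw [setIntegral_const]
  simp only [measureReal_def, Real.volume_Ioc, sub_zero, smul_eq_mul]
  rw [ENNReal.toReal_ofReal hpi.le]
  field_simp

end

end Pool.Agent.KS
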