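import Pool.Agent.KS.Berg2Aux

/-!
# The Bergman upper bound in normal coordinates (module BERG2B)
-/

namespace Pool.Agent.KS

open MeasureTheory Complex Topology
open scoped ContDiff Matrix ComplexOrder ComplexConjugate Manifold Interval

noncomputable section

/-- The Bergman upper bound in normal coordinates, with uniform constants. -/
theorem bergman_origin (r B : ℝ) (hr : 0 < r) : ∃ C : ℝ, ∃ k0 : ℕ, 0 < k0 ∧
    ∀ (φ : C2 → ℝ) (U : Set C2), IsOpen U → Metric.closedBall (0 : C2) r ⊆ U →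
    ContDiffOn ℝ ∞ φ U → (∀ z ∈ U, 0 < dt φ z) → cHess φ 0 = 1 →
    (∀ i j l, dz l (fun w => cHess φ w i j) 0 = 0) →
    ‖iteratedFDeriv ℝ 4 φ 0‖ ≤ B → ‖iteratedFDeriv ℝ 2 (fun w => Real.log (dt φ w)) 0‖ ≤ B →
    (∀ w ∈ Metric.closedBall (0 : C2) r, ‖iteratedFDeriv ℝ 5 φ w‖ ≤ B) →
    (∀ w ∈ Metric.closedBall (0 : C2) r,
      ‖iteratedFDeriv ℝ 3 (fun w => Real.log (dt φ w)) w‖ ≤ B) →
    ∀ k : ℕ, k0 ≤ k → ∀ f : C2 → ℂ, DifferentiableOn ℂ f U →
      ‖f 0‖ ^ 2 * Real.exp (-k * φ 0)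
        ≤ (k : ℝ) ^ 2 / Real.pi ^ 2 * (1 + sh φ 0 / k + C / (k * Real.sqrt k))
          * ∫ w in Metric.closedBall (0 : C2) r, ‖f w‖ ^ 2 * Real.exp (-k * φ w) * dt φ w := by
  obtain ⟨C4, hC4, hT4⟩ := circle_taylor4
  obtain ⟨C2', hC2, hT2⟩ := circle_taylor2
  obtain ⟨G0, hG0⟩ := gauss_bound 0
  obtain ⟨G2, hG2⟩ := gauss_bound 2
  obtain ⟨G4, hG4⟩ := gauss_bound 4
  obtain ⟨G3, hG3⟩ := gauss_bound 3
  obtain ⟨G5, hG5⟩ := gauss_bound 5
  set B0 : ℝ := |B| with hB0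
  have hB00 : 0 ≤ B0 := abs_nonneg _
  set a3 : ℝ := 1 / r ^ 3 + 4 * B0 / r + C2' * B0 with ha3
  set a5 : ℝ := 4 * B0 / r + C4 * B0 with ha5
  have ha30 : 0 ≤ a3 := by rw [ha3]; positivity
  have ha50 : 0 ≤ a5 := by rw [ha5]; positivity
  set Cp : ℝ := a3 * |G3| + a5 * |G5| with hCp
  have hCp0 : 0 ≤ Cp := by rw [hCp]; positivity
  -- `|sh| ≤ 2 B0`; constants
  set x0 : ℝ := 4 * B0 + Cp with hx0
  have hx00 : 0 ≤ x0 := by rw [hx0]; positivity
  refine ⟨Cp + 2 * x0 ^ 2, ⌈2 * x0⌉₊ + 1, by omega, ?_⟩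
  intro φ U hU hrU hφ hpos hc0 hc1 hb4 hb2 hb5 hb3 k hk f hf
  have hkr : 2 * x0 + 1 ≤ k := by
    have h1 := Nat.le_ceil (2 * x0)
    have h2 : ((⌈2 * x0⌉₊ + 1 : ℕ) : ℝ) ≤ k := by exact_mod_cast hk
    push_cast at h2
    linarith
  have hk1 : (1:ℝ) ≤ k := by linarith
  have hk0 : (0:ℝ) < k := by linarith
  have h0U : (0 : C2) ∈ U := hrU (Metric.mem_closedBall_self hr.le)
  set L : C2 → ℝ := fun w => Real.log (dt φ w) with hL
  have hLs : ContDiffOn ℝ ∞ L U := contDiffOn_log_dt hU hφ hpos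
  have hBB : B ≤ B0 := le_abs_self B
  have hb4' := hb4.trans hBB
  have hb2' : ‖iteratedFDeriv ℝ 2 L 0‖ ≤ B0 := hb2.trans hBB
  have hL0 : L 0 = 0 := by
    rw [hL]
    simp only
    rw [dt_zero hc0, Real.log_one]
  have hT2φ : ∀ w, T2 φ w = nr w := by
    intro w
    unfold T2 nr
    rw [hc0]
    simp only [Fin.sum_univ_two, Matrix.one_apply_eq]
    have e1 : (1 : Matrix (Fin 2) (Fin 2) ℂ) 0 1 = 0 := by simp
    have e2 : (1 : Matrix (Fin 2) (Fin 2) ℂ) 1 0 = 0 := by simp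
    rw [e1, e2, mul_one, mul_zero, mul_zero, mul_one, add_zero, zero_add, Complex.mul_conj,
      Complex.mul_conj, ← Complex.ofReal_add, Complex.ofReal_re, Complex.normSq_eq_norm_sq,
      Complex.normSq_eq_norm_sq]
  -- model functions
  set E : C2 → ℝ := fun w => Real.exp (-(k:ℝ) * nr w) with hE
  have hEc : Continuous E := by
    rw [hE]
    exact Real.continuous_exp.comp (continuous_const.mul continuous_nr)
  have hE0 : ∀ w, 0 < E w := fun w => Real.exp_pos _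
  set D : C2 → ℝ := fun w => 1 - k * T4 φ w / 4 + T2 L w with hD
  have hDc : Continuous D := by
    rw [hD]
    exact (continuous_const.sub ((continuous_const.mul (continuous_T4 φ)).div_const 4)).add
      (continuous_T2 L)
  set H : C2 → ℝ := fun w => a3 * ‖w‖ ^ 3 + k * a5 * ‖w‖ ^ 5 with hH
  have hHc : Continuous H := by rw [hH]; fun_prop
  have hDabs : ∀ w, |D w| ≤ 1 + 4 * k * B0 * ‖w‖ ^ 4 + 4 * B0 * ‖w‖ ^ 2 := by
    intro w
    have e1 := abs_T4_le hU hφ h0U hb4' w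
    have e2 := abs_T2_le hU hLs h0U hb2' w
    rw [hD]
    simp only
    have e3 : |1 - k * T4 φ w / 4 + T2 L w| ≤ 1 + k * |T4 φ w| / 4 + |T2 L w| := by
      refine (abs_add_le _ _).trans ?_
      gcongr
      have e5 : |1 - k * T4 φ w / 4| ≤ |(1:ℝ)| + |k * T4 φ w / 4| := by
        rw [sub_eq_add_neg]
        refine (abs_add_le _ _).trans ?_
        rw [abs_neg]
      refine e5.trans ?_
      rw [abs_one, abs_div, abs_mul, abs_of_pos hk0]
      norm_num
    refine e3.trans ?_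
    calc 1 + k * |T4 φ w| / 4 + |T2 L w| ≤ 1 + k * (16 * B0 * ‖w‖ ^ 4) / 4 + 4 * B0 * ‖w‖ ^ 2 := by
          gcongr
      _ = _ := by ring
  -- the pointwise lower bound
  have hpt : ∀ w ∈ Metric.closedBall (0 : C2) r,
      Real.exp (-k * φ 0) * (E w * (D w - H w)) ≤
        Real.exp (cmean (fun x => -(k:ℝ) * φ x + L x) w) := by
    intro w hw
    have c1 := hT4 φ U hU r hr hrU hφ B0 (fun v hv => (hb5 v hv).trans hBB) w hw
    have c2 := hT2 L U hU r hr hrU hLs B0 (fun v hv => (hb3 v hv).trans hBB) w hw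
    rw [hT2φ] at c1
    rw [hL0, zero_add] at c2
    rw [cmean_lin (hφ.continuousOn.mono hrU) (hLs.continuousOn.mono hrU) _ hw]
    have c3 := (abs_le.mp c1).2
    have c4 := (abs_le.mp c2).1
    have hcomp : -(k:ℝ) * φ 0 + (-(k:ℝ) * nr w) + (D w - H w - 1) ≤
        -(k:ℝ) * cmean φ w + cmean L w := by
      have e1 : k * cmean φ w ≤ k * (φ 0 + nr w + T4 φ w / 4 + C4 * B0 * ‖w‖ ^ 5) := by
        apply mul_le_mul_of_nonneg_left _ hk0.le
        linarith
      have e2 : C2' * B0 * ‖w‖ ^ 3 ≤ a3 * ‖w‖ ^ 3 := by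
        have h1 : C2' * B0 ≤ a3 := by
          rw [ha3]
          have : 0 ≤ 1 / r ^ 3 + 4 * B0 / r := by positivity
          linarith
        exact mul_le_mul_of_nonneg_right h1 (by positivity)
      have e3 : k * (C4 * B0 * ‖w‖ ^ 5) ≤ k * a5 * ‖w‖ ^ 5 := by
        have h1 : C4 * B0 ≤ a5 := by
          rw [ha5]
          have : 0 ≤ 4 * B0 / r := by positivity
          linarith
        have h2 : C4 * B0 * ‖w‖ ^ 5 ≤ a5 * ‖w‖ ^ 5 :=
          mul_le_mul_of_nonneg_right h1 (by positivity)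
        calc k * (C4 * B0 * ‖w‖ ^ 5) ≤ k * (a5 * ‖w‖ ^ 5) := mul_le_mul_of_nonneg_left h2 hk0.le
          _ = _ := by ring
      have e4 : D w - H w - 1 = -(k * T4 φ w / 4) + T2 L w - a3 * ‖w‖ ^ 3 - k * a5 * ‖w‖ ^ 5 := by
        rw [hD, hH]
        ring
      have e5 : k * (φ 0 + nr w + T4 φ w / 4 + C4 * B0 * ‖w‖ ^ 5) =
          k * φ 0 + k * nr w + k * T4 φ w / 4 + k * (C4 * B0 * ‖w‖ ^ 5) := by ring
      rw [e4]
      rw [e5] at e1
      clear_value B0 a3 a5 D H E L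
      linarith only [e1, e2, e3, c4]
    have e4 := Real.exp_le_exp.mpr hcomp
    refine le_trans ?_ e4
    rw [Real.exp_add, Real.exp_add, mul_assoc]
    have e5 := Real.add_one_le_exp (D w - H w - 1)
    rw [sub_add_cancel] at e5
    have e6 : 0 ≤ Real.exp (-(k:ℝ) * φ 0) := (Real.exp_pos _).le
    apply mul_le_mul_of_nonneg_left _ e6
    exact mul_le_mul_of_nonneg_left e5 (Real.exp_pos _).le
  -- outside the ball
  have hout : ∀ w, w ∉ Metric.closedBall (0 : C2) r → E w * (D w - H w) ≤ 0 := by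
    intro w hw
    rw [mem_closedBall_zero_iff, not_le] at hw
    apply mul_nonpos_of_nonneg_of_nonpos (hE0 w).le
    have e1 := (le_abs_self (D w)).trans (hDabs w)
    have hw1 : 1 ≤ ‖w‖ / r := by rw [le_div_iff₀ hr]; linarith
    have hwn : 0 ≤ ‖w‖ := norm_nonneg _
    have e2 : (1:ℝ) ≤ 1 / r ^ 3 * ‖w‖ ^ 3 := by
      have : 1 / r ^ 3 * ‖w‖ ^ 3 = (‖w‖ / r) ^ 3 := by rw [div_pow]; ring
      rw [this]
      exact one_le_pow₀ hw1
    have e3 : 4 * B0 * ‖w‖ ^ 2 ≤ 4 * B0 / r * ‖w‖ ^ 3 := by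
      have : 4 * B0 / r * ‖w‖ ^ 3 = 4 * B0 * ‖w‖ ^ 2 * (‖w‖ / r) := by ring
      rw [this]
      exact le_mul_of_one_le_right (by positivity) hw1
    have e4 : 4 * k * B0 * ‖w‖ ^ 4 ≤ k * (4 * B0 / r) * ‖w‖ ^ 5 := by
      have : k * (4 * B0 / r) * ‖w‖ ^ 5 = 4 * k * B0 * ‖w‖ ^ 4 * (‖w‖ / r) := by ring
      rw [this]
      exact le_mul_of_one_le_right (by positivity) hw1
    have e5 : 0 ≤ C2' * B0 * ‖w‖ ^ 3 := by positivity
    have e6 : 0 ≤ k * (C4 * B0) * ‖w‖ ^ 5 := by positivity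
    have e7 : H w = 1 / r ^ 3 * ‖w‖ ^ 3 + 4 * B0 / r * ‖w‖ ^ 3 + C2' * B0 * ‖w‖ ^ 3 +
        (k * (4 * B0 / r) * ‖w‖ ^ 5 + k * (C4 * B0) * ‖w‖ ^ 5) := by
      rw [hH, ha3, ha5]
      ring
    rw [e7]
    linarith only [e1, e2, e3, e4, e5, e6]
  -- integrability on the whole space
  have hint : ∀ {g : C2 → ℝ} {c : ℝ} {m : ℕ}, Continuous g → (∀ w, |g w| ≤ c * ‖w‖ ^ m) →
      Integrable (fun w => g w * E w) := by
    intro g c m hg hgb
    obtain ⟨G, hG⟩ := gauss_bound m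
    refine ((hG k hk1).1.const_mul c).mono' (hg.mul hEc).aestronglyMeasurable ?_
    filter_upwards with w
    rw [norm_mul, Real.norm_eq_abs, Real.norm_of_nonneg (hE0 w).le, ← mul_assoc]
    exact mul_le_mul_of_nonneg_right (hgb w) (hE0 w).le
  have i1 : Integrable (fun w : C2 => (1:ℝ) * E w) :=
    hint (c := 1) (m := 0) continuous_const (fun w => by simp)
  have i2 : Integrable (fun w : C2 => T2 L w * E w) :=
    hint (continuous_T2 L) (abs_T2_le hU hLs h0U hb2')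
  have i4 : Integrable (fun w : C2 => T4 φ w * E w) :=
    hint (continuous_T4 φ) (abs_T4_le hU hφ h0U hb4')
  have i3 : Integrable (fun w : C2 => ‖w‖ ^ 3 * E w) := (hG3 k hk1).1
  have i5 : Integrable (fun w : C2 => ‖w‖ ^ 5 * E w) := (hG5 k hk1).1
  have hfun : (fun w => E w * (D w - H w)) = fun w =>
      (1:ℝ) * E w + (-(k:ℝ) / 4) * (T4 φ w * E w) + T2 L w * E w +
        ((-a3) * (‖w‖ ^ 3 * E w) + (-(k * a5)) * (‖w‖ ^ 5 * E w)) := by
    funext w
    rw [hD, hH]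
    ring
  have iA : Integrable (fun w => E w * (D w - H w)) := by
    rw [hfun]
    exact ((i1.add (i4.const_mul _)).add i2).add ((i3.const_mul _).add (i5.const_mul _))
  have hval : Real.pi ^ 2 / k ^ 2 * (1 - sh φ 0 / k - Cp / (k * √k)) ≤
      ∫ w, E w * (D w - H w) := by
    have e0 : ∫ w, E w * (D w - H w) = (∫ w : C2, (1:ℝ) * E w) + (-(k:ℝ) / 4) * (∫ w, T4 φ w * E w) +
        (∫ w, T2 L w * E w) + ((-a3) * (∫ w : C2, ‖w‖ ^ 3 * E w) +
          (-(k * a5)) * ∫ w : C2, ‖w‖ ^ 5 * E w) := by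
      have j4 : Integrable (fun w : C2 => (-(k:ℝ) / 4) * (T4 φ w * E w)) := i4.const_mul _
      have j3 : Integrable (fun w : C2 => (-a3) * (‖w‖ ^ 3 * E w)) := i3.const_mul _
      have j5 : Integrable (fun w : C2 => (-(k * a5)) * (‖w‖ ^ 5 * E w)) := i5.const_mul _
      have j14 : Integrable (fun w : C2 => (1:ℝ) * E w + (-(k:ℝ) / 4) * (T4 φ w * E w)) :=
        i1.add j4
      have j142 : Integrable (fun w : C2 => (1:ℝ) * E w + (-(k:ℝ) / 4) * (T4 φ w * E w) +
        T2 L w * E w) := j14.add i2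
      have j35 : Integrable (fun w : C2 => (-a3) * (‖w‖ ^ 3 * E w) +
        (-(k * a5)) * (‖w‖ ^ 5 * E w)) := j3.add j5
      rw [hfun, integral_add j142 j35, integral_add j14 i2, integral_add i1 j4,
        integral_add j3 j5, integral_const_mul, integral_const_mul, integral_const_mul,
        integral_const_mul]
    have v0 : ∫ w : C2, (1:ℝ) * E w = Real.pi ^ 2 / k ^ 2 := by
      simp only [one_mul]
      exact gauss_0 hk0
    have v4 := gauss_4 hk0 (fun i j s l => d4 φ i j s l 0)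
    have v2 := gauss_2 hk0 (cHess L 0)
    have v4' : ∫ w, T4 φ w * E w = Real.pi ^ 2 / k ^ 2 *
        ((∑ i, ∑ j, (d4 φ i j i j 0 + d4 φ i j j i 0)).re / k ^ 2) := v4
    have v2' : ∫ w, T2 L w * E w = Real.pi ^ 2 / k ^ 2 *
        ((cHess L 0 0 0 + cHess L 0 1 1).re / k) := v2
    obtain ⟨q1, q2⟩ := quartic_identity hU h0U hφ hc0 hc1
    set S : ℝ := (cHess L 0 0 0 + cHess L 0 1 1).re with hS
    rw [q1] at v4'
    have b3 := (hG3 k hk1).2
    have b5 := (hG5 k hk1).2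
    set P : ℝ := Real.pi ^ 2 / k ^ 2 with hP
    have hP0 : 0 < P := by rw [hP]; positivity
    have hsk : 0 < √(k:ℝ) := Real.sqrt_pos.mpr hk0
    have hsk2 : √(k:ℝ) * √k = k := Real.mul_self_sqrt hk0.le
    have b3' : ∫ w : C2, ‖w‖ ^ 3 * E w ≤ |G3| * P * (1 / (k * √k)) := by
      have e1 : √(k:ℝ) ^ 3 = k * √k := by
        calc √(k:ℝ) ^ 3 = (√(k:ℝ) * √k) * √k := by ring
          _ = _ := by rw [hsk2]
      rw [e1] at b3
      refine b3.trans ?_
      gcongr
      exact le_abs_self _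
    have b5' : k * ∫ w : C2, ‖w‖ ^ 5 * E w ≤ |G5| * P * (1 / (k * √k)) := by
      have e1 : √(k:ℝ) ^ 5 = k * (k * √k) := by
        calc √(k:ℝ) ^ 5 = (√(k:ℝ) * √k) * ((√(k:ℝ) * √k) * √k) := by ring
          _ = _ := by rw [hsk2]
      rw [e1] at b5
      calc k * ∫ w : C2, ‖w‖ ^ 5 * E w ≤ k * (|G5| * P * (1 / (k * (k * √k)))) := by
            gcongr
            refine b5.trans ?_
            gcongr
            exact le_abs_self _
        _ = |G5| * P * (1 / (k * √k)) := by field_simp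
    rw [e0, v0, v4', v2', q2]
    have e5 : P * (1 - -(S / 2) / k - Cp / (k * √k)) =
        P + -(k:ℝ) / 4 * (P * (2 * S / k ^ 2)) + P * (S / k) - P * (Cp / (k * √k)) := by
      field_simp
      ring
    rw [e5]
    have e6 : -(P * (Cp / (k * √k))) ≤ -a3 * (∫ w : C2, ‖w‖ ^ 3 * E w) +
        -(k * a5) * ∫ w : C2, ‖w‖ ^ 5 * E w := by
      have e7 : a3 * (∫ w : C2, ‖w‖ ^ 3 * E w) ≤ a3 * (|G3| * P * (1 / (k * √k))) := by gcongr
      have e8 : a5 * (k * ∫ w : C2, ‖w‖ ^ 5 * E w) ≤ a5 * (|G5| * P * (1 / (k * √k))) := by gcongr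
      have e9 : P * (Cp / (k * √k)) = a3 * (|G3| * P * (1 / (k * √k))) +
          a5 * (|G5| * P * (1 / (k * √k))) := by
        rw [hCp]; ring
      rw [e9]
      have e10 : -(k * a5) * (∫ w : C2, ‖w‖ ^ 5 * E w) =
          -(a5 * (k * ∫ w : C2, ‖w‖ ^ 5 * E w)) := by ring
      rw [e10]
      linarith only [e7, e8]
    linarith only [e6]
  -- the integral over the ball
  have hball : ∫ w, E w * (D w - H w) ≤
      ∫ w in Metric.closedBall (0 : C2) r, E w * (D w - H w) := by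
    have h1 := integral_add_compl (μ := volume) (s := Metric.closedBall (0 : C2) r)
      Metric.isClosed_closedBall.measurableSet iA
    rw [← h1]
    have h2 : ∫ w in (Metric.closedBall (0 : C2) r)ᶜ, E w * (D w - H w) ≤ 0 := by
      apply setIntegral_nonpos Metric.isClosed_closedBall.measurableSet.compl
      intro w hw
      exact hout w hw
    linarith
  set Ff : C2 → ℝ := fun x => ‖f x‖ ^ 2 * Real.exp (-(k:ℝ) * φ x + L x) with hFf
  have hbc : ContinuousOn (fun x => -(k:ℝ) * φ x + L x) U :=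
    (hφ.continuousOn.const_smul (-(k:ℝ))).add hLs.continuousOn
  have hFfc : ContinuousOn Ff (Metric.closedBall (0 : C2) r) := by
    apply ContinuousOn.mono _ hrU
    exact (hf.continuousOn.norm.pow 2).mul (Real.continuous_exp.comp_continuousOn hbc)
  have hI : ∫ w in Metric.closedBall (0 : C2) r, ‖f w‖ ^ 2 * Real.exp (-k * φ w) * dt φ w =
      ∫ w in Metric.closedBall (0 : C2) r, cmean Ff w := by
    rw [← integral_ball_cmean hr hFfc]
    apply setIntegral_congr_fun Metric.isClosed_closedBall.measurableSet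
    intro w hw
    simp only [hFf, hL]
    rw [Real.exp_add, Real.exp_log (hpos w (hrU hw))]
    ring
  have hmono : ‖f 0‖ ^ 2 * (Real.exp (-k * φ 0) *
      ∫ w in Metric.closedBall (0 : C2) r, E w * (D w - H w)) ≤
      ∫ w in Metric.closedBall (0 : C2) r, cmean Ff w := by
    rw [← integral_const_mul, ← integral_const_mul]
    apply setIntegral_mono_on
    · exact ((iA.integrableOn).const_mul _).const_mul _
    · exact integrableOn_cmean hFfc
    · exact Metric.isClosed_closedBall.measurableSet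
    · intro w hw
      refine le_trans ?_ (jensen_circle hU hf hr hrU hbc hw)
      exact mul_le_mul_of_nonneg_left (hpt w hw) (by positivity)
  -- conclusion
  set Int := ∫ w in Metric.closedBall (0 : C2) r, cmean Ff w with hInt
  set A := ‖f 0‖ ^ 2 * Real.exp (-k * φ 0) with hA
  have hA0 : 0 ≤ A := by rw [hA]; positivity
  set x : ℝ := sh φ 0 / k + Cp / (k * √k) with hx
  have hP0 : 0 < Real.pi ^ 2 / (k:ℝ) ^ 2 := by positivity
  have hmain : A * (Real.pi ^ 2 / k ^ 2 * (1 - x)) ≤ Int := by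
    have e1 : 1 - x = 1 - sh φ 0 / k - Cp / (k * √k) := by rw [hx]; ring
    rw [e1]
    calc A * (Real.pi ^ 2 / k ^ 2 * (1 - sh φ 0 / k - Cp / (k * √k))) ≤
          A * ∫ w in Metric.closedBall (0 : C2) r, E w * (D w - H w) := by
          gcongr
          exact hval.trans hball
      _ = ‖f 0‖ ^ 2 * (Real.exp (-k * φ 0) *
          ∫ w in Metric.closedBall (0 : C2) r, E w * (D w - H w)) := by rw [hA]; ring
      _ ≤ Int := hmono
  have hsk1 : 1 ≤ √(k:ℝ) := Real.one_le_sqrt.mpr hk1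
  have hshb : |sh φ 0| ≤ 4 * B0 := by
    obtain ⟨-, q2⟩ := quartic_identity hU h0U hφ hc0 hc1
    rw [q2, abs_neg, abs_div, abs_of_pos (by norm_num : (0:ℝ) < 2)]
    have e1 := (norm_cHess_le hU hLs h0U 0 0).trans hb2'
    have e2 := (norm_cHess_le hU hLs h0U 1 1).trans hb2'
    have e3 : |(cHess L 0 0 0 + cHess L 0 1 1).re| ≤ B0 + B0 :=
      (Complex.abs_re_le_norm _).trans ((norm_add_le _ _).trans (add_le_add e1 e2))
    have e4 : |(cHess L 0 0 0 + cHess L 0 1 1).re| / 2 ≤ (B0 + B0) / 2 := by gcongr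
    refine e4.trans ?_
    linarith
  have hxb : |x| ≤ x0 / k := by
    have e1 : |x| ≤ |sh φ 0 / k| + |Cp / (k * √k)| := abs_add_le _ _
    have e2 : |sh φ 0 / k| ≤ 4 * B0 / k := by
      rw [abs_div, abs_of_pos hk0]
      exact div_le_div_of_nonneg_right hshb hk0.le
    have e3 : |Cp / (k * √k)| ≤ Cp / k := by
      rw [abs_of_nonneg (by positivity)]
      exact div_le_div_of_nonneg_left hCp0 hk0 (le_mul_of_one_le_right hk0.le hsk1)
    have e4 : x0 / k = 4 * B0 / k + Cp / k := by rw [hx0, add_div]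
    rw [e4]
    linarith only [e1, e2, e3]
  have hxh : |x| ≤ 1 / 2 := by
    refine hxb.trans ?_
    rw [div_le_div_iff₀ hk0 (by norm_num)]
    linarith
  have hx1 : 1 / 2 ≤ 1 - x := by linarith [(abs_le.mp hxh).2]
  have hx2 : 1 / (1 - x) ≤ 1 + x + 2 * x ^ 2 := by
    rw [div_le_iff₀ (by linarith)]
    have e1 : (1 + x + 2 * x ^ 2) * (1 - x) = 1 + x ^ 2 * (1 - 2 * x) := by ring
    rw [e1]
    have e2 : 0 ≤ x ^ 2 * (1 - 2 * x) := mul_nonneg (sq_nonneg x) (by linarith)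
    linarith only [e2]
  have hInt0 : 0 ≤ Int := by
    refine le_trans ?_ hmain
    have : 0 ≤ 1 - x := by linarith
    positivity
  have hfin : A ≤ (k : ℝ) ^ 2 / Real.pi ^ 2 * (1 / (1 - x)) * Int := by
    have h1 : A = (k : ℝ) ^ 2 / Real.pi ^ 2 * (1 / (1 - x)) * (A * (Real.pi ^ 2 / k ^ 2 * (1 - x))) := by
      have : 1 - x ≠ 0 := by linarith
      field_simp
    rw [h1]
    have : 0 ≤ 1 / (1 - x) := by
      apply div_nonneg zero_le_one; linarith
    gcongr
  rw [hI]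
  refine hfin.trans ?_
  have hx3 : x ^ 2 ≤ x0 ^ 2 / (k * √k) := by
    have h1 : x ^ 2 ≤ (x0 / k) ^ 2 := by
      rw [← sq_abs x]
      gcongr
    refine h1.trans ?_
    rw [div_pow]
    gcongr
    have h2 : √(k:ℝ) ≤ k := by
      have h3 := Real.mul_self_sqrt hk0.le
      have h4 := mul_le_mul_of_nonneg_left hsk1 (Real.sqrt_nonneg (k:ℝ))
      rwa [mul_one, h3] at h4
    rw [pow_two]
    gcongr
  have hx4 : 1 / (1 - x) ≤ 1 + sh φ 0 / k + (Cp + 2 * x0 ^ 2) / (k * √k) := by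
    refine hx2.trans ?_
    have : (Cp + 2 * x0 ^ 2) / (k * √k) = Cp / (k * √k) + 2 * (x0 ^ 2 / (k * √k)) := by ring
    rw [this]
    have h5 : x = sh φ 0 / k + Cp / (k * √k) := hx
    linarith
  gcongr

end

end Pool.Agent.KS
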