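import Pool.Agent.KS.Base

/-!
# Gaussian moments on `ℂ²` (module BERG2A)
-/

namespace Pool.Agent.KS

open MeasureTheory Complex Topology
open scoped ContDiff Matrix ComplexOrder ComplexConjugate Manifold Interval

noncomputable section

/-- Hermitian norm squared on `ℂ²`. -/
def nr (w : C2) : ℝ := ‖w 0‖ ^ 2 + ‖w 1‖ ^ 2

namespace Gauss

theorem integral_norm_pow (m : ℕ) {k : ℝ} (hk : 0 < k) :
    ∫ w : ℂ, ‖w‖ ^ m * Real.exp (-k * ‖w‖ ^ 2) =
      Real.pi * k ^ (-((m : ℝ) + 2) / 2) * Real.Gamma (((m : ℝ) + 2) / 2) := by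
  have h := Complex.integral_rpow_mul_exp_neg_mul_rpow (p := 2) (q := m) (b := k) (by norm_num)
    (by have : (0 : ℝ) ≤ m := Nat.cast_nonneg m
        linarith) hk
  have e : (2 * Real.pi / 2 : ℝ) = Real.pi := by ring
  rw [e] at h
  rw [← h]
  refine integral_congr_ae (Filter.Eventually.of_forall fun w => ?_)
  simp only [Real.rpow_natCast]
  rw [show ((2 : ℝ)) = ((2 : ℕ) : ℝ) by norm_num, Real.rpow_natCast]

theorem integral_norm_pow_pos (m : ℕ) {k : ℝ} (hk : 0 < k) :
    0 < ∫ w : ℂ, ‖w‖ ^ m * Real.exp (-k * ‖w‖ ^ 2) := by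
  rw [integral_norm_pow m hk]
  have : 0 < Real.Gamma (((m : ℝ) + 2) / 2) := Real.Gamma_pos_of_pos (by positivity)
  positivity

theorem integrable_norm_pow (m : ℕ) {k : ℝ} (hk : 0 < k) :
    Integrable (fun w : ℂ => ‖w‖ ^ m * Real.exp (-k * ‖w‖ ^ 2)) := by
  by_contra h
  have := integral_norm_pow_pos m hk
  rw [integral_undef h] at this
  exact lt_irrefl _ this

/-- the moments `∫ w^p \bar w^q e^{-k|w|²}` -/
def J (k : ℝ) (p q : ℕ) : ℂ := ∫ w : ℂ, w ^ p * conj w ^ q * (Real.exp (-k * ‖w‖ ^ 2) : ℂ)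

theorem integrable_J {k : ℝ} (hk : 0 < k) (p q : ℕ) :
    Integrable (fun w : ℂ => w ^ p * conj w ^ q * (Real.exp (-k * ‖w‖ ^ 2) : ℂ)) := by
  refine (integrable_norm_pow (p + q) hk).mono' (by
    apply Continuous.aestronglyMeasurable
    fun_prop) (Filter.Eventually.of_forall fun w => le_of_eq ?_)
  rw [norm_mul, norm_mul, norm_pow, norm_pow, Complex.norm_conj, ← pow_add, Complex.norm_real,
    Real.norm_of_nonneg (Real.exp_pos _).le]

theorem J_rot {k : ℝ} (p q : ℕ) : J k p q = I ^ p * (-I) ^ q * J k p q := by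
  unfold J
  have hI : I ∈ Submonoid.unitSphere ℂ := by simp [Submonoid.unitSphere]
  have hmp : MeasurePreserving (rotation ⟨I, hI⟩ : ℂ ≃ₗᵢ[ℝ] ℂ) volume volume :=
    (rotation ⟨I, hI⟩).measurePreserving
  have h := hmp.integral_comp (rotation ⟨I, hI⟩ : ℂ ≃ₗᵢ[ℝ] ℂ).toHomeomorph.measurableEmbedding
    (fun w : ℂ => w ^ p * conj w ^ q * (Real.exp (-k * ‖w‖ ^ 2) : ℂ))
  conv_lhs => rw [← h]
  rw [← integral_const_mul]
  refine integral_congr_ae (Filter.Eventually.of_forall fun w => ?_)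
  simp only [rotation_apply]
  have e1 : ‖(I : ℂ) * w‖ = ‖w‖ := by rw [norm_mul, Complex.norm_I, one_mul]
  rw [map_mul, Complex.conj_I, mul_pow, mul_pow, e1]
  ring

theorem J_off {k : ℝ} {p q : ℕ} (hp : p ≤ 2) (hq : q ≤ 2) (hpq : p ≠ q) : J k p q = 0 := by
  have h := J_rot (k := k) p q
  have h2 : (1 - I ^ p * (-I) ^ q) * J k p q = 0 := by linear_combination h
  rcases mul_eq_zero.1 h2 with h3 | h3
  · exfalso
    interval_cases p <;> interval_cases q <;>
      simp [Complex.ext_iff] at h3 hpq ⊢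
  · exact h3

theorem J_diag {k : ℝ} (hk : 0 < k) (p : ℕ) :
    J k p p = ((Real.pi * p.factorial / k ^ (p + 1) : ℝ) : ℂ) := by
  have h := integral_norm_pow (2 * p) hk
  have e1 : (-(((2 * p : ℕ) : ℝ) + 2) / 2) = -((p + 1 : ℕ) : ℝ) := by push_cast; ring
  have e2 : ((((2 * p : ℕ) : ℝ) + 2) / 2) = (p : ℝ) + 1 := by push_cast; ring
  rw [e1, e2, Real.Gamma_nat_eq_factorial, Real.rpow_neg hk.le, Real.rpow_natCast] at h
  have e3 : Real.pi * p.factorial / k ^ (p + 1) = Real.pi * (k ^ (p + 1))⁻¹ * p.factorial := by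
    field_simp
  rw [e3, ← h, ← integral_complex_ofReal]
  unfold J
  refine integral_congr_ae (Filter.Eventually.of_forall fun w => ?_)
  simp only
  rw [← mul_pow, Complex.mul_conj', pow_mul]
  push_cast
  rfl

theorem integral_prod2 (f g : ℂ → ℂ) :
    ∫ w : C2, f (w 0) * g (w 1) = (∫ w, f w) * ∫ w, g w := by
  have h := MeasureTheory.integral_fintype_prod_volume_eq_prod (ι := Fin 2) (E := fun _ => ℂ)
    (fun i => if i = 0 then f else g)
  simp only [Fin.prod_univ_two] at h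
  simpa using h

theorem integrable_prod2 {f g : ℂ → ℂ} (hf : Integrable f) (hg : Integrable g) :
    Integrable (fun w : C2 => f (w 0) * g (w 1)) := by
  have h := Integrable.fintype_prod (ι := Fin 2) (E := ℂ) (μ := fun _ => volume)
    (f := fun i => if i = 0 then f else g) (by
      intro i
      fin_cases i
      · simpa using hf
      · simpa using hg)
  simp only [Fin.prod_univ_two] at h
  have h' : Integrable (fun x : Fin 2 → ℂ => f (x 0) * g (x 1)) (Measure.pi fun _ => volume) := by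
    simpa using h
  exact h'

theorem integral_prod2r (f g : ℂ → ℝ) :
    ∫ w : C2, f (w 0) * g (w 1) = (∫ w, f w) * ∫ w, g w := by
  have h := MeasureTheory.integral_fintype_prod_volume_eq_prod (ι := Fin 2) (E := fun _ => ℂ)
    (fun i => if i = 0 then f else g)
  simp only [Fin.prod_univ_two] at h
  simpa using h

theorem integrable_prod2r {f g : ℂ → ℝ} (hf : Integrable f) (hg : Integrable g) :
    Integrable (fun w : C2 => f (w 0) * g (w 1)) := by
  have h := Integrable.fintype_prod (ι := Fin 2) (E := ℂ) (μ := fun _ => volume)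
    (f := fun i => if i = 0 then f else g) (by
      intro i
      fin_cases i
      · simpa using hf
      · simpa using hg)
  simp only [Fin.prod_univ_two] at h
  have h' : Integrable (fun x : Fin 2 → ℂ => f (x 0) * g (x 1)) (Measure.pi fun _ => volume) := by
    simpa using h
  exact h'

/-- monomial times the Gaussian -/
def mono (k : ℝ) (p q p' q' : ℕ) (w : C2) : ℂ :=
  ((w 0) ^ p * conj (w 0) ^ q * (Real.exp (-k * ‖w 0‖ ^ 2) : ℂ)) *
    ((w 1) ^ p' * conj (w 1) ^ q' * (Real.exp (-k * ‖w 1‖ ^ 2) : ℂ))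

theorem integral_mono' (k : ℝ) (p q p' q' : ℕ) :
    ∫ w : C2, mono k p q p' q' w = J k p q * J k p' q' :=
  integral_prod2 (fun w => w ^ p * conj w ^ q * (Real.exp (-k * ‖w‖ ^ 2) : ℂ))
    (fun w => w ^ p' * conj w ^ q' * (Real.exp (-k * ‖w‖ ^ 2) : ℂ))

theorem integrable_mono' {k : ℝ} (hk : 0 < k) (p q p' q' : ℕ) :
    Integrable (mono k p q p' q') :=
  integrable_prod2 (integrable_J hk p q) (integrable_J hk p' q')

theorem exp_nr (k : ℝ) (w : C2) :
    ((Real.exp (-k * nr w) : ℝ) : ℂ) =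
      (Real.exp (-k * ‖w 0‖ ^ 2) : ℂ) * (Real.exp (-k * ‖w 1‖ ^ 2) : ℂ) := by
  unfold nr
  rw [← Complex.ofReal_mul, ← Real.exp_add]
  congr 2
  ring

/-- exponent of `w i` in the `0` coordinate -/
def e0 (i : Fin 2) : ℕ := if i = 0 then 1 else 0

/-- exponent of `w i` in the `1` coordinate -/
def e1 (i : Fin 2) : ℕ := if i = 0 then 0 else 1

theorem coord (w : C2) (i : Fin 2) : w i = (w 0) ^ e0 i * (w 1) ^ e1 i := by
  fin_cases i <;> simp [e0, e1]

theorem quad_eq (k : ℝ) (i j : Fin 2) (w : C2) :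
    w i * conj (w j) * ((Real.exp (-k * nr w) : ℝ) : ℂ) =
      mono k (e0 i) (e0 j) (e1 i) (e1 j) w := by
  rw [exp_nr]
  unfold mono
  rw [coord w i, coord w j, map_mul, map_pow, map_pow]
  ring

theorem quart_eq (k : ℝ) (i j s l : Fin 2) (w : C2) :
    w i * w j * conj (w s) * conj (w l) * ((Real.exp (-k * nr w) : ℝ) : ℂ) =
      mono k (e0 i + e0 j) (e0 s + e0 l) (e1 i + e1 j) (e1 s + e1 l) w := by
  rw [exp_nr]
  unfold mono
  rw [coord w i, coord w j, coord w s, coord w l]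
  simp only [map_mul, map_pow, pow_add]
  ring

theorem re_integral {f : C2 → ℂ} (hf : Integrable f) : ∫ w, (f w).re = (∫ w, f w).re :=
  integral_re hf

end Gauss

open Gauss

theorem gauss_0 {k : ℝ} (hk : 0 < k) :
    ∫ w : C2, Real.exp (-k * nr w) = Real.pi ^ 2 / k ^ 2 := by
  have h1 : ∀ w : C2, Real.exp (-k * nr w) =
      (fun z : ℂ => ‖z‖ ^ 0 * Real.exp (-k * ‖z‖ ^ 2)) (w 0) *
      (fun z : ℂ => ‖z‖ ^ 0 * Real.exp (-k * ‖z‖ ^ 2)) (w 1) := by
    intro w
    simp only [pow_zero, one_mul]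
    rw [← Real.exp_add]
    congr 1
    unfold nr
    ring
  simp_rw [h1]
  rw [integral_prod2r (fun z : ℂ => ‖z‖ ^ 0 * Real.exp (-k * ‖z‖ ^ 2))
    (fun z : ℂ => ‖z‖ ^ 0 * Real.exp (-k * ‖z‖ ^ 2)), integral_norm_pow 0 hk]
  have e1 : (-(((0 : ℕ) : ℝ) + 2) / 2) = -1 := by norm_num
  have e2 : ((((0 : ℕ) : ℝ) + 2) / 2) = 1 := by norm_num
  rw [e1, e2, Real.Gamma_one, Real.rpow_neg_one]
  field_simp

theorem gauss_2 {k : ℝ} (hk : 0 < k) (a : Matrix (Fin 2) (Fin 2) ℂ) :
    ∫ w : C2, (∑ i, ∑ j, w i * conj (w j) * a i j).re * Real.exp (-k * nr w)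
      = Real.pi ^ 2 / k ^ 2 * ((a 0 0 + a 1 1).re / k) := by
  have h1 : ∀ w : C2, (∑ i, ∑ j, w i * conj (w j) * a i j).re * Real.exp (-k * nr w) =
      (∑ i, ∑ j, a i j * mono k (e0 i) (e0 j) (e1 i) (e1 j) w).re := by
    intro w
    rw [mul_comm, ← Complex.re_ofReal_mul]
    congr 1
    rw [Finset.mul_sum]
    refine Finset.sum_congr rfl fun i _ => ?_
    rw [Finset.mul_sum]
    refine Finset.sum_congr rfl fun j _ => ?_
    rw [← quad_eq]
    ring
  have hint : ∀ i j, Integrable (fun w : C2 => a i j * mono k (e0 i) (e0 j) (e1 i) (e1 j) w) :=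
    fun i j => (integrable_mono' hk _ _ _ _).const_mul _
  simp_rw [h1]
  rw [re_integral (integrable_finsetSum _ fun i _ => integrable_finsetSum _ fun j _ => hint i j),
    integral_finsetSum _ (fun i _ => integrable_finsetSum _ fun j _ => hint i j)]
  have h2 : ∀ i, ∫ w : C2, ∑ j, a i j * mono k (e0 i) (e0 j) (e1 i) (e1 j) w =
      ∑ j, a i j * (J k (e0 i) (e0 j) * J k (e1 i) (e1 j)) := by
    intro i
    rw [integral_finsetSum _ (fun j _ => hint i j)]
    refine Finset.sum_congr rfl fun j _ => ?_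
    rw [integral_const_mul, integral_mono']
  simp_rw [h2]
  have j01 : J k 0 1 = 0 := J_off (by norm_num) (by norm_num) (by norm_num)
  have j10 : J k 1 0 = 0 := J_off (by norm_num) (by norm_num) (by norm_num)
  have j00 := J_diag hk 0
  have j11 := J_diag hk 1
  simp only [Fin.sum_univ_two, e0, e1, if_true, one_ne_zero, if_false, Fin.isValue, j01, j10,
    mul_zero, add_zero, zero_add, j00, j11]
  have : a 0 0 * (((Real.pi * (Nat.factorial 1) / k ^ (1 + 1) : ℝ) : ℂ) *
      ((Real.pi * (Nat.factorial 0) / k ^ (0 + 1) : ℝ) : ℂ)) +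
      a 1 1 * (((Real.pi * (Nat.factorial 0) / k ^ (0 + 1) : ℝ) : ℂ) *
      ((Real.pi * (Nat.factorial 1) / k ^ (1 + 1) : ℝ) : ℂ)) =
      ((Real.pi ^ 2 / k ^ 3 : ℝ) : ℂ) * (a 0 0 + a 1 1) := by
    simp only [Nat.factorial]
    push_cast
    have : (k : ℂ) ≠ 0 := by exact_mod_cast hk.ne'
    field_simp
  rw [this, Complex.re_ofReal_mul]
  field_simp

theorem gauss_4 {k : ℝ} (hk : 0 < k) (q : Fin 2 → Fin 2 → Fin 2 → Fin 2 → ℂ) :
    ∫ w : C2, (∑ i, ∑ j, ∑ s, ∑ l, w i * w j * conj (w s) * conj (w l) * q i j s l).re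
        * Real.exp (-k * nr w)
      = Real.pi ^ 2 / k ^ 2 * ((∑ i, ∑ j, (q i j i j + q i j j i)).re / k ^ 2) := by
  set g : Fin 2 → Fin 2 → Fin 2 → Fin 2 → C2 → ℂ := fun i j s l w =>
    q i j s l * mono k (e0 i + e0 j) (e0 s + e0 l) (e1 i + e1 j) (e1 s + e1 l) w with hg
  have h1 : ∀ w : C2, (∑ i, ∑ j, ∑ s, ∑ l, w i * w j * conj (w s) * conj (w l) * q i j s l).re
        * Real.exp (-k * nr w) = (∑ i, ∑ j, ∑ s, ∑ l, g i j s l w).re := by
    intro w
    rw [mul_comm, ← Complex.re_ofReal_mul]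
    congr 1
    rw [Finset.mul_sum]
    refine Finset.sum_congr rfl fun i _ => ?_
    rw [Finset.mul_sum]
    refine Finset.sum_congr rfl fun j _ => ?_
    rw [Finset.mul_sum]
    refine Finset.sum_congr rfl fun s _ => ?_
    rw [Finset.mul_sum]
    refine Finset.sum_congr rfl fun l _ => ?_
    simp only [hg]
    rw [← quart_eq]
    ring
  have hint : ∀ i j s l, Integrable (g i j s l) :=
    fun i j s l => (integrable_mono' hk _ _ _ _).const_mul _
  have hint3 : ∀ i j s, Integrable (fun w => ∑ l, g i j s l w) :=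
    fun i j s => integrable_finsetSum _ fun l _ => hint i j s l
  have hint2 : ∀ i j, Integrable (fun w => ∑ s, ∑ l, g i j s l w) :=
    fun i j => integrable_finsetSum _ fun s _ => hint3 i j s
  have hint1 : ∀ i, Integrable (fun w => ∑ j, ∑ s, ∑ l, g i j s l w) :=
    fun i => integrable_finsetSum _ fun j _ => hint2 i j
  simp_rw [h1]
  rw [re_integral (integrable_finsetSum _ fun i _ => hint1 i)]
  have h2 : ∫ w : C2, ∑ i, ∑ j, ∑ s, ∑ l, g i j s l w =
      ∑ i, ∑ j, ∑ s, ∑ l, q i j s l *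
        (J k (e0 i + e0 j) (e0 s + e0 l) * J k (e1 i + e1 j) (e1 s + e1 l)) := by
    rw [integral_finsetSum _ (fun i _ => hint1 i)]
    refine Finset.sum_congr rfl fun i _ => ?_
    rw [integral_finsetSum _ (fun j _ => hint2 i j)]
    refine Finset.sum_congr rfl fun j _ => ?_
    rw [integral_finsetSum _ (fun s _ => hint3 i j s)]
    refine Finset.sum_congr rfl fun s _ => ?_
    rw [integral_finsetSum _ (fun l _ => hint i j s l)]
    refine Finset.sum_congr rfl fun l _ => ?_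
    simp only [hg]
    rw [integral_const_mul, integral_mono']
  rw [h2]
  have j01 : J k 0 1 = 0 := J_off (by norm_num) (by norm_num) (by norm_num)
  have j10 : J k 1 0 = 0 := J_off (by norm_num) (by norm_num) (by norm_num)
  have j02 : J k 0 2 = 0 := J_off (by norm_num) (by norm_num) (by norm_num)
  have j20 : J k 2 0 = 0 := J_off (by norm_num) (by norm_num) (by norm_num)
  have j12 : J k 1 2 = 0 := J_off (by norm_num) (by norm_num) (by norm_num)
  have j21 : J k 2 1 = 0 := J_off (by norm_num) (by norm_num) (by norm_num)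
  have j00 := J_diag hk 0
  have j11 := J_diag hk 1
  have j22 := J_diag hk 2
  have hk' : (k : ℂ) ≠ 0 := by exact_mod_cast hk.ne'
  have h3 : ∑ i, ∑ j, ∑ s, ∑ l, q i j s l *
        (J k (e0 i + e0 j) (e0 s + e0 l) * J k (e1 i + e1 j) (e1 s + e1 l)) =
      ((Real.pi ^ 2 / k ^ 4 : ℝ) : ℂ) * ∑ i, ∑ j, (q i j i j + q i j j i) := by
    simp only [Fin.sum_univ_two, e0, e1, if_true, one_ne_zero, if_false, Fin.isValue, j01, j10,
      j02, j20, j12, j21, mul_zero, add_zero, zero_add, Nat.reduceAdd, j00, j11, j22]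
    simp only [Nat.factorial]
    push_cast
    field_simp
    ring
  rw [h3, Complex.re_ofReal_mul]
  field_simp

theorem gauss_bound (m : ℕ) : ∃ C : ℝ, ∀ k : ℝ, 1 ≤ k →
    Integrable (fun w : C2 => ‖w‖ ^ m * Real.exp (-k * nr w)) ∧
    ∫ w : C2, ‖w‖ ^ m * Real.exp (-k * nr w)
      ≤ C * (Real.pi ^ 2 / k ^ 2) * (1 / Real.sqrt k ^ m) := by
  refine ⟨2 * Real.Gamma (((m : ℝ) + 2) / 2), fun k hk1 => ?_⟩
  have hk : 0 < k := by linarith
  set f : ℂ → ℝ := fun z => ‖z‖ ^ m * Real.exp (-k * ‖z‖ ^ 2) with hf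
  set g : ℂ → ℝ := fun z => ‖z‖ ^ 0 * Real.exp (-k * ‖z‖ ^ 2) with hg
  have hfi : Integrable f := integrable_norm_pow m hk
  have hgi : Integrable g := integrable_norm_pow 0 hk
  have hi1 := integrable_prod2r hfi hgi
  have hi2 := integrable_prod2r hgi hfi
  have hsum : Integrable (fun w : C2 => f (w 0) * g (w 1) + g (w 0) * f (w 1)) := hi1.add hi2
  have hle : ∀ w : C2, ‖w‖ ^ m * Real.exp (-k * nr w) ≤ f (w 0) * g (w 1) + g (w 0) * f (w 1) := by
    intro w
    have hE : Real.exp (-k * nr w) = Real.exp (-k * ‖w 0‖ ^ 2) * Real.exp (-k * ‖w 1‖ ^ 2) := by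
      rw [← Real.exp_add]; congr 1; unfold nr; ring
    have hn : ‖w‖ ^ m ≤ ‖w 0‖ ^ m + ‖w 1‖ ^ m := by
      have h0 : ‖w‖ ≤ max ‖w 0‖ ‖w 1‖ := by
        rw [pi_norm_le_iff_of_nonneg (by positivity)]
        intro i
        fin_cases i
        · exact le_max_left _ _
        · exact le_max_right _ _
      rcases max_choice ‖w 0‖ ‖w 1‖ with h | h
      · rw [h] at h0
        have := pow_le_pow_left₀ (norm_nonneg _) h0 m
        have : 0 ≤ ‖w 1‖ ^ m := by positivity
        linarith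
      · rw [h] at h0
        have := pow_le_pow_left₀ (norm_nonneg _) h0 m
        have : 0 ≤ ‖w 0‖ ^ m := by positivity
        linarith
    rw [hE]
    simp only [hf, hg, pow_zero, one_mul]
    calc _ ≤ (‖w 0‖ ^ m + ‖w 1‖ ^ m) * (Real.exp (-k * ‖w 0‖ ^ 2) * Real.exp (-k * ‖w 1‖ ^ 2)) := by
          gcongr
      _ = _ := by ring
  have hint : Integrable (fun w : C2 => ‖w‖ ^ m * Real.exp (-k * nr w)) := by
    refine hsum.mono' (by
      apply Continuous.aestronglyMeasurable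
      unfold nr
      fun_prop) (Filter.Eventually.of_forall fun w => ?_)
    rw [Real.norm_of_nonneg (by positivity)]
    exact hle w
  refine ⟨hint, ?_⟩
  refine (integral_mono hint hsum hle).trans ?_
  rw [integral_add hi1 hi2, integral_prod2r, integral_prod2r]
  simp only [hf, hg]
  rw [integral_norm_pow m hk, integral_norm_pow 0 hk]
  have e1 : (-(((0 : ℕ) : ℝ) + 2) / 2) = -1 := by norm_num
  have e2 : ((((0 : ℕ) : ℝ) + 2) / 2) = 1 := by norm_num
  have e3 : k ^ (-((m : ℝ) + 2) / 2) = 1 / k * (1 / Real.sqrt k ^ m) := by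
    rw [show (-((m : ℝ) + 2) / 2) = -1 + -((1 / 2) * (m : ℝ)) by ring, Real.rpow_add hk,
      Real.rpow_neg_one, Real.rpow_neg hk.le, Real.rpow_mul hk.le, Real.rpow_natCast,
      ← Real.sqrt_eq_rpow, one_div, one_div]
  rw [e1, e2, e3, Real.Gamma_one, Real.rpow_neg_one]
  apply le_of_eq
  have : Real.sqrt k ^ m ≠ 0 := by positivity
  field_simp
  ring

end

end Pool.Agent.KS
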