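import Pool.Agent.KS.Berg1
import Pool.Agent.KS.Gauss

/-!
# Algebraic identities and circle means for the Bergman upper bound (module BERG2B)
-/

namespace Pool.Agent.KS

open MeasureTheory Complex Topology
open scoped ContDiff Matrix ComplexOrder ComplexConjugate Manifold Interval

noncomputable section

lemma two_le_inf : (2 : WithTop ℕ∞) ≤ (∞ : WithTop ℕ∞) :=
  WithTop.coe_le_coe.mpr (le_top : (2 : ℕ∞) ≤ ⊤)

/-! ### Wirtinger derivatives and iterated derivatives -/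

section Iter

variable {n : ℕ}

/-- the linear form of `dz i` -/
def dzL (i : Fin n) : (Cn n →L[ℝ] ℂ) →L[ℝ] ℂ :=
  LinearMap.mkContinuous
    { toFun := fun A => (1 / 2 : ℂ) * (A (Pi.single i 1) - Complex.I * A (Pi.single i Complex.I))
      map_add' := fun A B => by simp only [add_apply]; ring
      map_smul' := fun c A => by
        simp only [smul_apply, RingHom.id_apply, Complex.real_smul]
        ring }
    1 (fun A => by
      have h1 : ‖A (Pi.single i 1)‖ ≤ ‖A‖ := by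
        have := A.le_opNorm (Pi.single i 1)
        rwa [Pi.norm_single, norm_one, mul_one] at this
      have h2 : ‖A (Pi.single i Complex.I)‖ ≤ ‖A‖ := by
        have := A.le_opNorm (Pi.single i Complex.I)
        rwa [Pi.norm_single, Complex.norm_I, mul_one] at this
      simp only [LinearMap.coe_mk, AddHom.coe_mk, one_mul]
      rw [norm_mul]
      have h3 : ‖A (Pi.single i 1) - Complex.I * A (Pi.single i Complex.I)‖ ≤ ‖A‖ + ‖A‖ := by
        refine (norm_sub_le _ _).trans ?_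
        rw [norm_mul, Complex.norm_I, one_mul]
        linarith
      have h4 : ‖(1 / 2 : ℂ)‖ = 1 / 2 := by norm_num
      rw [h4]
      linarith)

/-- the linear form of `dzb i` -/
def dzbL (i : Fin n) : (Cn n →L[ℝ] ℂ) →L[ℝ] ℂ :=
  LinearMap.mkContinuous
    { toFun := fun A => (1 / 2 : ℂ) * (A (Pi.single i 1) + Complex.I * A (Pi.single i Complex.I))
      map_add' := fun A B => by simp only [add_apply]; ring
      map_smul' := fun c A => by
        simp only [smul_apply, RingHom.id_apply, Complex.real_smul]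
        ring }
    1 (fun A => by
      have h1 : ‖A (Pi.single i 1)‖ ≤ ‖A‖ := by
        have := A.le_opNorm (Pi.single i 1)
        rwa [Pi.norm_single, norm_one, mul_one] at this
      have h2 : ‖A (Pi.single i Complex.I)‖ ≤ ‖A‖ := by
        have := A.le_opNorm (Pi.single i Complex.I)
        rwa [Pi.norm_single, Complex.norm_I, mul_one] at this
      simp only [LinearMap.coe_mk, AddHom.coe_mk, one_mul]
      rw [norm_mul]
      have h3 : ‖A (Pi.single i 1) + Complex.I * A (Pi.single i Complex.I)‖ ≤ ‖A‖ + ‖A‖ := by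
        refine (norm_add_le _ _).trans ?_
        rw [norm_mul, Complex.norm_I, one_mul]
        linarith
      have h4 : ‖(1 / 2 : ℂ)‖ = 1 / 2 := by norm_num
      rw [h4]
      linarith)

lemma norm_iter_comp_le {L : (Cn n →L[ℝ] ℂ) →L[ℝ] ℂ} (hL : ‖L‖ ≤ 1) {F : Cn n → ℂ}
    {U : Set (Cn n)} (hU : IsOpen U) (hF : ContDiffOn ℝ ∞ F U) {z : Cn n} (hz : z ∈ U) (m : ℕ) :
    ‖iteratedFDeriv ℝ m (fun w => L (fderiv ℝ F w)) z‖ ≤ ‖iteratedFDeriv ℝ (m + 1) F z‖ := by
  have hFz : ContDiffAt ℝ ∞ F z := hF.contDiffAt (hU.mem_nhds hz)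
  have hF' : ContDiffAt ℝ m (fderiv ℝ F) z :=
    hFz.fderiv_right (m := (m : WithTop ℕ∞)) (by exact_mod_cast le_top)
  have h1 := L.iteratedFDeriv_comp_left hF' (i := m) le_rfl
  have h2 : (fun w => L (fderiv ℝ F w)) = L ∘ fderiv ℝ F := rfl
  rw [h2, h1]
  refine (ContinuousLinearMap.norm_compContinuousMultilinearMap_le _ _).trans ?_
  rw [norm_iteratedFDeriv_fderiv]
  calc ‖L‖ * ‖iteratedFDeriv ℝ (m + 1) F z‖ ≤ 1 * ‖iteratedFDeriv ℝ (m + 1) F z‖ := by gcongr
    _ = _ := one_mul _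

lemma norm_iter_dz_le (i : Fin n) {F : Cn n → ℂ} {U : Set (Cn n)} (hU : IsOpen U)
    (hF : ContDiffOn ℝ ∞ F U) {z : Cn n} (hz : z ∈ U) (m : ℕ) :
    ‖iteratedFDeriv ℝ m (fun w => dz i F w) z‖ ≤ ‖iteratedFDeriv ℝ (m + 1) F z‖ :=
  norm_iter_comp_le (L := dzL i) (LinearMap.mkContinuous_norm_le _ zero_le_one _) hU hF hz m

lemma norm_iter_dzb_le (i : Fin n) {F : Cn n → ℂ} {U : Set (Cn n)} (hU : IsOpen U)
    (hF : ContDiffOn ℝ ∞ F U) {z : Cn n} (hz : z ∈ U) (m : ℕ) :
    ‖iteratedFDeriv ℝ m (fun w => dzb i F w) z‖ ≤ ‖iteratedFDeriv ℝ (m + 1) F z‖ :=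
  norm_iter_comp_le (L := dzbL i) (LinearMap.mkContinuous_norm_le _ zero_le_one _) hU hF hz m

lemma contDiffOn_ofReal' {u : Cn n → ℝ} {U : Set (Cn n)} (hu : ContDiffOn ℝ ∞ u U) :
    ContDiffOn ℝ ∞ (fun w => ((u w : ℝ) : ℂ)) U :=
  Complex.ofRealCLM.contDiff.comp_contDiffOn hu

lemma norm_iter_ofReal_le {u : Cn n → ℝ} {U : Set (Cn n)} (hU : IsOpen U)
    (hu : ContDiffOn ℝ ∞ u U) {z : Cn n} (hz : z ∈ U) (m : ℕ) :
    ‖iteratedFDeriv ℝ m (fun w => ((u w : ℝ) : ℂ)) z‖ ≤ ‖iteratedFDeriv ℝ m u z‖ := by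
  have hz' : ContDiffAt ℝ m u z := (hu.contDiffAt (hU.mem_nhds hz)).of_le (by exact_mod_cast le_top)
  have h1 := Complex.ofRealCLM.iteratedFDeriv_comp_left hz' (i := m) le_rfl
  have h2 : (fun w => ((u w : ℝ) : ℂ)) = Complex.ofRealCLM ∘ u := rfl
  rw [h2, h1]
  refine (ContinuousLinearMap.norm_compContinuousMultilinearMap_le _ _).trans ?_
  rw [Complex.ofRealCLM_norm, one_mul]

lemma norm_cHess_le {u : Cn n → ℝ} {U : Set (Cn n)} (hU : IsOpen U)
    (hu : ContDiffOn ℝ ∞ u U) {z : Cn n} (hz : z ∈ U) (i j : Fin n) :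
    ‖cHess u z i j‖ ≤ ‖iteratedFDeriv ℝ 2 u z‖ := by
  have h0 := contDiffOn_ofReal' hu
  have h1 := contDiffOn_dzb hU j h0
  have e1 := norm_iter_dz_le i hU h1 hz 0
  have e2 := norm_iter_dzb_le j hU h0 hz 1
  have e3 := norm_iter_ofReal_le hU hu hz 2
  rw [norm_iteratedFDeriv_zero] at e1
  exact e1.trans (e2.trans e3)

end Iter

lemma norm_d4_le {u : C2 → ℝ} {U : Set C2} (hU : IsOpen U)
    (hu : ContDiffOn ℝ ∞ u U) {z : C2} (hz : z ∈ U) (i j k l : Fin 2) :
    ‖d4 u i j k l z‖ ≤ ‖iteratedFDeriv ℝ 4 u z‖ := by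
  have h0 := contDiffOn_ofReal' hu
  have h1 := contDiffOn_dzb hU k h0
  have h2 := contDiffOn_dz hU j h1
  have h3 := contDiffOn_dzb hU l h2
  have e1 := norm_iter_dz_le i hU h3 hz 0
  have e2 := norm_iter_dzb_le l hU h2 hz 1
  have e3 := norm_iter_dz_le j hU h1 hz 2
  have e4 := norm_iter_dzb_le k hU h0 hz 3
  have e5 := norm_iter_ofReal_le hU hu hz 4
  rw [norm_iteratedFDeriv_zero] at e1
  exact e1.trans (e2.trans (e3.trans (e4.trans e5)))

/-! ### The quadratic and quartic terms -/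

lemma abs_T2_le {u : C2 → ℝ} {U : Set C2} (hU : IsOpen U) (hu : ContDiffOn ℝ ∞ u U)
    (h0 : (0 : C2) ∈ U) {B : ℝ} (hB : ‖iteratedFDeriv ℝ 2 u 0‖ ≤ B) (w : C2) :
    |T2 u w| ≤ 4 * B * ‖w‖ ^ 2 := by
  unfold T2
  refine (Complex.abs_re_le_norm _).trans ?_
  have h : ∀ i j : Fin 2, ‖w i * conj (w j) * cHess u 0 i j‖ ≤ ‖w‖ * ‖w‖ * B := by
    intro i j
    rw [norm_mul, norm_mul, Complex.norm_conj]
    have h1 := norm_le_pi_norm w i
    have h2 := norm_le_pi_norm w j
    have h3 := (norm_cHess_le hU hu h0 i j).trans hB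
    gcongr
  calc ‖∑ i, ∑ j, w i * conj (w j) * cHess u 0 i j‖ ≤ ∑ i : Fin 2, ∑ j : Fin 2, ‖w‖ * ‖w‖ * B := by
        refine (norm_sum_le _ _).trans (Finset.sum_le_sum fun i _ => ?_)
        exact (norm_sum_le _ _).trans (Finset.sum_le_sum fun j _ => h i j)
    _ = _ := by simp; ring

lemma abs_T4_le {u : C2 → ℝ} {U : Set C2} (hU : IsOpen U) (hu : ContDiffOn ℝ ∞ u U)
    (h0 : (0 : C2) ∈ U) {B : ℝ} (hB : ‖iteratedFDeriv ℝ 4 u 0‖ ≤ B) (w : C2) :
    |T4 u w| ≤ 16 * B * ‖w‖ ^ 4 := by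
  unfold T4
  refine (Complex.abs_re_le_norm _).trans ?_
  have h : ∀ i j k l : Fin 2, ‖w i * w j * conj (w k) * conj (w l) * d4 u i j k l 0‖ ≤
      ‖w‖ * ‖w‖ * ‖w‖ * ‖w‖ * B := by
    intro i j k l
    rw [norm_mul, norm_mul, norm_mul, norm_mul, Complex.norm_conj, Complex.norm_conj]
    have h1 := norm_le_pi_norm w i
    have h2 := norm_le_pi_norm w j
    have h3 := norm_le_pi_norm w k
    have h4 := norm_le_pi_norm w l
    have h5 := (norm_d4_le hU hu h0 i j k l).trans hB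
    gcongr
  calc ‖∑ i, ∑ j, ∑ k, ∑ l, w i * w j * conj (w k) * conj (w l) * d4 u i j k l 0‖ ≤
      ∑ i : Fin 2, ∑ j : Fin 2, ∑ k : Fin 2, ∑ l : Fin 2, ‖w‖ * ‖w‖ * ‖w‖ * ‖w‖ * B := by
        refine (norm_sum_le _ _).trans (Finset.sum_le_sum fun i _ => ?_)
        refine (norm_sum_le _ _).trans (Finset.sum_le_sum fun j _ => ?_)
        refine (norm_sum_le _ _).trans (Finset.sum_le_sum fun k _ => ?_)
        exact (norm_sum_le _ _).trans (Finset.sum_le_sum fun l _ => h i j k l)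
    _ = _ := by simp; ring

/-! ### The identity at the origin -/

section Origin

variable {φ : C2 → ℝ} {U : Set C2}

lemma dzb_cHess_zero (hU : IsOpen U) (h0 : (0 : C2) ∈ U) (hφ : ContDiffOn ℝ ∞ φ U)
    (hc1 : ∀ i j l, dz l (fun w => cHess φ w i j) 0 = 0) (i j l : Fin 2) :
    dzb l (fun w => cHess φ w i j) 0 = 0 := by
  have hev : (fun w => cHess φ w i j) =ᶠ[𝓝 0] fun w => conj (cHess φ w j i) := by
    filter_upwards [hU.mem_nhds h0] with w hw
    have hw2 : ContDiffAt ℝ 2 φ w := (hφ.contDiffAt (hU.mem_nhds hw)).of_le two_le_inf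
    have := (cHess_isHermitian hw2).apply i j
    exact this.symm
  rw [dzb_congr l hev, dzb_conj l]
  · rw [hc1, map_zero]
  · exact ((contDiffOn_cHess hU j i hφ).contDiffAt (hU.mem_nhds h0)).differentiableAt (by simp)

/-- the determinant as a complex function -/
lemma dt_eq_ofReal (hU : IsOpen U) (hφ : ContDiffOn ℝ ∞ φ U) {w : C2} (hw : w ∈ U) :
    ((dt φ w : ℝ) : ℂ) = cHess φ w 0 0 * cHess φ w 1 1 - cHess φ w 0 1 * cHess φ w 1 0 := by
  have hw2 : ContDiffAt ℝ 2 φ w := (hφ.contDiffAt (hU.mem_nhds hw)).of_le two_le_inf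
  have hH := cHess_isHermitian hw2
  have hdet : (starRingEnd ℂ) (cHess φ w).det = (cHess φ w).det := by
    have h1 : star (cHess φ w).det = ((cHess φ w)ᴴ).det := by
      rw [Matrix.det_conjTranspose]
    rw [hH.eq] at h1
    exact h1
  unfold dt
  rw [Complex.conj_eq_iff_re] at hdet
  rw [hdet, Matrix.det_fin_two]

lemma cHess_zero_entries (hc0 : cHess φ 0 = 1) :
    cHess φ 0 0 0 = 1 ∧ cHess φ 0 1 1 = 1 ∧ cHess φ 0 0 1 = 0 ∧ cHess φ 0 1 0 = 0 := by
  rw [hc0]; simp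

lemma dt_zero (hc0 : cHess φ 0 = 1) : dt φ 0 = 1 := by
  unfold dt; rw [hc0]; simp

/-- Laplacian type derivative of a product, first derivatives vanish at `0` -/
lemma dz_dzb_mul {F G : C2 → ℂ} (hU : IsOpen U) (h0 : (0 : C2) ∈ U)
    (hF : ContDiffOn ℝ ∞ F U) (hG : ContDiffOn ℝ ∞ G U) (i : Fin 2)
    (hF1 : dz i F 0 = 0) (hG1 : dz i G 0 = 0) (hF2 : dzb i F 0 = 0) (hG2 : dzb i G 0 = 0) :
    dz i (fun w => dzb i (fun x => F x * G x) w) 0 =
      dz i (fun w => dzb i F w) 0 * G 0 + F 0 * dz i (fun w => dzb i G w) 0 := by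
  have hd : ∀ {H : C2 → ℂ}, ContDiffOn ℝ ∞ H U → ∀ w ∈ U, DifferentiableAt ℝ H w := by
    intro H hH w hw
    exact (hH.contDiffAt (hU.mem_nhds hw)).differentiableAt (by simp)
  have hev : (fun w => dzb i (fun x => F x * G x) w) =ᶠ[𝓝 0]
      fun w => dzb i F w * G w + F w * dzb i G w := by
    filter_upwards [hU.mem_nhds h0] with w hw
    exact dzb_mul i (hd hF w hw) (hd hG w hw)
  rw [dz_congr i hev]
  have hF3 := contDiffOn_dzb hU i hF
  have hG3 := contDiffOn_dzb hU i hG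
  have e1 : dz i (fun w => dzb i F w * G w + F w * dzb i G w) 0 =
      dz i (fun w => dzb i F w * G w) 0 + dz i (fun w => F w * dzb i G w) 0 :=
    dz_add i ((hd hF3 0 h0).mul (hd hG 0 h0)) ((hd hF 0 h0).mul (hd hG3 0 h0))
  rw [e1, dz_mul i (hd hF3 0 h0) (hd hG 0 h0), dz_mul i (hd hF 0 h0) (hd hG3 0 h0),
    hF1, hG1, hF2, hG2]
  ring

lemma trace_log_dt (hU : IsOpen U) (h0 : (0 : C2) ∈ U) (hφ : ContDiffOn ℝ ∞ φ U)
    (hc0 : cHess φ 0 = 1)
    (hc1 : ∀ i j l, dz l (fun w => cHess φ w i j) 0 = 0) (i : Fin 2) :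
    cHess (fun w => Real.log (dt φ w)) 0 i i = d4 φ i 0 0 i 0 + d4 φ i 1 1 i 0 := by
  obtain ⟨c00, c11, c01, c10⟩ := cHess_zero_entries hc0
  have hg := fun a b => contDiffOn_cHess hU a b hφ
  have hgd : ∀ a b : Fin 2, DifferentiableAt ℝ (fun w => cHess φ w a b) 0 := fun a b =>
    ((hg a b).contDiffAt (hU.mem_nhds h0)).differentiableAt (by simp)
  have hcb := dzb_cHess_zero hU h0 hφ hc1
  have hdt := contDiffOn_dt hU hφ
  have hdt2 : ContDiffAt ℝ 2 (dt φ) 0 := (hdt.contDiffAt (hU.mem_nhds h0)).of_le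
    two_le_inf
  have hev : (fun w => ((dt φ w : ℝ) : ℂ)) =ᶠ[𝓝 0] fun w =>
      cHess φ w 0 0 * cHess φ w 1 1 - cHess φ w 0 1 * cHess φ w 1 0 := by
    filter_upwards [hU.mem_nhds h0] with w hw
    exact dt_eq_ofReal hU hφ hw
  -- gradient
  have hgz : gz i (dt φ) 0 = 0 := by
    unfold gz
    have e1 : dz i (fun w => cHess φ w 0 0 * cHess φ w 1 1 - cHess φ w 0 1 * cHess φ w 1 0) 0 =
        dz i (fun w => cHess φ w 0 0 * cHess φ w 1 1) 0 -
          dz i (fun w => cHess φ w 0 1 * cHess φ w 1 0) 0 :=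
      dz_sub i ((hgd 0 0).mul (hgd 1 1)) ((hgd 0 1).mul (hgd 1 0))
    have e2 : dz i (fun w => cHess φ w 0 0 * cHess φ w 1 1) 0 = 0 := by
      have := dz_mul i (hgd 0 0) (hgd 1 1)
      rw [this, hc1, hc1]; ring
    have e3 : dz i (fun w => cHess φ w 0 1 * cHess φ w 1 0) 0 = 0 := by
      have := dz_mul i (hgd 0 1) (hgd 1 0)
      rw [this, hc1, hc1]; ring
    rw [dz_congr i hev, e1, e2, e3, sub_zero]
  -- second derivative
  have hH : cHess (dt φ) 0 i i = d4 φ i 0 0 i 0 + d4 φ i 1 1 i 0 := by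
    have h1 : cHess (dt φ) 0 i i = dz i (fun w => dzb i (fun x => ((dt φ x : ℝ) : ℂ)) w) 0 := rfl
    rw [h1]
    have hev2 : (fun w => dzb i (fun x => ((dt φ x : ℝ) : ℂ)) w) =ᶠ[𝓝 0] fun w =>
        dzb i (fun x => cHess φ x 0 0 * cHess φ x 1 1) w -
          dzb i (fun x => cHess φ x 0 1 * cHess φ x 1 0) w := by
      filter_upwards [hU.mem_nhds h0] with w hw
      have hevw : (fun w => ((dt φ w : ℝ) : ℂ)) =ᶠ[𝓝 w] fun w =>
          cHess φ w 0 0 * cHess φ w 1 1 - cHess φ w 0 1 * cHess φ w 1 0 := by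
        filter_upwards [hU.mem_nhds hw] with x hx
        exact dt_eq_ofReal hU hφ hx
      rw [dzb_congr i hevw]
      have hgw : ∀ a b : Fin 2, DifferentiableAt ℝ (fun w => cHess φ w a b) w := fun a b =>
        ((hg a b).contDiffAt (hU.mem_nhds hw)).differentiableAt (by simp)
      exact dzb_sub i ((hgw 0 0).mul (hgw 1 1)) ((hgw 0 1).mul (hgw 1 0))
    rw [dz_congr i hev2]
    have hm1 := contDiffOn_dzb hU i ((hg 0 0).mul (hg 1 1))
    have hm2 := contDiffOn_dzb hU i ((hg 0 1).mul (hg 1 0))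
    have e1 : dz i (fun w => dzb i (fun x => cHess φ x 0 0 * cHess φ x 1 1) w -
          dzb i (fun x => cHess φ x 0 1 * cHess φ x 1 0) w) 0 =
        dz i (fun w => dzb i (fun x => cHess φ x 0 0 * cHess φ x 1 1) w) 0 -
        dz i (fun w => dzb i (fun x => cHess φ x 0 1 * cHess φ x 1 0) w) 0 :=
      dz_sub i ((hm1.contDiffAt (hU.mem_nhds h0)).differentiableAt (by simp))
      ((hm2.contDiffAt (hU.mem_nhds h0)).differentiableAt (by simp))
    rw [e1, dz_dzb_mul hU h0 (hg 0 0) (hg 1 1) i (hc1 _ _ _) (hc1 _ _ _) (hcb _ _ _) (hcb _ _ _),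
      dz_dzb_mul hU h0 (hg 0 1) (hg 1 0) i (hc1 _ _ _) (hc1 _ _ _) (hcb _ _ _) (hcb _ _ _),
      c00, c11, c01, c10]
    unfold d4
    ring
  rw [cHess_real_comp (h := Real.log) i i hdt2 (by
    rw [dt_zero hc0]
    exact Real.contDiffAt_log.mpr one_ne_zero), hgz, hH, dt_zero hc0, Real.deriv_log]
  simp

lemma d4_symm (hU : IsOpen U) (h0 : (0 : C2) ∈ U) (hφ : ContDiffOn ℝ ∞ φ U) (i j : Fin 2) :
    d4 φ i j i j 0 = d4 φ i j j i 0 := by
  unfold d4
  have h0' := contDiffOn_ofReal' hφ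
  have key : (fun w => dzb j (fun x => cHess φ x j i) w) =ᶠ[𝓝 0]
      fun w => dzb i (fun x => cHess φ x j j) w := by
    filter_upwards [hU.mem_nhds h0] with w hw
    have h2 : ∀ {H : C2 → ℂ}, ContDiffOn ℝ ∞ H U → ContDiffAt ℝ 2 H w := fun hH =>
      (hH.contDiffAt (hU.mem_nhds hw)).of_le two_le_inf
    have e1 : dzb j (fun x => cHess φ x j i) w =
        dz j (fun x => dzb j (fun y => dzb i (fun v => ((φ v : ℝ) : ℂ)) y) x) w :=
      (dz_dzb_comm j j (h2 (contDiffOn_dzb hU i h0'))).symm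
    have e2 : dzb i (fun x => cHess φ x j j) w =
        dz j (fun x => dzb i (fun y => dzb j (fun v => ((φ v : ℝ) : ℂ)) y) x) w :=
      (dz_dzb_comm j i (h2 (contDiffOn_dzb hU j h0'))).symm
    rw [e1, e2]
    apply dz_congr
    filter_upwards [hU.mem_nhds hw] with x hx
    exact dzb_dzb_comm j i ((h0'.contDiffAt (hU.mem_nhds hx)).of_le two_le_inf)
  exact dz_congr i key

/-- the identity between the quartic term and the scalar curvature -/
lemma quartic_identity (hU : IsOpen U) (h0 : (0 : C2) ∈ U) (hφ : ContDiffOn ℝ ∞ φ U)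
    (hc0 : cHess φ 0 = 1)
    (hc1 : ∀ i j l, dz l (fun w => cHess φ w i j) 0 = 0) :
    (∑ i, ∑ j, (d4 φ i j i j 0 + d4 φ i j j i 0)).re =
      2 * (cHess (fun w => Real.log (dt φ w)) 0 0 0 +
        cHess (fun w => Real.log (dt φ w)) 0 1 1).re ∧
    sh φ 0 = -((cHess (fun w => Real.log (dt φ w)) 0 0 0 +
        cHess (fun w => Real.log (dt φ w)) 0 1 1).re / 2) := by
  constructor
  · rw [trace_log_dt hU h0 hφ hc0 hc1 0, trace_log_dt hU h0 hφ hc0 hc1 1]
    simp only [Fin.sum_univ_two, Complex.add_re]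
    rw [d4_symm hU h0 hφ 0 0, d4_symm hU h0 hφ 0 1, d4_symm hU h0 hφ 1 0, d4_symm hU h0 hφ 1 1]
    ring
  · unfold sh Dm mdet
    rw [dt_zero hc0, hc0]
    simp

end Origin

/-! ### Circle means -/

lemma exp_smul_mem {r : ℝ} {w : C2} (hw : w ∈ Metric.closedBall (0 : C2) r) (θ : ℝ) :
    Complex.exp (θ * I) • w ∈ Metric.closedBall (0 : C2) r := by
  rw [mem_closedBall_zero_iff] at hw ⊢
  rw [norm_smul, Complex.norm_exp_ofReal_mul_I, one_mul]
  exact hw

lemma continuous_circle {g : C2 → ℝ} {r : ℝ}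
    (hg : ContinuousOn g (Metric.closedBall (0 : C2) r)) {w : C2}
    (hw : w ∈ Metric.closedBall (0 : C2) r) :
    Continuous (fun θ : ℝ => g (Complex.exp (θ * I) • w)) := by
  apply hg.comp_continuous (by fun_prop)
  intro θ
  exact exp_smul_mem hw θ

lemma cmean_lin {g h : C2 → ℝ} {r : ℝ} (hg : ContinuousOn g (Metric.closedBall (0 : C2) r))
    (hh : ContinuousOn h (Metric.closedBall (0 : C2) r)) (c : ℝ) {w : C2}
    (hw : w ∈ Metric.closedBall (0 : C2) r) :
    cmean (fun x => c * g x + h x) w = c * cmean g w + cmean h w := by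
  unfold cmean
  rw [intervalIntegral.integral_add
    (((continuous_circle hg hw).const_mul c).intervalIntegrable _ _)
    ((continuous_circle hh hw).intervalIntegrable _ _), intervalIntegral.integral_const_mul]
  ring

lemma integrableOn_cmean {g : C2 → ℝ} {r : ℝ}
    (hg : ContinuousOn g (Metric.closedBall (0 : C2) r)) :
    IntegrableOn (cmean g) (Metric.closedBall (0 : C2) r) := by
  have hpi : (0:ℝ) ≤ 2 * Real.pi := by positivity
  have h1 : IntegrableOn (fun p : C2 × ℝ => g (Complex.exp (p.2 * I) • p.1))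
      (Metric.closedBall (0 : C2) r ×ˢ Set.Icc 0 (2 * Real.pi)) (volume.prod volume) := by
    apply ContinuousOn.integrableOn_compact
    · exact (isCompact_closedBall _ _).prod isCompact_Icc
    · apply hg.comp (t := Metric.closedBall (0 : C2) r)
      · have hc1 : Continuous fun p : C2 × ℝ => Complex.exp ((p.2 : ℂ) * I) := by fun_prop
        exact (hc1.smul continuous_fst).continuousOn
      · intro p hp
        exact exp_smul_mem hp.1 p.2
  unfold IntegrableOn at h1 ⊢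
  rw [← Measure.prod_restrict] at h1
  have h2 := h1.integral_prod_left
  have h3 := h2.const_mul (1 / (2 * Real.pi))
  refine h3.congr (Filter.Eventually.of_forall fun w => ?_)
  simp only [cmean]
  rw [intervalIntegral.integral_of_le hpi, integral_Icc_eq_integral_Ioc]

/-! ### Integrals of the model functions -/

lemma continuous_nr : Continuous nr := by
  unfold nr
  fun_prop

lemma continuous_T2 (u : C2 → ℝ) : Continuous (T2 u) := by
  unfold T2
  apply Complex.continuous_re.comp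
  apply continuous_finsetSum
  intro i _
  apply continuous_finsetSum
  intro j _
  have := Complex.continuous_conj
  fun_prop

lemma continuous_T4 (u : C2 → ℝ) : Continuous (T4 u) := by
  unfold T4
  apply Complex.continuous_re.comp
  apply continuous_finsetSum
  intro i _
  apply continuous_finsetSum
  intro j _
  apply continuous_finsetSum
  intro k _
  apply continuous_finsetSum
  intro l _
  have := Complex.continuous_conj
  fun_prop

end

end Pool.Agent.KS
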