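import Pool.Agent.KS.Berg3Aux

/-!
# The local Bergman upper bound, uniform on compact sets (module BERG3)
-/

namespace Pool.Agent.KS

open MeasureTheory Complex Topology
open scoped ContDiff Matrix ComplexOrder ComplexConjugate Manifold Interval

noncomputable section

namespace B3

variable {U : Set C2} {φ : C2 → ℝ}

lemma joint_smooth (hU : IsOpen U) (hφ : ContDiffOn ℝ ∞ φ U) (hpos : ∀ z ∈ U, 0 < dt φ z) :
    IsOpen {q : Par × C2 | q.2 ∈ Dom U q.1} ∧
    ContDiffOn ℝ ∞ (fun q : Par × C2 => φ (FF q.1 q.2)) {q : Par × C2 | q.2 ∈ Dom U q.1} ∧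
    ContDiffOn ℝ ∞ (fun q : Par × C2 => Real.log (‖(NN q.1 q.2 q.2).det‖ ^ 2 * dt φ (FF q.1 q.2)))
      {q : Par × C2 | q.2 ∈ Dom U q.1} := by
  have hN : ∀ a i, ContDiff ℝ ∞ (fun q : Par × C2 => NN q.1 q.2 q.2 a i) := fun a i =>
    (contDiff_NN a i).comp (by fun_prop : ContDiff ℝ ∞ fun q : Par × C2 => (q.1, q.2, q.2))
  have hdet : ContDiff ℝ ∞ (fun q : Par × C2 => (NN q.1 q.2 q.2).det) := by
    simp only [Matrix.det_fin_two]
    exact ((hN 0 0).mul (hN 1 1)).sub ((hN 0 1).mul (hN 1 0))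
  have hO : IsOpen {q : Par × C2 | q.2 ∈ Dom U q.1} :=
    IsOpen.and (hU.preimage contDiff_FF.continuous) (isOpen_ne_fun hdet.continuous continuous_const)
  refine ⟨hO, hφ.comp contDiff_FF.contDiffOn fun q hq => hq.1, ?_⟩
  have h1 : ContDiffOn ℝ ∞ (fun q : Par × C2 => dt φ (FF q.1 q.2))
      {q : Par × C2 | q.2 ∈ Dom U q.1} :=
    (contDiffOn_dt hU hφ).comp contDiff_FF.contDiffOn fun q hq => hq.1
  have h2 : ContDiff ℝ ∞ (fun q : Par × C2 => ‖(NN q.1 q.2 q.2).det‖ ^ 2) := hdet.norm_sq ℝ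
  refine (h2.contDiffOn.mul h1).log fun q hq => ?_
  exact (mul_pos (pow_pos (norm_pos_iff.mpr hq.2) 2) (hpos _ hq.1)).ne'

lemma exists_radius (hU : IsOpen U) {K : Set C2} (hK : IsCompact K) (hKU : K ⊆ U) :
    ∃ r : ℝ, 0 < r ∧ ∀ z ∈ K, Metric.closedBall z r ⊆ U := by
  obtain ⟨δ, hδ, h⟩ := hK.exists_cthickening_subset_open hU hKU
  exact ⟨δ, hδ, fun z hz => (Metric.closedBall_subset_cthickening hz δ).trans h⟩

/-- change of variables and monotonicity -/
lemma change (hU : IsOpen U) (hφ : ContDiffOn ℝ ∞ φ U) (hpos : ∀ z ∈ U, 0 < dt φ z)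
    {p : Par} {z : C2} {r r0 : ℝ} (hzr : Metric.closedBall z r ⊆ U)
    (h1 : ∀ w ∈ Metric.closedBall (0 : C2) r0, FF p w ∈ Metric.closedBall z r)
    (h2 : ∀ w ∈ Metric.closedBall (0 : C2) r0, ∀ w' ∈ Metric.closedBall (0 : C2) r0,
        (NN p w w').det ≠ 0) {f : C2 → ℂ} (hf : DifferentiableOn ℂ f U) (k : ℕ) :
    ∫ w in Metric.closedBall (0 : C2) r0, ‖f (FF p w)‖ ^ 2 * Real.exp (-k * φ (FF p w)) *
        dt (fun w => φ (FF p w)) w ≤
      ∫ w in Metric.closedBall z r, ‖f w‖ ^ 2 * Real.exp (-k * φ w) * dt φ w := by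
  set g : C2 → ℝ := fun w => ‖f w‖ ^ 2 * Real.exp (-k * φ w) * dt φ w with hg
  have hDom : ∀ w ∈ Metric.closedBall (0 : C2) r0, w ∈ Dom U p := fun w hw =>
    ⟨hzr (h1 w hw), h2 w hw w hw⟩
  have hinj : Set.InjOn (FF p) (Metric.closedBall (0 : C2) r0) := by
    intro w hw w' hw' h
    have h3 := FF_sub p w w'
    rw [h, sub_self] at h3
    have h4 := Matrix.eq_zero_of_mulVec_eq_zero (h2 w hw w' hw') h3.symm
    exact sub_eq_zero.mp h4
  have hd : ∀ w, DifferentiableAt ℂ (FF p) w := fun w =>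
    (contDiff_FF' p).differentiable (by simp) w
  have h5 := integral_image_eq_integral_abs_det_fderiv_smul (μ := volume)
    (f := FF p) (f' := fun w => fderiv ℝ (FF p) w)
    (Metric.isClosed_closedBall.measurableSet (s := Metric.closedBall (0 : C2) r0))
    (fun w _ => ((hd w).restrictScalars ℝ).hasFDerivAt.hasFDerivWithinAt) hinj g
  have h6 : ∫ w in Metric.closedBall (0 : C2) r0, ‖f (FF p w)‖ ^ 2 * Real.exp (-k * φ (FF p w)) *
        dt (fun w => φ (FF p w)) w =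
      ∫ w in Metric.closedBall (0 : C2) r0, |(fderiv ℝ (FF p) w).det| • g (FF p w) := by
    refine setIntegral_congr_fun Metric.isClosed_closedBall.measurableSet fun w hw => ?_
    simp only [hg, smul_eq_mul]
    rw [psi_dt hU hφ p (hDom w hw), abs_det_fderiv_holo (hd w), Jm_FF]
    ring
  rw [h6, ← h5]
  have hgc : ContinuousOn g (Metric.closedBall z r) := by
    refine ContinuousOn.mono ?_ hzr
    exact ((hf.continuousOn.norm.pow 2).mul (Real.continuous_exp.comp_continuousOn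
      (continuousOn_const.mul hφ.continuousOn))).mul (contDiffOn_dt hU hφ).continuousOn
  refine setIntegral_mono_set (hgc.integrableOn_compact (isCompact_closedBall z r)) ?_ ?_
  · rw [Filter.EventuallyLE, ae_restrict_iff' Metric.isClosed_closedBall.measurableSet]
    refine Filter.Eventually.of_forall fun w hw => ?_
    exact mul_nonneg (mul_nonneg (sq_nonneg _) (Real.exp_nonneg _)) (hpos w (hzr hw)).le
  · refine Filter.Eventually.of_forall ?_
    rintro _ ⟨w, hw, rfl⟩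
    exact h1 w hw

end B3

open B3 in
theorem local_bergman {U : Set C2} (hU : IsOpen U) {φ : C2 → ℝ} (hφ : ContDiffOn ℝ ∞ φ U)
    (hpos : ∀ z ∈ U, (cHess φ z).PosDef) {K : Set C2} (hK : IsCompact K) (hKU : K ⊆ U) :
    ∃ r : ℝ, 0 < r ∧ (∀ z ∈ K, Metric.closedBall z r ⊆ U) ∧ ∃ C : ℝ, ∃ k0 : ℕ, 0 < k0 ∧
    ∀ k : ℕ, k0 ≤ k → ∀ z ∈ K, ∀ f : C2 → ℂ, DifferentiableOn ℂ f U →
      ‖f z‖ ^ 2 * Real.exp (-k * φ z)
        ≤ (k : ℝ) ^ 2 / Real.pi ^ 2 * (1 + sh φ z / k + C / (k * Real.sqrt k))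
          * ∫ w in Metric.closedBall z r, ‖f w‖ ^ 2 * Real.exp (-k * φ w) * dt φ w := by
  have hdt : ∀ z ∈ U, 0 < dt φ z := fun z hz => (Complex.lt_def.mp (hpos z hz).det_pos).1
  obtain ⟨r, hr, hrU⟩ := exists_radius hU hK hKU
  refine ⟨r, hr, hrU, ?_⟩
  obtain ⟨r0, hr0, hgeom⟩ := geom hU hφ hpos hK hKU hr
  obtain ⟨hO, hs1, hs2⟩ := joint_smooth hU hφ hdt
  have hKK : IsCompact ((par φ '' K) ×ˢ Metric.closedBall (0 : C2) r0) :=
    (hK.image_of_continuousOn ((continuousOn_par hU hφ hpos).mono hKU)).prod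
      (isCompact_closedBall _ _)
  have hDom : ∀ z ∈ K, ∀ w ∈ Metric.closedBall (0 : C2) r0, w ∈ Dom U (par φ z) := fun z hz w hw =>
    ⟨hrU z hz ((hgeom z hz).1 w hw), (hgeom z hz).2 w hw w hw⟩
  have hKO : (par φ '' K) ×ˢ Metric.closedBall (0 : C2) r0 ⊆ {q : Par × C2 | q.2 ∈ Dom U q.1} := by
    rintro ⟨p, w⟩ ⟨⟨z, hz, rfl⟩, hw⟩
    exact hDom z hz w hw
  obtain ⟨B4, hB4⟩ := unif_bound hO hs1 hKK hKO 4
  obtain ⟨B2, hB2⟩ := unif_bound hO hs2 hKK hKO 2
  obtain ⟨B5, hB5⟩ := unif_bound hO hs1 hKK hKO 5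
  obtain ⟨B3, hB3⟩ := unif_bound hO hs2 hKK hKO 3
  obtain ⟨C, k0, hk0, hmain⟩ := bergman_origin r0 (max (max B4 B2) (max B5 B3)) hr0
  obtain ⟨S, hS⟩ := hK.exists_bound_of_continuousOn
    ((contDiffOn_sh hU hφ hdt).continuousOn.mono hKU)
  refine ⟨|C|, max k0 (⌈S⌉₊ + 1), lt_max_of_lt_left hk0, fun k hk z hz f hf => ?_⟩
  have hzU := hKU hz
  have hkS : S ≤ k := by
    have h1 : ⌈S⌉₊ + 1 ≤ k := (le_max_right _ _).trans hk
    have h2 : S ≤ ⌈S⌉₊ := Nat.le_ceil S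
    have h3 : ((⌈S⌉₊ : ℕ) : ℝ) ≤ k := by exact_mod_cast (Nat.le_succ _).trans h1
    linarith
  have hkpos : (0 : ℝ) < k := by
    have h1 : 0 < k := hk0.trans_le ((le_max_left _ _).trans hk)
    exact_mod_cast h1
  set p := par φ z with hp
  have hDo := isOpen_Dom hU p
  have h0D : (0 : C2) ∈ Dom U p := zero_mem_Dom hpos hzU
  have hlog : ∀ w ∈ Dom U p, (fun w => Real.log (dt (fun w => φ (FF p w)) w)) =ᶠ[𝓝 w]
      fun w => Real.log (‖(NN p w w).det‖ ^ 2 * dt φ (FF p w)) := by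
    intro w hw
    filter_upwards [hDo.mem_nhds hw] with x hx
    rw [psi_dt hU hφ p hx]
  have hmem : ∀ w ∈ Metric.closedBall (0 : C2) r0,
      ((p, w) : Par × C2) ∈ (par φ '' K) ×ˢ Metric.closedBall (0 : C2) r0 := fun w hw =>
    ⟨⟨z, hz, rfl⟩, hw⟩
  have h0b : (0 : C2) ∈ Metric.closedBall (0 : C2) r0 := Metric.mem_closedBall_self hr0.le
  have key := hmain (fun w => φ (FF p w)) (Dom U p) hDo (fun w hw => hDom z hz w hw)
    (psi_smooth hφ p)
    (fun w hw => by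
      rw [psi_dt hU hφ p hw]
      exact mul_pos (pow_pos (norm_pos_iff.mpr hw.2) 2) (hdt _ hw.1))
    (psi_cHess_zero hU hφ hpos hzU)
    (fun i j l => psi_dcHess hU hφ hpos hzU i j l)
    ((hB4 (p, 0) (hmem 0 h0b)).trans ((le_max_left _ _).trans (le_max_left _ _)))
    (by
      rw [(Filter.EventuallyEq.iteratedFDeriv ℝ (hlog 0 h0D) 2).eq_of_nhds]
      exact (hB2 (p, 0) (hmem 0 h0b)).trans ((le_max_right _ _).trans (le_max_left _ _)))
    (fun w hw => (hB5 (p, w) (hmem w hw)).trans ((le_max_left _ _).trans (le_max_right _ _)))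
    (fun w hw => by
      rw [(Filter.EventuallyEq.iteratedFDeriv ℝ (hlog w (hDom z hz w hw)) 3).eq_of_nhds]
      exact (hB3 (p, w) (hmem w hw)).trans ((le_max_right _ _).trans (le_max_right _ _)))
    k ((le_max_left _ _).trans hk) (fun w => f (FF p w))
    (hf.comp ((contDiff_FF' p).differentiable (by simp)).differentiableOn fun w hw => hw.1)
  have hF0 : FF p 0 = z := FF_par_zero z
  have hsh : sh (fun w => φ (FF p w)) 0 = sh φ z := by
    have h1 := sh_comp_holo (F := FF p) (z := (0 : C2)) (φ := φ) (contDiff_FF' p).contDiffAt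
      (by rw [hF0]; exact hφ.contDiffAt (hU.mem_nhds hzU)) (by rw [hF0]; exact hdt z hzU)
      (by rw [Jm_FF]; exact h0D.2)
    rw [h1, hF0]
  rw [hsh, hF0] at key
  refine key.trans ?_
  have hch := change hU hφ hdt (hrU z hz) (hgeom z hz).1 (hgeom z hz).2 hf k
  have hI : 0 ≤ ∫ w in Metric.closedBall (0 : C2) r0, ‖f (FF p w)‖ ^ 2 *
      Real.exp (-k * φ (FF p w)) * dt (fun w => φ (FF p w)) w := by
    refine setIntegral_nonneg Metric.isClosed_closedBall.measurableSet fun w hw => ?_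
    refine mul_nonneg (mul_nonneg (sq_nonneg _) (Real.exp_nonneg _)) ?_
    rw [psi_dt hU hφ p (hDom z hz w hw)]
    exact mul_nonneg (sq_nonneg _) (hdt _ (hDom z hz w hw).1).le
  have hsq : 0 < Real.sqrt k := Real.sqrt_pos.mpr hkpos
  have hshb : -1 ≤ sh φ z / k := by
    rw [le_div_iff₀ hkpos]
    have := hS z hz
    rw [Real.norm_eq_abs] at this
    have h2 := neg_abs_le (sh φ z)
    linarith
  have hC0 : 0 ≤ |C| / (k * Real.sqrt k) := by positivity
  have hC1 : C / (k * Real.sqrt k) ≤ |C| / (k * Real.sqrt k) :=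
    div_le_div_of_nonneg_right (le_abs_self C) (by positivity)
  refine mul_le_mul (mul_le_mul_of_nonneg_left (by linarith) (by positivity)) hch hI ?_
  exact mul_nonneg (by positivity) (by linarith)

end

end Pool.Agent.KS
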