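import Pool.Agent.KS.Berg2

/-!
# Normal coordinates (auxiliary file of module BERG3)
-/

namespace Pool.Agent.KS

open MeasureTheory Complex Topology
open scoped ContDiff Matrix ComplexOrder ComplexConjugate Manifold Interval

noncomputable section

namespace B3

/-- Uniform bounds for the partial derivatives of a smooth function of two variables. -/
lemma unif_bound {E F : Type*} [NormedAddCommGroup E] [NormedSpace ℝ E] [NormedAddCommGroup F]
    [NormedSpace ℝ F] {Φ : E × F → ℝ} {O : Set (E × F)} (hO : IsOpen O)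
    (hΦ : ContDiffOn ℝ ∞ Φ O) {K : Set (E × F)} (hK : IsCompact K) (hKO : K ⊆ O) (n : ℕ) :
    ∃ B : ℝ, ∀ q ∈ K, ‖iteratedFDeriv ℝ n (fun w => Φ (q.1, w)) q.2‖ ≤ B := by
  have hc : ContinuousOn (iteratedFDeriv ℝ n Φ) O := by
    have h1 := hΦ.continuousOn_iteratedFDerivWithin (m := n) (by exact_mod_cast le_top)
      hO.uniqueDiffOn
    exact h1.congr fun x hx => (iteratedFDerivWithin_of_isOpen n hO hx).symm
  obtain ⟨B, hB⟩ := hK.exists_bound_of_continuousOn (hc.mono hKO)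
  refine ⟨B, fun q hq => ?_⟩
  set a : E × F := (q.1, 0) with ha
  let g : F →L[ℝ] E × F := ContinuousLinearMap.inr ℝ E F
  let f : E × F → ℝ := fun y => Φ (a + y)
  let s : Set (E × F) := (fun y => a + y) ⁻¹' O
  have hs : IsOpen s := hO.preimage (by fun_prop)
  have hf : ContDiffOn ℝ n f s := by
    have h2 : ContDiffOn ℝ n Φ O := hΦ.of_le (by exact_mod_cast le_top)
    exact h2.comp (by fun_prop) (fun y hy => hy)
  have hgs : IsOpen (g ⁻¹' s) := hs.preimage g.continuous
  have hx : g q.2 ∈ s := by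
    change a + g q.2 ∈ O
    have : a + g q.2 = q := by
      simp [a, g]
    rw [this]
    exact hKO hq
  have h3 := g.iteratedFDerivWithin_comp_right hf hs.uniqueDiffOn hgs.uniqueDiffOn hx
    (i := n) le_rfl
  have h4 : f ∘ g = fun w => Φ (q.1, w) := by
    funext w
    simp [f, g, a]
  rw [h4, iteratedFDerivWithin_of_isOpen n hgs hx, iteratedFDerivWithin_of_isOpen n hs hx] at h3
  rw [h3]
  have h5 : iteratedFDeriv ℝ n f (g q.2) = iteratedFDeriv ℝ n Φ q := by
    have h6 := iteratedFDeriv_comp_add_left (𝕜 := ℝ) (f := Φ) n a (g q.2)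
    have : a + g q.2 = q := by
      simp [a, g]
    rw [this] at h6
    exact h6
  rw [h5]
  refine (ContinuousMultilinearMap.norm_compContinuousLinearMap_le _ _).trans ?_
  have h7 : ∏ _i : Fin n, ‖g‖ ≤ 1 := by
    apply Finset.prod_le_one (fun _ _ => norm_nonneg _)
    intro _ _
    exact ContinuousLinearMap.norm_inr_le_one ℝ E F
  calc ‖iteratedFDeriv ℝ n Φ q‖ * ∏ _i : Fin n, ‖g‖
      ≤ ‖iteratedFDeriv ℝ n Φ q‖ * 1 := mul_le_mul_of_nonneg_left h7 (norm_nonneg _)
    _ ≤ B := by rw [mul_one]; exact hB q hq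

/-- parameters of a quadratic map: value, linear part, quadratic part -/
abbrev Par : Type := C2 × (Fin 2 → Fin 2 → ℂ) × (Fin 2 → Fin 2 → Fin 2 → ℂ)

/-- the quadratic map -/
def FF (p : Par) (w : C2) : C2 :=
  fun a => p.1 a + ∑ i, p.2.1 a i * w i + (1 / 2) * ∑ l, ∑ i, p.2.2 a l i * w l * w i

/-- the difference matrix: `FF p w - FF p w' = NN p w w' (w - w')` -/
def NN (p : Par) (w w' : C2) : Matrix (Fin 2) (Fin 2) ℂ :=
  fun a i => p.2.1 a i + (1 / 2) * ∑ l, (p.2.2 a l i * w l + p.2.2 a i l * w' l)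

lemma FF_sub (p : Par) (w w' : C2) : FF p w - FF p w' = (NN p w w').mulVec (w - w') := by
  funext a
  simp only [FF, NN, Matrix.mulVec, dotProduct, Pi.sub_apply, Fin.sum_univ_two]
  ring

lemma contDiff_FF : ContDiff ℝ ∞ (fun q : Par × C2 => FF q.1 q.2) := by
  unfold FF
  rw [contDiff_pi]
  intro a
  fun_prop

lemma contDiff_FF' (p : Par) : ContDiff ℂ ∞ (FF p) := by
  unfold FF
  rw [contDiff_pi]
  intro a
  fun_prop

lemma contDiff_NN (a i : Fin 2) :
    ContDiff ℝ ∞ (fun q : Par × C2 × C2 => NN q.1 q.2.1 q.2.2 a i) := by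
  unfold NN
  fun_prop

lemma Jm_FF (p : Par) (w : C2) : Jm (FF p) w = NN p w w := by
  funext a i
  unfold Jm
  have hd : DifferentiableAt ℂ (FF p) w := (contDiff_FF' p).differentiable (by simp) w
  have h0 : ∀ v : C2, fderiv ℂ (FF p) w v a = ∑ i, NN p w w a i * v i := by
    intro v
    have h2 : ∀ i : Fin 2, HasFDerivAt (fun w : C2 => w i)
        (ContinuousLinearMap.proj i : C2 →L[ℂ] ℂ) w :=
      fun i => (ContinuousLinearMap.proj i : C2 →L[ℂ] ℂ).hasFDerivAt
    have h1 : HasFDerivAt (fun w => FF p w a) (((ContinuousLinearMap.proj a : C2 →L[ℂ] ℂ)).comp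
        (fderiv ℂ (FF p) w)) w :=
      ((ContinuousLinearMap.proj a : C2 →L[ℂ] ℂ)).hasFDerivAt.comp w hd.hasFDerivAt
    have h3 : HasFDerivAt (fun w : C2 => p.1 a + (p.2.1 a 0 * w 0 + p.2.1 a 1 * w 1) +
        (1 / 2) * (p.2.2 a 0 0 * (w 0 * w 0) + p.2.2 a 0 1 * (w 0 * w 1) +
          (p.2.2 a 1 0 * (w 1 * w 0) + p.2.2 a 1 1 * (w 1 * w 1)))) _ w :=
      ((((h2 0).const_mul (p.2.1 a 0)).add ((h2 1).const_mul (p.2.1 a 1))).const_add (p.1 a)).add
        ((((((h2 0).mul (h2 0)).const_mul (p.2.2 a 0 0)).add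
          (((h2 0).mul (h2 1)).const_mul (p.2.2 a 0 1))).add
          ((((h2 1).mul (h2 0)).const_mul (p.2.2 a 1 0)).add
          (((h2 1).mul (h2 1)).const_mul (p.2.2 a 1 1)))).const_mul (1 / 2))
    have h4 : (fun w => FF p w a) = (fun w : C2 => p.1 a + (p.2.1 a 0 * w 0 + p.2.1 a 1 * w 1) +
        (1 / 2) * (p.2.2 a 0 0 * (w 0 * w 0) + p.2.2 a 0 1 * (w 0 * w 1) +
          (p.2.2 a 1 0 * (w 1 * w 0) + p.2.2 a 1 1 * (w 1 * w 1)))) := by
      funext w
      simp only [FF, Fin.sum_univ_two]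
      ring
    rw [h4] at h1
    have h5 := congrArg (fun L => L v) (h1.unique h3)
    simp only [ContinuousLinearMap.comp_apply, ContinuousLinearMap.proj_apply,
      add_apply, smul_apply, smul_eq_mul] at h5
    rw [h5]
    simp only [NN, Fin.sum_univ_two]
    ring
  rw [h0]
  fin_cases i <;> simp [Fin.sum_univ_two]

/-- a matrix `A` with `Aᵀ G conj(A) = 1` -/
def Am (G : Matrix (Fin 2) (Fin 2) ℂ) : Matrix (Fin 2) (Fin 2) ℂ :=
  !![((1 / Real.sqrt (G 0 0).re : ℝ) : ℂ),
      -conj (G 0 1) * ((1 / ((G 0 0).re * Real.sqrt (G.det.re / (G 0 0).re)) : ℝ) : ℂ);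
    0, ((1 / Real.sqrt (G.det.re / (G 0 0).re) : ℝ) : ℂ)]

lemma Am_spec {G : Matrix (Fin 2) (Fin 2) ℂ} (hG : G.PosDef) :
    (Am G)ᵀ * G * (Am G).map (starRingEnd ℂ) = 1 := by
  have hH := hG.isHermitian
  have h10 : G 1 0 = conj (G 0 1) := (hH.apply 1 0).symm
  have h00 : (0 : ℂ) < G 0 0 := hG.diag_pos
  have h11 : (0 : ℂ) < G 1 1 := hG.diag_pos
  have hdet : (0 : ℂ) < G.det := hG.det_pos
  obtain ⟨ha, ha'⟩ := Complex.lt_def.mp h00
  obtain ⟨hc, hc'⟩ := Complex.lt_def.mp h11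
  obtain ⟨hD, hD'⟩ := Complex.lt_def.mp hdet
  simp only [Complex.zero_re, Complex.zero_im] at ha ha' hc hc' hD hD'
  have hG0 : G 0 0 = ((G 0 0).re : ℂ) := by
    apply Complex.ext <;> simp [← ha']
  have hDD : (G.det.re : ℂ) = G 0 0 * G 1 1 - G 0 1 * conj (G 0 1) := by
    have : G.det = (G.det.re : ℂ) := by apply Complex.ext <;> simp [← hD']
    rw [← this, Matrix.det_fin_two, h10]
  set a : ℝ := (G 0 0).re with hadef
  set D : ℝ := G.det.re with hDdef
  set s : ℝ := Real.sqrt a with hs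
  set t : ℝ := Real.sqrt (D / a) with ht
  have hs0 : 0 < s := Real.sqrt_pos.mpr ha
  have ht0 : 0 < t := Real.sqrt_pos.mpr (div_pos hD ha)
  have hss : (s : ℂ) ^ 2 = a := by
    rw [← Complex.ofReal_pow, Real.sq_sqrt ha.le]
  have htt : (a : ℂ) * (t : ℂ) ^ 2 = D := by
    rw [← Complex.ofReal_pow, Real.sq_sqrt (div_pos hD ha).le, ← Complex.ofReal_mul,
      mul_div_cancel₀ _ ha.ne']
  have hsC : (s : ℂ) ≠ 0 := by exact_mod_cast hs0.ne'
  have htC : (t : ℂ) ≠ 0 := by exact_mod_cast ht0.ne'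
  have haC : (a : ℂ) ≠ 0 := by exact_mod_cast ha.ne'
  have hA : Am G = !![((1 / s : ℝ) : ℂ), -conj (G 0 1) * ((1 / (a * t) : ℝ) : ℂ);
    0, ((1 / t : ℝ) : ℂ)] := rfl
  rw [hA]
  ext i j
  fin_cases i <;> fin_cases j
  · simp [Matrix.mul_apply, Fin.sum_univ_two]
    rw [hG0]
    field_simp
    rw [hss]
  · simp [Matrix.mul_apply, Fin.sum_univ_two]
    rw [hG0]
    field_simp
    ring
  · simp [Matrix.mul_apply, Fin.sum_univ_two, h10]
    left
    rw [hG0]
    field_simp
    ring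
  · simp [Matrix.mul_apply, Fin.sum_univ_two, h10]
    rw [hG0] at hDD ⊢
    field_simp
    linear_combination -hDD - htt

/-- the quadratic part -/
def Qdf (A : Matrix (Fin 2) (Fin 2) ℂ) (S : Fin 2 → Fin 2 → Fin 2 → ℂ) (a l i : Fin 2) : ℂ :=
  -∑ b, ∑ m, A a m * conj (A b m) * S b l i

lemma Qdf_spec {A G : Matrix (Fin 2) (Fin 2) ℂ} (h : Aᵀ * G * A.map (starRingEnd ℂ) = 1)
    (S : Fin 2 → Fin 2 → Fin 2 → ℂ) (b l i : Fin 2) :
    ∑ a, Qdf A S a l i * G a b = - S b l i := by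
  have h1 : A.map (starRingEnd ℂ) * (Aᵀ * G) = 1 := mul_eq_one_comm.mp h
  have h2 : ∀ b', ∑ m, conj (A b' m) * ∑ a, A a m * G a b = if b' = b then 1 else 0 := by
    intro b'
    have := congrFun (congrFun h1 b') b
    rw [Matrix.one_apply] at this
    rw [← this]
    simp [Matrix.mul_apply, Matrix.map_apply, Matrix.transpose_apply]
  have h3 : ∑ a, Qdf A S a l i * G a b =
      - ∑ b', S b' l i * ∑ m, conj (A b' m) * ∑ a, A a m * G a b := by
    simp only [Qdf, Fin.sum_univ_two]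
    ring
  rw [h3]
  simp only [h2]
  simp

/-- the cubic data -/
def Sq (φ : C2 → ℝ) (A : Matrix (Fin 2) (Fin 2) ℂ) (z : C2) (b l i : Fin 2) : ℂ :=
  ∑ c, ∑ d, A c l * A d i * dz c (fun w => cHess φ w d b) z

/-- the parameters of the normal coordinates -/
def par (φ : C2 → ℝ) (z : C2) : Par :=
  (z, fun a i => Am (cHess φ z) a i, Qdf (Am (cHess φ z)) (Sq φ (Am (cHess φ z)) z))

section

variable {U : Set C2} {φ : C2 → ℝ}

lemma coe_smooth (hφ : ContDiffOn ℝ ∞ φ U) :
    ContDiffOn ℝ ∞ (fun w => ((φ w : ℝ) : ℂ)) U :=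
  Complex.ofRealCLM.contDiff.comp_contDiffOn hφ

lemma Qdf_symm (hU : IsOpen U) (hφ : ContDiffOn ℝ ∞ φ U) {z : C2} (hz : z ∈ U)
    (A : Matrix (Fin 2) (Fin 2) ℂ)
    (a l i : Fin 2) : Qdf A (Sq φ A z) a l i = Qdf A (Sq φ A z) a i l := by
  have hcl : ∀ b c d, dz c (fun w => cHess φ w d b) z = dz d (fun w => cHess φ w c b) z := by
    intro b c d
    have h1 : ContDiffAt ℝ 2 (fun w => dzb b (fun w => ((φ w : ℝ) : ℂ)) w) z :=
      ((contDiffOn_dzb hU b (coe_smooth hφ)).contDiffAt (hU.mem_nhds hz)).of_le (WithTop.coe_le_coe.mpr le_top)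
    exact dz_dz_comm c d h1
  have h : ∀ b, Sq φ A z b l i = Sq φ A z b i l := by
    intro b
    unfold Sq
    rw [Finset.sum_comm]
    refine Finset.sum_congr rfl fun c _ => Finset.sum_congr rfl fun d _ => ?_
    rw [hcl b d c]
    ring
  unfold Qdf
  simp only [h]

lemma continuousOn_par (hU : IsOpen U) (hφ : ContDiffOn ℝ ∞ φ U)
    (hpos : ∀ z ∈ U, (cHess φ z).PosDef) : ContinuousOn (par φ) U := by
  have hG : ∀ i j, ContinuousOn (fun z => cHess φ z i j) U := fun i j =>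
    (contDiffOn_cHess hU i j hφ).continuousOn
  have hdG : ∀ c i j, ContinuousOn (fun z => dz c (fun w => cHess φ w i j) z) U := fun c i j =>
    (contDiffOn_dz hU c (contDiffOn_cHess hU i j hφ)).continuousOn
  have ha : ContinuousOn (fun z => (cHess φ z 0 0).re) U :=
    Complex.continuous_re.comp_continuousOn (hG 0 0)
  have hD : ContinuousOn (fun z => (cHess φ z).det.re) U := by
    refine Complex.continuous_re.comp_continuousOn ?_
    simp only [Matrix.det_fin_two]
    exact ((hG 0 0).mul (hG 1 1)).sub ((hG 0 1).mul (hG 1 0))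
  have ha0 : ∀ z ∈ U, 0 < (cHess φ z 0 0).re := fun z hz =>
    (Complex.lt_def.mp (hpos z hz).diag_pos).1
  have hD0 : ∀ z ∈ U, 0 < (cHess φ z).det.re := fun z hz =>
    (Complex.lt_def.mp (hpos z hz).det_pos).1
  have hq : ContinuousOn (fun z => (cHess φ z).det.re / (cHess φ z 0 0).re) U :=
    hD.div ha fun z hz => (ha0 z hz).ne'
  have hq0 : ∀ z ∈ U, 0 < Real.sqrt ((cHess φ z).det.re / (cHess φ z 0 0).re) := fun z hz =>
    Real.sqrt_pos.mpr (div_pos (hD0 z hz) (ha0 z hz))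
  have hA : ∀ i j, ContinuousOn (fun z => Am (cHess φ z) i j) U := by
    have e00 : ContinuousOn (fun z => ((1 / Real.sqrt (cHess φ z 0 0).re : ℝ) : ℂ)) U :=
      Complex.continuous_ofReal.comp_continuousOn (continuousOn_const.div
        (Real.continuous_sqrt.comp_continuousOn ha) fun z hz => (Real.sqrt_pos.mpr (ha0 z hz)).ne')
    have e11 : ContinuousOn (fun z =>
        ((1 / Real.sqrt ((cHess φ z).det.re / (cHess φ z 0 0).re) : ℝ) : ℂ)) U :=
      Complex.continuous_ofReal.comp_continuousOn (continuousOn_const.div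
        (Real.continuous_sqrt.comp_continuousOn hq) fun z hz => (hq0 z hz).ne')
    have e01 : ContinuousOn (fun z => -conj (cHess φ z 0 1) *
        ((1 / ((cHess φ z 0 0).re * Real.sqrt ((cHess φ z).det.re / (cHess φ z 0 0).re)) : ℝ) : ℂ)) U :=
      ((Complex.continuous_conj.comp_continuousOn (hG 0 1)).neg).mul
        (Complex.continuous_ofReal.comp_continuousOn (continuousOn_const.div
        (ha.mul (Real.continuous_sqrt.comp_continuousOn hq)) fun z hz =>
          (mul_pos (ha0 z hz) (hq0 z hz)).ne'))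
    intro i j
    fin_cases i <;> fin_cases j
    · exact e00
    · exact e01
    · exact continuousOn_const
    · exact e11
  have hS : ∀ b l i, ContinuousOn (fun z => Sq φ (Am (cHess φ z)) z b l i) U := by
    intro b l i
    unfold Sq
    exact continuousOn_finsetSum _ fun c _ => continuousOn_finsetSum _ fun d _ =>
      ((hA c l).mul (hA d i)).mul (hdG c d b)
  have hQ : ∀ a l i, ContinuousOn (fun z => Qdf (Am (cHess φ z)) (Sq φ (Am (cHess φ z)) z) a l i) U := by
    intro a l i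
    unfold Qdf
    exact (continuousOn_finsetSum _ fun b _ => continuousOn_finsetSum _ fun m _ =>
      ((hA a m).mul (Complex.continuous_conj.comp_continuousOn (hA b m))).mul (hS b l i)).neg
  unfold par
  refine continuousOn_id.prodMk (ContinuousOn.prodMk ?_ ?_)
  · exact continuousOn_pi.mpr fun a => continuousOn_pi.mpr fun i => hA a i
  · exact continuousOn_pi.mpr fun a => continuousOn_pi.mpr fun l => continuousOn_pi.mpr fun i =>
      hQ a l i

lemma Am_det_ne {G : Matrix (Fin 2) (Fin 2) ℂ} (hG : G.PosDef) : (Am G).det ≠ 0 := by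
  have h := congrArg Matrix.det (Am_spec hG)
  rw [Matrix.det_mul, Matrix.det_mul, Matrix.det_transpose, Matrix.det_one] at h
  intro h0
  rw [h0] at h
  simp at h

lemma NN_par_zero (z : C2) : NN (par φ z) 0 0 = Am (cHess φ z) := by
  funext a i
  simp [NN, par]

lemma FF_par_zero (z : C2) : FF (par φ z) 0 = z := by
  funext a
  simp [FF, par]

lemma geom (hU : IsOpen U) (hφ : ContDiffOn ℝ ∞ φ U) (hpos : ∀ z ∈ U, (cHess φ z).PosDef)
    {K : Set C2} (hK : IsCompact K) (hKU : K ⊆ U) {r : ℝ} (hr : 0 < r) :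
    ∃ r0 : ℝ, 0 < r0 ∧ ∀ z ∈ K,
      (∀ w ∈ Metric.closedBall (0 : C2) r0, FF (par φ z) w ∈ Metric.closedBall z r) ∧
      (∀ w ∈ Metric.closedBall (0 : C2) r0, ∀ w' ∈ Metric.closedBall (0 : C2) r0,
        (NN (par φ z) w w').det ≠ 0) := by
  have hP : IsCompact (par φ '' K) := hK.image_of_continuousOn
    ((continuousOn_par hU hφ hpos).mono hKU)
  let O : Set (Par × (C2 × C2)) :=
    {q | dist (FF q.1 q.2.1) q.1.1 < r ∧ (NN q.1 q.2.1 q.2.2).det ≠ 0}
  have hO : IsOpen O := by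
    refine IsOpen.and ?_ ?_
    · refine isOpen_lt (Continuous.dist ?_ (by fun_prop)) continuous_const
      exact contDiff_FF.continuous.comp (by fun_prop : Continuous fun q : Par × (C2 × C2) =>
        (q.1, q.2.1))
    · refine isOpen_ne_fun ?_ continuous_const
      simp only [Matrix.det_fin_two]
      have h := fun a i => (contDiff_NN a i).continuous
      exact ((h 0 0).mul (h 1 1)).sub ((h 0 1).mul (h 1 0))
  have hsub : (par φ '' K) ×ˢ ({(0, 0)} : Set (C2 × C2)) ⊆ O := by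
    rintro ⟨p, w⟩ ⟨⟨z, hz, rfl⟩, hw⟩
    simp only [Set.mem_singleton_iff] at hw
    subst hw
    refine ⟨?_, ?_⟩
    · change dist (FF (par φ z) 0) z < r
      rw [FF_par_zero, dist_self]
      exact hr
    · change (NN (par φ z) 0 0).det ≠ 0
      rw [NN_par_zero]
      exact Am_det_ne (hpos z (hKU hz))
  obtain ⟨u, v, hu, hv, hPu, h0v, huv⟩ := generalized_tube_lemma hP isCompact_singleton hO hsub
  obtain ⟨ε, hε, hεv⟩ := Metric.isOpen_iff.mp hv (0, 0) (h0v rfl)
  refine ⟨ε / 2, by positivity, fun z hz => ?_⟩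
  have key : ∀ w ∈ Metric.closedBall (0 : C2) (ε / 2), ∀ w' ∈ Metric.closedBall (0 : C2) (ε / 2),
      ((par φ z, (w, w')) : Par × (C2 × C2)) ∈ O := by
    intro w hw w' hw'
    apply huv
    refine ⟨hPu ⟨z, hz, rfl⟩, hεv ?_⟩
    rw [mem_closedBall_zero_iff] at hw hw'
    rw [Metric.mem_ball, Prod.dist_eq, dist_zero_right, dist_zero_right]
    exact max_lt (by linarith) (by linarith)
  refine ⟨fun w hw => ?_, fun w hw w' hw' => (key w hw w' hw').2⟩
  exact (key w hw 0 (Metric.mem_closedBall_self (by positivity))).1.le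

lemma dz_NN (p : Par) (a i l : Fin 2) (w : C2) (hp : p.2.2 a l i = p.2.2 a i l) :
    dz l (fun w => NN p w w a i) w = p.2.2 a l i := by
  have hd : HasFDerivAt (fun w : C2 => NN p w w a i)
      (∑ l, ((1 / 2) * (p.2.2 a l i + p.2.2 a i l)) • (ContinuousLinearMap.proj l : C2 →L[ℂ] ℂ)) w := by
    have h2 : ∀ i : Fin 2, HasFDerivAt (fun w : C2 => w i)
        (ContinuousLinearMap.proj i : C2 →L[ℂ] ℂ) w :=
      fun i => (ContinuousLinearMap.proj i : C2 →L[ℂ] ℂ).hasFDerivAt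
    have h3 := (HasFDerivAt.fun_sum (u := Finset.univ) (fun l (_ : l ∈ Finset.univ) =>
      (h2 l).const_mul ((1 / 2) * (p.2.2 a l i + p.2.2 a i l)))).const_add (p.2.1 a i)
    refine h3.congr_of_eventuallyEq (Filter.Eventually.of_forall fun w => ?_)
    simp only [NN, Finset.mul_sum]
    congr 1
    refine Finset.sum_congr rfl fun l _ => ?_
    ring
  rw [dz_holo l hd.differentiableAt, hd.fderiv]
  simp only [Fin.sum_univ_two, add_apply, smul_apply, ContinuousLinearMap.proj_apply, smul_eq_mul]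
  fin_cases l
  · simp
    simp at hp
    rw [hp]; ring
  · simp
    simp at hp
    rw [hp]; ring

/-- the domain of the normal coordinates -/
def Dom (U : Set C2) (p : Par) : Set C2 := {w | FF p w ∈ U ∧ (NN p w w).det ≠ 0}

lemma isOpen_Dom (hU : IsOpen U) (p : Par) : IsOpen (Dom U p) := by
  refine IsOpen.and (hU.preimage (contDiff_FF' p).continuous) (isOpen_ne_fun ?_ continuous_const)
  simp only [Matrix.det_fin_two]
  have h : ∀ a i, Continuous fun w : C2 => NN p w w a i := fun a i =>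
    (contDiff_NN a i).continuous.comp (by fun_prop : Continuous fun w : C2 => (p, w, w))
  exact ((h 0 0).mul (h 1 1)).sub ((h 0 1).mul (h 1 0))

lemma psi_smooth (hφ : ContDiffOn ℝ ∞ φ U) (p : Par) :
    ContDiffOn ℝ ∞ (fun w => φ (FF p w)) (Dom U p) :=
  hφ.comp ((contDiff_FF' p).restrict_scalars ℝ).contDiffOn fun _ hw => hw.1

lemma psi_dt (hU : IsOpen U) (hφ : ContDiffOn ℝ ∞ φ U) (p : Par) {w : C2} (hw : w ∈ Dom U p) :
    dt (fun w => φ (FF p w)) w = ‖(NN p w w).det‖ ^ 2 * dt φ (FF p w) := by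
  rw [← Jm_FF]
  exact dt_comp_holo ((contDiff_FF' p).contDiffAt.of_le (WithTop.coe_le_coe.mpr le_top))
    ((hφ.contDiffAt (hU.mem_nhds hw.1)).of_le (WithTop.coe_le_coe.mpr le_top))

lemma psi_cHess (hU : IsOpen U) (hφ : ContDiffOn ℝ ∞ φ U) (p : Par) {w : C2} (hw : w ∈ Dom U p) :
    cHess (fun w => φ (FF p w)) w =
      (NN p w w)ᵀ * cHess φ (FF p w) * (NN p w w).map (starRingEnd ℂ) := by
  rw [← Jm_FF]
  exact cHess_comp_holo ((contDiff_FF' p).contDiffAt.of_le (WithTop.coe_le_coe.mpr le_top))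
    ((hφ.contDiffAt (hU.mem_nhds hw.1)).of_le (WithTop.coe_le_coe.mpr le_top))

lemma zero_mem_Dom (hpos : ∀ z ∈ U, (cHess φ z).PosDef) {z : C2} (hz : z ∈ U) :
    (0 : C2) ∈ Dom U (par φ z) := by
  refine ⟨?_, ?_⟩
  · rw [FF_par_zero]; exact hz
  · rw [NN_par_zero]; exact Am_det_ne (hpos z hz)

lemma psi_cHess_zero (hU : IsOpen U) (hφ : ContDiffOn ℝ ∞ φ U) (hpos : ∀ z ∈ U, (cHess φ z).PosDef)
    {z : C2} (hz : z ∈ U) : cHess (fun w => φ (FF (par φ z) w)) 0 = 1 := by
  rw [psi_cHess hU hφ _ (zero_mem_Dom hpos hz), NN_par_zero, FF_par_zero]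
  exact Am_spec (hpos z hz)

lemma psi_dcHess (hU : IsOpen U) (hφ : ContDiffOn ℝ ∞ φ U) (hpos : ∀ z ∈ U, (cHess φ z).PosDef)
    {z : C2} (hz : z ∈ U) (i j l : Fin 2) :
    dz l (fun w => cHess (fun w => φ (FF (par φ z) w)) w i j) 0 = 0 := by
  set p := par φ z with hp
  set A := Am (cHess φ z) with hA
  have hNd : ∀ a i, DifferentiableAt ℂ (fun w => NN p w w a i) 0 := by
    intro a i
    have : ContDiff ℂ ∞ fun w : C2 => NN p w w a i := by unfold NN; fun_prop
    exact this.differentiable (by simp) 0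
  have hNr : ∀ a i, DifferentiableAt ℝ (fun w => NN p w w a i) 0 := fun a i =>
    (hNd a i).restrictScalars ℝ
  have hNc : ∀ a i, DifferentiableAt ℝ (fun w => conj (NN p w w a i)) 0 := fun a i =>
    (Complex.conjCLE.differentiable.differentiableAt).comp _ (hNr a i)
  have hF : DifferentiableAt ℂ (FF p) 0 := (contDiff_FF' p).differentiable (by simp) 0
  have hF0 : FF p 0 = z := FF_par_zero z
  have hG : ∀ a b, DifferentiableAt ℝ (fun w => cHess φ w a b) (FF p 0) := by
    intro a b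
    rw [hF0]
    exact ((contDiffOn_cHess hU a b hφ).contDiffAt (hU.mem_nhds hz)).differentiableAt (by simp)
  have hGF : ∀ a b, DifferentiableAt ℝ (fun w => cHess φ (FF p w) a b) 0 := fun a b =>
    (hG a b).comp (0 : C2) (hF.restrictScalars ℝ)
  have h1 : (fun w => cHess (fun w => φ (FF p w)) w i j) =ᶠ[𝓝 0] fun w =>
      ∑ b, (∑ a, NN p w w a i * cHess φ (FF p w) a b) * conj (NN p w w b j) := by
    filter_upwards [(isOpen_Dom hU p).mem_nhds (zero_mem_Dom hpos hz)] with w hw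
    rw [psi_cHess hU hφ p hw]
    simp [Matrix.mul_apply]
  rw [dz_congr l h1]
  have h2 : ∀ b j, dz l (fun w => conj (NN p w w b j)) 0 = 0 := by
    intro b j
    rw [dz_conj l (hNr b j), dzb_holo l (hNd b j), map_zero]
  have h3 : ∀ a i, dz l (fun w => NN p w w a i) 0 = p.2.2 a l i := fun a i =>
    dz_NN p a i l 0 (Qdf_symm hU hφ hz _ a l i)
  have h4 : ∀ a b, dz l (fun w => cHess φ (FF p w) a b) 0 =
      ∑ c, dz c (fun w => cHess φ w a b) z * A c l := by
    intro a b
    rw [dz_comp_holo (G := fun w => cHess φ w a b) l hF (hG a b), hF0]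
    refine Finset.sum_congr rfl fun c _ => ?_
    rw [Jm_FF, hp, NN_par_zero]
  have hN0 : ∀ a i, NN p 0 0 a i = A a i := fun a i => by rw [hp, NN_par_zero]
  have hprod : ∀ a b, DifferentiableAt ℝ (fun w => NN p w w a i * cHess φ (FF p w) a b) 0 :=
    fun a b => (hNr a i).mul (hGF a b)
  have hsum : ∀ b, DifferentiableAt ℝ (fun w => ∑ a, NN p w w a i * cHess φ (FF p w) a b) 0 :=
    fun b => DifferentiableAt.fun_sum fun a _ => hprod a b
  have h5 : ∀ b, dz l (fun w => (∑ a, NN p w w a i * cHess φ (FF p w) a b) * conj (NN p w w b j)) 0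
      = 0 := by
    intro b
    rw [dz_mul l (hsum b) (hNc b j), h2, mul_zero, add_zero,
      dz_sum Finset.univ l fun a _ => hprod a b]
    have h6 : ∑ a, dz l (fun w => NN p w w a i * cHess φ (FF p w) a b) 0 =
        ∑ a, p.2.2 a l i * cHess φ z a b +
          ∑ a, A a i * ∑ c, dz c (fun w => cHess φ w a b) z * A c l := by
      rw [← Finset.sum_add_distrib]
      refine Finset.sum_congr rfl fun a _ => ?_
      rw [dz_mul l (hNr a i) (hGF a b), h3, h4, hF0, hN0]
    have h7 := Qdf_spec (Am_spec (hpos z hz)) (Sq φ (Am (cHess φ z)) z) b l i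
    have h8 : ∑ a, p.2.2 a l i * cHess φ z a b = - Sq φ (Am (cHess φ z)) z b l i := h7
    rw [h6, h8]
    have h9 : Sq φ (Am (cHess φ z)) z b l i =
        ∑ a, A a i * ∑ c, dz c (fun w => cHess φ w a b) z * A c l := by
      unfold Sq
      simp only [Fin.sum_univ_two]
      ring
    rw [h9]
    ring
  have h10 := dz_sum Finset.univ (F := fun b w =>
    (∑ a, NN p w w a i * cHess φ (FF p w) a b) * conj (NN p w w b j)) l
    (fun b _ => (hsum b).mul (hNc b j))
  refine h10.trans (Finset.sum_eq_zero fun b _ => h5 b)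

end

end B3

end

end Pool.Agent.KS
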