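import Pool.Agent.KS.Base

/-!
# Wirtinger calculus (module CALC)
-/

namespace Pool.Agent.KS

open MeasureTheory Complex Topology
open scoped ContDiff Matrix ComplexOrder ComplexConjugate Manifold

noncomputable section

variable {n m : ℕ}


/-! ### First order -/

theorem dz_congr {F G : Cn n → ℂ} {z : Cn n} (i : Fin n) (h : F =ᶠ[𝓝 z] G) :
    dz i F z = dz i G z := by
  simp only [dz, h.fderiv_eq]

theorem dzb_congr {F G : Cn n → ℂ} {z : Cn n} (i : Fin n) (h : F =ᶠ[𝓝 z] G) :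
    dzb i F z = dzb i G z := by
  simp only [dzb, h.fderiv_eq]

theorem dz_const (c : ℂ) (i : Fin n) (z : Cn n) : dz i (fun _ => c) z = 0 := by
  simp [dz]

theorem dzb_const (c : ℂ) (i : Fin n) (z : Cn n) : dzb i (fun _ => c) z = 0 := by
  simp [dzb]

theorem dz_add {F G : Cn n → ℂ} {z : Cn n} (i : Fin n) (hF : DifferentiableAt ℝ F z)
    (hG : DifferentiableAt ℝ G z) : dz i (fun w => F w + G w) z = dz i F z + dz i G z := by
  simp only [dz, fderiv_fun_add hF hG, add_apply]; ring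

theorem dzb_add {F G : Cn n → ℂ} {z : Cn n} (i : Fin n) (hF : DifferentiableAt ℝ F z)
    (hG : DifferentiableAt ℝ G z) : dzb i (fun w => F w + G w) z = dzb i F z + dzb i G z := by
  simp only [dzb, fderiv_fun_add hF hG, add_apply]; ring

theorem dz_sub {F G : Cn n → ℂ} {z : Cn n} (i : Fin n) (hF : DifferentiableAt ℝ F z)
    (hG : DifferentiableAt ℝ G z) : dz i (fun w => F w - G w) z = dz i F z - dz i G z := by
  simp only [dz, fderiv_fun_sub hF hG, sub_apply]; ring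

theorem dzb_sub {F G : Cn n → ℂ} {z : Cn n} (i : Fin n) (hF : DifferentiableAt ℝ F z)
    (hG : DifferentiableAt ℝ G z) : dzb i (fun w => F w - G w) z = dzb i F z - dzb i G z := by
  simp only [dzb, fderiv_fun_sub hF hG, sub_apply]; ring

theorem dz_mul {F G : Cn n → ℂ} {z : Cn n} (i : Fin n) (hF : DifferentiableAt ℝ F z)
    (hG : DifferentiableAt ℝ G z) :
    dz i (fun w => F w * G w) z = dz i F z * G z + F z * dz i G z := by
  simp only [dz, fderiv_fun_mul hF hG, add_apply, smul_apply, smul_eq_mul]; ring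

theorem dzb_mul {F G : Cn n → ℂ} {z : Cn n} (i : Fin n) (hF : DifferentiableAt ℝ F z)
    (hG : DifferentiableAt ℝ G z) :
    dzb i (fun w => F w * G w) z = dzb i F z * G z + F z * dzb i G z := by
  simp only [dzb, fderiv_fun_mul hF hG, add_apply, smul_apply, smul_eq_mul]; ring

theorem dz_const_mul {F : Cn n → ℂ} {z : Cn n} (c : ℂ) (i : Fin n) (hF : DifferentiableAt ℝ F z) :
    dz i (fun w => c * F w) z = c * dz i F z := by
  rw [dz_mul i (differentiableAt_const c) hF, dz_const]; ring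

theorem dzb_const_mul {F : Cn n → ℂ} {z : Cn n} (c : ℂ) (i : Fin n) (hF : DifferentiableAt ℝ F z) :
    dzb i (fun w => c * F w) z = c * dzb i F z := by
  rw [dzb_mul i (differentiableAt_const c) hF, dzb_const]; ring

theorem dz_sum {α : Type} (s : Finset α) {F : α → Cn n → ℂ} {z : Cn n} (i : Fin n)
    (hF : ∀ a ∈ s, DifferentiableAt ℝ (F a) z) :
    dz i (fun w => ∑ a ∈ s, F a w) z = ∑ a ∈ s, dz i (F a) z := by
  simp only [dz, fderiv_fun_sum hF, sum_apply, Finset.mul_sum, ← Finset.sum_sub_distrib]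

theorem dzb_sum {α : Type} (s : Finset α) {F : α → Cn n → ℂ} {z : Cn n} (i : Fin n)
    (hF : ∀ a ∈ s, DifferentiableAt ℝ (F a) z) :
    dzb i (fun w => ∑ a ∈ s, F a w) z = ∑ a ∈ s, dzb i (F a) z := by
  simp only [dzb, fderiv_fun_sum hF, sum_apply, Finset.mul_sum, ← Finset.sum_add_distrib]

theorem fderiv_conj_apply (F : Cn n → ℂ) (z v : Cn n) :
    fderiv ℝ (fun w => conj (F w)) z v = conj (fderiv ℝ F z v) := by
  have h : (fun w => conj (F w)) = (conjCLE : ℂ → ℂ) ∘ F := by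
    funext w; simp
  rw [h, ContinuousLinearEquiv.comp_fderiv]
  simp

theorem dz_conj {F : Cn n → ℂ} {z : Cn n} (i : Fin n) (hF : DifferentiableAt ℝ F z) :
    dz i (fun w => conj (F w)) z = conj (dzb i F z) := by
  simp only [dz, dzb, fderiv_conj_apply, map_mul, map_add, conj_I, map_div₀, map_one, map_ofNat]
  ring

theorem dzb_conj {F : Cn n → ℂ} {z : Cn n} (i : Fin n) (hF : DifferentiableAt ℝ F z) :
    dzb i (fun w => conj (F w)) z = conj (dz i F z) := by
  simp only [dz, dzb, fderiv_conj_apply, map_mul, map_sub, conj_I, map_div₀, map_one, map_ofNat]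
  ring

theorem differentiableAt_ofReal {u : Cn n → ℝ} {z : Cn n} (hu : DifferentiableAt ℝ u z) :
    DifferentiableAt ℝ (fun w => ((u w : ℝ) : ℂ)) z :=
  ofRealCLM.differentiableAt.comp z hu

theorem dzb_real {u : Cn n → ℝ} {z : Cn n} (i : Fin n) (hu : DifferentiableAt ℝ u z) :
    dzb i (fun w => ((u w : ℝ) : ℂ)) z = conj (gz i u z) := by
  rw [gz, ← dzb_conj i (differentiableAt_ofReal hu)]
  simp

theorem dz_holo {F : Cn n → ℂ} {z : Cn n} (i : Fin n) (hF : DifferentiableAt ℂ F z) :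
    dz i F z = fderiv ℂ F z (Pi.single i 1) := by
  have h : (Pi.single i I : Cn n) = I • (Pi.single i 1 : Cn n) := by
    rw [← Pi.single_smul]; simp
  rw [dz, hF.fderiv_restrictScalars ℝ]
  simp only [ContinuousLinearMap.coe_restrictScalars', h, map_smul, smul_eq_mul]
  linear_combination (-(1/2) * fderiv ℂ F z (Pi.single i 1)) * I_mul_I

theorem dzb_holo {F : Cn n → ℂ} {z : Cn n} (i : Fin n) (hF : DifferentiableAt ℂ F z) :
    dzb i F z = 0 := by
  have h : (Pi.single i I : Cn n) = I • (Pi.single i 1 : Cn n) := by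
    rw [← Pi.single_smul]; simp
  rw [dzb, hF.fderiv_restrictScalars ℝ]
  simp only [ContinuousLinearMap.coe_restrictScalars', h, map_smul, smul_eq_mul]
  linear_combination ((1/2) * fderiv ℂ F z (Pi.single i 1)) * I_mul_I

theorem single_decomp (w : Cn n) :
    w = ∑ a, ((w a).re • (Pi.single a 1 : Cn n) + (w a).im • (Pi.single a I : Cn n)) := by
  funext b
  simp only [Finset.sum_apply, Pi.add_apply, Pi.smul_apply, real_smul]
  rw [Finset.sum_eq_single b]
  · simp only [Pi.single_eq_same, mul_one]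
    exact (re_add_im (w b)).symm
  · intro a _ hab
    simp [Pi.single_eq_of_ne (Ne.symm hab)]
  · intro h; exact absurd (Finset.mem_univ _) h

/-- real directional derivative from the Wirtinger derivatives, pure algebra -/
theorem fderiv_apply_eq (F : Cn n → ℂ) (z : Cn n) (ξ : Cn n) :
    fderiv ℝ F z ξ = ∑ i, (ξ i * dz i F z + conj (ξ i) * dzb i F z) := by
  conv_lhs => rw [single_decomp ξ]
  rw [map_sum]
  refine Finset.sum_congr rfl fun a _ => ?_
  rw [map_add, map_smul, map_smul]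
  simp only [dz, dzb, real_smul]
  set A := fderiv ℝ F z (Pi.single a 1)
  set B := fderiv ℝ F z (Pi.single a I)
  have h1 : (ξ a) = ((ξ a).re : ℂ) + ((ξ a).im : ℂ) * I := (re_add_im (ξ a)).symm
  have h2 : conj (ξ a) = ((ξ a).re : ℂ) - ((ξ a).im : ℂ) * I := by
    apply Complex.ext <;> simp
  have hI : I * I = -1 := I_mul_I
  rw [h2]
  generalize (ξ a).re = r at *
  generalize (ξ a).im = s at *
  rw [h1]
  linear_combination ((s : ℂ) * B) * hI

theorem fderiv_comp_holo_apply {G : Cn m → ℂ} {F : Cn n → Cn m} {z : Cn n}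
    (hF : DifferentiableAt ℂ F z) (hG : DifferentiableAt ℝ G (F z)) (v : Cn n) :
    fderiv ℝ (fun w => G (F w)) z v = fderiv ℝ G (F z) (fderiv ℂ F z v) := by
  have h := fderiv_comp (𝕜 := ℝ) z hG (hF.restrictScalars ℝ)
  have h2 : (fun w => G (F w)) = G ∘ F := rfl
  rw [h2, h, ContinuousLinearMap.comp_apply, hF.fderiv_restrictScalars ℝ]
  rfl

theorem dz_comp_holo {G : Cn m → ℂ} {F : Cn n → Cn m} {z : Cn n} (i : Fin n)
    (hF : DifferentiableAt ℂ F z) (hG : DifferentiableAt ℝ G (F z)) :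
    dz i (fun w => G (F w)) z = ∑ a, dz a G (F z) * Jm F z a i := by
  have hI : (Pi.single i I : Cn n) = I • (Pi.single i 1 : Cn n) := by
    rw [← Pi.single_smul]; simp
  rw [dz]
  simp only [fderiv_comp_holo_apply hF hG, hI, map_smul]
  rw [fderiv_apply_eq G (F z) (fderiv ℂ F z (Pi.single i 1)),
    fderiv_apply_eq G (F z) (I • fderiv ℂ F z (Pi.single i 1)), Finset.mul_sum,
    ← Finset.sum_sub_distrib, Finset.mul_sum]
  refine Finset.sum_congr rfl fun a _ => ?_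
  simp only [Pi.smul_apply, smul_eq_mul, map_mul, conj_I, Jm]
  set A := dz a G (F z)
  set B := dzb a G (F z)
  set w := fderiv ℂ F z (Pi.single i 1) a
  linear_combination (-(1/2 : ℂ) * A * w + (1/2 : ℂ) * B * conj w) * I_mul_I

theorem dzb_comp_holo {G : Cn m → ℂ} {F : Cn n → Cn m} {z : Cn n} (i : Fin n)
    (hF : DifferentiableAt ℂ F z) (hG : DifferentiableAt ℝ G (F z)) :
    dzb i (fun w => G (F w)) z = ∑ a, dzb a G (F z) * conj (Jm F z a i) := by
  have hI : (Pi.single i I : Cn n) = I • (Pi.single i 1 : Cn n) := by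
    rw [← Pi.single_smul]; simp
  rw [dzb]
  simp only [fderiv_comp_holo_apply hF hG, hI, map_smul]
  rw [fderiv_apply_eq G (F z) (fderiv ℂ F z (Pi.single i 1)),
    fderiv_apply_eq G (F z) (I • fderiv ℂ F z (Pi.single i 1)), Finset.mul_sum,
    ← Finset.sum_add_distrib, Finset.mul_sum]
  refine Finset.sum_congr rfl fun a _ => ?_
  simp only [Pi.smul_apply, smul_eq_mul, map_mul, conj_I, Jm]
  set A := dz a G (F z)
  set B := dzb a G (F z)
  set w := fderiv ℂ F z (Pi.single i 1) a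
  linear_combination ((1/2 : ℂ) * A * w - (1/2 : ℂ) * B * conj w) * I_mul_I

theorem fderiv_ofReal_apply {u : Cn n → ℝ} {z : Cn n} (hu : DifferentiableAt ℝ u z) (v : Cn n) :
    fderiv ℝ (fun w => ((u w : ℝ) : ℂ)) z v = ((fderiv ℝ u z v : ℝ) : ℂ) := by
  have h : HasFDerivAt (fun w => ((u w : ℝ) : ℂ)) (ofRealCLM.comp (fderiv ℝ u z)) z :=
    ofRealCLM.hasFDerivAt.comp z hu.hasFDerivAt
  rw [h.fderiv]; simp

/-- real one variable function of a real function -/
theorem gz_real_comp {u : Cn n → ℝ} {h : ℝ → ℝ} {z : Cn n} (i : Fin n)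
    (hu : DifferentiableAt ℝ u z) (hh : DifferentiableAt ℝ h (u z)) :
    gz i (fun w => h (u w)) z = (deriv h (u z) : ℝ) * gz i u z := by
  have h1 : HasFDerivAt (fun w => h (u w)) (deriv h (u z) • fderiv ℝ u z) z :=
    hh.hasDerivAt.comp_hasFDerivAt z hu.hasFDerivAt
  simp only [gz, dz]
  rw [fderiv_ofReal_apply h1.differentiableAt, fderiv_ofReal_apply h1.differentiableAt,
    fderiv_ofReal_apply hu, fderiv_ofReal_apply hu, h1.fderiv]
  simp only [smul_apply, smul_eq_mul, ofReal_mul]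
  ring

theorem gz_mul {u v : Cn n → ℝ} {z : Cn n} (i : Fin n)
    (hu : DifferentiableAt ℝ u z) (hv : DifferentiableAt ℝ v z) :
    gz i (fun w => u w * v w) z = (u z : ℂ) * gz i v z + (v z : ℂ) * gz i u z := by
  simp only [gz, ofReal_mul]
  rw [dz_mul i (differentiableAt_ofReal hu) (differentiableAt_ofReal hv)]
  ring

/-- real directional derivative from the Wirtinger derivatives -/
theorem fderiv_eq_dz_dzb {F : Cn n → ℂ} {z : Cn n} (hF : DifferentiableAt ℝ F z) (ξ : Cn n) :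
    fderiv ℝ F z ξ = ∑ i, (ξ i * dz i F z + conj (ξ i) * dzb i F z) :=
  fderiv_apply_eq F z ξ

/-! ### Smoothness -/

theorem contDiffOn_dir {F : Cn n → ℂ} {U : Set (Cn n)} (hU : IsOpen U)
    (hF : ContDiffOn ℝ ∞ F U) (v : Cn n) :
    ContDiffOn ℝ ∞ (fun z => fderiv ℝ F z v) U :=
  (hF.fderiv_of_isOpen hU (by simp)).clm_apply contDiffOn_const

theorem contDiffOn_dz {F : Cn n → ℂ} {U : Set (Cn n)} (hU : IsOpen U) (i : Fin n)
    (hF : ContDiffOn ℝ ∞ F U) : ContDiffOn ℝ ∞ (fun z => dz i F z) U :=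
  contDiffOn_const.mul
    ((contDiffOn_dir hU hF _).sub (contDiffOn_const.mul (contDiffOn_dir hU hF _)))

theorem contDiffOn_dzb {F : Cn n → ℂ} {U : Set (Cn n)} (hU : IsOpen U) (i : Fin n)
    (hF : ContDiffOn ℝ ∞ F U) : ContDiffOn ℝ ∞ (fun z => dzb i F z) U :=
  contDiffOn_const.mul
    ((contDiffOn_dir hU hF _).add (contDiffOn_const.mul (contDiffOn_dir hU hF _)))

theorem contDiffOn_ofReal {u : Cn n → ℝ} {U : Set (Cn n)} (hu : ContDiffOn ℝ ∞ u U) :
    ContDiffOn ℝ ∞ (fun w => ((u w : ℝ) : ℂ)) U :=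
  ofRealCLM.contDiff.comp_contDiffOn hu

theorem contDiffOn_gz {u : Cn n → ℝ} {U : Set (Cn n)} (hU : IsOpen U) (i : Fin n)
    (hu : ContDiffOn ℝ ∞ u U) : ContDiffOn ℝ ∞ (fun z => gz i u z) U :=
  contDiffOn_dz hU i (contDiffOn_ofReal hu)

theorem contDiffOn_cHess {u : Cn n → ℝ} {U : Set (Cn n)} (hU : IsOpen U) (i j : Fin n)
    (hu : ContDiffOn ℝ ∞ u U) : ContDiffOn ℝ ∞ (fun z => cHess u z i j) U :=
  contDiffOn_dz hU i (contDiffOn_dzb hU j (contDiffOn_ofReal hu))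

theorem contDiffOn_Dm {u v : C2 → ℝ} {U : Set C2} (hU : IsOpen U)
    (hu : ContDiffOn ℝ ∞ u U) (hv : ContDiffOn ℝ ∞ v U) : ContDiffOn ℝ ∞ (Dm u v) U := by
  have h := fun i j => contDiffOn_cHess hU i j hu
  have h' := fun i j => contDiffOn_cHess hU i j hv
  have : ContDiffOn ℝ ∞ (fun z => ((cHess u z 0 0 * cHess v z 1 1 + cHess u z 1 1 * cHess v z 0 0
      - cHess u z 0 1 * cHess v z 1 0 - cHess u z 1 0 * cHess v z 0 1) / 2)) U :=
    (((((h 0 0).mul (h' 1 1)).add ((h 1 1).mul (h' 0 0))).sub ((h 0 1).mul (h' 1 0))).sub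
      ((h 1 0).mul (h' 0 1))).div_const 2
  exact reCLM.contDiff.comp_contDiffOn this

theorem contDiffOn_dt {u : C2 → ℝ} {U : Set C2} (hU : IsOpen U)
    (hu : ContDiffOn ℝ ∞ u U) : ContDiffOn ℝ ∞ (dt u) U := by
  have h := fun i j => contDiffOn_cHess hU i j hu
  have h2 : ContDiffOn ℝ ∞ (fun z => cHess u z 0 0 * cHess u z 1 1
      - cHess u z 0 1 * cHess u z 1 0) U :=
    ((h 0 0).mul (h 1 1)).sub ((h 0 1).mul (h 1 0))
  have h3 := reCLM.contDiff.comp_contDiffOn h2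
  refine h3.congr fun z _ => ?_
  simp [dt, Matrix.det_fin_two]

theorem contDiffOn_log_dt {u : C2 → ℝ} {U : Set C2} (hU : IsOpen U)
    (hu : ContDiffOn ℝ ∞ u U) (hpos : ∀ z ∈ U, 0 < dt u z) :
    ContDiffOn ℝ ∞ (fun z => Real.log (dt u z)) U :=
  (contDiffOn_dt hU hu).log fun z hz => (hpos z hz).ne'

theorem contDiffOn_sh {φ : C2 → ℝ} {U : Set C2} (hU : IsOpen U)
    (hφ : ContDiffOn ℝ ∞ φ U) (hpos : ∀ z ∈ U, 0 < dt φ z) : ContDiffOn ℝ ∞ (sh φ) U :=
  (contDiffOn_Dm hU (contDiffOn_log_dt hU hφ hpos) hφ).neg.div (contDiffOn_dt hU hφ)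
    fun z hz => (hpos z hz).ne'


/-! ### Second order -/

theorem contDiffAt_dir {F : Cn n → ℂ} {z : Cn n} (h : ContDiffAt ℝ 2 F z) (v : Cn n) :
    ContDiffAt ℝ 1 (fun w => fderiv ℝ F w v) z :=
  (h.fderiv_right (m := 1) (by norm_num)).clm_apply contDiffAt_const

theorem contDiffAt_dz {F : Cn n → ℂ} {z : Cn n} (h : ContDiffAt ℝ 2 F z) (i : Fin n) :
    ContDiffAt ℝ 1 (fun w => dz i F w) z :=
  contDiffAt_const.mul ((contDiffAt_dir h _).sub (contDiffAt_const.mul (contDiffAt_dir h _)))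

theorem contDiffAt_dzb {F : Cn n → ℂ} {z : Cn n} (h : ContDiffAt ℝ 2 F z) (i : Fin n) :
    ContDiffAt ℝ 1 (fun w => dzb i F w) z :=
  contDiffAt_const.mul ((contDiffAt_dir h _).add (contDiffAt_const.mul (contDiffAt_dir h _)))

theorem differentiableAt_dz {F : Cn n → ℂ} {z : Cn n} (h : ContDiffAt ℝ 2 F z) (i : Fin n) :
    DifferentiableAt ℝ (fun w => dz i F w) z :=
  (contDiffAt_dz h i).differentiableAt (by norm_num)

theorem differentiableAt_dzb {F : Cn n → ℂ} {z : Cn n} (h : ContDiffAt ℝ 2 F z) (i : Fin n) :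
    DifferentiableAt ℝ (fun w => dzb i F w) z :=
  (contDiffAt_dzb h i).differentiableAt (by norm_num)

theorem eventually_diff {E : Type*} [NormedAddCommGroup E] [NormedSpace ℝ E]
    {F : Cn n → E} {z : Cn n} (h : ContDiffAt ℝ 2 F z) :
    ∀ᶠ w in 𝓝 z, DifferentiableAt ℝ F w := by
  filter_upwards [h.eventually (by decide)] with w hw
  exact hw.differentiableAt (by norm_num)

theorem contDiffAt_ofReal {u : Cn n → ℝ} {z : Cn n} {k : WithTop ℕ∞} (hu : ContDiffAt ℝ k u z) :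
    ContDiffAt ℝ k (fun w => ((u w : ℝ) : ℂ)) z :=
  ofRealCLM.contDiff.contDiffAt.comp z hu

/-- second derivatives in two directions -/
theorem fderiv_dir {F : Cn n → ℂ} {z : Cn n} (hF : ContDiffAt ℝ 2 F z) (v w : Cn n) :
    fderiv ℝ (fun y => fderiv ℝ F y v) z w = fderiv ℝ (fderiv ℝ F) z w v := by
  have h1 : DifferentiableAt ℝ (fderiv ℝ F) z :=
    (hF.fderiv_right (m := 1) (by norm_num)).differentiableAt (by norm_num)
  rw [fderiv_clm_apply h1 (differentiableAt_const v)]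
  simp

theorem fderiv_dir_comm {F : Cn n → ℂ} {z : Cn n} (hF : ContDiffAt ℝ 2 F z) (v w : Cn n) :
    fderiv ℝ (fun y => fderiv ℝ F y v) z w = fderiv ℝ (fun y => fderiv ℝ F y w) z v := by
  rw [fderiv_dir hF, fderiv_dir hF]
  have h : IsSymmSndFDerivAt ℝ F z := by
    apply ContDiffAt.isSymmSndFDerivAt (n := 2) hF
    rw [minSmoothness_of_isRCLikeNormedField]
  exact h.eq w v

theorem differentiableAt_dir {F : Cn n → ℂ} {z : Cn n} (hF : ContDiffAt ℝ 2 F z) (v : Cn n) :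
    DifferentiableAt ℝ (fun y => fderiv ℝ F y v) z :=
  (contDiffAt_dir hF v).differentiableAt (by norm_num)

theorem dz_lin {F G : Cn n → ℂ} {z : Cn n} (i : Fin n) (a b : ℂ) (hF : DifferentiableAt ℝ F z)
    (hG : DifferentiableAt ℝ G z) :
    dz i (fun w => a * (F w + b * G w)) z = a * (dz i F z + b * dz i G z) := by
  rw [dz_const_mul a i (F := fun w => F w + b * G w) (hF.add (hG.const_mul b)),
    dz_add i (F := F) (G := fun w => b * G w) hF (hG.const_mul b), dz_const_mul b i hG]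

theorem dzb_lin {F G : Cn n → ℂ} {z : Cn n} (i : Fin n) (a b : ℂ) (hF : DifferentiableAt ℝ F z)
    (hG : DifferentiableAt ℝ G z) :
    dzb i (fun w => a * (F w + b * G w)) z = a * (dzb i F z + b * dzb i G z) := by
  rw [dzb_const_mul a i (F := fun w => F w + b * G w) (hF.add (hG.const_mul b)),
    dzb_add i (F := F) (G := fun w => b * G w) hF (hG.const_mul b), dzb_const_mul b i hG]

theorem dz_fun (F : Cn n → ℂ) (i : Fin n) : (fun y => dz i F y) =
    fun y => (1 / 2 : ℂ) * (fderiv ℝ F y (Pi.single i 1) + (-I) * fderiv ℝ F y (Pi.single i I)) := by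
  funext y; simp only [dz]; ring

theorem dzb_fun (F : Cn n → ℂ) (i : Fin n) : (fun y => dzb i F y) =
    fun y => (1 / 2 : ℂ) * (fderiv ℝ F y (Pi.single i 1) + I * fderiv ℝ F y (Pi.single i I)) := rfl

theorem dz_dzb_comm {F : Cn n → ℂ} {z : Cn n} (i j : Fin n) (hF : ContDiffAt ℝ 2 F z) :
    dz i (fun w => dzb j F w) z = dzb j (fun w => dz i F w) z := by
  have hd := fun v => differentiableAt_dir hF v
  rw [dzb_fun F j, dz_fun F i, dz_lin _ _ _ (hd _) (hd _), dzb_lin _ _ _ (hd _) (hd _)]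
  simp only [dz, dzb]
  rw [fderiv_dir_comm hF (Pi.single j 1) (Pi.single i 1),
    fderiv_dir_comm hF (Pi.single j 1) (Pi.single i I),
    fderiv_dir_comm hF (Pi.single j I) (Pi.single i 1),
    fderiv_dir_comm hF (Pi.single j I) (Pi.single i I)]
  ring

theorem dz_dz_comm {F : Cn n → ℂ} {z : Cn n} (i j : Fin n) (hF : ContDiffAt ℝ 2 F z) :
    dz i (fun w => dz j F w) z = dz j (fun w => dz i F w) z := by
  have hd := fun v => differentiableAt_dir hF v
  rw [dz_fun F j, dz_fun F i, dz_lin _ _ _ (hd _) (hd _), dz_lin _ _ _ (hd _) (hd _)]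
  simp only [dz]
  rw [fderiv_dir_comm hF (Pi.single j 1) (Pi.single i 1),
    fderiv_dir_comm hF (Pi.single j 1) (Pi.single i I),
    fderiv_dir_comm hF (Pi.single j I) (Pi.single i 1),
    fderiv_dir_comm hF (Pi.single j I) (Pi.single i I)]
  ring

theorem dzb_dzb_comm {F : Cn n → ℂ} {z : Cn n} (i j : Fin n) (hF : ContDiffAt ℝ 2 F z) :
    dzb i (fun w => dzb j F w) z = dzb j (fun w => dzb i F w) z := by
  have hd := fun v => differentiableAt_dir hF v
  rw [dzb_fun F j, dzb_fun F i, dzb_lin _ _ _ (hd _) (hd _), dzb_lin _ _ _ (hd _) (hd _)]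
  simp only [dzb]
  rw [fderiv_dir_comm hF (Pi.single j 1) (Pi.single i 1),
    fderiv_dir_comm hF (Pi.single j 1) (Pi.single i I),
    fderiv_dir_comm hF (Pi.single j I) (Pi.single i 1),
    fderiv_dir_comm hF (Pi.single j I) (Pi.single i I)]
  ring

theorem cHess_congr {u v : Cn n → ℝ} {z : Cn n} (h : u =ᶠ[𝓝 z] v) : cHess u z = cHess v z := by
  ext i j
  refine dz_congr i ?_
  have h1 : (fun w => ((u w : ℝ) : ℂ)) =ᶠ[𝓝 z] fun w => ((v w : ℝ) : ℂ) := by
    filter_upwards [h] with w hw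
    rw [hw]
  filter_upwards [h1.eventuallyEq_nhds] with w hw
  exact dzb_congr j hw

theorem cHess_const (c : ℝ) (z : Cn n) : cHess (fun _ => c) z = 0 := by
  ext i j
  simp only [cHess, Matrix.zero_apply]
  have : (fun w : Cn n => dzb j (fun _ => ((c : ℝ) : ℂ)) w) = fun _ => 0 := by
    funext w; exact dzb_const _ _ _
  rw [show (dzb j fun _ : Cn n => ((c : ℝ) : ℂ)) = fun _ => 0 from this]
  exact dz_const _ _ _

theorem cHess_add {u v : Cn n → ℝ} {z : Cn n} (hu : ContDiffAt ℝ 2 u z)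
    (hv : ContDiffAt ℝ 2 v z) : cHess (fun w => u w + v w) z = cHess u z + cHess v z := by
  ext i j
  simp only [cHess, Matrix.add_apply]
  rw [← dz_add i (differentiableAt_dzb (contDiffAt_ofReal hu) j)
    (differentiableAt_dzb (contDiffAt_ofReal hv) j)]
  refine dz_congr i ?_
  filter_upwards [eventually_diff hu, eventually_diff hv] with w h1 h2
  simp only [ofReal_add]
  exact dzb_add j (differentiableAt_ofReal h1) (differentiableAt_ofReal h2)

theorem cHess_sub {u v : Cn n → ℝ} {z : Cn n} (hu : ContDiffAt ℝ 2 u z)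
    (hv : ContDiffAt ℝ 2 v z) : cHess (fun w => u w - v w) z = cHess u z - cHess v z := by
  ext i j
  simp only [cHess, Matrix.sub_apply]
  rw [← dz_sub i (differentiableAt_dzb (contDiffAt_ofReal hu) j)
    (differentiableAt_dzb (contDiffAt_ofReal hv) j)]
  refine dz_congr i ?_
  filter_upwards [eventually_diff hu, eventually_diff hv] with w h1 h2
  simp only [ofReal_sub]
  exact dzb_sub j (differentiableAt_ofReal h1) (differentiableAt_ofReal h2)

theorem cHess_const_mul {u : Cn n → ℝ} {z : Cn n} (c : ℝ) (hu : ContDiffAt ℝ 2 u z) :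
    cHess (fun w => c * u w) z = (c : ℂ) • cHess u z := by
  ext i j
  simp only [cHess, Matrix.smul_apply, smul_eq_mul]
  rw [← dz_const_mul _ i (differentiableAt_dzb (contDiffAt_ofReal hu) j)]
  refine dz_congr i ?_
  filter_upwards [eventually_diff hu] with w h1
  simp only [ofReal_mul]
  exact dzb_const_mul _ j (differentiableAt_ofReal h1)

theorem gz_conj {u : Cn n → ℝ} {z : Cn n} (i : Fin n) (hu : DifferentiableAt ℝ u z) :
    conj (dzb i (fun w => ((u w : ℝ) : ℂ)) z) = gz i u z := by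
  rw [dzb_real i hu, conj_conj]

theorem cHess_isHermitian {u : Cn n → ℝ} {z : Cn n} (hu : ContDiffAt ℝ 2 u z) :
    (cHess u z).IsHermitian := by
  ext i j
  simp only [Matrix.conjTranspose_apply, cHess, RCLike.star_def]
  have hc := contDiffAt_ofReal hu
  have h : conj (dz j (fun w => dzb i (fun w => ((u w : ℝ) : ℂ)) w) z)
      = dzb j (fun w => dz i (fun w => ((u w : ℝ) : ℂ)) w) z := by
    rw [← dzb_conj j (differentiableAt_dzb hc i)]
    refine dzb_congr j ?_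
    filter_upwards [eventually_diff hu] with w hw
    exact gz_conj i hw
  exact h.trans (dz_dzb_comm i j hc).symm

theorem cHess_mul {u v : Cn n → ℝ} {z : Cn n} (i j : Fin n) (hu : ContDiffAt ℝ 2 u z)
    (hv : ContDiffAt ℝ 2 v z) :
    cHess (fun w => u w * v w) z i j = (u z : ℂ) * cHess v z i j + (v z : ℂ) * cHess u z i j
      + gz i u z * conj (gz j v z) + gz i v z * conj (gz j u z) := by
  have hu' := contDiffAt_ofReal hu
  have hv' := contDiffAt_ofReal hv
  have du : DifferentiableAt ℝ u z := hu.differentiableAt (by norm_num)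
  have dv : DifferentiableAt ℝ v z := hv.differentiableAt (by norm_num)
  have e1 : (fun w => dzb j (fun w => ((u w * v w : ℝ) : ℂ)) w) =ᶠ[𝓝 z]
      fun w => dzb j (fun w => ((u w : ℝ) : ℂ)) w * ((v w : ℝ) : ℂ)
        + ((u w : ℝ) : ℂ) * dzb j (fun w => ((v w : ℝ) : ℂ)) w := by
    filter_upwards [eventually_diff hu, eventually_diff hv] with w h1 h2
    simp only [ofReal_mul]
    exact dzb_mul j (differentiableAt_ofReal h1) (differentiableAt_ofReal h2)
  have e2 : cHess (fun w => u w * v w) z i j = _ := dz_congr i e1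
  rw [e2, dz_add i ((differentiableAt_dzb hu' j).fun_mul (differentiableAt_ofReal dv))
    ((differentiableAt_ofReal du).fun_mul (differentiableAt_dzb hv' j)),
    dz_mul i (differentiableAt_dzb hu' j) (differentiableAt_ofReal dv),
    dz_mul i (differentiableAt_ofReal du) (differentiableAt_dzb hv' j),
    dzb_real j du, dzb_real j dv]
  simp only [cHess, gz]
  ring

theorem contDiffAt_deriv {h : ℝ → ℝ} {x : ℝ} (hh : ContDiffAt ℝ 2 h x) :
    ContDiffAt ℝ 1 (deriv h) x := by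
  have h1 : ContDiffAt ℝ 1 (fun y => fderiv ℝ h y 1) x :=
    (hh.fderiv_right (m := 1) (by norm_num)).clm_apply contDiffAt_const
  exact h1

theorem cHess_real_comp {u : Cn n → ℝ} {h : ℝ → ℝ} {z : Cn n} (i j : Fin n)
    (hu : ContDiffAt ℝ 2 u z) (hh : ContDiffAt ℝ 2 h (u z)) :
    cHess (fun w => h (u w)) z i j = (deriv h (u z) : ℝ) * cHess u z i j
      + (deriv (deriv h) (u z) : ℝ) * (gz i u z * conj (gz j u z)) := by
  have hu' := contDiffAt_ofReal hu
  have du : DifferentiableAt ℝ u z := hu.differentiableAt (by norm_num)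
  have dh : DifferentiableAt ℝ (deriv h) (u z) :=
    (contDiffAt_deriv hh).differentiableAt (by norm_num)
  have dhu : DifferentiableAt ℝ (fun w => deriv h (u w)) z := dh.comp z du
  have hev : ∀ᶠ w in 𝓝 z, DifferentiableAt ℝ h (u w) := by
    have h1 : ∀ᶠ y in 𝓝 (u z), DifferentiableAt ℝ h y := by
      filter_upwards [hh.eventually (by decide)] with y hy
      exact hy.differentiableAt (by norm_num)
    exact hu.continuousAt.eventually h1
  have e1 : (fun w => dzb j (fun w => ((h (u w) : ℝ) : ℂ)) w) =ᶠ[𝓝 z]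
      fun w => ((deriv h (u w) : ℝ) : ℂ) * dzb j (fun w => ((u w : ℝ) : ℂ)) w := by
    filter_upwards [eventually_diff hu, hev] with w h1 h2
    have h3 : DifferentiableAt ℝ (fun w => h (u w)) w := h2.comp w h1
    rw [dzb_real j h3, dzb_real j h1, gz_real_comp j h1 h2, map_mul, conj_ofReal]
  have e2 : cHess (fun w => h (u w)) z i j = _ := dz_congr i e1
  rw [e2, dz_mul i (differentiableAt_ofReal dhu) (differentiableAt_dzb hu' j)]
  have e3 : dz i (fun w => ((deriv h (u w) : ℝ) : ℂ)) z = (deriv (deriv h) (u z) : ℝ) * gz i u z :=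
    gz_real_comp i du dh
  rw [e3, dzb_real j du]
  simp only [cHess]
  ring


/-! ### Holomorphic maps -/

theorem contDiffAt_Jm {F : Cn n → Cn m} {z : Cn n} {k l : WithTop ℕ∞} (hF : ContDiffAt ℂ k F z)
    (hkl : l + 1 ≤ k) (a : Fin m) (i : Fin n) : ContDiffAt ℂ l (fun w => Jm F w a i) z := by
  have h1 : ContDiffAt ℂ l (fun w => fderiv ℂ F w (Pi.single i 1)) z :=
    (hF.fderiv_right (m := l) hkl).clm_apply contDiffAt_const
  exact (contDiffAt_pi.1 h1) a

theorem contDiffAt_dz_holo {F : Cn n → ℂ} {z : Cn n} (hF : ContDiffAt ℂ 2 F z) (i : Fin n) :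
    ContDiffAt ℂ 1 (fun w => fderiv ℂ F w (Pi.single i 1)) z :=
  (hF.fderiv_right (m := 1) (by norm_num)).clm_apply contDiffAt_const

theorem eventually_diff_holo {E : Type*} [NormedAddCommGroup E] [NormedSpace ℂ E]
    {F : Cn n → E} {z : Cn n} (h : ContDiffAt ℂ 2 F z) :
    ∀ᶠ w in 𝓝 z, DifferentiableAt ℂ F w := by
  filter_upwards [h.eventually (by decide)] with w hw
  exact hw.differentiableAt (by norm_num)

theorem differentiableAt_conj {F : Cn n → ℂ} {z : Cn n} (h : DifferentiableAt ℝ F z) :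
    DifferentiableAt ℝ (fun w => conj (F w)) z :=
  conjCLE.differentiableAt.comp z h

theorem dz_conj_holo {F : Cn n → ℂ} {z : Cn n} (i : Fin n) (hF : DifferentiableAt ℂ F z) :
    dz i (fun w => conj (F w)) z = 0 := by
  rw [dz_conj i (hF.restrictScalars ℝ), dzb_holo i hF, map_zero]

theorem dzb_conj_holo {F : Cn n → ℂ} {z : Cn n} (i : Fin n) (hF : DifferentiableAt ℂ F z) :
    dzb i (fun w => conj (F w)) z = conj (dz i F z) :=
  dzb_conj i (hF.restrictScalars ℝ)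

/-- the complex Hessian under a holomorphic map -/
theorem cHess_comp_holo {u : Cn m → ℝ} {F : Cn n → Cn m} {z : Cn n}
    (hF : ContDiffAt ℂ 2 F z) (hu : ContDiffAt ℝ 2 u (F z)) :
    cHess (fun w => u (F w)) z = (Jm F z)ᵀ * cHess u (F z) * (Jm F z).map (starRingEnd ℂ) := by
  ext i j
  have hFd : DifferentiableAt ℂ F z := hF.differentiableAt (by norm_num)
  have hu' := contDiffAt_ofReal hu
  have hJd : ∀ b, DifferentiableAt ℂ (fun w => Jm F w b j) z := fun b =>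
    (contDiffAt_Jm hF (l := 1) (by norm_num) b j).differentiableAt (by norm_num)
  have hub : ∀ b, DifferentiableAt ℝ (fun y => dzb b (fun y => ((u y : ℝ) : ℂ)) y) (F z) :=
    fun b => differentiableAt_dzb hu' b
  have hubF : ∀ b, DifferentiableAt ℝ (fun w => dzb b (fun y => ((u y : ℝ) : ℂ)) (F w)) z :=
    fun b => (hub b).comp z (hFd.restrictScalars ℝ)
  have e1 : (fun w => dzb j (fun w => ((u (F w) : ℝ) : ℂ)) w) =ᶠ[𝓝 z]
      fun w => ∑ b, dzb b (fun y => ((u y : ℝ) : ℂ)) (F w) * conj (Jm F w b j) := by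
    have h2 : ∀ᶠ w in 𝓝 z, DifferentiableAt ℝ u (F w) :=
      hF.continuousAt.eventually (eventually_diff hu)
    filter_upwards [eventually_diff_holo hF, h2] with w h1 h2
    exact dzb_comp_holo (G := fun y => ((u y : ℝ) : ℂ)) j h1 (differentiableAt_ofReal h2)
  have e2 : cHess (fun w => u (F w)) z i j = _ := dz_congr i e1
  rw [e2, dz_sum Finset.univ i (fun b _ => (hubF b).fun_mul
    (differentiableAt_conj ((hJd b).restrictScalars ℝ)))]
  rw [Matrix.mul_apply]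
  refine Finset.sum_congr rfl fun b _ => ?_
  rw [dz_mul i (hubF b) (differentiableAt_conj ((hJd b).restrictScalars ℝ)),
    dz_conj_holo i (hJd b), mul_zero, add_zero, Matrix.mul_apply, Matrix.map_apply]
  congr 1
  rw [dz_comp_holo (G := fun y => dzb b (fun y => ((u y : ℝ) : ℂ)) y) i hFd (hub b)]
  refine Finset.sum_congr rfl fun a _ => ?_
  simp only [cHess, Matrix.transpose_apply]
  ring

theorem ofReal_norm_sq (w : ℂ) : ((‖w‖ ^ 2 : ℝ) : ℂ) = w * conj w := by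
  rw [mul_conj, ← Complex.sq_norm]

theorem contDiffAt_norm_sq_holo {F : Cn n → ℂ} {z : Cn n} {k : WithTop ℕ∞}
    (hF : ContDiffAt ℂ k F z) : ContDiffAt ℝ k (fun w => ‖F w‖ ^ 2) z :=
  (hF.restrict_scalars ℝ).norm_sq ℝ

theorem contDiffAt_sum_norm_sq {α : Type} [Fintype α] {F : α → Cn n → ℂ} (c : α → ℝ) {z : Cn n}
    {k : WithTop ℕ∞} (hF : ∀ a, ContDiffAt ℂ k (F a) z) :
    ContDiffAt ℝ k (fun w => ∑ a, c a * ‖F a w‖ ^ 2) z :=
  ContDiffAt.sum fun a _ => contDiffAt_const.mul (contDiffAt_norm_sq_holo (hF a))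

theorem dzb_sum_norm_sq {α : Type} [Fintype α] {F : α → Cn n → ℂ} (c : α → ℝ) {z : Cn n}
    (i : Fin n) (hF : ∀ a, DifferentiableAt ℂ (F a) z) :
    dzb i (fun w => ((∑ a, c a * ‖F a w‖ ^ 2 : ℝ) : ℂ)) z
      = ∑ a, (c a : ℂ) * (F a z * conj (dz i (F a) z)) := by
  have h1 : (fun w => ((∑ a, c a * ‖F a w‖ ^ 2 : ℝ) : ℂ))
      = fun w => ∑ a, (c a : ℂ) * (F a w * conj (F a w)) := by
    funext w
    rw [ofReal_sum]
    refine Finset.sum_congr rfl fun a _ => ?_
    rw [ofReal_mul, ofReal_norm_sq]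
  have hd : ∀ a, DifferentiableAt ℝ (fun w => F a w * conj (F a w)) z := fun a =>
    ((hF a).restrictScalars ℝ).fun_mul (differentiableAt_conj ((hF a).restrictScalars ℝ))
  rw [h1, dzb_sum Finset.univ i (fun a _ => (hd a).const_mul _)]
  refine Finset.sum_congr rfl fun a _ => ?_
  rw [dzb_const_mul _ i (hd a), dzb_mul i ((hF a).restrictScalars ℝ)
    (differentiableAt_conj ((hF a).restrictScalars ℝ)), dzb_holo i (hF a),
    dzb_conj_holo i (hF a)]
  ring

/-- gradient of a weighted sum of squares of holomorphic functions -/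
theorem gz_sum_norm_sq {α : Type} [Fintype α] {F : α → Cn n → ℂ} (c : α → ℝ) {z : Cn n}
    (i : Fin n) (hF : ∀ a, DifferentiableAt ℂ (F a) z) :
    gz i (fun w => ∑ a, c a * ‖F a w‖ ^ 2) z
      = ∑ a, (c a : ℂ) * (dz i (F a) z * conj (F a z)) := by
  have h1 : (fun w => ((∑ a, c a * ‖F a w‖ ^ 2 : ℝ) : ℂ))
      = fun w => ∑ a, (c a : ℂ) * (F a w * conj (F a w)) := by
    funext w
    rw [ofReal_sum]
    refine Finset.sum_congr rfl fun a _ => ?_
    rw [ofReal_mul, ofReal_norm_sq]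
  have hd : ∀ a, DifferentiableAt ℝ (fun w => F a w * conj (F a w)) z := fun a =>
    ((hF a).restrictScalars ℝ).fun_mul (differentiableAt_conj ((hF a).restrictScalars ℝ))
  rw [gz, h1, dz_sum Finset.univ i (fun a _ => (hd a).const_mul _)]
  refine Finset.sum_congr rfl fun a _ => ?_
  rw [dz_const_mul _ i (hd a), dz_mul i ((hF a).restrictScalars ℝ)
    (differentiableAt_conj ((hF a).restrictScalars ℝ)), dz_conj_holo i (hF a)]
  ring

/-- Hessian of a weighted sum of squares of holomorphic functions -/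
theorem cHess_sum_norm_sq {α : Type} [Fintype α] {F : α → Cn n → ℂ} (c : α → ℝ) {z : Cn n}
    (i j : Fin n) (hF : ∀ a, ContDiffAt ℂ 2 (F a) z) :
    cHess (fun w => ∑ a, c a * ‖F a w‖ ^ 2) z i j
      = ∑ a, (c a : ℂ) * (dz i (F a) z * conj (dz j (F a) z)) := by
  have hev : ∀ᶠ w in 𝓝 z, ∀ a, DifferentiableAt ℂ (F a) w :=
    Filter.eventually_all.2 fun a => eventually_diff_holo (hF a)
  have hd : ∀ a, DifferentiableAt ℂ (F a) z := fun a => (hF a).differentiableAt (by norm_num)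
  have hdd : ∀ a, DifferentiableAt ℂ (fun w => fderiv ℂ (F a) w (Pi.single j 1)) z := fun a =>
    (contDiffAt_dz_holo (hF a) j).differentiableAt (by norm_num)
  have e1 : (fun w => dzb j (fun w => ((∑ a, c a * ‖F a w‖ ^ 2 : ℝ) : ℂ)) w) =ᶠ[𝓝 z]
      fun w => ∑ a, (c a : ℂ) * (F a w * conj (fderiv ℂ (F a) w (Pi.single j 1))) := by
    filter_upwards [hev] with w hw
    rw [dzb_sum_norm_sq c j hw]
    refine Finset.sum_congr rfl fun a _ => ?_
    rw [dz_holo j (hw a)]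
  have hm : ∀ a, DifferentiableAt ℝ
      (fun w => F a w * conj (fderiv ℂ (F a) w (Pi.single j 1))) z := fun a =>
    ((hd a).restrictScalars ℝ).fun_mul (differentiableAt_conj ((hdd a).restrictScalars ℝ))
  have e2 : cHess (fun w => ∑ a, c a * ‖F a w‖ ^ 2) z i j = _ := dz_congr i e1
  rw [e2, dz_sum Finset.univ i (fun a _ => (hm a).const_mul _)]
  refine Finset.sum_congr rfl fun a _ => ?_
  rw [dz_const_mul _ i (hm a), dz_mul i ((hd a).restrictScalars ℝ)
    (differentiableAt_conj ((hdd a).restrictScalars ℝ)), dz_conj_holo i (hdd a),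
    dz_holo j (hd a)]
  ring

/-- Hessian of the logarithm of a weighted sum of squares -/
theorem cHess_log_sum_norm_sq {α : Type} [Fintype α] {F : α → Cn n → ℂ} (c : α → ℝ) {z : Cn n}
    (i j : Fin n) (hF : ∀ a, ContDiffAt ℂ 2 (F a) z)
    (hpos : 0 < ∑ a, c a * ‖F a z‖ ^ 2) :
    cHess (fun w => Real.log (∑ a, c a * ‖F a w‖ ^ 2)) z i j
      = (∑ a, (c a : ℂ) * (dz i (F a) z * conj (dz j (F a) z)))
          / ((∑ a, c a * ‖F a z‖ ^ 2 : ℝ) : ℂ)
        - (∑ a, (c a : ℂ) * (dz i (F a) z * conj (F a z)))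
            * (∑ a, (c a : ℂ) * (F a z * conj (dz j (F a) z)))
          / ((∑ a, c a * ‖F a z‖ ^ 2 : ℝ) : ℂ) ^ 2 := by
  have hd : ∀ a, DifferentiableAt ℂ (F a) z := fun a => (hF a).differentiableAt (by norm_num)
  rw [cHess_real_comp i j (contDiffAt_sum_norm_sq c hF) (Real.contDiffAt_log.2 hpos.ne'),
    cHess_sum_norm_sq c i j hF, gz_sum_norm_sq c i hd, gz_sum_norm_sq c j hd]
  have h1 : deriv Real.log = fun x => x⁻¹ := by
    funext x; exact Real.deriv_log x
  rw [h1]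
  rw [deriv_inv]
  simp only [ofReal_inv, ofReal_neg, ofReal_pow, map_sum, map_mul, conj_conj, conj_ofReal]
  have h2 : (∑ a, (c a : ℂ) * (conj (dz j (F a) z) * F a z))
      = ∑ a, (c a : ℂ) * (F a z * conj (dz j (F a) z)) :=
    Finset.sum_congr rfl fun a _ => by ring
  rw [h2]
  have h3 : ((∑ a, c a * ‖F a z‖ ^ 2 : ℝ) : ℂ) ≠ 0 := ofReal_ne_zero.2 hpos.ne'
  field_simp
  ring

/-- `log |h|²` is pluriharmonic -/
theorem cHess_log_norm_sq {h : Cn n → ℂ} {z : Cn n}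
    (hh : ContDiffAt ℂ 2 h z) (h0 : h z ≠ 0) :
    cHess (fun w => Real.log (‖h w‖ ^ 2)) z = 0 := by
  ext i j
  have hp : 0 < ∑ _a : Fin 1, (1 : ℝ) * ‖h z‖ ^ 2 := by
    have : 0 < ‖h z‖ := norm_pos_iff.2 h0
    simp only [Finset.univ_unique, Finset.sum_const, Finset.card_singleton, one_smul, one_mul]
    positivity
  have e := cHess_log_sum_norm_sq (F := fun _ : Fin 1 => h) (fun _ => (1 : ℝ)) i j
    (fun _ => hh) hp
  have e0 : (fun w => Real.log (‖h w‖ ^ 2))
      = fun w => Real.log (∑ _a : Fin 1, (1 : ℝ) * ‖h w‖ ^ 2) := by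
    funext w; simp
  rw [e0, e]
  simp only [Finset.univ_unique, Finset.sum_const, Finset.card_singleton, one_smul, one_mul,
    ofReal_one, ofReal_norm_sq, Matrix.zero_apply]
  have h1 : conj (h z) ≠ 0 := (map_ne_zero _).2 h0
  field_simp
  ring


/-- quadratic form of the Hessian of `log ∑ c_a|F_a|²`:
it is `(1/S) ∑ c_a |A_a - κ F_a|²`, `κ = (∑ c_a A_a conj F_a) / S`. -/
theorem quad_cHess_log_sum {α : Type} [Fintype α] {F : α → Cn n → ℂ} (c : α → ℝ) {z : Cn n}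
    (hF : ∀ a, ContDiffAt ℂ 2 (F a) z) (hpos : 0 < ∑ a, c a * ‖F a z‖ ^ 2) (ξ : Cn n) :
    (∑ i, ∑ j, ξ i * conj (ξ j)
      * cHess (fun w => Real.log (∑ a, c a * ‖F a w‖ ^ 2)) z i j)
      = (((∑ a, c a * ‖F a z‖ ^ 2)⁻¹ * ∑ a, c a * ‖(∑ i, ξ i * dz i (F a) z)
          - (∑ a, (c a : ℂ) * ((∑ i, ξ i * dz i (F a) z) * conj (F a z)))
            / ((∑ a, c a * ‖F a z‖ ^ 2 : ℝ) : ℂ) * F a z‖ ^ 2 : ℝ) : ℂ) := by
  simp only [cHess_log_sum_norm_sq c _ _ hF hpos]
  set S : ℂ := ((∑ a, c a * ‖F a z‖ ^ 2 : ℝ) : ℂ) with hS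
  have hS0 : S ≠ 0 := ofReal_ne_zero.2 hpos.ne'
  have hSc : conj S = S := conj_ofReal _
  have hS1 : S = ∑ a, (c a : ℂ) * (F a z * conj (F a z)) := by
    rw [hS, ofReal_sum]
    refine Finset.sum_congr rfl fun a _ => ?_
    rw [ofReal_mul, ofReal_norm_sq]
  set A : α → ℂ := fun a => ∑ i, ξ i * dz i (F a) z with hA
  have hAc : ∀ a, conj (A a) = ∑ i, conj (ξ i) * conj (dz i (F a) z) := by
    intro a; simp [hA]
  -- the three sums
  have h1 : ∑ i, ∑ j, ξ i * conj (ξ j) * (∑ a, (c a : ℂ) * (dz i (F a) z * conj (dz j (F a) z)))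
      = ∑ a, (c a : ℂ) * (A a * conj (A a)) := by
    have e1 : ∀ a, (c a : ℂ) * (A a * conj (A a))
        = ∑ i, ∑ j, ξ i * conj (ξ j) * ((c a : ℂ) * (dz i (F a) z * conj (dz j (F a) z))) := by
      intro a
      rw [hAc, hA, Finset.sum_mul_sum, Finset.mul_sum]
      refine Finset.sum_congr rfl fun i _ => ?_
      rw [Finset.mul_sum]
      refine Finset.sum_congr rfl fun j _ => ?_
      ring
    simp only [e1, Finset.mul_sum]
    have e2 : ∀ i, (∑ j, ∑ a, ξ i * conj (ξ j) * ((c a : ℂ) * (dz i (F a) z * conj (dz j (F a) z))))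
        = ∑ a, ∑ j, ξ i * conj (ξ j) * ((c a : ℂ) * (dz i (F a) z * conj (dz j (F a) z))) :=
      fun i => Finset.sum_comm
    rw [Finset.sum_congr rfl fun i _ => e2 i]
    exact Finset.sum_comm
  have h2 : ∑ i, ξ i * (∑ a, (c a : ℂ) * (dz i (F a) z * conj (F a z)))
      = ∑ a, (c a : ℂ) * (A a * conj (F a z)) := by
    simp only [hA, Finset.mul_sum, Finset.sum_mul]
    rw [Finset.sum_comm]
    refine Finset.sum_congr rfl fun a _ => ?_
    refine Finset.sum_congr rfl fun i _ => ?_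
    ring
  have h3 : ∑ j, conj (ξ j) * (∑ a, (c a : ℂ) * (F a z * conj (dz j (F a) z)))
      = ∑ a, (c a : ℂ) * (F a z * conj (A a)) := by
    simp only [hAc, Finset.mul_sum]
    rw [Finset.sum_comm]
    refine Finset.sum_congr rfl fun a _ => ?_
    refine Finset.sum_congr rfl fun i _ => ?_
    ring
  set P : ℂ := ∑ a, (c a : ℂ) * (A a * conj (F a z)) with hP
  have hPc : conj P = ∑ a, (c a : ℂ) * (F a z * conj (A a)) := by
    simp only [hP, map_sum, map_mul, conj_ofReal, conj_conj]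
    refine Finset.sum_congr rfl fun a _ => ?_
    ring
  have hL : (∑ i, ∑ j, ξ i * conj (ξ j)
      * ((∑ a, (c a : ℂ) * (dz i (F a) z * conj (dz j (F a) z))) / S
        - (∑ a, (c a : ℂ) * (dz i (F a) z * conj (F a z)))
            * (∑ a, (c a : ℂ) * (F a z * conj (dz j (F a) z))) / S ^ 2))
      = (∑ a, (c a : ℂ) * (A a * conj (A a))) / S - P * conj P / S ^ 2 := by
    rw [← h1, hPc, ← h3, ← h2, Finset.sum_mul_sum, Finset.sum_div, Finset.sum_div,
      ← Finset.sum_sub_distrib]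
    refine Finset.sum_congr rfl fun i _ => ?_
    rw [Finset.sum_div, Finset.sum_div, ← Finset.sum_sub_distrib]
    refine Finset.sum_congr rfl fun j _ => ?_
    ring
  rw [hL, ofReal_mul, ofReal_inv, ← hS, ofReal_sum]
  have hR : ∑ a, ((c a * ‖A a - P / S * F a z‖ ^ 2 : ℝ) : ℂ)
      = ∑ a, (c a : ℂ) * (A a * conj (A a)) - P * conj P / S := by
    have e : ∀ a, ((c a * ‖A a - P / S * F a z‖ ^ 2 : ℝ) : ℂ)
        = (c a : ℂ) * (A a * conj (A a)) - conj (P / S) * ((c a : ℂ) * (A a * conj (F a z)))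
          - (P / S) * ((c a : ℂ) * (F a z * conj (A a)))
          + (P / S) * conj (P / S) * ((c a : ℂ) * (F a z * conj (F a z))) := by
      intro a
      rw [ofReal_mul, ofReal_norm_sq, map_sub, map_mul]
      ring
    simp only [e, Finset.sum_add_distrib, Finset.sum_sub_distrib, ← Finset.mul_sum]
    rw [← hP, ← hPc, ← hS1, map_div₀, hSc]
    field_simp
    ring
  rw [hR]
  field_simp

/-- `log ∑ c_a |F_a|²` is plurisubharmonic -/
theorem posSemidef_cHess_log_sum {α : Type} [Fintype α] {F : α → Cn n → ℂ} (c : α → ℝ)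
    (hc : ∀ a, 0 ≤ c a) {z : Cn n} (hF : ∀ a, ContDiffAt ℂ 2 (F a) z)
    (hpos : 0 < ∑ a, c a * ‖F a z‖ ^ 2) :
    (cHess (fun w => Real.log (∑ a, c a * ‖F a w‖ ^ 2)) z).PosSemidef := by
  refine Matrix.PosSemidef.of_dotProduct_mulVec_nonneg
    (cHess_isHermitian ((contDiffAt_sum_norm_sq c hF).log hpos.ne')) fun x => ?_
  have h := quad_cHess_log_sum c hF hpos (fun i => conj (x i))
  have e : star x ⬝ᵥ (cHess (fun w => Real.log (∑ a, c a * ‖F a w‖ ^ 2)) z) *ᵥ x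
      = ∑ i, ∑ j, conj (x i) * conj (conj (x j))
        * cHess (fun w => Real.log (∑ a, c a * ‖F a w‖ ^ 2)) z i j := by
    simp only [dotProduct, Matrix.mulVec, Finset.mul_sum, Pi.star_apply, RCLike.star_def, conj_conj]
    refine Finset.sum_congr rfl fun i _ => ?_
    refine Finset.sum_congr rfl fun j _ => ?_
    ring
  rw [e, h]
  rw [← ofReal_zero, Complex.real_le_real]
  refine mul_nonneg (inv_nonneg.2 hpos.le) (Finset.sum_nonneg fun a _ => ?_)
  exact mul_nonneg (hc a) (sq_nonneg _)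

/-- If `∂_ξ F(z)` and `F(z)` are linearly independent then the Hessian of `log ∑|F_a|²` is
positive in the direction `ξ`. -/
theorem cHess_log_sum_pos {α : Type} [Fintype α] {F : α → Cn n → ℂ} {z : Cn n}
    (hF : ∀ a, ContDiffAt ℂ 2 (F a) z)
    (hpos : 0 < ∑ a, ‖F a z‖ ^ 2) (ξ : Cn n)
    (hind : ∀ c : ℂ, ∃ a, (∑ i, ξ i * dz i (F a) z) ≠ c * F a z) :
    0 < (∑ i, ∑ j, ξ i * conj (ξ j)
      * cHess (fun w => Real.log (∑ a, ‖F a w‖ ^ 2)) z i j).re := by
  have hpos' : 0 < ∑ a, (1 : ℝ) * ‖F a z‖ ^ 2 := by simpa using hpos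
  have h := quad_cHess_log_sum (fun _ : α => (1 : ℝ)) hF hpos' ξ
  simp only [one_mul] at h
  rw [h, ofReal_re]
  refine mul_pos (inv_pos.2 hpos) ?_
  obtain ⟨a, ha⟩ := hind ((∑ a, ((1 : ℝ) : ℂ) * ((∑ i, ξ i * dz i (F a) z) * conj (F a z)))
            / ((∑ a, ‖F a z‖ ^ 2 : ℝ) : ℂ))
  refine Finset.sum_pos' (fun a _ => sq_nonneg _) ⟨a, Finset.mem_univ _, ?_⟩
  have : 0 < ‖(∑ i, ξ i * dz i (F a) z)
          - (∑ a, ((1 : ℝ) : ℂ) * ((∑ i, ξ i * dz i (F a) z) * conj (F a z)))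
            / ((∑ a, ‖F a z‖ ^ 2 : ℝ) : ℂ) * F a z‖ := norm_pos_iff.2 (sub_ne_zero.2 ha)
  positivity

/-! ### Mixed discriminants -/

theorem mdet_comm (A B : Matrix (Fin 2) (Fin 2) ℂ) : mdet A B = mdet B A := by
  unfold mdet; congr 1; ring

theorem mdet_self (A : Matrix (Fin 2) (Fin 2) ℂ) : mdet A A = A.det.re := by
  unfold mdet; rw [Matrix.det_fin_two]; congr 1; ring

theorem mdet_add_left (A A' B : Matrix (Fin 2) (Fin 2) ℂ) :
    mdet (A + A') B = mdet A B + mdet A' B := by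
  unfold mdet; simp only [Matrix.add_apply, ← Complex.add_re]; congr 1; ring

theorem mdet_add_right (A B B' : Matrix (Fin 2) (Fin 2) ℂ) :
    mdet A (B + B') = mdet A B + mdet A B' := by
  unfold mdet; simp only [Matrix.add_apply, ← Complex.add_re]; congr 1; ring

theorem mdet_smul_left (c : ℝ) (A B : Matrix (Fin 2) (Fin 2) ℂ) :
    mdet ((c : ℂ) • A) B = c * mdet A B := by
  unfold mdet; rw [← Complex.re_ofReal_mul]; congr 1
  simp only [Matrix.smul_apply, smul_eq_mul]; ring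

theorem mdet_smul_right (c : ℝ) (A B : Matrix (Fin 2) (Fin 2) ℂ) :
    mdet A ((c : ℂ) • B) = c * mdet A B := by
  rw [mdet_comm, mdet_smul_left, mdet_comm]

/-- transformation under a change of coordinates -/
theorem mdet_congruence (J A B : Matrix (Fin 2) (Fin 2) ℂ) :
    mdet (Jᵀ * A * J.map (starRingEnd ℂ)) (Jᵀ * B * J.map (starRingEnd ℂ))
      = ‖J.det‖ ^ 2 * mdet A B := by
  have h : (((Jᵀ * A * J.map (starRingEnd ℂ)) 0 0 * (Jᵀ * B * J.map (starRingEnd ℂ)) 1 1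
      + (Jᵀ * A * J.map (starRingEnd ℂ)) 1 1 * (Jᵀ * B * J.map (starRingEnd ℂ)) 0 0
      - (Jᵀ * A * J.map (starRingEnd ℂ)) 0 1 * (Jᵀ * B * J.map (starRingEnd ℂ)) 1 0
      - (Jᵀ * A * J.map (starRingEnd ℂ)) 1 0 * (Jᵀ * B * J.map (starRingEnd ℂ)) 0 1) / 2)
      = ((‖J.det‖ ^ 2 : ℝ) : ℂ) * ((A 0 0 * B 1 1 + A 1 1 * B 0 0 - A 0 1 * B 1 0
        - A 1 0 * B 0 1) / 2) := by
    rw [ofReal_norm_sq, Matrix.det_fin_two]
    simp only [Matrix.mul_apply, Fin.sum_univ_two, Matrix.transpose_apply, Matrix.map_apply,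
      map_sub, map_mul]
    ring
  rw [mdet, h, Complex.re_ofReal_mul, mdet]

theorem mdet_nonneg {A B : Matrix (Fin 2) (Fin 2) ℂ} (hA : A.PosSemidef) (hB : B.PosSemidef) :
    0 ≤ mdet A B := by
  have key : ∀ {M : Matrix (Fin 2) (Fin 2) ℂ}, M.PosSemidef →
      0 ≤ (M 0 0).re ∧ 0 ≤ (M 1 1).re ∧ (M 0 0).im = 0 ∧ (M 1 1).im = 0 ∧
      M 1 0 = conj (M 0 1) ∧ ‖M 0 1‖ ^ 2 ≤ (M 0 0).re * (M 1 1).re := by
    intro M hM
    have h0 := hM.diag_nonneg (i := 0)
    have h1 := hM.diag_nonneg (i := 1)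
    have h01 : M 1 0 = conj (M 0 1) := by
      have := hM.1.apply 1 0
      simpa using this.symm
    have hd := hM.det_nonneg
    rw [Matrix.det_fin_two, h01, ← ofReal_norm_sq] at hd
    rw [Complex.le_def] at h0 h1 hd
    simp only [zero_re, zero_im, sub_re, mul_re, ofReal_re, sub_im, mul_im, ofReal_im] at h0 h1 hd
    refine ⟨h0.1, h1.1, h0.2.symm, h1.2.symm, h01, ?_⟩
    have := hd.1
    rw [← h0.2, ← h1.2] at this
    linarith
  obtain ⟨a0, a1, ai0, ai1, a10, ad⟩ := key hA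
  obtain ⟨b0, b1, bi0, bi1, b10, bd⟩ := key hB
  have e : mdet A B = ((A 0 0).re * (B 1 1).re + (A 1 1).re * (B 0 0).re
      - 2 * (A 0 1 * conj (B 0 1)).re) / 2 := by
    rw [mdet, a10, b10]
    have h2 : (2 : ℂ) = ((2 : ℝ) : ℂ) := by norm_num
    rw [h2, div_ofReal_re]
    congr 1
    simp only [sub_re, add_re, mul_re, conj_re, conj_im, ai0, ai1, bi0, bi1]
    ring
  have h3 : (A 0 1 * conj (B 0 1)).re ≤ ‖A 0 1‖ * ‖B 0 1‖ := by
    refine (re_le_norm _).trans ?_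
    rw [norm_mul, RCLike.norm_conj]
  rw [e]
  have h4 : (2 * (‖A 0 1‖ * ‖B 0 1‖)) ^ 2 ≤ ((A 0 0).re * (B 1 1).re + (A 1 1).re * (B 0 0).re) ^ 2 := by
    have h5 : ‖A 0 1‖ ^ 2 * ‖B 0 1‖ ^ 2
        ≤ ((A 0 0).re * (A 1 1).re) * ((B 0 0).re * (B 1 1).re) :=
      mul_le_mul ad bd (sq_nonneg _) (mul_nonneg a0 a1)
    nlinarith [sq_nonneg ((A 0 0).re * (B 1 1).re - (A 1 1).re * (B 0 0).re)]
  have h6 : 2 * (‖A 0 1‖ * ‖B 0 1‖) ≤ (A 0 0).re * (B 1 1).re + (A 1 1).re * (B 0 0).re :=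
    abs_le_of_sq_le_sq' h4 (by positivity) |>.2
  linarith

/-- crude bound -/
theorem abs_mdet_le {A B : Matrix (Fin 2) (Fin 2) ℂ} {a b : ℝ} (ha : ∀ i j, ‖A i j‖ ≤ a)
    (hb : ∀ i j, ‖B i j‖ ≤ b) : |mdet A B| ≤ 2 * a * b := by
  have ha0 : 0 ≤ a := (norm_nonneg _).trans (ha 0 0)
  have hm : ∀ i j k l, ‖A i j * B k l‖ ≤ a * b := fun i j k l => by
    rw [norm_mul]; exact mul_le_mul (ha _ _) (hb _ _) (norm_nonneg _) ha0
  rw [mdet]
  refine (abs_re_le_norm _).trans ?_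
  rw [norm_div, show ‖(2 : ℂ)‖ = 2 by simp]
  rw [div_le_iff₀ (by norm_num)]
  calc ‖A 0 0 * B 1 1 + A 1 1 * B 0 0 - A 0 1 * B 1 0 - A 1 0 * B 0 1‖
      ≤ ‖A 0 0 * B 1 1 + A 1 1 * B 0 0 - A 0 1 * B 1 0‖ + ‖A 1 0 * B 0 1‖ := norm_sub_le _ _
    _ ≤ (‖A 0 0 * B 1 1 + A 1 1 * B 0 0‖ + ‖A 0 1 * B 1 0‖) + ‖A 1 0 * B 0 1‖ := by
        gcongr; exact norm_sub_le _ _
    _ ≤ ((‖A 0 0 * B 1 1‖ + ‖A 1 1 * B 0 0‖) + ‖A 0 1 * B 1 0‖) + ‖A 1 0 * B 0 1‖ := by
        gcongr; exact norm_add_le _ _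
    _ ≤ ((a * b + a * b) + a * b) + a * b := by
        gcongr <;> exact hm _ _ _ _
    _ = 2 * a * b * 2 := by ring

/-! ### Invariance under biholomorphic maps -/

theorem Dm_comp_holo {u v : C2 → ℝ} {F : C2 → C2} {z : C2}
    (hF : ContDiffAt ℂ 2 F z) (hu : ContDiffAt ℝ 2 u (F z))
    (hv : ContDiffAt ℝ 2 v (F z)) :
    Dm (fun w => u (F w)) (fun w => v (F w)) z = ‖(Jm F z).det‖ ^ 2 * Dm u v (F z) := by
  rw [Dm, cHess_comp_holo hF hu, cHess_comp_holo hF hv, mdet_congruence, Dm]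

theorem dt_eq_Dm (u : C2 → ℝ) (z : C2) : dt u z = Dm u u z := by
  rw [Dm, mdet_self, dt]

theorem dt_comp_holo {u : C2 → ℝ} {F : C2 → C2} {z : C2}
    (hF : ContDiffAt ℂ 2 F z) (hu : ContDiffAt ℝ 2 u (F z)) :
    dt (fun w => u (F w)) z = ‖(Jm F z).det‖ ^ 2 * dt u (F z) := by
  rw [dt_eq_Dm, Dm_comp_holo hF hu hu, dt_eq_Dm]

theorem contDiffAt_det_Jm {F : C2 → C2} {z : C2} {k l : WithTop ℕ∞} (hF : ContDiffAt ℂ k F z)
    (hkl : l + 1 ≤ k) : ContDiffAt ℂ l (fun w => (Jm F w).det) z := by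
  simp only [Matrix.det_fin_two]
  exact ((contDiffAt_Jm hF hkl 0 0).mul (contDiffAt_Jm hF hkl 1 1)).sub
    ((contDiffAt_Jm hF hkl 0 1).mul (contDiffAt_Jm hF hkl 1 0))

theorem contDiffAt_dt {u : C2 → ℝ} {z : C2} (hu : ContDiffAt ℝ ∞ u z) :
    ContDiffAt ℝ 2 (dt u) z := by
  have h4 : ContDiffAt ℝ 4 u z := hu.of_le (WithTop.coe_le_coe.2 (le_top : (4 : ℕ∞) ≤ ⊤))
  have h4' := contDiffAt_ofReal h4
  have hdir : ∀ (G : C2 → ℂ) (k l : WithTop ℕ∞), l + 1 ≤ k → ContDiffAt ℝ k G z → ∀ v,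
      ContDiffAt ℝ l (fun w => fderiv ℝ G w v) z := fun G k l hkl hG v =>
    (hG.fderiv_right (m := l) hkl).clm_apply contDiffAt_const
  have hb : ∀ j, ContDiffAt ℝ 3 (fun w => dzb j (fun w => ((u w : ℝ) : ℂ)) w) z := fun j =>
    contDiffAt_const.mul ((hdir _ 4 3 (by norm_num) h4' _).add
      (contDiffAt_const.mul (hdir _ 4 3 (by norm_num) h4' _)))
  have hc : ∀ i j, ContDiffAt ℝ 2 (fun w => cHess u w i j) z := fun i j =>
    contDiffAt_const.mul ((hdir _ 3 2 (by norm_num) (hb j) _).sub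
      (contDiffAt_const.mul (hdir _ 3 2 (by norm_num) (hb j) _)))
  have h2 : ContDiffAt ℝ 2 (fun w => (cHess u w).det) z := by
    simp only [Matrix.det_fin_two]
    exact ((hc 0 0).mul (hc 1 1)).sub ((hc 0 1).mul (hc 1 0))
  exact reCLM.contDiff.contDiffAt.comp z h2

theorem sh_comp_holo {φ : C2 → ℝ} {F : C2 → C2} {z : C2}
    (hF : ContDiffAt ℂ ∞ F z) (hφ : ContDiffAt ℝ ∞ φ (F z))
    (hpos : 0 < dt φ (F z)) (hJ : (Jm F z).det ≠ 0) :
    sh (fun w => φ (F w)) z = sh φ (F z) := by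
  have hF2 : ContDiffAt ℂ 2 F z := hF.of_le (WithTop.coe_le_coe.2 (le_top : (2 : ℕ∞) ≤ ⊤))
  have hφ2 : ContDiffAt ℝ 2 φ (F z) := hφ.of_le (WithTop.coe_le_coe.2 (le_top : (2 : ℕ∞) ≤ ⊤))
  have hdt : ContDiffAt ℝ 2 (dt φ) (F z) := contDiffAt_dt hφ
  have hlog : ContDiffAt ℝ 2 (fun w => Real.log (dt φ w)) (F z) := hdt.log hpos.ne'
  have hF3 : ContDiffAt ℂ 3 F z := hF.of_le (WithTop.coe_le_coe.2 (le_top : (3 : ℕ∞) ≤ ⊤))
  have hJd : ContDiffAt ℂ 2 (fun w => (Jm F w).det) z := contDiffAt_det_Jm hF3 (by norm_num)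
  have hev : (fun w => Real.log (dt (fun w => φ (F w)) w)) =ᶠ[𝓝 z]
      fun w => Real.log (‖(Jm F w).det‖ ^ 2) + Real.log (dt φ (F w)) := by
    have e1 : ∀ᶠ w in 𝓝 z, ContDiffAt ℂ 2 F w := hF2.eventually (by decide)
    have e2 : ∀ᶠ w in 𝓝 z, ContDiffAt ℝ 2 φ (F w) :=
      hF.continuousAt.eventually (hφ2.eventually (by decide))
    have e3 : ∀ᶠ w in 𝓝 z, 0 < dt φ (F w) :=
      hF.continuousAt.eventually (hdt.continuousAt.eventually (lt_mem_nhds hpos))
    have e4 : ∀ᶠ w in 𝓝 z, (Jm F w).det ≠ 0 := hJd.continuousAt.eventually_ne hJ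
    filter_upwards [e1, e2, e3, e4] with w h1 h2 h3 h4
    rw [dt_comp_holo h1 h2, Real.log_mul _ h3.ne']
    have : 0 < ‖(Jm F w).det‖ := norm_pos_iff.2 h4
    positivity
  have hn : 0 < ‖(Jm F z).det‖ := norm_pos_iff.2 hJ
  have hcomp : ContDiffAt ℝ 2 (fun w => Real.log (dt φ (F w))) z :=
    ContDiffAt.comp z hlog (hF2.restrict_scalars ℝ)
  have hlogJ : ContDiffAt ℝ 2 (fun w => Real.log (‖(Jm F w).det‖ ^ 2)) z :=
    (contDiffAt_norm_sq_holo hJd).log (by positivity)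
  have hc : cHess (fun w => Real.log (dt (fun w => φ (F w)) w)) z
      = cHess (fun w => Real.log (dt φ (F w))) z := by
    rw [cHess_congr hev, cHess_add hlogJ hcomp, cHess_log_norm_sq hJd hJ, zero_add]
  have hD : Dm (fun w => Real.log (dt (fun w => φ (F w)) w)) (fun w => φ (F w)) z
      = ‖(Jm F z).det‖ ^ 2 * Dm (fun w => Real.log (dt φ w)) φ (F z) := by
    rw [← Dm_comp_holo hF2 hlog hφ2, Dm, Dm, hc]
  rw [sh, hD, dt_comp_holo hF2 hφ2, sh]
  have h0 : dt φ (F z) ≠ 0 := hpos.ne'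
  field_simp

/-- `|det_ℝ|` of the real derivative of a holomorphic map -/
theorem abs_det_fderiv_holo {F : C2 → C2} {z : C2} (hF : DifferentiableAt ℂ F z) :
    |(fderiv ℝ F z).det| = ‖(Jm F z).det‖ ^ 2 := by
  have h1 : (fderiv ℝ F z).det = LinearMap.det ((fderiv ℂ F z : C2 →ₗ[ℂ] C2).restrictScalars ℝ) := by
    rw [hF.fderiv_restrictScalars ℝ]; rfl
  rw [h1, LinearMap.det_restrictScalars, Algebra.norm_complex_apply]
  have h2 : LinearMap.det (fderiv ℂ F z : C2 →ₗ[ℂ] C2) = (Jm F z).det := by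
    rw [← LinearMap.det_toMatrix']
    congr 1
  rw [h2, ← Complex.sq_norm, abs_of_nonneg (sq_nonneg _)]

theorem contDiffOn_Jm {k : ℕ} {F : Cn n → Cn k} {U : Set (Cn n)} (hU : IsOpen U)
    (hF : ContDiffOn ℂ ∞ F U) (a : Fin k) (i : Fin n) :
    ContDiffOn ℂ ∞ (fun z => Jm F z a i) U := by
  have h1 : ContDiffOn ℂ ∞ (fun w => fderiv ℂ F w (Pi.single i 1)) U :=
    (hF.fderiv_of_isOpen hU (by simp)).clm_apply contDiffOn_const
  exact (contDiffOn_pi.1 h1) a

/-- holomorphy of the Jacobian determinant -/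
theorem contDiffOn_det_Jm {F : C2 → C2} {U : Set C2} (hU : IsOpen U)
    (hF : ContDiffOn ℂ ∞ F U) : ContDiffOn ℂ ∞ (fun z => (Jm F z).det) U := by
  simp only [Matrix.det_fin_two]
  exact ((contDiffOn_Jm hU hF 0 0).mul (contDiffOn_Jm hU hF 1 1)).sub
    ((contDiffOn_Jm hU hF 0 1).mul (contDiffOn_Jm hU hF 1 0))

theorem Jm_comp {k : ℕ} {F : Cn n → Cn m} {G : Cn m → Cn k} {z : Cn n}
    (hF : DifferentiableAt ℂ F z) (hG : DifferentiableAt ℂ G (F z)) :
    Jm (fun w => G (F w)) z = Jm G (F z) * Jm F z := by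
  ext a i
  have h := fderiv_comp (𝕜 := ℂ) z hG hF
  have h2 : (fun w => G (F w)) = G ∘ F := rfl
  rw [Matrix.mul_apply, Jm, h2, h, ContinuousLinearMap.comp_apply]
  set v := fderiv ℂ F z (Pi.single i 1) with hv
  have h3 : v = ∑ b, v b • (Pi.single b (1 : ℂ) : Cn m) := by
    funext c
    simp [Finset.sum_apply, Pi.single_apply]
  rw [h3, map_sum, Finset.sum_apply]
  refine Finset.sum_congr rfl fun b _ => ?_
  rw [map_smul, Pi.smul_apply, smul_eq_mul, Jm, Jm, ← hv, mul_comm]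

end

end Pool.Agent.KS
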