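import Pool.Agent.KS.Space

/-!
# Charts of the surface
-/

namespace Pool.Agent.KS.Sp

open scoped ContDiff Matrix ComplexOrder Manifold ComplexConjugate
open Complex MeasureTheory Set

/-- chart indices: `X_{l+2} = 1`, root branch, type of the fibre coordinate -/
abbrev Idx : Type := Fin 3 × Fin 10 × Bool

/-- `e^{iπb/5}` -/
noncomputable def eps (b : Fin 10) : ℂ := exp ((Real.pi * (b.val : ℝ) / 5 : ℝ) * I)

/-- `±(-1-x⁵)` -/
def wb (b : Fin 10) (x : ℂ) : ℂ := (-1) ^ b.val * (-1 - x ^ 5)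

/-- branches of the fifth root of `-1-x⁵` -/
noncomputable def br (b : Fin 10) (x : ℂ) : ℂ := eps b * exp (log (wb b x) / 5)

/-- an open sector -/
def Sec : Set ℂ := {u | u ∈ slitPlane ∧ |arg u| < Real.pi / 5}

lemma eps_ne (b : Fin 10) : eps b ≠ 0 := exp_ne_zero _

lemma norm_eps (b : Fin 10) : ‖eps b‖ = 1 := norm_exp_ofReal_mul_I _

lemma eps_pow (b : Fin 10) : eps b ^ 5 = (-1) ^ b.val := by
  rw [eps, ← exp_nat_mul]
  have : ((5 : ℕ) : ℂ) * ((Real.pi * (b.val : ℝ) / 5 : ℝ) * I) = (b.val : ℕ) * (Real.pi * I) := by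
    push_cast; ring
  rw [this, exp_nat_mul, exp_pi_mul_I]

lemma neg_one_pow_mul_self (b : ℕ) : ((-1 : ℂ) ^ b) * (-1) ^ b = 1 := by
  rw [← mul_pow]; norm_num

lemma br_pow {b : Fin 10} {x : ℂ} (h : wb b x ∈ slitPlane) : br b x ^ 5 = -1 - x ^ 5 := by
  rw [br, mul_pow, ← exp_nat_mul, eps_pow]
  have : ((5 : ℕ) : ℂ) * (log (wb b x) / 5) = log (wb b x) := by push_cast; ring
  rw [this, exp_log (slitPlane_ne_zero h), wb, ← mul_assoc, neg_one_pow_mul_self, one_mul]

lemma br_ne (b : Fin 10) (x : ℂ) : br b x ≠ 0 := mul_ne_zero (eps_ne b) (exp_ne_zero _)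

lemma isOpen_Sec : IsOpen Sec := by
  have h : Sec = slitPlane ∩ arg ⁻¹' (Ioo (-(Real.pi / 5)) (Real.pi / 5)) := by
    ext u
    simp only [Sec, mem_ofPred_eq, mem_inter_iff, mem_preimage, mem_Ioo, abs_lt]
  rw [h]
  exact (ContinuousOn.isOpen_inter_preimage (fun u hu => (continuousAt_arg hu).continuousWithinAt)
    isOpen_slitPlane isOpen_Ioo)

lemma exp_mem_Sec {s : ℂ} (h : |s.im| < Real.pi / 5) : exp s ∈ Sec := by
  have hpi := Real.pi_pos
  obtain ⟨h1, h2⟩ := abs_lt.1 h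
  have harg : arg (exp s) = s.im := by
    rw [← log_im, log_exp (by linarith) (by linarith)]
  refine ⟨?_, ?_⟩
  · rw [mem_slitPlane_iff_arg]
    refine ⟨?_, exp_ne_zero _⟩
    rw [harg]
    intro h3
    linarith
  · rw [harg]; exact h

lemma br_div_mem {b : Fin 10} {x : ℂ} (h : wb b x ∈ slitPlane) : br b x / eps b ∈ Sec := by
  have hpi := Real.pi_pos
  rw [br, mul_div_cancel_left₀ _ (eps_ne b)]
  apply exp_mem_Sec
  have h1 : (log (wb b x) / 5).im = arg (wb b x) / 5 := by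
    have : log (wb b x) / 5 = log (wb b x) / ((5 : ℝ) : ℂ) := by norm_num
    rw [this, div_ofReal_im, log_im]
  rw [h1, abs_div, abs_of_pos (show (0 : ℝ) < 5 by norm_num)]
  have h2 : |arg (wb b x)| < Real.pi := by
    rw [abs_lt]
    refine ⟨neg_pi_lt_arg _, lt_of_le_of_ne (arg_le_pi _) ?_⟩
    exact (mem_slitPlane_iff_arg.1 h).1
  linarith

lemma root_unique {b : Fin 10} {x y : ℂ} (hy : y ^ 5 = -1 - x ^ 5) (hs : y / eps b ∈ Sec) :
    wb b x ∈ slitPlane ∧ br b x = y := by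
  have hpi := Real.pi_pos
  set u := y / eps b with hu
  have hyu : y = eps b * u := by rw [hu]; field_simp [eps_ne b]
  have hu0 : u ≠ 0 := slitPlane_ne_zero hs.1
  have hw : wb b x = u ^ 5 := by
    rw [wb, ← hy, hyu, mul_pow, eps_pow, ← mul_assoc, neg_one_pow_mul_self, one_mul]
  have harg := abs_lt.1 hs.2
  have hu5 : u ^ 5 = exp (5 * log u) := by
    have : (5 : ℂ) * log u = ((5 : ℕ) : ℂ) * log u := by norm_num
    rw [this, exp_nat_mul, exp_log hu0]
  have him : (5 * log u).im = 5 * arg u := by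
    have : (5 : ℂ) * log u = ((5 : ℝ) : ℂ) * log u := by norm_num
    rw [this, im_ofReal_mul, log_im]
  have hlog : log (wb b x) = 5 * log u := by
    rw [hw, hu5, log_exp]
    · rw [him]; linarith
    · rw [him]; linarith
  refine ⟨?_, ?_⟩
  · rw [mem_slitPlane_iff_arg]
    constructor
    · rw [← log_im, hlog, him]
      intro h; linarith
    · rw [hw]; exact pow_ne_zero _ hu0
  · rw [br, hlog, hyu]
    congr 1
    rw [show (5 * log u) / 5 = log u by ring, exp_log hu0]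

/-- the ten sectors cover `ℂ ∖ 0` -/
lemma sector_cover {y : ℂ} (hy : y ≠ 0) : ∃ b : Fin 10, y / eps b ∈ Sec := by
  have hpi := Real.pi_pos
  set r : ℝ := 5 * arg y / Real.pi with hr
  set m : ℤ := round r with hm
  have h1 : |r - m| ≤ 1 / 2 := abs_sub_round r
  -- reduce modulo 10
  set b : ℕ := (m % 10).toNat with hb
  have hb0 : 0 ≤ m % 10 := Int.emod_nonneg _ (by norm_num)
  have hb1 : m % 10 < 10 := Int.emod_lt_of_pos _ (by norm_num)
  have hbc : (b : ℤ) = m % 10 := Int.toNat_of_nonneg hb0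
  have hb10 : b < 10 := by omega
  refine ⟨⟨b, hb10⟩, ?_⟩
  have heps : eps ⟨b, hb10⟩ = exp ((Real.pi * (m : ℝ) / 5 : ℝ) * I) := by
    have hmb : (m : ℝ) = b + 10 * ((m / 10 : ℤ) : ℝ) := by
      have : m = (b : ℤ) + 10 * (m / 10) := by rw [hbc]; exact (Int.emod_add_mul_ediv m 10).symm
      exact_mod_cast this
    rw [eps]
    simp only
    rw [hmb]
    have h2 : (((Real.pi * (b + 10 * ((m / 10 : ℤ) : ℝ)) / 5 : ℝ) : ℂ) * I) =
        ((Real.pi * (b : ℝ) / 5 : ℝ) : ℂ) * I + ((m / 10 : ℤ) : ℂ) * (2 * Real.pi * I) := by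
      push_cast; ring
    rw [h2, exp_add, exp_int_mul_two_pi_mul_I, mul_one]
  rw [heps]
  have h3 : y / exp ((Real.pi * (m : ℝ) / 5 : ℝ) * I) = exp (log y - (Real.pi * (m : ℝ) / 5 : ℝ) * I) := by
    rw [exp_sub, exp_log hy]
  rw [h3]
  apply exp_mem_Sec
  have h4 : (log y - (Real.pi * (m : ℝ) / 5 : ℝ) * I).im = arg y - Real.pi * m / 5 := by
    rw [sub_im, log_im]; simp
  rw [h4]
  have h5 : arg y - Real.pi * m / 5 = (Real.pi / 5) * (r - m) := by
    rw [hr]; field_simp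
  rw [h5, abs_mul, abs_of_pos (by positivity)]
  nlinarith [abs_nonneg (r - m)]

/-- the lift over a point of the chart `κ` -/
noncomputable def sg (κ : Idx) (z : Cn 2) : Amb :=
  (fun a => if a = κ.1 then z 0 else if a = κ.1 + 1 then br κ.2.1 (z 0) else 1,
    if κ.2.2 then ![1, z 1] else ![z 1, 1])

/-- target of the chart -/
def tgt (κ : Idx) : Set (Cn 2) := {z | wb κ.2.1 (z 0) ∈ slitPlane}

/-- coordinates, as functions on the ambient space of the surface -/
noncomputable def cT (κ : Idx) (T : Tgt) : Cn 2 :=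
  ![T.1 κ.1 (κ.1 + 2) / T.1 (κ.1 + 2) (κ.1 + 2),
    if κ.2.2 then T.2.1 (κ.1 + 2) / T.2.2
      else conj (T.2.1 (κ.1 + 2)) / ((1 - T.2.2) * T.1 (κ.1 + 2) (κ.1 + 2))]

/-- the open set of the ambient space defining the chart domain -/
def srcT (κ : Idx) : Set Tgt := {T | T.1 (κ.1 + 2) (κ.1 + 2) ≠ 0 ∧
  (T.1 (κ.1 + 1) (κ.1 + 2) / T.1 (κ.1 + 2) (κ.1 + 2)) / eps κ.2.1 ∈ Sec ∧
  if κ.2.2 then T.2.2 ≠ 0 else T.2.2 ≠ 1}

/-- coordinates on lifts -/
noncomputable def cL (κ : Idx) (q : Amb) : Cn 2 :=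
  ![q.1 κ.1 / q.1 (κ.1 + 2), if κ.2.2 then q.2 1 * q.1 (κ.1 + 2) / q.2 0 else q.2 0 / (q.2 1 * q.1 (κ.1 + 2))]

/-- chart domain on lifts -/
def sL (κ : Idx) : Set Amb := {q | q ∈ Lift ∧ q.1 (κ.1 + 2) ≠ 0 ∧
  (q.1 (κ.1 + 1) / q.1 (κ.1 + 2)) / eps κ.2.1 ∈ Sec ∧ if κ.2.2 then q.2 0 ≠ 0 else q.2 1 ≠ 0}

lemma cone_cyc {X : Fin 3 → ℂ} (h : X 0 ^ 5 + X 1 ^ 5 + X 2 ^ 5 = 0) (l : Fin 3) :
    X l ^ 5 + X (l + 1) ^ 5 + X (l + 2) ^ 5 = 0 := by
  fin_cases l
  · exact h
  · show X 1 ^ 5 + X 2 ^ 5 + X 0 ^ 5 = 0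
    linear_combination h
  · show X 2 ^ 5 + X 0 ^ 5 + X 1 ^ 5 = 0
    linear_combination h

lemma cone_of_cyc {X : Fin 3 → ℂ} (l : Fin 3) (h : X l ^ 5 + X (l + 1) ^ 5 + X (l + 2) ^ 5 = 0) :
    X 0 ^ 5 + X 1 ^ 5 + X 2 ^ 5 = 0 := by
  fin_cases l
  · exact h
  · change X 1 ^ 5 + X 2 ^ 5 + X 0 ^ 5 = 0 at h
    linear_combination h
  · change X 2 ^ 5 + X 0 ^ 5 + X 1 ^ 5 = 0 at h
    linear_combination h

lemma Theta_PNN {q : Amb} {c : Fin 3} :
    (Theta q).1 c c = (normSq (q.1 c) : ℂ) / nn q.1 := by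
  simp only [Theta, mul_conj]

lemma Theta_ratio {q : Amb} (hq : q ∈ Lift) {c d : Fin 3} (hd : q.1 d ≠ 0) :
    (Theta q).1 c d / (Theta q).1 d d = q.1 c / q.1 d := by
  have h1 : (nn q.1 : ℂ) ≠ 0 := by simpa using (nn_pos hq.1.1).ne'
  have h2 : conj (q.1 d) ≠ 0 := by simpa using hd
  simp only [Theta]
  field_simp

lemma one_sub_tau {q : Amb} (hq : q ∈ Lift) :
    1 - (Theta q).2.2 = (normSq (q.2 1) * nn q.1 : ℝ) / NN q := by
  have h2 : (NN q : ℂ) ≠ 0 := by simpa using (NN_pos hq).ne'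
  simp only [Theta]
  rw [eq_div_iff h2, sub_mul, div_mul_cancel₀ _ h2, one_mul]
  simp only [NN]; push_cast; ring

lemma Theta_mem_srcT {q : Amb} (hq : q ∈ Lift) (κ : Idx) : Theta q ∈ srcT κ ↔ q ∈ sL κ := by
  have h1 : (nn q.1 : ℂ) ≠ 0 := by simpa using (nn_pos hq.1.1).ne'
  have h2 : (NN q : ℂ) ≠ 0 := by simpa using (NN_pos hq).ne'
  have e1 : (Theta q).1 (κ.1 + 2) (κ.1 + 2) ≠ 0 ↔ q.1 (κ.1 + 2) ≠ 0 := by
    rw [Theta_PNN]
    simp [h1]
  have e2 : (Theta q).2.2 ≠ 0 ↔ q.2 0 ≠ 0 := by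
    simp only [Theta]
    simp [h2]
  have e3 : (Theta q).2.2 ≠ 1 ↔ q.2 1 ≠ 0 := by
    have : (Theta q).2.2 ≠ 1 ↔ 1 - (Theta q).2.2 ≠ 0 := by
      rw [Ne, Ne, sub_eq_zero, eq_comm]
    rw [this, one_sub_tau hq]
    have h3 : nn q.1 ≠ 0 := (nn_pos hq.1.1).ne'
    have h4 : NN q ≠ 0 := (NN_pos hq).ne'
    simp [h3, h4]
  simp only [srcT, sL, mem_ofPred_eq]
  constructor
  · rintro ⟨a1, a2, a3⟩
    have b1 := e1.1 a1
    rw [Theta_ratio hq b1] at a2
    refine ⟨hq, b1, a2, ?_⟩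
    split_ifs with hf
    · rw [if_pos hf] at a3; exact e2.1 a3
    · rw [if_neg hf] at a3; exact e3.1 a3
  · rintro ⟨-, b1, a2, a3⟩
    refine ⟨e1.2 b1, ?_, ?_⟩
    · rw [Theta_ratio hq b1]; exact a2
    · split_ifs with hf
      · rw [if_pos hf] at a3; exact e2.2 a3
      · rw [if_neg hf] at a3; exact e3.2 a3

lemma cT_Theta {q : Amb} {κ : Idx} (h : q ∈ sL κ) : cT κ (Theta q) = cL κ q := by
  obtain ⟨hq, hN, -, h3⟩ := h
  have h1 : (nn q.1 : ℂ) ≠ 0 := by simpa using (nn_pos hq.1.1).ne'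
  have h2 : (NN q : ℂ) ≠ 0 := by simpa using (NN_pos hq).ne'
  simp only [cT, cL]
  rw [Theta_ratio hq hN]
  congr 1
  funext i
  have hi : i = 0 := Subsingleton.elim _ _
  subst hi
  simp only [Matrix.cons_val_fin_one]
  split_ifs with hf
  · rw [if_pos hf] at h3
    have h4 : conj (q.2 0) ≠ 0 := by simpa using h3
    simp only [Theta]
    rw [← mul_conj (q.2 0)]
    field_simp
  · rw [if_neg hf] at h3
    have h4 : conj (q.2 1) ≠ 0 := by simpa using h3
    have h5 : conj (q.1 (κ.1 + 2)) ≠ 0 := by simpa using hN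
    rw [one_sub_tau hq, Theta_PNN]
    simp only [Theta, map_div₀, map_mul, conj_conj, conj_ofReal, ofReal_mul]
    rw [← mul_conj (q.2 1), ← mul_conj (q.1 (κ.1 + 2))]
    field_simp

lemma idx_ne (l : Fin 3) : l ≠ l + 1 ∧ l ≠ l + 2 ∧ l + 1 ≠ l + 2 ∧ l + 1 ≠ l ∧ l + 2 ≠ l ∧ l + 2 ≠ l + 1 := by
  fin_cases l <;> decide

lemma idx_cases (l a : Fin 3) : a = l ∨ a = l + 1 ∨ a = l + 2 := by
  fin_cases l <;> fin_cases a <;> decide

lemma sg_0 (κ : Idx) (z : Cn 2) : (sg κ z).1 κ.1 = z 0 := by simp [sg]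

lemma sg_1 (κ : Idx) (z : Cn 2) : (sg κ z).1 (κ.1 + 1) = br κ.2.1 (z 0) := by
  obtain ⟨-, -, -, h, -, -⟩ := idx_ne κ.1
  simp [sg]

lemma sg_2 (κ : Idx) (z : Cn 2) : (sg κ z).1 (κ.1 + 2) = 1 := by
  obtain ⟨-, -, -, -, h, h'⟩ := idx_ne κ.1
  simp [sg, h, h']

lemma sg_mem {κ : Idx} {z : Cn 2} (hz : z ∈ tgt κ) : sg κ z ∈ sL κ := by
  have hL : sg κ z ∈ Lift := by
    refine ⟨⟨?_, ?_⟩, ?_⟩
    · intro h
      have := congrFun h (κ.1 + 2)
      rw [sg_2] at this
      exact one_ne_zero this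
    · apply cone_of_cyc κ.1
      rw [sg_0, sg_1, sg_2, br_pow hz]; ring
    · intro h
      by_cases hf : κ.2.2
      · have := congrFun h 0
        simp [sg, hf] at this
      · have := congrFun h 1
        simp [sg, hf] at this
  refine ⟨hL, ?_, ?_, ?_⟩
  · rw [sg_2]; exact one_ne_zero
  · rw [sg_1, sg_2, div_one]
    exact br_div_mem hz
  · split_ifs with hf
    · simp [sg, hf]
    · simp [sg, hf]

lemma cL_sg {κ : Idx} (z : Cn 2) : cL κ (sg κ z) = z := by
  simp only [cL]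
  rw [sg_0, sg_2]
  funext i
  fin_cases i
  · simp
  · by_cases hf : κ.2.2
    · simp [sg, hf]
    · simp [sg, hf]

lemma cL_mem {κ : Idx} {q : Amb} (h : q ∈ sL κ) : cL κ q ∈ tgt κ ∧
    br κ.2.1 (q.1 κ.1 / q.1 (κ.1 + 2)) = q.1 (κ.1 + 1) / q.1 (κ.1 + 2) := by
  obtain ⟨hq, hN, hs, h3⟩ := h
  have hc := cone_cyc hq.1.2 κ.1
  have hy : (q.1 (κ.1 + 1) / q.1 (κ.1 + 2)) ^ 5 = -1 - (q.1 κ.1 / q.1 (κ.1 + 2)) ^ 5 := by
    rw [div_pow, div_pow]
    field_simp
    linear_combination hc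
  obtain ⟨r1, r2⟩ := root_unique hy hs
  exact ⟨by simpa [tgt, cL] using r1, r2⟩

/-- every lift in the domain is equivalent to its normalised form -/
lemma sg_cL {κ : Idx} {q : Amb} (h : q ∈ sL κ) : ∃ l k : ℂ, l ≠ 0 ∧ k ≠ 0 ∧ sg κ (cL κ q) = act l k q := by
  obtain ⟨-, hbr⟩ := cL_mem h
  obtain ⟨hq, hN, hs, h3⟩ := h
  refine ⟨(q.1 (κ.1 + 2))⁻¹, if κ.2.2 then (q.2 0)⁻¹ else (q.2 1 * q.1 (κ.1 + 2))⁻¹, inv_ne_zero hN, ?_, ?_⟩
  · split_ifs with hf
    · rw [if_pos hf] at h3; exact inv_ne_zero h3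
    · rw [if_neg hf] at h3; exact inv_ne_zero (mul_ne_zero h3 hN)
  · refine Prod.ext ?_ ?_
    · funext a
      simp only [act, Pi.smul_apply, smul_eq_mul]
      rcases idx_cases κ.1 a with ha | ha | ha
      · subst ha
        rw [sg_0]
        simp only [cL, Matrix.cons_val_zero]
        rw [div_eq_inv_mul]
      · subst ha
        rw [sg_1]
        simp only [cL, Matrix.cons_val_zero]
        rw [hbr, div_eq_inv_mul]
      · subst ha
        rw [sg_2, inv_mul_cancel₀ hN]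
    · by_cases hf : κ.2.2
      · rw [if_pos hf] at h3
        simp only [sg, act, cL, hf, if_true]
        funext i
        fin_cases i
        · simp [h3]
        · simp only [Fin.mk_one, Matrix.cons_val_one, Matrix.cons_val_fin_one]
          field_simp
      · rw [if_neg hf] at h3
        simp only [sg, act, cL, hf, if_false, Bool.false_eq_true]
        funext i
        fin_cases i
        · simp only [Fin.zero_eta, Matrix.cons_val_zero, Matrix.cons_val_one, Matrix.cons_val_fin_one]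
          field_simp
        · simp only [Fin.mk_one, Matrix.cons_val_one, Matrix.cons_val_fin_one]
          field_simp

lemma isOpen_tgt (κ : Idx) : IsOpen (tgt κ) := by
  have h : Continuous fun z : Cn 2 => wb κ.2.1 (z 0) := by
    unfold wb
    exact continuous_const.mul (continuous_const.sub ((continuous_apply 0).pow 5))
  exact isOpen_slitPlane.preimage h

lemma isOpen_srcT (κ : Idx) : IsOpen (srcT κ) := by
  have c1 : ∀ c d, Continuous fun T : Tgt => T.1 c d := fun c d =>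
    (continuous_apply d).comp ((continuous_apply c).comp continuous_fst)
  have c3 : Continuous fun T : Tgt => T.2.2 := continuous_snd.comp continuous_snd
  have o1 : IsOpen {T : Tgt | T.1 (κ.1 + 2) (κ.1 + 2) ≠ 0} := isOpen_ne_fun (c1 _ _) continuous_const
  have o3 : IsOpen {T : Tgt | if κ.2.2 then T.2.2 ≠ 0 else T.2.2 ≠ 1} := by
    split_ifs with hf
    · exact isOpen_ne_fun c3 continuous_const
    · exact isOpen_ne_fun c3 continuous_const
  have o2 : IsOpen ({T : Tgt | T.1 (κ.1 + 2) (κ.1 + 2) ≠ 0} ∩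
      (fun T : Tgt => (T.1 (κ.1 + 1) (κ.1 + 2) / T.1 (κ.1 + 2) (κ.1 + 2)) / eps κ.2.1) ⁻¹' Sec) := by
    apply ContinuousOn.isOpen_inter_preimage _ o1 isOpen_Sec
    exact ((c1 _ _).continuousOn.div (c1 _ _).continuousOn fun T hT => hT).div_const _
  have h : srcT κ = ({T : Tgt | T.1 (κ.1 + 2) (κ.1 + 2) ≠ 0} ∩
      (fun T : Tgt => (T.1 (κ.1 + 1) (κ.1 + 2) / T.1 (κ.1 + 2) (κ.1 + 2)) / eps κ.2.1) ⁻¹' Sec) ∩
      {T : Tgt | if κ.2.2 then T.2.2 ≠ 0 else T.2.2 ≠ 1} := by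
    ext T
    simp only [srcT, mem_ofPred_eq, mem_inter_iff, mem_preimage, and_assoc]
  rw [h]
  exact o2.inter o3

lemma continuousOn_cT (κ : Idx) : ContinuousOn (cT κ) (srcT κ) := by
  have c1 : ∀ c d, Continuous fun T : Tgt => T.1 c d := fun c d =>
    (continuous_apply d).comp ((continuous_apply c).comp continuous_fst)
  have c2 : ∀ c, Continuous fun T : Tgt => T.2.1 c := fun c =>
    (continuous_apply c).comp (continuous_fst.comp continuous_snd)
  have c3 : Continuous fun T : Tgt => T.2.2 := continuous_snd.comp continuous_snd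
  refine continuousOn_pi.2 fun i => ?_
  fin_cases i
  · exact (c1 _ _).continuousOn.div (c1 _ _).continuousOn fun T hT => hT.1
  · by_cases hf : κ.2.2
    · have : (fun T : Tgt => cT κ T 1) = fun T => T.2.1 (κ.1 + 2) / T.2.2 := by
        funext T; simp [cT, hf]
      show ContinuousOn (fun T : Tgt => cT κ T 1) (srcT κ)
      rw [this]
      refine (c2 _).continuousOn.div c3.continuousOn fun T hT => ?_
      have := hT.2.2
      rwa [if_pos hf] at this
    · have : (fun T : Tgt => cT κ T 1) = fun T => conj (T.2.1 (κ.1 + 2)) / ((1 - T.2.2) * T.1 (κ.1 + 2) (κ.1 + 2)) := by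
        funext T; simp [cT, hf]
      show ContinuousOn (fun T : Tgt => cT κ T 1) (srcT κ)
      rw [this]
      refine (continuous_conj.comp (c2 _)).continuousOn.div
        ((continuous_const.sub c3).mul (c1 _ _)).continuousOn fun T hT => ?_
      have := hT.2.2
      rw [if_neg hf] at this
      exact mul_ne_zero (sub_ne_zero.2 (Ne.symm this)) hT.1

lemma contDiffOn_br (b : Fin 10) : ContDiffOn ℂ ω (br b) {x | wb b x ∈ slitPlane} := by
  intro x hx
  apply ContDiffAt.contDiffWithinAt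
  have h1 : ContDiffAt ℂ ω (wb b) x := by
    unfold wb
    exact contDiffAt_const.mul (contDiffAt_const.sub (contDiffAt_id.pow 5))
  have h2 : ContDiffAt ℂ ω (fun x => log (wb b x)) x := (contDiffAt_log hx).comp x h1
  have h3 : ContDiffAt ℂ ω (fun x => log (wb b x) / 5) x := h2.div_const 5
  exact contDiffAt_const.mul h3.cexp

lemma contDiffOn_sg1 (κ : Idx) (a : Fin 3) : ContDiffOn ℂ ω (fun z => (sg κ z).1 a) (tgt κ) := by
  have h0 : ContDiffOn ℂ ω (fun z : Cn 2 => z 0) (tgt κ) := (contDiff_apply ℂ ℂ (0 : Fin 2)).contDiffOn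
  rcases idx_cases κ.1 a with ha | ha | ha
  · subst ha
    exact h0.congr fun z _ => sg_0 κ z
  · subst ha
    refine ContDiffOn.congr ?_ fun z _ => sg_1 κ z
    exact (contDiffOn_br κ.2.1).comp h0 fun z hz => hz
  · subst ha
    exact contDiffOn_const.congr fun z _ => sg_2 κ z

lemma contDiffOn_sg2 (κ : Idx) (a : Fin 2) : ContDiffOn ℂ ω (fun z => (sg κ z).2 a) (tgt κ) := by
  have h0 : ContDiffOn ℂ ω (fun z : Cn 2 => z 1) (tgt κ) := (contDiff_apply ℂ ℂ (1 : Fin 2)).contDiffOn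
  by_cases hf : κ.2.2
  · fin_cases a
    · refine contDiffOn_const (c := (1 : ℂ)) |>.congr fun z _ => ?_
      simp [sg, hf]
    · refine h0.congr fun z _ => ?_
      simp [sg, hf]
  · fin_cases a
    · refine h0.congr fun z _ => ?_
      simp [sg, hf]
    · refine contDiffOn_const (c := (1 : ℂ)) |>.congr fun z _ => ?_
      simp [sg, hf]

lemma contDiffOn_sg (κ : Idx) : ContDiffOn ℂ ω (sg κ) (tgt κ) :=
  (contDiffOn_pi.2 (contDiffOn_sg1 κ)).prodMk (contDiffOn_pi.2 (contDiffOn_sg2 κ))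

lemma continuousOn_mk_sg (κ : Idx) : ContinuousOn (fun z => mk (sg κ z)) (tgt κ) :=
  continuousOn_mk.comp (contDiffOn_sg κ).continuousOn fun _ hz => (sg_mem hz).1

lemma mk_sg_cL {κ : Idx} {q : Amb} (h : q ∈ sL κ) : mk (sg κ (cL κ q)) = mk q := by
  obtain ⟨l, k, hl, hk, e⟩ := sg_cL h
  rw [e, mk_act hl hk h.1]

/-- The charts of the surface. -/
noncomputable def ch (κ : Idx) : OpenPartialHomeomorph Surf (Cn 2) where
  toFun p := cT κ p.val
  invFun z := mk (sg κ z)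
  source := {p | p.val ∈ srcT κ}
  target := tgt κ
  map_source' := by
    intro p hp
    obtain ⟨q, hq, rfl⟩ := mk_surj p
    simp only [mem_ofPred_eq, mk_val hq] at hp ⊢
    have h := (Theta_mem_srcT hq κ).1 hp
    rw [cT_Theta h]
    exact (cL_mem h).1
  map_target' := by
    intro z hz
    have h := sg_mem hz
    simp only [mem_ofPred_eq, mk_val h.1]
    exact (Theta_mem_srcT h.1 κ).2 h
  left_inv' := by
    intro p hp
    obtain ⟨q, hq, rfl⟩ := mk_surj p
    simp only [mem_ofPred_eq, mk_val hq] at hp ⊢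
    have h := (Theta_mem_srcT hq κ).1 hp
    rw [cT_Theta h, mk_sg_cL h]
  right_inv' := by
    intro z hz
    have h := sg_mem hz
    simp only [mk_val h.1]
    rw [cT_Theta h, cL_sg]
  open_source := (isOpen_srcT κ).preimage Surf.continuous_val
  open_target := isOpen_tgt κ
  continuousOn_toFun := (continuousOn_cT κ).comp Surf.continuous_val.continuousOn fun _ hp => hp
  continuousOn_invFun := continuousOn_mk_sg κ

lemma ch_target (κ : Idx) : (ch κ).target = tgt κ := rfl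

lemma ch_symm_apply (κ : Idx) (z : Cn 2) : (ch κ).symm z = mk (sg κ z) := rfl

lemma mk_mem_source {κ : Idx} {q : Amb} (hq : q ∈ Lift) : mk q ∈ (ch κ).source ↔ q ∈ sL κ := by
  show (mk q).val ∈ srcT κ ↔ _
  rw [mk_val hq, Theta_mem_srcT hq]

lemma ch_mk {κ : Idx} {q : Amb} (h : q ∈ sL κ) : ch κ (mk q) = cL κ q := by
  show cT κ (mk q).val = _
  rw [mk_val h.1, cT_Theta h]

/-- the charts cover -/
lemma exists_sL {q : Amb} (hq : q ∈ Lift) : ∃ κ : Idx, q ∈ sL κ := by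
  -- a cyclic index with two nonzero coordinates
  have h1 : ∃ l : Fin 3, q.1 (l + 1) ≠ 0 ∧ q.1 (l + 2) ≠ 0 := by
    by_contra hcon
    push Not at hcon
    have h0 := hcon 0
    have h1 := hcon 1
    have h2 := hcon 2
    change q.1 1 ≠ 0 → q.1 2 = 0 at h0
    change q.1 2 ≠ 0 → q.1 0 = 0 at h1
    change q.1 0 ≠ 0 → q.1 1 = 0 at h2
    have hc := hq.1.2
    apply hq.1.1
    by_cases a0 : q.1 0 = 0
    · by_cases a1 : q.1 1 = 0
      · have a2 : q.1 2 = 0 := by
          rw [a0, a1] at hc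
          have : q.1 2 ^ 5 = 0 := by linear_combination hc
          exact pow_eq_zero_iff (by norm_num) |>.1 this
        funext i; fin_cases i
        · exact a0
        · exact a1
        · exact a2
      · have a2 := h0 a1
        exfalso
        rw [a0, a2] at hc
        have : q.1 1 ^ 5 = 0 := by linear_combination hc
        exact a1 (pow_eq_zero_iff (by norm_num) |>.1 this)
    · have a1 := h2 a0
      have a2 : q.1 2 = 0 := by
        by_contra h; exact a0 (h1 h)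
      exfalso
      rw [a1, a2] at hc
      have : q.1 0 ^ 5 = 0 := by linear_combination hc
      exact a0 (pow_eq_zero_iff (by norm_num) |>.1 this)
  obtain ⟨l, hl1, hl2⟩ := h1
  obtain ⟨b, hb⟩ := sector_cover (div_ne_zero hl1 hl2)
  by_cases h0 : q.2 0 = 0
  · refine ⟨(l, b, false), hq, hl2, hb, ?_⟩
    simp only [Bool.false_eq_true, if_false]
    intro h1
    apply hq.2
    funext i; fin_cases i
    · exact h0
    · exact h1
  · exact ⟨(l, b, true), hq, hl2, hb, by simpa using h0⟩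

lemma exists_ch (p : Surf) : ∃ κ : Idx, p ∈ (ch κ).source := by
  obtain ⟨q, hq, rfl⟩ := mk_surj p
  obtain ⟨κ, hκ⟩ := exists_sL hq
  exact ⟨κ, (mk_mem_source hq).2 hκ⟩

/-- the atlas -/
noncomputable instance : ChartedSpace (Cn 2) Surf where
  atlas := range ch
  chartAt p := ch (exists_ch p).choose
  mem_chart_source p := (exists_ch p).choose_spec
  chart_mem_atlas p := mem_range_self _

lemma mem_atlas_iff {e : OpenPartialHomeomorph Surf (Cn 2)} : e ∈ atlas (Cn 2) Surf ↔ ∃ κ, ch κ = e := Iff.rfl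

lemma ch_mem_atlas (κ : Idx) : ch κ ∈ atlas (Cn 2) Surf := mem_range_self κ

/-- coordinate functions on lifts are holomorphic -/
lemma contDiffOn_cL_sg (κ κ' : Idx) : ContDiffOn ℂ ω (fun z => cL κ' (sg κ z)) {z | z ∈ tgt κ ∧ sg κ z ∈ sL κ'} := by
  have hsub : {z | z ∈ tgt κ ∧ sg κ z ∈ sL κ'} ⊆ tgt κ := fun z hz => hz.1
  have h1 := fun a => (contDiffOn_sg1 κ a).mono hsub
  have h2 := fun a => (contDiffOn_sg2 κ a).mono hsub
  refine contDiffOn_pi.2 fun i => ?_
  fin_cases i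
  · exact (h1 _).div (h1 _) fun z hz => hz.2.2.1
  · by_cases hf : κ'.2.2
    · have : (fun z => cL κ' (sg κ z) 1) = fun z => (sg κ z).2 1 * (sg κ z).1 (κ'.1 + 2) / (sg κ z).2 0 := by
        funext z; simp [cL, hf]
      show ContDiffOn ℂ ω (fun z => cL κ' (sg κ z) 1) _
      rw [this]
      refine ((h2 1).mul (h1 _)).div (h2 0) fun z hz => ?_
      have := hz.2.2.2.2
      rwa [if_pos hf] at this
    · have : (fun z => cL κ' (sg κ z) 1) = fun z => (sg κ z).2 0 / ((sg κ z).2 1 * (sg κ z).1 (κ'.1 + 2)) := by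
        funext z; simp [cL, hf]
      show ContDiffOn ℂ ω (fun z => cL κ' (sg κ z) 1) _
      rw [this]
      refine (h2 0).div ((h2 1).mul (h1 _)) fun z hz => ?_
      have := hz.2.2.2.2
      rw [if_neg hf] at this
      exact mul_ne_zero this hz.2.2.1

lemma mem_overlap_iff {κ κ' : Idx} {z : Cn 2} (hz : z ∈ tgt κ) :
    (ch κ).symm z ∈ (ch κ').source ↔ sg κ z ∈ sL κ' := by
  rw [ch_symm_apply, mk_mem_source (sg_mem hz).1]

lemma trans_eq {κ κ' : Idx} {z : Cn 2} (h : sg κ z ∈ sL κ') : ch κ' ((ch κ).symm z) = cL κ' (sg κ z) := by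
  rw [ch_symm_apply, ch_mk h]

instance : IsManifold 𝓘(ℂ, Cn 2) ω Surf := by
  refine isManifold_of_contDiffOn _ _ _ ?_
  rintro _ _ ⟨κ, rfl⟩ ⟨κ', rfl⟩
  refine ((contDiffOn_cL_sg κ κ').mono ?_).congr fun z hz => ?_
  · intro z hz
    simp only [OpenPartialHomeomorph.trans_source, OpenPartialHomeomorph.symm_source, mem_inter_iff,
      mem_preimage, modelWithCornersSelf_coe_symm, id, modelWithCornersSelf_coe, range_id, mem_univ, and_true] at hz
    exact ⟨hz.1, (mem_overlap_iff hz.1).1 hz.2⟩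
  · simp only [OpenPartialHomeomorph.trans_source, OpenPartialHomeomorph.symm_source, mem_inter_iff,
      mem_preimage, modelWithCornersSelf_coe_symm, id, modelWithCornersSelf_coe, range_id, mem_univ, and_true] at hz
    exact trans_eq ((mem_overlap_iff hz.1).1 hz.2)

end Pool.Agent.KS.Sp
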