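import Pool.Agent.KS.Chart

/-!
# The surface is connected
-/

namespace Pool.Agent.KS.Sp

open scoped ContDiff Matrix ComplexOrder Manifold ComplexConjugate
open Complex MeasureTheory Set

/-- points of the cone with a coordinate equal to one -/
def pt (l : Fin 3) (x y : ℂ) : Fin 3 → ℂ := fun a => if a = l then x else if a = l + 1 then y else 1

lemma pt_0 (l : Fin 3) (x y : ℂ) : pt l x y l = x := by simp [pt]

lemma pt_1 (l : Fin 3) (x y : ℂ) : pt l x y (l + 1) = y := by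
  obtain ⟨-, -, -, h, -, -⟩ := idx_ne l
  simp [pt]

lemma pt_2 (l : Fin 3) (x y : ℂ) : pt l x y (l + 2) = 1 := by
  obtain ⟨-, -, -, -, h, h'⟩ := idx_ne l
  simp [pt, h, h']

lemma pt_mem {l : Fin 3} {x y : ℂ} (h : x ^ 5 + y ^ 5 + 1 = 0) : pt l x y ∈ cone := by
  refine ⟨?_, ?_⟩
  · intro h0
    have := congrFun h0 (l + 2)
    rw [pt_2] at this
    exact one_ne_zero this
  · apply cone_of_cyc l
    rw [pt_0, pt_1, pt_2]
    linear_combination h

lemma joined_path (l : Fin 3) {f g : ℝ → ℂ} (hf : ContinuousOn f unitInterval) (hg : ContinuousOn g unitInterval)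
    (h : ∀ s ∈ unitInterval, f s ^ 5 + g s ^ 5 + 1 = 0) :
    JoinedIn cone (pt l (f 0) (g 0)) (pt l (f 1) (g 1)) := by
  refine JoinedIn.ofLine (f := fun s => pt l (f s) (g s)) ?_ rfl rfl ?_
  · refine continuousOn_pi.2 fun a => ?_
    rcases idx_cases l a with ha | ha | ha
    · subst ha
      exact hf.congr fun s _ => pt_0 _ _ _
    · subst ha
      exact hg.congr fun s _ => pt_1 _ _ _
    · subst ha
      exact continuousOn_const.congr fun s _ => pt_2 _ _ _
  · rintro _ ⟨s, hs, rfl⟩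
    exact pt_mem (h s hs)

/-- the basic path of fifth roots -/
lemma root_path {x y : ℂ} (h : x ^ 5 + y ^ 5 + 1 = 0) (hx : 1 + x ^ 5 ∈ slitPlane) :
    ∃ f g : ℝ → ℂ, ContinuousOn f unitInterval ∧ ContinuousOn g unitInterval ∧
      (∀ s ∈ unitInterval, f s ^ 5 + g s ^ 5 + 1 = 0) ∧ f 0 = x ∧ g 0 = y ∧ f 1 = 0 := by
  set w : ℂ := (1 + x ^ 5)⁻¹ with hw
  have hne : 1 + x ^ 5 ≠ 0 := slitPlane_ne_zero hx
  have hws : w ∈ slitPlane := by
    rw [mem_slitPlane_iff_arg]
    refine ⟨?_, inv_ne_zero hne⟩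
    rw [hw, arg_inv, if_neg (mem_slitPlane_iff_arg.1 hx).1]
    intro h2
    have := neg_pi_lt_arg (1 + x ^ 5)
    linarith
  set R : ℝ → ℂ := fun s => (((1 - s) ^ 5 : ℝ) : ℂ) + ((1 - (1 - s) ^ 5 : ℝ) : ℂ) * w with hR
  have hRs : ∀ s ∈ unitInterval, R s ∈ slitPlane := by
    intro s hs
    have h1 : 0 ≤ (1 - s) ^ 5 := pow_nonneg (by linarith [hs.2]) 5
    have h2 : (1 - s) ^ 5 ≤ 1 := pow_le_one₀ (by linarith [hs.2]) (by linarith [hs.1])
    have h3 := starConvex_one_slitPlane hws h1 (by linarith : 0 ≤ 1 - (1 - s) ^ 5) (by ring)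
    simpa [hR, real_smul] using h3
  have hRc : Continuous R := by
    simp only [hR]
    fun_prop
  refine ⟨fun s => ((1 - s : ℝ) : ℂ) * x, fun s => y * exp (log (R s) / 5), ?_, ?_, ?_, ?_, ?_, ?_⟩
  · apply Continuous.continuousOn; fun_prop
  · refine continuousOn_const.mul (ContinuousOn.cexp (ContinuousOn.div_const ?_ 5))
    exact hRc.continuousOn.clog hRs
  · intro s hs
    have e1 : (y * exp (log (R s) / 5)) ^ 5 = y ^ 5 * R s := by
      rw [mul_pow, ← exp_nat_mul]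
      have : ((5 : ℕ) : ℂ) * (log (R s) / 5) = log (R s) := by push_cast; ring
      rw [this, exp_log (slitPlane_ne_zero (hRs s hs))]
    simp only
    rw [e1]
    have hy : y ^ 5 = -(1 + x ^ 5) := by linear_combination h
    have e2 : y ^ 5 * R s = -(((1 - s) ^ 5 : ℝ) : ℂ) * (1 + x ^ 5) - ((1 - (1 - s) ^ 5 : ℝ) : ℂ) := by
      rw [hy]
      simp only [hR]
      have : (1 + x ^ 5) * w = 1 := by rw [hw, mul_inv_cancel₀ hne]
      linear_combination (-((1 - (1 - s) ^ 5 : ℝ) : ℂ)) * this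
    rw [e2]
    push_cast
    ring
  · simp
  · simp [hR]
  · simp

lemma pt_A1 (l : Fin 3) {x y : ℂ} (h : x ^ 5 + y ^ 5 + 1 = 0) (hx : 1 + x ^ 5 ∈ slitPlane) :
    ∃ η : ℂ, η ^ 5 = -1 ∧ JoinedIn cone (pt l x y) (pt l 0 η) := by
  obtain ⟨f, g, hf, hg, hfg, f0, g0, f1⟩ := root_path h hx
  refine ⟨g 1, ?_, ?_⟩
  · have := hfg 1 ⟨zero_le_one, le_refl _⟩
    rw [f1] at this
    linear_combination this
  · have := joined_path l hf hg hfg
    rwa [f0, g0, f1] at this

lemma pt_A2 (l : Fin 3) {x y : ℂ} (h : x ^ 5 + y ^ 5 + 1 = 0) (hy : 1 + y ^ 5 ∈ slitPlane) :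
    ∃ ξ : ℂ, ξ ^ 5 = -1 ∧ JoinedIn cone (pt l x y) (pt l ξ 0) := by
  have h' : y ^ 5 + x ^ 5 + 1 = 0 := by linear_combination h
  obtain ⟨f, g, hf, hg, hfg, f0, g0, f1⟩ := root_path h' hy
  refine ⟨g 1, ?_, ?_⟩
  · have := hfg 1 ⟨zero_le_one, le_refl _⟩
    rw [f1] at this
    linear_combination this
  · have := joined_path l hg hf (fun s hs => by linear_combination hfg s hs)
    rwa [f0, g0, f1] at this

lemma pt_B (l : Fin 3) {ξ η : ℂ} (hξ : ξ ^ 5 = -1) (hη : η ^ 5 = -1) :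
    JoinedIn cone (pt l ξ 0) (pt l 0 η) := by
  have hc1 : ContinuousOn (fun s : ℝ => ξ * (((1 - s) ^ ((1 : ℝ) / 5) : ℝ) : ℂ)) unitInterval := by
    apply Continuous.continuousOn
    refine continuous_const.mul (continuous_ofReal.comp ?_)
    exact (continuous_const.sub continuous_id).rpow_const fun s => Or.inr (by norm_num)
  have hc2 : ContinuousOn (fun s : ℝ => η * ((s ^ ((1 : ℝ) / 5) : ℝ) : ℂ)) unitInterval := by
    apply Continuous.continuousOn
    refine continuous_const.mul (continuous_ofReal.comp ?_)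
    exact continuous_id.rpow_const fun s => Or.inr (by norm_num)
  have aux : ∀ s : ℝ, 0 ≤ s → ((s ^ ((1 : ℝ) / 5) : ℝ) : ℂ) ^ 5 = (s : ℂ) := by
    intro s hs
    rw [← ofReal_pow]
    congr 1
    rw [← Real.rpow_natCast, ← Real.rpow_mul hs]
    norm_num
  have := joined_path l hc1 hc2 (fun s hs => by
    rw [mul_pow, mul_pow, aux s hs.1, aux (1 - s) (by linarith [hs.2]), hξ, hη]
    push_cast; ring)
  simpa using this

lemma pt_C (l : Fin 3) {x y : ℂ} (h : x ^ 5 + y ^ 5 + 1 = 0) : JoinedIn cone (pt l x y) (pt l 0 (-1)) := by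
  have hm : ((-1 : ℂ)) ^ 5 = -1 := by norm_num
  by_cases hx : 1 + x ^ 5 ∈ slitPlane
  · obtain ⟨η, hη, hj⟩ := pt_A1 l h hx
    exact hj.trans ((pt_B l hm hη).symm.trans (pt_B l hm hm))
  · have hy : 1 + y ^ 5 ∈ slitPlane := by
      rw [mem_slitPlane_iff, not_or, not_lt, not_not] at hx
      obtain ⟨h1, h2⟩ := hx
      have e : 1 + y ^ 5 = 1 - (1 + x ^ 5) := by linear_combination h
      rw [e, mem_slitPlane_iff]
      left
      rw [sub_re, one_re]
      linarith
    obtain ⟨ξ, hξ, hj⟩ := pt_A2 l h hy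
    exact hj.trans (pt_B l hξ hm)

lemma cone_smul {X : Fin 3 → ℂ} (hX : X ∈ cone) {c : ℂ} (hc : c ≠ 0) : c • X ∈ cone := by
  refine ⟨smul_ne_zero hc hX.1, ?_⟩
  have := hX.2
  simp only [Pi.smul_apply, smul_eq_mul, mul_pow]
  rw [← mul_add, ← mul_add, this, mul_zero]

lemma joined_smul {X : Fin 3 → ℂ} (hX : X ∈ cone) {c : ℂ} (hc : c ≠ 0) : JoinedIn cone X (c • X) := by
  have h1 : IsPathConnected ({0}ᶜ : Set ℂ) := isPathConnected_compl_singleton_of_one_lt_rank (by simp) 0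
  have h2 := h1.image (f := fun t : ℂ => t • X) (by fun_prop)
  have h3 := h2.joinedIn ((1 : ℂ) • X) ⟨1, by simp, rfl⟩ (c • X) ⟨c, by simpa using hc, rfl⟩
  rw [one_smul] at h3
  refine h3.mono ?_
  rintro _ ⟨t, ht, rfl⟩
  exact cone_smul hX (by simpa using ht)

lemma pt_D (l : Fin 3) {X : Fin 3 → ℂ} (hX : X ∈ cone) (hN : X (l + 2) ≠ 0) :
    JoinedIn cone X (pt l 0 (-1)) := by
  have h1 := joined_smul hX (inv_ne_zero hN)
  have h2 : (X (l + 2))⁻¹ • X = pt l (X l / X (l + 2)) (X (l + 1) / X (l + 2)) := by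
    funext a
    simp only [Pi.smul_apply, smul_eq_mul]
    rcases idx_cases l a with ha | ha | ha
    · subst ha; rw [pt_0, div_eq_inv_mul]
    · subst ha; rw [pt_1, div_eq_inv_mul]
    · subst ha; rw [pt_2, inv_mul_cancel₀ hN]
  rw [h2] at h1
  refine h1.trans (pt_C l ?_)
  have := cone_cyc hX.2 l
  rw [div_pow, div_pow]
  field_simp
  linear_combination this

lemma pt_E (l : Fin 3) : JoinedIn cone (pt l 0 (-1)) (pt (l + 2) 0 (-1)) := by
  refine pt_D (l + 2) (pt_mem (by norm_num)) ?_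
  have h : l + 2 + 2 = l + 1 := by fin_cases l <;> decide
  rw [h, pt_1]
  norm_num

theorem isPathConnected_cone : IsPathConnected cone := by
  refine ⟨pt 0 0 (-1), pt_mem (by norm_num), fun {X} hX => ?_⟩
  obtain ⟨a, ha⟩ := Function.ne_iff.1 hX.1
  have h02 : JoinedIn cone (pt 0 0 (-1)) (pt 2 0 (-1)) := pt_E 0
  have h21 : JoinedIn cone (pt 2 0 (-1)) (pt 1 0 (-1)) := pt_E 2
  fin_cases a
  · -- X 0 ≠ 0, l = 1
    have : JoinedIn cone X (pt 1 0 (-1)) := pt_D 1 hX ha
    exact (h02.trans h21).trans this.symm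
  · have : JoinedIn cone X (pt 2 0 (-1)) := pt_D 2 hX ha
    exact h02.trans this.symm
  · have : JoinedIn cone X (pt 0 0 (-1)) := pt_D 0 hX ha
    exact this.symm

theorem isConnected_Lift : IsConnected Lift := by
  have h1 : IsConnected cone := isPathConnected_cone.isConnected
  have h2 : IsConnected ({0}ᶜ : Set (Fin 2 → ℂ)) := by
    apply IsPathConnected.isConnected
    apply isPathConnected_compl_singleton_of_one_lt_rank
    have h : (1 : ℕ) < Module.finrank ℝ (Fin 2 → ℂ) := by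
      rw [Module.finrank_pi_fintype]; simp [finrank_real_complex]
    simpa using Module.lt_rank_of_lt_finrank h
  exact h1.prod h2

instance : ConnectedSpace Surf := by
  have h : IsConnected (univ : Set Surf) := by
    have e : (univ : Set Surf) = mk '' Lift := by
      ext p
      simp only [mem_univ, true_iff]
      obtain ⟨q, hq, rfl⟩ := mk_surj p
      exact ⟨q, hq, rfl⟩
    rw [e]
    exact isConnected_Lift.image _ continuousOn_mk
  exact connectedSpace_iff_univ.2 h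

end Pool.Agent.KS.Sp
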