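import Pool.Agent.KS.GDeriv

/-!
# Auxiliary estimates for the core inequality
-/

namespace Pool.Agent.KS

open MeasureTheory Complex Topology
open scoped ContDiff Matrix ComplexOrder ComplexConjugate Manifold

noncomputable section

namespace CoreA

/-- the cut-off function `η(y)/y` -/
def hh (y : ℝ) : ℝ := Real.smoothTransition (4 * y - 2) / y

lemma hh_zero {y : ℝ} (hy : y ≤ 1 / 2) : hh y = 0 := by
  unfold hh
  rw [Real.smoothTransition.zero_of_nonpos (by linarith), zero_div]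

lemma hh_eq {y : ℝ} (hy : 3 / 4 ≤ y) : hh y = 1 / y := by
  unfold hh
  rw [Real.smoothTransition.one_of_one_le (by linarith)]

lemma hh_nonneg {y : ℝ} (hy : 0 ≤ y) : 0 ≤ hh y :=
  div_nonneg (Real.smoothTransition.nonneg _) hy

lemma hh_le {y : ℝ} (hy : 0 < y) : hh y ≤ 1 / y :=
  div_le_div_of_nonneg_right (Real.smoothTransition.le_one _) hy.le

lemma hh_smooth : ContDiff ℝ ∞ hh := by
  rw [contDiff_iff_contDiffAt]
  intro y
  by_cases hy : y < 1 / 2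
  · have h1 : hh =ᶠ[𝓝 y] fun _ => (0 : ℝ) := by
      filter_upwards [Iio_mem_nhds hy] with x hx
      exact hh_zero (le_of_lt hx)
    exact contDiffAt_const.congr_of_eventuallyEq h1
  · have hy0 : y ≠ 0 := by intro h; apply hy; rw [h]; norm_num
    exact ContDiffAt.div (Real.smoothTransition.contDiff.comp (by fun_prop)).contDiffAt
      contDiffAt_id hy0

lemma hh_bounds (R : ℝ) : ∃ H : ℝ, 0 ≤ H ∧ ∀ y : ℝ, 0 ≤ y → y ≤ R →
    |hh y| ≤ H ∧ |deriv hh y| ≤ H ∧ |deriv (deriv hh) y| ≤ H := by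
  have h1 := contDiff_infty_iff_deriv.mp hh_smooth
  have h2 := contDiff_infty_iff_deriv.mp h1.2
  obtain ⟨A, hA⟩ := (isCompact_Icc (a := (0 : ℝ)) (b := R)).exists_bound_of_continuousOn
    hh_smooth.continuous.continuousOn
  obtain ⟨B, hB⟩ := (isCompact_Icc (a := (0 : ℝ)) (b := R)).exists_bound_of_continuousOn
    h1.2.continuous.continuousOn
  obtain ⟨C, hC⟩ := (isCompact_Icc (a := (0 : ℝ)) (b := R)).exists_bound_of_continuousOn
    h2.2.continuous.continuousOn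
  refine ⟨max 0 (max A (max B C)), le_max_left _ _, fun y hy hyR => ?_⟩
  have hm : y ∈ Set.Icc 0 R := ⟨hy, hyR⟩
  refine ⟨(hA y hm).trans ?_, (hB y hm).trans ?_, (hC y hm).trans ?_⟩
  · exact (le_max_left _ _).trans (le_max_right _ _)
  · exact (le_max_left _ _).trans ((le_max_right _ _).trans (le_max_right _ _))
  · exact (le_max_right _ _).trans ((le_max_right _ _).trans (le_max_right _ _))

/-- local bound for the Hessian of `n h(ρ)` -/
lemma cHess_prod_bound {n ρ : C2 → ℝ} {z : C2} (hn : ContDiffAt ℝ 2 n z)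
    (hρ : ContDiffAt ℝ 2 ρ z) {G c N0 H : ℝ} (hG : 0 ≤ G) (hc : 0 ≤ c) (hH : 0 ≤ H)
    (hn1 : ∀ i, ‖gz i n z‖ ≤ c * G) (hn2 : ∀ i j, ‖cHess n z i j‖ ≤ c * G ^ 2)
    (hρ1 : ∀ i, ‖gz i ρ z‖ ≤ G) (hρ2 : ∀ i j, ‖cHess ρ z i j‖ ≤ G ^ 2) (hn0 : |n z| ≤ N0)
    (h0 : |hh (ρ z)| ≤ H) (h1 : |deriv hh (ρ z)| ≤ H) (h2 : |deriv (deriv hh) (ρ z)| ≤ H)
    (i j : Fin 2) :
    ‖cHess (fun w => n w * hh (ρ w)) z i j‖ ≤ (2 * N0 * H + 3 * c * H) * G ^ 2 := by
  have hh2 : ContDiff ℝ 2 hh := hh_smooth.of_le (WithTop.coe_le_coe.mpr le_top)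
  have hcomp : ContDiffAt ℝ 2 (fun w => hh (ρ w)) z := hh2.contDiffAt.comp z hρ
  have hg : ∀ i, ‖gz i (fun w => hh (ρ w)) z‖ ≤ H * G := by
    intro i
    rw [gz_real_comp i (hρ.differentiableAt (by norm_num))
      ((hh2.differentiable (by norm_num)) _), norm_mul, Complex.norm_real]
    exact mul_le_mul h1 (hρ1 i) (norm_nonneg _) hH
  have hHess : ‖cHess (fun w => hh (ρ w)) z i j‖ ≤ 2 * H * G ^ 2 := by
    rw [cHess_real_comp i j hρ hh2.contDiffAt]
    refine (norm_add_le _ _).trans ?_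
    rw [norm_mul, norm_mul, Complex.norm_real, Complex.norm_real, norm_mul, RCLike.norm_conj]
    have e1 : ‖deriv hh (ρ z)‖ * ‖cHess ρ z i j‖ ≤ H * G ^ 2 :=
      mul_le_mul h1 (hρ2 i j) (norm_nonneg _) hH
    have e2 : ‖deriv (deriv hh) (ρ z)‖ * (‖gz i ρ z‖ * ‖gz j ρ z‖) ≤ H * (G * G) :=
      mul_le_mul h2 (mul_le_mul (hρ1 i) (hρ1 j) (norm_nonneg _) hG) (by positivity) hH
    nlinarith [e1, e2]
  have hN0 : 0 ≤ N0 := (abs_nonneg _).trans hn0
  rw [cHess_mul i j hn hcomp]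
  have t1 : ‖(n z : ℂ) * cHess (fun w => hh (ρ w)) z i j‖ ≤ N0 * (2 * H * G ^ 2) := by
    rw [norm_mul, Complex.norm_real]
    exact mul_le_mul hn0 hHess (norm_nonneg _) hN0
  have t2 : ‖((hh (ρ z) : ℝ) : ℂ) * cHess n z i j‖ ≤ H * (c * G ^ 2) := by
    rw [norm_mul, Complex.norm_real]
    exact mul_le_mul h0 (hn2 i j) (norm_nonneg _) hH
  have t3 : ‖gz i n z * conj (gz j (fun w => hh (ρ w)) z)‖ ≤ c * G * (H * G) := by
    rw [norm_mul, RCLike.norm_conj]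
    exact mul_le_mul (hn1 i) (hg j) (norm_nonneg _) (by positivity)
  have t4 : ‖gz i (fun w => hh (ρ w)) z * conj (gz j n z)‖ ≤ H * G * (c * G) := by
    rw [norm_mul, RCLike.norm_conj]
    exact mul_le_mul (hg i) (hn1 j) (norm_nonneg _) (by positivity)
  have t := (norm_add_le ((n z : ℂ) * cHess (fun w => hh (ρ w)) z i j +
    ((hh (ρ z) : ℝ) : ℂ) * cHess n z i j + gz i n z * conj (gz j (fun w => hh (ρ w)) z))
    (gz i (fun w => hh (ρ w)) z * conj (gz j n z)))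
  have t' := (norm_add_le ((n z : ℂ) * cHess (fun w => hh (ρ w)) z i j +
    ((hh (ρ z) : ℝ) : ℂ) * cHess n z i j) (gz i n z * conj (gz j (fun w => hh (ρ w)) z)))
  have t'' := (norm_add_le ((n z : ℂ) * cHess (fun w => hh (ρ w)) z i j)
    (((hh (ρ z) : ℝ) : ℂ) * cHess n z i j))
  calc _ ≤ N0 * (2 * H * G ^ 2) + H * (c * G ^ 2) + c * G * (H * G) + H * G * (c * G) := by
        linarith
    _ = _ := by ring

/-- local bound for the Hessian of `(1/k) log ρ` -/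
lemma cHess_log_bound {ρ : C2 → ℝ} {z : C2} (hρ : ContDiffAt ℝ 2 ρ z) {G κ : ℝ} (hG : 0 ≤ G)
    (hκ : 0 ≤ κ) (hρ1 : ∀ i, ‖gz i ρ z‖ ≤ G) (hρ2 : ∀ i j, ‖cHess ρ z i j‖ ≤ G ^ 2)
    (h0 : 1 / 2 ≤ ρ z) (i j : Fin 2) :
    ‖cHess (fun w => κ * Real.log (ρ w)) z i j‖ ≤ 6 * κ * G ^ 2 := by
  have hρ0 : 0 < ρ z := by linarith
  have hl : ContDiffAt ℝ 2 Real.log (ρ z) := Real.contDiffAt_log.mpr hρ0.ne'
  have hcomp : ContDiffAt ℝ 2 (fun w => Real.log (ρ w)) z := hl.comp z hρ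
  rw [cHess_const_mul κ hcomp, Matrix.smul_apply, smul_eq_mul, norm_mul, Complex.norm_real,
    Real.norm_of_nonneg hκ, cHess_real_comp i j hρ hl]
  have e0 : |deriv Real.log (ρ z)| ≤ 2 := by
    rw [Real.deriv_log, abs_of_pos (inv_pos.mpr hρ0)]
    rw [inv_le_comm₀ hρ0 (by norm_num)]
    linarith
  have e0' : |deriv (deriv Real.log) (ρ z)| ≤ 4 := by
    have : deriv Real.log = fun y => y⁻¹ := by funext y; exact Real.deriv_log y
    rw [this, deriv_inv, abs_neg, abs_of_pos (inv_pos.mpr (by positivity))]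
    rw [inv_le_comm₀ (by positivity) (by norm_num)]
    nlinarith
  have e1 : ‖((deriv Real.log (ρ z) : ℝ) : ℂ) * cHess ρ z i j‖ ≤ 2 * G ^ 2 := by
    rw [norm_mul, Complex.norm_real]
    exact mul_le_mul e0 (hρ2 i j) (norm_nonneg _) (by norm_num)
  have e2 : ‖((deriv (deriv Real.log) (ρ z) : ℝ) : ℂ) * (gz i ρ z * conj (gz j ρ z))‖
      ≤ 4 * (G * G) := by
    rw [norm_mul, Complex.norm_real, norm_mul, RCLike.norm_conj]
    exact mul_le_mul e0' (mul_le_mul (hρ1 i) (hρ1 j) (norm_nonneg _) hG) (by positivity)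
      (by norm_num)
  have e3 := (norm_add_le _ _).trans (add_le_add e1 e2)
  calc κ * ‖_‖ ≤ κ * (2 * G ^ 2 + 4 * (G * G)) := mul_le_mul_of_nonneg_left e3 hκ
    _ = 6 * κ * G ^ 2 := by ring

/-- scalar estimate for the logarithm -/
lemma log_est {ρ x : ℝ} (hρ : 1 / 2 ≤ ρ) (hx : |x| ≤ 1 / 2) :
    |Real.log ρ - x| ≤ 2 * |ρ - 1 - x| + 2 * x ^ 2 := by
  obtain ⟨hx1, hx2⟩ := abs_le.mp hx
  have hρ0 : 0 < ρ := by linarith
  have hy0 : 0 < 1 + x := by linarith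
  have a1 : Real.log ρ - Real.log (1 + x) ≤ 2 * |ρ - 1 - x| := by
    rw [← Real.log_div hρ0.ne' hy0.ne']
    refine (Real.log_le_sub_one_of_pos (div_pos hρ0 hy0)).trans ?_
    have : ρ / (1 + x) - 1 = (ρ - 1 - x) / (1 + x) := by field_simp; ring
    rw [this]
    refine (le_abs_self _).trans ?_
    rw [abs_div, abs_of_pos hy0, div_le_iff₀ hy0]
    nlinarith [abs_nonneg (ρ - 1 - x)]
  have a2 : Real.log (1 + x) - Real.log ρ ≤ 2 * |ρ - 1 - x| := by
    rw [← Real.log_div hy0.ne' hρ0.ne']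
    refine (Real.log_le_sub_one_of_pos (div_pos hy0 hρ0)).trans ?_
    have : (1 + x) / ρ - 1 = -(ρ - 1 - x) / ρ := by field_simp; ring
    rw [this]
    refine (le_abs_self _).trans ?_
    rw [abs_div, abs_neg, abs_of_pos hρ0, div_le_iff₀ hρ0]
    nlinarith [abs_nonneg (ρ - 1 - x)]
  have b1 : Real.log (1 + x) - x ≤ 2 * x ^ 2 := by
    have := Real.log_le_sub_one_of_pos hy0
    nlinarith [sq_nonneg x]
  have b2 : x - Real.log (1 + x) ≤ 2 * x ^ 2 := by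
    have h1 := Real.log_le_sub_one_of_pos (inv_pos.mpr hy0)
    rw [Real.log_inv] at h1
    have h2 : (1 + x)⁻¹ - 1 + x = x ^ 2 / (1 + x) := by field_simp; ring
    have h3 : x ^ 2 / (1 + x) ≤ 2 * x ^ 2 := by
      rw [div_le_iff₀ hy0]
      nlinarith [sq_nonneg x]
    linarith
  rw [abs_le]
  constructor <;> linarith

/-- `L¹` estimate from an upper bound and a lower bound of the integral -/
lemma integral_abs_le {M : Type} [MeasurableSpace M] {ν : Measure M} [IsFiniteMeasure ν]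
    {u : M → ℝ} (hu : Integrable u ν) {E D : ℝ} (hE : 0 ≤ E) (h1 : ∀ x, u x ≤ E)
    (h2 : -D ≤ ∫ x, u x ∂ν) : ∫ x, |u x| ∂ν ≤ 2 * E * ν.real Set.univ + D := by
  have h3 : ∫ x, |u x| ∂ν ≤ ∫ x, (2 * E - u x) ∂ν := by
    refine integral_mono hu.abs ((integrable_const _).sub hu) fun x => ?_
    simp only []
    have := h1 x
    rcases abs_cases (u x) with ⟨h, _⟩ | ⟨h, _⟩ <;> rw [h] <;> linarith
  rw [integral_sub (integrable_const _) hu, integral_const, smul_eq_mul] at h3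
  linarith [h3, mul_comm (ν.real Set.univ) (2 * E)]

end CoreA

end

end Pool.Agent.KS
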