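import Pool.Agent.KS.CoreAux

/-!
# The core inequality (module CORE)
-/

namespace Pool.Agent.KS

open MeasureTheory Complex Topology
open scoped ContDiff Matrix ComplexOrder ComplexConjugate Manifold

noncomputable section

namespace CSurf

open CoreA

section Fixed

variable {M ι : Type} [TopologicalSpace M] {S : CSurf M ι} {φ : ι → C2 → ℝ} {k N : ℕ}
  {s : Fin N → ι → C2 → ℂ} {w : Fin N → ℝ}

/-- Bergman function -/
def rho (S : CSurf M ι) (φ : ι → C2 → ℝ) (k : ℕ) (s : Fin N → ι → C2 → ℂ) (x : M) : ℝ :=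
  Real.pi ^ 2 / k ^ 2 * S.ws φ k s (fun _ => 1) x

/-- weighted Bergman function -/
def nn (S : CSurf M ι) (φ : ι → C2 → ℝ) (k : ℕ) (s : Fin N → ι → C2 → ℂ) (w : Fin N → ℝ)
    (x : M) : ℝ :=
  Real.pi ^ 2 / k ^ 2 * S.ws φ k s (fun a => w a / k) x

/-- cut-off test function -/
def psi (S : CSurf M ι) (φ : ι → C2 → ℝ) (k : ℕ) (s : Fin N → ι → C2 → ℂ) (w : Fin N → ℝ)
    (x : M) : ℝ := S.nn φ k s w x * hh (S.rho φ k s x)

/-- Fubini-Study potential -/
def phi0 (S : CSurf M ι) (φ : ι → C2 → ℝ) (k : ℕ) (s : Fin N → ι → C2 → ℂ) (x : M) : ℝ :=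
  (1 / k) * Real.log (S.rho φ k s x)

/-- the test function -/
def ff (S : CSurf M ι) (φ : ι → C2 → ℝ) (k : ℕ) (s : Fin N → ι → C2 → ℂ) (w : Fin N → ℝ)
    (x : M) : ℝ := S.nn φ k s w x / S.rho φ k s x

lemma ws_term_nonneg (a : Fin N) (x : M) : 0 ≤ ‖s a (S.idx x) (S.ch (S.idx x) x)‖ ^ 2
    * Real.exp (-k * φ (S.idx x) (S.ch (S.idx x) x)) := by positivity

lemma sm_rho (hφ : S.IsFrm φ) (hs : S.IsSec φ k s) : S.Sm (S.rho φ k s) :=
  (hs.sm_ws hφ _).const_mul _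

lemma sm_nn (hφ : S.IsFrm φ) (hs : S.IsSec φ k s) : S.Sm (S.nn φ k s w) :=
  (hs.sm_ws hφ _).const_mul _

lemma rho_pos (hk : 0 < k) (hpos : ∀ x, 0 < S.ws φ k s (fun _ => 1) x) (x : M) :
    0 < S.rho φ k s x := by
  have := hpos x
  have hk' : (0 : ℝ) < k := by exact_mod_cast hk
  unfold rho
  positivity

lemma nn_nonneg (hw : ∀ a, 0 ≤ w a) (x : M) : 0 ≤ S.nn φ k s w x := by
  unfold nn ws
  refine mul_nonneg (by positivity) (Finset.sum_nonneg fun a _ => ?_)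
  exact mul_nonneg (div_nonneg (hw a) (by positivity)) (ws_term_nonneg a x)

lemma nn_le (hk : 0 < k) {c : ℝ} (hw : ∀ a, w a ≤ k * c) (x : M) :
    S.nn φ k s w x ≤ c * S.rho φ k s x := by
  have hk' : (0 : ℝ) < k := by exact_mod_cast hk
  unfold nn rho ws
  rw [mul_left_comm c]
  refine mul_le_mul_of_nonneg_left ?_ (by positivity)
  rw [Finset.mul_sum]
  refine Finset.sum_le_sum fun a _ => ?_
  rw [one_mul]
  refine mul_le_mul_of_nonneg_right ?_ (ws_term_nonneg a x)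
  rw [div_le_iff₀ hk', mul_comm]
  exact hw a

lemma sm_phi0 (hφ : S.IsFrm φ) (hk : 0 < k) (hs : S.IsSec φ k s)
    (hpos : ∀ x, 0 < S.ws φ k s (fun _ => 1) x) : S.Sm (S.phi0 φ k s) :=
  ((sm_rho hφ hs).log (rho_pos hk hpos)).const_mul _

lemma sm_psi (hφ : S.IsFrm φ) (hs : S.IsSec φ k s) : S.Sm (S.psi φ k s w) :=
  (sm_nn hφ hs).mul ((sm_rho hφ hs).comp fun _ => hh_smooth.contDiffAt)

lemma sm_ff (hφ : S.IsFrm φ) (hk : 0 < k) (hs : S.IsSec φ k s)
    (hpos : ∀ x, 0 < S.ws φ k s (fun _ => 1) x) : S.Sm (S.ff φ k s w) :=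
  (sm_nn hφ hs).div (sm_rho hφ hs) fun x => (rho_pos hk hpos x).ne'

lemma fsu_zero : S.fsu φ k s w 0 = S.phi0 φ k s := by
  funext x
  simp [fsu, phi0, rho]

lemma td_fsu_zero (hφ : S.IsFrm φ) (hk : 0 < k) (hs : S.IsSec φ k s)
    (hpos : ∀ x, 0 < S.ws φ k s (fun _ => 1) x) : td (S.fsu φ k s w) 0 = S.ff φ k s w := by
  have hk' : (0 : ℝ) < k := by exact_mod_cast hk
  funext x
  rw [td_fsu hφ hk hs hpos w 0 x]
  simp only [zero_mul, Real.exp_zero, one_mul]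
  have h1 : S.ws φ k s (fun a => w a / k) x = (1 / k) * S.ws φ k s w x := by
    unfold ws
    rw [Finset.mul_sum]
    refine Finset.sum_congr rfl fun a _ => ?_
    ring
  have h2 := hpos x
  unfold ff nn rho
  rw [h1]
  have hpi := Real.pi_pos
  field_simp

lemma ff_bounds (hk : 0 < k) (hpos : ∀ x, 0 < S.ws φ k s (fun _ => 1) x) {c : ℝ}
    (hw : ∀ a, 0 ≤ w a ∧ w a ≤ k * c) (x : M) : 0 ≤ S.ff φ k s w x ∧ S.ff φ k s w x ≤ c := by
  have h := rho_pos (φ := φ) hk hpos x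
  refine ⟨div_nonneg (nn_nonneg (fun a => (hw a).1) x) h.le, ?_⟩
  rw [ff, div_le_iff₀ h]
  exact nn_le hk (fun a => (hw a).2) x

lemma psi_bounds (hk : 0 < k) (hpos : ∀ x, 0 < S.ws φ k s (fun _ => 1) x) 
    (hw : ∀ a, 0 ≤ w a) (x : M) : 0 ≤ S.psi φ k s w x ∧ S.psi φ k s w x ≤ S.ff φ k s w x := by
  have h := rho_pos (φ := φ) hk hpos x
  have hn := nn_nonneg (S := S) (φ := φ) (k := k) (s := s) hw x
  refine ⟨mul_nonneg hn (hh_nonneg h.le), ?_⟩
  unfold psi ff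
  rw [div_eq_mul_one_div]
  exact mul_le_mul_of_nonneg_left (hh_le h) hn

lemma psi_eq (x : M) (h : 3 / 4 ≤ S.rho φ k s x) : S.psi φ k s w x = S.ff φ k s w x := by
  unfold psi ff
  rw [hh_eq h, mul_one_div]

lemma psi_eq_zero (x : M) (h : S.rho φ k s x ≤ 1 / 2) : S.psi φ k s w x = 0 := by
  unfold psi
  rw [hh_zero h, mul_zero]

/-- bound of `den` in a chart -/
lemma den_bound {A B : ι → C2 → ℝ} (hφ : S.IsKah φ) (hA : S.IsFrm A) (hB : S.IsFrm B) (i : ι)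
    {x : M} (hx : x ∈ (S.ch i).source) {D0 a b : ℝ} (hD : 1 / dt (φ i) (S.ch i x) ≤ D0)
    (ha : ∀ j l, ‖cHess (A i) (S.ch i x) j l‖ ≤ a) (hb : ∀ j l, ‖cHess (B i) (S.ch i x) j l‖ ≤ b) :
    |S.den φ A B x| ≤ 2 * a * b * D0 := by
  have hpos : 0 < dt (φ i) (S.ch i x) := hφ.dt_pos i ((S.ch i).map_source hx)
  rw [den_eq hφ hA hB i hx, abs_div, abs_of_pos hpos, div_eq_mul_one_div]
  have ha0 : 0 ≤ a := (norm_nonneg _).trans (ha 0 0)
  have hb0 : 0 ≤ b := (norm_nonneg _).trans (hb 0 0)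
  exact mul_le_mul (abs_mdet_le ha hb) hD (by positivity) (by positivity)

/-- uniform bounds over a compact cover -/
lemma unif_K [Fintype ι] {E : Type} [NormedAddCommGroup E] {K : ι → Set C2}
    (hK : ∀ i, IsCompact (K i)) (f : ι → C2 → E) (hf : ∀ i, ContinuousOn (f i) (K i)) :
    ∃ B : ℝ, 0 ≤ B ∧ ∀ i, ∀ z ∈ K i, ‖f i z‖ ≤ B := by
  choose B hB using fun i => (hK i).exists_bound_of_continuousOn (hf i)
  refine ⟨∑ i, |B i|, Finset.sum_nonneg fun i _ => abs_nonneg _, fun i z hz => ?_⟩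
  exact (hB i z hz).trans ((le_abs_self _).trans
    (Finset.single_le_sum (f := fun i => |B i|) (fun i _ => abs_nonneg _) (Finset.mem_univ i)))

lemma unif_cHess [Fintype ι] {K : ι → Set C2} (hK : ∀ i, IsCompact (K i))
    (hKt : ∀ i, K i ⊆ (S.ch i).target) {A : ι → C2 → ℝ} (hA : S.IsFrm A) :
    ∃ B : ℝ, 0 ≤ B ∧ ∀ i, ∀ z ∈ K i, ∀ j l, ‖cHess (A i) z j l‖ ≤ B := by
  obtain ⟨B, hB0, hB⟩ := unif_K hK (fun i z => fun j l => cHess (A i) z j l) (fun i => by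
    refine continuousOn_pi.mpr fun j => continuousOn_pi.mpr fun l => ?_
    exact (contDiffOn_cHess (S.ch i).open_target j l (hA.smooth i)).continuousOn.mono (hKt i))
  refine ⟨B, hB0, fun i z hz j l => ?_⟩
  exact ((norm_le_pi_norm _ l).trans (norm_le_pi_norm _ j)).trans (hB i z hz)

/-- the second form in the comparison of the volumes -/
def BB (S : CSurf M ι) (φ : ι → C2 → ℝ) (k : ℕ) (s : Fin N → ι → C2 → ℂ) : ι → C2 → ℝ :=
  (2 : ℝ) • φ + S.fnF (S.phi0 φ k s)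

lemma isFrm_BB (hφ : S.IsFrm φ) (hk : 0 < k) (hs : S.IsSec φ k s)
    (hpos : ∀ x, 0 < S.ws φ k s (fun _ => 1) x) : S.IsFrm (S.BB φ k s) :=
  (hφ.smul 2).add (isFrm_fnF (sm_phi0 hφ hk hs hpos))

lemma Sm.at2 {u : M → ℝ} (hu : S.Sm u) (i : ι) {z : C2} (hz : z ∈ (S.ch i).target) :
    ContDiffAt ℝ 2 (S.fnF u i) z :=
  ((hu i).contDiffAt ((S.ch i).open_target.mem_nhds hz)).of_le two_le_inf

lemma cHess_BB (hφ : S.IsFrm φ) (hk : 0 < k) (hs : S.IsSec φ k s)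
    (hpos : ∀ x, 0 < S.ws φ k s (fun _ => 1) x) (i : ι) {z : C2} (hz : z ∈ (S.ch i).target)
    {G G0 : ℝ} (hG : 0 ≤ G) (h0 : ∀ j l, ‖cHess (φ i) z j l‖ ≤ G0)
    (hρ1 : ∀ j, ‖gz j (S.fnF (S.rho φ k s) i) z‖ ≤ G)
    (hρ2 : ∀ j l, ‖cHess (S.fnF (S.rho φ k s) i) z j l‖ ≤ G ^ 2)
    (hρ : 1 / 2 ≤ S.rho φ k s ((S.ch i).symm z)) (j l : Fin 2) :
    ‖cHess (S.BB φ k s i) z j l‖ ≤ 2 * G0 + 6 * (1 / k) * G ^ 2 := by
  have h1 : ContDiffAt ℝ 2 (φ i) z :=
    ((hφ.smooth i).contDiffAt ((S.ch i).open_target.mem_nhds hz)).of_le two_le_inf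
  have h2 := (sm_phi0 hφ hk hs hpos).at2 i hz
  have h3 : S.BB φ k s i = fun y => (2 : ℝ) * φ i y + S.fnF (S.phi0 φ k s) i y := by
    funext y
    simp [BB]
  rw [h3, cHess_add (contDiffAt_const.mul h1) h2, cHess_const_mul 2 h1, Matrix.add_apply,
    Matrix.smul_apply, smul_eq_mul]
  refine (norm_add_le _ _).trans (add_le_add ?_ ?_)
  · rw [norm_mul, Complex.norm_real]
    refine mul_le_mul (by simp) (h0 j l) (norm_nonneg _) (by norm_num)
  · exact cHess_log_bound (ρ := S.fnF (S.rho φ k s) i) ((sm_rho hφ hs).at2 i hz) hG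
      (by positivity) hρ1 hρ2 hρ j l

lemma cHess_psi (hφ : S.IsFrm φ) (hs : S.IsSec φ k s) (i : ι) {z : C2}
    (hz : z ∈ (S.ch i).target) {G c N0 H : ℝ} (hG : 0 ≤ G) (hc : 0 ≤ c) (hH : 0 ≤ H)
    (hn1 : ∀ j, ‖gz j (S.fnF (S.nn φ k s w) i) z‖ ≤ c * G)
    (hn2 : ∀ j l, ‖cHess (S.fnF (S.nn φ k s w) i) z j l‖ ≤ c * G ^ 2)
    (hρ1 : ∀ j, ‖gz j (S.fnF (S.rho φ k s) i) z‖ ≤ G)
    (hρ2 : ∀ j l, ‖cHess (S.fnF (S.rho φ k s) i) z j l‖ ≤ G ^ 2)
    (hn0 : |S.nn φ k s w ((S.ch i).symm z)| ≤ N0)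
    (hh : |hh (S.rho φ k s ((S.ch i).symm z))| ≤ H ∧
      |deriv hh (S.rho φ k s ((S.ch i).symm z))| ≤ H ∧
      |deriv (deriv CoreA.hh) (S.rho φ k s ((S.ch i).symm z))| ≤ H) (j l : Fin 2) :
    ‖cHess (S.fnF (S.psi φ k s w) i) z j l‖ ≤ (2 * N0 * H + 3 * c * H) * G ^ 2 :=
  cHess_prod_bound (n := S.fnF (S.nn φ k s w) i) (ρ := S.fnF (S.rho φ k s) i)
    ((sm_nn hφ hs).at2 i hz) ((sm_rho hφ hs).at2 i hz) hG hc hH hn1 hn2 hρ1 hρ2 hn0 hh.1 hh.2.1
    hh.2.2 j l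

lemma den_psi_zero (hφ : S.IsFrm φ) (hs : S.IsSec φ k s) (B : ι → C2 → ℝ) {x : M}
    (hx : S.rho φ k s x < 1 / 2) : S.den φ (S.fnF (S.psi φ k s w)) B x = 0 := by
  have hmem := S.idx_mem x
  have hz : S.ch (S.idx x) x ∈ (S.ch (S.idx x)).target := (S.ch (S.idx x)).map_source hmem
  have hc : ContinuousAt (S.fnF (S.rho φ k s) (S.idx x)) (S.ch (S.idx x) x) :=
    ((sm_rho hφ hs).at2 _ hz).continuousAt
  have h0 : S.fnF (S.rho φ k s) (S.idx x) (S.ch (S.idx x) x) < 1 / 2 := by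
    unfold fnF
    rw [(S.ch (S.idx x)).left_inv hmem]
    exact hx
  have h1 : S.fnF (S.psi φ k s w) (S.idx x) =ᶠ[𝓝 (S.ch (S.idx x) x)] fun _ => (0 : ℝ) := by
    filter_upwards [hc.eventually (gt_mem_nhds h0)] with y hy
    exact psi_eq_zero _ hy.le
  unfold den Dm
  rw [cHess_congr h1, cHess_const]
  simp [mdet]

/-- the error of the Bergman expansion -/
def uu (S : CSurf M ι) (φ : ι → C2 → ℝ) (k : ℕ) (s : Fin N → ι → C2 → ℂ) (x : M) : ℝ :=
  S.rho φ k s x - 1 - S.shM φ x / k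

/-- the error of the potential -/
def rr (S : CSurf M ι) (φ : ι → C2 → ℝ) (k : ℕ) (s : Fin N → ι → C2 → ℂ) (x : M) : ℝ :=
  S.phi0 φ k s x - 1 / k ^ 2 * S.shM φ x

/-- Monge-Ampere density of the Fubini-Study form -/
def DD (S : CSurf M ι) (φ : ι → C2 → ℝ) (k : ℕ) (s : Fin N → ι → C2 → ℂ) (x : M) : ℝ :=
  S.den φ (φ + S.fnF (S.phi0 φ k s)) (φ + S.fnF (S.phi0 φ k s)) x

lemma DD_sub (hφ : S.IsKah φ) (hk : 0 < k) (hs : S.IsSec φ k s)
    (hpos : ∀ x, 0 < S.ws φ k s (fun _ => 1) x) (x : M) :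
    S.DD φ k s x - 1 = S.den φ (S.fnF (S.phi0 φ k s)) (S.BB φ k s) x := by
  have hφ' := hφ.toIsFrm
  have hF := isFrm_fnF (sm_phi0 hφ' hk hs hpos)
  unfold DD BB
  set F := S.fnF (S.phi0 φ k s) with hFdef
  have e1 : S.den φ (φ + F) (φ + F) x = S.den φ φ (φ + F) x + S.den φ F (φ + F) x :=
    den_add_left hφ' hF x
  have e2 : S.den φ φ (φ + F) x = S.den φ φ φ x + S.den φ F φ x := by
    rw [den_comm φ φ (φ + F)]
    exact den_add_left hφ' hF x
  have e3 : S.den φ F (φ + F) x = S.den φ φ F x + S.den φ F F x := by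
    rw [den_comm φ F (φ + F)]
    exact den_add_left hφ' hF x
  have e4 : S.den φ F φ x = S.den φ φ F x := by rw [den_comm φ F φ]
  have e5 : S.den φ F ((2 : ℝ) • φ + F) x = S.den φ ((2 : ℝ) • φ) F x + S.den φ F F x := by
    rw [den_comm φ F ((2 : ℝ) • φ + F)]
    exact den_add_left (hφ'.smul 2) hF x
  have e6 : S.den φ ((2 : ℝ) • φ) F x = 2 * S.den φ φ F x := den_smul_left 2 hφ' x
  rw [e5, e6, e1, e2, e3, e4, den_self hφ x]
  ring

lemma DD_nonneg (hφ : S.IsKah φ) (hk : 0 < k) (hs : S.IsSec φ k s)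
    (hpos : ∀ x, 0 < S.ws φ k s (fun _ => 1) x) (x : M) : 0 ≤ S.DD φ k s x := by
  have h : ∀ i, ∀ z ∈ (S.ch i).target, (cHess ((φ + S.fnF (S.phi0 φ k s)) i) z).PosSemidef := by
    intro i z hz
    have := posSemidef_fsu hφ.toIsFrm hk hs hpos (fun _ => 0) 0 i z hz
    rwa [fsu_zero] at this
  exact den_nonneg hφ h h x

lemma sm_DD (hφ : S.IsKah φ) (hk : 0 < k) (hs : S.IsSec φ k s)
    (hpos : ∀ x, 0 < S.ws φ k s (fun _ => 1) x) : S.Sm (S.DD φ k s) := by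
  have h := hφ.toIsFrm.add (isFrm_fnF (sm_phi0 hφ.toIsFrm hk hs hpos))
  exact sm_den hφ h h

lemma sm_uu (hφ : S.IsKah φ) (hs : S.IsSec φ k s) : S.Sm (S.uu φ k s) := by
  have h := ((sm_rho hφ.toIsFrm hs).sub (Sm.const 1)).sub ((sm_shM hφ).const_mul (1 / k))
  have h2 : S.uu φ k s = fun x => S.rho φ k s x - 1 - 1 / k * S.shM φ x := by
    funext x
    unfold uu
    ring
  rw [h2]
  exact h

lemma sm_rr (hφ : S.IsKah φ) (hk : 0 < k) (hs : S.IsSec φ k s)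
    (hpos : ∀ x, 0 < S.ws φ k s (fun _ => 1) x) : S.Sm (S.rr φ k s) :=
  (sm_phi0 hφ.toIsFrm hk hs hpos).sub ((sm_shM hφ).const_mul _)

/-- pointwise estimate off the region where the cut-off is one -/
lemma off_est (hφ : S.IsKah φ) (hk : 0 < k) (hs : S.IsSec φ k s)
    (hpos : ∀ x, 0 < S.ws φ k s (fun _ => 1) x) {c S0 : ℝ}
    (hw : ∀ a, 0 ≤ w a ∧ w a ≤ k * c) (hS : ∀ x, |S.shM φ x| ≤ S0) (hkS : 8 * S0 ≤ k) (x : M) :
    (S.ff φ k s w x - S.psi φ k s w x) * (1 - S.DD φ k s x) ≤ 8 * c * |S.uu φ k s x| := by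
  have hk' : (0 : ℝ) < k := by exact_mod_cast hk
  have hf := ff_bounds hk hpos hw (φ := φ) x
  have hp := psi_bounds hk hpos (fun a => (hw a).1) (φ := φ) x
  have hD := DD_nonneg hφ hk hs hpos x
  have hc : 0 ≤ c := hf.1.trans hf.2
  by_cases h : 3 / 4 ≤ S.rho φ k s x
  · rw [psi_eq x h, sub_self, zero_mul]
    positivity
  · push Not at h
    have h1 : (S.ff φ k s w x - S.psi φ k s w x) * (1 - S.DD φ k s x) ≤ c := by
      nlinarith [mul_nonneg (sub_nonneg.mpr hp.2) hD]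
    have h2 : |S.shM φ x / k| ≤ 1 / 8 := by
      rw [abs_div, abs_of_pos hk', div_le_iff₀ hk']
      have := hS x
      linarith
    have h3 : 1 / 8 ≤ |S.uu φ k s x| := by
      have h4 := (abs_le.mp h2).1
      have h5 : S.uu φ k s x ≤ -(1 / 8) := by
        unfold uu
        linarith
      rw [abs_of_nonpos (by linarith)]
      linarith
    nlinarith

/-- pointwise estimate of the remainder of the potential -/
lemma rr_est (hk : 0 < k) {S0 : ℝ} (hS : ∀ x, |S.shM φ x| ≤ S0) (hkS : 8 * S0 ≤ k)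
    {x : M} (hx : 1 / 2 ≤ S.rho φ k s x) :
    |S.rr φ k s x| ≤ (2 / k) * (|S.uu φ k s x| + S0 ^ 2 / k ^ 2) := by
  have hk' : (0 : ℝ) < k := by exact_mod_cast hk
  have h2 : |S.shM φ x / k| ≤ 1 / 2 := by
    rw [abs_div, abs_of_pos hk', div_le_iff₀ hk']
    have := hS x
    linarith
  have h3 := log_est hx h2
  have h4 : S.rr φ k s x = (1 / k) * (Real.log (S.rho φ k s x) - S.shM φ x / k) := by
    unfold rr phi0
    field_simp
  have h5 : (S.shM φ x / k) ^ 2 ≤ S0 ^ 2 / k ^ 2 := by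
    rw [div_pow]
    refine div_le_div_of_nonneg_right ?_ (by positivity)
    exact sq_le_sq' (abs_le.mp (hS x)).1 (abs_le.mp (hS x)).2
  rw [h4, abs_mul, abs_of_pos (by positivity : (0 : ℝ) < 1 / k)]
  calc 1 / (k : ℝ) * |Real.log (S.rho φ k s x) - S.shM φ x / k|
      ≤ 1 / (k : ℝ) * (2 * |S.uu φ k s x| + 2 * (S0 ^ 2 / k ^ 2)) := by
        refine mul_le_mul_of_nonneg_left (h3.trans ?_) (by positivity)
        unfold uu
        linarith
    _ = _ := by ring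

section Measure

variable [MeasurableSpace M] [BorelSpace M] [CompactSpace M] [T2Space M] [Fintype ι]
  {ν : Measure M}

/-- comparison of the volumes tested against `f` -/
lemma est_I (hφ : S.IsKah φ) (hν : S.IsVolF φ ν) (hk : 0 < k) (hs : S.IsSec φ k s)
    (hpos : ∀ x, 0 < S.ws φ k s (fun _ => 1) x) {c S0 P q Q : ℝ}
    (hw : ∀ a, 0 ≤ w a ∧ w a ≤ k * c) (hS : ∀ x, |S.shM φ x| ≤ S0) (hkS : 8 * S0 ≤ k)
    (h1 : ∀ x, |S.rr φ k s x * S.den φ (S.fnF (S.psi φ k s w)) (S.BB φ k s) x|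
      ≤ P * (|S.uu φ k s x| + q))
    (h2 : ∀ x, |S.psi φ k s w x * S.den φ (S.fnF (S.shM φ)) (S.BB φ k s) x| ≤ Q) :
    ∫ x, S.ff φ k s w x ∂ν ≤ ∫ x, S.ff φ k s w x * S.DD φ k s x ∂ν
      + (8 * c + P) * ∫ x, |S.uu φ k s x| ∂ν + (P * q + Q / k ^ 2) * ν.real Set.univ := by
  have hfin : IsFiniteMeasure ν := hν.finite hφ
  have hφ' := hφ.toIsFrm
  have hk' : (0 : ℝ) < k := by exact_mod_cast hk
  have hB := isFrm_BB hφ' hk hs hpos
  have sff := sm_ff (w := w) hφ' hk hs hpos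
  have spsi := sm_psi (w := w) hφ' hs
  have sDD := sm_DD hφ hk hs hpos
  have sphi := sm_phi0 hφ' hk hs hpos
  have ssh := sm_shM hφ
  have sd1 := sm_den hφ (isFrm_fnF spsi) hB
  have sd2 := sm_den hφ (isFrm_fnF ssh) hB
  have srr := sm_rr hφ hk hs hpos
  have suu := sm_uu hφ hs
  have int : ∀ {u : M → ℝ}, S.Sm u → Integrable u ν := fun hu =>
    integrable_of_sm hφ hν hu.continuous
  -- the identity
  have I1 : ∫ x, S.psi φ k s w x * (S.DD φ k s x - 1) ∂ν =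
      ∫ x, S.rr φ k s x * S.den φ (S.fnF (S.psi φ k s w)) (S.BB φ k s) x ∂ν +
        1 / k ^ 2 * ∫ x, S.psi φ k s w x * S.den φ (S.fnF (S.shM φ)) (S.BB φ k s) x ∂ν := by
    have e1 : ∫ x, S.psi φ k s w x * (S.DD φ k s x - 1) ∂ν =
        ∫ x, S.psi φ k s w x * S.den φ (S.fnF (S.phi0 φ k s)) (S.BB φ k s) x ∂ν :=
      integral_congr_ae (Filter.Eventually.of_forall fun x => by
        simp only [DD_sub hφ hk hs hpos x])
    rw [e1, gibp hφ hν spsi sphi hB, gibp hφ hν spsi ssh hB, ← integral_const_mul,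
      ← integral_add (int (srr.mul sd1)) ((int (ssh.mul sd1)).const_mul _)]
    refine integral_congr_ae (Filter.Eventually.of_forall fun x => ?_)
    simp only [rr]
    ring
  have I2 : ∫ x, S.ff φ k s w x ∂ν = ∫ x, S.ff φ k s w x * S.DD φ k s x ∂ν -
      ∫ x, S.psi φ k s w x * (S.DD φ k s x - 1) ∂ν +
        ∫ x, (S.ff φ k s w x - S.psi φ k s w x) * (1 - S.DD φ k s x) ∂ν := by
    have t1 := int (sff.mul sDD)
    have t2 := int (spsi.mul (sDD.sub (Sm.const 1)))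
    have t3 := int ((sff.sub spsi).mul ((Sm.const 1).sub sDD))
    have t12 : Integrable (fun x => S.ff φ k s w x * S.DD φ k s x -
      S.psi φ k s w x * (S.DD φ k s x - 1)) ν := t1.sub t2
    rw [← integral_sub t1 t2, ← integral_add t12 t3]
    refine integral_congr_ae (Filter.Eventually.of_forall fun x => ?_)
    simp only []
    ring
  have I3 : ∫ x, (S.ff φ k s w x - S.psi φ k s w x) * (1 - S.DD φ k s x) ∂ν ≤
      8 * c * ∫ x, |S.uu φ k s x| ∂ν := by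
    rw [← integral_const_mul]
    exact integral_mono (int ((sff.sub spsi).mul ((Sm.const 1).sub sDD)))
      ((int suu).abs.const_mul _) fun x => off_est hφ hk hs hpos hw hS hkS x
  have I4 : |∫ x, S.rr φ k s x * S.den φ (S.fnF (S.psi φ k s w)) (S.BB φ k s) x ∂ν| ≤
      P * (∫ x, |S.uu φ k s x| ∂ν) + P * q * ν.real Set.univ := by
    refine (abs_integral_le_integral_abs).trans ?_
    have hsum : Integrable (fun x => |S.uu φ k s x| + q) ν :=
      (int suu).abs.add (integrable_const q)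
    refine (integral_mono (int (srr.mul sd1)).abs (hsum.const_mul P) fun x => h1 x).trans ?_
    rw [integral_const_mul, integral_add (int suu).abs (integrable_const q), integral_const,
      smul_eq_mul]
    apply le_of_eq
    ring
  have I5 : |∫ x, S.psi φ k s w x * S.den φ (S.fnF (S.shM φ)) (S.BB φ k s) x ∂ν| ≤
      Q * ν.real Set.univ := by
    refine (abs_integral_le_integral_abs).trans ?_
    refine (integral_mono (int (spsi.mul sd2)).abs (integrable_const Q) fun x => h2 x).trans ?_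
    rw [integral_const, smul_eq_mul, mul_comm]
  have I6 : 1 / (k : ℝ) ^ 2 * ∫ x, S.psi φ k s w x * S.den φ (S.fnF (S.shM φ)) (S.BB φ k s) x ∂ν
      ≥ - (1 / (k : ℝ) ^ 2 * (Q * ν.real Set.univ)) := by
    have := mul_le_mul_of_nonneg_left (neg_le_of_abs_le I5)
      (by positivity : (0 : ℝ) ≤ 1 / (k : ℝ) ^ 2)
    linarith
  have I7 := neg_le_of_abs_le I4
  rw [I2, I1]
  have e : (P * q + Q / (k : ℝ) ^ 2) * ν.real Set.univ =
      P * q * ν.real Set.univ + 1 / (k : ℝ) ^ 2 * (Q * ν.real Set.univ) := by ring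
  rw [e]
  linarith

/-- integrals of weighted sums -/
lemma integral_ws (hφ : S.IsKah φ) (hν : S.IsVolF φ ν) (hs : S.IsSec φ k s)
    (ho : S.Ortho φ ν k s) (c : Fin N → ℝ) : ∫ x, S.ws φ k s c x ∂ν = ∑ a, c a := by
  have hfin : IsFiniteMeasure ν := hν.finite hφ
  have h1 : ∀ a b, Integrable (S.pr φ k s a b) ν := by
    intro a b
    have hc := hs.continuous_pr hφ.toIsFrm a b
    have hre := integrable_of_sm hφ hν (Complex.continuous_re.comp hc)
    have him := integrable_of_sm hφ hν (Complex.continuous_im.comp hc)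
    have := (hre.ofReal (𝕜 := ℂ)).add ((him.ofReal (𝕜 := ℂ)).mul_const I)
    refine this.congr (Filter.Eventually.of_forall fun x => ?_)
    simp [Complex.re_add_im]
  have h2 : ∀ x, S.ws φ k s c x = ∑ a, c a * (S.pr φ k s a a x).re := fun x => ws_eq_pr c x
  simp only [h2]
  rw [integral_finsetSum Finset.univ (f := fun a x => c a * (S.pr φ k s a a x).re)
    fun a _ => (h1 a a).re.const_mul (c a)]
  refine Finset.sum_congr rfl fun a _ => ?_
  rw [integral_const_mul]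
  have h3 : ∫ x, (S.pr φ k s a a x).re ∂ν = (∫ x, S.pr φ k s a a x ∂ν).re :=
    integral_re (h1 a a)
  rw [h3, ho a a, if_pos rfl]
  simp

end Measure

/-- derivative bounds for the weighted Bergman function -/
lemma nn_scale (hφ : S.IsFrm φ) (hs : S.IsSec φ k s) {c : ℝ} (hc : 0 < c) (i : ι) {z : C2}
    (hz : z ∈ (S.ch i).target) {a b : ℝ}
    (h1 : ∀ j, ‖gz j (S.fnF (fun x => Real.pi ^ 2 / k ^ 2 *
      S.ws φ k s (fun a => w a / (k * c)) x) i) z‖ ≤ a)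
    (h2 : ∀ j l, ‖cHess (S.fnF (fun x => Real.pi ^ 2 / k ^ 2 *
      S.ws φ k s (fun a => w a / (k * c)) x) i) z j l‖ ≤ b) :
    (∀ j, ‖gz j (S.fnF (S.nn φ k s w) i) z‖ ≤ c * a) ∧
    (∀ j l, ‖cHess (S.fnF (S.nn φ k s w) i) z j l‖ ≤ c * b) := by
  set v : M → ℝ := fun x => Real.pi ^ 2 / k ^ 2 * S.ws φ k s (fun a => w a / (k * c)) x with hv
  have hvs : S.Sm v := (hs.sm_ws hφ _).const_mul _
  have h3 : S.fnF (S.nn φ k s w) i = fun y => c * S.fnF v i y := by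
    funext y
    simp only [fnF, nn, hv, ws]
    rw [mul_left_comm c]
    congr 1
    rw [Finset.mul_sum]
    refine Finset.sum_congr rfl fun a _ => ?_
    field_simp
  have h4 := hvs.at2 i hz
  have h5 : DifferentiableAt ℝ (S.fnF v i) z := h4.differentiableAt (by norm_num)
  rw [h3]
  refine ⟨fun j => ?_, fun j l => ?_⟩
  · have h6 : gz j (fun y => c * S.fnF v i y) z = (c : ℂ) * gz j (S.fnF v i) z := by
      unfold gz
      have h7 : (fun w => ((c * S.fnF v i w : ℝ) : ℂ)) =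
          fun w => (c : ℂ) * ((S.fnF v i w : ℝ) : ℂ) := by
        funext w
        push_cast
        rfl
      rw [h7, dz_const_mul]
      exact (Complex.ofRealCLM.differentiableAt).comp z h5
    rw [h6, norm_mul, Complex.norm_real, Real.norm_of_nonneg hc.le]
    exact mul_le_mul_of_nonneg_left (h1 j) hc.le
  · rw [cHess_const_mul c h4, Matrix.smul_apply, smul_eq_mul, norm_mul, Complex.norm_real,
      Real.norm_of_nonneg hc.le]
    exact mul_le_mul_of_nonneg_left (h2 j l) hc.le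

end Fixed

lemma final_arith {g k q A A1 X V c P Q S0 Ca b0 b1 Fi Ni Ui Fd ε : ℝ} (hk : 0 < k) (hq : 0 < q)
    (hqq : q ^ 2 = k) (hq1 : 1 ≤ q) (hc : 0 ≤ c) (hP : 0 ≤ P) (hQ : 0 ≤ Q) (hV : 0 ≤ V)
    (hg : 0 ≤ g) (hCa : 0 ≤ Ca) (F4 : Ui ≤ A1 / (k * q))
    (F5 : Fi ≤ Fd + (8 * c + P) * Ui + (P * (S0 ^ 2 / k ^ 2) + Q / k ^ 2) * V)
    (F6 : Fd ≤ g * b0) (F8 : Ni ≤ Fi + (1 / k) * X + c * Ui)
    (L1 : g * b0 + g * b1 / k - g * Ca / k ^ 2 ≤ Ni)
    (hA : A = (8 * c + P) * A1 + (P * S0 ^ 2 + Q) * V + c * A1 + g * Ca)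
    (hkA : (A / ε) ^ 2 ≤ k) (hsq : q = Real.sqrt k) (hε : 0 < ε) : g * b1 - ε ≤ X := by
  have hcmp : k ^ 2 = k * q * q := by rw [mul_assoc, ← sq, hqq, sq]
  have hkk : (1 : ℝ) / k ^ 2 ≤ 1 / (k * q) := by
    refine div_le_div_of_nonneg_left (by norm_num) (by positivity) ?_
    rw [hcmp]
    exact le_mul_of_one_le_right (by positivity) hq1
  have L2 : g * b1 / k ≤ 1 / k * X + A / (k * q) := by
    have e1 : (8 * c + P) * Ui ≤ (8 * c + P) * (A1 / (k * q)) :=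
      mul_le_mul_of_nonneg_left F4 (by positivity)
    have e2 : c * Ui ≤ c * (A1 / (k * q)) :=
      mul_le_mul_of_nonneg_left F4 hc
    have e3 : (P * (S0 ^ 2 / k ^ 2) + Q / k ^ 2) * V ≤ (P * S0 ^ 2 + Q) * V * (1 / (k * q)) := by
      have : (P * (S0 ^ 2 / k ^ 2) + Q / k ^ 2) * V = (P * S0 ^ 2 + Q) * V * (1 / k ^ 2) := by ring
      rw [this]
      exact mul_le_mul_of_nonneg_left hkk (by positivity)
    have e4 : g * Ca / k ^ 2 ≤ g * Ca * (1 / (k * q)) := by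
      rw [div_eq_mul_one_div]
      exact mul_le_mul_of_nonneg_left hkk (by positivity)
    have e5 : A / (k * q) = (8 * c + P) * (A1 / (k * q)) +
        (P * S0 ^ 2 + Q) * V * (1 / (k * q)) + c * (A1 / (k * q)) +
          g * Ca * (1 / (k * q)) := by
      rw [hA]
      ring
    rw [e5]
    linarith
  have L3 : g * b1 ≤ X + A / q := by
    have h := mul_le_mul_of_nonneg_left L2 hk.le
    have e1 : k * (g * b1 / k) = g * b1 := by field_simp
    have e2 : k * (1 / k * X + A / (k * q)) = X + A / q := by field_simp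
    rw [e1, e2] at h
    exact h
  have L4 : A / q ≤ ε := by
    rw [div_le_iff₀ hq]
    have h1 : A / ε ≤ q := by
      rw [hsq]
      exact Real.le_sqrt_of_sq_le hkA
    rw [div_le_iff₀ hε] at h1
    linarith
  linarith

lemma rho_le_arith {ρ sh S0 C1 k q : ℝ} (hk : 1 ≤ k) (hq : 1 ≤ q) (hS : |sh| ≤ S0)
    (h : ρ ≤ 1 + sh / k + C1 / (k * q)) : ρ ≤ 1 + S0 + |C1| := by
  have hk0 : 0 < k := by linarith
  have hq0 : 0 < q := by linarith
  have hS0 : 0 ≤ S0 := (abs_nonneg _).trans hS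
  have e1 : sh / k ≤ S0 := by
    rw [div_le_iff₀ hk0]
    have := (abs_le.mp hS).2
    nlinarith
  have e2 : C1 / (k * q) ≤ |C1| := by
    rw [div_le_iff₀ (by positivity)]
    have h1 : 1 ≤ k * q := by nlinarith
    have h2 := le_abs_self C1
    nlinarith [abs_nonneg C1]
  linarith

lemma f3_arith {g a0 a1 C k N : ℝ} (hk : 0 < k) (hg : 0 ≤ g)
    (hN : a0 * k ^ 2 + a1 * k - C ≤ N) :
    -(g * |C| / k ^ 2) ≤ g / k ^ 2 * N - g * a0 - g * a1 / k := by
  have e1 : g / k ^ 2 * (a0 * k ^ 2 + a1 * k - C) ≤ g / k ^ 2 * N :=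
    mul_le_mul_of_nonneg_left hN (by positivity)
  have e2 : g / k ^ 2 * (a0 * k ^ 2 + a1 * k - C) = g * a0 + g * a1 / k - g * C / k ^ 2 := by
    field_simp
  have e3 : g * C / k ^ 2 ≤ g * |C| / k ^ 2 :=
    div_le_div_of_nonneg_right (mul_le_mul_of_nonneg_left (le_abs_self _) hg) (by positivity)
  linarith

lemma l1_arith {g b0 b1 C k W : ℝ} (hk : 0 < k) (hg : 0 ≤ g)
    (hW : b0 * k ^ 3 + b1 * k ^ 2 - C * k ≤ W) :
    g * b0 + g * b1 / k - g * |C| / k ^ 2 ≤ g / k ^ 3 * W := by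
  have e1 : g / k ^ 3 * (b0 * k ^ 3 + b1 * k ^ 2 - C * k) ≤ g / k ^ 3 * W :=
    mul_le_mul_of_nonneg_left hW (by positivity)
  have e2 : g / k ^ 3 * (b0 * k ^ 3 + b1 * k ^ 2 - C * k) =
      g * b0 + g * b1 / k - g * C / k ^ 2 := by
    field_simp
  have e3 : g * C / k ^ 2 ≤ g * |C| / k ^ 2 :=
    div_le_div_of_nonneg_right (mul_le_mul_of_nonneg_left (le_abs_self _) hg) (by positivity)
  linarith

lemma f4_arith {U C1 k q V g Ca A1 : ℝ} (hk : 0 < k) (hq : 0 < q)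
    (hqq : q ^ 2 = k) (hq1 : 1 ≤ q) (hg : 0 ≤ g) (hCa : 0 ≤ Ca)
    (h : U ≤ 2 * (C1 / (k * q)) * V + g * Ca / k ^ 2) (hA1 : A1 = 2 * C1 * V + g * Ca) :
    U ≤ A1 / (k * q) := by
  have hcmp : k ^ 2 = k * q * q := by rw [mul_assoc, ← sq, hqq, sq]
  have e2 : g * Ca / k ^ 2 ≤ g * Ca / (k * q) := by
    refine div_le_div_of_nonneg_left (by positivity) (by positivity) ?_
    rw [hcmp]
    exact le_mul_of_one_le_right (by positivity) hq1
  have e3 : A1 / (k * q) = 2 * (C1 / (k * q)) * V + g * Ca / (k * q) := by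
    rw [hA1]
    ring
  rw [e3]
  linarith

variable {M ι : Type} [TopologicalSpace M] [MeasurableSpace M] [BorelSpace M] [CompactSpace M]
  [T2Space M] [Fintype ι] {S : CSurf M ι} {φ : ι → C2 → ℝ} {ν : Measure M}

/-- The core theorem: existence of test functions `0 ≤ f ≤ c` with
`∫ f s ≥ π² b₁ - ε`. -/
theorem core (hφ : S.IsKah φ) (hν : S.IsVolF φ ν) {c a0 a1 b0 b1 : ℝ} (hc : 0 < c)
    (hV : ν.real Set.univ = Real.pi ^ 2 * a0) (hS : ∫ x, S.shM φ x ∂ν = Real.pi ^ 2 * a1)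
    {C : ℝ} {k1 : ℕ}
    (H : ∀ k : ℕ, k1 ≤ k → ∃ (N : ℕ) (s : Fin N → ι → C2 → ℂ) (w : Fin N → ℝ),
      S.IsSec φ k s ∧ S.Ortho φ ν k s ∧ (∀ x, 0 < S.ws φ k s (fun _ => 1) x) ∧
      (∀ a, 0 ≤ w a ∧ w a ≤ k * c) ∧
      a0 * k ^ 2 + a1 * k - C ≤ (N : ℝ) ∧
      b0 * k ^ 3 + b1 * k ^ 2 - C * k ≤ ∑ a, w a ∧
      ∃ C' : ℝ, ∀ t : ℝ, 0 ≤ t → S.En φ ν (S.fsu φ k s w t) ≤ Real.pi ^ 2 * b0 * t + C') :
    ∀ ε : ℝ, 0 < ε → ∃ f : M → ℝ, Continuous f ∧ (∀ x, 0 ≤ f x ∧ f x ≤ c) ∧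
      Real.pi ^ 2 * b1 - ε ≤ ∫ x, f x * S.shM φ x ∂ν := by
  intro ε hε
  have hφ' := hφ.toIsFrm
  have hfin : IsFiniteMeasure ν := hν.finite hφ
  obtain ⟨C1, kb, hkb, hBerg⟩ := global_bergman hφ hν
  obtain ⟨K, hK, hKt, hcov⟩ := exists_compact_cover S
  obtain ⟨C2', hC2', kd, hkd, hDer⟩ := global_deriv hφ hν hK hKt
  obtain ⟨S0, hS00, hS0⟩ : ∃ S0 : ℝ, 0 ≤ S0 ∧ ∀ x, |S.shM φ x| ≤ S0 := by
    obtain ⟨B, hB⟩ := (isCompact_univ (X := M)).exists_bound_of_continuousOn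
      (sm_shM hφ).continuous.continuousOn
    exact ⟨|B|, abs_nonneg _, fun x => (hB x (Set.mem_univ x)).trans (le_abs_self _)⟩
  obtain ⟨D0, hD00, hD0⟩ := unif_K hK (fun i z => 1 / dt (φ i) z) (fun i => by
    refine ContinuousOn.div continuousOn_const
      ((contDiffOn_dt (S.ch i).open_target (hφ'.smooth i)).continuousOn.mono (hKt i)) ?_
    exact fun z hz => (hφ.dt_pos i (hKt i hz)).ne')
  obtain ⟨G0, hG00, hG0⟩ := unif_cHess hK hKt hφ'
  obtain ⟨G1, hG10, hG1⟩ := unif_cHess hK hKt (isFrm_fnF (sm_shM hφ))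
  set R : ℝ := 1 + S0 + |C1| with hR
  obtain ⟨Hh, hH0, hHh⟩ := hh_bounds R
  set Cg : ℝ := C2' + 1 with hCg
  set V : ℝ := ν.real Set.univ with hVdef
  have hV0 : 0 ≤ V := measureReal_nonneg
  set Bb : ℝ := 2 * G0 + 6 * Cg ^ 2 with hBb
  set Aa : ℝ := (2 * (c * R) * Hh + 3 * c * Hh) * Cg ^ 2 with hAa
  set P : ℝ := 4 * Aa * Bb * D0 with hP
  set Q : ℝ := c * (2 * G1 * Bb * D0) with hQ
  set A1 : ℝ := 2 * |C1| * V + Real.pi ^ 2 * |C| with hA1
  set A : ℝ := (8 * c + P) * A1 + (P * S0 ^ 2 + Q) * V + c * A1 + Real.pi ^ 2 * |C| with hA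
  have hR0 : 0 ≤ R := by positivity
  have hBb0 : 0 ≤ Bb := by positivity
  have hAa0 : 0 ≤ Aa := by positivity
  have hP0 : 0 ≤ P := by positivity
  have hQ0 : 0 ≤ Q := by positivity
  have hA10 : 0 ≤ A1 := by positivity
  have hA0 : 0 ≤ A := by positivity
  -- choice of k
  obtain ⟨k, hk1, hkb', hkd', hk8, hkA, hkone⟩ : ∃ k : ℕ, k1 ≤ k ∧ kb ≤ k ∧ kd ≤ k ∧
      8 * S0 ≤ k ∧ (A / ε) ^ 2 ≤ k ∧ 1 ≤ k := by
    refine ⟨k1 + kb + kd + ⌈8 * S0⌉₊ + ⌈(A / ε) ^ 2⌉₊ + 1, by omega, by omega, by omega, ?_, ?_,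
      by omega⟩
    · refine (Nat.le_ceil _).trans ?_
      exact_mod_cast (by omega : ⌈8 * S0⌉₊ ≤ _)
    · refine (Nat.le_ceil _).trans ?_
      exact_mod_cast (by omega : ⌈(A / ε) ^ 2⌉₊ ≤ _)
  have hk : 0 < k := hkone
  have hk' : (0 : ℝ) < k := by exact_mod_cast hk
  have hk1' : (1 : ℝ) ≤ k := by exact_mod_cast hkone
  obtain ⟨N, s, w, hs, ho, hpos, hw, hN, hsum, C', hEn⟩ := H k hk1
  set q : ℝ := Real.sqrt k with hq
  have hq0 : 0 < q := Real.sqrt_pos.mpr hk'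
  have hqq : q ^ 2 = k := Real.sq_sqrt hk'.le
  have hq1 : 1 ≤ q := Real.one_le_sqrt.mpr hk1'
  refine ⟨S.ff φ k s w, (sm_ff hφ' hk hs hpos).continuous, ff_bounds hk hpos hw, ?_⟩
  have int : ∀ {u : M → ℝ}, S.Sm u → Integrable u ν := fun hu =>
    integrable_of_sm hφ hν hu.continuous
  have sff := sm_ff (w := w) hφ' hk hs hpos
  have ssh := sm_shM hφ
  have suu := sm_uu hφ hs
  have srho := sm_rho hφ' hs
  have snn := sm_nn (w := w) hφ' hs
  -- upper bound of rho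
  have F1 : ∀ x, S.rho φ k s x ≤ 1 + S.shM φ x / k + C1 / (k * q) := fun x =>
    hBerg k hkb' N s hs ho x
  have F2 : ∀ x, S.uu φ k s x ≤ |C1| / (k * q) := by
    intro x
    have hCk : C1 / (k * q) ≤ |C1| / (k * q) :=
      div_le_div_of_nonneg_right (le_abs_self _) (by positivity)
    have h := (F1 x).trans (add_le_add_right hCk _)
    unfold uu
    rw [sub_sub, sub_le_iff_le_add']
    exact h
  have hrR : ∀ x, S.rho φ k s x ≤ R := fun x => rho_le_arith hk1' hq1 (hS0 x) (F1 x)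
  have hr0 : ∀ x, 0 < S.rho φ k s x := rho_pos hk hpos
  -- integrals
  have I0 : ∫ x, S.rho φ k s x ∂ν = Real.pi ^ 2 / k ^ 2 * N := by
    unfold rho
    rw [integral_const_mul, integral_ws hφ hν hs ho]
    simp
  have I1 : ∫ x, S.nn φ k s w x ∂ν = Real.pi ^ 2 / k ^ 3 * ∑ a, w a := by
    unfold nn
    rw [integral_const_mul, integral_ws hφ hν hs ho, ← Finset.sum_div]
    field_simp
  have I2 : ∫ x, S.uu φ k s x ∂ν = Real.pi ^ 2 / k ^ 2 * N - V - Real.pi ^ 2 * a1 / k := by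
    have e1 : ∫ x, S.uu φ k s x ∂ν =
        ∫ x, S.rho φ k s x ∂ν - ∫ _x : M, (1 : ℝ) ∂ν - ∫ x, S.shM φ x / k ∂ν := by
      have t12 : Integrable (fun x => S.rho φ k s x - 1) ν := (int srho).sub (integrable_const 1)
      rw [← integral_sub (int srho) (integrable_const 1), ← integral_sub t12 ((int ssh).div_const _)]
      rfl
    rw [e1, I0, integral_div, hS, integral_const, smul_eq_mul, mul_one]
  have F3 : -(Real.pi ^ 2 * |C| / k ^ 2) ≤ ∫ x, S.uu φ k s x ∂ν := by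
    rw [I2, hV]
    exact f3_arith hk' (by positivity) hN
  have F4 : ∫ x, |S.uu φ k s x| ∂ν ≤ A1 / (k * q) :=
    f4_arith hk' hq0 hqq hq1 (by positivity) (abs_nonneg C)
      (integral_abs_le (int suu) (E := |C1| / (k * q)) (D := Real.pi ^ 2 * |C| / k ^ 2)
      (by positivity) F2 F3) hA1
  -- local bounds
  set G : ℝ := Cg * q with hGdef
  have hCg1 : 1 ≤ Cg := by rw [hCg]; exact le_add_of_nonneg_left hC2'
  have hCC : C2' ≤ Cg := by rw [hCg]; exact le_add_of_nonneg_right zero_le_one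
  have hG : 0 ≤ G := by positivity
  have hGG : G ^ 2 = Cg ^ 2 * k := by rw [hGdef, mul_pow, hqq]
  have hc1 : C2' * q ≤ G := by
    rw [hGdef]
    exact mul_le_mul_of_nonneg_right hCC hq0.le
  have hc2 : C2' * k ≤ G ^ 2 := by
    rw [hGG]
    refine mul_le_mul_of_nonneg_right (hCC.trans ?_) hk'.le
    rw [sq]
    exact le_mul_of_one_le_left (by positivity) hCg1
  have hρb : ∀ i, ∀ z ∈ K i, (∀ j, ‖gz j (S.fnF (S.rho φ k s) i) z‖ ≤ G) ∧
      (∀ j l, ‖cHess (S.fnF (S.rho φ k s) i) z j l‖ ≤ G ^ 2) := by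
    intro i z hz
    have h := hDer k hkd' N s hs ho (fun _ => 1) (fun _ => by norm_num) i z hz
    exact ⟨fun j => (h.1 j).trans hc1, fun j l => (h.2 j l).trans hc2⟩
  have hnb : ∀ i, ∀ z ∈ K i, (∀ j, ‖gz j (S.fnF (S.nn φ k s w) i) z‖ ≤ c * G) ∧
      (∀ j l, ‖cHess (S.fnF (S.nn φ k s w) i) z j l‖ ≤ c * G ^ 2) := by
    intro i z hz
    have h := hDer k hkd' N s hs ho (fun a => w a / (k * c)) (fun a => by
      have := hw a
      exact ⟨div_nonneg this.1 (by positivity), by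
        rw [div_le_one (by positivity)]; exact this.2⟩) i z hz
    exact nn_scale hφ' hs hc i (hKt i hz) (fun j => (h.1 j).trans hc1)
      (fun j l => (h.2 j l).trans hc2)
  have hBbk : 2 * G0 + 6 * (1 / (k : ℝ)) * G ^ 2 = Bb := by
    rw [hGG, hBb]
    field_simp
  have hAak : (2 * (c * R) * Hh + 3 * c * Hh) * G ^ 2 = Aa * k := by
    rw [hGG, hAa]
    ring
  have hBBs := isFrm_BB hφ' hk hs hpos
  have E1 : ∀ x, |S.rr φ k s x * S.den φ (S.fnF (S.psi φ k s w)) (S.BB φ k s) x|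
      ≤ P * (|S.uu φ k s x| + S0 ^ 2 / k ^ 2) := by
    intro x
    by_cases hx2 : S.rho φ k s x < 1 / 2
    · rw [den_psi_zero hφ' hs _ hx2, mul_zero, abs_zero]
      positivity
    · push Not at hx2
      obtain ⟨i, hxs, hxK⟩ := hcov x
      have hinv : (S.ch i).symm (S.ch i x) = x := (S.ch i).left_inv hxs
      have hzt := (S.ch i).map_source hxs
      have b1 : ∀ j l, ‖cHess (S.fnF (S.psi φ k s w) i) (S.ch i x) j l‖ ≤ Aa * k := by
        intro j l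
        rw [← hAak]
        refine cHess_psi hφ' hs i hzt hG hc.le hH0 (hnb i _ hxK).1 (hnb i _ hxK).2
          (hρb i _ hxK).1 (hρb i _ hxK).2 ?_ ?_ j l
        · rw [hinv, abs_of_nonneg (nn_nonneg (fun a => (hw a).1) x)]
          exact (nn_le hk (fun a => (hw a).2) x).trans
            (mul_le_mul_of_nonneg_left (hrR x) hc.le)
        · rw [hinv]
          exact hHh _ (hr0 x).le (hrR x)
      have b2 : ∀ j l, ‖cHess (S.BB φ k s i) (S.ch i x) j l‖ ≤ Bb := by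
        intro j l
        rw [← hBbk]
        exact cHess_BB hφ' hk hs hpos i hzt hG (hG0 i _ hxK) (hρb i _ hxK).1 (hρb i _ hxK).2
          (by rw [hinv]; exact hx2) j l
      have b3 := den_bound hφ (isFrm_fnF (sm_psi (w := w) hφ' hs)) hBBs i hxs
        ((le_abs_self _).trans (hD0 i _ hxK)) b1 b2
      have b4 := rr_est hk hS0 hk8 hx2
      rw [abs_mul]
      calc |S.rr φ k s x| * |S.den φ (S.fnF (S.psi φ k s w)) (S.BB φ k s) x|
          ≤ (2 / k) * (|S.uu φ k s x| + S0 ^ 2 / k ^ 2) * (2 * (Aa * k) * Bb * D0) :=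
            mul_le_mul b4 b3 (abs_nonneg _) (by positivity)
        _ = P * (|S.uu φ k s x| + S0 ^ 2 / k ^ 2) := by
            rw [hP]
            field_simp
            ring
  have E2 : ∀ x, |S.psi φ k s w x * S.den φ (S.fnF (S.shM φ)) (S.BB φ k s) x| ≤ Q := by
    intro x
    by_cases hx2 : S.rho φ k s x < 1 / 2
    · rw [psi_eq_zero x hx2.le, zero_mul, abs_zero]
      exact hQ0
    · push Not at hx2
      obtain ⟨i, hxs, hxK⟩ := hcov x
      have hinv : (S.ch i).symm (S.ch i x) = x := (S.ch i).left_inv hxs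
      have hzt := (S.ch i).map_source hxs
      have b2 : ∀ j l, ‖cHess (S.BB φ k s i) (S.ch i x) j l‖ ≤ Bb := by
        intro j l
        rw [← hBbk]
        exact cHess_BB hφ' hk hs hpos i hzt hG (hG0 i _ hxK) (hρb i _ hxK).1 (hρb i _ hxK).2
          (by rw [hinv]; exact hx2) j l
      have b3 := den_bound hφ (isFrm_fnF ssh) hBBs i hxs
        ((le_abs_self _).trans (hD0 i _ hxK)) (hG1 i _ hxK) b2
      have hp := psi_bounds hk hpos (fun a => (hw a).1) (φ := φ) x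
      have hf := ff_bounds hk hpos hw (φ := φ) x
      rw [abs_mul, abs_of_nonneg hp.1]
      exact mul_le_mul (hp.2.trans hf.2) b3 (abs_nonneg _) hc.le
  have F5 := est_I hφ hν hk hs hpos hw hS0 hk8 E1 E2
  -- slope
  have F6 : ∫ x, S.ff φ k s w x * S.DD φ k s x ∂ν ≤ Real.pi ^ 2 * b0 := by
    have h := slope_le hφ hν (spath_fsu hφ' hk hs hpos w)
      (fun t x => fsu_convex hφ hk hs hpos w t x) hEn
    rw [td_fsu_zero hφ' hk hs hpos, fsu_zero] at h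
    exact h
  -- the other computation
  have F8 : ∫ x, S.nn φ k s w x ∂ν ≤ ∫ x, S.ff φ k s w x ∂ν +
      (1 / k) * (∫ x, S.ff φ k s w x * S.shM φ x ∂ν) + c * ∫ x, |S.uu φ k s x| ∂ν := by
    rw [← integral_const_mul, ← integral_const_mul,
      ← integral_add (int sff) ((int (sff.mul ssh)).const_mul _)]
    have t12 : Integrable (fun x => S.ff φ k s w x + 1 / k * (S.ff φ k s w x * S.shM φ x)) ν :=
      (int sff).add ((int (sff.mul ssh)).const_mul _)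
    rw [← integral_add t12 ((int suu).abs.const_mul c)]
    refine integral_mono (int snn) (t12.add ((int suu).abs.const_mul c)) fun x => ?_
    have hf := ff_bounds hk hpos hw (φ := φ) x
    have e1 : S.nn φ k s w x = S.ff φ k s w x * S.rho φ k s x := by
      unfold ff
      rw [div_mul_cancel₀ _ (hr0 x).ne']
    have e2 : S.rho φ k s x = 1 + S.shM φ x / k + S.uu φ k s x := by unfold uu; ring
    have e3 : S.ff φ k s w x * S.uu φ k s x ≤ c * |S.uu φ k s x| :=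
      (le_abs_self _).trans (by
        rw [abs_mul, abs_of_nonneg hf.1]
        exact mul_le_mul_of_nonneg_right hf.2 (abs_nonneg _))
    change S.nn φ k s w x ≤ S.ff φ k s w x + 1 / k * (S.ff φ k s w x * S.shM φ x) +
      c * |S.uu φ k s x|
    rw [e1, e2]
    have e4 : S.ff φ k s w x * (1 + S.shM φ x / k + S.uu φ k s x) =
      S.ff φ k s w x + 1 / k * (S.ff φ k s w x * S.shM φ x) + S.ff φ k s w x * S.uu φ k s x := by
      ring
    rw [e4]
    exact add_le_add_right e3 _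
  -- conclusion
  have L1 : Real.pi ^ 2 * b0 + Real.pi ^ 2 * b1 / k - Real.pi ^ 2 * |C| / k ^ 2 ≤
      ∫ x, S.nn φ k s w x ∂ν := by
    rw [I1]
    exact l1_arith hk' (by positivity) hsum
  exact final_arith hk' hq0 hqq hq1 hc.le hP0 hQ0 hV0 (by positivity) (abs_nonneg C) F4 F5 F6 F8
    L1 hA hkA hq hε

end CSurf

end

end Pool.Agent.KS
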