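import Mathlib

/-!
# Kaehler metrics, scalar curvature, Kaehler classes, on complex manifolds modelled on `Fin n → ℂ`
-/

namespace Pool.Agent.KS

open scoped Manifold ContDiff Matrix ComplexOrder
open MeasureTheory

/-- The model space `ℂⁿ`. -/
abbrev Cn (n : ℕ) : Type := Fin n → ℂ

/-- `∂F/∂z_i` (Wirtinger derivative). -/
noncomputable def dz {n : ℕ} (i : Fin n) (F : Cn n → ℂ) (z : Cn n) : ℂ :=
  (1 / 2 : ℂ) * (fderiv ℝ F z (Pi.single i 1) - Complex.I * fderiv ℝ F z (Pi.single i Complex.I))

/-- `∂F/∂\bar z_i` (Wirtinger derivative). -/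
noncomputable def dzb {n : ℕ} (i : Fin n) (F : Cn n → ℂ) (z : Cn n) : ℂ :=
  (1 / 2 : ℂ) * (fderiv ℝ F z (Pi.single i 1) + Complex.I * fderiv ℝ F z (Pi.single i Complex.I))

/-- the complex Hessian `(∂²u/∂z_i∂\bar z_j)` of a real function. -/
noncomputable def cHess {n : ℕ} (u : Cn n → ℝ) (z : Cn n) : Matrix (Fin n) (Fin n) ℂ :=
  fun i j => dz i (dzb j (fun w => (u w : ℂ))) z

section Manifold

variable (n : ℕ) (M : Type) [TopologicalSpace M] [ChartedSpace (Cn n) M]

/-- The complex Jacobian matrix `∂(e' ∘ e⁻¹)_a/∂z_i` of the change of charts at the point `e p`. -/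
noncomputable def jac {n : ℕ} {M : Type} [TopologicalSpace M]
    (e e' : OpenPartialHomeomorph M (Cn n)) (p : M) : Matrix (Fin n) (Fin n) ℂ :=
  fun a i => fderiv ℂ (fun z => e' (e.symm z)) (e p) (Pi.single i 1) a

/-- A Kaehler metric on `M`, given in every chart `e` of the atlas by the coefficient functions
`coef e z i j = g_{i \bar j}(z)`, `z ∈ e.target`; the Kaehler form is
`ω = √-1 ∑ g_{i \bar j} dz_i ∧ d\bar z_j` and the Riemannian metric is
`2 Re ∑ g_{i \bar j} dz_i ⊗ d\bar z_j`. -/
structure KahlerMetric where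
  /-- the coefficients in the charts -/
  coef : OpenPartialHomeomorph M (Cn n) → Cn n → Matrix (Fin n) (Fin n) ℂ
  /-- the coefficients are smooth -/
  smooth : ∀ e ∈ atlas (Cn n) M, ∀ i j, ContDiffOn ℝ ∞ (fun z => coef e z i j) e.target
  /-- the matrices are Hermitian and positive definite -/
  posDef : ∀ e ∈ atlas (Cn n) M, ∀ z ∈ e.target, (coef e z).PosDef
  /-- the form is closed -/
  closed : ∀ e ∈ atlas (Cn n) M, ∀ z ∈ e.target, ∀ i j k,
    dz k (fun w => coef e w i j) z = dz i (fun w => coef e w k j) z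
  /-- the coefficients in different charts are those of the same form -/
  transf : ∀ e ∈ atlas (Cn n) M, ∀ e' ∈ atlas (Cn n) M, ∀ p ∈ e.source ∩ e'.source,
    coef e (e p) = (jac e e' p)ᵀ * coef e' (e' p) * (jac e e' p).map (starRingEnd ℂ)

variable {n M}

/-- The determinant `det (g_{i \bar j})` in the chart `e`. -/
noncomputable def detC (g : KahlerMetric n M) (e : OpenPartialHomeomorph M (Cn n)) (z : Cn n) : ℝ :=
  (g.coef e z).det.re

/-- Scalar curvature (of the Riemannian metric), computed in the chart `e` at the point `z` of its target: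
`s = -2 ∑ g^{i \bar j} ∂_i ∂_{\bar j} log det g`. -/
noncomputable def scalAt (g : KahlerMetric n M) (e : OpenPartialHomeomorph M (Cn n)) (z : Cn n) : ℝ :=
  -2 * (((g.coef e z)⁻¹ * (cHess (fun w => Real.log (detC g e w)) z)).trace).re

/-- The scalar curvature at a point of `M`. -/
noncomputable def scal (g : KahlerMetric n M) (p : M) : ℝ :=
  scalAt g (chartAt (Cn n) p) (chartAt (Cn n) p p)

/-- A real function on `M` is smooth. -/
def SmoothFun (φ : M → ℝ) : Prop :=
  ∀ e ∈ atlas (Cn n) M, ContDiffOn ℝ ∞ (fun z => φ (e.symm z)) e.target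

/-- `g'` lies in the Kaehler class of `g`: `ω' = ω + √-1 ∂\bar∂ φ` for a smooth real function `φ`. -/
def SameClass (g g' : KahlerMetric n M) : Prop :=
  ∃ φ : M → ℝ, SmoothFun (n := n) φ ∧ ∀ e ∈ atlas (Cn n) M, ∀ z ∈ e.target,
    g'.coef e z = g.coef e z + cHess (fun w => φ (e.symm w)) z

/-- `μ` is the volume measure `ωⁿ/n!` of `g`: in every chart it has the density `2ⁿ det (g_{i \bar j})`. -/
def IsVolume [MeasurableSpace M] (g : KahlerMetric n M) (μ : Measure M) : Prop :=
  ∀ e ∈ atlas (Cn n) M, ∀ A : Set M, MeasurableSet A → A ⊆ e.source →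
    μ A = ∫⁻ z in e '' A, ENNReal.ofReal (2 ^ n * detC g e z)

end Manifold

/-- Statement (+): positive total scalar curvature implies that some metric in the class has
positive scalar curvature everywhere. -/
def Plus : Prop :=
  ∀ (n : ℕ) (M : Type) [TopologicalSpace M] [T2Space M] [CompactSpace M] [ConnectedSpace M]
    [MeasurableSpace M] [BorelSpace M] [ChartedSpace (Cn n) M] [IsManifold 𝓘(ℂ, Cn n) ω M]
    (g : KahlerMetric n M) (μ : Measure M), IsVolume g μ → 0 < ∫ p, scal g p ∂μ →
    ∃ g' : KahlerMetric n M, SameClass g g' ∧ ∀ p, 0 < scal g' p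

/-- Statement (-): negative total scalar curvature implies that some metric in the class has
negative scalar curvature everywhere. -/
def Minus : Prop :=
  ∀ (n : ℕ) (M : Type) [TopologicalSpace M] [T2Space M] [CompactSpace M] [ConnectedSpace M]
    [MeasurableSpace M] [BorelSpace M] [ChartedSpace (Cn n) M] [IsManifold 𝓘(ℂ, Cn n) ω M]
    (g : KahlerMetric n M) (μ : Measure M), IsVolume g μ → ∫ p, scal g p ∂μ < 0 →
    ∃ g' : KahlerMetric n M, SameClass g g' ∧ ∀ p, scal g' p < 0

end Pool.Agent.KS
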