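import Pool.Agent.KS.Calc

/-!
# Cauchy derivative bounds at scale `1/√k` (module DERIV)
-/

namespace Pool.Agent.KS

open MeasureTheory Complex Topology
open scoped ContDiff Matrix ComplexOrder ComplexConjugate Manifold Interval

noncomputable section

namespace DerivBd

variable {n : ℕ}

/-- the Chern connection of the weight `exp(-kΦ)` -/
def nab (k : ℝ) (Φ : Cn n → ℝ) (j : Fin n) (s : Cn n → ℂ) (z : Cn n) : ℂ :=
  dz j s z - (k : ℂ) * gz j Φ z * s z

/-- Cauchy estimate for a finite family. -/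
lemma cauchy_sum {ι : Type*} [Fintype ι] {R M : ℝ} (hR : 0 < R) (hM : 0 ≤ M) (g : ι → ℂ → ℂ)
    (hg : ∀ i, DiffContOnCl ℂ (g i) (Metric.ball 0 R))
    (hb : ∀ t ∈ Metric.sphere (0 : ℂ) R, ∑ i, ‖g i t‖ ^ 2 ≤ M) :
    ∑ i, ‖deriv (g i) 0‖ ^ 2 ≤ M / R ^ 2 := by
  set V : ℝ := ∑ i, ‖deriv (g i) 0‖ ^ 2 with hV
  have hV0 : 0 ≤ V := Finset.sum_nonneg fun i _ => by positivity
  set G : ℂ → ℂ := fun t => ∑ i, (starRingEnd ℂ) (deriv (g i) 0) * g i t with hG
  have hd : ∀ i, DifferentiableAt ℂ (g i) 0 := fun i =>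
    (hg i).differentiableAt Metric.isOpen_ball (Metric.mem_ball_self hR)
  have hGd : DiffContOnCl ℂ G (Metric.ball 0 R) := by
    constructor
    · intro t ht
      exact DifferentiableWithinAt.fun_sum fun i _ => ((hg i).differentiableOn t ht).const_mul _
    · exact continuousOn_finsetSum _ fun i _ => continuousOn_const.mul (hg i).continuousOn
  have hG' : deriv G 0 = (V : ℂ) := by
    rw [hG]
    rw [deriv_fun_sum (fun i _ => (hd i).const_mul _)]
    rw [hV, Complex.ofReal_sum]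
    refine Finset.sum_congr rfl fun i _ => ?_
    rw [deriv_const_mul _ (hd i), mul_comm, Complex.mul_conj, Complex.normSq_eq_norm_sq]
  have hGb : ∀ t ∈ Metric.sphere (0 : ℂ) R, ‖G t‖ ≤ Real.sqrt V * Real.sqrt M := by
    intro t ht
    have h1 : ‖G t‖ ≤ ∑ i, ‖deriv (g i) 0‖ * ‖g i t‖ := by
      refine (norm_sum_le _ _).trans (le_of_eq ?_)
      refine Finset.sum_congr rfl fun i _ => ?_
      rw [norm_mul, RCLike.norm_conj]
    have h2 := Finset.sum_mul_sq_le_sq_mul_sq Finset.univ (fun i => ‖deriv (g i) 0‖) (fun i => ‖g i t‖)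
    have h3 : (∑ i, ‖deriv (g i) 0‖ * ‖g i t‖) ^ 2 ≤ V * M :=
      h2.trans (mul_le_mul_of_nonneg_left (hb t ht) hV0)
    rw [← Real.sqrt_mul hV0]
    exact h1.trans (Real.le_sqrt_of_sq_le h3)
  have hC := Complex.norm_deriv_le_of_forall_mem_sphere_norm_le hR hGd hGb
  rw [hG', Complex.norm_real, Real.norm_of_nonneg hV0] at hC
  rcases hV0.eq_or_lt with h0 | h0
  · rw [← h0]; positivity
  · have hs : 0 < Real.sqrt V := Real.sqrt_pos.2 h0
    have h4 : Real.sqrt V ≤ Real.sqrt M / R := by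
      have h5 : Real.sqrt V * Real.sqrt V ≤ Real.sqrt V * (Real.sqrt M / R) := by
        rw [Real.mul_self_sqrt hV0]
        calc V ≤ _ := hC
          _ = _ := by ring
      exact le_of_mul_le_mul_left h5 hs
    calc V = Real.sqrt V ^ 2 := (Real.sq_sqrt hV0).symm
      _ ≤ (Real.sqrt M / R) ^ 2 := by gcongr
      _ = M / R ^ 2 := by rw [div_pow, Real.sq_sqrt hM]

/-- the differential of a real function along a complex line -/
lemma fderiv_real_single {u : Cn n → ℝ} {p : Cn n} (hu : DifferentiableAt ℝ u p) (j : Fin n) (t : ℂ) :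
    fderiv ℝ u p (Pi.single j t) = 2 * (t * gz j u p).re := by
  have hc : DifferentiableAt ℝ (fun w => ((u w : ℝ) : ℂ)) p :=
    (ofRealCLM.differentiableAt (x := u p)).comp p hu
  have h1 : fderiv ℝ (fun w => ((u w : ℝ) : ℂ)) p (Pi.single j t) = ((fderiv ℝ u p (Pi.single j t) : ℝ) : ℂ) := by
    have h2 : (fun w => ((u w : ℝ) : ℂ)) = ofRealCLM ∘ u := rfl
    rw [h2, fderiv_comp p ofRealCLM.differentiableAt hu]
    simp
  have h3 := fderiv_eq_dz_dzb hc (Pi.single j t)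
  rw [Finset.sum_eq_single j] at h3
  · rw [h1, Pi.single_eq_same, dzb_real j hu] at h3
    have h4 := congrArg Complex.re h3
    rw [Complex.ofReal_re] at h4
    rw [h4]
    change (t * gz j u p + conj t * conj (gz j u p)).re = _
    simp only [add_re, mul_re, conj_re, conj_im]
    ring
  · intro b _ hb
    simp [Pi.single_eq_of_ne hb]
  · intro h; exact absurd (Finset.mem_univ _) h

lemma bound_of_contOn {E F : Type*} [NormedAddCommGroup E] [NormedAddCommGroup F] {f : E → F} {K : Set E}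
    (hK : IsCompact K) (hf : ContinuousOn f K) : ∃ C, ∀ x ∈ K, ‖f x‖ ≤ C :=
  hK.exists_bound_of_continuousOn hf

/-- second order Taylor estimate, uniform on a compact set -/
lemma taylor_two {E : Type*} [NormedAddCommGroup E] [NormedSpace ℝ E] {U K : Set E} (hU : IsOpen U)
    (hK : IsCompact K) (hK2 : ∀ r, IsCompact (Metric.cthickening r K)) (hKU : K ⊆ U) {Φ : E → ℝ}
    (hΦ : ContDiffOn ℝ ∞ Φ U) :
    ∃ r > 0, ∃ C ≥ 0, (∀ p ∈ K, Metric.closedBall p r ⊆ U) ∧
      ∀ p ∈ K, ∀ z ∈ Metric.closedBall p r, |Φ z - Φ p - fderiv ℝ Φ p (z - p)| ≤ C * ‖z - p‖ ^ 2 := by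
  obtain ⟨r, hr, hrU⟩ := hK.exists_cthickening_subset_open hU hKU
  have hK' : IsCompact (Metric.cthickening r K) := hK2 r
  have hball : ∀ p ∈ K, Metric.closedBall p r ⊆ Metric.cthickening r K := fun p hp =>
    Metric.closedBall_subset_cthickening hp r
  have hd1 : ContDiffOn ℝ ∞ (fderiv ℝ Φ) U := hΦ.fderiv_of_isOpen hU (by simp)
  have hd2 : ContDiffOn ℝ ∞ (fderiv ℝ (fderiv ℝ Φ)) U := hd1.fderiv_of_isOpen hU (by simp)
  obtain ⟨C, hC⟩ := bound_of_contOn hK' (hd2.continuousOn.mono hrU)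
  refine ⟨r, hr, max C 0, le_max_right _ _, fun p hp => (hball p hp).trans hrU, ?_⟩
  intro p hp z hz
  have hz' : ‖z - p‖ ≤ r := by simpa [dist_eq_norm] using hz
  have hsub : Metric.closedBall p ‖z - p‖ ⊆ Metric.cthickening r K :=
    (Metric.closedBall_subset_closedBall hz').trans (hball p hp)
  have hlip : ∀ x ∈ Metric.closedBall p ‖z - p‖, ‖fderiv ℝ Φ x - fderiv ℝ Φ p‖ ≤ max C 0 * ‖z - p‖ := by
    intro x hx
    have h1 := (convex_closedBall p ‖z - p‖).norm_image_sub_le_of_norm_fderiv_le (𝕜 := ℝ) (f := fderiv ℝ Φ)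
      (C := max C 0) (fun y hy => (hd1.differentiableOn (by simp)).differentiableAt (hU.mem_nhds (hrU (hsub hy))))
      (fun y hy => (hC y (hsub hy)).trans (le_max_left _ _))
      (Metric.mem_closedBall_self (norm_nonneg _)) hx
    refine h1.trans ?_
    have hx' : ‖x - p‖ ≤ ‖z - p‖ := by simpa [dist_eq_norm] using hx
    gcongr
  have h2 := (convex_closedBall p ‖z - p‖).norm_image_sub_le_of_norm_fderiv_le' (𝕜 := ℝ) (f := Φ)
      (C := max C 0 * ‖z - p‖) (φ := fderiv ℝ Φ p)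
      (fun y hy => (hΦ.differentiableOn (by simp)).differentiableAt (hU.mem_nhds (hrU (hsub hy))))
      hlip (Metric.mem_closedBall_self (norm_nonneg _)) (y := z) (by simp [dist_eq_norm])
  rw [← Real.norm_eq_abs]
  refine h2.trans (le_of_eq (by ring))

/-- **Cauchy estimate for the Chern connection** at one point. -/
theorem nab_bound {U : Set (Cn n)} (hU : IsOpen U) {Φ : Cn n → ℝ} (hΦ : ContDiffOn ℝ ∞ Φ U)
    {p : Cn n} {r C0 k : ℝ} (hC0 : 0 ≤ C0) (hball : Metric.closedBall p r ⊆ U)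
    (hT : ∀ z ∈ Metric.closedBall p r, |Φ z - Φ p - fderiv ℝ Φ p (z - p)| ≤ C0 * ‖z - p‖ ^ 2)
    (hk0 : 0 < k) (hkr : 1 / Real.sqrt k ≤ r) {α : Type*} [Fintype α] (s : α → Cn n → ℂ) (c : α → ℝ)
    (hc : ∀ a, 0 ≤ c a) (hs : ∀ a, DifferentiableOn ℂ (s a) U) {A : ℝ}
    (hA : ∀ z ∈ Metric.closedBall p (1 / Real.sqrt k), ∑ a, c a * ‖s a z‖ ^ 2 * Real.exp (-k * Φ z) ≤ A)
    (j : Fin n) :
    ∑ a, c a * ‖nab k Φ j (s a) p‖ ^ 2 * Real.exp (-k * Φ p) ≤ Real.exp C0 * k * A := by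
  have hsk : 0 < Real.sqrt k := Real.sqrt_pos.2 hk0
  set R : ℝ := 1 / Real.sqrt k with hR
  have hR0 : 0 < R := by positivity
  have hR2 : R ^ 2 = 1 / k := by rw [hR, div_pow, Real.sq_sqrt hk0.le, one_pow]
  have hpU : p ∈ U := hball (Metric.mem_closedBall_self (hR0.le.trans hkr))
  have hΦp : DifferentiableAt ℝ Φ p := (hΦ.differentiableOn (by simp)).differentiableAt (hU.mem_nhds hpU)
  set b : ℂ := gz j Φ p with hb
  set L : ℂ → Cn n := fun t => p + Pi.single j t with hL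
  have hLd : ∀ t, HasDerivAt L (Pi.single j 1) t := by
    intro t
    have h1 : HasDerivAt (fun t : ℂ => t • (Pi.single j 1 : Cn n)) ((1 : ℂ) • (Pi.single j 1 : Cn n)) t :=
      (hasDerivAt_id t).smul_const _
    have h2 : L = fun t => p + t • (Pi.single j 1 : Cn n) := by
      funext t; rw [hL]; simp only; rw [← Pi.single_smul]; simp
    rw [h2]
    simpa using h1.const_add p
  have hLb : ∀ t, ‖t‖ ≤ R → L t ∈ Metric.closedBall p R := by
    intro t ht
    simp only [hL, Metric.mem_closedBall, dist_eq_norm, add_sub_cancel_left, Pi.norm_single]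
    exact ht
  have hLr : ∀ t, ‖t‖ ≤ R → L t ∈ Metric.closedBall p r := fun t ht =>
    Metric.closedBall_subset_closedBall hkr (hLb t ht)
  have hLU : ∀ t, ‖t‖ ≤ R → L t ∈ U := fun t ht => hball (hLr t ht)
  set g : α → ℂ → ℂ := fun a t => (Real.sqrt (c a) : ℂ) *
    (s a (L t) * Complex.exp (-(k : ℂ) * ((Φ p : ℂ) / 2 + t * b))) with hg
  have hsd : ∀ a t, ‖t‖ ≤ R → DifferentiableAt ℂ (s a) (L t) := fun a t ht =>
    ((hs a) _ (hLU t ht)).differentiableAt (hU.mem_nhds (hLU t ht))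
  have hgd : ∀ a t, ‖t‖ ≤ R → DifferentiableAt ℂ (g a) t := by
    intro a t ht
    have h1 : DifferentiableAt ℂ (fun t => s a (L t)) t := (hsd a t ht).comp t (hLd t).differentiableAt
    refine DifferentiableAt.const_mul (h1.mul ?_) _
    fun_prop
  have hgc : ∀ a, DiffContOnCl ℂ (g a) (Metric.ball 0 R) := by
    intro a
    constructor
    · intro t ht
      exact (hgd a t (by simpa using (Metric.mem_ball.1 ht).le)).differentiableWithinAt
    · intro t ht
      have ht' : ‖t‖ ≤ R := by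
        have := Metric.closure_ball_subset_closedBall ht
        simpa using this
      exact (hgd a t ht').continuousAt.continuousWithinAt
  have hA0 : 0 ≤ A := (Finset.sum_nonneg fun a _ => by have := hc a; positivity).trans
    (hA p (Metric.mem_closedBall_self hR0.le))
  have hnorm : ∀ t, ‖t‖ ≤ R → ∑ a, ‖g a t‖ ^ 2 ≤ A * Real.exp C0 := by
    intro t ht
    have hTt := hT (L t) (hLr t ht)
    have hLt : L t - p = Pi.single j t := by simp [hL]
    rw [hLt, Pi.norm_single, fderiv_real_single hΦp j t, ← hb] at hTt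
    have hsum : ∑ a, ‖g a t‖ ^ 2 = (∑ a, c a * ‖s a (L t)‖ ^ 2 * Real.exp (-k * Φ (L t))) *
        Real.exp (k * (Φ (L t) - Φ p - 2 * (t * b).re)) := by
      rw [Finset.sum_mul]
      refine Finset.sum_congr rfl fun a _ => ?_
      rw [hg]
      simp only
      rw [norm_mul, norm_mul, mul_pow, mul_pow, Complex.norm_exp, ← Real.exp_nat_mul, mul_assoc, mul_assoc,
        ← Real.exp_add, Complex.norm_real, Real.norm_of_nonneg (Real.sqrt_nonneg _), Real.sq_sqrt (hc a)]
      congr 3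
      simp only [mul_re, add_re, neg_re, ofReal_re, neg_im, ofReal_im, div_ofNat_re, add_im,
        div_ofNat_im, mul_im]
      push_cast
      ring
    rw [hsum]
    have hexp : Real.exp (k * (Φ (L t) - Φ p - 2 * (t * b).re)) ≤ Real.exp C0 := by
      apply Real.exp_le_exp.2
      have h1 : Φ (L t) - Φ p - 2 * (t * b).re ≤ C0 * ‖t‖ ^ 2 := (le_abs_self _).trans hTt
      have h2 : ‖t‖ ^ 2 ≤ 1 / k := by rw [← hR2]; gcongr
      calc k * (Φ (L t) - Φ p - 2 * (t * b).re) ≤ k * (C0 * (1 / k)) := by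
            apply mul_le_mul_of_nonneg_left _ hk0.le
            exact h1.trans (mul_le_mul_of_nonneg_left h2 hC0)
        _ = C0 := by field_simp
    exact mul_le_mul (hA _ (hLb t ht)) hexp (Real.exp_pos _).le hA0
  have hC := cauchy_sum hR0 (M := A * Real.exp C0) (by positivity) g hgc
    (fun t ht => hnorm t (by simpa using (mem_sphere_zero_iff_norm.1 ht).le))
  have hder : ∀ a, c a * ‖nab k Φ j (s a) p‖ ^ 2 * Real.exp (-k * Φ p) = ‖deriv (g a) 0‖ ^ 2 := by
    intro a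
    have hL0 : L 0 = p := by simp [hL]
    have hsp : DifferentiableAt ℂ (s a) p := by
      have := hsd a 0 (by simpa using hR0.le)
      rwa [hL0] at this
    have h1 : HasDerivAt (fun t => s a (L t)) (fderiv ℂ (s a) p (Pi.single j 1)) 0 := by
      have h2 : HasFDerivAt (s a) (fderiv ℂ (s a) p) (L 0) := by
        rw [hL0]
        exact hsp.hasFDerivAt
      exact h2.comp_hasDerivAt 0 (hLd 0)
    have h3 : HasDerivAt (fun t : ℂ => Complex.exp (-(k : ℂ) * ((Φ p : ℂ) / 2 + t * b)))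
        (Complex.exp (-(k : ℂ) * ((Φ p : ℂ) / 2 + 0 * b)) * (-(k : ℂ) * b)) 0 := by
      have h4 : HasDerivAt (fun t : ℂ => -(k : ℂ) * ((Φ p : ℂ) / 2 + t * b)) (-(k : ℂ) * b) 0 := by
        have h5 : HasDerivAt (fun t : ℂ => (Φ p : ℂ) / 2 + t * b) (1 * b) 0 :=
          ((hasDerivAt_id (0 : ℂ)).mul_const b).const_add _
        simpa using h5.const_mul (-(k : ℂ))
      exact h4.cexp
    have h6 := ((h1.mul h3).const_mul (Real.sqrt (c a) : ℂ)).deriv
    have h7 : deriv (g a) 0 = (Real.sqrt (c a) : ℂ) *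
        (nab k Φ j (s a) p * Complex.exp (-(k : ℂ) * ((Φ p : ℂ) / 2))) := by
      have hgi : g a = fun t => (Real.sqrt (c a) : ℂ) *
          ((fun t => s a (L t)) * (fun t : ℂ => Complex.exp (-(k : ℂ) * ((Φ p : ℂ) / 2 + t * b)))) t := rfl
      rw [hgi, h6, hL0, nab, dz_holo j hsp, ← hb]
      simp only [zero_mul, add_zero]
      ring
    rw [h7, norm_mul, norm_mul, mul_pow, mul_pow, Complex.norm_exp, ← Real.exp_nat_mul, Complex.norm_real,
      Real.norm_of_nonneg (Real.sqrt_nonneg _), Real.sq_sqrt (hc a), mul_assoc]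
    congr 3
    simp only [mul_re, neg_re, ofReal_re, neg_im, ofReal_im, div_ofNat_re, div_ofNat_im]
    push_cast
    ring
  rw [Finset.sum_congr rfl fun a _ => hder a]
  refine hC.trans (le_of_eq ?_)
  rw [hR2]
  field_simp

/-- Cauchy-Schwarz with weights. -/
lemma cs_weight {α : Type*} [Fintype α] (c : α → ℝ) (hc : ∀ a, 0 ≤ c a) {e : ℝ} (he : 0 ≤ e) (x y : α → ℂ)
    {X Y : ℝ} (hX : ∑ a, c a * ‖x a‖ ^ 2 * e ≤ X) (hY : ∑ a, c a * ‖y a‖ ^ 2 * e ≤ Y) :
    ‖(∑ a, (c a : ℂ) * (x a * conj (y a))) * (e : ℂ)‖ ≤ Real.sqrt X * Real.sqrt Y := by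
  have hX0 : 0 ≤ X := (Finset.sum_nonneg fun a _ => by have := hc a; positivity).trans hX
  have h1 : ‖(∑ a, (c a : ℂ) * (x a * conj (y a))) * (e : ℂ)‖
      ≤ ∑ a, (Real.sqrt (c a * e) * ‖x a‖) * (Real.sqrt (c a * e) * ‖y a‖) := by
    rw [Finset.sum_mul]
    refine (norm_sum_le _ _).trans (le_of_eq ?_)
    refine Finset.sum_congr rfl fun a _ => ?_
    have h2 : Real.sqrt (c a * e) * Real.sqrt (c a * e) = c a * e :=
      Real.mul_self_sqrt (mul_nonneg (hc a) he)
    rw [norm_mul, norm_mul, norm_mul, RCLike.norm_conj, Complex.norm_real, Complex.norm_real,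
      Real.norm_of_nonneg (hc a), Real.norm_of_nonneg he]
    generalize Real.sqrt (c a * e) = q at h2
    linear_combination (-(‖x a‖ * ‖y a‖)) * h2
  have h3 := Finset.sum_mul_sq_le_sq_mul_sq Finset.univ (fun a => Real.sqrt (c a * e) * ‖x a‖)
    (fun a => Real.sqrt (c a * e) * ‖y a‖)
  have h4 : ∀ z : α → ℂ, ∑ a, (Real.sqrt (c a * e) * ‖z a‖) ^ 2 = ∑ a, c a * ‖z a‖ ^ 2 * e := by
    intro z
    refine Finset.sum_congr rfl fun a _ => ?_
    rw [mul_pow, Real.sq_sqrt (mul_nonneg (hc a) he)]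
    ring
  rw [h4, h4] at h3
  rw [← Real.sqrt_mul hX0]
  refine h1.trans (Real.le_sqrt_of_sq_le (h3.trans ?_))
  exact mul_le_mul hX hY (Finset.sum_nonneg fun a _ => by have := hc a; positivity) hX0

section formulas

variable {α : Type} [Fintype α] {k : ℝ} {φ : C2 → ℝ} {s : α → C2 → ℂ} {c : α → ℝ} {z : C2}

lemma deriv_exp_mul (k x : ℝ) : deriv (fun y : ℝ => Real.exp (-k * y)) x = -k * Real.exp (-k * x) := by
  have h : HasDerivAt (fun y : ℝ => Real.exp (-k * y)) (Real.exp (-k * x) * (-k * 1)) x :=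
    ((hasDerivAt_id x).const_mul (-k)).exp
  rw [h.deriv]; ring

lemma deriv2_exp_mul (k x : ℝ) :
    deriv (deriv (fun y : ℝ => Real.exp (-k * y))) x = k ^ 2 * Real.exp (-k * x) := by
  have h0 : deriv (fun y : ℝ => Real.exp (-k * y)) = fun x => -k * Real.exp (-k * x) :=
    funext (deriv_exp_mul k)
  have h : HasDerivAt (fun y : ℝ => -k * Real.exp (-k * y)) (-k * (Real.exp (-k * x) * (-k * 1))) x :=
    (((hasDerivAt_id x).const_mul (-k)).exp).const_mul (-k)
  rw [h0, h.deriv]; ring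

lemma contDiff_exp_mul (k : ℝ) : ContDiff ℝ ∞ (fun y : ℝ => Real.exp (-k * y)) :=
  (contDiff_const.mul contDiff_id).exp

lemma contDiffAt_weight (hφ : ContDiffAt ℝ ∞ φ z) :
    ContDiffAt ℝ ∞ (fun w => Real.exp (-k * φ w)) z :=
  (contDiff_exp_mul k).contDiffAt.comp z hφ

lemma contDiffAt_sumsq (hs : ∀ a, ContDiffAt ℂ ∞ (s a) z) :
    ContDiffAt ℝ ∞ (fun w => ∑ a, c a * ‖s a w‖ ^ 2) z :=
  ContDiffAt.sum fun a _ => contDiffAt_const.mul (((hs a).restrict_scalars ℝ).norm_sq ℝ)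

lemma fun_split : (fun w => ∑ a, c a * ‖s a w‖ ^ 2 * Real.exp (-k * φ w)) =
    fun w => (∑ a, c a * ‖s a w‖ ^ 2) * Real.exp (-k * φ w) := by
  funext w; rw [Finset.sum_mul]

/-- gradient of the density -/
lemma gz_density (hφ : ContDiffAt ℝ ∞ φ z) (hs : ∀ a, ContDiffAt ℂ ∞ (s a) z) (i : Fin 2) :
    gz i (fun w => ∑ a, c a * ‖s a w‖ ^ 2 * Real.exp (-k * φ w)) z =
      (∑ a, (c a : ℂ) * (nab k φ i (s a) z * conj (s a z))) * (Real.exp (-k * φ z) : ℂ) := by
  have hu := contDiffAt_sumsq (c := c) hs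
  have hv := contDiffAt_weight (k := k) hφ
  have hsd : ∀ a, DifferentiableAt ℂ (s a) z := fun a => (hs a).differentiableAt (by simp)
  rw [fun_split, gz_mul (u := fun w => ∑ a, c a * ‖s a w‖ ^ 2) i (hu.differentiableAt (by simp))
    (hv.differentiableAt (by simp)), gz_sum_norm_sq c i hsd,
    gz_real_comp (h := fun y => Real.exp (-k * y)) i (hφ.differentiableAt (by simp))
      ((contDiff_exp_mul k).contDiffAt.differentiableAt (by simp)), deriv_exp_mul]
  push_cast
  have h1 : ∀ a, ((‖s a z‖ : ℝ) : ℂ) ^ 2 = s a z * conj (s a z) := by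
    intro a; rw [Complex.mul_conj, Complex.normSq_eq_norm_sq]; push_cast; rfl
  simp only [h1, nab, Finset.sum_mul, Finset.mul_sum, ← Finset.sum_add_distrib]
  refine Finset.sum_congr rfl fun a _ => ?_
  ring

/-- complex Hessian of the density -/
lemma cHess_density (hφ : ContDiffAt ℝ ∞ φ z) (hs : ∀ a, ContDiffAt ℂ ∞ (s a) z) (i j : Fin 2) :
    cHess (fun w => ∑ a, c a * ‖s a w‖ ^ 2 * Real.exp (-k * φ w)) z i j =
      (∑ a, (c a : ℂ) * (nab k φ i (s a) z * conj (nab k φ j (s a) z))) * (Real.exp (-k * φ z) : ℂ)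
        - (k : ℂ) * cHess φ z i j * ((∑ a, c a * ‖s a z‖ ^ 2 * Real.exp (-k * φ z) : ℝ) : ℂ) := by
  have hu := contDiffAt_sumsq (c := c) hs
  have hv := contDiffAt_weight (k := k) hφ
  have hsd : ∀ a, DifferentiableAt ℂ (s a) z := fun a => (hs a).differentiableAt (by simp)
  have h2 : ∀ a, ContDiffAt ℂ 2 (s a) z := fun a => (hs a).of_le (by norm_cast)
  have hu2 : ContDiffAt ℝ 2 (fun w => ∑ a, c a * ‖s a w‖ ^ 2) z := hu.of_le (by norm_cast)
  have hv2 : ContDiffAt ℝ 2 (fun w => Real.exp (-k * φ w)) z := hv.of_le (by norm_cast)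
  have hφ2 : ContDiffAt ℝ 2 φ z := hφ.of_le (by norm_cast)
  have he2 : ContDiffAt ℝ 2 (fun y : ℝ => Real.exp (-k * y)) (φ z) :=
    (contDiff_exp_mul k).contDiffAt.of_le (by norm_cast)
  have hgv : ∀ l, gz l (fun w => Real.exp (-k * φ w)) z = ((-k * Real.exp (-k * φ z) : ℝ) : ℂ) * gz l φ z := by
    intro l
    rw [gz_real_comp (h := fun y => Real.exp (-k * y)) l (hφ.differentiableAt (by simp))
      ((contDiff_exp_mul k).contDiffAt.differentiableAt (by simp)), deriv_exp_mul]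
  rw [fun_split, cHess_mul i j hu2 hv2, cHess_sum_norm_sq c i j h2,
    cHess_real_comp (h := fun y => Real.exp (-k * y)) i j hφ2 he2, deriv_exp_mul, deriv2_exp_mul,
    gz_sum_norm_sq c i hsd, gz_sum_norm_sq c j hsd, hgv, hgv, ← Finset.sum_mul]
  push_cast
  have h1 : ∀ a, ((‖s a z‖ : ℝ) : ℂ) ^ 2 = s a z * conj (s a z) := by
    intro a; rw [Complex.mul_conj, Complex.normSq_eq_norm_sq]; push_cast; rfl
  simp only [h1, nab, map_sum, map_mul, map_sub, map_neg, Complex.conj_ofReal, Complex.conj_conj]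
  simp only [Finset.sum_mul, Finset.mul_sum, ← Finset.sum_add_distrib, ← Finset.sum_sub_distrib]
  refine Finset.sum_congr rfl fun a _ => ?_
  have he : conj (Complex.exp (-(k : ℂ) * (φ z : ℂ))) = Complex.exp (-(k : ℂ) * (φ z : ℂ)) := by
    rw [← Complex.exp_conj, map_mul, map_neg, Complex.conj_ofReal, Complex.conj_ofReal]
  rw [he]
  ring

end formulas

end DerivBd

open DerivBd in
/-- If `R = ∑ c_a |s_a|² e^{-kφ} ≤ A` on the ball of radius `1/√k`, then at the centre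
`|∂R| ≤ C A √k` and `|∂∂̄R| ≤ C A k`. -/
theorem local_deriv {U : Set C2} (hU : IsOpen U) {φ : C2 → ℝ} (hφ : ContDiffOn ℝ ∞ φ U)
    {K : Set C2} (hK : IsCompact K) (hKU : K ⊆ U) :
    ∃ C : ℝ, 0 ≤ C ∧ ∃ k0 : ℕ, 0 < k0 ∧ ∀ k : ℕ, k0 ≤ k → ∀ z ∈ K,
      Metric.closedBall z (1 / Real.sqrt k) ⊆ U ∧
      ∀ (α : Type) [Fintype α] (s : α → C2 → ℂ) (c : α → ℝ) (A : ℝ),
        (∀ a, ContDiffOn ℂ ∞ (s a) U) → (∀ a, 0 ≤ c a) →
        (∀ w ∈ Metric.closedBall z (1 / Real.sqrt k),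
          ∑ a, c a * ‖s a w‖ ^ 2 * Real.exp (-k * φ w) ≤ A) →
        (∀ i, ‖gz i (fun w => ∑ a, c a * ‖s a w‖ ^ 2 * Real.exp (-k * φ w)) z‖
            ≤ C * A * Real.sqrt k) ∧
        (∀ i j, ‖cHess (fun w => ∑ a, c a * ‖s a w‖ ^ 2 * Real.exp (-k * φ w)) z i j‖
            ≤ C * A * k) := by
  obtain ⟨r, hr, C0, hC0, hball, hT⟩ := taylor_two hU hK (fun r => hK.cthickening) hKU hφ
  -- bound of the complex Hessian of `φ`
  have hH : ∀ i j, ∃ C, ∀ z ∈ K, ‖cHess φ z i j‖ ≤ C := fun i j =>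
    bound_of_contOn hK ((contDiffOn_cHess hU i j hφ).continuousOn.mono hKU)
  choose B hB using hH
  set C1 : ℝ := ∑ i, ∑ j, |B i j| with hC1
  have hC1' : ∀ i j, ∀ z ∈ K, ‖cHess φ z i j‖ ≤ C1 := by
    intro i j z hz
    refine (hB i j z hz).trans ((le_abs_self _).trans ?_)
    calc |B i j| ≤ ∑ j, |B i j| := Finset.single_le_sum (f := fun j => |B i j|) (fun _ _ => abs_nonneg _) (Finset.mem_univ j)
      _ ≤ C1 := Finset.single_le_sum (f := fun i => ∑ j, |B i j|)
          (fun _ _ => Finset.sum_nonneg fun _ _ => abs_nonneg _) (Finset.mem_univ i)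
  have hC10 : 0 ≤ C1 := Finset.sum_nonneg fun _ _ => Finset.sum_nonneg fun _ _ => abs_nonneg _
  obtain ⟨k0, hk0⟩ := exists_nat_ge (1 / r ^ 2)
  refine ⟨Real.exp C0 + C1, by positivity, max k0 1, by positivity, ?_⟩
  intro k hk z hz
  have hk1 : (1 : ℝ) ≤ k := by exact_mod_cast (le_max_right _ _).trans hk
  have hkpos : (0 : ℝ) < k := by linarith
  have hkr : 1 / Real.sqrt k ≤ r := by
    have h1 : 1 / r ^ 2 ≤ (k : ℝ) := hk0.trans (by exact_mod_cast (le_max_left _ _).trans hk)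
    have h2 : 1 / r ≤ Real.sqrt k := by
      apply Real.le_sqrt_of_sq_le
      rw [div_pow, one_pow]; exact h1
    rw [div_le_iff₀ (Real.sqrt_pos.2 hkpos)]
    rw [div_le_iff₀ hr] at h2
    linarith
  refine ⟨(Metric.closedBall_subset_closedBall hkr).trans (hball z hz), ?_⟩
  intro α _ s c A hs hc hA
  have hzU := hKU hz
  have hsz : ∀ a, ContDiffAt ℂ ∞ (s a) z := fun a => (hs a).contDiffAt (hU.mem_nhds hzU)
  have hφz : ContDiffAt ℝ ∞ φ z := hφ.contDiffAt (hU.mem_nhds hzU)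
  have hsdo : ∀ a, DifferentiableOn ℂ (s a) U := fun a => (hs a).differentiableOn (by simp)
  have hnab := fun j => nab_bound hU hφ (p := z) hC0 (hball z hz) (hT z hz) hkpos hkr s c hc hsdo hA j
  have hAz := hA z (Metric.mem_closedBall_self (by positivity))
  have hA0 : 0 ≤ A := (Finset.sum_nonneg fun a _ => by have := hc a; positivity).trans hAz
  have hE1 : 1 ≤ Real.exp C0 := Real.one_le_exp hC0
  have he0 : 0 ≤ Real.exp (-k * φ z) := (Real.exp_pos _).le
  constructor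
  · intro i
    rw [gz_density hφz hsz]
    refine (cs_weight c hc he0 _ _ (hnab i) hAz).trans ?_
    rw [← Real.sqrt_mul (by positivity)]
    have h1 : Real.exp C0 * k * A * A ≤ (Real.exp C0 * A * Real.sqrt k) ^ 2 := by
      rw [mul_pow, mul_pow, Real.sq_sqrt hkpos.le]
      have : Real.exp C0 * (k * A ^ 2) ≤ Real.exp C0 ^ 2 * (k * A ^ 2) := by
        apply mul_le_mul_of_nonneg_right _ (by positivity)
        nlinarith
      nlinarith
    calc Real.sqrt (Real.exp C0 * k * A * A) ≤ Real.sqrt ((Real.exp C0 * A * Real.sqrt k) ^ 2) :=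
          Real.sqrt_le_sqrt h1
      _ = Real.exp C0 * A * Real.sqrt k := Real.sqrt_sq (by positivity)
      _ ≤ (Real.exp C0 + C1) * A * Real.sqrt k := by gcongr; linarith
  · intro i j
    rw [cHess_density hφz hsz]
    refine (norm_sub_le _ _).trans ?_
    have h1 := cs_weight c hc he0 _ _ (hnab i) (hnab j)
    rw [Real.mul_self_sqrt (by positivity)] at h1
    have h2 : ‖(k : ℂ) * cHess φ z i j * ((∑ a, c a * ‖s a z‖ ^ 2 * Real.exp (-k * φ z) : ℝ) : ℂ)‖
        ≤ k * C1 * A := by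
      rw [norm_mul, norm_mul, Complex.norm_real, Real.norm_of_nonneg
        (Finset.sum_nonneg fun a _ => by have := hc a; positivity), Complex.norm_natCast]
      exact mul_le_mul (mul_le_mul_of_nonneg_left (hC1' i j z hz) hkpos.le) hAz
        (Finset.sum_nonneg fun a _ => by have := hc a; positivity) (by positivity)
    calc _ ≤ Real.exp C0 * k * A + k * C1 * A := add_le_add h1 h2
      _ = (Real.exp C0 + C1) * A * k := by ring

end

end Pool.Agent.KS
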