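import Pool.Agent.KS.GIBP

/-!
# The Monge-Ampere energy (module ENERGY)
-/

namespace Pool.Agent.KS

open MeasureTheory Complex Topology
open scoped ContDiff Matrix ComplexOrder ComplexConjugate Manifold

noncomputable section

namespace CSurf

variable {M ι : Type} [TopologicalSpace M] [MeasurableSpace M]

/-- Monge-Ampere energy. -/
def En (S : CSurf M ι) (φ : ι → C2 → ℝ) (ν : Measure M) (u : M → ℝ) : ℝ :=
  (1 / 3) * ∫ x, u x * (S.den φ φ φ x + S.den φ φ (φ + S.fnF u) x
    + S.den φ (φ + S.fnF u) (φ + S.fnF u) x) ∂ν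

variable [BorelSpace M] [CompactSpace M] [T2Space M] [Fintype ι] {S : CSurf M ι}
  {φ : ι → C2 → ℝ} {ν : Measure M}

omit [MeasurableSpace M] [BorelSpace M] [CompactSpace M] [T2Space M] [Fintype ι] in
theorem den_add_right {φ A B B' : ι → C2 → ℝ} (hB : S.IsFrm B) (hB' : S.IsFrm B') (x : M) :
    S.den φ A (B + B') x = S.den φ A B x + S.den φ A B' x := by
  rw [den_comm φ A (B + B'), den_add_left hB hB' x, den_comm φ B A, den_comm φ B' A]

omit [MeasurableSpace M] [BorelSpace M] [CompactSpace M] [T2Space M] [Fintype ι] in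
/-- expansion of the mixed density -/
theorem den_expand (hφ : S.IsKah φ) {u v : M → ℝ} (hu : S.Sm u) (hv : S.Sm v) (x : M) :
    S.den φ (φ + S.fnF u) (φ + S.fnF v) x
      = 1 + S.den φ (S.fnF u) φ x + S.den φ (S.fnF v) φ x + S.den φ (S.fnF u) (S.fnF v) x := by
  have hF := hφ.toIsFrm
  have hu' := isFrm_fnF (S := S) hu
  have hv' := isFrm_fnF (S := S) hv
  rw [den_add_left hF hu', den_add_right hF hv', den_add_right hF hv', den_self hφ,
    den_comm φ φ (S.fnF v)]
  ring

theorem integrable_mul_den (hφ : S.IsKah φ) (hν : S.IsVolF φ ν) {u : M → ℝ} (hu : S.Sm u)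
    {A B : ι → C2 → ℝ} (hA : S.IsFrm A) (hB : S.IsFrm B) :
    Integrable (fun x => u x * S.den φ A B x) ν :=
  integrable_of_sm hφ hν (hu.continuous.mul (sm_den hφ hA hB).continuous)

theorem integrable_den (hφ : S.IsKah φ) (hν : S.IsVolF φ ν)
    {A B : ι → C2 → ℝ} (hA : S.IsFrm A) (hB : S.IsFrm B) :
    Integrable (fun x => S.den φ A B x) ν :=
  integrable_of_sm hφ hν (sm_den hφ hA hB).continuous

/-- the mass is constant in the class -/
theorem integral_den_add_fnF (hφ : S.IsKah φ) (hν : S.IsVolF φ ν) {u v : M → ℝ} (hu : S.Sm u)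
    (hv : S.Sm v) :
    ∫ x, S.den φ (φ + S.fnF u) (φ + S.fnF v) x ∂ν = ν.real Set.univ := by
  have hF := hφ.toIsFrm
  have hu' := isFrm_fnF (S := S) hu
  have hv' := isFrm_fnF (S := S) hv
  have h1 : ∀ x, S.den φ (φ + S.fnF u) (φ + S.fnF v) x
      = 1 + S.den φ (S.fnF u) φ x + S.den φ (S.fnF v) φ x + S.den φ (S.fnF u) (S.fnF v) x :=
    fun x => den_expand hφ hu hv x
  simp only [h1]
  have hfin : IsFiniteMeasure ν := IsVolF.finite hφ hν
  have i1 := integrable_den hφ hν hu' hF
  have i2 := integrable_den hφ hν hv' hF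
  have i3 := integrable_den hφ hν hu' hv'
  have i0 : Integrable (fun _ : M => (1 : ℝ)) ν := integrable_const 1
  rw [integral_add, integral_add, integral_add,
    integral_den_fnF hφ hν hu hF, integral_den_fnF hφ hν hv hF, integral_den_fnF hφ hν hu hv']
  · simp
  all_goals fun_prop

/-- closed formula for the energy -/
theorem En_eq (hφ : S.IsKah φ) (hν : S.IsVolF φ ν) {u : M → ℝ} (hu : S.Sm u) :
    S.En φ ν u = ∫ x, u x ∂ν + ∫ x, u x * S.den φ (S.fnF u) φ x ∂ν
      + (1 / 3) * ∫ x, u x * S.den φ (S.fnF u) (S.fnF u) x ∂ν := by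
  have hF := hφ.toIsFrm
  have hu' := isFrm_fnF (S := S) hu
  have h0 : S.Sm (fun _ => (0 : ℝ)) := Sm.const 0
  unfold En
  have h1 : ∀ x, u x * (S.den φ φ φ x + S.den φ φ (φ + S.fnF u) x
      + S.den φ (φ + S.fnF u) (φ + S.fnF u) x)
      = 3 * u x + 3 * (u x * S.den φ (S.fnF u) φ x) + u x * S.den φ (S.fnF u) (S.fnF u) x := by
    intro x
    rw [den_expand hφ hu hu, den_add_right hF hu', den_self hφ, den_comm φ φ (S.fnF u)]
    ring
  simp only [h1]
  have i0 : Integrable u ν := integrable_of_sm hφ hν hu.continuous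
  have i1 := integrable_mul_den hφ hν hu hu' hF
  have i2 := integrable_mul_den hφ hν hu hu' hu'
  rw [integral_add, integral_add, integral_const_mul, integral_const_mul]
  · ring
  all_goals fun_prop

/-- cocycle formula -/
theorem En_sub (hφ : S.IsKah φ) (hν : S.IsVolF φ ν) {u v : M → ℝ} (hu : S.Sm u) (hv : S.Sm v) :
    S.En φ ν v - S.En φ ν u = (1 / 3) * ∫ x, (v x - u x)
      * (S.den φ (φ + S.fnF u) (φ + S.fnF u) x + S.den φ (φ + S.fnF u) (φ + S.fnF v) x
        + S.den φ (φ + S.fnF v) (φ + S.fnF v) x) ∂ν := by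
  have hF := hφ.toIsFrm
  have hu' := isFrm_fnF (S := S) hu
  have hv' := isFrm_fnF (S := S) hv
  have iu : Integrable u ν := integrable_of_sm hφ hν hu.continuous
  have iv : Integrable v ν := integrable_of_sm hφ hν hv.continuous
  -- quadratic terms
  have iuu := integrable_mul_den hφ hν hu hu' hF
  have iuv := integrable_mul_den hφ hν hu hv' hF
  have ivu := integrable_mul_den hφ hν hv hu' hF
  have ivv := integrable_mul_den hφ hν hv hv' hF
  -- cubic terms
  have iuuu := integrable_mul_den hφ hν hu hu' hu'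
  have iuuv := integrable_mul_den hφ hν hu hu' hv'
  have iuvv := integrable_mul_den hφ hν hu hv' hv'
  have ivuu := integrable_mul_den hφ hν hv hu' hu'
  have ivuv := integrable_mul_den hφ hν hv hu' hv'
  have ivvv := integrable_mul_den hφ hν hv hv' hv'
  have s1 : ∫ x, v x * S.den φ (S.fnF u) φ x ∂ν = ∫ x, u x * S.den φ (S.fnF v) φ x ∂ν :=
    gibp hφ hν hv hu hF
  have s2 : ∫ x, v x * S.den φ (S.fnF u) (S.fnF u) x ∂ν
      = ∫ x, u x * S.den φ (S.fnF u) (S.fnF v) x ∂ν := by
    rw [gibp hφ hν hv hu hu', den_comm φ (S.fnF v) (S.fnF u)]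
  have s3 : ∫ x, v x * S.den φ (S.fnF u) (S.fnF v) x ∂ν
      = ∫ x, u x * S.den φ (S.fnF v) (S.fnF v) x ∂ν := gibp hφ hν hv hu hv'
  have e1 : ∀ x, (v x - u x)
      * (S.den φ (φ + S.fnF u) (φ + S.fnF u) x + S.den φ (φ + S.fnF u) (φ + S.fnF v) x
        + S.den φ (φ + S.fnF v) (φ + S.fnF v) x)
      = (3 * v x - 3 * u x)
        + (3 * (v x * S.den φ (S.fnF u) φ x) + 3 * (v x * S.den φ (S.fnF v) φ x)
          - 3 * (u x * S.den φ (S.fnF u) φ x) - 3 * (u x * S.den φ (S.fnF v) φ x))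
        + (v x * S.den φ (S.fnF u) (S.fnF u) x + v x * S.den φ (S.fnF u) (S.fnF v) x
          + v x * S.den φ (S.fnF v) (S.fnF v) x - u x * S.den φ (S.fnF u) (S.fnF u) x
          - u x * S.den φ (S.fnF u) (S.fnF v) x - u x * S.den φ (S.fnF v) (S.fnF v) x) := by
    intro x
    rw [den_expand hφ hu hu, den_expand hφ hu hv, den_expand hφ hv hv]
    ring
  simp only [e1]
  rw [integral_add, integral_add, integral_sub, integral_sub, integral_sub, integral_add,
    integral_sub, integral_sub, integral_sub, integral_add, integral_add]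
  · simp only [integral_const_mul]
    rw [s1, s2, s3, En_eq hφ hν hu, En_eq hφ hν hv]
    ring
  all_goals fun_prop

theorem En_mono (hφ : S.IsKah φ) (hν : S.IsVolF φ ν) {u v : M → ℝ} (hu : S.Sm u) (hv : S.Sm v)
    (huv : ∀ x, u x ≤ v x)
    (hpu : ∀ i, ∀ z ∈ (S.ch i).target, (cHess ((φ + S.fnF u) i) z).PosSemidef)
    (hpv : ∀ i, ∀ z ∈ (S.ch i).target, (cHess ((φ + S.fnF v) i) z).PosSemidef) :
    S.En φ ν u ≤ S.En φ ν v := by
  have h := En_sub hφ hν hu hv
  have h2 : 0 ≤ ∫ x, (v x - u x)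
      * (S.den φ (φ + S.fnF u) (φ + S.fnF u) x + S.den φ (φ + S.fnF u) (φ + S.fnF v) x
        + S.den φ (φ + S.fnF v) (φ + S.fnF v) x) ∂ν := by
    refine integral_nonneg fun x => ?_
    have a1 := den_nonneg hφ hpu hpu x
    have a2 := den_nonneg hφ hpu hpv x
    have a3 := den_nonneg hφ hpv hpv x
    have a4 := huv x
    exact mul_nonneg (by linarith) (by linarith)
  linarith

theorem En_add_const (hφ : S.IsKah φ) (hν : S.IsVolF φ ν) {u : M → ℝ} (hu : S.Sm u) (c : ℝ) :
    S.En φ ν (fun x => u x + c) = S.En φ ν u + c * ν.real Set.univ := by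
  have hF := hφ.toIsFrm
  have hu' := isFrm_fnF (S := S) hu
  have hcs : S.Sm (fun _ : M => c) := Sm.const c
  have hc' := isFrm_fnF (S := S) hcs
  have hv : S.Sm (fun x => u x + c) := hu.add hcs
  have h := En_sub hφ hν hu hv
  have hfn : S.fnF (fun x => u x + c) = S.fnF u + S.fnF (fun _ => c) := rfl
  have hFu := hF.add hu'
  have e1 : ∀ x, S.den φ (φ + S.fnF u) (φ + S.fnF (fun x => u x + c)) x
      = S.den φ (φ + S.fnF u) (φ + S.fnF u) x := by
    intro x
    rw [hfn, ← add_assoc, den_add_right hFu hc', den_comm φ _ (S.fnF fun _ => c), den_const,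
      add_zero]
  have e2 : ∀ x, S.den φ (φ + S.fnF (fun x => u x + c)) (φ + S.fnF (fun x => u x + c)) x
      = S.den φ (φ + S.fnF u) (φ + S.fnF u) x := by
    intro x
    conv_lhs => rw [hfn, ← add_assoc]
    rw [den_add_left hFu hc', den_const, add_zero, den_add_right hFu hc',
      den_comm φ _ (S.fnF fun _ => c), den_const, add_zero]
  have e3 : ∀ x, (u x + c - u x)
      * (S.den φ (φ + S.fnF u) (φ + S.fnF u) x
        + S.den φ (φ + S.fnF u) (φ + S.fnF (fun x => u x + c)) x
        + S.den φ (φ + S.fnF (fun x => u x + c)) (φ + S.fnF (fun x => u x + c)) x)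
      = 3 * c * S.den φ (φ + S.fnF u) (φ + S.fnF u) x := by
    intro x
    rw [e1, e2]; ring
  simp only [e3] at h
  rw [integral_const_mul, integral_den_add_fnF hφ hν hu hu] at h
  linarith

end CSurf

end

end Pool.Agent.KS
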