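import Pool.Agent.KS.Surf

/-!
# The ruled surface over the Fermat quintic: explicit formulas (definitions)
-/

namespace Pool.Agent.KS

open MeasureTheory Complex Topology
open scoped ContDiff Matrix ComplexOrder ComplexConjugate Manifold

noncomputable section

/-- The affine cone over the Fermat quintic without the origin. -/
def Xc : Set (Fin 3 → ℂ) := {X | X ≠ 0 ∧ X 0 ^ 5 + X 1 ^ 5 + X 2 ^ 5 = 0}

/-- chart indices: (cyclic index, branch of the fifth root, type of the fibre coordinate). -/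
abbrev Idx : Type := Fin 3 × Fin 10 × Bool

/-- tenth roots of unity -/
def zt (b : Fin 10) : ℂ := Complex.exp (2 * Real.pi * I * ((b : ℕ) : ℂ) / 10)

/-- branches of `(-(1+x^5))^(1/5)` -/
def rt (b : Fin 10) (x : ℂ) : ℂ := zt b * (-(1 + x ^ 5) / zt b ^ 5) ^ ((1 : ℂ) / 5)

/-- target of the chart -/
def tg (κ : Idx) : Set C2 := {z | -(1 + z 0 ^ 5) / zt κ.2.1 ^ 5 ∈ slitPlane}

/-- `X_l = z 0`, `X_{l+1} = root`, `X_{l+2} = 1` -/
def PX (κ : Idx) (z : C2) : Fin 3 → ℂ :=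
  fun i => if i = κ.1 then z 0 else if i = κ.1 + 1 then rt κ.2.1 (z 0) else 1

/-- the pair `(a,b)`; the point of the surface is `([X], [a : bX])` -/
def PV (κ : Idx) (z : C2) : ℂ × ℂ := if κ.2.2 then (1, z 1) else (z 1, 1)

/-- `|X|²` -/
def n2 (X : Fin 3 → ℂ) : ℝ := ‖X 0‖ ^ 2 + ‖X 1‖ ^ 2 + ‖X 2‖ ^ 2

/-- `|X_0|² + |X_2|²` -/
def n1 (X : Fin 3 → ℂ) : ℝ := ‖X 0‖ ^ 2 + ‖X 2‖ ^ 2

/-- local potentials of the reference Kaehler metric -/
def Phi0 (m c : ℝ) (κ : Idx) (z : C2) : ℝ :=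
  m * Real.log (n2 (PX κ z))
    + c * Real.log (‖(PV κ z).1‖ ^ 2 + ‖(PV κ z).2‖ ^ 2 * n2 (PX κ z))

/-- radial comparison potentials -/
def Psi (m c t : ℝ) (κ : Idx) (z : C2) : ℝ :=
  m * Real.log (n1 (PX κ z))
    + c * Real.log (‖(PV κ z).1‖ ^ 2 + Real.exp t * ‖(PV κ z).2‖ ^ 2 * n1 (PX κ z))

/-- reference potentials for (minus) the Ricci form -/
def Rref (κ : Idx) (z : C2) : ℝ :=
  Psi 3 (-2) 0 κ z - 4 * Real.log (‖PX κ z (κ.1 + 1)‖ ^ 2)

end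

end Pool.Agent.KS
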