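import Pool.Agent.KS.Base

/-!
# Wirtinger derivatives of functions depending on a real parameter (module PATH, local part)
-/

namespace Pool.Agent.KS

open MeasureTheory Complex Topology
open scoped ContDiff Matrix ComplexOrder ComplexConjugate Manifold

noncomputable section

namespace PathAux

variable {n : ℕ}

/-- Wirtinger derivative with respect to the second variable -/
def dzP (i : Fin n) (F : ℝ × Cn n → ℂ) (p : ℝ × Cn n) : ℂ :=
  (1 / 2 : ℂ) * (fderiv ℝ F p (0, Pi.single i 1) - Complex.I * fderiv ℝ F p (0, Pi.single i Complex.I))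

/-- conjugate Wirtinger derivative with respect to the second variable -/
def dzbP (i : Fin n) (F : ℝ × Cn n → ℂ) (p : ℝ × Cn n) : ℂ :=
  (1 / 2 : ℂ) * (fderiv ℝ F p (0, Pi.single i 1) + Complex.I * fderiv ℝ F p (0, Pi.single i Complex.I))

theorem two_le_infty' : (2 : WithTop ℕ∞) ≤ ∞ := WithTop.coe_le_coe.mpr (le_top : (2 : ℕ∞) ≤ ⊤)

theorem two_le_infty : (1 + 1 : WithTop ℕ∞) ≤ ∞ := by
  rw [one_add_one_eq_two]; exact two_le_infty'

theorem fderiv_right {F : ℝ × Cn n → ℂ} {t : ℝ} {z : Cn n} (h : DifferentiableAt ℝ F (t, z))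
    (v : Cn n) : fderiv ℝ (fun w => F (t, w)) z v = fderiv ℝ F (t, z) (0, v) := by
  have h1 := h.hasFDerivAt.comp z (hasFDerivAt_prodMk_right (𝕜 := ℝ) t z)
  have h2 : HasFDerivAt (fun w => F (t, w))
      ((fderiv ℝ F (t, z)).comp (ContinuousLinearMap.inr ℝ ℝ (Cn n))) z := h1
  rw [h2.fderiv]
  simp

theorem hasDerivAt_left {E : Type} [NormedAddCommGroup E] [NormedSpace ℝ E]
    {F : ℝ × Cn n → E} {t : ℝ} {z : Cn n} (h : DifferentiableAt ℝ F (t, z)) :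
    HasDerivAt (fun s => F (s, z)) (fderiv ℝ F (t, z) (1, 0)) t := by
  have h1 := h.hasFDerivAt.comp t (hasFDerivAt_prodMk_left (𝕜 := ℝ) t z)
  have h2 : HasFDerivAt (fun s => F (s, z))
      ((fderiv ℝ F (t, z)).comp (ContinuousLinearMap.inl ℝ ℝ (Cn n))) t := h1
  have h3 := h2.hasDerivAt
  simpa using h3

theorem dz_eq {F : ℝ × Cn n → ℂ} {t : ℝ} {z : Cn n} (i : Fin n)
    (h : DifferentiableAt ℝ F (t, z)) : dz i (fun w => F (t, w)) z = dzP i F (t, z) := by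
  unfold dz dzP
  rw [fderiv_right h, fderiv_right h]

theorem dzb_eq {F : ℝ × Cn n → ℂ} {t : ℝ} {z : Cn n} (i : Fin n)
    (h : DifferentiableAt ℝ F (t, z)) : dzb i (fun w => F (t, w)) z = dzbP i F (t, z) := by
  unfold dzb dzbP
  rw [fderiv_right h, fderiv_right h]

theorem contDiffOn_fderiv_apply {E : Type} [NormedAddCommGroup E] [NormedSpace ℝ E]
    {F : ℝ × Cn n → E} {Ω : Set (ℝ × Cn n)} (hΩ : IsOpen Ω)
    (hF : ContDiffOn ℝ ∞ F Ω) (v : ℝ × Cn n) : ContDiffOn ℝ ∞ (fun p => fderiv ℝ F p v) Ω := by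
  have h := hF.fderiv_of_isOpen (m := ∞) hΩ (by simp)
  exact h.clm_apply contDiffOn_const

theorem contDiffOn_dzP {F : ℝ × Cn n → ℂ} {Ω : Set (ℝ × Cn n)} (hΩ : IsOpen Ω)
    (hF : ContDiffOn ℝ ∞ F Ω) (i : Fin n) : ContDiffOn ℝ ∞ (dzP i F) Ω := by
  unfold dzP
  exact contDiffOn_const.mul ((contDiffOn_fderiv_apply hΩ hF _).sub
    (contDiffOn_const.mul (contDiffOn_fderiv_apply hΩ hF _)))

theorem contDiffOn_dzbP {F : ℝ × Cn n → ℂ} {Ω : Set (ℝ × Cn n)} (hΩ : IsOpen Ω)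
    (hF : ContDiffOn ℝ ∞ F Ω) (i : Fin n) : ContDiffOn ℝ ∞ (dzbP i F) Ω := by
  unfold dzbP
  exact contDiffOn_const.mul ((contDiffOn_fderiv_apply hΩ hF _).add
    (contDiffOn_const.mul (contDiffOn_fderiv_apply hΩ hF _)))

theorem fderiv_fderiv_comm {F : ℝ × Cn n → ℂ} {p : ℝ × Cn n} (hF : ContDiffAt ℝ ∞ F p)
    (a b : ℝ × Cn n) :
    fderiv ℝ (fun q => fderiv ℝ F q a) p b = fderiv ℝ (fun q => fderiv ℝ F q b) p a := by
  have h1 : DifferentiableAt ℝ (fderiv ℝ F) p :=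
    ((hF.of_le (m := 1 + 1) two_le_infty).fderiv_right (m := 1) le_rfl).differentiableAt (by simp)
  have h2 : IsSymmSndFDerivAt ℝ F p := hF.isSymmSndFDerivAt (by
    simp only [minSmoothness_of_isRCLikeNormedField]; exact two_le_infty')
  have h3 : ∀ v w : ℝ × Cn n, fderiv ℝ (fun q => fderiv ℝ F q v) p w =
      fderiv ℝ (fderiv ℝ F) p w v := by
    intro v w
    have h4 : HasFDerivAt (fun q => fderiv ℝ F q v)
        ((ContinuousLinearMap.apply ℝ ℂ v).comp (fderiv ℝ (fderiv ℝ F) p)) p :=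
      (ContinuousLinearMap.apply ℝ ℂ v).hasFDerivAt.comp p h1.hasFDerivAt
    rw [h4.fderiv]
    simp
  rw [h3, h3]
  exact h2 b a

/-- the time derivative commutes with the Wirtinger derivatives -/
theorem hasDerivAt_dz {F : ℝ × Cn n → ℂ} {T : Set (Cn n)} (hT : IsOpen T)
    (hF : ContDiffOn ℝ ∞ F (Set.univ ×ˢ T)) (i : Fin n) {t : ℝ} {z : Cn n} (hz : z ∈ T) :
    HasDerivAt (fun s => dz i (fun w => F (s, w)) z)
      (dz i (fun w => fderiv ℝ F (t, w) (1, 0)) z) t := by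
  have hΩ : IsOpen ((Set.univ : Set ℝ) ×ˢ T) := isOpen_univ.prod hT
  have hmem : ∀ s : ℝ, (s, z) ∈ (Set.univ : Set ℝ) ×ˢ T := fun s => ⟨Set.mem_univ _, hz⟩
  have hd : ∀ s : ℝ, DifferentiableAt ℝ F (s, z) := fun s =>
    (hF.contDiffAt (hΩ.mem_nhds (hmem s))).differentiableAt (by simp)
  have e1 : (fun s => dz i (fun w => F (s, w)) z) = fun s => dzP i F (s, z) := by
    funext s; exact dz_eq i (hd s)
  have hP : DifferentiableAt ℝ (dzP i F) (t, z) :=
    ((contDiffOn_dzP hΩ hF i).contDiffAt (hΩ.mem_nhds (hmem t))).differentiableAt (by simp)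
  rw [e1]
  refine (hasDerivAt_left hP).congr_deriv ?_
  have hdv : ∀ v : ℝ × Cn n, DifferentiableAt ℝ (fun q => fderiv ℝ F q v) (t, z) := fun v =>
    ((contDiffOn_fderiv_apply hΩ hF v).contDiffAt (hΩ.mem_nhds (hmem t))).differentiableAt
      (by simp)
  have hFt := hF.contDiffAt (hΩ.mem_nhds (hmem t))
  have e2 : dz i (fun w => fderiv ℝ F (t, w) (1, 0)) z =
      dzP i (fun q => fderiv ℝ F q (1, 0)) (t, z) :=
    dz_eq (F := fun q => fderiv ℝ F q (1, 0)) i (hdv _)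
  rw [e2]
  unfold dzP
  have h5 : HasFDerivAt (fun p : ℝ × Cn n => (1 / 2 : ℂ) * (fderiv ℝ F p (0, Pi.single i 1) -
      Complex.I * fderiv ℝ F p (0, Pi.single i Complex.I)))
      ((1 / 2 : ℂ) • (fderiv ℝ (fun q => fderiv ℝ F q (0, Pi.single i 1)) (t, z) -
        Complex.I • fderiv ℝ (fun q => fderiv ℝ F q (0, Pi.single i Complex.I)) (t, z)))
      (t, z) :=
    ((hdv _).hasFDerivAt.sub ((hdv _).hasFDerivAt.const_mul Complex.I)).const_mul _
  rw [h5.fderiv]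
  simp only [_root_.smul_apply, _root_.sub_apply, smul_eq_mul]
  rw [fderiv_fderiv_comm hFt (0, Pi.single i 1) (1, 0),
    fderiv_fderiv_comm hFt (0, Pi.single i Complex.I) (1, 0)]

theorem hasDerivAt_dzb {F : ℝ × Cn n → ℂ} {T : Set (Cn n)} (hT : IsOpen T)
    (hF : ContDiffOn ℝ ∞ F (Set.univ ×ˢ T)) (i : Fin n) {t : ℝ} {z : Cn n} (hz : z ∈ T) :
    HasDerivAt (fun s => dzb i (fun w => F (s, w)) z)
      (dzb i (fun w => fderiv ℝ F (t, w) (1, 0)) z) t := by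
  have hΩ : IsOpen ((Set.univ : Set ℝ) ×ˢ T) := isOpen_univ.prod hT
  have hmem : ∀ s : ℝ, (s, z) ∈ (Set.univ : Set ℝ) ×ˢ T := fun s => ⟨Set.mem_univ _, hz⟩
  have hd : ∀ s : ℝ, DifferentiableAt ℝ F (s, z) := fun s =>
    (hF.contDiffAt (hΩ.mem_nhds (hmem s))).differentiableAt (by simp)
  have e1 : (fun s => dzb i (fun w => F (s, w)) z) = fun s => dzbP i F (s, z) := by
    funext s; exact dzb_eq i (hd s)
  have hP : DifferentiableAt ℝ (dzbP i F) (t, z) :=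
    ((contDiffOn_dzbP hΩ hF i).contDiffAt (hΩ.mem_nhds (hmem t))).differentiableAt (by simp)
  rw [e1]
  refine (hasDerivAt_left hP).congr_deriv ?_
  have hdv : ∀ v : ℝ × Cn n, DifferentiableAt ℝ (fun q => fderiv ℝ F q v) (t, z) := fun v =>
    ((contDiffOn_fderiv_apply hΩ hF v).contDiffAt (hΩ.mem_nhds (hmem t))).differentiableAt
      (by simp)
  have hFt := hF.contDiffAt (hΩ.mem_nhds (hmem t))
  have e2 : dzb i (fun w => fderiv ℝ F (t, w) (1, 0)) z =
      dzbP i (fun q => fderiv ℝ F q (1, 0)) (t, z) :=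
    dzb_eq (F := fun q => fderiv ℝ F q (1, 0)) i (hdv _)
  rw [e2]
  unfold dzbP
  have h5 : HasFDerivAt (fun p : ℝ × Cn n => (1 / 2 : ℂ) * (fderiv ℝ F p (0, Pi.single i 1) +
      Complex.I * fderiv ℝ F p (0, Pi.single i Complex.I)))
      ((1 / 2 : ℂ) • (fderiv ℝ (fun q => fderiv ℝ F q (0, Pi.single i 1)) (t, z) +
        Complex.I • fderiv ℝ (fun q => fderiv ℝ F q (0, Pi.single i Complex.I)) (t, z)))
      (t, z) :=
    ((hdv _).hasFDerivAt.add ((hdv _).hasFDerivAt.const_mul Complex.I)).const_mul _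
  rw [h5.fderiv]
  simp only [_root_.smul_apply, _root_.add_apply, smul_eq_mul]
  rw [fderiv_fderiv_comm hFt (0, Pi.single i 1) (1, 0),
    fderiv_fderiv_comm hFt (0, Pi.single i Complex.I) (1, 0)]

theorem contDiffOn_ofReal {U : ℝ × Cn n → ℝ} {Ω : Set (ℝ × Cn n)} (hU : ContDiffOn ℝ ∞ U Ω) :
    ContDiffOn ℝ ∞ (fun p => ((U p : ℝ) : ℂ)) Ω :=
  Complex.ofRealCLM.contDiff.comp_contDiffOn hU

/-- the Hessians of a smooth family are smooth -/
theorem contDiffOn_cHessP {U : ℝ × Cn n → ℝ} {T : Set (Cn n)} (hT : IsOpen T)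
    (hU : ContDiffOn ℝ ∞ U (Set.univ ×ˢ T)) (a b : Fin n) :
    ContDiffOn ℝ ∞ (fun p : ℝ × Cn n => cHess (fun w => U (p.1, w)) p.2 a b)
      (Set.univ ×ˢ T) := by
  have hΩ : IsOpen ((Set.univ : Set ℝ) ×ˢ T) := isOpen_univ.prod hT
  have hF := contDiffOn_ofReal hU
  have hG := contDiffOn_dzbP hΩ hF b
  have hH := contDiffOn_dzP hΩ hG a
  refine hH.congr ?_
  rintro ⟨t, z⟩ ⟨-, hz⟩
  unfold cHess
  have hz' : z ∈ T := hz
  have e1 : (fun w => dzb b (fun w' => ((U (t, w') : ℝ) : ℂ)) w) =ᶠ[𝓝 z]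
      fun w => dzbP b (fun p => ((U p : ℝ) : ℂ)) (t, w) := by
    filter_upwards [hT.mem_nhds hz'] with w hw
    exact dzb_eq (F := fun p => ((U p : ℝ) : ℂ)) b
      ((hF.contDiffAt (hΩ.mem_nhds ⟨Set.mem_univ _, hw⟩)).differentiableAt (by simp))
  have e2 : dz a (fun w => dzb b (fun w' => ((U (t, w') : ℝ) : ℂ)) w) z =
      dz a (fun w => dzbP b (fun p => ((U p : ℝ) : ℂ)) (t, w)) z := by
    unfold dz
    rw [e1.fderiv_eq]
  simp only
  rw [e2]
  exact dz_eq (F := dzbP b (fun p => ((U p : ℝ) : ℂ))) a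
    ((hG.contDiffAt (hΩ.mem_nhds ⟨Set.mem_univ _, hz'⟩)).differentiableAt (by simp))

/-- the time derivative commutes with the complex Hessian -/
theorem hasDerivAt_cHess {U : ℝ × Cn n → ℝ} {T : Set (Cn n)} (hT : IsOpen T)
    (hU : ContDiffOn ℝ ∞ U (Set.univ ×ˢ T)) (a b : Fin n) {t : ℝ} {z : Cn n} (hz : z ∈ T) :
    HasDerivAt (fun s => cHess (fun w => U (s, w)) z a b)
      (cHess (fun w => deriv (fun s => U (s, w)) t) z a b) t := by
  have hΩ : IsOpen ((Set.univ : Set ℝ) ×ˢ T) := isOpen_univ.prod hT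
  have hF := contDiffOn_ofReal hU
  have hG := contDiffOn_dzbP hΩ hF b
  have hFd : ∀ s : ℝ, ∀ w ∈ T, DifferentiableAt ℝ (fun p => ((U p : ℝ) : ℂ)) (s, w) :=
    fun s w hw => (hF.contDiffAt (hΩ.mem_nhds ⟨Set.mem_univ _, hw⟩)).differentiableAt (by simp)
  have hGd : ∀ s : ℝ, ∀ w ∈ T, DifferentiableAt ℝ (dzbP b (fun p => ((U p : ℝ) : ℂ))) (s, w) :=
    fun s w hw => (hG.contDiffAt (hΩ.mem_nhds ⟨Set.mem_univ _, hw⟩)).differentiableAt (by simp)
  have key := hasDerivAt_dz hT hG a (t := t) hz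
  have e0 : (fun s => cHess (fun w => U (s, w)) z a b) =
      fun s => dz a (fun w => dzbP b (fun p => ((U p : ℝ) : ℂ)) (s, w)) z := by
    funext s
    unfold cHess
    have e1 : (fun w => dzb b (fun w' => ((U (s, w') : ℝ) : ℂ)) w) =ᶠ[𝓝 z]
        fun w => dzbP b (fun p => ((U p : ℝ) : ℂ)) (s, w) := by
      filter_upwards [hT.mem_nhds hz] with w hw
      exact dzb_eq (F := fun p => ((U p : ℝ) : ℂ)) b (hFd s w hw)
    unfold dz
    rw [e1.fderiv_eq]
  rw [e0]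
  refine key.congr_deriv ?_
  unfold cHess
  have e2 : (fun w => fderiv ℝ (dzbP b (fun p => ((U p : ℝ) : ℂ))) (t, w) (1, 0)) =ᶠ[𝓝 z]
      fun w => dzb b (fun w' => ((deriv (fun s => U (s, w')) t : ℝ) : ℂ)) w := by
    filter_upwards [hT.mem_nhds hz] with w hw
    have h1 := (hasDerivAt_left (hGd t w hw)).deriv
    have h2 := (hasDerivAt_dzb hT hF b (t := t) hw).deriv
    have h3 : (fun s => dzb b (fun w' => (fun p : ℝ × Cn n => ((U p : ℝ) : ℂ)) (s, w')) w) =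
        fun s => dzbP b (fun p => ((U p : ℝ) : ℂ)) (s, w) := by
      funext s
      exact dzb_eq (F := fun p => ((U p : ℝ) : ℂ)) b (hFd s w hw)
    rw [h3] at h2
    rw [← h1, h2]
    have h4 : (fun w' => fderiv ℝ (fun p : ℝ × Cn n => ((U p : ℝ) : ℂ)) (t, w') (1, 0)) =ᶠ[𝓝 w]
        fun w' => ((deriv (fun s => U (s, w')) t : ℝ) : ℂ) := by
      filter_upwards [hT.mem_nhds hw] with w' hw'
      have h5 := (hasDerivAt_left (hFd t w' hw')).deriv
      rw [← h5]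
      have hUd : DifferentiableAt ℝ U (t, w') :=
        (hU.contDiffAt (hΩ.mem_nhds ⟨Set.mem_univ _, hw'⟩)).differentiableAt (by simp)
      have h6 := (hasDerivAt_left hUd)
      have h7 := h6.ofReal_comp
      rw [h7.deriv, h6.deriv]
    unfold dzb
    rw [h4.fderiv_eq]
  unfold dz
  rw [e2.fderiv_eq]

end PathAux

end

end Pool.Agent.KS
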