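import Pool.Agent.KS.Energy
import Pool.Agent.KS.PathAux

/-!
# Smooth paths of potentials, derivatives of the energy (module PATH)
-/

namespace Pool.Agent.KS

open MeasureTheory Complex Topology
open scoped ContDiff Matrix ComplexOrder ComplexConjugate Manifold

noncomputable section

namespace CSurf

variable {M ι : Type} [TopologicalSpace M]

/-- smooth paths of functions -/
def SPath (S : CSurf M ι) (u : ℝ → M → ℝ) : Prop :=
  ∀ i, ContDiffOn ℝ ∞ (fun p : ℝ × C2 => u p.1 ((S.ch i).symm p.2))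
    (Set.univ ×ˢ (S.ch i).target)

/-- time derivative -/
def td (u : ℝ → M → ℝ) (t : ℝ) (x : M) : ℝ := deriv (fun s => u s x) t

variable {S : CSurf M ι} {u : ℝ → M → ℝ}

theorem SPath.sm (hu : S.SPath u) (t : ℝ) : S.Sm (u t) := by
  intro i
  have h : ContDiffOn ℝ ∞ (fun z : C2 => ((t, z) : ℝ × C2)) (S.ch i).target :=
    contDiffOn_const.prodMk contDiffOn_id
  exact (hu i).comp h (fun z hz => ⟨Set.mem_univ _, hz⟩)

theorem SPath.differentiableAt (hu : S.SPath u) (i : ι) (t : ℝ) {z : C2}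
    (hz : z ∈ (S.ch i).target) :
    DifferentiableAt ℝ (fun p : ℝ × C2 => u p.1 ((S.ch i).symm p.2)) (t, z) :=
  ((hu i).contDiffAt ((isOpen_univ.prod (S.ch i).open_target).mem_nhds
    ⟨Set.mem_univ _, hz⟩)).differentiableAt (by simp)

theorem SPath.td (hu : S.SPath u) : S.SPath (td u) := by
  intro i
  have hΩ : IsOpen ((Set.univ : Set ℝ) ×ˢ (S.ch i).target) :=
    isOpen_univ.prod (S.ch i).open_target
  refine (PathAux.contDiffOn_fderiv_apply hΩ (hu i) (1, 0)).congr ?_
  rintro ⟨t, z⟩ ⟨-, hz⟩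
  exact (PathAux.hasDerivAt_left (hu.differentiableAt i t hz)).deriv

theorem SPath.hasDerivAt (hu : S.SPath u) (t : ℝ) (x : M) :
    HasDerivAt (fun s => u s x) (CSurf.td u t x) t := by
  obtain ⟨i, hi⟩ := S.cover x
  have h := PathAux.hasDerivAt_left (hu.differentiableAt i t ((S.ch i).map_source hi))
  simp only [(S.ch i).left_inv hi] at h
  unfold CSurf.td
  rw [h.deriv]
  exact h

theorem SPath.add {v : ℝ → M → ℝ} (hu : S.SPath u) (hv : S.SPath v) :
    S.SPath (fun t x => u t x + v t x) := fun i => (hu i).add (hv i)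

theorem SPath.mul {v : ℝ → M → ℝ} (hu : S.SPath u) (hv : S.SPath v) :
    S.SPath (fun t x => u t x * v t x) := fun i => (hu i).mul (hv i)

theorem SPath.of_sm {v : M → ℝ} (hv : S.Sm v) : S.SPath (fun _ => v) := by
  intro i
  exact (hv i).comp contDiffOn_snd (fun p hp => hp.2)

theorem SPath.continuous (hu : S.SPath u) : Continuous (fun p : ℝ × M => u p.1 p.2) := by
  rw [continuous_iff_continuousAt]
  rintro ⟨t, x⟩
  obtain ⟨i, hi⟩ := S.cover x
  have h1 := (hu.differentiableAt i t ((S.ch i).map_source hi)).continuousAt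
  have h2 : ContinuousAt (fun p : ℝ × M => ((p.1, S.ch i p.2) : ℝ × C2)) (t, x) := by
    refine ContinuousAt.prodMk continuousAt_fst ?_
    exact ((S.ch i).continuousAt hi).comp continuousAt_snd
  have h3 : ContinuousAt (fun p : ℝ × M => u p.1 ((S.ch i).symm (S.ch i p.2))) (t, x) :=
    ContinuousAt.comp (f := fun p : ℝ × M => ((p.1, S.ch i p.2) : ℝ × C2))
      (g := fun p : ℝ × C2 => u p.1 ((S.ch i).symm p.2)) h1 h2
  refine h3.congr ?_
  have h4 : ∀ᶠ p : ℝ × M in 𝓝 (t, x), p.2 ∈ (S.ch i).source :=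
    continuousAt_snd.eventually ((S.ch i).open_source.mem_nhds hi)
  filter_upwards [h4] with p hp
  rw [(S.ch i).left_inv hp]

/-- smooth paths of forms -/
structure FPath (S : CSurf M ι) (A : ℝ → ι → C2 → ℝ) : Prop where
  frm : ∀ t, S.IsFrm (A t)
  smooth : ∀ i, ContDiffOn ℝ ∞ (fun p : ℝ × C2 => A p.1 i p.2)
    (Set.univ ×ˢ (S.ch i).target)

/-- time derivative of a path of forms -/
def tdF (A : ℝ → ι → C2 → ℝ) (t : ℝ) (i : ι) (z : C2) : ℝ := deriv (fun s => A s i z) t

theorem FPath.const {A : ι → C2 → ℝ} (hA : S.IsFrm A) : S.FPath (fun _ => A) where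
  frm _ := hA
  smooth i := (hA.smooth i).comp contDiffOn_snd (fun _ hp => hp.2)

theorem FPath.add {A B : ℝ → ι → C2 → ℝ} (hA : S.FPath A) (hB : S.FPath B) :
    S.FPath (fun t => A t + B t) where
  frm t := (hA.frm t).add (hB.frm t)
  smooth i := (hA.smooth i).add (hB.smooth i)

theorem SPath.fnF (hu : S.SPath u) : S.FPath (fun t => S.fnF (u t)) where
  frm t := isFrm_fnF (hu.sm t)
  smooth i := hu i

theorem FPath.hasDerivAt_cHess {A : ℝ → ι → C2 → ℝ} (hA : S.FPath A) (i : ι) (a b : Fin 2)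
    {t : ℝ} {z : C2} (hz : z ∈ (S.ch i).target) :
    HasDerivAt (fun s => cHess (A s i) z a b) (cHess (tdF A t i) z a b) t :=
  PathAux.hasDerivAt_cHess (U := fun p : ℝ × C2 => A p.1 i p.2) (S.ch i).open_target
    (hA.smooth i) a b hz

theorem FPath.contDiffOn_cHess {A : ℝ → ι → C2 → ℝ} (hA : S.FPath A) (i : ι) (a b : Fin 2) :
    ContDiffOn ℝ ∞ (fun p : ℝ × C2 => cHess (A p.1 i) p.2 a b)
      (Set.univ ×ˢ (S.ch i).target) :=
  PathAux.contDiffOn_cHessP (U := fun p : ℝ × C2 => A p.1 i p.2) (S.ch i).open_target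
    (hA.smooth i) a b

variable {φ : ι → C2 → ℝ}

theorem FPath.den (hφ : S.IsKah φ) {A B : ℝ → ι → C2 → ℝ} (hA : S.FPath A) (hB : S.FPath B) :
    S.SPath (fun t => S.den φ (A t) (B t)) := by
  intro i
  have h1 : ContDiffOn ℝ ∞ (fun p : ℝ × C2 => dt (φ i) p.2) (Set.univ ×ˢ (S.ch i).target) :=
    (contDiffOn_dt (S.ch i).open_target (hφ.smooth i)).comp contDiffOn_snd (fun p hp => hp.2)
  have h2 : ContDiffOn ℝ ∞ (fun p : ℝ × C2 => Dm (A p.1 i) (B p.1 i) p.2)
      (Set.univ ×ˢ (S.ch i).target) := by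
    unfold Dm mdet
    have hre : ContDiff ℝ ∞ (fun z : ℂ => z.re) := Complex.reCLM.contDiff
    refine hre.comp_contDiffOn (ContDiffOn.div_const ?_ 2)
    exact ((((hA.contDiffOn_cHess i 0 0).mul (hB.contDiffOn_cHess i 1 1)).add
      ((hA.contDiffOn_cHess i 1 1).mul (hB.contDiffOn_cHess i 0 0))).sub
      ((hA.contDiffOn_cHess i 0 1).mul (hB.contDiffOn_cHess i 1 0))).sub
      ((hA.contDiffOn_cHess i 1 0).mul (hB.contDiffOn_cHess i 0 1))
  refine (h2.div h1 (fun p hp => (hφ.dt_pos i hp.2).ne')).congr ?_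
  rintro ⟨t, z⟩ ⟨-, hz⟩
  have hz' : z ∈ (S.ch i).target := hz
  simp only
  rw [den_eq hφ (hA.frm t) (hB.frm t) i ((S.ch i).map_target hz'), (S.ch i).right_inv hz']
  rfl

theorem td_den {A B : ℝ → ι → C2 → ℝ} (hA : S.FPath A) (hB : S.FPath B) (t : ℝ) (x : M) :
    td (fun s => S.den φ (A s) (B s)) t x =
      S.den φ (tdF A t) (B t) x + S.den φ (A t) (tdF B t) x := by
  have hz : S.ch (S.idx x) x ∈ (S.ch (S.idx x)).target :=
    (S.ch (S.idx x)).map_source (S.idx_mem x)
  have hA' := fun a b => hA.hasDerivAt_cHess (S.idx x) a b (t := t) hz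
  have hB' := fun a b => hB.hasDerivAt_cHess (S.idx x) a b (t := t) hz
  have h1 := (((((hA' 0 0).mul (hB' 1 1)).add ((hA' 1 1).mul (hB' 0 0))).sub
    ((hA' 0 1).mul (hB' 1 0))).sub ((hA' 1 0).mul (hB' 0 1))).div_const 2
  have h2 := (Complex.reCLM.hasFDerivAt.comp_hasDerivAt t h1).div_const
    (dt (φ (S.idx x)) (S.ch (S.idx x) x))
  unfold td den Dm mdet
  refine (HasDerivAt.deriv (h2.congr_deriv ?_))
  simp only [Complex.reCLM_apply]
  rw [← add_div, ← Complex.add_re]
  congr 2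
  ring

theorem tdF_add_fnF (φ : ι → C2 → ℝ) (u : ℝ → M → ℝ) (t : ℝ) :
    tdF (fun s => φ + S.fnF (u s)) t = S.fnF (td u t) := by
  funext i z
  simp only [tdF, CSurf.fnF, td, Pi.add_apply]
  exact deriv_const_add _

theorem tdF_const (A : ι → C2 → ℝ) (t : ℝ) : tdF (fun _ => A) t = 0 := by
  funext i z
  simp [tdF]

theorem den_zero_left (φ B : ι → C2 → ℝ) (x : M) : S.den φ 0 B x = 0 := by
  have h : cHess ((0 : ι → C2 → ℝ) (S.idx x)) (S.ch (S.idx x) x) = 0 :=
    cHess_const 0 _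
  unfold den Dm
  rw [h]
  simp [mdet]

theorem den_zero_right (φ B : ι → C2 → ℝ) (x : M) : S.den φ B 0 x = 0 := by
  rw [den_comm]; exact den_zero_left φ B x

theorem td_mul {v : ℝ → M → ℝ} (hu : S.SPath u) (hv : S.SPath v) (t : ℝ) (x : M) :
    td (fun s x => u s x * v s x) t x = td u t x * v t x + u t x * td v t x :=
  ((hu.hasDerivAt t x).mul (hv.hasDerivAt t x)).deriv

theorem td_add {v : ℝ → M → ℝ} (hu : S.SPath u) (hv : S.SPath v) (t : ℝ) (x : M) :
    td (fun s x => u s x + v s x) t x = td u t x + td v t x :=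
  ((hu.hasDerivAt t x).add (hv.hasDerivAt t x)).deriv

theorem fpath_kah (hφ : S.IsKah φ) (hu : S.SPath u) : S.FPath (fun t => φ + S.fnF (u t)) :=
  (FPath.const hφ.toIsFrm).add hu.fnF

theorem td_den_one (hφ : S.IsKah φ) (hu : S.SPath u) (t : ℝ) (x : M) :
    td (fun s => S.den φ φ (φ + S.fnF (u s))) t x = S.den φ φ (S.fnF (td u t)) x := by
  rw [td_den (FPath.const hφ.toIsFrm) (fpath_kah hφ hu), tdF_const, den_zero_left, zero_add,
    tdF_add_fnF]

theorem td_den_two (hφ : S.IsKah φ) (hu : S.SPath u) (t : ℝ) (x : M) :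
    td (fun s => S.den φ (φ + S.fnF (u s)) (φ + S.fnF (u s))) t x =
      2 * S.den φ (S.fnF (td u t)) (φ + S.fnF (u t)) x := by
  rw [td_den (fpath_kah hφ hu) (fpath_kah hφ hu), tdF_add_fnF, den_comm φ (φ + S.fnF (u t))]
  ring

variable [MeasurableSpace M] [BorelSpace M] [CompactSpace M] [T2Space M] [Fintype ι]
  {ν : Measure M}

/-- differentiation under the integral sign -/
theorem SPath.hasDerivAt_integral (hφ : S.IsKah φ) (hν : S.IsVolF φ ν) (hu : S.SPath u) (t : ℝ) :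
    HasDerivAt (fun s => ∫ x, u s x ∂ν) (∫ x, CSurf.td u t x ∂ν) t := by
  have := hν.finite hφ
  have hc := hu.td.continuous
  have hK : IsCompact (Set.Icc (t - 1) (t + 1) ×ˢ (Set.univ : Set M)) :=
    isCompact_Icc.prod isCompact_univ
  obtain ⟨C, hC⟩ := hK.exists_bound_of_continuousOn hc.continuousOn
  have hcu : ∀ s, Continuous (u s) := fun s => (hu.sm s).continuous
  refine (hasDerivAt_integral_of_dominated_loc_of_deriv_le (bound := fun _ => C)
    (F := fun s x => u s x) (F' := fun s x => CSurf.td u s x)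
    (Icc_mem_nhds (a := t - 1) (b := t + 1) (by linarith) (by linarith))
    (Filter.Eventually.of_forall fun s => ?_) ?_ ?_ ?_ ?_ ?_).2
  · exact (integrable_of_sm hφ hν (hcu s)).aestronglyMeasurable
  · exact integrable_of_sm hφ hν (hcu t)
  · exact (integrable_of_sm hφ hν ((hu.td.sm t).continuous)).aestronglyMeasurable
  · refine Filter.Eventually.of_forall fun x s hs => ?_
    exact hC (s, x) ⟨hs, Set.mem_univ _⟩
  · exact integrable_const C
  · exact Filter.Eventually.of_forall fun x s _ => hu.hasDerivAt s x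

theorem integrable_sm (hφ : S.IsKah φ) (hν : S.IsVolF φ ν) {v : M → ℝ} (hv : S.Sm v) :
    Integrable v ν := integrable_of_sm hφ hν hv.continuous

/-- first derivative of the energy -/
theorem hasDerivAt_En (hφ : S.IsKah φ) (hν : S.IsVolF φ ν) (hu : S.SPath u) (t : ℝ) :
    HasDerivAt (fun s => S.En φ ν (u s))
      (∫ x, td u t x * S.den φ (φ + S.fnF (u t)) (φ + S.fnF (u t)) x ∂ν) t := by
  have hA := fpath_kah hφ hu
  have hF0 := FPath.const hφ.toIsFrm
  have hD0 : S.SPath (fun _ => S.den φ φ φ) := FPath.den hφ hF0 hF0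
  have hD1 : S.SPath (fun s => S.den φ φ (φ + S.fnF (u s))) := FPath.den hφ hF0 hA
  have hD2 : S.SPath (fun s => S.den φ (φ + S.fnF (u s)) (φ + S.fnF (u s))) :=
    FPath.den hφ hA hA
  have hD : S.SPath (fun s x => S.den φ φ φ x + S.den φ φ (φ + S.fnF (u s)) x
      + S.den φ (φ + S.fnF (u s)) (φ + S.fnF (u s)) x) := (hD0.add hD1).add hD2
  have h1 := (hu.mul hD).hasDerivAt_integral hφ hν t
  have h2 := h1.const_mul (1 / 3 : ℝ)
  refine h2.congr_deriv ?_
  have htd0 : ∀ x, td (fun _ : ℝ => S.den φ φ φ) t x = 0 := fun x => by simp [td]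
  have e1 : ∀ x, td (fun s x => u s x * (S.den φ φ φ x + S.den φ φ (φ + S.fnF (u s)) x
      + S.den φ (φ + S.fnF (u s)) (φ + S.fnF (u s)) x)) t x =
      td u t x * (S.den φ φ φ x + S.den φ φ (φ + S.fnF (u t)) x
      + S.den φ (φ + S.fnF (u t)) (φ + S.fnF (u t)) x) +
      (u t x * S.den φ (S.fnF (td u t)) φ x +
        2 * (u t x * S.den φ (S.fnF (td u t)) (φ + S.fnF (u t)) x)) := by
    intro x
    rw [td_mul hu hD, td_add (hD0.add hD1) hD2, td_add hD0 hD1, htd0, td_den_one hφ hu,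
      td_den_two hφ hu, den_comm φ φ (S.fnF (td u t))]
    ring
  simp_rw [e1]
  have hut := hu.sm t
  have hdt := hu.td.sm t
  have s0 : S.Sm (S.den φ φ φ) := sm_den hφ hφ.toIsFrm hφ.toIsFrm
  have s1 : S.Sm (S.den φ φ (φ + S.fnF (u t))) := sm_den hφ hφ.toIsFrm (hA.frm t)
  have s2 : S.Sm (S.den φ (φ + S.fnF (u t)) (φ + S.fnF (u t))) := sm_den hφ (hA.frm t) (hA.frm t)
  have s3 : S.Sm (S.den φ (S.fnF (td u t)) φ) := sm_den hφ (isFrm_fnF hdt) hφ.toIsFrm
  have s4 : S.Sm (S.den φ (S.fnF (td u t)) (φ + S.fnF (u t))) :=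
    sm_den hφ (isFrm_fnF hdt) (hA.frm t)
  have i0 := integrable_sm hφ hν (hdt.mul s0)
  have i1 := integrable_sm hφ hν (hdt.mul s1)
  have i2 := integrable_sm hφ hν (hdt.mul s2)
  have i012 := integrable_sm hφ hν (hdt.mul ((s0.add s1).add s2))
  have i3 := integrable_sm hφ hν (hut.mul s3)
  have i4 := integrable_sm hφ hν (hut.mul s4)
  have hfn : ∀ B : ι → C2 → ℝ, S.IsFrm B → ∀ x, S.den φ (S.fnF (u t)) B x =
      S.den φ (φ + S.fnF (u t)) B x - S.den φ φ B x := by
    intro B hB x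
    rw [den_add_left hφ.toIsFrm (isFrm_fnF hut)]
    ring
  have i4' : Integrable (fun x => 2 * (u t x * S.den φ (S.fnF (td u t)) (φ + S.fnF (u t)) x)) ν :=
    i4.const_mul 2
  have i34 : Integrable (fun x => u t x * S.den φ (S.fnF (td u t)) φ x +
        2 * (u t x * S.den φ (S.fnF (td u t)) (φ + S.fnF (u t)) x)) ν := i3.add i4'
  have i01 : Integrable (fun x => td u t x * S.den φ φ φ x +
        td u t x * S.den φ φ (φ + S.fnF (u t)) x) ν := i0.add i1
  rw [integral_add i012 i34, integral_add i3 i4',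
    integral_const_mul, gibp hφ hν hut hdt hφ.toIsFrm, gibp hφ hν hut hdt (hA.frm t)]
  simp_rw [hfn φ hφ.toIsFrm, hfn _ (hA.frm t), den_comm φ (φ + S.fnF (u t)) φ]
  simp_rw [mul_add, mul_sub]
  rw [integral_sub i1 i0, integral_sub i2 i1, integral_add i01 i2, integral_add i0 i1]
  ring

/-- second derivative of the energy -/
theorem hasDerivAt_En' (hφ : S.IsKah φ) (hν : S.IsVolF φ ν) (hu : S.SPath u) (t : ℝ) :
    HasDerivAt (fun s => ∫ x, td u s x * S.den φ (φ + S.fnF (u s)) (φ + S.fnF (u s)) x ∂ν)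
      (∫ x, (td (td u) t x * S.den φ (φ + S.fnF (u t)) (φ + S.fnF (u t)) x
        - 2 * S.gden φ (td u t) (φ + S.fnF (u t)) x) ∂ν) t := by
  have hA := fpath_kah hφ hu
  have hD2 : S.SPath (fun s => S.den φ (φ + S.fnF (u s)) (φ + S.fnF (u s))) :=
    FPath.den hφ hA hA
  have h1 := (hu.td.mul hD2).hasDerivAt_integral hφ hν t
  refine h1.congr_deriv ?_
  have hdt := hu.td.sm t
  have hdd := hu.td.td.sm t
  have s2 : S.Sm (S.den φ (φ + S.fnF (u t)) (φ + S.fnF (u t))) := sm_den hφ (hA.frm t) (hA.frm t)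
  have s4 : S.Sm (S.den φ (S.fnF (td u t)) (φ + S.fnF (u t))) :=
    sm_den hφ (isFrm_fnF hdt) (hA.frm t)
  have hsq : S.Sm (fun x => td u t x ^ 2) := by
    have := hdt.mul hdt
    simpa only [pow_two] using this
  have s5 : S.Sm (S.den φ (S.fnF fun y => td u t y ^ 2) (φ + S.fnF (u t))) :=
    sm_den hφ (isFrm_fnF hsq) (hA.frm t)
  have e1 : ∀ x, td (fun s x => td u s x * S.den φ (φ + S.fnF (u s)) (φ + S.fnF (u s)) x) t x =
      td (td u) t x * S.den φ (φ + S.fnF (u t)) (φ + S.fnF (u t)) x +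
      2 * (td u t x * S.den φ (S.fnF (td u t)) (φ + S.fnF (u t)) x) := by
    intro x
    rw [td_mul hu.td hD2, td_den_two hφ hu]
    ring
  have e2 : ∀ x, 2 * S.gden φ (td u t) (φ + S.fnF (u t)) x =
      S.den φ (S.fnF fun y => td u t y ^ 2) (φ + S.fnF (u t)) x -
      2 * (td u t x * S.den φ (S.fnF (td u t)) (φ + S.fnF (u t)) x) := by
    intro x
    rw [den_sq hdt x]
    ring
  simp_rw [e1, e2]
  have i1 := integrable_sm hφ hν (hdd.mul s2)
  have i2 := integrable_sm hφ hν (hdt.mul s4)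
  have i3 := integrable_sm hφ hν s5
  have i2' : Integrable (fun x => 2 * (td u t x * S.den φ (S.fnF (td u t)) (φ + S.fnF (u t)) x)) ν :=
    i2.const_mul 2
  have i32 : Integrable (fun x => S.den φ (S.fnF fun y => td u t y ^ 2) (φ + S.fnF (u t)) x -
      2 * (td u t x * S.den φ (S.fnF (td u t)) (φ + S.fnF (u t)) x)) ν := i3.sub i2'
  rw [integral_add i1 i2', integral_sub i1 i32,
    integral_sub i3 i2', integral_den_fnF hφ hν hsq (hA.frm t)]
  ring

/-- a convex path whose energy grows at most linearly with slope `b` has initial slope `≤ b` -/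
theorem slope_le (hφ : S.IsKah φ) (hν : S.IsVolF φ ν) (hu : S.SPath u)
    (hconv : ∀ t x, 2 * S.gden φ (td u t) (φ + S.fnF (u t)) x
      ≤ td (td u) t x * S.den φ (φ + S.fnF (u t)) (φ + S.fnF (u t)) x)
    {b C : ℝ} (hb : ∀ t : ℝ, 0 ≤ t → S.En φ ν (u t) ≤ b * t + C) :
    ∫ x, td u 0 x * S.den φ (φ + S.fnF (u 0)) (φ + S.fnF (u 0)) x ∂ν ≤ b := by
  set g : ℝ → ℝ := fun s => ∫ x, td u s x * S.den φ (φ + S.fnF (u s)) (φ + S.fnF (u s)) x ∂ν
    with hg
  have hmono : Monotone g := by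
    refine monotone_of_deriv_nonneg (fun t => (hasDerivAt_En' hφ hν hu t).differentiableAt) ?_
    intro t
    rw [(hasDerivAt_En' hφ hν hu t).deriv]
    exact integral_nonneg fun x => sub_nonneg.mpr (hconv t x)
  change g 0 ≤ b
  by_contra hlt
  push Not at hlt
  -- `En (u t) ≥ En (u 0) + g 0 * t`
  have hlow : ∀ t : ℝ, 0 ≤ t → S.En φ ν (u 0) + g 0 * t ≤ S.En φ ν (u t) := by
    intro t ht
    have hmono2 : MonotoneOn (fun s => S.En φ ν (u s) - g 0 * s) (Set.Ici 0) := by
      refine monotoneOn_of_deriv_nonneg (convex_Ici 0) ?_ ?_ ?_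
      · exact fun s _ => (((hasDerivAt_En hφ hν hu s).sub
          ((hasDerivAt_id s).const_mul (g 0))).continuousAt).continuousWithinAt
      · exact fun s _ => (((hasDerivAt_En hφ hν hu s).sub
          ((hasDerivAt_id s).const_mul (g 0))).differentiableAt).differentiableWithinAt
      · intro s hs
        rw [interior_Ici] at hs
        have h := ((hasDerivAt_En hφ hν hu s).sub ((hasDerivAt_id s).const_mul (g 0))).deriv
        have h' : deriv (fun s => S.En φ ν (u s) - g 0 * s) s = g s - g 0 * 1 := h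
        rw [h']
        have := hmono (le_of_lt hs)
        linarith
    have := hmono2 (Set.mem_Ici.mpr le_rfl) (Set.mem_Ici.mpr ht) ht
    simp only at this
    linarith
  have hpos : 0 < g 0 - b := by linarith
  set T : ℝ := (|C - S.En φ ν (u 0)| + 1) / (g 0 - b) with hT
  have hT0 : 0 ≤ T := by positivity
  have h1 := hlow T hT0
  have h2 := hb T hT0
  have h3 : (g 0 - b) * T = |C - S.En φ ν (u 0)| + 1 := by
    rw [hT]; field_simp
  have h4 := le_abs_self (C - S.En φ ν (u 0))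
  nlinarith

/-- energy along a path with constant speed of energy -/
theorem En_eq_of_slope (hφ : S.IsKah φ) (hν : S.IsVolF φ ν) (hu : S.SPath u) {b : ℝ}
    (hb : ∀ t : ℝ, ∫ x, td u t x * S.den φ (φ + S.fnF (u t)) (φ + S.fnF (u t)) x ∂ν = b) (t : ℝ) :
    S.En φ ν (u t) = S.En φ ν (u 0) + b * t := by
  have hd : ∀ s, HasDerivAt (fun s => S.En φ ν (u s) - b * s) 0 s := by
    intro s
    have h := (hasDerivAt_En hφ hν hu s).sub ((hasDerivAt_id s).const_mul b)
    refine h.congr_deriv ?_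
    rw [hb s]
    simp
  have h := is_const_of_deriv_eq_zero (fun s => (hd s).differentiableAt) (fun s => (hd s).deriv) t 0
  linarith

end CSurf

end

end Pool.Agent.KS
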