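import Pool.Agent.KS.Calc

/-!
# Radial integrals (module RADIAL)
-/

namespace Pool.Agent.KS

open MeasureTheory Complex Topology
open scoped ContDiff Matrix ComplexOrder ComplexConjugate Manifold Interval

noncomputable section

/-- `log (|λ|² (1 + |x|²))`, `z = (x, λ)`. -/
def ll (z : C2) : ℝ := Real.log (‖z 1‖ ^ 2) + Real.log (1 + ‖z 0‖ ^ 2)

/-! ### Derivatives of coordinates -/

theorem dz_coord_radial (i j : Fin 2) (z : C2) :
    dz i (fun w : C2 => w j) z = if i = j then 1 else 0 := by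
  rw [dz_holo i (by fun_prop)]
  have h : HasFDerivAt (fun w : C2 => w j) (ContinuousLinearMap.proj (R := ℂ) (φ := fun _ => ℂ) j) z :=
    (ContinuousLinearMap.proj (R := ℂ) (φ := fun _ => ℂ) j).hasFDerivAt
  rw [h.fderiv]
  simp only [ContinuousLinearMap.proj_apply, Pi.single_apply, eq_comm]

theorem gz_log_coord (i : Fin 2) {z : C2} (hz : z 1 ≠ 0) :
    gz i (fun w : C2 => Real.log (‖w 1‖ ^ 2)) z = if i = 1 then 1 / z 1 else 0 := by
  have hne : ‖z 1‖ ^ 2 ≠ 0 := by positivity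
  have hd : DifferentiableAt ℝ (fun w : C2 => ‖w 1‖ ^ 2) z := by
    have : (fun w : C2 => ‖w 1‖ ^ 2) = fun w : C2 => (w 1).re ^ 2 + (w 1).im ^ 2 := by
      funext w; rw [Complex.sq_norm, Complex.normSq_apply]; ring
    rw [this]
    have h1 : DifferentiableAt ℝ (fun w : C2 => (w 1).re) z := by
      exact Complex.reCLM.differentiableAt.comp z (by fun_prop)
    have h2 : DifferentiableAt ℝ (fun w : C2 => (w 1).im) z := by
      exact Complex.imCLM.differentiableAt.comp z (by fun_prop)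
    fun_prop
  rw [gz_real_comp (u := fun w : C2 => ‖w 1‖ ^ 2) (h := Real.log) i hd
    (Real.differentiableAt_log hne)]
  have h3 := gz_sum_norm_sq (α := Unit) (F := fun _ (w : C2) => w 1) (fun _ => 1) (z := z) i
    (fun _ => by fun_prop)
  simp only [Finset.univ_unique, Finset.sum_singleton, one_mul, Complex.ofReal_one] at h3
  rw [h3, dz_coord_radial, Real.deriv_log]
  have hz' : (z 1) * conj (z 1) = ((‖z 1‖ ^ 2 : ℝ) : ℂ) := by
    rw [Complex.mul_conj, Complex.normSq_eq_norm_sq]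
  have hne' : ((‖z 1‖ ^ 2 : ℝ) : ℂ) ≠ 0 := by exact_mod_cast hne
  split_ifs with h
  · rw [Complex.ofReal_inv, one_mul, inv_mul_eq_div, div_eq_div_iff hne' hz, one_mul, mul_comm]
    exact hz'
  · simp

theorem gz_log_one_add (i : Fin 2) (z : C2) :
    gz i (fun w : C2 => Real.log (1 + ‖w 0‖ ^ 2)) z
      = if i = 0 then conj (z 0) / ((1 + ‖z 0‖ ^ 2 : ℝ) : ℂ) else 0 := by
  have hne : 1 + ‖z 0‖ ^ 2 ≠ 0 := by positivity
  have hd : DifferentiableAt ℝ (fun w : C2 => 1 + ‖w 0‖ ^ 2) z := by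
    have : (fun w : C2 => 1 + ‖w 0‖ ^ 2) = fun w : C2 => 1 + ((w 0).re ^ 2 + (w 0).im ^ 2) := by
      funext w; rw [Complex.sq_norm, Complex.normSq_apply]; ring
    rw [this]
    have h1 : DifferentiableAt ℝ (fun w : C2 => (w 0).re) z := by
      exact Complex.reCLM.differentiableAt.comp z (by fun_prop)
    have h2 : DifferentiableAt ℝ (fun w : C2 => (w 0).im) z := by
      exact Complex.imCLM.differentiableAt.comp z (by fun_prop)
    fun_prop
  rw [gz_real_comp (u := fun w : C2 => 1 + ‖w 0‖ ^ 2) (h := Real.log) i hd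
    (Real.differentiableAt_log hne)]
  have h3 := gz_sum_norm_sq (α := Fin 2) (F := fun a (w : C2) => if a = 0 then 1 else w 0)
    (fun _ => 1) (z := z) i (fun a => by
      fin_cases a
      · simp only [Fin.zero_eta, if_true]; fun_prop
      · simp only [Fin.mk_one, one_ne_zero, if_false]; fun_prop)
  simp only [Fin.sum_univ_two, one_mul, Complex.ofReal_one, if_true, one_ne_zero, if_false,
    norm_one, one_pow, dz_const, zero_mul, zero_add] at h3
  rw [h3, dz_coord_radial, Real.deriv_log]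
  split_ifs with h
  · rw [Complex.ofReal_inv, one_mul, inv_mul_eq_div]
  · simp

theorem cHess_log_one_add (i j : Fin 2) (z : C2) :
    cHess (fun w : C2 => Real.log (1 + ‖w 0‖ ^ 2)) z i j
      = if i = 0 ∧ j = 0 then 1 / ((1 + ‖z 0‖ ^ 2 : ℝ) : ℂ) ^ 2 else 0 := by
  have hne : 1 + ‖z 0‖ ^ 2 ≠ 0 := by positivity
  have h3 := cHess_log_sum_norm_sq (α := Fin 2) (F := fun a (w : C2) => if a = 0 then 1 else w 0)
    (fun _ => 1) (z := z) i j (fun a => by
      fin_cases a
      · simp only [Fin.zero_eta, if_true]; fun_prop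
      · simp only [Fin.mk_one, one_ne_zero, if_false]; fun_prop)
    (by simp only [Fin.sum_univ_two, if_true, one_ne_zero, if_false, norm_one]; positivity)
  simp only [Fin.sum_univ_two, one_mul, Complex.ofReal_one, if_true, one_ne_zero, if_false,
    norm_one, one_pow, dz_const, zero_mul, zero_add, map_zero, mul_zero, map_one] at h3
  rw [h3, dz_coord_radial, dz_coord_radial]
  have hz' : (z 0) * conj (z 0) = ((‖z 0‖ ^ 2 : ℝ) : ℂ) := by
    rw [Complex.mul_conj, Complex.normSq_eq_norm_sq]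
  have hne' : ((1 + ‖z 0‖ ^ 2 : ℝ) : ℂ) ≠ 0 := by exact_mod_cast hne
  by_cases hi : i = 0
  · by_cases hj : j = 0
    · simp only [hi, hj, if_true, and_self, map_one, one_mul, mul_one]
      rw [div_sub_div _ _ hne' (pow_ne_zero 2 hne'), div_eq_div_iff (by positivity)
        (pow_ne_zero 2 hne')]
      have : (conj (z 0)) * z 0 = ((‖z 0‖ ^ 2 : ℝ) : ℂ) := by rw [mul_comm]; exact hz'
      rw [this]
      push_cast
      ring
    · simp [hi, hj]
  · simp [hi]

theorem contDiffAt_norm_sq_coord {k : WithTop ℕ∞} (i : Fin 2) (z : C2) :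
    ContDiffAt ℝ k (fun w : C2 => ‖w i‖ ^ 2) z := by
  have : (fun w : C2 => ‖w i‖ ^ 2) = fun w : C2 => (w i).re ^ 2 + (w i).im ^ 2 := by
    funext w; rw [Complex.sq_norm, Complex.normSq_apply]; ring
  rw [this]
  have h1 : ContDiffAt ℝ k (fun w : C2 => (w i).re) z :=
    Complex.reCLM.contDiff.contDiffAt.comp z (by fun_prop)
  have h2 : ContDiffAt ℝ k (fun w : C2 => (w i).im) z :=
    Complex.imCLM.contDiff.contDiffAt.comp z (by fun_prop)
  exact (h1.pow 2).add (h2.pow 2)

theorem contDiffAt_ll {k : WithTop ℕ∞} {z : C2} (hz : z 1 ≠ 0) : ContDiffAt ℝ k ll z := by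
  unfold ll
  apply ContDiffAt.add
  · exact (contDiffAt_norm_sq_coord 1 z).log (by positivity)
  · exact (contDiffAt_const.add (contDiffAt_norm_sq_coord 0 z)).log (by positivity)

theorem gz_ll (i : Fin 2) {z : C2} (hz : z 1 ≠ 0) :
    gz i ll z = if i = 0 then conj (z 0) / ((1 + ‖z 0‖ ^ 2 : ℝ) : ℂ) else 1 / z 1 := by
  have h1 : DifferentiableAt ℝ (fun w : C2 => ((Real.log (‖w 1‖ ^ 2) : ℝ) : ℂ)) z := by
    have : ContDiffAt ℝ 1 (fun w : C2 => ((Real.log (‖w 1‖ ^ 2) : ℝ) : ℂ)) z :=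
      Complex.ofRealCLM.contDiff.contDiffAt.comp z
        ((contDiffAt_norm_sq_coord 1 z).log (by positivity))
    exact this.differentiableAt (by norm_num)
  have h2 : DifferentiableAt ℝ (fun w : C2 => ((Real.log (1 + ‖w 0‖ ^ 2) : ℝ) : ℂ)) z := by
    have : ContDiffAt ℝ 1 (fun w : C2 => ((Real.log (1 + ‖w 0‖ ^ 2) : ℝ) : ℂ)) z :=
      Complex.ofRealCLM.contDiff.contDiffAt.comp z
        ((contDiffAt_const.add (contDiffAt_norm_sq_coord 0 z)).log (by positivity))
    exact this.differentiableAt (by norm_num)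
  have h3 : gz i ll z = gz i (fun w : C2 => Real.log (‖w 1‖ ^ 2)) z
      + gz i (fun w : C2 => Real.log (1 + ‖w 0‖ ^ 2)) z := by
    unfold gz ll
    simp only [Complex.ofReal_add]
    rw [dz_add i h1 h2]
  rw [h3, gz_log_coord i hz, gz_log_one_add]
  fin_cases i <;> simp

theorem cHess_ll (i j : Fin 2) {z : C2} (hz : z 1 ≠ 0) :
    cHess ll z i j = if i = 0 ∧ j = 0 then 1 / ((1 + ‖z 0‖ ^ 2 : ℝ) : ℂ) ^ 2 else 0 := by
  have h1 : cHess ll z = cHess (fun w : C2 => Real.log (‖w 1‖ ^ 2)) z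
      + cHess (fun w : C2 => Real.log (1 + ‖w 0‖ ^ 2)) z := by
    unfold ll
    exact cHess_add ((contDiffAt_norm_sq_coord 1 z).log (by positivity))
      ((contDiffAt_const.add (contDiffAt_norm_sq_coord 0 z)).log (by positivity))
  have h2 : cHess (fun w : C2 => Real.log (‖w 1‖ ^ 2)) z = 0 :=
    cHess_log_norm_sq (h := fun w : C2 => w 1) (by fun_prop) hz
  rw [h1, h2, zero_add, cHess_log_one_add]

theorem Dm_radial {χ₁ χ₂ : ℝ → ℝ} (h₁ : ContDiff ℝ ∞ χ₁) (h₂ : ContDiff ℝ ∞ χ₂) {z : C2}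
    (hz : z 1 ≠ 0) :
    Dm (fun w => χ₁ (ll w)) (fun w => χ₂ (ll w)) z
      = (1 / 2) * (deriv χ₁ (ll z) * deriv (deriv χ₂) (ll z)
          + deriv (deriv χ₁) (ll z) * deriv χ₂ (ll z)) / ((1 + ‖z 0‖ ^ 2) ^ 2 * ‖z 1‖ ^ 2) := by
  have e1 : ∀ i j, cHess (fun w => χ₁ (ll w)) z i j = _ := fun i j =>
    cHess_real_comp (u := ll) (h := χ₁) (z := z) i j (contDiffAt_ll hz)
      (h₁.contDiffAt.of_le (WithTop.coe_le_coe.mpr le_top))
  have e2 : ∀ i j, cHess (fun w => χ₂ (ll w)) z i j = _ := fun i j =>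
    cHess_real_comp (u := ll) (h := χ₂) (z := z) i j (contDiffAt_ll hz)
      (h₂.contDiffAt.of_le (WithTop.coe_le_coe.mpr le_top))
  unfold Dm mdet
  simp only [e1, e2, cHess_ll _ _ hz, gz_ll _ hz]
  simp only [if_true, and_self, one_ne_zero, if_false, and_true, and_false, mul_zero, zero_add]
  have hz1 : z 1 * conj (z 1) = ((‖z 1‖ ^ 2 : ℝ) : ℂ) := by
    rw [Complex.mul_conj, Complex.normSq_eq_norm_sq]
  have hS : ((1 + ‖z 0‖ ^ 2 : ℝ) : ℂ) ≠ 0 := by
    have : (1 + ‖z 0‖ ^ 2) ≠ 0 := by positivity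
    exact_mod_cast this
  have hz2 : ((‖z 1‖ ^ 2 : ℝ) : ℂ) ≠ 0 := by
    have : (‖z 1‖ ^ 2) ≠ 0 := by positivity
    exact_mod_cast this
  have hcz : conj (z 1) ≠ 0 := by simpa using hz
  set a1 := deriv χ₁ (ll z)
  set a2 := deriv (deriv χ₁) (ll z)
  set b1 := deriv χ₂ (ll z)
  set b2 := deriv (deriv χ₂) (ll z)
  rw [map_div₀, map_div₀, map_one, Complex.conj_conj, Complex.conj_ofReal]
  have key : ∀ (A B C D S x y p q : ℂ), S ≠ 0 → p ≠ 0 → q ≠ 0 →
      (((A * (1 / S ^ 2) + B * (y / S * (x / S))) * (D * (1 / p * (1 / q)))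
        + B * (1 / p * (1 / q)) * (C * (1 / S ^ 2) + D * (y / S * (x / S)))
        - B * (y / S * (1 / q)) * (D * (1 / p * (x / S)))
        - B * (1 / p * (x / S)) * (D * (y / S * (1 / q)))) / 2)
      = (1 / 2) * (A * D + B * C) / (S ^ 2 * (p * q)) := by
    intro A B C D S x y p q hS hp hq
    field_simp
    ring
  rw [key _ _ _ _ _ _ _ _ _ hS hz hcz, hz1]
  rw [← Complex.ofReal_re ((1 / 2) * (a1 * b2 + a2 * b1) / ((1 + ‖z 0‖ ^ 2) ^ 2 * ‖z 1‖ ^ 2))]
  congr 1
  push_cast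
  ring

/-! ### The integral -/

theorem radial_subst (G : ℝ → ℝ) (a : ℝ) :
    (IntegrableOn G (Set.Ioi 0) ↔
      Integrable (fun t : ℝ => (1 / 2 * Real.exp ((t - a) / 2)) * G (Real.exp ((t - a) / 2)))) ∧
    ∫ y in Set.Ioi (0 : ℝ), G y
      = ∫ t : ℝ, (1 / 2 * Real.exp ((t - a) / 2)) * G (Real.exp ((t - a) / 2)) := by
  have hd : ∀ t ∈ (Set.univ : Set ℝ), HasDerivWithinAt (fun t : ℝ => Real.exp ((t - a) / 2))
      (1 / 2 * Real.exp ((t - a) / 2)) Set.univ t := by
    intro t _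
    have h1 : HasDerivAt (fun t : ℝ => (t - a) / 2) (1 / 2) t := by
      simpa using ((hasDerivAt_id t).sub_const a).div_const 2
    have h2 := h1.exp
    rw [mul_comm] at h2
    exact h2.hasDerivWithinAt
  have hinj : Set.InjOn (fun t : ℝ => Real.exp ((t - a) / 2)) Set.univ := by
    intro x _ y _ hxy
    have := Real.exp_injective hxy
    linarith
  have himg : (fun t : ℝ => Real.exp ((t - a) / 2)) '' Set.univ = Set.Ioi 0 := by
    ext y
    simp only [Set.image_univ, Set.mem_range, Set.mem_Ioi]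
    constructor
    · rintro ⟨t, rfl⟩; positivity
    · intro hy
      refine ⟨2 * Real.log y + a, ?_⟩
      rw [show (2 * Real.log y + a - a) / 2 = Real.log y by ring, Real.exp_log hy]
  have h1 := integrableOn_image_iff_integrableOn_abs_deriv_smul MeasurableSet.univ hd hinj G
  have h2 := integral_image_eq_integral_abs_deriv_smul MeasurableSet.univ hd hinj G
  have habs : ∀ t : ℝ, |1 / 2 * Real.exp ((t - a) / 2)| = 1 / 2 * Real.exp ((t - a) / 2) :=
    fun t => abs_of_pos (by positivity)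
  simp only [himg, habs, smul_eq_mul] at h1 h2
  rw [integrableOn_univ] at h1
  rw [setIntegral_univ] at h2
  exact ⟨h1, h2⟩

theorem radial_norm (f : ℝ → ℝ) :
    (Integrable (fun x : ℂ => f ‖x‖) ↔ IntegrableOn (fun y => y * f y) (Set.Ioi 0)) ∧
    ∫ x : ℂ, f ‖x‖ = 2 * Real.pi * ∫ y in Set.Ioi (0 : ℝ), y * f y := by
  constructor
  · have h := integrable_fun_norm_addHaar (volume : Measure ℂ) (f := f)
    rw [Complex.finrank_real_complex] at h
    simpa using h
  · have h := integral_fun_norm_addHaar (volume : Measure ℂ) f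
    rw [Complex.finrank_real_complex] at h
    have hv : (volume : Measure ℂ).real (Metric.ball 0 1) = Real.pi := by
      rw [Measure.real, Complex.volume_ball]
      simp
    rw [hv] at h
    rw [h]
    simp only [Nat.reduceSub, pow_one, smul_eq_mul, nsmul_eq_mul, Nat.cast_ofNat]
    ring

theorem radial_log {F : ℝ → ℝ} (hF : Integrable F) (a : ℝ) :
    Integrable (fun x : ℂ => F (Real.log (‖x‖ ^ 2) + a) / ‖x‖ ^ 2) ∧
    ∫ x : ℂ, F (Real.log (‖x‖ ^ 2) + a) / ‖x‖ ^ 2 = Real.pi * ∫ l, F l := by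
  have h := radial_norm (fun y => F (Real.log (y ^ 2) + a) / y ^ 2)
  have h2 := radial_subst (fun y => y * (F (Real.log (y ^ 2) + a) / y ^ 2)) a
  have e : ∀ t : ℝ, (1 / 2 * Real.exp ((t - a) / 2)) * (Real.exp ((t - a) / 2)
      * (F (Real.log (Real.exp ((t - a) / 2) ^ 2) + a) / Real.exp ((t - a) / 2) ^ 2))
      = 1 / 2 * F t := by
    intro t
    have h1 : Real.log (Real.exp ((t - a) / 2) ^ 2) + a = t := by
      rw [Real.log_pow, Real.log_exp]; push_cast; ring
    rw [h1]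
    have h3 : Real.exp ((t - a) / 2) ≠ 0 := (Real.exp_pos _).ne'
    field_simp
  simp only [e] at h2
  refine ⟨h.1.mpr (h2.1.mpr (hF.const_mul _)), ?_⟩
  rw [h.2, h2.2, integral_const_mul]
  ring

theorem radial_fs : Integrable (fun x : ℂ => 1 / (1 + ‖x‖ ^ 2) ^ 2) ∧
    ∫ x : ℂ, 1 / (1 + ‖x‖ ^ 2) ^ 2 = Real.pi := by
  have h := radial_norm (fun y => 1 / (1 + y ^ 2) ^ 2)
  have hd : ∀ y ∈ Set.Ici (0 : ℝ), HasDerivAt (fun y : ℝ => -(1 / 2) * (1 + y ^ 2)⁻¹)
      (y * (1 / (1 + y ^ 2) ^ 2)) y := by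
    intro y _
    have h1 : HasDerivAt (fun y : ℝ => 1 + y ^ 2) (2 * y) y := by
      simpa using (hasDerivAt_pow 2 y).const_add 1
    have h2 := (h1.inv (by positivity)).const_mul (-(1 / 2) : ℝ)
    refine h2.congr_deriv ?_
    ring
  have hpos : ∀ y ∈ Set.Ioi (0 : ℝ), 0 ≤ y * (1 / (1 + y ^ 2) ^ 2) := by
    intro y hy
    have : (0 : ℝ) < y := hy
    positivity
  have hlim : Filter.Tendsto (fun y : ℝ => -(1 / 2) * (1 + y ^ 2)⁻¹) Filter.atTop (𝓝 0) := by
    have h1 : Filter.Tendsto (fun y : ℝ => 1 + y ^ 2) Filter.atTop Filter.atTop :=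
      Filter.tendsto_atTop_add_const_left _ _ (Filter.tendsto_pow_atTop (by norm_num))
    have h2 := (tendsto_inv_atTop_zero.comp h1).const_mul (-(1 / 2) : ℝ)
    simpa using h2
  have h3 := integrableOn_Ioi_deriv_of_nonneg' hd hpos hlim
  have h4 := integral_Ioi_of_hasDerivAt_of_nonneg' hd hpos hlim
  refine ⟨h.1.mpr h3, ?_⟩
  rw [h.2, h4]
  norm_num
  ring

theorem integral_radial {F : ℝ → ℝ} (hF : Integrable F) (hc : Continuous F) :
    Integrable (fun z : C2 => F (ll z) / ((1 + ‖z 0‖ ^ 2) ^ 2 * ‖z 1‖ ^ 2)) ∧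
    ∫ z : C2, F (ll z) / ((1 + ‖z 0‖ ^ 2) ^ 2 * ‖z 1‖ ^ 2) = Real.pi ^ 2 * ∫ l, F l := by
  set G : ℂ × ℂ → ℝ := fun p => F (Real.log (‖p.2‖ ^ 2) + Real.log (1 + ‖p.1‖ ^ 2))
    / ((1 + ‖p.1‖ ^ 2) ^ 2 * ‖p.2‖ ^ 2) with hG
  have hmeas : Measurable G := by
    rw [hG]
    apply Measurable.div
    · exact hc.measurable.comp (by fun_prop)
    · fun_prop
  have hint : Integrable G (volume.prod volume) := by
    rw [integrable_prod_iff hmeas.aestronglyMeasurable]
    constructor
    · refine Filter.Eventually.of_forall (fun x => ?_)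
      have h := (radial_log hF (Real.log (1 + ‖x‖ ^ 2))).1.mul_const (1 / (1 + ‖x‖ ^ 2) ^ 2)
      refine h.congr (Filter.Eventually.of_forall (fun y => ?_))
      simp only [hG]
      rw [div_mul_div_comm, mul_one, mul_comm (‖y‖ ^ 2)]
    · have e : ∀ x : ℂ, ∫ y, ‖G (x, y)‖ = (Real.pi * ∫ l, ‖F l‖) * (1 / (1 + ‖x‖ ^ 2) ^ 2) := by
        intro x
        have h := (radial_log hF.norm (Real.log (1 + ‖x‖ ^ 2))).2
        rw [← h, ← integral_mul_const]
        congr 1
        funext y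
        simp only [hG]
        rw [norm_div, norm_mul, norm_pow, norm_pow, norm_norm,
          Real.norm_of_nonneg (by positivity : (0 : ℝ) ≤ 1 + ‖x‖ ^ 2), div_mul_div_comm, mul_one,
          mul_comm (‖y‖ ^ 2)]
      simp only [e]
      exact radial_fs.1.const_mul _
  have hint2 : ∫ p, G p ∂(volume.prod volume) = Real.pi ^ 2 * ∫ l, F l := by
    rw [integral_prod _ hint]
    have e : ∀ x : ℂ, ∫ y, G (x, y) = (Real.pi * ∫ l, F l) * (1 / (1 + ‖x‖ ^ 2) ^ 2) := by
      intro x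
      have h := (radial_log hF (Real.log (1 + ‖x‖ ^ 2))).2
      rw [← h, ← integral_mul_const]
      congr 1
      funext y
      simp only [hG]
      rw [div_mul_div_comm, mul_one, mul_comm (‖y‖ ^ 2)]
    simp only [e]
    rw [integral_const_mul, radial_fs.2]
    ring
  have hmp := volume_preserving_finTwoArrow ℂ
  have hcomp : (fun z : C2 => F (ll z) / ((1 + ‖z 0‖ ^ 2) ^ 2 * ‖z 1‖ ^ 2))
      = G ∘ (MeasurableEquiv.finTwoArrow : (Fin 2 → ℂ) ≃ᵐ ℂ × ℂ) := by
    funext z
    rfl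
  constructor
  · rw [hcomp]
    exact (hmp.integrable_comp_emb MeasurableEquiv.finTwoArrow.measurableEmbedding).mpr hint
  · rw [hcomp]
    have := hmp.integral_comp MeasurableEquiv.finTwoArrow.measurableEmbedding G
    exact this.trans hint2

/-! ### Slope potentials -/

/-- slope potential `m l + c log (1 + e^{l+t})` -/
def chi (m c t : ℝ) (l : ℝ) : ℝ := m * l + c * Real.log (1 + Real.exp (l + t))

theorem contDiff_chi (m c t : ℝ) : ContDiff ℝ ∞ (chi m c t) := by
  unfold chi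
  have h1 : ContDiff ℝ ∞ (fun l : ℝ => 1 + Real.exp (l + t)) := by fun_prop
  have h2 : ContDiff ℝ ∞ (fun l : ℝ => Real.log (1 + Real.exp (l + t))) :=
    h1.log (fun l => by positivity)
  fun_prop

/-- logistic function -/
def sg (t l : ℝ) : ℝ := Real.exp (l + t) / (1 + Real.exp (l + t))

theorem hasDerivAt_sg (t l : ℝ) : HasDerivAt (sg t) (sg t l * (1 - sg t l)) l := by
  unfold sg
  have h0 : HasDerivAt (fun l : ℝ => Real.exp (l + t)) (Real.exp (l + t)) l := by
    simpa using ((hasDerivAt_id l).add_const t).exp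
  have h1 : HasDerivAt (fun l : ℝ => 1 + Real.exp (l + t)) (Real.exp (l + t)) l :=
    h0.const_add 1
  have hpos : (1 + Real.exp (l + t)) ≠ 0 := by positivity
  have h2 := h0.div h1 hpos
  refine h2.congr_deriv ?_
  symm
  rw [eq_div_iff (pow_ne_zero 2 hpos)]
  have e : Real.exp (l + t) / (1 + Real.exp (l + t)) * (1 + Real.exp (l + t)) = Real.exp (l + t) :=
    div_mul_cancel₀ _ hpos
  linear_combination (1 - Real.exp (l + t) / (1 + Real.exp (l + t))
    * (1 + Real.exp (l + t))) * e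

theorem deriv_chi (m c t : ℝ) : deriv (chi m c t) = fun l => m + c * sg t l := by
  funext l
  have h0 : HasDerivAt (fun l : ℝ => 1 + Real.exp (l + t)) (Real.exp (l + t)) l := by
    simpa using (((hasDerivAt_id l).add_const t).exp).const_add 1
  have hpos : (1 + Real.exp (l + t)) ≠ 0 := by positivity
  have h1 := (h0.log hpos).const_mul c
  have h2 : HasDerivAt (fun l : ℝ => m * l) m l := by simpa using (hasDerivAt_id l).const_mul m
  exact (h2.add h1).deriv

theorem deriv_deriv_chi (m c t : ℝ) :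
    deriv (deriv (chi m c t)) = fun l => c * (sg t l * (1 - sg t l)) := by
  rw [deriv_chi]
  funext l
  exact (((hasDerivAt_sg t l).const_mul c).const_add m).deriv

theorem sg_pos (t l : ℝ) : 0 < sg t l := by unfold sg; positivity

theorem sg_lt_one (t l : ℝ) : sg t l < 1 := by
  unfold sg
  rw [div_lt_one (by positivity)]
  linarith

theorem sg_tendsto_atTop (t : ℝ) : Filter.Tendsto (sg t) Filter.atTop (𝓝 1) := by
  have h1 : Filter.Tendsto (fun l : ℝ => 1 + Real.exp (l + t)) Filter.atTop Filter.atTop :=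
    Filter.tendsto_atTop_add_const_left _ _
      (Real.tendsto_exp_atTop.comp (Filter.tendsto_atTop_add_const_right _ _ Filter.tendsto_id))
  have h2 : Filter.Tendsto (fun l : ℝ => 1 - (1 + Real.exp (l + t))⁻¹) Filter.atTop (𝓝 (1 - 0)) :=
    tendsto_const_nhds.sub (tendsto_inv_atTop_zero.comp h1)
  rw [sub_zero] at h2
  refine h2.congr (fun l => ?_)
  unfold sg
  have hpos : (1 + Real.exp (l + t)) ≠ 0 := by positivity
  field_simp
  ring

theorem sg_tendsto_atBot (t : ℝ) : Filter.Tendsto (sg t) Filter.atBot (𝓝 0) := by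
  have h1 : Filter.Tendsto (fun l : ℝ => Real.exp (l + t)) Filter.atBot (𝓝 0) :=
    Real.tendsto_exp_atBot.comp (Filter.tendsto_atBot_add_const_right _ _ Filter.tendsto_id)
  have h2 : Filter.Tendsto (fun l : ℝ => Real.exp (l + t) / (1 + Real.exp (l + t))) Filter.atBot
      (𝓝 (0 / (1 + 0))) := h1.div (tendsto_const_nhds.add h1) (by norm_num)
  rw [zero_div] at h2
  exact h2

theorem continuous_sg (t : ℝ) : Continuous (sg t) := by
  have : Differentiable ℝ (sg t) := fun l => (hasDerivAt_sg t l).differentiableAt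
  exact this.continuous

theorem integrable_sg (t : ℝ) : Integrable (fun l => sg t l * (1 - sg t l)) := by
  have hcont : Continuous (fun l => sg t l * (1 - sg t l)) :=
    (continuous_sg t).mul (continuous_const.sub (continuous_sg t))
  refine integrable_of_intervalIntegral_norm_bounded (ι := ℕ) (l := Filter.atTop)
    (a := fun n => -(n : ℝ)) (b := fun n => (n : ℝ)) 1 (fun n => ?_) ?_ ?_ ?_
  · exact (hcont.integrableOn_Icc).mono_set Set.Ioc_subset_Icc_self
  · exact Filter.tendsto_neg_atTop_atBot.comp tendsto_natCast_atTop_atTop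
  · exact tendsto_natCast_atTop_atTop
  · refine Filter.Eventually.of_forall (fun n => ?_)
    have h1 : ∫ x in (-(n : ℝ))..(n : ℝ), ‖sg t x * (1 - sg t x)‖
        = ∫ x in (-(n : ℝ))..(n : ℝ), sg t x * (1 - sg t x) := by
      congr 1
      funext x
      have h2 := sg_pos t x
      have h3 := sg_lt_one t x
      exact Real.norm_of_nonneg (mul_nonneg h2.le (by linarith))
    rw [h1, intervalIntegral.integral_eq_sub_of_hasDerivAt (fun x _ => hasDerivAt_sg t x)
      (hcont.intervalIntegrable _ _)]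
    have h2 := sg_pos t (-(n : ℝ))
    have h3 := sg_lt_one t (n : ℝ)
    linarith

theorem integrable_bdd_sg {p : ℝ → ℝ} (t : ℝ) (hp : Continuous p) {C : ℝ}
    (hC : ∀ l, ‖p l‖ ≤ C) : Integrable (fun l => p l * (sg t l * (1 - sg t l))) :=
  (integrable_sg t).bdd_mul hp.aestronglyMeasurable (Filter.Eventually.of_forall hC)

theorem norm_slope_le (m c t l : ℝ) : ‖m + c * sg t l‖ ≤ |m| + |c| := by
  have h2 := sg_pos t l
  have h3 := sg_lt_one t l
  calc ‖m + c * sg t l‖ ≤ ‖m‖ + ‖c * sg t l‖ := norm_add_le _ _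
    _ = |m| + |c| * sg t l := by
        rw [norm_mul, Real.norm_eq_abs, Real.norm_eq_abs, Real.norm_of_nonneg h2.le]
    _ ≤ |m| + |c| * 1 := by gcongr
    _ = |m| + |c| := by ring

theorem slope_tendsto_atTop (m c t : ℝ) :
    Filter.Tendsto (fun l => m + c * sg t l) Filter.atTop (𝓝 (m + c)) := by
  simpa using (((sg_tendsto_atTop t).const_mul c).const_add m)

theorem slope_tendsto_atBot (m c t : ℝ) :
    Filter.Tendsto (fun l => m + c * sg t l) Filter.atBot (𝓝 m) := by
  simpa using (((sg_tendsto_atBot t).const_mul c).const_add m)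

theorem hasDerivAt_slope (m c t l : ℝ) :
    HasDerivAt (fun l => m + c * sg t l) (c * (sg t l * (1 - sg t l))) l :=
  ((hasDerivAt_sg t l).const_mul c).const_add m

theorem continuous_slope (m c t : ℝ) : Continuous (fun l => m + c * sg t l) :=
  continuous_const.add (continuous_const.mul (continuous_sg t))

/-- `∫ D(χ₁,χ₂) = (π²/2) [χ₁' χ₂']`: masses. -/
theorem integral_Dm_chi (m₁ c₁ t₁ m₂ c₂ t₂ : ℝ) :
    Integrable (fun z : C2 => (1 / 2) * (deriv (chi m₁ c₁ t₁) (ll z)
        * deriv (deriv (chi m₂ c₂ t₂)) (ll z) + deriv (deriv (chi m₁ c₁ t₁)) (ll z)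
        * deriv (chi m₂ c₂ t₂) (ll z)) / ((1 + ‖z 0‖ ^ 2) ^ 2 * ‖z 1‖ ^ 2)) ∧
    ∫ z : C2, (1 / 2) * (deriv (chi m₁ c₁ t₁) (ll z) * deriv (deriv (chi m₂ c₂ t₂)) (ll z)
        + deriv (deriv (chi m₁ c₁ t₁)) (ll z) * deriv (chi m₂ c₂ t₂) (ll z))
          / ((1 + ‖z 0‖ ^ 2) ^ 2 * ‖z 1‖ ^ 2)
      = Real.pi ^ 2 * (((m₁ + c₁) * (m₂ + c₂) - m₁ * m₂) / 2) := by
  set F : ℝ → ℝ := fun l => (1 / 2) * (deriv (chi m₁ c₁ t₁) l * deriv (deriv (chi m₂ c₂ t₂)) l
    + deriv (deriv (chi m₁ c₁ t₁)) l * deriv (chi m₂ c₂ t₂) l) with hFdef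
  have hF : F = fun l => (1 / 2) * (c₂ * ((m₁ + c₁ * sg t₁ l) * (sg t₂ l * (1 - sg t₂ l)))
      + c₁ * ((m₂ + c₂ * sg t₂ l) * (sg t₁ l * (1 - sg t₁ l)))) := by
    funext l
    simp only [hFdef]
    simp only [deriv_deriv_chi]
    simp only [deriv_chi]
    ring
  have i1 : Integrable (fun l => (m₁ + c₁ * sg t₁ l) * (sg t₂ l * (1 - sg t₂ l))) :=
    integrable_bdd_sg t₂ (continuous_slope _ _ _) (norm_slope_le m₁ c₁ t₁)
  have i2 : Integrable (fun l => (m₂ + c₂ * sg t₂ l) * (sg t₁ l * (1 - sg t₁ l))) :=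
    integrable_bdd_sg t₁ (continuous_slope _ _ _) (norm_slope_le m₂ c₂ t₂)
  have hint : Integrable F := by
    rw [hF]
    exact ((i1.const_mul c₂).add (i2.const_mul c₁)).const_mul _
  have hcont : Continuous F := by
    rw [hF]
    have h1 := continuous_sg t₁
    have h2 := continuous_sg t₂
    fun_prop
  have hval : ∫ l, F l = ((m₁ + c₁) * (m₂ + c₂) - m₁ * m₂) / 2 := by
    have hd : ∀ l, HasDerivAt (fun l => (1 / 2) * ((m₁ + c₁ * sg t₁ l) * (m₂ + c₂ * sg t₂ l)))
        (F l) l := by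
      intro l
      have h1 := ((hasDerivAt_slope m₁ c₁ t₁ l).mul (hasDerivAt_slope m₂ c₂ t₂ l)).const_mul
        (1 / 2 : ℝ)
      refine h1.congr_deriv ?_
      rw [hF]
      ring
    have hbot := ((slope_tendsto_atBot m₁ c₁ t₁).mul (slope_tendsto_atBot m₂ c₂ t₂)).const_mul
      (1 / 2 : ℝ)
    have htop := ((slope_tendsto_atTop m₁ c₁ t₁).mul (slope_tendsto_atTop m₂ c₂ t₂)).const_mul
      (1 / 2 : ℝ)
    rw [integral_of_hasDerivAt_of_tendsto hd hint hbot htop]
    ring
  have h := integral_radial hint hcont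
  rw [hval] at h
  exact h

/-- energy integral: `∫ (χ_t' - m) MA(χ_t) = π² ∫_m^{m+c} (τ-m) τ dτ`. -/
theorem integral_energy_chi (m c t : ℝ) :
    Integrable (fun z : C2 => (deriv (chi m c t) (ll z) - m) * ((1 / 2) *
        (deriv (chi m c t) (ll z) * deriv (deriv (chi m c t)) (ll z)
        + deriv (deriv (chi m c t)) (ll z) * deriv (chi m c t) (ll z))
          / ((1 + ‖z 0‖ ^ 2) ^ 2 * ‖z 1‖ ^ 2))) ∧
    ∫ z : C2, (deriv (chi m c t) (ll z) - m) * ((1 / 2) *
        (deriv (chi m c t) (ll z) * deriv (deriv (chi m c t)) (ll z)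
        + deriv (deriv (chi m c t)) (ll z) * deriv (chi m c t) (ll z))
          / ((1 + ‖z 0‖ ^ 2) ^ 2 * ‖z 1‖ ^ 2))
      = Real.pi ^ 2 * (((m + c) ^ 3 - m ^ 3) / 3 - m * ((m + c) ^ 2 - m ^ 2) / 2) := by
  set F : ℝ → ℝ := fun l => (deriv (chi m c t) l - m) * ((1 / 2) *
    (deriv (chi m c t) l * deriv (deriv (chi m c t)) l
    + deriv (deriv (chi m c t)) l * deriv (chi m c t) l)) with hFdef
  have hF : F = fun l => c * (((0 + c * sg t l) * (m + c * sg t l)) * (sg t l * (1 - sg t l))) := by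
    funext l
    simp only [hFdef]
    simp only [deriv_deriv_chi]
    simp only [deriv_chi]
    ring
  have i1 : Integrable (fun l => ((0 + c * sg t l) * (m + c * sg t l))
      * (sg t l * (1 - sg t l))) := by
    refine integrable_bdd_sg t ((continuous_slope _ _ _).mul (continuous_slope _ _ _))
      (C := (|0| + |c|) * (|m| + |c|)) (fun l => ?_)
    rw [norm_mul]
    exact mul_le_mul (norm_slope_le 0 c t l) (norm_slope_le m c t l) (norm_nonneg _)
      (by positivity)
  have hint : Integrable F := by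
    rw [hF]
    exact i1.const_mul c
  have hcont : Continuous F := by
    rw [hF]
    have h1 := continuous_sg t
    fun_prop
  have hval : ∫ l, F l = ((m + c) ^ 3 - m ^ 3) / 3 - m * ((m + c) ^ 2 - m ^ 2) / 2 := by
    have hd : ∀ l, HasDerivAt (fun l => (1 / 3) * (m + c * sg t l) ^ 3
        - (m / 2) * (m + c * sg t l) ^ 2) (F l) l := by
      intro l
      have h1 := (((hasDerivAt_slope m c t l).pow 3).const_mul (1 / 3 : ℝ)).sub
        (((hasDerivAt_slope m c t l).pow 2).const_mul (m / 2))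
      refine h1.congr_deriv ?_
      rw [hF]
      norm_num
      ring
    have hbot := (((slope_tendsto_atBot m c t).pow 3).const_mul (1 / 3 : ℝ)).sub
      (((slope_tendsto_atBot m c t).pow 2).const_mul (m / 2))
    have htop := (((slope_tendsto_atTop m c t).pow 3).const_mul (1 / 3 : ℝ)).sub
      (((slope_tendsto_atTop m c t).pow 2).const_mul (m / 2))
    rw [integral_of_hasDerivAt_of_tendsto hd hint hbot htop]
    ring
  have h := integral_radial hint hcont
  rw [hval] at h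
  simpa only [hFdef, mul_div_assoc] using h

end

end Pool.Agent.KS
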