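import Pool.Agent.KS.FM
import Pool.Agent.KS.Path
import Pool.Agent.KS.Radial

/-!
# Reference forms on `FM` (module FFORMS)
-/

namespace Pool.Agent.KS

open MeasureTheory Complex Topology
open scoped ContDiff Matrix ComplexOrder ComplexConjugate Manifold

noncomputable section

/-! ### Coordinates -/

theorem PX_self (κ : Idx) (z : C2) : PX κ z κ.1 = z 0 := by simp [PX]

theorem PX_root (κ : Idx) (z : C2) : PX κ z (κ.1 + 1) = rt κ.2.1 (z 0) := by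
  unfold PX
  have h4 : ∀ l : Fin 3, l + 1 ≠ l := by decide
  rw [if_neg (h4 κ.1), if_pos rfl]

theorem PX_one (κ : Idx) (z : C2) : PX κ z (κ.1 + 2) = 1 := by
  unfold PX
  have h4 : ∀ l : Fin 3, l + 2 ≠ l := by decide
  have h5 : ∀ l : Fin 3, l + 2 ≠ l + 1 := by decide
  rw [if_neg (h4 κ.1), if_neg (h5 κ.1)]

/-- the vector `(a, b X)` -/
def WV (κ : Idx) (z : C2) : Fin 4 → ℂ := Fin.cons (PV κ z).1 (fun l => (PV κ z).2 * PX κ z l)

theorem WV_zero (κ : Idx) (z : C2) : WV κ z 0 = (PV κ z).1 := rfl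

theorem WV_succ (κ : Idx) (z : C2) (l : Fin 3) : WV κ z l.succ = (PV κ z).2 * PX κ z l := rfl

theorem contDiffOn_WV (κ : Idx) (a : Fin 4) : ContDiffOn ℂ ∞ (fun z => WV κ z a) (tg κ) := by
  refine Fin.cases ?_ (fun l => ?_) a
  · exact (contDiff_PV1 κ).contDiffOn
  · exact (contDiff_PV2 κ).contDiffOn.mul (contDiffOn_PX κ l)

/-- general potential -/
def Gen (m c : ℝ) (p : Fin 3 → ℝ) (q : Fin 4 → ℝ) (κ : Idx) (z : C2) : ℝ :=
  m * Real.log (∑ a, p a * ‖PX κ z a‖ ^ 2) + c * Real.log (∑ a, q a * ‖WV κ z a‖ ^ 2)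

/-- positivity of the first sum -/
def HP (p : Fin 3 → ℝ) : Prop := ∀ X ∈ Xc, 0 < ∑ a, p a * ‖X a‖ ^ 2

/-- positivity of the second sum -/
def HQ (q : Fin 4 → ℝ) : Prop := ∀ X ∈ Xc, ∀ v : ℂ × ℂ, v ≠ 0 →
  0 < ∑ a, q a * ‖(Fin.cons v.1 (fun l => v.2 * X l) : Fin 4 → ℂ) a‖ ^ 2

theorem n1_pos {X : Fin 3 → ℂ} (hX : X ∈ Xc) : 0 < n1 X := by
  unfold n1
  by_contra hcon
  push Not at hcon
  have h0 : ‖X 0‖ ^ 2 = 0 := by nlinarith [sq_nonneg ‖X 0‖, sq_nonneg ‖X 2‖]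
  have h2 : ‖X 2‖ ^ 2 = 0 := by nlinarith [sq_nonneg ‖X 0‖, sq_nonneg ‖X 2‖]
  have h0' : X 0 = 0 := by simpa using h0
  have h2' : X 2 = 0 := by simpa using h2
  have h1 := hX.2
  rw [h0', h2'] at h1
  have h1' : X 1 = 0 := by simpa using h1
  apply hX.1
  funext i
  fin_cases i
  · exact h0'
  · exact h1'
  · exact h2'

theorem n2_pos {X : Fin 3 → ℂ} (hX : X ∈ Xc) : 0 < n2 X := by
  have h := n1_pos hX
  unfold n2
  unfold n1 at h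
  nlinarith [sq_nonneg ‖X 1‖]

theorem pos_comb {v : ℂ × ℂ} (hv : v ≠ 0) {r : ℝ} (hr : 0 < r) : 0 < ‖v.1‖ ^ 2 + ‖v.2‖ ^ 2 * r := by
  by_cases h1 : v.1 = 0
  · have h2 : v.2 ≠ 0 := fun h2 => hv (Prod.ext h1 h2)
    positivity
  · positivity

/-- weights of `Psi` -/
def p1 : Fin 3 → ℝ := ![1, 0, 1]

/-- weights of `Psi` -/
def q1 (t : ℝ) : Fin 4 → ℝ := ![1, Real.exp t, 0, Real.exp t]

theorem Phi0_eq (m c : ℝ) : Phi0 m c = Gen m c (fun _ => 1) (fun _ => 1) := by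
  funext κ z
  unfold Phi0 Gen n2
  simp only [Fin.sum_univ_succ, WV_zero, WV_succ, norm_mul, Fin.sum_univ_zero]
  simp only [one_mul, Fin.succ_zero_eq_one, Fin.succ_one_eq_two, add_zero]
  congr 2
  · ring_nf
  · congr 1
    ring_nf

theorem Psi_eq (m c t : ℝ) : Psi m c t = Gen m c p1 (q1 t) := by
  funext κ z
  unfold Psi Gen n1 p1 q1
  simp only [Fin.sum_univ_succ, WV_zero, WV_succ, norm_mul, Fin.sum_univ_zero]
  simp
  left
  ring_nf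

theorem HP_one : HP (fun _ => 1) := by
  intro X hX
  have h := n2_pos hX
  unfold n2 at h
  simpa [Fin.sum_univ_succ, add_assoc] using h

theorem HP_p1 : HP p1 := by
  intro X hX
  have h := n1_pos hX
  unfold n1 at h
  simpa [Fin.sum_univ_succ, p1] using h

theorem HQ_one : HQ (fun _ => 1) := by
  intro X hX v hv
  have h := pos_comb hv (n2_pos hX)
  unfold n2 at h
  simp only [Fin.sum_univ_succ, Fin.sum_univ_zero, Fin.cons_zero, Fin.cons_succ, norm_mul]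
  simp only [one_mul, Fin.succ_zero_eq_one, Fin.succ_one_eq_two, add_zero]
  nlinarith [h]

theorem HQ_q1 (t : ℝ) : HQ (q1 t) := by
  intro X hX v hv
  have h := pos_comb hv (mul_pos (Real.exp_pos t) (n1_pos hX))
  unfold n1 at h
  simp only [Fin.sum_univ_succ, Fin.sum_univ_zero, Fin.cons_zero, Fin.cons_succ, norm_mul, q1]
  simp
  nlinarith [h]

/-! ### Smoothness -/

theorem sum_PX_pos {p : Fin 3 → ℝ} (hp : HP p) (κ : Idx) {z : C2} (hz : z ∈ tg κ) :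
    0 < ∑ a, p a * ‖PX κ z a‖ ^ 2 := hp _ (PX_mem κ hz)

theorem sum_WV_pos {q : Fin 4 → ℝ} (hq : HQ q) (κ : Idx) {z : C2} (hz : z ∈ tg κ) :
    0 < ∑ a, q a * ‖WV κ z a‖ ^ 2 := hq _ (PX_mem κ hz) _ (PV_ne κ z)

theorem contDiffOn_sum_PX (p : Fin 3 → ℝ) (κ : Idx) :
    ContDiffOn ℝ ∞ (fun z => ∑ a, p a * ‖PX κ z a‖ ^ 2) (tg κ) := by
  apply ContDiffOn.sum
  intro a _
  exact contDiffOn_const.mul (((contDiffOn_PX κ a).restrict_scalars ℝ).norm_sq ℝ)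

theorem contDiffOn_sum_WV (q : Fin 4 → ℝ) (κ : Idx) :
    ContDiffOn ℝ ∞ (fun z => ∑ a, q a * ‖WV κ z a‖ ^ 2) (tg κ) := by
  apply ContDiffOn.sum
  intro a _
  exact contDiffOn_const.mul (((contDiffOn_WV κ a).restrict_scalars ℝ).norm_sq ℝ)

theorem contDiffOn_Gen (m c : ℝ) {p : Fin 3 → ℝ} {q : Fin 4 → ℝ} (hp : HP p) (hq : HQ q)
    (κ : Idx) : ContDiffOn ℝ ∞ (Gen m c p q κ) (tg κ) := by
  unfold Gen
  exact (contDiffOn_const.mul ((contDiffOn_sum_PX p κ).log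
      (fun z hz => (sum_PX_pos hp κ hz).ne'))).add
    (contDiffOn_const.mul ((contDiffOn_sum_WV q κ).log (fun z hz => (sum_WV_pos hq κ hz).ne')))

/-! ### Homogeneity -/

theorem tr_mem (κ κ' : Idx) {z : C2} (hz : z ∈ SF.ovl κ κ') : SF.tr κ κ' z ∈ tg κ' := by
  rw [← SF_target]
  exact (SF.ch κ').map_source hz.2

theorem ovl_mem_ff (κ κ' : Idx) {z : C2} (hz : z ∈ SF.ovl κ κ') : z ∈ tg κ := by
  rw [← SF_target]
  exact hz.1

theorem Gen_ovl (κ κ' : Idx) : ∃ α β : C2 → ℂ, ContDiffOn ℂ ∞ α (SF.ovl κ κ') ∧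
    ContDiffOn ℂ ∞ β (SF.ovl κ κ') ∧ ∀ z ∈ SF.ovl κ κ', α z ≠ 0 ∧ β z ≠ 0 ∧
      ∀ (m c : ℝ) (p : Fin 3 → ℝ) (q : Fin 4 → ℝ), HP p → HQ q →
        Gen m c p q κ z = Gen m c p q κ' (SF.tr κ κ' z)
          + (m * Real.log (‖α z‖ ^ 2) + c * Real.log (‖β z‖ ^ 2)) := by
  obtain ⟨α, β, hα, hβ, h⟩ := SF_ovl κ κ'
  refine ⟨α, β, hα, hβ, fun z hz => ?_⟩
  obtain ⟨h1, h2, -, h3, h4⟩ := h z hz
  refine ⟨h1, h2, fun m c p q hp hq => ?_⟩
  have e1 : ∑ a, p a * ‖PX κ z a‖ ^ 2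
      = ‖α z‖ ^ 2 * ∑ a, p a * ‖PX κ' (SF.tr κ κ' z) a‖ ^ 2 := by
    rw [Finset.mul_sum]
    refine Finset.sum_congr rfl (fun a _ => ?_)
    rw [h3, Pi.smul_apply, norm_smul]
    ring
  have hW : ∀ a, WV κ z a = β z * WV κ' (SF.tr κ κ' z) a := by
    intro a
    refine Fin.cases ?_ (fun l => ?_) a
    · rw [WV_zero, WV_zero, h4]
    · rw [WV_succ, WV_succ, h4, h3, Pi.smul_apply, smul_eq_mul]
      simp only
      field_simp
  have e2 : ∑ a, q a * ‖WV κ z a‖ ^ 2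
      = ‖β z‖ ^ 2 * ∑ a, q a * ‖WV κ' (SF.tr κ κ' z) a‖ ^ 2 := by
    rw [Finset.mul_sum]
    refine Finset.sum_congr rfl (fun a _ => ?_)
    rw [hW, norm_mul]
    ring
  have ht := tr_mem κ κ' hz
  unfold Gen
  rw [e1, e2, Real.log_mul (by positivity) (sum_PX_pos hp κ' ht).ne',
    Real.log_mul (by positivity) (sum_WV_pos hq κ' ht).ne']
  ring

/-- compatibility from a relation up to pluriharmonic functions -/
theorem isFrm_of_rel {A : Idx → C2 → ℝ} (hs : ∀ κ, ContDiffOn ℝ ∞ (A κ) (tg κ))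
    (h : ∀ κ κ', ∃ P : C2 → ℝ, ∀ z ∈ SF.ovl κ κ', ContDiffAt ℝ 2 P z ∧ cHess P z = 0 ∧
      A κ z = A κ' (SF.tr κ κ' z) + P z) : SF.IsFrm A := by
  refine ⟨fun κ => by rw [SF_target]; exact hs κ, fun κ κ' z hz => ?_⟩
  obtain ⟨P, hP⟩ := h κ κ'
  have hn : SF.ovl κ κ' ∈ 𝓝 z := (SF.isOpen_ovl κ κ').mem_nhds hz
  have h1 : A κ =ᶠ[𝓝 z] fun w => A κ' (SF.tr κ κ' w) + P w := by
    filter_upwards [hn] with w hw using (hP w hw).2.2
  have ht := tr_mem κ κ' hz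
  have hA : ContDiffAt ℝ 2 (A κ') (SF.tr κ κ' z) :=
    ((hs κ').contDiffAt ((isOpen_tg κ').mem_nhds ht)).of_le (WithTop.coe_le_coe.mpr le_top)
  have htr : ContDiffAt ℂ 2 (SF.tr κ κ') z :=
    ((SF.contDiffOn_tr κ κ').contDiffAt hn).of_le (WithTop.coe_le_coe.mpr le_top)
  have hc : ContDiffAt ℝ 2 (fun w => A κ' (SF.tr κ κ' w)) z := hA.comp z (htr.restrict_scalars ℝ)
  rw [cHess_congr h1, cHess_add hc (hP z hz).1, (hP z hz).2.1, add_zero,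
    cHess_comp_holo htr hA]

theorem log_holo {h : C2 → ℂ} {U : Set C2} (hU : IsOpen U) (hh : ContDiffOn ℂ ∞ h U)
    {z : C2} (hz : z ∈ U) (h0 : h z ≠ 0) :
    ContDiffAt ℝ ∞ (fun w => Real.log (‖h w‖ ^ 2)) z ∧
      cHess (fun w => Real.log (‖h w‖ ^ 2)) z = 0 := by
  have h1 : ContDiffAt ℂ ∞ h z := hh.contDiffAt (hU.mem_nhds hz)
  refine ⟨?_, cHess_log_norm_sq (h1.of_le (WithTop.coe_le_coe.mpr le_top)) h0⟩
  exact ((h1.restrict_scalars ℝ).norm_sq ℝ).log (by positivity)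

theorem isFrm_Gen (m c : ℝ) {p : Fin 3 → ℝ} {q : Fin 4 → ℝ} (hp : HP p) (hq : HQ q) :
    SF.IsFrm (Gen m c p q) := by
  refine isFrm_of_rel (contDiffOn_Gen m c hp hq) (fun κ κ' => ?_)
  obtain ⟨α, β, hα, hβ, h⟩ := Gen_ovl κ κ'
  refine ⟨fun z => m * Real.log (‖α z‖ ^ 2) + c * Real.log (‖β z‖ ^ 2), fun z hz => ?_⟩
  obtain ⟨h1, h2, h3⟩ := h z hz
  have hU := SF.isOpen_ovl κ κ'
  obtain ⟨a1, a2⟩ := log_holo hU hα hz h1
  obtain ⟨b1, b2⟩ := log_holo hU hβ hz h2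
  have a3 : ContDiffAt ℝ 2 (fun w => Real.log (‖α w‖ ^ 2)) z :=
    a1.of_le (WithTop.coe_le_coe.mpr le_top)
  have b3 : ContDiffAt ℝ 2 (fun w => Real.log (‖β w‖ ^ 2)) z :=
    b1.of_le (WithTop.coe_le_coe.mpr le_top)
  refine ⟨(contDiffAt_const.mul a3).add (contDiffAt_const.mul b3), ?_, h3 m c p q hp hq⟩
  rw [cHess_add (contDiffAt_const.mul a3) (contDiffAt_const.mul b3), cHess_const_mul m a3,
    cHess_const_mul c b3, a2, b2]
  simp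

theorem isFrm_Psi (m c t : ℝ) : SF.IsFrm (Psi m c t) := by
  rw [Psi_eq]
  exact isFrm_Gen m c HP_p1 (HQ_q1 t)

theorem isFrm_Phi0 (m c : ℝ) : SF.IsFrm (Phi0 m c) := by
  rw [Phi0_eq]
  exact isFrm_Gen m c HP_one HQ_one

/-! ### Positivity -/

theorem cHess_Gen (m c : ℝ) {p : Fin 3 → ℝ} {q : Fin 4 → ℝ} (hp : HP p) (hq : HQ q) (κ : Idx)
    {z : C2} (hz : z ∈ tg κ) :
    cHess (Gen m c p q κ) z
      = (m : ℂ) • cHess (fun w => Real.log (∑ a, p a * ‖PX κ w a‖ ^ 2)) z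
        + (c : ℂ) • cHess (fun w => Real.log (∑ a, q a * ‖WV κ w a‖ ^ 2)) z := by
  have hn := (isOpen_tg κ).mem_nhds hz
  have h1 : ContDiffAt ℝ 2 (fun w => Real.log (∑ a, p a * ‖PX κ w a‖ ^ 2)) z :=
    (((contDiffOn_sum_PX p κ).contDiffAt hn).log (sum_PX_pos hp κ hz).ne').of_le
      (WithTop.coe_le_coe.mpr le_top)
  have h2 : ContDiffAt ℝ 2 (fun w => Real.log (∑ a, q a * ‖WV κ w a‖ ^ 2)) z :=
    (((contDiffOn_sum_WV q κ).contDiffAt hn).log (sum_WV_pos hq κ hz).ne').of_le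
      (WithTop.coe_le_coe.mpr le_top)
  have h3 : Gen m c p q κ = fun w => m * Real.log (∑ a, p a * ‖PX κ w a‖ ^ 2)
      + c * Real.log (∑ a, q a * ‖WV κ w a‖ ^ 2) := rfl
  rw [h3, cHess_add (contDiffAt_const.mul h1) (contDiffAt_const.mul h2), cHess_const_mul m h1,
    cHess_const_mul c h2]

theorem cdat_PX (κ : Idx) {z : C2} (hz : z ∈ tg κ) (a : Fin 3) :
    ContDiffAt ℂ 2 (fun w => PX κ w a) z :=
  ((contDiffOn_PX κ a).contDiffAt ((isOpen_tg κ).mem_nhds hz)).of_le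
    (WithTop.coe_le_coe.mpr le_top)

theorem cdat_WV (κ : Idx) {z : C2} (hz : z ∈ tg κ) (a : Fin 4) :
    ContDiffAt ℂ 2 (fun w => WV κ w a) z :=
  ((contDiffOn_WV κ a).contDiffAt ((isOpen_tg κ).mem_nhds hz)).of_le
    (WithTop.coe_le_coe.mpr le_top)

theorem psd1 {p : Fin 3 → ℝ} (hp : HP p) (hp0 : ∀ a, 0 ≤ p a) (κ : Idx) {z : C2}
    (hz : z ∈ tg κ) :
    (cHess (fun w => Real.log (∑ a, p a * ‖PX κ w a‖ ^ 2)) z).PosSemidef :=
  posSemidef_cHess_log_sum p hp0 (F := fun a w => PX κ w a) (cdat_PX κ hz) (sum_PX_pos hp κ hz)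

theorem psd2 {q : Fin 4 → ℝ} (hq : HQ q) (hq0 : ∀ a, 0 ≤ q a) (κ : Idx) {z : C2}
    (hz : z ∈ tg κ) :
    (cHess (fun w => Real.log (∑ a, q a * ‖WV κ w a‖ ^ 2)) z).PosSemidef :=
  posSemidef_cHess_log_sum q hq0 (F := fun a w => WV κ w a) (cdat_WV κ hz) (sum_WV_pos hq κ hz)

theorem psd_Gen {m c : ℝ} (hm : 0 ≤ m) (hc : 0 ≤ c) {p : Fin 3 → ℝ} {q : Fin 4 → ℝ}
    (hp : HP p) (hq : HQ q) (hp0 : ∀ a, 0 ≤ p a) (hq0 : ∀ a, 0 ≤ q a) (κ : Idx)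
    {z : C2} (hz : z ∈ tg κ) : (cHess (Gen m c p q κ) z).PosSemidef := by
  rw [cHess_Gen m c hp hq κ hz]
  have hm' : (0 : ℂ) ≤ (m : ℂ) := by exact_mod_cast hm
  have hc' : (0 : ℂ) ≤ (c : ℂ) := by exact_mod_cast hc
  exact ((psd1 hp hp0 κ hz).smul hm').add ((psd2 hq hq0 κ hz).smul hc')

theorem psd_Psi {m c : ℝ} (hm : 0 ≤ m) (hc : 0 ≤ c) (t : ℝ) (κ : Idx) {z : C2} (hz : z ∈ tg κ) :
    (cHess (Psi m c t κ) z).PosSemidef := by
  rw [Psi_eq]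
  refine psd_Gen hm hc HP_p1 (HQ_q1 t) (fun a => ?_) (fun a => ?_) κ hz
  · fin_cases a <;> simp [p1]
  · have := (Real.exp_pos t).le
    fin_cases a <;> simp [q1, this]

/-- the quadratic form of a matrix -/
theorem qf_eq (M : Matrix (Fin 2) (Fin 2) ℂ) (x : Fin 2 → ℂ) :
    star x ⬝ᵥ M *ᵥ x = ∑ i, ∑ j, conj (x i) * conj (conj (x j)) * M i j := by
  simp only [dotProduct, Matrix.mulVec, Finset.mul_sum, Pi.star_apply, RCLike.star_def, conj_conj]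
  refine Finset.sum_congr rfl fun i _ => ?_
  refine Finset.sum_congr rfl fun j _ => ?_
  ring

theorem sum_dz_coord (ξ : Fin 2 → ℂ) (j : Fin 2) (z : C2) :
    ∑ i, ξ i * dz i (fun w : C2 => w j) z = ξ j := by
  simp only [dz_coord_radial]
  simp

theorem sum_dz_const (ξ : Fin 2 → ℂ) (c : ℂ) (z : C2) :
    ∑ i, ξ i * dz i (fun _ : C2 => c) z = 0 := by
  simp only [dz_const]
  simp

theorem pd1 (κ : Idx) {z : C2} (hz : z ∈ tg κ) (ξ : C2) (hξ : ξ 0 ≠ 0) :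
    0 < (∑ i, ∑ j, ξ i * conj (ξ j)
      * cHess (fun w => Real.log (∑ a, (1 : ℝ) * ‖PX κ w a‖ ^ 2)) z i j).re := by
  simp only [one_mul]
  refine cHess_log_sum_pos (F := fun a w => PX κ w a) (cdat_PX κ hz)
    (by simpa using sum_PX_pos HP_one κ hz) ξ (fun c => ?_)
  by_contra hcon
  push Not at hcon
  have h1 := hcon (κ.1 + 2)
  have h2 := hcon κ.1
  simp only [PX_one, PX_self, sum_dz_const, sum_dz_coord, mul_one] at h1 h2
  rw [← h1, zero_mul] at h2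
  exact hξ h2

theorem pd2 (κ : Idx) {z : C2} (hz : z ∈ tg κ) (ξ : C2) (hξ : ξ 1 ≠ 0) :
    0 < (∑ i, ∑ j, ξ i * conj (ξ j)
      * cHess (fun w => Real.log (∑ a, (1 : ℝ) * ‖WV κ w a‖ ^ 2)) z i j).re := by
  simp only [one_mul]
  refine cHess_log_sum_pos (F := fun a w => WV κ w a) (cdat_WV κ hz)
    (by simpa using sum_WV_pos HQ_one κ hz) ξ (fun c => ?_)
  by_contra hcon
  push Not at hcon
  have h1 := hcon 0
  have h2 := hcon (κ.1 + 2).succ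
  simp only [WV_zero, WV_succ, PX_one, mul_one] at h1 h2
  cases hty : κ.2.2
  · have e1 : (fun w => (PV κ w).1) = fun w : C2 => w 1 := by
      funext w; simp [PV, hty]
    have e2 : (fun w => (PV κ w).2) = fun _ : C2 => (1 : ℂ) := by
      funext w; simp [PV, hty]
    have e3 : (PV κ z).2 = 1 := congrFun e2 z
    rw [e1, sum_dz_coord] at h1
    rw [e2, sum_dz_const, e3, mul_one] at h2
    rw [← h2, zero_mul] at h1
    exact hξ h1
  · have e1 : (fun w => (PV κ w).2) = fun w : C2 => w 1 := by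
      funext w; simp [PV, hty]
    have e2 : (fun w => (PV κ w).1) = fun _ : C2 => (1 : ℂ) := by
      funext w; simp [PV, hty]
    have e3 : (PV κ z).1 = 1 := congrFun e2 z
    rw [e1, sum_dz_coord] at h2
    rw [e2, sum_dz_const, e3, mul_one] at h1
    rw [← h1, zero_mul] at h2
    exact hξ h2

theorem isKah_Phi0 {m c : ℝ} (hm : 0 < m) (hc : 0 < c) : SF.IsKah (Phi0 m c) := by
  refine ⟨isFrm_Phi0 m c, fun κ z hz => ?_⟩
  rw [SF_target] at hz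
  rw [Phi0_eq, cHess_Gen m c HP_one HQ_one κ hz]
  set A := cHess (fun w => Real.log (∑ a, (1 : ℝ) * ‖PX κ w a‖ ^ 2)) z with hA
  set B := cHess (fun w => Real.log (∑ a, (1 : ℝ) * ‖WV κ w a‖ ^ 2)) z with hB
  have pA : A.PosSemidef := psd1 HP_one (fun _ => zero_le_one) κ hz
  have pB : B.PosSemidef := psd2 HQ_one (fun _ => zero_le_one) κ hz
  have hm' : (0 : ℂ) ≤ (m : ℂ) := by exact_mod_cast hm.le
  have hc' : (0 : ℂ) ≤ (c : ℂ) := by exact_mod_cast hc.le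
  refine Matrix.PosDef.of_dotProduct_mulVec_pos ((pA.smul hm').add (pB.smul hc')).isHermitian
    (fun x hx => ?_)
  have e : star x ⬝ᵥ ((m : ℂ) • A + (c : ℂ) • B) *ᵥ x
      = (m : ℂ) * (star x ⬝ᵥ A *ᵥ x) + (c : ℂ) * (star x ⬝ᵥ B *ᵥ x) := by
    rw [Matrix.add_mulVec, Matrix.smul_mulVec, Matrix.smul_mulVec, dotProduct_add,
      dotProduct_smul, dotProduct_smul, smul_eq_mul, smul_eq_mul]
  have a0 : 0 ≤ star x ⬝ᵥ A *ᵥ x := pA.dotProduct_mulVec_nonneg x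
  have b0 : 0 ≤ star x ⬝ᵥ B *ᵥ x := pB.dotProduct_mulVec_nonneg x
  have hm'' : (0 : ℂ) < (m : ℂ) := by exact_mod_cast hm
  have hc'' : (0 : ℂ) < (c : ℂ) := by exact_mod_cast hc
  rw [e]
  by_cases h0 : x 0 = 0
  · have h1 : x 1 ≠ 0 := by
      intro h1
      apply hx
      funext i
      fin_cases i
      · exact h0
      · exact h1
    have h2 := pd2 κ hz (fun i => conj (x i)) (by simpa using h1)
    rw [← qf_eq, ← hB] at h2
    have h3 : 0 < star x ⬝ᵥ B *ᵥ x := by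
      rw [Complex.lt_def]
      exact ⟨h2, (Complex.le_def.mp b0).2⟩
    exact add_pos_of_nonneg_of_pos (mul_nonneg hm' a0) (mul_pos hc'' h3)
  · have h2 := pd1 κ hz (fun i => conj (x i)) (by simpa using h0)
    rw [← qf_eq, ← hA] at h2
    have h3 : 0 < star x ⬝ᵥ A *ᵥ x := by
      rw [Complex.lt_def]
      exact ⟨h2, (Complex.le_def.mp a0).2⟩
    exact add_pos_of_pos_of_nonneg (mul_pos hm'' h3) (mul_nonneg hc' b0)

/-! ### The comparison path -/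

theorem diff_ovl (m c t : ℝ) (κ κ' : Idx) {z : C2} (hz : z ∈ SF.ovl κ κ') :
    Psi m c t κ z - Phi0 m c κ z
      = Psi m c t κ' (SF.tr κ κ' z) - Phi0 m c κ' (SF.tr κ κ' z) := by
  obtain ⟨α, β, -, -, h⟩ := Gen_ovl κ κ'
  obtain ⟨-, -, h3⟩ := h z hz
  have e1 := h3 m c _ _ HP_p1 (HQ_q1 t)
  have e2 := h3 m c _ _ HP_one HQ_one
  rw [← Psi_eq] at e1
  rw [← Phi0_eq] at e2
  rw [e1, e2]
  ring

theorem symm_mem_ovl (κ : Idx) {z : C2} (hz : z ∈ tg κ) :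
    z ∈ SF.ovl κ (SF.idx ((SF.ch κ).symm z)) := by
  refine ⟨by rw [SF_target]; exact hz, ?_⟩
  exact SF.idx_mem _

theorem contDiffOn_n1_PX (κ : Idx) : ContDiffOn ℝ ∞ (fun z => n1 (PX κ z)) (tg κ) := by
  unfold n1
  exact (((contDiffOn_PX κ 0).restrict_scalars ℝ).norm_sq ℝ).add
    (((contDiffOn_PX κ 2).restrict_scalars ℝ).norm_sq ℝ)

theorem Psi_joint (m c : ℝ) (κ : Idx) :
    ContDiffOn ℝ ∞ (fun p : ℝ × C2 => Psi m c p.1 κ p.2) (Set.univ ×ˢ tg κ) := by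
  unfold Psi
  have hmap : Set.MapsTo (fun p : ℝ × C2 => p.2) (Set.univ ×ˢ tg κ) (tg κ) := fun p hp => hp.2
  have hsnd : ContDiffOn ℝ ∞ (fun p : ℝ × C2 => p.2) (Set.univ ×ˢ tg κ) := contDiff_snd.contDiffOn
  have h1 : ContDiffOn ℝ ∞ (fun p : ℝ × C2 => n1 (PX κ p.2)) (Set.univ ×ˢ tg κ) :=
    (contDiffOn_n1_PX κ).comp hsnd hmap
  have hv1 : ContDiffOn ℝ ∞ (fun p : ℝ × C2 => ‖(PV κ p.2).1‖ ^ 2) (Set.univ ×ˢ tg κ) :=
    (((contDiff_PV1 κ).restrict_scalars ℝ).norm_sq ℝ).contDiffOn.comp hsnd (fun _ _ => Set.mem_univ _)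
  have hv2 : ContDiffOn ℝ ∞ (fun p : ℝ × C2 => ‖(PV κ p.2).2‖ ^ 2) (Set.univ ×ˢ tg κ) :=
    (((contDiff_PV2 κ).restrict_scalars ℝ).norm_sq ℝ).contDiffOn.comp hsnd (fun _ _ => Set.mem_univ _)
  have he : ContDiffOn ℝ ∞ (fun p : ℝ × C2 => Real.exp p.1) (Set.univ ×ˢ tg κ) :=
    (Real.contDiff_exp.comp contDiff_fst).contDiffOn
  refine (contDiffOn_const.mul (h1.log (fun p hp => (n1_pos (PX_mem κ hp.2)).ne'))).add
    (contDiffOn_const.mul ((hv1.add ((he.mul hv2).mul h1)).log (fun p hp => ?_)))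
  have h2 := pos_comb (PV_ne κ p.2) (mul_pos (Real.exp_pos p.1) (n1_pos (PX_mem κ hp.2)))
  have h3 : ‖(PV κ p.2).1‖ ^ 2 + Real.exp p.1 * ‖(PV κ p.2).2‖ ^ 2 * n1 (PX κ p.2)
      = ‖(PV κ p.2).1‖ ^ 2 + ‖(PV κ p.2).2‖ ^ 2 * (Real.exp p.1 * n1 (PX κ p.2)) := by ring
  rw [h3]
  exact h2.ne'

/-- comparison path -/
theorem exists_psi (m c : ℝ) {h : FM → ℝ} (hh : SF.Sm h) : ∃ ψ : ℝ → FM → ℝ, SF.SPath ψ ∧
    (∀ t κ, ∀ z ∈ tg κ, (Phi0 m c + SF.fnF h) κ z + ψ t ((SF.ch κ).symm z) = Psi m c t κ z) ∧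
    (∀ t κ, ∀ z ∈ tg κ, CSurf.td ψ t ((SF.ch κ).symm z)
      = c * (Real.exp t * ‖(PV κ z).2‖ ^ 2 * n1 (PX κ z)
        / (‖(PV κ z).1‖ ^ 2 + Real.exp t * ‖(PV κ z).2‖ ^ 2 * n1 (PX κ z)))) := by
  set ψ : ℝ → FM → ℝ := fun t x => Psi m c t (SF.idx x) (SF.ch (SF.idx x) x)
    - Phi0 m c (SF.idx x) (SF.ch (SF.idx x) x) - h x with hψ
  have key : ∀ t κ, ∀ z ∈ tg κ, ψ t ((SF.ch κ).symm z)
      = Psi m c t κ z - Phi0 m c κ z - h ((SF.ch κ).symm z) := by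
    intro t κ z hz
    rw [diff_ovl m c t κ _ (symm_mem_ovl κ hz)]
    rfl
  refine ⟨ψ, ?_, ?_, ?_⟩
  · intro κ
    rw [SF_target]
    have hmap : Set.MapsTo (fun p : ℝ × C2 => p.2) (Set.univ ×ˢ tg κ) (tg κ) := fun p hp => hp.2
    have hsnd : ContDiffOn ℝ ∞ (fun p : ℝ × C2 => p.2) (Set.univ ×ˢ tg κ) :=
      contDiff_snd.contDiffOn
    have h1 : ContDiffOn ℝ ∞ (fun p : ℝ × C2 => Phi0 m c κ p.2) (Set.univ ×ˢ tg κ) := by
      have := (isFrm_Phi0 m c).smooth κ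
      rw [SF_target] at this
      exact this.comp hsnd hmap
    have h2 : ContDiffOn ℝ ∞ (fun p : ℝ × C2 => h ((SF.ch κ).symm p.2)) (Set.univ ×ˢ tg κ) := by
      have := hh κ
      rw [SF_target] at this
      exact this.comp hsnd hmap
    refine (((Psi_joint m c κ).sub h1).sub h2).congr (fun p hp => ?_)
    exact key p.1 κ p.2 hp.2
  · intro t κ z hz
    rw [key t κ z hz]
    change Phi0 m c κ z + h ((SF.ch κ).symm z) + _ = _
    ring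
  · intro t κ z hz
    have h1 : (fun s => ψ s ((SF.ch κ).symm z))
        = fun s => Psi m c s κ z - Phi0 m c κ z - h ((SF.ch κ).symm z) := by
      funext s
      exact key s κ z hz
    unfold CSurf.td
    rw [h1]
    unfold Psi
    have hpos : 0 < ‖(PV κ z).1‖ ^ 2 + Real.exp t * ‖(PV κ z).2‖ ^ 2 * n1 (PX κ z) := by
      have h2 := pos_comb (PV_ne κ z) (mul_pos (Real.exp_pos t) (n1_pos (PX_mem κ hz)))
      have h3 : ‖(PV κ z).1‖ ^ 2 + Real.exp t * ‖(PV κ z).2‖ ^ 2 * n1 (PX κ z)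
          = ‖(PV κ z).1‖ ^ 2 + ‖(PV κ z).2‖ ^ 2 * (Real.exp t * n1 (PX κ z)) := by ring
      rw [h3]
      exact h2
    have h4 : HasDerivAt (fun s => ‖(PV κ z).1‖ ^ 2
        + Real.exp s * ‖(PV κ z).2‖ ^ 2 * n1 (PX κ z))
        (Real.exp t * ‖(PV κ z).2‖ ^ 2 * n1 (PX κ z)) t :=
      (((Real.hasDerivAt_exp t).mul_const _).mul_const _).const_add _
    have h5 := ((((h4.log hpos.ne').const_mul c).const_add
      (m * Real.log (n1 (PX κ z)))).sub_const (Phi0 m c κ z)).sub_const (h ((SF.ch κ).symm z))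
    exact h5.deriv

/-! ### The Ricci form -/

theorem rt_smooth (κ : Idx) : ContDiffOn ℝ ∞ (fun z => Real.log (‖PX κ z (κ.1 + 1)‖ ^ 2)) (tg κ) := by
  intro z hz
  have h0 : PX κ z (κ.1 + 1) ≠ 0 := by
    rw [PX_root]
    exact rt_ne κ hz
  exact (log_holo (isOpen_tg κ) (contDiffOn_PX κ (κ.1 + 1)) hz h0).1.contDiffWithinAt

theorem contDiffOn_Rref (κ : Idx) : ContDiffOn ℝ ∞ (Rref κ) (tg κ) := by
  unfold Rref
  have h1 := (isFrm_Psi 3 (-2) 0).smooth κ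
  rw [SF_target] at h1
  exact h1.sub (contDiffOn_const.mul (rt_smooth κ))

theorem isFrm_Rref : SF.IsFrm Rref := by
  refine isFrm_of_rel contDiffOn_Rref (fun κ κ' => ?_)
  refine ⟨fun z => Real.log (‖(Jm (SF.tr κ κ') z).det‖ ^ 2), fun z hz => ?_⟩
  have hU := SF.isOpen_ovl κ κ'
  obtain ⟨a1, a2⟩ := log_holo hU (contDiffOn_det_Jm hU (SF.contDiffOn_tr κ κ')) hz
    (SF.det_tr_ne_zero κ κ' hz)
  refine ⟨a1.of_le (WithTop.coe_le_coe.mpr le_top), a2, ?_⟩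
  have h := SF_jac κ κ' hz
  linarith

theorem dt_ovl {φ : Idx → C2 → ℝ} (hφ : SF.IsKah φ) (κ κ' : Idx) {z : C2}
    (hz : z ∈ SF.ovl κ κ') :
    dt (φ κ) z = ‖(Jm (SF.tr κ κ') z).det‖ ^ 2 * dt (φ κ') (SF.tr κ κ' z) := by
  unfold dt
  rw [← mdet_self, ← mdet_self, hφ.compat κ κ' z hz]
  exact mdet_congruence _ _ _

theorem ric_ovl {φ : Idx → C2 → ℝ} (hφ : SF.IsKah φ) (κ κ' : Idx) {z : C2}
    (hz : z ∈ SF.ovl κ κ') :
    Rref κ z - ricF φ κ z = Rref κ' (SF.tr κ κ' z) - ricF φ κ' (SF.tr κ κ' z) := by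
  have h := SF_jac κ κ' hz
  have hJ : ‖(Jm (SF.tr κ κ') z).det‖ ^ 2 ≠ 0 :=
    pow_ne_zero 2 (norm_ne_zero_iff.mpr (SF.det_tr_ne_zero κ κ' hz))
  have ht : SF.tr κ κ' z ∈ (SF.ch κ').target := by
    rw [SF_target]
    exact tr_mem κ κ' hz
  have h2 : ricF φ κ z = Real.log (‖(Jm (SF.tr κ κ') z).det‖ ^ 2) + ricF φ κ' (SF.tr κ κ' z) := by
    unfold ricF
    rw [dt_ovl hφ κ κ' hz, Real.log_mul hJ (CSurf.IsKah.dt_pos hφ κ' ht).ne']
  rw [h2]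
  linarith

/-- the Ricci form in terms of the reference -/
theorem exists_ric {φ : Idx → C2 → ℝ} (hφ : SF.IsKah φ) : ∃ w : FM → ℝ, SF.Sm w ∧
    ∀ κ, ∀ z ∈ tg κ, ricF φ κ z + w ((SF.ch κ).symm z) = Rref κ z := by
  set w : FM → ℝ := fun x => Rref (SF.idx x) (SF.ch (SF.idx x) x)
    - ricF φ (SF.idx x) (SF.ch (SF.idx x) x) with hw
  have key : ∀ κ, ∀ z ∈ tg κ, w ((SF.ch κ).symm z) = Rref κ z - ricF φ κ z := by
    intro κ z hz
    rw [ric_ovl hφ κ _ (symm_mem_ovl κ hz)]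
    rfl
  refine ⟨w, ?_, fun κ z hz => ?_⟩
  · apply CSurf.Sm.of_local (fun κ z => Rref κ z - ricF φ κ z)
    · intro κ
      refine ContDiffOn.sub ?_ ((CSurf.isFrm_ricF hφ).smooth κ)
      rw [SF_target]
      exact contDiffOn_Rref κ
    · intro κ x hx
      have hz : SF.ch κ x ∈ tg κ := by
        rw [← SF_target]
        exact (SF.ch κ).map_source hx
      have h1 := key κ _ hz
      rw [(SF.ch κ).left_inv hx] at h1
      exact h1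
  · rw [key κ z hz]
    ring

end

end Pool.Agent.KS
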