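import Pool.Agent.KS.FDefs
import Pool.Agent.KS.Conn

/-!
# The surface `FM` (module FM, helper79)
-/

namespace Pool.Agent.KS

open MeasureTheory Complex Topology
open scoped ContDiff Matrix ComplexOrder ComplexConjugate Manifold

noncomputable section

/-- The ruled surface `P(O + O(-1))` over the Fermat quintic: pairs consisting of the projection
onto the line `[X]` and the projection onto the line `[a : b X]`, see `Sp.Theta`. -/
def FM : Type := Sp.Surf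

instance : TopologicalSpace FM := inferInstanceAs (TopologicalSpace Sp.Surf)
instance : T2Space FM := inferInstanceAs (T2Space Sp.Surf)
instance : CompactSpace FM := inferInstanceAs (CompactSpace Sp.Surf)
instance : ConnectedSpace FM := inferInstanceAs (ConnectedSpace Sp.Surf)
instance : MeasurableSpace FM := borel FM
instance : BorelSpace FM := ⟨rfl⟩

/-- pairs as vectors -/
def vv (v : ℂ × ℂ) : Fin 2 → ℂ := ![v.1, v.2]

/-- the point of `FM` with coordinates `(X, v)` (junk value if `X ∉ Xc` or `v = 0`) -/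
def pt (X : Fin 3 → ℂ) (v : ℂ × ℂ) : FM := Sp.mk (X, vv v)

theorem vv_ne {v : ℂ × ℂ} (hv : v ≠ 0) : vv v ≠ 0 := by
  intro h
  apply hv
  have h0 := congrFun h 0
  have h1 := congrFun h 1
  simp only [vv, Matrix.cons_val_zero, Matrix.cons_val_one, Pi.zero_apply, Matrix.cons_val_fin_one] at h0 h1
  exact Prod.ext h0 h1

theorem lift_mem {X : Fin 3 → ℂ} {v : ℂ × ℂ} (hX : X ∈ Xc) (hv : v ≠ 0) : ((X, vv v) : Sp.Amb) ∈ Sp.Lift :=
  ⟨hX, vv_ne hv⟩

theorem pt_surj (x : FM) : ∃ X ∈ Xc, ∃ v : ℂ × ℂ, v ≠ 0 ∧ x = pt X v := by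
  obtain ⟨q, hq, rfl⟩ := Sp.mk_surj x
  refine ⟨q.1, hq.1, (q.2 0, q.2 1), ?_, ?_⟩
  · intro h
    apply hq.2
    funext i
    fin_cases i
    · exact (Prod.ext_iff.1 h).1
    · exact (Prod.ext_iff.1 h).2
  · have : vv (q.2 0, q.2 1) = q.2 := by
      funext i; fin_cases i <;> rfl
    show Sp.mk q = Sp.mk (q.1, vv (q.2 0, q.2 1))
    rw [this]

theorem act_act {l k l' k' : ℂ} (q : Sp.Amb) : Sp.act l k (Sp.act l' k' q) = Sp.act (l * l') (k * k') q := by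
  refine Prod.ext ?_ ?_
  · simp only [Sp.act, smul_smul]
  · simp only [Sp.act]
    funext i
    fin_cases i
    · simp only [Fin.zero_eta, Matrix.cons_val_zero]; ring
    · simp only [Fin.mk_one, Matrix.cons_val_one, Matrix.cons_val_fin_one, mul_inv]; ring

theorem act_one (q : Sp.Amb) : Sp.act 1 1 q = q := by
  refine Prod.ext ?_ ?_
  · simp only [Sp.act, one_smul]
  · simp only [Sp.act]
    funext i
    fin_cases i
    · simp
    · simp

theorem act_inv {l k : ℂ} (hl : l ≠ 0) (hk : k ≠ 0) (q : Sp.Amb) : Sp.act l⁻¹ k⁻¹ (Sp.act l k q) = q := by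
  rw [act_act, inv_mul_cancel₀ hl, inv_mul_cancel₀ hk, act_one]

theorem mk_eq_iff {q q' : Sp.Amb} (hq : q ∈ Sp.Lift) (hq' : q' ∈ Sp.Lift) :
    Sp.mk q = Sp.mk q' ↔ ∃ l k : ℂ, l ≠ 0 ∧ k ≠ 0 ∧ q = Sp.act l k q' := by
  constructor
  · intro h
    obtain ⟨κ, hκ⟩ := Sp.exists_sL hq
    have hκ' : q' ∈ Sp.sL κ := by
      rw [← Sp.mk_mem_source hq', ← h, Sp.mk_mem_source hq]; exact hκ
    have hc : Sp.cL κ q = Sp.cL κ q' := by rw [← Sp.ch_mk hκ, ← Sp.ch_mk hκ', h]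
    obtain ⟨l, k, hl, hk, e⟩ := Sp.sg_cL hκ
    obtain ⟨l', k', hl', hk', e'⟩ := Sp.sg_cL hκ'
    rw [hc, e'] at e
    refine ⟨l⁻¹ * l', k⁻¹ * k', mul_ne_zero (inv_ne_zero hl) hl', mul_ne_zero (inv_ne_zero hk) hk', ?_⟩
    rw [← act_act, e, act_inv hl hk]
  · rintro ⟨l, k, hl, hk, rfl⟩
    exact Sp.mk_act hl hk hq'

theorem pt_eq_iff {X X' : Fin 3 → ℂ} {v v' : ℂ × ℂ} (hX : X ∈ Xc) (hX' : X' ∈ Xc) (hv : v ≠ 0)
    (hv' : v' ≠ 0) : pt X v = pt X' v' ↔
      ∃ α : ℂ, α ≠ 0 ∧ ∃ β : ℂ, β ≠ 0 ∧ X = α • X' ∧ v = (β * v'.1, α⁻¹ * β * v'.2) := by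
  have h1 : pt X v = pt X' v' ↔ _ := mk_eq_iff (lift_mem hX hv) (lift_mem hX' hv')
  rw [h1]
  constructor
  · rintro ⟨l, k, hl, hk, e⟩
    refine ⟨l, hl, k, hk, (Prod.ext_iff.1 e).1, ?_⟩
    have e2 := (Prod.ext_iff.1 e).2
    have a0 := congrFun e2 0
    have a1 := congrFun e2 1
    simp only [vv, Sp.act, Matrix.cons_val_zero, Matrix.cons_val_one, Matrix.cons_val_fin_one] at a0 a1
    refine Prod.ext a0 ?_
    rw [a1]; ring
  · rintro ⟨α, hα, β, hβ, e1, e2⟩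
    refine ⟨α, β, hα, hβ, Prod.ext e1 ?_⟩
    funext i
    fin_cases i
    · simp [vv, Sp.act, e2]
    · simp [vv, Sp.act, e2, mul_comm β]

theorem zt_eq (b : Fin 10) : zt b = Sp.eps b := by
  rw [zt, Sp.eps]
  congr 1
  push_cast
  ring

theorem wb_eq (b : Fin 10) (x : ℂ) : -(1 + x ^ 5) / zt b ^ 5 = Sp.wb b x := by
  rw [zt_eq, Sp.eps_pow, Sp.wb]
  have h : ((-1 : ℂ) ^ b.val) ≠ 0 := pow_ne_zero _ (by norm_num)
  have h2 := Sp.neg_one_pow_mul_self b.val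
  rw [div_eq_iff h]
  linear_combination (1 + x ^ 5) * h2

theorem tg_eq (κ : Idx) : tg κ = Sp.tgt κ := by
  ext z
  show -(1 + z 0 ^ 5) / zt κ.2.1 ^ 5 ∈ slitPlane ↔ Sp.wb κ.2.1 (z 0) ∈ slitPlane
  rw [wb_eq]

theorem rt_eq {b : Fin 10} {x : ℂ} (h : Sp.wb b x ∈ slitPlane) : rt b x = Sp.br b x := by
  rw [rt, wb_eq, Sp.br, zt_eq, cpow_def_of_ne_zero (slitPlane_ne_zero h)]
  congr 2
  ring

theorem vv_PV (κ : Idx) (z : C2) : vv (PV κ z) = (Sp.sg κ z).2 := by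
  simp only [vv, PV, Sp.sg]
  split_ifs <;> rfl

theorem PX_eq {κ : Idx} {z : C2} (hz : z ∈ tg κ) : PX κ z = (Sp.sg κ z).1 := by
  rw [tg_eq] at hz
  funext a
  simp only [PX, Sp.sg]
  rw [rt_eq hz]

/-- the atlas -/
def SF : CSurf FM Idx where
  ch κ := Sp.ch κ
  cover x := Sp.exists_ch x
  hol κ κ' := by
    refine ((Sp.contDiffOn_cL_sg κ κ').mono ?_).congr fun z hz => ?_
    · intro z hz
      exact ⟨hz.1, (Sp.mem_overlap_iff hz.1).1 hz.2⟩
    · exact Sp.trans_eq ((Sp.mem_overlap_iff hz.1).1 hz.2)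

theorem isOpen_tg (κ : Idx) : IsOpen (tg κ) := by
  rw [tg_eq]; exact Sp.isOpen_tgt κ

theorem PX_mem (κ : Idx) {z : C2} (hz : z ∈ tg κ) : PX κ z ∈ Xc := by
  rw [PX_eq hz]
  rw [tg_eq] at hz
  exact (Sp.sg_mem hz).1.1

theorem PV_ne (κ : Idx) (z : C2) : PV κ z ≠ 0 := by
  unfold PV
  split_ifs
  · intro h; exact one_ne_zero (Prod.ext_iff.1 h).1
  · intro h; exact one_ne_zero (Prod.ext_iff.1 h).2

/-- the root coordinate does not vanish -/
theorem rt_ne (κ : Idx) {z : C2} (hz : z ∈ tg κ) : rt κ.2.1 (z 0) ≠ 0 := by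
  rw [tg_eq] at hz
  rw [rt_eq hz]
  exact Sp.br_ne _ _

theorem SF_target (κ : Idx) : (SF.ch κ).target = tg κ := by
  rw [tg_eq]; rfl

theorem SF_symm (κ : Idx) {z : C2} (hz : z ∈ tg κ) :
    (SF.ch κ).symm z = pt (PX κ z) (PV κ z) := by
  show Sp.mk (Sp.sg κ z) = Sp.mk (PX κ z, vv (PV κ z))
  rw [PX_eq hz, vv_PV]

/-- description of the chart domain -/
theorem SF_source (κ : Idx) {X : Fin 3 → ℂ} {v : ℂ × ℂ} (hX : X ∈ Xc) (hv : v ≠ 0) :
    pt X v ∈ (SF.ch κ).source ↔ X (κ.1 + 2) ≠ 0 ∧ (if κ.2.2 then v.1 ≠ 0 else v.2 ≠ 0) ∧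
      X (κ.1 + 1) ≠ 0 ∧ |Complex.arg (X (κ.1 + 1) / X (κ.1 + 2) / zt κ.2.1)| < Real.pi / 5 := by
  have hpi := Real.pi_pos
  have h1 : pt X v ∈ (SF.ch κ).source ↔ ((X, vv v) : Sp.Amb) ∈ Sp.sL κ := Sp.mk_mem_source (lift_mem hX hv)
  rw [h1, zt_eq]
  have hv0 : vv v 0 = v.1 := rfl
  have hv1 : vv v 1 = v.2 := rfl
  simp only [Sp.sL, Set.mem_ofPred_eq, hv0, hv1]
  constructor
  · rintro ⟨-, h2, h3, h4⟩
    refine ⟨h2, h4, ?_, h3.2⟩
    intro h0
    have := slitPlane_ne_zero h3.1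
    rw [h0] at this
    simp at this
  · rintro ⟨h2, h4, h5, h6⟩
    refine ⟨lift_mem hX hv, h2, ⟨?_, h6⟩, h4⟩
    rw [mem_slitPlane_iff_arg]
    refine ⟨?_, div_ne_zero (div_ne_zero h5 h2) (Sp.eps_ne _)⟩
    intro h7
    rw [h7, abs_of_pos hpi] at h6
    linarith

/-- the holomorphic factors in the change of charts -/
def al (κ κ' : Idx) (z : C2) : ℂ := (Sp.sg κ z).1 (κ'.1 + 2)

/-- the holomorphic factors in the change of charts -/
def be (κ κ' : Idx) (z : C2) : ℂ :=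
  if κ'.2.2 then (Sp.sg κ z).2 0 else (Sp.sg κ z).2 1 * (Sp.sg κ z).1 (κ'.1 + 2)

theorem ovl_mem {κ κ' : Idx} {z : C2} (hz : z ∈ SF.ovl κ κ') : z ∈ Sp.tgt κ ∧ Sp.sg κ z ∈ Sp.sL κ' :=
  ⟨hz.1, (Sp.mem_overlap_iff hz.1).1 hz.2⟩

theorem tr_eq {κ κ' : Idx} {z : C2} (hz : z ∈ SF.ovl κ κ') : SF.tr κ κ' z = Sp.cL κ' (Sp.sg κ z) :=
  Sp.trans_eq (ovl_mem hz).2

theorem al_ne {κ κ' : Idx} {z : C2} (hz : z ∈ SF.ovl κ κ') : al κ κ' z ≠ 0 := (ovl_mem hz).2.2.1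

theorem be_ne {κ κ' : Idx} {z : C2} (hz : z ∈ SF.ovl κ κ') : be κ κ' z ≠ 0 := by
  have h := (ovl_mem hz).2.2.2.2
  unfold be
  split_ifs with hf
  · rwa [if_pos hf] at h
  · rw [if_neg hf] at h
    exact mul_ne_zero h (al_ne hz)

/-- explicit form of `Sp.sg_cL` -/
theorem sg_cL' {κ : Idx} {q : Sp.Amb} (h : q ∈ Sp.sL κ) : Sp.sg κ (Sp.cL κ q) =
    Sp.act (q.1 (κ.1 + 2))⁻¹ (if κ.2.2 then (q.2 0)⁻¹ else (q.2 1 * q.1 (κ.1 + 2))⁻¹) q := by
  obtain ⟨-, hbr⟩ := Sp.cL_mem h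
  obtain ⟨hq, hN, hs, h3⟩ := h
  refine Prod.ext ?_ ?_
  · funext a
    simp only [Sp.act, Pi.smul_apply, smul_eq_mul]
    rcases Sp.idx_cases κ.1 a with ha | ha | ha
    · subst ha
      rw [Sp.sg_0]
      simp only [Sp.cL, Matrix.cons_val_zero]
      rw [div_eq_inv_mul]
    · subst ha
      rw [Sp.sg_1]
      simp only [Sp.cL, Matrix.cons_val_zero]
      rw [hbr, div_eq_inv_mul]
    · subst ha
      rw [Sp.sg_2, inv_mul_cancel₀ hN]
  · by_cases hf : κ.2.2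
    · rw [if_pos hf] at h3
      simp only [Sp.sg, Sp.act, Sp.cL, hf, if_true]
      funext i
      fin_cases i
      · simp [h3]
      · simp only [Fin.mk_one, Matrix.cons_val_one, Matrix.cons_val_fin_one]
        field_simp
    · rw [if_neg hf] at h3
      simp only [Sp.sg, Sp.act, Sp.cL, hf, if_false, Bool.false_eq_true]
      funext i
      fin_cases i
      · simp only [Fin.zero_eta, Matrix.cons_val_zero, Matrix.cons_val_one, Matrix.cons_val_fin_one]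
        field_simp
      · simp only [Fin.mk_one, Matrix.cons_val_one, Matrix.cons_val_fin_one]
        field_simp

theorem sg_ovl {κ κ' : Idx} {z : C2} (hz : z ∈ SF.ovl κ κ') :
    Sp.sg κ z = Sp.act (al κ κ' z) (be κ κ' z) (Sp.sg κ' (SF.tr κ κ' z)) := by
  rw [tr_eq hz, sg_cL' (ovl_mem hz).2]
  have e : (if κ'.2.2 then ((Sp.sg κ z).2 0)⁻¹ else ((Sp.sg κ z).2 1 * (Sp.sg κ z).1 (κ'.1 + 2))⁻¹) =
      (be κ κ' z)⁻¹ := by
    unfold be
    split_ifs <;> rfl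
  rw [e]
  show _ = Sp.act (al κ κ' z) (be κ κ' z) (Sp.act (al κ κ' z)⁻¹ (be κ κ' z)⁻¹ (Sp.sg κ z))
  rw [act_act, mul_inv_cancel₀ (al_ne hz), mul_inv_cancel₀ (be_ne hz), act_one]

theorem tr_mem_tg {κ κ' : Idx} {z : C2} (hz : z ∈ SF.ovl κ κ') : SF.tr κ κ' z ∈ tg κ' := by
  rw [← SF_target]
  exact (SF.ch κ').map_source hz.2

theorem ovl_sub_tg {κ κ' : Idx} {z : C2} (hz : z ∈ SF.ovl κ κ') : z ∈ tg κ := by
  rw [← SF_target]; exact hz.1

/-- homogeneity relation between the coordinates in two charts; `α, β` are holomorphic -/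
theorem SF_ovl (κ κ' : Idx) : ∃ α β : C2 → ℂ, ContDiffOn ℂ ∞ α (SF.ovl κ κ') ∧
    ContDiffOn ℂ ∞ β (SF.ovl κ κ') ∧ ∀ z ∈ SF.ovl κ κ', α z ≠ 0 ∧ β z ≠ 0 ∧
      α z = PX κ z (κ'.1 + 2) ∧
      PX κ z = α z • PX κ' (SF.tr κ κ' z) ∧
      PV κ z = (β z * (PV κ' (SF.tr κ κ' z)).1, (α z)⁻¹ * β z * (PV κ' (SF.tr κ κ' z)).2) := by
  have hsub : SF.ovl κ κ' ⊆ Sp.tgt κ := fun z hz => hz.1
  have h1 : ∀ a, ContDiffOn ℂ ∞ (fun z => (Sp.sg κ z).1 a) (SF.ovl κ κ') := fun a =>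
    ((Sp.contDiffOn_sg1 κ a).mono hsub).of_le le_top
  have h2 : ∀ a, ContDiffOn ℂ ∞ (fun z => (Sp.sg κ z).2 a) (SF.ovl κ κ') := fun a =>
    ((Sp.contDiffOn_sg2 κ a).mono hsub).of_le le_top
  refine ⟨al κ κ', be κ κ', h1 _, ?_, fun z hz => ⟨al_ne hz, be_ne hz, ?_, ?_, ?_⟩⟩
  · unfold be
    split_ifs
    · exact h2 0
    · exact (h2 1).mul (h1 _)
  · rw [PX_eq (ovl_sub_tg hz)]; rfl
  · rw [PX_eq (ovl_sub_tg hz), PX_eq (tr_mem_tg hz)]
    have := (Prod.ext_iff.1 (sg_ovl hz)).1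
    exact this
  · have h := (Prod.ext_iff.1 (sg_ovl hz)).2
    rw [← vv_PV] at h
    have a0 := congrFun h 0
    have a1 := congrFun h 1
    simp only [Sp.act, ← vv_PV] at a0 a1
    simp only [vv, Matrix.cons_val_zero, Matrix.cons_val_one, Matrix.cons_val_fin_one] at a0 a1
    refine Prod.ext a0 ?_
    rw [a1]; ring

theorem contDiffOn_PX (κ : Idx) (i : Fin 3) : ContDiffOn ℂ ∞ (fun z => PX κ z i) (tg κ) := by
  have h := (Sp.contDiffOn_sg1 κ i).of_le (m := ∞) le_top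
  rw [← tg_eq] at h
  exact h.congr fun z hz => by rw [PX_eq hz]

theorem contDiff_PV1 (κ : Idx) : ContDiff ℂ ∞ (fun z => (PV κ z).1) := by
  by_cases hf : κ.2.2
  · have : (fun z => (PV κ z).1) = fun _ => (1 : ℂ) := by funext z; simp [PV, hf]
    rw [this]; exact contDiff_const
  · have : (fun z => (PV κ z).1) = fun z => z 1 := by funext z; simp [PV, hf]
    rw [this]; exact contDiff_apply ℂ ℂ (1 : Fin 2)

theorem contDiff_PV2 (κ : Idx) : ContDiff ℂ ∞ (fun z => (PV κ z).2) := by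
  by_cases hf : κ.2.2
  · have : (fun z => (PV κ z).2) = fun z => z 1 := by funext z; simp [PV, hf]
    rw [this]; exact contDiff_apply ℂ ℂ (1 : Fin 2)
  · have : (fun z => (PV κ z).2) = fun _ => (1 : ℂ) := by funext z; simp [PV, hf]
    rw [this]; exact contDiff_const

/-! ### The Jacobian determinant of the transition maps -/

/-- the coordinates `X_a` as functions of `x` -/
def xf (l : Fin 3) (b : Fin 10) (a : Fin 3) (x : ℂ) : ℂ := if a = l then x else if a = l + 1 then Sp.br b x else 1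

/-- their derivatives -/
def xd (l : Fin 3) (b : Fin 10) (a : Fin 3) (x : ℂ) : ℂ :=
  if a = l then 1 else if a = l + 1 then - x ^ 4 / Sp.br b x ^ 4 else 0

theorem sg1_eq (κ : Idx) (z : C2) (a : Fin 3) : (Sp.sg κ z).1 a = xf κ.1 κ.2.1 a (z 0) := rfl

theorem hasDerivAt_br {b : Fin 10} {x : ℂ} (h : Sp.wb b x ∈ slitPlane) :
    HasDerivAt (Sp.br b) (- x ^ 4 / Sp.br b x ^ 4) x := by
  have ho : IsOpen {x | Sp.wb b x ∈ slitPlane} := by
    have hc : Continuous fun x : ℂ => Sp.wb b x := by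
      unfold Sp.wb
      exact continuous_const.mul (continuous_const.sub (continuous_id.pow 5))
    exact isOpen_slitPlane.preimage hc
  have hd : DifferentiableAt ℂ (Sp.br b) x :=
    ((Sp.contDiffOn_br b).differentiableOn (by simp)).differentiableAt (ho.mem_nhds h)
  have h1 : HasDerivAt (fun x => Sp.br b x ^ 5) (5 * Sp.br b x ^ 4 * deriv (Sp.br b) x) x := by
    have := hd.hasDerivAt.fun_pow 5
    simpa using this
  have h2 : HasDerivAt (fun x : ℂ => -1 - x ^ 5) (-(5 * x ^ 4)) x := by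
    have := (hasDerivAt_pow 5 x).const_sub (-1 : ℂ)
    simpa using this
  have h3 : (fun x => Sp.br b x ^ 5) =ᶠ[𝓝 x] fun x => -1 - x ^ 5 := by
    filter_upwards [ho.mem_nhds h] with y hy using Sp.br_pow hy
  have h4 := (h1.congr_of_eventuallyEq h3.symm).unique h2
  have hne := Sp.br_ne b x
  have h5 : deriv (Sp.br b) x = - x ^ 4 / Sp.br b x ^ 4 := by
    rw [eq_div_iff (pow_ne_zero _ hne)]
    linear_combination (1 / 5) * h4
  rw [← h5]
  exact hd.hasDerivAt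

theorem hasDerivAt_xf (l : Fin 3) {b : Fin 10} (a : Fin 3) {x : ℂ} (h : Sp.wb b x ∈ slitPlane) :
    HasDerivAt (xf l b a) (xd l b a x) x := by
  unfold xf xd
  split_ifs
  · exact hasDerivAt_id x
  · exact hasDerivAt_br h
  · exact hasDerivAt_const x 1

/-- the Wronskian identity -/
theorem wronskian (l l' : Fin 3) {b : Fin 10} {x : ℂ} (h : Sp.wb b x ∈ slitPlane) :
    xd l b l' x * xf l b (l' + 2) x - xf l b l' x * xd l b (l' + 2) x =
      xf l b (l' + 1) x ^ 4 / Sp.br b x ^ 4 := by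
  have hne := Sp.br_ne b x
  have hp := Sp.br_pow h
  have e5 : l + 1 + 1 = l + 2 := by fin_cases l <;> decide
  have e6 : l + 1 + 2 = l := by fin_cases l <;> decide
  have e7 : l + 2 + 1 = l := by fin_cases l <;> decide
  have e8 : l + 2 + 2 = l + 1 := by fin_cases l <;> decide
  obtain ⟨n1, n2, n3, n4, n5, n6⟩ := Sp.idx_ne l
  have f0 : xf l b l x = x := by simp [xf]
  have f1 : xf l b (l + 1) x = Sp.br b x := by simp [xf]
  have f2 : xf l b (l + 2) x = 1 := by simp [xf, n5, n6]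
  have d0 : xd l b l x = 1 := by simp [xd]
  have d1 : xd l b (l + 1) x = - x ^ 4 / Sp.br b x ^ 4 := by simp [xd]
  have d2 : xd l b (l + 2) x = 0 := by simp [xd, n5, n6]
  rcases Sp.idx_cases l l' with h' | h' | h'
  · subst h'
    rw [f0, f1, f2, d0, d2]
    field_simp
    ring
  · subst h'
    rw [e6, e5, f0, f1, f2, d0, d1]
    field_simp
    linear_combination (-1 : ℂ) * hp
  · subst h'
    rw [e8, e7, f0, f1, f2, d1, d2]
    field_simp
    ring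

theorem hasDerivAt_Jm {F : C2 → C2} {z : C2} (hF : DifferentiableAt ℂ F z) (a i : Fin 2) :
    HasDerivAt (fun t => F (Function.update z i t) a) (Jm F z a i) (z i) := by
  have h1 : HasDerivAt (Function.update z i) (Pi.single i (1 : ℂ)) (z i) := hasDerivAt_update z i (z i)
  have h2 : HasFDerivAt F (fderiv ℂ F z) (Function.update z i (z i)) := by
    rw [Function.update_eq_self]; exact hF.hasFDerivAt
  have h3 := h2.comp_hasDerivAt (z i) h1
  exact (hasDerivAt_pi.1 h3) a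

theorem isOpen_ovl' (κ κ' : Idx) : IsOpen (SF.ovl κ κ') :=
  (SF.ch κ).symm.continuousOn.isOpen_inter_preimage (SF.ch κ).open_target (SF.ch κ').open_source

theorem jac_norm {κ κ' : Idx} {z : C2} (hz : z ∈ SF.ovl κ κ') :
    ‖(Jm (SF.tr κ κ') z).det‖ ^ 2 =
      (‖xf κ.1 κ.2.1 (κ'.1 + 1) (z 0)‖ ^ 2) ^ 4 / (‖Sp.br κ.2.1 (z 0)‖ ^ 2) ^ 4 /
        (‖al κ κ' z‖ ^ 2 * (‖be κ κ' z‖ ^ 2) ^ 2) := by
  have hw : Sp.wb κ.2.1 (z 0) ∈ slitPlane := (ovl_mem hz).1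
  have hd : DifferentiableAt ℂ (SF.tr κ κ') z :=
    ((SF.hol κ κ').differentiableOn (by simp)).differentiableAt ((isOpen_ovl' κ κ').mem_nhds hz)
  have hev : ∀ i, ∀ᶠ t in 𝓝 (z i), SF.tr κ κ' (Function.update z i t) = Sp.cL κ' (Sp.sg κ (Function.update z i t)) := by
    intro i
    have hc : ContinuousAt (fun t => Function.update z i t) (z i) :=
      (continuous_const.update i continuous_id).continuousAt
    have : Function.update z i (z i) ∈ SF.ovl κ κ' := by rw [Function.update_eq_self]; exact hz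
    filter_upwards [hc.eventually ((isOpen_ovl' κ κ').mem_nhds this)] with t ht
    exact tr_eq ht
  have hal : al κ κ' z = xf κ.1 κ.2.1 (κ'.1 + 2) (z 0) := rfl
  have hal0 := al_ne hz
  have hbe0 := be_ne hz
  have hbr := Sp.br_ne κ.2.1 (z 0)
  -- first row
  have J00 : Jm (SF.tr κ κ') z 0 0 = (xf κ.1 κ.2.1 (κ'.1 + 1) (z 0) ^ 4 / Sp.br κ.2.1 (z 0) ^ 4) / al κ κ' z ^ 2 := by
    have h1 := hasDerivAt_Jm hd 0 0
    have h2 : HasDerivAt (fun t => xf κ.1 κ.2.1 κ'.1 t / xf κ.1 κ.2.1 (κ'.1 + 2) t)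
        ((xd κ.1 κ.2.1 κ'.1 (z 0) * xf κ.1 κ.2.1 (κ'.1 + 2) (z 0) -
          xf κ.1 κ.2.1 κ'.1 (z 0) * xd κ.1 κ.2.1 (κ'.1 + 2) (z 0)) / xf κ.1 κ.2.1 (κ'.1 + 2) (z 0) ^ 2) (z 0) :=
      (hasDerivAt_xf _ _ hw).div (hasDerivAt_xf _ _ hw) (by rw [← hal]; exact hal0)
    rw [wronskian _ _ hw, ← hal] at h2
    refine h1.unique (h2.congr_of_eventuallyEq ?_)
    filter_upwards [hev 0] with t ht
    rw [ht]
    simp only [Sp.cL, Matrix.cons_val_zero, sg1_eq, Function.update_self]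
  have J01 : Jm (SF.tr κ κ') z 0 1 = 0 := by
    have h1 := hasDerivAt_Jm hd 0 1
    refine h1.unique ((hasDerivAt_const (z 1) (xf κ.1 κ.2.1 κ'.1 (z 0) /
      xf κ.1 κ.2.1 (κ'.1 + 2) (z 0))).congr_of_eventuallyEq ?_)
    filter_upwards [hev 1] with t ht
    rw [ht]
    simp only [Sp.cL, Matrix.cons_val_zero, sg1_eq]
    rw [Function.update_of_ne (by decide)]
  -- the entry `(1,1)`
  have J11 : ‖Jm (SF.tr κ κ') z 1 1‖ = ‖al κ κ' z‖ / ‖be κ κ' z‖ ^ 2 := by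
    have h1 := hasDerivAt_Jm hd 1 1
    have hna : ‖al κ κ' z‖ ≠ 0 := norm_ne_zero_iff.2 hal0
    have hx : ∀ t, xf κ.1 κ.2.1 (κ'.1 + 2) ((Function.update z 1 t) 0) = al κ κ' z := by
      intro t
      rw [Function.update_of_ne (by decide)]
      rfl
    by_cases hf : κ.2.2
    · by_cases hf' : κ'.2.2
      · -- (T,T)
        have hb : be κ κ' z = 1 := by simp [be, hf', Sp.sg, hf]
        have h2 : HasDerivAt (fun t : ℂ => t * al κ κ' z) (1 * al κ κ' z) (z 1) :=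
          (hasDerivAt_id (z 1)).mul_const _
        have h3 : Jm (SF.tr κ κ') z 1 1 = 1 * al κ κ' z := by
          refine h1.unique (h2.congr_of_eventuallyEq ?_)
          filter_upwards [hev 1] with t ht
          rw [ht]
          simp only [Sp.cL, Matrix.cons_val_one, Matrix.cons_val_fin_one, hf', if_true, sg1_eq, hx]
          simp [Sp.sg, hf]
        rw [h3, hb]; simp
      · have hb : be κ κ' z = z 1 * al κ κ' z := by simp [be, hf', Sp.sg, hf, al]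
        have hz1 : z 1 ≠ 0 := by
          intro h0; rw [hb, h0, zero_mul] at hbe0; exact hbe0 rfl
        have h2 : HasDerivAt (fun t : ℂ => t⁻¹ * (al κ κ' z)⁻¹) (-(z 1 ^ 2)⁻¹ * (al κ κ' z)⁻¹) (z 1) :=
          (hasDerivAt_inv hz1).mul_const _
        have h3 : Jm (SF.tr κ κ') z 1 1 = -(z 1 ^ 2)⁻¹ * (al κ κ' z)⁻¹ := by
          refine h1.unique (h2.congr_of_eventuallyEq ?_)
          filter_upwards [hev 1] with t ht
          rw [ht]
          simp only [Sp.cL, Matrix.cons_val_one, Matrix.cons_val_fin_one, hf', if_false, Bool.false_eq_true, sg1_eq, hx]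
          simp [Sp.sg, hf, mul_comm]
        rw [h3, hb, norm_mul, norm_neg, norm_inv, norm_inv, norm_pow, norm_mul]
        have : ‖z 1‖ ≠ 0 := norm_ne_zero_iff.2 hz1
        field_simp
    · by_cases hf' : κ'.2.2
      · have hb : be κ κ' z = z 1 := by simp [be, hf', Sp.sg, hf]
        have hz1 : z 1 ≠ 0 := by rw [← hb]; exact hbe0
        have h2 : HasDerivAt (fun t : ℂ => al κ κ' z * t⁻¹) (al κ κ' z * -(z 1 ^ 2)⁻¹) (z 1) :=
          (hasDerivAt_inv hz1).const_mul _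
        have h3 : Jm (SF.tr κ κ') z 1 1 = al κ κ' z * -(z 1 ^ 2)⁻¹ := by
          refine h1.unique (h2.congr_of_eventuallyEq ?_)
          filter_upwards [hev 1] with t ht
          rw [ht]
          simp only [Sp.cL, Matrix.cons_val_one, Matrix.cons_val_fin_one, hf', if_true, sg1_eq, hx]
          simp [Sp.sg, hf, div_eq_mul_inv]
        rw [h3, hb, norm_mul, norm_neg, norm_inv, norm_pow]
        rw [div_eq_mul_inv]
      · have hb : be κ κ' z = al κ κ' z := by simp [be, hf', Sp.sg, hf, al]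
        have h2 : HasDerivAt (fun t : ℂ => t * (al κ κ' z)⁻¹) (1 * (al κ κ' z)⁻¹) (z 1) :=
          (hasDerivAt_id (z 1)).mul_const _
        have h3 : Jm (SF.tr κ κ') z 1 1 = 1 * (al κ κ' z)⁻¹ := by
          refine h1.unique (h2.congr_of_eventuallyEq ?_)
          filter_upwards [hev 1] with t ht
          rw [ht]
          simp only [Sp.cL, Matrix.cons_val_one, Matrix.cons_val_fin_one, hf', if_false, Bool.false_eq_true, sg1_eq, hx]
          simp [Sp.sg, hf, div_eq_mul_inv]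
        rw [h3, hb, one_mul, norm_inv]
        field_simp
  rw [Matrix.det_fin_two, J01, zero_mul, sub_zero, norm_mul, J11, J00, norm_div, norm_div, norm_pow, norm_pow, norm_pow]
  have n1 : ‖al κ κ' z‖ ≠ 0 := norm_ne_zero_iff.2 hal0
  have n2 : ‖be κ κ' z‖ ≠ 0 := norm_ne_zero_iff.2 hbe0
  have n3 : ‖Sp.br κ.2.1 (z 0)‖ ≠ 0 := norm_ne_zero_iff.2 hbr
  field_simp

theorem log_aux {A B P Q N D : ℝ} (hA : 0 < A) (hB : 0 < B) (hP : 0 < P) (hQ : 0 < Q) (hN : 0 < N) (hD : 0 < D) :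
    3 * Real.log (A * N) + -2 * Real.log (B * D) - 4 * Real.log Q - (3 * Real.log N + -2 * Real.log D -
      4 * Real.log P) = Real.log ((A * P) ^ 4 / Q ^ 4 / (A * B ^ 2)) := by
  rw [Real.log_mul hA.ne' hN.ne', Real.log_mul hB.ne' hD.ne', Real.log_div (by positivity) (by positivity),
    Real.log_div (by positivity) (by positivity), Real.log_pow, Real.log_pow, Real.log_mul hA.ne' hP.ne',
    Real.log_mul hA.ne' (by positivity), Real.log_pow]
  push_cast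
  ring

theorem n1_pos' {X : Fin 3 → ℂ} (hX : X ∈ Xc) : 0 < n1 X := by
  unfold n1
  by_cases h0 : X 0 = 0
  · have h2 : X 2 ≠ 0 := by
      intro h2
      apply hX.1
      have hc := hX.2
      rw [h0, h2] at hc
      have h1 : X 1 = 0 := by
        have : X 1 ^ 5 = 0 := by linear_combination hc
        exact pow_eq_zero_iff (by norm_num) |>.1 this
      funext i
      fin_cases i
      · exact h0
      · exact h1
      · exact h2
    have := norm_pos_iff.2 h2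
    positivity
  · have := norm_pos_iff.2 h0
    positivity

theorem n1_smul' (α : ℂ) (X : Fin 3 → ℂ) : n1 (α • X) = ‖α‖ ^ 2 * n1 X := by
  simp only [n1, Pi.smul_apply, smul_eq_mul, norm_mul]; ring

/-- the Jacobian determinant of the transition maps, in modulus -/
theorem SF_jac (κ κ' : Idx) {z : C2} (hz : z ∈ SF.ovl κ κ') :
    Rref κ z - Rref κ' (SF.tr κ κ' z) = Real.log (‖(Jm (SF.tr κ κ') z).det‖ ^ 2) := by
  set z' := SF.tr κ κ' z with hz'
  have hal0 := al_ne hz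
  have hbe0 := be_ne hz
  have hsg := sg_ovl hz
  rw [← hz'] at hsg
  have hX : PX κ z = al κ κ' z • PX κ' z' := by
    rw [PX_eq (ovl_sub_tg hz), PX_eq (tr_mem_tg hz)]
    exact (Prod.ext_iff.1 hsg).1
  have hV1 : (PV κ z).1 = be κ κ' z * (PV κ' z').1 := by
    have h := congrFun (Prod.ext_iff.1 hsg).2 0
    rw [← vv_PV] at h
    simp only [Sp.act, ← vv_PV] at h
    simpa [vv] using h
  have hV2 : (PV κ z).2 = be κ κ' z * (al κ κ' z)⁻¹ * (PV κ' z').2 := by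
    have h := congrFun (Prod.ext_iff.1 hsg).2 1
    rw [← vv_PV] at h
    simp only [Sp.act, ← vv_PV] at h
    simpa [vv] using h
  have hXm : PX κ' z' ∈ Xc := PX_mem κ' (tr_mem_tg hz)
  have hn1 := n1_pos' hXm
  have hA : 0 < ‖al κ κ' z‖ ^ 2 := by have := norm_pos_iff.2 hal0; positivity
  have hB : 0 < ‖be κ κ' z‖ ^ 2 := by have := norm_pos_iff.2 hbe0; positivity
  have hD : 0 < ‖(PV κ' z').1‖ ^ 2 + Real.exp 0 * ‖(PV κ' z').2‖ ^ 2 * n1 (PX κ' z') := by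
    rw [Real.exp_zero, one_mul]
    by_cases h1 : (PV κ' z').1 = 0
    · have h2 : (PV κ' z').2 ≠ 0 := fun h2 => PV_ne κ' z' (Prod.ext h1 h2)
      have := norm_pos_iff.2 h2
      positivity
    · have := norm_pos_iff.2 h1
      positivity
  have hy0 : Sp.br κ.2.1 (z 0) ≠ 0 := Sp.br_ne _ _
  have hy : PX κ z (κ.1 + 1) = Sp.br κ.2.1 (z 0) := by
    rw [PX_eq (ovl_sub_tg hz)]; exact Sp.sg_1 κ z
  have hy' : PX κ' z' (κ'.1 + 1) = Sp.br κ'.2.1 (z' 0) := by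
    rw [PX_eq (tr_mem_tg hz)]; exact Sp.sg_1 κ' z'
  have hY : xf κ.1 κ.2.1 (κ'.1 + 1) (z 0) = al κ κ' z * PX κ' z' (κ'.1 + 1) := by
    have h := congrFun hX (κ'.1 + 1)
    rw [PX_eq (ovl_sub_tg hz)] at h
    exact h
  have hy'0 : PX κ' z' (κ'.1 + 1) ≠ 0 := by rw [hy']; exact Sp.br_ne _ _
  have hP : 0 < ‖PX κ' z' (κ'.1 + 1)‖ ^ 2 := by have := norm_pos_iff.2 hy'0; positivity
  have hQ : 0 < ‖Sp.br κ.2.1 (z 0)‖ ^ 2 := by have := norm_pos_iff.2 hy0; positivity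
  rw [jac_norm hz, hY, norm_mul, mul_pow]
  have e1 : n1 (PX κ z) = ‖al κ κ' z‖ ^ 2 * n1 (PX κ' z') := by rw [hX, n1_smul']
  have e2 : ‖(PV κ z).1‖ ^ 2 + Real.exp 0 * ‖(PV κ z).2‖ ^ 2 * n1 (PX κ z) =
      ‖be κ κ' z‖ ^ 2 * (‖(PV κ' z').1‖ ^ 2 + Real.exp 0 * ‖(PV κ' z').2‖ ^ 2 * n1 (PX κ' z')) := by
    rw [e1, hV1, hV2, norm_mul, norm_mul, norm_mul, norm_inv]
    have : ‖al κ κ' z‖ ≠ 0 := norm_ne_zero_iff.2 hal0
    field_simp
  unfold Rref Psi
  rw [e2, e1, hy]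
  exact log_aux hA hB hP hQ hn1 hD

end

end Pool.Agent.KS
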