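import Pool.Agent.KS.Calc

/-!
# Pointwise convexity inequality for Fubini-Study paths (module FSCONV)
-/

namespace Pool.Agent.KS

open MeasureTheory Complex Topology
open scoped ContDiff Matrix ComplexOrder ComplexConjugate Manifold Interval

noncomputable section

namespace FSconv

/-- algebraic form of the determinant inequality -/
theorem two_by_two {H : Matrix (Fin 2) (Fin 2) ℂ} (hH : H.PosSemidef) (g : Fin 2 → ℂ) (v : ℝ)
    (hv : 0 ≤ v) (h : ∀ ξ : Fin 2 → ℂ,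
      ‖∑ i, ξ i * g i‖ ^ 2 ≤ v * (∑ i, ∑ j, ξ i * conj (ξ j) * H i j).re) :
    2 * mdet (fun i j => g i * conj (g j)) H ≤ v * H.det.re := by
  have hHe := hH.1
  have h01 : conj (H 0 1) = H 1 0 := hHe.apply 1 0
  have h10 : conj (H 1 0) = H 0 1 := hHe.apply 0 1
  have h00 : conj (H 0 0) = H 0 0 := hHe.apply 0 0
  have h11 : conj (H 1 1) = H 1 1 := hHe.apply 1 1
  have hdet : 0 ≤ H.det := hH.det_nonneg
  have hdre : 0 ≤ H.det.re := (Complex.le_def.1 hdet).1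
  have hdim : H.det.im = 0 := ((Complex.le_def.1 hdet).2).symm
  set Q : ℂ := g 0 * conj (g 0) * H 1 1 + g 1 * conj (g 1) * H 0 0 - g 0 * conj (g 1) * H 1 0 -
    g 1 * conj (g 0) * H 0 1 with hQ
  have hmd : 2 * mdet (fun i j => g i * conj (g j)) H = Q.re := by
    unfold mdet
    have : (2 : ℝ) * ((g 0 * conj (g 0) * H 1 1 + g 1 * conj (g 1) * H 0 0 -
        g 0 * conj (g 1) * H 1 0 - g 1 * conj (g 0) * H 0 1) / 2).re =
        (((2 : ℝ) : ℂ) * ((g 0 * conj (g 0) * H 1 1 + g 1 * conj (g 1) * H 0 0 -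
        g 0 * conj (g 1) * H 1 0 - g 1 * conj (g 0) * H 0 1) / 2)).re := by
      rw [Complex.re_ofReal_mul]
    rw [this]
    congr 1
    push_cast
    rw [hQ]
    ring
  rw [hmd]
  by_cases hq : Q.re ≤ 0
  · exact hq.trans (mul_nonneg hv hdre)
  push Not at hq
  have h1 := h ![conj (g 0) * H 1 1 - conj (g 1) * H 1 0, conj (g 1) * H 0 0 - conj (g 0) * H 0 1]
  simp only [Fin.sum_univ_two, Matrix.cons_val_zero, Matrix.cons_val_one] at h1
  have e1 : (conj (g 0) * H 1 1 - conj (g 1) * H 1 0) * g 0 +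
      (conj (g 1) * H 0 0 - conj (g 0) * H 0 1) * g 1 = Q := by
    rw [hQ]; ring
  have e2 : (conj (g 0) * H 1 1 - conj (g 1) * H 1 0) *
        conj (conj (g 0) * H 1 1 - conj (g 1) * H 1 0) * H 0 0 +
      (conj (g 0) * H 1 1 - conj (g 1) * H 1 0) *
        conj (conj (g 1) * H 0 0 - conj (g 0) * H 0 1) * H 0 1 +
      ((conj (g 1) * H 0 0 - conj (g 0) * H 0 1) *
        conj (conj (g 0) * H 1 1 - conj (g 1) * H 1 0) * H 1 0 +
      (conj (g 1) * H 0 0 - conj (g 0) * H 0 1) *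
        conj (conj (g 1) * H 0 0 - conj (g 0) * H 0 1) * H 1 1) = H.det * Q := by
    rw [Matrix.det_fin_two, hQ]
    simp only [map_sub, map_mul, Complex.conj_conj, h01, h10, h00, h11]
    ring
  rw [e1, e2, Complex.mul_re, hdim, zero_mul, sub_zero] at h1
  have h2 : Q.re ^ 2 ≤ ‖Q‖ ^ 2 := by
    rw [← Complex.normSq_eq_norm_sq, Complex.normSq_apply]
    nlinarith [sq_nonneg Q.im]
  have h3 : Q.re * Q.re ≤ v * H.det.re * Q.re := by nlinarith
  exact le_of_mul_le_mul_right h3 hq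

/-- the Cauchy-Schwarz core -/
theorem cs_core {α : Type} [Fintype α] (c w : α → ℝ) (hc : ∀ a, 0 ≤ c a) (D F : α → ℂ)
    (hpos : 0 < ∑ a, c a * ‖F a‖ ^ 2) :
    ‖(∑ a, ((c a * w a : ℝ) : ℂ) * (D a * conj (F a))) / ((∑ a, c a * ‖F a‖ ^ 2 : ℝ) : ℂ) -
      ((∑ a, c a * w a * ‖F a‖ ^ 2 : ℝ) : ℂ) * (∑ a, (c a : ℂ) * (D a * conj (F a))) /
        ((∑ a, c a * ‖F a‖ ^ 2 : ℝ) : ℂ) ^ 2‖ ^ 2 ≤
    ((∑ a, c a * w a ^ 2 * ‖F a‖ ^ 2) / (∑ a, c a * ‖F a‖ ^ 2)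
          - ((∑ a, c a * w a * ‖F a‖ ^ 2) / ∑ a, c a * ‖F a‖ ^ 2) ^ 2) *
      ((∑ a, (c a : ℂ) * (D a * conj (D a))) / ((∑ a, c a * ‖F a‖ ^ 2 : ℝ) : ℂ) -
        (∑ a, (c a : ℂ) * (D a * conj (F a))) * (∑ a, (c a : ℂ) * (F a * conj (D a))) /
        ((∑ a, c a * ‖F a‖ ^ 2 : ℝ) : ℂ) ^ 2).re := by
  set S : ℝ := ∑ a, c a * ‖F a‖ ^ 2 with hS
  set N1 : ℝ := ∑ a, c a * w a * ‖F a‖ ^ 2 with hN1
  set N2 : ℝ := ∑ a, c a * w a ^ 2 * ‖F a‖ ^ 2 with hN2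
  set A : ℂ := ∑ a, (c a : ℂ) * (D a * conj (F a)) with hA
  set A' : ℂ := ∑ a, (c a : ℂ) * (F a * conj (D a)) with hA'
  set W : ℂ := ∑ a, ((c a * w a : ℝ) : ℂ) * (D a * conj (F a)) with hW
  set B : ℂ := ∑ a, (c a : ℂ) * (D a * conj (D a)) with hB
  have hSne : (S : ℂ) ≠ 0 := by exact_mod_cast hpos.ne'
  have hSne' : S ≠ 0 := hpos.ne'
  have hFF : ∀ a, F a * conj (F a) = ((‖F a‖ ^ 2 : ℝ) : ℂ) := fun a => by
    rw [Complex.mul_conj']; push_cast; rfl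
  have hSc : (S : ℂ) = ∑ a, (c a : ℂ) * (F a * conj (F a)) := by
    rw [hS]; push_cast
    refine Finset.sum_congr rfl fun a _ => ?_
    rw [hFF]; push_cast; rfl
  have hN1c : (N1 : ℂ) = ∑ a, (c a : ℂ) * w a * (F a * conj (F a)) := by
    rw [hN1]; push_cast
    refine Finset.sum_congr rfl fun a _ => ?_
    rw [hFF]; push_cast; rfl
  have hA'c : conj A = A' := by
    rw [hA, hA', map_sum]
    refine Finset.sum_congr rfl fun a _ => ?_
    rw [map_mul, map_mul, Complex.conj_conj, Complex.conj_ofReal]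
    ring
  set lam : ℂ := A / S with hlam
  set mm : ℝ := N1 / S with hmm
  set X : α → ℂ := fun a => D a - lam * F a with hX
  have I1 : W / S - N1 * A / (S : ℂ) ^ 2 =
      (1 / (S : ℂ)) * ∑ a, ((c a * (w a - mm) : ℝ) : ℂ) * (X a * conj (F a)) := by
    have : ∑ a, ((c a * (w a - mm) : ℝ) : ℂ) * (X a * conj (F a)) =
        W - mm * A - lam * (N1 - mm * S) := by
      rw [hW, hA, hN1c, hSc, Finset.mul_sum, Finset.mul_sum, ← Finset.sum_sub_distrib,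
        ← Finset.sum_sub_distrib, Finset.mul_sum, ← Finset.sum_sub_distrib]
      refine Finset.sum_congr rfl fun a _ => ?_
      simp only [hX]
      push_cast
      ring
    rw [this, hmm, hlam]
    push_cast
    field_simp
    ring
  have I2 : B / S - A * A' / (S : ℂ) ^ 2 = (((1 / S) * ∑ a, c a * ‖X a‖ ^ 2 : ℝ) : ℂ) := by
    have h1 : ((∑ a, c a * ‖X a‖ ^ 2 : ℝ) : ℂ) = B - conj lam * A - lam * A' + lam * conj lam * S := by
      rw [hB, hA, hA', hSc, Finset.mul_sum, Finset.mul_sum, Finset.mul_sum,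
        ← Finset.sum_sub_distrib, ← Finset.sum_sub_distrib, ← Finset.sum_add_distrib]
      push_cast
      refine Finset.sum_congr rfl fun a _ => ?_
      have : ((‖X a‖ : ℝ) : ℂ) ^ 2 = X a * conj (X a) := (Complex.mul_conj' _).symm
      rw [this]
      simp only [hX, map_sub, map_mul]
      ring
    have h2 : conj lam = A' / S := by
      rw [hlam, map_div₀, hA'c, Complex.conj_ofReal]
    rw [Complex.ofReal_mul, h1, h2, hlam]
    push_cast
    field_simp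
    ring
  have I3 : N2 / S - (N1 / S) ^ 2 = (1 / S) * ∑ a, c a * ((w a - mm) ^ 2 * ‖F a‖ ^ 2) := by
    have : ∑ a, c a * ((w a - mm) ^ 2 * ‖F a‖ ^ 2) = N2 - 2 * mm * N1 + mm ^ 2 * S := by
      rw [hN2, hN1, hS, Finset.mul_sum, Finset.mul_sum, ← Finset.sum_sub_distrib,
        ← Finset.sum_add_distrib]
      refine Finset.sum_congr rfl fun a _ => ?_
      ring
    rw [this, hmm]
    field_simp
    ring
  rw [I1, I2, I3, Complex.ofReal_re, norm_mul, mul_pow]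
  have hnS : ‖(1 / (S : ℂ))‖ = 1 / S := by
    rw [norm_div, norm_one, Complex.norm_real, Real.norm_of_nonneg hpos.le]
  rw [hnS]
  have hCS : ‖∑ a, ((c a * (w a - mm) : ℝ) : ℂ) * (X a * conj (F a))‖ ^ 2 ≤
      (∑ a, c a * ((w a - mm) ^ 2 * ‖F a‖ ^ 2)) * ∑ a, c a * ‖X a‖ ^ 2 := by
    have h1 : ‖∑ a, ((c a * (w a - mm) : ℝ) : ℂ) * (X a * conj (F a))‖ ≤
        ∑ a, (Real.sqrt (c a) * (|w a - mm| * ‖F a‖)) * (Real.sqrt (c a) * ‖X a‖) := by
      refine (norm_sum_le _ _).trans (le_of_eq ?_)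
      refine Finset.sum_congr rfl fun a _ => ?_
      rw [norm_mul, norm_mul, Complex.norm_real, Complex.norm_conj, Real.norm_eq_abs, abs_mul,
        abs_of_nonneg (hc a)]
      have := Real.mul_self_sqrt (hc a)
      calc c a * |w a - mm| * (‖X a‖ * ‖F a‖) =
          (Real.sqrt (c a) * Real.sqrt (c a)) * |w a - mm| * (‖X a‖ * ‖F a‖) := by rw [this]
        _ = _ := by ring
    have h2 := Finset.sum_mul_sq_le_sq_mul_sq Finset.univ
      (fun a => Real.sqrt (c a) * (|w a - mm| * ‖F a‖)) (fun a => Real.sqrt (c a) * ‖X a‖)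
    have h3 : ∑ a, (Real.sqrt (c a) * (|w a - mm| * ‖F a‖)) ^ 2 =
        ∑ a, c a * ((w a - mm) ^ 2 * ‖F a‖ ^ 2) := by
      refine Finset.sum_congr rfl fun a _ => ?_
      rw [mul_pow, Real.sq_sqrt (hc a), mul_pow, sq_abs]
    have h4 : ∑ a, (Real.sqrt (c a) * ‖X a‖) ^ 2 = ∑ a, c a * ‖X a‖ ^ 2 := by
      refine Finset.sum_congr rfl fun a _ => ?_
      rw [mul_pow, Real.sq_sqrt (hc a)]
    rw [h3, h4] at h2
    refine le_trans ?_ h2
    exact pow_le_pow_left₀ (norm_nonneg _) h1 2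
  calc (1 / S) ^ 2 * ‖∑ a, ((c a * (w a - mm) : ℝ) : ℂ) * (X a * conj (F a))‖ ^ 2
      ≤ (1 / S) ^ 2 * ((∑ a, c a * ((w a - mm) ^ 2 * ‖F a‖ ^ 2)) * ∑ a, c a * ‖X a‖ ^ 2) := by
        gcongr
    _ = _ := by ring

theorem var_nonneg {α : Type} [Fintype α] (c w : α → ℝ) (hc : ∀ a, 0 ≤ c a) (f : α → ℝ)
    (hf : ∀ a, 0 ≤ f a) (hpos : 0 < ∑ a, c a * f a) :
    0 ≤ (∑ a, c a * w a ^ 2 * f a) / (∑ a, c a * f a)
          - ((∑ a, c a * w a * f a) / ∑ a, c a * f a) ^ 2 := by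
  set S : ℝ := ∑ a, c a * f a with hS
  set N1 : ℝ := ∑ a, c a * w a * f a with hN1
  have h1 : (∑ a, c a * w a ^ 2 * f a) / S - (N1 / S) ^ 2 =
      (1 / S) * ∑ a, c a * ((w a - N1 / S) ^ 2 * f a) := by
    have : ∑ a, c a * ((w a - N1 / S) ^ 2 * f a) =
        (∑ a, c a * w a ^ 2 * f a) - 2 * (N1 / S) * N1 + (N1 / S) ^ 2 * S := by
      conv_rhs => rw [hN1, hS]
      rw [← hN1, ← hS]
      have e1 : 2 * (N1 / S) * N1 = ∑ a, 2 * (N1 / S) * (c a * w a * f a) := by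
        rw [← Finset.mul_sum]
      have e2 : (N1 / S) ^ 2 * S = ∑ a, (N1 / S) ^ 2 * (c a * f a) := by
        rw [← Finset.mul_sum]
      rw [e1, e2, ← Finset.sum_sub_distrib, ← Finset.sum_add_distrib]
      refine Finset.sum_congr rfl fun a _ => ?_
      ring
    rw [this]
    field_simp
    ring
  rw [h1]
  refine mul_nonneg (by positivity) (Finset.sum_nonneg fun a _ => ?_)
  exact mul_nonneg (hc a) (mul_nonneg (sq_nonneg _) (hf a))

theorem gz_div {u v : C2 → ℝ} {z : C2} (i : Fin 2) (hu : DifferentiableAt ℝ u z)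
    (hv : DifferentiableAt ℝ v z) (h0 : v z ≠ 0) :
    gz i (fun x => u x / v x) z = gz i u z / (v z : ℂ) - (u z : ℂ) * gz i v z / (v z : ℂ) ^ 2 := by
  have h1 : (fun x => u x / v x) = fun x => u x * (fun y => y⁻¹) (v x) := by
    funext x; rw [div_eq_mul_inv]
  have hinv : DifferentiableAt ℝ (fun y : ℝ => y⁻¹) (v z) := differentiableAt_inv h0
  have hvi : DifferentiableAt ℝ (fun x => (fun y : ℝ => y⁻¹) (v x)) z := hv.inv h0
  rw [h1, gz_mul i hu hvi, gz_real_comp i hv hinv]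
  rw [deriv_inv]
  push_cast
  have : (v z : ℂ) ≠ 0 := by exact_mod_cast h0
  field_simp
  ring

end FSconv

open FSconv

/-- With `S = ∑ c_a |F_a|²`, `m = (∑ c_a w_a |F_a|²)/S`, `v = (∑ c_a w_a² |F_a|²)/S - m²`:
`2 D(∂m ⊗ ∂̄m, H(log S)) ≤ v det H(log S)`. -/
theorem fs_convex {α : Type} [Fintype α] {F : α → C2 → ℂ} (c w : α → ℝ) (hc : ∀ a, 0 ≤ c a)
    {z : C2} (hF : ∀ a, ContDiffAt ℂ 2 (F a) z) (hpos : 0 < ∑ a, c a * ‖F a z‖ ^ 2) :
    2 * mdet (fun i j =>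
          gz i (fun x => (∑ a, c a * w a * ‖F a x‖ ^ 2) / ∑ a, c a * ‖F a x‖ ^ 2) z
          * conj (gz j (fun x => (∑ a, c a * w a * ‖F a x‖ ^ 2) / ∑ a, c a * ‖F a x‖ ^ 2) z))
        (cHess (fun x => Real.log (∑ a, c a * ‖F a x‖ ^ 2)) z)
      ≤ ((∑ a, c a * w a ^ 2 * ‖F a z‖ ^ 2) / (∑ a, c a * ‖F a z‖ ^ 2)
          - ((∑ a, c a * w a * ‖F a z‖ ^ 2) / ∑ a, c a * ‖F a z‖ ^ 2) ^ 2)
        * dt (fun x => Real.log (∑ a, c a * ‖F a x‖ ^ 2)) z := by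
  have hD : ∀ a, DifferentiableAt ℂ (F a) z := fun a => (hF a).differentiableAt (by norm_num)
  have hDR : ∀ a, DifferentiableAt ℝ (F a) z := fun a => (hD a).restrictScalars ℝ
  have hns : ∀ d : α → ℝ, DifferentiableAt ℝ (fun x => ∑ a, d a * ‖F a x‖ ^ 2) z := by
    intro d
    refine DifferentiableAt.fun_sum fun a _ => ?_
    exact ((hDR a).norm_sq ℂ).const_mul (d a)
  have hg : ∀ i, gz i (fun x => (∑ a, c a * w a * ‖F a x‖ ^ 2) / ∑ a, c a * ‖F a x‖ ^ 2) z =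
      (∑ a, ((c a * w a : ℝ) : ℂ) * (dz i (F a) z * conj (F a z))) /
        ((∑ a, c a * ‖F a z‖ ^ 2 : ℝ) : ℂ) -
      ((∑ a, c a * w a * ‖F a z‖ ^ 2 : ℝ) : ℂ) * (∑ a, (c a : ℂ) * (dz i (F a) z * conj (F a z))) /
        ((∑ a, c a * ‖F a z‖ ^ 2 : ℝ) : ℂ) ^ 2 := by
    intro i
    rw [gz_div i (hns (fun a => c a * w a)) (hns c) hpos.ne',
      gz_sum_norm_sq (fun a => c a * w a) i hD, gz_sum_norm_sq c i hD]
  unfold dt
  apply two_by_two (posSemidef_cHess_log_sum c hc hF hpos)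
  · exact var_nonneg c w hc (fun a => ‖F a z‖ ^ 2) (fun a => by positivity) hpos
  intro ξ
  have hcore := cs_core c w hc (fun a => ∑ i, ξ i * dz i (F a) z) (fun a => F a z) hpos
  have e1 : ∑ i, ξ i * gz i (fun x => (∑ a, c a * w a * ‖F a x‖ ^ 2) /
        ∑ a, c a * ‖F a x‖ ^ 2) z =
      (∑ a, ((c a * w a : ℝ) : ℂ) * ((∑ i, ξ i * dz i (F a) z) * conj (F a z))) /
        ((∑ a, c a * ‖F a z‖ ^ 2 : ℝ) : ℂ) -
      ((∑ a, c a * w a * ‖F a z‖ ^ 2 : ℝ) : ℂ) *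
        (∑ a, (c a : ℂ) * ((∑ i, ξ i * dz i (F a) z) * conj (F a z))) /
        ((∑ a, c a * ‖F a z‖ ^ 2 : ℝ) : ℂ) ^ 2 := by
    have s1 : ∀ d : α → ℂ, ∑ a, d a * ((∑ i, ξ i * dz i (F a) z) * conj (F a z)) =
        ∑ i, ξ i * ∑ a, d a * (dz i (F a) z * conj (F a z)) := by
      intro d
      simp only [Fin.sum_univ_two, Finset.mul_sum, ← Finset.sum_add_distrib]
      refine Finset.sum_congr rfl fun a _ => ?_
      ring
    rw [s1 (fun a => ((c a * w a : ℝ) : ℂ)), s1 (fun a => (c a : ℂ))]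
    simp only [hg, Fin.sum_univ_two]
    ring
  have e2 : ∑ i, ∑ j, ξ i * conj (ξ j) *
        cHess (fun x => Real.log (∑ a, c a * ‖F a x‖ ^ 2)) z i j =
      (∑ a, (c a : ℂ) * ((∑ i, ξ i * dz i (F a) z) * conj (∑ i, ξ i * dz i (F a) z))) /
        ((∑ a, c a * ‖F a z‖ ^ 2 : ℝ) : ℂ) -
        (∑ a, (c a : ℂ) * ((∑ i, ξ i * dz i (F a) z) * conj (F a z))) *
          (∑ a, (c a : ℂ) * (F a z * conj (∑ i, ξ i * dz i (F a) z))) /
        ((∑ a, c a * ‖F a z‖ ^ 2 : ℝ) : ℂ) ^ 2 := by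
    simp only [fun i j => cHess_log_sum_norm_sq c i j hF hpos]
    have s1 : ∑ a, (c a : ℂ) * ((∑ i, ξ i * dz i (F a) z) * conj (∑ i, ξ i * dz i (F a) z)) =
        ∑ i, ∑ j, ξ i * conj (ξ j) * ∑ a, (c a : ℂ) * (dz i (F a) z * conj (dz j (F a) z)) := by
      simp only [Fin.sum_univ_two, Finset.mul_sum, ← Finset.sum_add_distrib, map_add, map_mul]
      refine Finset.sum_congr rfl fun a _ => ?_
      ring
    have s2 : ∑ a, (c a : ℂ) * ((∑ i, ξ i * dz i (F a) z) * conj (F a z)) =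
        ∑ i, ξ i * ∑ a, (c a : ℂ) * (dz i (F a) z * conj (F a z)) := by
      simp only [Fin.sum_univ_two, Finset.mul_sum, ← Finset.sum_add_distrib]
      refine Finset.sum_congr rfl fun a _ => ?_
      ring
    have s3 : ∑ a, (c a : ℂ) * (F a z * conj (∑ i, ξ i * dz i (F a) z)) =
        ∑ i, conj (ξ i) * ∑ a, (c a : ℂ) * (F a z * conj (dz i (F a) z)) := by
      simp only [Fin.sum_univ_two, Finset.mul_sum, ← Finset.sum_add_distrib, map_add, map_mul]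
      refine Finset.sum_congr rfl fun a _ => ?_
      ring
    rw [s1, s2, s3]
    simp only [Fin.sum_univ_two]
    ring
  rw [e1, e2]
  exact hcore

end

end Pool.Agent.KS
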