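import Pool.Agent.KS.FDefs

/-!
# Linear independence of the monomials (module FSEC2)
-/

namespace Pool.Agent.KS

open MeasureTheory Complex Topology
open scoped ContDiff Matrix ComplexOrder ComplexConjugate Manifold

noncomputable section

/-- a polynomial identity on an infinite set splits by powers -/
theorem sum_pow_split {β : Type} (S : Finset β) (f : β → ℕ) (g : β → ℂ) (A : Set ℂ)
    (hA : A.Infinite) (h : ∀ l ∈ A, ∑ α ∈ S, g α * l ^ f α = 0) (n : ℕ) :
    ∑ α ∈ S.filter (fun α => f α = n), g α = 0 := by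
  classical
  set P : Polynomial ℂ := ∑ α ∈ S, Polynomial.C (g α) * Polynomial.X ^ f α with hP
  have hP0 : P = 0 := by
    apply Polynomial.eq_zero_of_infinite_isRoot
    apply hA.mono
    intro l hl
    show Polynomial.IsRoot P l
    rw [Polynomial.IsRoot.def, hP, Polynomial.eval_finsetSum]
    simpa using h l hl
  have hc : P.coeff n = 0 := by rw [hP0]; simp
  rw [hP, Polynomial.finsetSum_coeff] at hc
  rw [Finset.sum_filter]
  refine Eq.trans (Finset.sum_congr rfl fun α _ => ?_) hc
  rw [Polynomial.coeff_C_mul, Polynomial.coeff_X_pow]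
  by_cases h : f α = n
  · simp [h]
  · simp [h, Ne.symm h]

/-- the same with finitely many points and bounded degree -/
theorem sum_pow_split_fin {β : Type} (S : Finset β) (f : β → ℕ) (g : β → ℂ) (N : ℕ)
    (hf : ∀ α ∈ S, f α < N) (A : Finset ℂ) (hA : N ≤ A.card)
    (h : ∀ l ∈ A, ∑ α ∈ S, g α * l ^ f α = 0) (n : ℕ) :
    ∑ α ∈ S.filter (fun α => f α = n), g α = 0 := by
  classical
  set P : Polynomial ℂ := ∑ α ∈ S, Polynomial.C (g α) * Polynomial.X ^ f α with hP
  have hP0 : P = 0 := by
    by_contra hne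
    have hev : ∀ l ∈ A, P.IsRoot l := by
      intro l hl
      rw [Polynomial.IsRoot.def, hP, Polynomial.eval_finsetSum]
      simpa using h l hl
    have hsub : A ⊆ P.roots.toFinset := by
      intro l hl
      rw [Multiset.mem_toFinset, Polynomial.mem_roots hne]
      exact hev l hl
    have h1 : A.card ≤ P.natDegree :=
      (Finset.card_le_card hsub).trans ((Multiset.toFinset_card_le _).trans
        (Polynomial.card_roots' P))
    have h2 : P.degree < (N : WithBot ℕ) := by
      rw [← Polynomial.mem_degreeLT, hP]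
      refine Submodule.sum_mem _ fun α hα => ?_
      rw [Polynomial.mem_degreeLT]
      refine lt_of_le_of_lt (Polynomial.degree_C_mul_X_pow_le _ _) ?_
      exact_mod_cast hf α hα
    have h3 : P.natDegree < N := (Polynomial.natDegree_lt_iff_degree_lt hne).2 h2
    omega
  have hc : P.coeff n = 0 := by rw [hP0]; simp
  rw [hP, Polynomial.finsetSum_coeff] at hc
  rw [Finset.sum_filter]
  refine Eq.trans (Finset.sum_congr rfl fun α _ => ?_) hc
  rw [Polynomial.coeff_C_mul, Polynomial.coeff_X_pow]
  by_cases h : f α = n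
  · simp [h]
  · simp [h, Ne.symm h]

/-- for even `b` the tenth root of unity is a fifth root of unity -/
theorem zt_even_pow (b : Fin 5) : zt ⟨2 * b, by omega⟩ ^ 5 = 1 := by
  unfold zt
  rw [← Complex.exp_nat_mul]
  rw [Complex.exp_eq_one_iff]
  refine ⟨(b : ℕ), ?_⟩
  push_cast
  ring

theorem zt_even_inj (b b' : Fin 5) (h : zt ⟨2 * b, by omega⟩ = zt ⟨2 * b', by omega⟩) : b = b' := by
  unfold zt at h
  rw [Complex.exp_eq_exp_iff_exists_int] at h
  obtain ⟨n, hn⟩ := h
  have hpi : (2 * Real.pi * I : ℂ) ≠ 0 := Complex.two_pi_I_ne_zero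
  have h1 : (2 * (b : ℕ) : ℂ) / 10 = (2 * (b' : ℕ) : ℂ) / 10 + n := by
    apply mul_left_cancel₀ hpi
    push_cast at hn
    linear_combination hn
  have h2 : ((b : ℕ) : ℂ) = ((b' : ℕ) : ℂ) + 5 * n := by linear_combination 5 * h1
  have h3 : ((b : ℕ) : ℤ) = ((b' : ℕ) : ℤ) + 5 * n := by exact_mod_cast h2
  have hb := b.2
  have hb' := b'.2
  apply Fin.ext
  omega

end

end Pool.Agent.KS
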