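import Mathlib

/-!
# Adapted orthonormal bases, linear algebra (module FSEC3)
-/

namespace Pool.Agent.KS

open MeasureTheory Complex Topology
open scoped ContDiff Matrix ComplexOrder ComplexConjugate Manifold

noncomputable section

/-- triangular orthonormalisation -/
theorem adapted_matrix {N : ℕ} {G : Matrix (Fin N) (Fin N) ℂ} (hG : G.PosDef) :
    ∃ T : Matrix (Fin N) (Fin N) ℂ, (∀ i j, i < j → T i j = 0) ∧ T * G * Tᴴ = 1 ∧ IsUnit T := by
  classical
  set L := LDL.lowerInv hG with hL
  have hLu : IsUnit L := isUnit_of_invertible L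
  have hinj : Function.Injective L.vecMul := by
    rw [Matrix.vecMul_injective_iff_isUnit]; exact hLu
  have hD : (LDL.diag hG).PosDef := by
    rw [LDL.diag_eq_lowerInv_conj]
    exact hG.mul_mul_conjTranspose_same hinj
  have hdi : ∀ i, 0 < LDL.diagEntries hG i := by
    intro i
    have := hD.diag_pos (i := i)
    rwa [LDL.diag, Matrix.diagonal_apply_eq] at this
  set r : Fin N → ℝ := fun i => (LDL.diagEntries hG i).re with hr
  have hr0 : ∀ i, 0 < r i := fun i => (Complex.pos_iff.1 (hdi i)).1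
  have hrd : ∀ i, LDL.diagEntries hG i = (r i : ℂ) := fun i => by
    apply Complex.ext
    · simp [hr]
    · simp [(Complex.pos_iff.1 (hdi i)).2.symm]
  set R : Matrix (Fin N) (Fin N) ℂ :=
    Matrix.diagonal fun i => (((Real.sqrt (r i))⁻¹ : ℝ) : ℂ) with hR
  have hRR : R * (LDL.diag hG) * Rᴴ = 1 := by
    rw [hR, LDL.diag, Matrix.diagonal_conjTranspose, Matrix.diagonal_mul_diagonal,
      Matrix.diagonal_mul_diagonal, ← Matrix.diagonal_one]
    congr 1
    funext i
    rw [hrd i]
    have h1 : Real.sqrt (r i) ≠ 0 := (Real.sqrt_pos.2 (hr0 i)).ne'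
    have h2 : Real.sqrt (r i) * Real.sqrt (r i) = r i := Real.mul_self_sqrt (hr0 i).le
    simp only [Pi.star_apply, RCLike.star_def, Complex.conj_ofReal]
    rw [← Complex.ofReal_mul, ← Complex.ofReal_mul, ← Complex.ofReal_one]
    congr 1
    field_simp
    nlinarith [h2]
  refine ⟨R * L, ?_, ?_, ?_⟩
  · intro i j hij
    rw [hR, Matrix.diagonal_mul, hL, LDL.lowerInv_triangular hG hij, mul_zero]
  · rw [Matrix.conjTranspose_mul]
    rw [← hRR, LDL.diag_eq_lowerInv_conj, ← hL]
    simp only [Matrix.mul_assoc]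
  · refine IsUnit.mul ?_ hLu
    rw [hR, Matrix.isUnit_diagonal, Pi.isUnit_iff]
    intro i
    rw [isUnit_iff_ne_zero]
    have h1 : Real.sqrt (r i) ≠ 0 := (Real.sqrt_pos.2 (hr0 i)).ne'
    exact_mod_cast inv_ne_zero h1

/-- enumeration with decreasing degree -/
theorem exists_enum {β : Type} (S : Finset β) (f : β → ℕ) (N : ℕ) (hN : N = S.card) :
    ∃ e : Fin N ≃ S, ∀ i j, i ≤ j → f (e j) ≤ f (e i) := by
  classical
  subst hN
  set e0 : Fin S.card ≃ S := S.equivFin.symm
  set g : Fin S.card → ℕᵒᵈ := fun i => OrderDual.toDual (f (e0 i)) with hg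
  refine ⟨(Tuple.sort g).trans e0, ?_⟩
  intro i j hij
  have := Tuple.monotone_sort g hij
  exact this

end

end Pool.Agent.KS
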