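import Pool.Agent.KS.Surf

/-!
# The volume measure (module VOL)
-/

namespace Pool.Agent.KS

open MeasureTheory Complex Topology
open scoped ContDiff Matrix ComplexOrder ComplexConjugate Manifold

noncomputable section

/-! ### Measurability of images under partial homeomorphisms -/

theorem measurableSet_image_oph {X Y : Type} [TopologicalSpace X] [MeasurableSpace X]
    [BorelSpace X] [TopologicalSpace Y] [MeasurableSpace Y] [BorelSpace Y]
    (e : OpenPartialHomeomorph X Y) {A : Set X} (hA : MeasurableSet A) (hs : A ⊆ e.source) :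
    MeasurableSet (e '' A) := by
  have h2 : Measurable (e.target.domRestrict e.symm) :=
    (continuousOn_iff_continuous_domRestrict.mp e.continuousOn_symm).measurable
  have h3 := (e.open_target.measurableSet).subtype_image (h2 hA)
  convert h3 using 1
  rw [e.image_eq_target_inter_inv_preimage hs]
  ext y
  constructor
  · rintro ⟨hy, hy2⟩
    exact ⟨⟨y, hy⟩, hy2, rfl⟩
  · rintro ⟨⟨y', hy'⟩, h, rfl⟩
    exact ⟨hy', h⟩

theorem measurableEmbedding_oph {X Y : Type} [TopologicalSpace X] [MeasurableSpace X]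
    [BorelSpace X] [TopologicalSpace Y] [MeasurableSpace Y] [BorelSpace Y]
    (e : OpenPartialHomeomorph X Y) {B : Set Y} (hB : MeasurableSet B) (hs : B ⊆ e.target) :
    MeasurableEmbedding (B.domRestrict e.symm) where
  injective := by
    intro x y hxy
    exact Subtype.ext (e.symm.injOn (hs x.2) (hs y.2) hxy)
  measurable :=
    (continuousOn_iff_continuous_domRestrict.mp (e.continuousOn_symm.mono hs)).measurable
  measurableSet_image' := by
    intro s hs'
    have h1 : MeasurableSet (Subtype.val '' s) := hB.subtype_image hs'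
    have h2 : (Subtype.val '' s) ⊆ e.symm.source := by
      rintro _ ⟨y, _, rfl⟩
      exact hs y.2
    have h3 := measurableSet_image_oph e.symm h1 h2
    convert h3 using 1
    rw [← Set.image_comp]
    rfl

namespace CSurf

variable {M ι : Type} [TopologicalSpace M] [MeasurableSpace M] [BorelSpace M] {S : CSurf M ι}

/-- `ν` has the density `det φ_{i \bar j}` in every chart. -/
def IsVolF (S : CSurf M ι) (φ : ι → C2 → ℝ) (ν : Measure M) : Prop :=
  ∀ i, ∀ A : Set M, MeasurableSet A → A ⊆ (S.ch i).source →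
    ν A = ∫⁻ z in S.ch i '' A, ENNReal.ofReal (dt (φ i) z)

omit [MeasurableSpace M] [BorelSpace M] in
theorem dt_tr {φ : ι → C2 → ℝ} (hφ : S.IsKah φ) {i j : ι} {z : C2} (hz : z ∈ S.ovl i j) :
    dt (φ i) z = ‖(Jm (S.tr i j) z).det‖ ^ 2 * dt (φ j) (S.tr i j z) := by
  unfold dt
  rw [hφ.compat i j z hz, Matrix.det_mul, Matrix.det_mul, Matrix.det_transpose]
  have h : ((Jm (S.tr i j) z).map (starRingEnd ℂ)).det = conj (Jm (S.tr i j) z).det := by
    have := RingHom.map_det (starRingEnd ℂ) (Jm (S.tr i j) z)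
    rw [this]
    rfl
  rw [h]
  set d := (Jm (S.tr i j) z).det
  set h := (cHess (φ j) (S.tr i j z)).det
  have : d * h * conj d = ((‖d‖ ^ 2 : ℝ) : ℂ) * h := by
    rw [mul_right_comm, Complex.mul_conj, Complex.normSq_eq_norm_sq]
  rw [this, Complex.re_ofReal_mul]

/-- change of charts in the integral of the density -/
theorem lint_chg {φ : ι → C2 → ℝ} (hφ : S.IsKah φ) (i j : ι) {A : Set M}
    (hA : MeasurableSet A) (hi : A ⊆ (S.ch i).source) (hj : A ⊆ (S.ch j).source) :
    ∫⁻ z in S.ch j '' A, ENNReal.ofReal (dt (φ j) z)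
      = ∫⁻ z in S.ch i '' A, ENNReal.ofReal (dt (φ i) z) := by
  have himg : S.ch j '' A = (S.tr i j) '' (S.ch i '' A) := by
    rw [← Set.image_comp]
    apply Set.image_congr
    intro x hx
    simp only [Function.comp, CSurf.tr]
    rw [(S.ch i).left_inv (hi hx)]
  have hsub : S.ch i '' A ⊆ S.ovl i j := by
    rintro _ ⟨x, hx, rfl⟩
    refine ⟨(S.ch i).map_source (hi hx), ?_⟩
    simp only [Set.mem_preimage]
    rw [(S.ch i).left_inv (hi hx)]
    exact hj hx
  have hopen := S.isOpen_ovl i j
  have hdiff : ∀ z ∈ S.ovl i j, DifferentiableAt ℂ (S.tr i j) z := by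
    intro z hz
    exact ((S.contDiffOn_tr i j).contDiffAt (hopen.mem_nhds hz)).differentiableAt (by simp)
  have hmeas := measurableSet_image_oph (S.ch i) hA hi
  rw [himg, lintegral_image_eq_lintegral_abs_det_fderiv_mul volume hmeas
    (f' := fun z => fderiv ℝ (S.tr i j) z)]
  · apply setLIntegral_congr_fun hmeas
    intro z hz
    simp only
    rw [abs_det_fderiv_holo (hdiff z (hsub hz)), dt_tr hφ (hsub hz),
      ENNReal.ofReal_mul (by positivity)]
  · intro z hz
    exact ((hdiff z (hsub hz)).restrictScalars ℝ).hasFDerivAt.hasFDerivWithinAt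
  · rintro _ ⟨x, hx, rfl⟩ _ ⟨y, hy, rfl⟩ h
    simp only [CSurf.tr] at h
    rw [(S.ch i).left_inv (hi hx), (S.ch i).left_inv (hi hy)] at h
    rw [(S.ch j).injOn (hj hx) (hj hy) h]

omit [MeasurableSpace M] [BorelSpace M] in
theorem aemeasurable_dt {φ : ι → C2 → ℝ} (hφ : S.IsKah φ) (i : ι) {B : Set C2}
    (hB : B ⊆ (S.ch i).target) :
    AEMeasurable (fun z => dt (φ i) z) (volume.restrict B) := by
  have h1 : ContinuousOn (fun z => dt (φ i) z) (S.ch i).target :=
    (contDiffOn_dt (S.ch i).open_target (hφ.smooth i)).continuousOn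
  exact (h1.aemeasurable (S.ch i).open_target.measurableSet).mono_measure
    (Measure.restrict_mono hB le_rfl)

theorem exists_volF [Fintype ι] {φ : ι → C2 → ℝ} (hφ : S.IsKah φ) : ∃ ν, S.IsVolF φ ν := by
  classical
  let en := Fintype.equivFin ι
  let D : ι → Set M := fun i => (S.ch i).source \ ⋃ j ∈ {j : ι | en j < en i}, (S.ch j).source
  have hDm : ∀ i, MeasurableSet (D i) := by
    intro i
    apply (S.ch i).open_source.measurableSet.diff
    apply MeasurableSet.biUnion (Set.to_countable _)
    intro j _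
    exact (S.ch j).open_source.measurableSet
  have hDs : ∀ i, D i ⊆ (S.ch i).source := fun i => Set.sdiff_subset
  have hDdisj : Pairwise (fun i j => Disjoint (D i) (D j)) := by
    intro i j hij
    rw [Set.disjoint_left]
    intro x hxi hxj
    rcases lt_trichotomy (en i) (en j) with h | h | h
    · exact hxj.2 (Set.mem_biUnion h hxi.1)
    · exact hij (en.injective h)
    · exact hxi.2 (Set.mem_biUnion h hxj.1)
  have hDcov : ∀ x : M, ∃ i, x ∈ D i := by
    intro x
    have hne : (Finset.univ.filter fun i => x ∈ (S.ch i).source).Nonempty := by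
      obtain ⟨i, hi⟩ := S.cover x
      exact ⟨i, by simp [hi]⟩
    obtain ⟨i, hi, hmin⟩ := Finset.exists_min_image _ (fun i => en i) hne
    refine ⟨i, (Finset.mem_filter.mp hi).2, ?_⟩
    intro hx
    simp only [Set.mem_iUnion, Set.mem_ofPred_eq] at hx
    obtain ⟨j, hj, hxj⟩ := hx
    exact absurd (hmin j (by simp [hxj])) (not_le.mpr hj)
  -- the pieces
  let μ : ι → Measure M := fun i =>
    (Measure.map ((S.ch i).target.domRestrict (S.ch i).symm)
      (Measure.comap Subtype.val (volume.withDensity fun z => ENNReal.ofReal (dt (φ i) z)))).restrict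
      (D i)
  have hμ : ∀ i A, MeasurableSet A → μ i A
      = ∫⁻ z in S.ch i '' (A ∩ D i), ENNReal.ofReal (dt (φ i) z) := by
    intro i A hA
    have he := measurableEmbedding_oph (S.ch i) (S.ch i).open_target.measurableSet
      (subset_refl _)
    have hset : (Subtype.val '' (((S.ch i).target.domRestrict (S.ch i).symm) ⁻¹' (A ∩ D i)))
        = S.ch i '' (A ∩ D i) := by
      rw [(S.ch i).image_eq_target_inter_inv_preimage
        (fun x hx => hDs i hx.2)]
      ext y
      constructor
      · rintro ⟨⟨y', hy'⟩, h, rfl⟩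
        exact ⟨hy', h⟩
      · rintro ⟨hy, hy2⟩
        exact ⟨⟨y, hy⟩, hy2, rfl⟩
    simp only [μ]
    rw [Measure.restrict_apply hA, he.map_apply,
      (MeasurableEmbedding.subtype_coe (S.ch i).open_target.measurableSet).comap_apply,
      hset, withDensity_apply]
    exact measurableSet_image_oph (S.ch i) (hA.inter (hDm i)) (fun x hx => hDs i hx.2)
  refine ⟨Measure.sum μ, ?_⟩
  intro i A hA hAi
  rw [Measure.sum_apply _ hA]
  have h1 : ∀ j, μ j A = ∫⁻ z in S.ch i '' (A ∩ D j), ENNReal.ofReal (dt (φ i) z) := by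
    intro j
    rw [hμ j A hA]
    exact lint_chg hφ i j (hA.inter (hDm j)) (fun x hx => hAi hx.1) (fun x hx => hDs j hx.2)
  simp_rw [h1]
  rw [← lintegral_iUnion]
  · rw [← Set.image_iUnion, ← Set.inter_iUnion]
    have : (⋃ j, D j) = Set.univ := by
      ext x; simp only [Set.mem_iUnion, Set.mem_univ, iff_true]; exact hDcov x
    rw [this, Set.inter_univ]
  · intro j
    exact measurableSet_image_oph (S.ch i) (hA.inter (hDm j)) (fun x hx => hAi hx.1)
  · intro j k hjk
    have := hDdisj hjk
    rw [Function.onFun, Set.disjoint_left]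
    rintro _ ⟨x, hx, rfl⟩ ⟨y, hy, hxy⟩
    have := (S.ch i).injOn (hAi hy.1) (hAi hx.1) hxy
    subst this
    exact Set.disjoint_left.mp (hDdisj hjk) hx.2 hy.2

/-- the measure over the image of a measurable subset of a chart target -/
theorem IsVolF.restrict_eq {φ : ι → C2 → ℝ} {ν : Measure M}
    (hν : S.IsVolF φ ν) (i : ι)
    {B : Set C2} (hB : MeasurableSet B) (hBt : B ⊆ (S.ch i).target) :
    ν.restrict ((S.ch i).symm '' B) = Measure.map (B.domRestrict (S.ch i).symm)
      (Measure.comap Subtype.val (volume.withDensity fun z =>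
        (((dt (φ i) z).toNNReal : NNReal) : ENNReal))) := by
  have he := measurableEmbedding_oph (S.ch i) hB hBt
  ext A hA
  have hset : (Subtype.val '' ((B.domRestrict (S.ch i).symm) ⁻¹' A))
      = S.ch i '' (A ∩ (S.ch i).symm '' B) := by
    ext y
    constructor
    · rintro ⟨⟨y', hy'⟩, h, rfl⟩
      exact ⟨(S.ch i).symm y', ⟨h, ⟨y', hy', rfl⟩⟩, (S.ch i).right_inv (hBt hy')⟩
    · rintro ⟨x, ⟨hx, ⟨y', hy', rfl⟩⟩, rfl⟩
      rw [(S.ch i).right_inv (hBt hy')]
      exact ⟨⟨y', hy'⟩, hx, rfl⟩
  have hsub : (S.ch i).symm '' B ⊆ (S.ch i).source := by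
    rintro _ ⟨y, hy, rfl⟩
    exact (S.ch i).map_target (hBt hy)
  have hmeas : MeasurableSet ((S.ch i).symm '' B) :=
    measurableSet_image_oph (S.ch i).symm hB hBt
  rw [Measure.restrict_apply hA, he.map_apply,
    (MeasurableEmbedding.subtype_coe hB).comap_apply, hset, withDensity_apply]
  · exact hν i _ (hA.inter hmeas) (fun x hx => hsub hx.2)
  · exact measurableSet_image_oph (S.ch i) (hA.inter hmeas) (fun x hx => hsub hx.2)

/-- the same over a smaller measurable set of the chart -/
theorem IsVolF.integral_subset {φ : ι → C2 → ℝ} {ν : Measure M} (hφ : S.IsKah φ)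
    (hν : S.IsVolF φ ν) {G : Type} [NormedAddCommGroup G] [NormedSpace ℝ G] (i : ι) (f : M → G)
    {B : Set C2} (hB : MeasurableSet B) (hBt : B ⊆ (S.ch i).target) :
    ∫ x in (S.ch i).symm '' B, f x ∂ν = ∫ z in B, dt (φ i) z • f ((S.ch i).symm z) := by
  have he := measurableEmbedding_oph (S.ch i) hB hBt
  rw [hν.restrict_eq i hB hBt, he.integral_map]
  simp only [Set.domRestrict_apply]
  rw [← (MeasurableEmbedding.subtype_coe hB).integral_map
    (g := fun z => f ((S.ch i).symm z)), map_comap_subtype_coe hB,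
    setIntegral_withDensity_eq_setIntegral_smul₀ _ _ hB]
  · apply setIntegral_congr_fun hB
    intro z hz
    simp only
    rw [NNReal.smul_def, Real.coe_toNNReal _ (hφ.dt_pos i (hBt hz)).le]
  · exact (aemeasurable_dt hφ i hBt).real_toNNReal

/-- integrals over a chart domain -/
theorem IsVolF.integral {φ : ι → C2 → ℝ} {ν : Measure M} (hφ : S.IsKah φ) (hν : S.IsVolF φ ν)
    {G : Type} [NormedAddCommGroup G] [NormedSpace ℝ G] (i : ι) (f : M → G) :
    ∫ x in (S.ch i).source, f x ∂ν
      = ∫ z in (S.ch i).target, dt (φ i) z • f ((S.ch i).symm z) := by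
  have h := hν.integral_subset hφ i f (S.ch i).open_target.measurableSet (subset_refl _)
  rw [← h, (S.ch i).symm_image_target_eq_source]

theorem IsVolF.integrableOn_subset_iff {φ : ι → C2 → ℝ} {ν : Measure M} (hφ : S.IsKah φ)
    (hν : S.IsVolF φ ν) {G : Type} [NormedAddCommGroup G] [NormedSpace ℝ G] (i : ι) (f : M → G)
    {B : Set C2} (hB : MeasurableSet B) (hBt : B ⊆ (S.ch i).target) :
    IntegrableOn f ((S.ch i).symm '' B) ν
      ↔ IntegrableOn (fun z => dt (φ i) z • f ((S.ch i).symm z)) B := by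
  have he := measurableEmbedding_oph (S.ch i) hB hBt
  rw [IntegrableOn, hν.restrict_eq i hB hBt, he.integrable_map_iff]
  have h1 : (f ∘ B.domRestrict (S.ch i).symm) = (fun z => f ((S.ch i).symm z)) ∘ Subtype.val := rfl
  rw [h1, ← (MeasurableEmbedding.subtype_coe hB).integrable_map_iff, map_comap_subtype_coe hB,
    restrict_withDensity hB, integrable_withDensity_iff_integrable_coe_smul₀
      (aemeasurable_dt hφ i hBt).real_toNNReal, IntegrableOn]
  apply integrable_congr
  filter_upwards [ae_restrict_mem hB] with z hz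
  rw [Real.coe_toNNReal _ (hφ.dt_pos i (hBt hz)).le]

theorem IsVolF.integrableOn_iff {φ : ι → C2 → ℝ} {ν : Measure M} (hφ : S.IsKah φ)
    (hν : S.IsVolF φ ν) {G : Type} [NormedAddCommGroup G] [NormedSpace ℝ G] (i : ι) (f : M → G) :
    IntegrableOn f (S.ch i).source ν
      ↔ IntegrableOn (fun z => dt (φ i) z • f ((S.ch i).symm z)) (S.ch i).target := by
  rw [← hν.integrableOn_subset_iff hφ i f (S.ch i).open_target.measurableSet (subset_refl _),
    (S.ch i).symm_image_target_eq_source]

/-- a measurable set of a chart has the expected measure -/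
theorem IsVolF.symm_image {φ : ι → C2 → ℝ} {ν : Measure M}
    (hν : S.IsVolF φ ν) (i : ι) {B : Set C2} (hB : MeasurableSet B)
    (hBt : B ⊆ (S.ch i).target) :
    ν ((S.ch i).symm '' B) = ∫⁻ z in B, ENNReal.ofReal (dt (φ i) z) := by
  rw [hν i _ (measurableSet_image_oph (S.ch i).symm hB hBt)]
  · congr 2
    rw [← Set.image_comp]
    have : ∀ z ∈ B, (S.ch i ∘ (S.ch i).symm) z = z := fun z hz => (S.ch i).right_inv (hBt hz)
    rw [Set.image_congr this, Set.image_id']
  · rintro _ ⟨y, hy, rfl⟩
    exact (S.ch i).map_target (hBt hy)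

theorem IsVolF.finite [Fintype ι] [CompactSpace M] [T2Space M] {φ : ι → C2 → ℝ} {ν : Measure M}
    (hφ : S.IsKah φ) (hν : S.IsVolF φ ν) : IsFiniteMeasure ν := by
  obtain ⟨K, hK, hKt, hcov⟩ := exists_compact_cover S
  constructor
  have h1 : (Set.univ : Set M) ⊆ ⋃ i, (S.ch i).symm '' (K i) := by
    intro x _
    obtain ⟨i, hx, hxK⟩ := hcov x
    exact Set.mem_iUnion.mpr ⟨i, ⟨_, hxK, (S.ch i).left_inv hx⟩⟩
  refine lt_of_le_of_lt (measure_mono h1) ?_
  refine lt_of_le_of_lt (measure_iUnion_fintype_le _ _) ?_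
  rw [ENNReal.sum_lt_top]
  intro i _
  rw [hν.symm_image i (hK i).measurableSet (hKt i)]
  have hcont : ContinuousOn (fun z => dt (φ i) z) (K i) :=
    (contDiffOn_dt (S.ch i).open_target (hφ.smooth i)).continuousOn.mono (hKt i)
  have hint : IntegrableOn (fun z => dt (φ i) z) (K i) := hcont.integrableOn_compact (hK i)
  exact hint.lintegral_lt_top

/-- nonempty open sets have positive measure -/
theorem IsVolF.pos {φ : ι → C2 → ℝ} {ν : Measure M} (hφ : S.IsKah φ) (hν : S.IsVolF φ ν)
    {U : Set M} (hU : IsOpen U) (hne : U.Nonempty) : 0 < ν U := by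
  obtain ⟨x, hx⟩ := hne
  obtain ⟨i, hi⟩ := S.cover x
  let V : Set M := U ∩ (S.ch i).source
  have hV : IsOpen V := hU.inter (S.ch i).open_source
  have hle : ν V ≤ ν U := measure_mono Set.inter_subset_left
  refine lt_of_lt_of_le ?_ hle
  rw [hν i V hV.measurableSet Set.inter_subset_right, pos_iff_ne_zero]
  intro h0
  have hmeas := measurableSet_image_oph (S.ch i) hV.measurableSet Set.inter_subset_right
  have hsub : S.ch i '' V ⊆ (S.ch i).target := by
    rintro _ ⟨y, hy, rfl⟩
    exact (S.ch i).map_source hy.2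
  rw [lintegral_eq_zero_iff' (aemeasurable_dt hφ i hsub).ennreal_ofReal] at h0
  have h2 : ∀ᵐ z ∂(volume.restrict (S.ch i '' V)), False := by
    filter_upwards [h0, ae_restrict_mem hmeas] with z hz hz2
    simp only [Pi.zero_apply, ENNReal.ofReal_eq_zero] at hz
    exact absurd (hφ.dt_pos i (hsub hz2)) (not_lt.mpr hz)
  rw [Filter.eventually_false_iff_eq_bot, ae_eq_bot, Measure.restrict_eq_zero] at h2
  have hopen : IsOpen (S.ch i '' V) := (S.ch i).isOpen_image_of_subset_source hV
    Set.inter_subset_right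
  have hne2 : (S.ch i '' V).Nonempty := ⟨_, ⟨x, ⟨hx, hi⟩, rfl⟩⟩
  exact (hopen.measure_pos volume hne2).ne' h2

/-- a set which is Lebesgue null in every chart is null -/
theorem IsVolF.null [Finite ι] {φ : ι → C2 → ℝ} {ν : Measure M} (hφ : S.IsKah φ)
    (hν : S.IsVolF φ ν) {N : Set M}
    (h : ∀ i, volume ((S.ch i).target ∩ (S.ch i).symm ⁻¹' N) = 0) : ν N = 0 := by
  have h1 : N ⊆ ⋃ i, (N ∩ (S.ch i).source) := by
    intro x hx
    obtain ⟨i, hi⟩ := S.cover x
    exact Set.mem_iUnion.mpr ⟨i, hx, hi⟩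
  refine measure_mono_null h1 ?_
  rw [measure_iUnion_null_iff]
  intro i
  -- a measurable null superset inside the target
  let T : Set C2 := toMeasurable volume ((S.ch i).target ∩ (S.ch i).symm ⁻¹' N)
    ∩ (S.ch i).target
  have hT : MeasurableSet T :=
    (measurableSet_toMeasurable _ _).inter (S.ch i).open_target.measurableSet
  have hT0 : volume T = 0 := by
    refine measure_mono_null Set.inter_subset_left ?_
    rw [measure_toMeasurable, h i]
  have hsub : N ∩ (S.ch i).source ⊆ (S.ch i).symm '' T := by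
    rintro x ⟨hx, hxs⟩
    refine ⟨S.ch i x, ⟨subset_toMeasurable _ _ ⟨(S.ch i).map_source hxs, ?_⟩,
      (S.ch i).map_source hxs⟩, (S.ch i).left_inv hxs⟩
    simp only [Set.mem_preimage]
    rw [(S.ch i).left_inv hxs]
    exact hx
  refine measure_mono_null hsub ?_
  rw [hν.symm_image i hT Set.inter_subset_right, setLIntegral_measure_zero _ _ hT0]

end CSurf

end

end Pool.Agent.KS
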