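import Pool.Agent.KS.FSec1
import Pool.Agent.KS.SVol
import Pool.Agent.KS.FSec2Aux
import Pool.Agent.KS.FSec3Aux

/-!
# Explicit sections on `FM` (module FSEC)
-/

namespace Pool.Agent.KS

open MeasureTheory Complex Topology
open scoped ContDiff Matrix ComplexOrder ComplexConjugate Manifold

noncomputable section

/-- linear independence on the surface, in the chart domains of index `(0, b, true)` -/
theorem msec_linIndep (m c k : ℕ) (T : (Fin 3 → ℕ) → ℂ)
    (h0 : ∀ b : Fin 10, ∀ z ∈ tg (0, b, true),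
      ∑ α ∈ Mon m c k, T α * msec m c k α (0, b, true) z = 0) : ∀ α ∈ Mon m c k, T α = 0 := by
  classical
  -- the condition on the base
  have step1 : ∀ (b : Fin 10) (x : ℂ), -(1 + x ^ 5) / zt b ^ 5 ∈ slitPlane → ∀ n : ℕ,
      ∑ α ∈ (Mon m c k).filter (fun α => mdg α - k * m = n),
        T α * (x ^ α 0 * rt b x ^ α 1) = 0 := by
    intro b x hx n
    refine sum_pow_split (Mon m c k) (fun α => mdg α - k * m)
      (fun α => T α * (x ^ α 0 * rt b x ^ α 1)) Set.univ Set.infinite_univ ?_ n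
    intro l _
    have hz : (![x, l] : C2) ∈ tg (0, b, true) := by
      show -(1 + (![x, l] : C2) 0 ^ 5) / zt b ^ 5 ∈ slitPlane
      simpa using hx
    have := h0 b _ hz
    rw [← this]
    refine Finset.sum_congr rfl fun α _ => ?_
    unfold msec PV PX
    simp
    ring
  -- split by the exponent of the root
  have step2 : ∀ x : ℂ, -(1 + x ^ 5) ∈ slitPlane → ∀ n e : ℕ,
      ∑ α ∈ ((Mon m c k).filter (fun α => mdg α - k * m = n)).filter (fun α => α 1 = e),
        T α * x ^ α 0 = 0 := by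
    intro x hx n e
    set w : ℂ := (-(1 + x ^ 5)) ^ ((1 : ℂ) / 5) with hw
    have hw0 : w ≠ 0 := by
      rw [hw, Ne, Complex.cpow_eq_zero_iff]
      intro h
      exact slitPlane_ne_zero hx h.1
    refine sum_pow_split_fin _ (fun α => α 1) (fun α => T α * x ^ α 0) 5 ?_
      (Finset.univ.image fun b : Fin 5 => zt ⟨2 * b, by omega⟩ * w) ?_ ?_ e
    · intro α hα
      have := (Finset.mem_filter.1 (Finset.mem_filter.1 hα).1).2
      exact this.1
    · rw [Finset.card_image_of_injective]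
      · simp
      · intro b b' hb
        exact zt_even_inj b b' (mul_right_cancel₀ hw0 hb)
    · intro l hl
      rw [Finset.mem_image] at hl
      obtain ⟨b, _, rfl⟩ := hl
      have hr : rt ⟨2 * b, by omega⟩ x = zt ⟨2 * b, by omega⟩ * w := by
        unfold rt
        rw [zt_even_pow, div_one]
      have := step1 ⟨2 * b, by omega⟩ x (by rw [zt_even_pow, div_one]; exact hx) n
      rw [← this]
      refine Finset.sum_congr rfl fun α _ => ?_
      rw [hr]; ring
  intro α hα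
  have step3 := sum_pow_split
    (((Mon m c k).filter (fun β => mdg β - k * m = mdg α - k * m)).filter (fun β => β 1 = α 1))
    (fun β => β 0) T (Set.range fun n : ℕ => (-((n : ℂ) + 2))) ?_ ?_ (α 0)
  · have hsing : ((((Mon m c k).filter (fun β => mdg β - k * m = mdg α - k * m)).filter
        (fun β => β 1 = α 1)).filter (fun β => β 0 = α 0)) = {α} := by
      ext β
      simp only [Finset.mem_filter, Finset.mem_singleton]
      constructor
      · rintro ⟨⟨⟨h1, h2⟩, h3⟩, h4⟩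
        have q1 := (Finset.mem_filter.1 h1).2
        have q2 := (Finset.mem_filter.1 hα).2
        unfold mdg at h2
        funext i
        fin_cases i
        · exact h4
        · exact h3
        · show β 2 = α 2
          omega
      · rintro rfl
        exact ⟨⟨⟨hα, rfl⟩, rfl⟩, rfl⟩
    rw [hsing, Finset.sum_singleton] at step3
    exact step3
  · apply Set.infinite_range_of_injective
    intro a b hab
    have h1 : (-((a : ℂ) + 2)) = (-((b : ℂ) + 2)) := hab
    have h2 : (a : ℂ) = b := by linear_combination -h1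
    exact_mod_cast h2
  · rintro l ⟨n, rfl⟩
    refine step2 _ ?_ _ _
    have : (-(1 + (-((n : ℂ) + 2)) ^ 5)) = (((((n : ℝ) + 2) ^ 5 - 1 : ℝ)) : ℂ) := by
      push_cast; ring
    rw [this, Complex.ofReal_mem_slitPlane]
    have h1 : (1 : ℝ) < (n : ℝ) + 2 := by have := Nat.cast_nonneg (α := ℝ) n; linarith
    have h2 : (1 : ℝ) < ((n : ℝ) + 2) ^ 5 := one_lt_pow₀ h1 (by norm_num)
    linarith

theorem n1_pos_FSec {X : Fin 3 → ℂ} (hX : X ∈ Xc) : 0 < n1 X := by
  have h0 : 0 ≤ n1 X := by unfold n1; positivity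
  rcases h0.lt_or_eq with h | h
  · exact h
  · exfalso
    have h1 : ‖X 0‖ ^ 2 = 0 ∧ ‖X 2‖ ^ 2 = 0 := by
      unfold n1 at h
      constructor <;> nlinarith [sq_nonneg ‖X 0‖, sq_nonneg ‖X 2‖]
    have e0 : X 0 = 0 := by simpa using h1.1
    have e2 : X 2 = 0 := by simpa using h1.2
    have e1 : X 1 = 0 := by
      have := hX.2
      rw [e0, e2] at this
      simpa using this
    apply hX.1
    funext i
    fin_cases i
    · exact e0
    · exact e1
    · exact e2

theorem X1_bound {X : Fin 3 → ℂ} (hX : X ∈ Xc) : ‖X 1‖ ^ 2 ≤ 2 * n1 X := by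
  have h1 : X 1 ^ 5 = -(X 0 ^ 5 + X 2 ^ 5) := by
    have := hX.2
    linear_combination this
  have h2 : ‖X 1‖ ^ 5 ≤ ‖X 0‖ ^ 5 + ‖X 2‖ ^ 5 := by
    rw [← norm_pow, h1, norm_neg, ← norm_pow, ← norm_pow]
    exact norm_add_le _ _
  have hx := norm_nonneg (X 0)
  have hy := norm_nonneg (X 2)
  have h3 : ‖X 0‖ ^ 5 + ‖X 2‖ ^ 5 ≤ (‖X 0‖ + ‖X 2‖) ^ 5 := by
    have e : (‖X 0‖ + ‖X 2‖) ^ 5 = ‖X 0‖ ^ 5 + ‖X 2‖ ^ 5 + (5 * ‖X 0‖ ^ 4 * ‖X 2‖ +
      10 * ‖X 0‖ ^ 3 * ‖X 2‖ ^ 2 + 10 * ‖X 0‖ ^ 2 * ‖X 2‖ ^ 3 + 5 * ‖X 0‖ * ‖X 2‖ ^ 4) := by ring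
    rw [e]
    have : 0 ≤ 5 * ‖X 0‖ ^ 4 * ‖X 2‖ +
      10 * ‖X 0‖ ^ 3 * ‖X 2‖ ^ 2 + 10 * ‖X 0‖ ^ 2 * ‖X 2‖ ^ 3 + 5 * ‖X 0‖ * ‖X 2‖ ^ 4 := by
      positivity
    linarith
  have h4 : ‖X 1‖ ≤ ‖X 0‖ + ‖X 2‖ :=
    le_of_pow_le_pow_left₀ (n := 5) (by norm_num) (by positivity) (h2.trans h3)
  have h5 : ‖X 1‖ ^ 2 ≤ (‖X 0‖ + ‖X 2‖) ^ 2 := pow_le_pow_left₀ (norm_nonneg _) h4 2
  unfold n1
  nlinarith [sq_nonneg (‖X 0‖ - ‖X 2‖)]

theorem msec_bound (m c k : ℕ) {α : Fin 3 → ℕ} (hα : α ∈ Mon m c k) (t : ℝ) (κ : Idx) {z : C2}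
    (hz : z ∈ tg κ) :
    Real.exp (t * ((mdg α : ℝ) - k * m)) * ‖msec m c k α κ z‖ ^ 2
      ≤ 16 * Real.exp (k * Psi m c t κ z) := by
  have hX := PX_mem κ hz
  have hV := PV_ne κ z
  have hn1 := n1_pos hX
  have hX1 := X1_bound hX
  set X := PX κ z with hXd
  set a := (PV κ z).1 with ha
  set b := (PV κ z).2 with hb
  obtain ⟨_, hα1, hlo, hhi⟩ : α ∈ Mon m c k ∧ α 1 < 5 ∧ k * m ≤ α 0 + α 1 + α 2 ∧
      α 0 + α 1 + α 2 ≤ k * (m + c) := ⟨hα, (Finset.mem_filter.1 hα).2⟩
  set A : ℝ := ‖a‖ ^ 2 + Real.exp t * ‖b‖ ^ 2 * n1 X with hA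
  have het := Real.exp_pos t
  have hApos : 0 < A := by
    have h1 : a ≠ 0 ∨ b ≠ 0 := by
      by_contra hcon
      simp only [not_or, not_not] at hcon
      exact hV (Prod.ext hcon.1 hcon.2)
    rcases h1 with h1 | h1
    · have := norm_pos_iff.2 h1
      positivity
    · have := norm_pos_iff.2 h1
      positivity
  obtain ⟨p, hp⟩ : ∃ p, mdg α = k * m + p := Nat.exists_eq_add_of_le hlo
  obtain ⟨q, hq⟩ : ∃ q, k * (m + c) = mdg α + q := Nat.exists_eq_add_of_le hhi
  have hpq : p + q = k * c := by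
    have : k * (m + c) = k * m + k * c := by ring
    omega
  have hexp : Real.exp (k * Psi m c t κ z) = n1 X ^ (k * m) * A ^ (p + q) := by
    unfold Psi
    rw [← hXd, ← ha, ← hb, ← hA, mul_add, Real.exp_add]
    rw [show (k : ℝ) * ((m : ℝ) * Real.log (n1 X)) = ((k * m : ℕ) : ℝ) * Real.log (n1 X) by
      push_cast; ring]
    rw [show (k : ℝ) * ((c : ℝ) * Real.log A) = ((p + q : ℕ) : ℝ) * Real.log A by
      rw [hpq]; push_cast; ring]
    rw [Real.exp_nat_mul, Real.exp_nat_mul, Real.exp_log hn1, Real.exp_log hApos]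
  have hw : t * ((mdg α : ℝ) - k * m) = (p : ℝ) * t := by
    rw [hp]; push_cast; ring
  rw [hw, Real.exp_nat_mul, hexp]
  have hms : ‖msec m c k α κ z‖ ^ 2 = (‖b‖ ^ 2) ^ p * (‖a‖ ^ 2) ^ q *
      ((‖X 0‖ ^ 2) ^ α 0 * (‖X 1‖ ^ 2) ^ α 1 * (‖X 2‖ ^ 2) ^ α 2) := by
    unfold msec
    rw [← ha, ← hb, ← hXd]
    have e1 : mdg α - k * m = p := by omega
    have e2 : k * (m + c) - mdg α = q := by omega
    rw [e1, e2]
    simp only [norm_mul, norm_pow]
    ring
  rw [hms]
  have hX0 : ‖X 0‖ ^ 2 ≤ n1 X := by unfold n1; nlinarith [sq_nonneg ‖X 2‖]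
  have hX2 : ‖X 2‖ ^ 2 ≤ n1 X := by unfold n1; nlinarith [sq_nonneg ‖X 0‖]
  have h1 : (‖X 0‖ ^ 2) ^ α 0 * (‖X 1‖ ^ 2) ^ α 1 * (‖X 2‖ ^ 2) ^ α 2 ≤
      16 * n1 X ^ (k * m + p) := by
    calc (‖X 0‖ ^ 2) ^ α 0 * (‖X 1‖ ^ 2) ^ α 1 * (‖X 2‖ ^ 2) ^ α 2
        ≤ n1 X ^ α 0 * (2 * n1 X) ^ α 1 * n1 X ^ α 2 := by gcongr
      _ = 2 ^ α 1 * n1 X ^ (α 0 + α 1 + α 2) := by rw [mul_pow]; ring
      _ ≤ 16 * n1 X ^ (α 0 + α 1 + α 2) := by
          have : (2 : ℝ) ^ α 1 ≤ 2 ^ 4 := pow_le_pow_right₀ (by norm_num) (by omega)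
          have h16 : (2 : ℝ) ^ 4 = 16 := by norm_num
          rw [h16] at this
          gcongr
      _ = 16 * n1 X ^ (k * m + p) := by
          rw [← hp]; rfl
  have h2 : Real.exp t ^ p * (‖b‖ ^ 2) ^ p * n1 X ^ p ≤ A ^ p := by
    rw [← mul_pow, ← mul_pow]
    apply pow_le_pow_left₀ (by positivity)
    rw [hA]
    nlinarith [sq_nonneg ‖a‖]
  have h3 : (‖a‖ ^ 2) ^ q ≤ A ^ q := by
    apply pow_le_pow_left₀ (by positivity)
    rw [hA]
    have : 0 ≤ Real.exp t * ‖b‖ ^ 2 * n1 X := by positivity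
    linarith
  calc Real.exp t ^ p * ((‖b‖ ^ 2) ^ p * (‖a‖ ^ 2) ^ q *
      ((‖X 0‖ ^ 2) ^ α 0 * (‖X 1‖ ^ 2) ^ α 1 * (‖X 2‖ ^ 2) ^ α 2))
      ≤ Real.exp t ^ p * ((‖b‖ ^ 2) ^ p * (‖a‖ ^ 2) ^ q * (16 * n1 X ^ (k * m + p))) := by
        gcongr
    _ = 16 * (n1 X ^ (k * m) * ((Real.exp t ^ p * (‖b‖ ^ 2) ^ p * n1 X ^ p) *
        (‖a‖ ^ 2) ^ q)) := by rw [pow_add]; ring
    _ ≤ 16 * (n1 X ^ (k * m) * (A ^ p * A ^ q)) := by gcongr
    _ = 16 * (n1 X ^ (k * m) * A ^ (p + q)) := by rw [pow_add]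

theorem msec_ne (m c k : ℕ) (κ : Idx) {z : C2} (hz : z ∈ tg κ) :
    ∃ α ∈ Mon m c k, msec m c k α κ z ≠ 0 := by
  have hX := PX_mem κ hz
  have hV := PV_ne κ z
  have hmemMon : ∀ (i : Fin 3) (j : ℕ), i ≠ 1 → k * m ≤ j → j ≤ k * (m + c) →
      (Pi.single i j : Fin 3 → ℕ) ∈ Mon m c k := by
    intro i j hi h1 h2
    have hs : (Pi.single i j : Fin 3 → ℕ) 0 + (Pi.single i j : Fin 3 → ℕ) 1
        + (Pi.single i j : Fin 3 → ℕ) 2 = j := by
      fin_cases i <;> simp [Pi.single_apply]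
    unfold Mon
    rw [Finset.mem_filter, Fintype.mem_piFinset]
    refine ⟨?_, ?_, by rw [hs]; exact h1, by rw [hs]; exact h2⟩
    · intro l
      rw [Finset.mem_range, Nat.lt_succ_iff]
      by_cases h : l = i
      · subst h; simpa using h2
      · simp [Pi.single_apply, h]
    · rw [Pi.single_apply, if_neg (Ne.symm hi)]; norm_num
  have hval : ∀ (i : Fin 3) (j : ℕ), PX κ z i ≠ 0 →
      ((PV κ z).2 ^ (j - k * m) * (PV κ z).1 ^ (k * (m + c) - j) ≠ 0) →
      msec m c k (Pi.single i j) κ z ≠ 0 := by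
    intro i j h1 h2
    have hs : mdg (Pi.single i j : Fin 3 → ℕ) = j := by
      unfold mdg
      fin_cases i <;> simp [Pi.single_apply]
    unfold msec
    rw [hs]
    refine mul_ne_zero h2 ?_
    have h3 : ∀ l : Fin 3, PX κ z l ^ ((Pi.single i j : Fin 3 → ℕ) l) ≠ 0 := by
      intro l
      by_cases h : l = i
      · subst h; exact pow_ne_zero _ h1
      · rw [Pi.single_apply, if_neg h, pow_zero]; exact one_ne_zero
    exact mul_ne_zero (mul_ne_zero (h3 0) (h3 1)) (h3 2)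
  obtain ⟨i, hi1, hiX⟩ : ∃ i : Fin 3, i ≠ 1 ∧ PX κ z i ≠ 0 := by
    by_contra hcon
    simp only [not_exists, not_and, not_not] at hcon
    have h0 := hcon 0 (by decide)
    have h2 := hcon 2 (by decide)
    have := n1_pos hX
    unfold n1 at this
    rw [h0, h2] at this
    simp at this
  have h1 : (PV κ z).1 ≠ 0 ∨ (PV κ z).2 ≠ 0 := by
    by_contra hcon
    simp only [not_or, not_not] at hcon
    exact hV (Prod.ext hcon.1 hcon.2)
  have hle : k * m ≤ k * (m + c) := Nat.mul_le_mul_left _ (Nat.le_add_right _ _)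
  rcases h1 with h1 | h1
  · refine ⟨Pi.single i (k * m), hmemMon i _ hi1 le_rfl hle, hval i _ hiX ?_⟩
    rw [Nat.sub_self, pow_zero, one_mul]
    exact pow_ne_zero _ h1
  · refine ⟨Pi.single i (k * (m + c)), hmemMon i _ hi1 hle le_rfl, hval i _ hiX ?_⟩
    rw [Nat.sub_self, pow_zero, mul_one]
    exact pow_ne_zero _ h1


theorem integrable_pr' {φ : Idx → C2 → ℝ} {ν : Measure FM} [IsFiniteMeasure ν] {k : ℕ} {α : Type}
    {s : α → Idx → C2 → ℂ} (hφ : SF.IsFrm φ) (hs : SF.IsSec φ k s) (a b : α) :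
    Integrable (SF.pr φ k s a b) ν := by
  have h1 : Continuous (SF.pr φ k s a b) := hs.continuous_pr hφ a b
  have h2 : IntegrableOn (SF.pr φ k s a b) Set.univ ν :=
    h1.continuousOn.integrableOn_compact isCompact_univ
  rwa [integrableOn_univ] at h2

/-- **Adapted orthonormal basis** (Gram-Schmidt on the monomials ordered by decreasing degree). -/
theorem exists_adapted {m c : ℕ} (hm : 0 < m) (hc : 0 < c) {h : FM → ℝ} (hh : SF.Sm h)
    (hφ : SF.IsKah (Phi0 m c + SF.fnF h)) {ν : Measure FM}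
    (hν : SF.IsVolF (Phi0 m c + SF.fnF h) ν) {k : ℕ} (hk : 4 ≤ k) :
    ∃ (N : ℕ) (s : Fin N → Idx → C2 → ℂ) (w : Fin N → ℝ),
      SF.IsSec (Phi0 m c + SF.fnF h) k s ∧ SF.Ortho (Phi0 m c + SF.fnF h) ν k s ∧
      (∀ x, 0 < SF.ws (Phi0 m c + SF.fnF h) k s (fun _ => 1) x) ∧
      (∀ a, 0 ≤ w a ∧ w a ≤ k * c) ∧
      (N : ℝ) = (Mon m c k).card ∧ ∑ a, w a = ∑ α ∈ Mon m c k, ((mdg α : ℝ) - k * m) ∧
      ∃ C : ℝ, 0 < C ∧ ∀ t : ℝ, 0 ≤ t → ∀ κ, ∀ z ∈ tg κ,
        ∑ a, Real.exp (t * w a) * ‖s a κ z‖ ^ 2 ≤ C * Real.exp (k * Psi m c t κ z) := by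
  classical
  have hsec := isSec_msec m c k hh
  set φ : Idx → C2 → ℝ := Phi0 m c + SF.fnF h with hφd
  obtain ⟨N, hN⟩ : ∃ N, N = (Mon m c k).card := ⟨_, rfl⟩
  obtain ⟨e, he⟩ := exists_enum (Mon m c k) mdg N hN
  set s0 : Fin N → Idx → C2 → ℂ := fun a => msec m c k (e a) with hs0d
  have hs0 : SF.IsSec φ k s0 :=
    ⟨fun a i => hsec.holo (e a) i, fun a b i j z hz => hsec.compat (e a) (e b) i j z hz⟩
  have hfin : IsFiniteMeasure ν := hν.finite hφ
  have hopen : ν.IsOpenPosMeasure :=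
    ⟨fun U hU hne => (hν.pos hφ hU hne).ne'⟩
  have hint : ∀ a b, Integrable (SF.pr φ k s0 a b) ν := fun a b =>
    integrable_pr' hφ.toIsFrm hs0 a b
  set G : Matrix (Fin N) (Fin N) ℂ := fun a b => ∫ x, SF.pr φ k s0 a b x ∂ν with hG
  have hlin : ∀ (β : Type) (T : β → Fin N → ℂ) (b b' : β),
      ∫ x, SF.pr φ k (fun b i z => ∑ a, T b a * s0 a i z) b b' x ∂ν
        = ∑ a, ∑ a', T b a * conj (T b' a') * G a a' := by
    intro β T b b'
    simp only [CSurf.IsSec.pr_lin]
    rw [integral_finsetSum _ (fun a _ => integrable_finsetSum _ fun a' _ =>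
      (hint a a').const_mul _)]
    refine Finset.sum_congr rfl fun a _ => ?_
    rw [integral_finsetSum _ (fun a' _ => (hint a a').const_mul _)]
    refine Finset.sum_congr rfl fun a' _ => ?_
    rw [integral_const_mul]
  have hherm : G.IsHermitian := by
    ext a b
    rw [Matrix.conjTranspose_apply]
    show star (G b a) = G a b
    simp only [hG]
    rw [RCLike.star_def, ← integral_conj]
    congr 1
    funext x
    unfold CSurf.pr
    simp only [map_mul, Complex.conj_conj, Complex.conj_ofReal]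
    ring
  have hpd : G.PosDef := by
    refine Matrix.PosDef.of_dotProduct_mulVec_pos hherm ?_
    intro v hv
    set T1 : Unit → Fin N → ℂ := fun _ a => conj (v a) with hT1
    set s1 : Unit → Idx → C2 → ℂ := fun b i z => ∑ a, T1 b a * s0 a i z with hs1
    have hs1s : SF.IsSec φ k s1 := hs0.lin T1
    have e1 : star v ⬝ᵥ (G *ᵥ v) = ∫ x, SF.pr φ k s1 () () x ∂ν := by
      rw [hs1, hlin Unit T1 () ()]
      unfold dotProduct Matrix.mulVec dotProduct
      refine Finset.sum_congr rfl fun a _ => ?_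
      rw [Finset.mul_sum]
      refine Finset.sum_congr rfl fun a' _ => ?_
      simp only [hT1, Complex.conj_conj, Pi.star_apply, RCLike.star_def]
      ring
    set F : FM → ℝ := fun x => ‖s1 () (SF.idx x) (SF.ch (SF.idx x) x)‖ ^ 2
      * Real.exp (-k * φ (SF.idx x) (SF.ch (SF.idx x) x)) with hF
    have e2 : ∀ x, SF.pr φ k s1 () () x = ((F x : ℝ) : ℂ) := by
      intro x
      unfold CSurf.pr
      rw [Complex.mul_conj, Complex.normSq_eq_norm_sq, hF]
      push_cast
      ring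
    have e3 : ∫ x, SF.pr φ k s1 () () x ∂ν = ((∫ x, F x ∂ν : ℝ) : ℂ) := by
      exact (integral_congr_ae (Filter.Eventually.of_forall e2)).trans integral_complex_ofReal
    have hFc : Continuous F := by
      have h1 : Continuous (SF.pr φ k s1 () ()) := hs1s.continuous_pr hφ.toIsFrm () ()
      have h2 : F = fun x => (SF.pr φ k s1 () () x).re := by
        funext x; rw [e2 x, Complex.ofReal_re]
      rw [h2]
      exact Complex.continuous_re.comp h1
    have hF0 : 0 ≤ F := fun x => by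
      simp only [hF, Pi.zero_apply]; positivity
    obtain ⟨x0, hx0⟩ : ∃ x, F x ≠ 0 := by
      by_contra hcon
      simp only [not_exists, not_not] at hcon
      apply hv
      set T : (Fin 3 → ℕ) → ℂ := fun α => if hα : α ∈ Mon m c k then conj (v (e.symm ⟨α, hα⟩))
        else 0 with hT
      have hT0 := msec_linIndep m c k T ?_
      · funext a
        have h1 := hT0 (e a) (e a).2
        rw [hT] at h1
        simp only [(e a).2, dite_true] at h1
        have h2 : e.symm ⟨(e a : Fin 3 → ℕ), (e a).2⟩ = a := by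
          rw [Subtype.coe_eta, Equiv.symm_apply_apply]
        rw [h2] at h1
        simpa using h1
      · intro b z hz
        set κ : Idx := (0, b, true) with hκ
        have hzt : z ∈ (SF.ch κ).target := by rw [SF_target]; exact hz
        set x := (SF.ch κ).symm z with hx
        have hxs : x ∈ (SF.ch κ).source := (SF.ch κ).map_target hzt
        have h1 := hs1s.pr_eq () () κ hxs
        rw [e2 x, hcon x, hx, (SF.ch κ).right_inv hzt] at h1
        have h2 : s1 () κ z = 0 := by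
          have h3 : s1 () κ z * conj (s1 () κ z) = 0 := by
            have h4 : ((Real.exp (-k * φ κ z) : ℝ) : ℂ) ≠ 0 := by
              exact_mod_cast (Real.exp_pos _).ne'
            have h5 : s1 () κ z * conj (s1 () κ z) * ((Real.exp (-k * φ κ z) : ℝ) : ℂ) = 0 := by
              rw [← h1]; simp
            exact (mul_eq_zero.1 h5).resolve_right h4
          rw [Complex.mul_conj] at h3
          exact Complex.normSq_eq_zero.1 (by exact_mod_cast h3)
        rw [← h2]
        simp only [hs1, hT1, hs0d]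
        rw [← Finset.sum_coe_sort (Mon m c k) (fun α => T α * msec m c k α κ z)]
        rw [← Equiv.sum_comp e]
        refine Finset.sum_congr rfl fun a _ => ?_
        simp only [hT, (e a).2, dite_true, Subtype.coe_eta, Equiv.symm_apply_apply]
    have hpos : 0 < ∫ x, F x ∂ν :=
      hFc.integral_pos_of_hasCompactSupport_nonneg_nonzero
        (HasCompactSupport.of_compactSpace F) hF0 hx0
    rw [e1, e3]
    exact_mod_cast hpos
  obtain ⟨T, hTtri, hTG, hTu⟩ := adapted_matrix hpd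
  set s : Fin N → Idx → C2 → ℂ := fun b i z => ∑ a, T b a * s0 a i z with hs
  set w : Fin N → ℝ := fun a => (mdg (e a) : ℝ) - k * m with hw
  have hss : SF.IsSec φ k s := hs0.lin T
  have hdeg : ∀ a, k * m ≤ mdg (e a) ∧ mdg (e a) ≤ k * (m + c) := fun a =>
    (Finset.mem_filter.1 (e a).2).2.2
  refine ⟨N, s, w, hss, ?_, ?_, ?_, by rw [hN], ?_, ?_⟩
  · -- orthonormality
    intro b b'
    rw [hs, hlin (Fin N) T b b']
    have h1 : (T * G * Tᴴ) b b' = if b = b' then 1 else 0 := by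
      rw [hTG, Matrix.one_apply]
    rw [← h1, Matrix.mul_apply]
    simp only [Matrix.mul_apply, Matrix.conjTranspose_apply, RCLike.star_def, Finset.sum_mul]
    rw [Finset.sum_comm]
    refine Finset.sum_congr rfl fun a' _ => Finset.sum_congr rfl fun a _ => ?_
    ring
  · -- positivity
    intro x
    have h0 : 0 ≤ SF.ws φ k s (fun _ => 1) x := by
      unfold CSurf.ws
      exact Finset.sum_nonneg fun a _ => by positivity
    rcases h0.lt_or_eq with h1 | h1
    · exact h1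
    · exfalso
      set κ := SF.idx x with hκ
      set z := SF.ch κ x with hz
      have hzt : z ∈ tg κ := by
        rw [← SF_target]
        exact (SF.ch κ).map_source (SF.idx_mem x)
      have h2 : ∀ a, s a κ z = 0 := by
        intro a
        have h3 : ∀ a ∈ Finset.univ, 0 ≤ (1 : ℝ) * (‖s a κ z‖ ^ 2 * Real.exp (-k * φ κ z)) :=
          fun a _ => by positivity
        have h4 := (Finset.sum_eq_zero_iff_of_nonneg h3).1 h1.symm a (Finset.mem_univ a)
        rw [one_mul] at h4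
        have h5 := (mul_eq_zero.1 h4).resolve_right (Real.exp_pos _).ne'
        exact norm_eq_zero.1 (by simpa using h5)
      have h3 : T *ᵥ (fun a => s0 a κ z) = 0 := by
        funext b
        exact h2 b
      have h4 : (fun a => s0 a κ z) = 0 := by
        have h5 : Function.Injective T.mulVec := by
          rw [Matrix.mulVec_injective_iff_isUnit]; exact hTu
        apply h5
        rw [h3, Matrix.mulVec_zero]
      obtain ⟨α, hα, hne⟩ := msec_ne m c k κ hzt
      apply hne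
      have h5 := congrFun h4 (e.symm ⟨α, hα⟩)
      simp only [hs0d, Equiv.apply_symm_apply, Pi.zero_apply] at h5
      exact h5
  · -- weights
    intro a
    obtain ⟨h1, h2⟩ := hdeg a
    have h1' : ((k * m : ℕ) : ℝ) ≤ mdg (e a) := by exact_mod_cast h1
    have h2' : (mdg (e a) : ℝ) ≤ ((k * (m + c) : ℕ) : ℝ) := by exact_mod_cast h2
    push_cast at h1' h2'
    simp only [hw]
    constructor
    · linarith
    · linarith
  · -- sum of the weights
    rw [← Finset.sum_coe_sort (Mon m c k) (fun α => (mdg α : ℝ) - k * m), ← Equiv.sum_comp e]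
  · -- the bound
    refine ⟨∑ a : Fin N, ((N : ℝ) * ∑ b : Fin N, ‖T a b‖ ^ 2 * 16) + 1, ?_, ?_⟩
    · have : 0 ≤ ∑ a : Fin N, ((N : ℝ) * ∑ b : Fin N, ‖T a b‖ ^ 2 * 16) :=
        Finset.sum_nonneg fun a _ => mul_nonneg (Nat.cast_nonneg _)
          (Finset.sum_nonneg fun b _ => by positivity)
      linarith
    · intro t ht κ z hz
      set E := Real.exp (k * Psi m c t κ z) with hE
      have hEpos : 0 < E := Real.exp_pos _
      have hterm : ∀ a : Fin N, Real.exp (t * w a) * ‖s a κ z‖ ^ 2 ≤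
          ((N : ℝ) * ∑ b : Fin N, ‖T a b‖ ^ 2 * 16) * E := by
        intro a
        have h1 : ‖s a κ z‖ ^ 2 ≤ (N : ℝ) * ∑ b : Fin N, ‖T a b * s0 b κ z‖ ^ 2 := by
          have h2 : ‖s a κ z‖ ≤ ∑ b : Fin N, ‖T a b * s0 b κ z‖ := norm_sum_le _ _
          have h3 : (∑ b : Fin N, ‖T a b * s0 b κ z‖) ^ 2 ≤
              (Finset.univ : Finset (Fin N)).card * ∑ b : Fin N, ‖T a b * s0 b κ z‖ ^ 2 :=
            sq_sum_le_card_mul_sum_sq
          rw [Finset.card_univ, Fintype.card_fin] at h3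
          exact (pow_le_pow_left₀ (norm_nonneg _) h2 2).trans h3
        calc Real.exp (t * w a) * ‖s a κ z‖ ^ 2
            ≤ Real.exp (t * w a) * ((N : ℝ) * ∑ b : Fin N, ‖T a b * s0 b κ z‖ ^ 2) := by
              gcongr
          _ = (N : ℝ) * ∑ b : Fin N, Real.exp (t * w a) * ‖T a b * s0 b κ z‖ ^ 2 := by
              rw [← Finset.mul_sum]; ring
          _ ≤ (N : ℝ) * ∑ b : Fin N, ‖T a b‖ ^ 2 * (16 * E) := by
              apply mul_le_mul_of_nonneg_left _ (Nat.cast_nonneg _)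
              refine Finset.sum_le_sum fun b _ => ?_
              by_cases hab : a < b
              · rw [hTtri a b hab]; simp
              · have hba : b ≤ a := not_lt.1 hab
                have hww : w a ≤ w b := by
                  have := he b a hba
                  have h4 : (mdg (e a) : ℝ) ≤ mdg (e b) := by exact_mod_cast this
                  simp only [hw]; linarith
                have h5 : Real.exp (t * w a) ≤ Real.exp (t * w b) := by
                  apply Real.exp_le_exp.2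
                  exact mul_le_mul_of_nonneg_left hww ht
                have h6 := msec_bound m c k (e b).2 t κ hz
                rw [norm_mul, mul_pow]
                calc Real.exp (t * w a) * (‖T a b‖ ^ 2 * ‖s0 b κ z‖ ^ 2)
                    ≤ Real.exp (t * w b) * (‖T a b‖ ^ 2 * ‖s0 b κ z‖ ^ 2) := by gcongr
                  _ = ‖T a b‖ ^ 2 * (Real.exp (t * w b) * ‖s0 b κ z‖ ^ 2) := by ring
                  _ ≤ ‖T a b‖ ^ 2 * (16 * E) := by
                      apply mul_le_mul_of_nonneg_left _ (by positivity)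
                      exact h6
          _ = ((N : ℝ) * ∑ b : Fin N, ‖T a b‖ ^ 2 * 16) * E := by
              rw [mul_assoc, Finset.sum_mul]
              congr 1
              exact Finset.sum_congr rfl fun b _ => by ring
      calc ∑ a, Real.exp (t * w a) * ‖s a κ z‖ ^ 2
          ≤ ∑ a : Fin N, ((N : ℝ) * ∑ b : Fin N, ‖T a b‖ ^ 2 * 16) * E :=
            Finset.sum_le_sum fun a _ => hterm a
        _ = (∑ a : Fin N, ((N : ℝ) * ∑ b : Fin N, ‖T a b‖ ^ 2 * 16)) * E := by
            rw [Finset.sum_mul]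
        _ ≤ (∑ a : Fin N, ((N : ℝ) * ∑ b : Fin N, ‖T a b‖ ^ 2 * 16) + 1) * E := by
            gcongr
            linarith

end

end Pool.Agent.KS
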