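import Pool.Agent.KS.Path
import Pool.Agent.KS.FSconv
import Pool.Agent.KS.DerivBd
import Pool.Agent.KS.Berg3

/-!
# Sections, Bergman functions, Fubini-Study paths (modules SECS, GBERG, GDERIV)
-/

namespace Pool.Agent.KS

open MeasureTheory Complex Topology
open scoped ContDiff Matrix ComplexOrder ComplexConjugate Manifold

noncomputable section

namespace CSurf

variable {M ι : Type} [TopologicalSpace M]

/-- A finite family of holomorphic sections of the `k`-th power of a line bundle whose hermitian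
metric has the local weights `φ i`: the products `s_a conj(s_b) e^{-kφ}` are functions on `M`. -/
structure IsSec (S : CSurf M ι) (φ : ι → C2 → ℝ) (k : ℕ) {α : Type} (s : α → ι → C2 → ℂ) :
    Prop where
  holo : ∀ a i, ContDiffOn ℂ ∞ (s a i) (S.ch i).target
  compat : ∀ a b i j, ∀ z ∈ S.ovl i j,
    s a i z * conj (s b i z) * ((Real.exp (-k * φ i z) : ℝ) : ℂ)
      = s a j (S.tr i j z) * conj (s b j (S.tr i j z))
        * ((Real.exp (-k * φ j (S.tr i j z)) : ℝ) : ℂ)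

/-- the function `s_a conj(s_b) e^{-kφ}` -/
def pr (S : CSurf M ι) (φ : ι → C2 → ℝ) (k : ℕ) {α : Type} (s : α → ι → C2 → ℂ) (a b : α)
    (x : M) : ℂ :=
  s a (S.idx x) (S.ch (S.idx x) x) * conj (s b (S.idx x) (S.ch (S.idx x) x))
    * ((Real.exp (-k * φ (S.idx x) (S.ch (S.idx x) x)) : ℝ) : ℂ)

/-- the function `∑ c_a |s_a|² e^{-kφ}` -/
def ws (S : CSurf M ι) (φ : ι → C2 → ℝ) (k : ℕ) {α : Type} [Fintype α] (s : α → ι → C2 → ℂ)
    (c : α → ℝ) (x : M) : ℝ :=
  ∑ a, c a * (‖s a (S.idx x) (S.ch (S.idx x) x)‖ ^ 2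
    * Real.exp (-k * φ (S.idx x) (S.ch (S.idx x) x)))

/-- Fubini-Study potentials `(1/k) log ((π²/k²) ∑ e^{t w_a} |s_a|² e^{-kφ})` -/
def fsu (S : CSurf M ι) (φ : ι → C2 → ℝ) (k : ℕ) {α : Type} [Fintype α] (s : α → ι → C2 → ℂ)
    (w : α → ℝ) (t : ℝ) (x : M) : ℝ :=
  (1 / k) * Real.log (Real.pi ^ 2 / k ^ 2 * S.ws φ k s (fun a => Real.exp (t * w a)) x)

variable {S : CSurf M ι} {φ : ι → C2 → ℝ} {k : ℕ} {α : Type} {s : α → ι → C2 → ℂ}

/-! ### SECS -/

theorem IsSec.pr_eq (hs : S.IsSec φ k s) (a b : α) (i : ι) {x : M} (hx : x ∈ (S.ch i).source) :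
    S.pr φ k s a b x = s a i (S.ch i x) * conj (s b i (S.ch i x))
      * ((Real.exp (-k * φ i (S.ch i x)) : ℝ) : ℂ) := by
  have hxi := S.idx_mem x
  have hz : S.ch (S.idx x) x ∈ S.ovl (S.idx x) i := by
    refine ⟨(S.ch (S.idx x)).map_source hxi, ?_⟩
    rw [Set.mem_preimage, (S.ch (S.idx x)).left_inv hxi]
    exact hx
  have htr : S.tr (S.idx x) i (S.ch (S.idx x) x) = S.ch i x := by
    simp only [tr, (S.ch (S.idx x)).left_inv hxi]
  have h := hs.compat a b (S.idx x) i _ hz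
  rw [htr] at h
  exact h

theorem IsSec.continuous_pr (hφ : S.IsFrm φ) (hs : S.IsSec φ k s) (a b : α) :
    Continuous (S.pr φ k s a b) := by
  rw [continuous_iff_continuousAt]
  intro x
  have hx := S.idx_mem x
  set i := S.idx x with hi
  have hch : ContinuousOn (S.ch i) (S.ch i).source := (S.ch i).continuousOn
  have hmaps : Set.MapsTo (S.ch i) (S.ch i).source (S.ch i).target := (S.ch i).mapsTo
  have h1 : ContinuousOn (fun z => s a i z * conj (s b i z) * ((Real.exp (-k * φ i z) : ℝ) : ℂ))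
      (S.ch i).target := by
    refine ((hs.holo a i).continuousOn.mul (Complex.continuous_conj.comp_continuousOn (hs.holo b i).continuousOn)).mul ?_
    refine Complex.continuous_ofReal.comp_continuousOn ?_
    exact Real.continuous_exp.comp_continuousOn (continuousOn_const.mul (hφ.smooth i).continuousOn)
  have h2 := h1.comp hch hmaps
  have h3 : ContinuousOn (S.pr φ k s a b) (S.ch i).source := by
    refine h2.congr fun y hy => ?_
    exact hs.pr_eq a b i hy
  exact h3.continuousAt ((S.ch i).open_source.mem_nhds hx)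

/-- linear combinations of sections -/
theorem IsSec.lin (hs : S.IsSec φ k s) [Fintype α] {β : Type} (T : β → α → ℂ) :
    S.IsSec φ k (fun b i z => ∑ a, T b a * s a i z) := by
  constructor
  · intro b i
    exact ContDiffOn.sum fun a _ => contDiffOn_const.mul (hs.holo a i)
  · intro b b' i j z hz
    simp only [map_sum, map_mul, Finset.sum_mul, Finset.mul_sum]
    refine Finset.sum_congr rfl fun a _ => Finset.sum_congr rfl fun a' _ => ?_
    have h := hs.compat a' a i j z hz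
    linear_combination (T b a' * conj (T b' a)) * h

theorem IsSec.pr_lin (S : CSurf M ι) [Fintype α] {β : Type} (T : β → α → ℂ) (b b' : β) (x : M) :
    S.pr φ k (fun b i z => ∑ a, T b a * s a i z) b b' x
      = ∑ a, ∑ a', T b a * conj (T b' a') * S.pr φ k s a a' x := by
  simp only [pr, map_sum, map_mul, Finset.sum_mul, Finset.mul_sum]
  rw [Finset.sum_comm]
  refine Finset.sum_congr rfl fun a _ => Finset.sum_congr rfl fun a' _ => ?_
  ring

variable [Fintype α]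

theorem ws_eq_pr (c : α → ℝ) (x : M) :
    S.ws φ k s c x = ∑ a, c a * (S.pr φ k s a a x).re := by
  simp only [ws, pr]
  refine Finset.sum_congr rfl fun a _ => ?_
  rw [Complex.mul_conj, Complex.normSq_eq_norm_sq, ← Complex.ofReal_mul, Complex.ofReal_re]

theorem IsSec.ws_eq (hs : S.IsSec φ k s) (c : α → ℝ) (i : ι) {x : M}
    (hx : x ∈ (S.ch i).source) :
    S.ws φ k s c x = ∑ a, c a * (‖s a i (S.ch i x)‖ ^ 2 * Real.exp (-k * φ i (S.ch i x))) := by
  rw [ws_eq_pr]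
  refine Finset.sum_congr rfl fun a _ => ?_
  rw [hs.pr_eq a a i hx, Complex.mul_conj, Complex.normSq_eq_norm_sq, ← Complex.ofReal_mul, Complex.ofReal_re]

/-- local smoothness of the densities, with parameters -/
theorem IsSec.sm_ws (hφ : S.IsFrm φ) (hs : S.IsSec φ k s) (c : α → ℝ) :
    S.Sm (S.ws φ k s c) := by
  refine Sm.of_local (fun i z => ∑ a, c a * (‖s a i z‖ ^ 2 * Real.exp (-k * φ i z))) ?_
    (fun i x hx => hs.ws_eq c i hx)
  intro i
  refine ContDiffOn.sum fun a _ => contDiffOn_const.mul ?_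
  refine (((hs.holo a i).restrict_scalars ℝ).norm_sq ℝ).mul ?_
  exact (contDiffOn_const.mul (hφ.smooth i)).exp

/-- positivity of weighted densities -/
theorem ws_pos {x : M} (hpos : 0 < S.ws φ k s (fun _ => 1) x) {c : α → ℝ} (hc : ∀ a, 0 < c a) :
    0 < S.ws φ k s c x := by
  have h1 : ∃ a, 0 < ‖s a (S.idx x) (S.ch (S.idx x) x)‖ ^ 2
      * Real.exp (-k * φ (S.idx x) (S.ch (S.idx x) x)) := by
    by_contra hcon
    push Not at hcon
    have : S.ws φ k s (fun _ => 1) x ≤ 0 := by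
      unfold ws
      exact Finset.sum_nonpos fun a _ => by rw [one_mul]; exact hcon a
    linarith
  obtain ⟨a, ha⟩ := h1
  unfold ws
  refine Finset.sum_pos' (fun b _ => ?_) ⟨a, Finset.mem_univ a, mul_pos (hc a) ha⟩
  have := hc b
  positivity

/-- local formula for the Fubini-Study potential -/
theorem IsSec.fsu_eq (hs : S.IsSec φ k s) (w : α → ℝ) (t : ℝ) (i : ι) {x : M}
    (hx : x ∈ (S.ch i).source) :
    S.fsu φ k s w t x = (1 / k) * Real.log (Real.pi ^ 2 / k ^ 2 *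
      ∑ a, Real.exp (t * w a) * (‖s a i (S.ch i x)‖ ^ 2 * Real.exp (-k * φ i (S.ch i x)))) := by
  rw [fsu, hs.ws_eq _ i hx]

theorem spath_fsu (hφ : S.IsFrm φ) (hk : 0 < k) (hs : S.IsSec φ k s)
    (hpos : ∀ x, 0 < S.ws φ k s (fun _ => 1) x) (w : α → ℝ) : S.SPath (S.fsu φ k s w) := by
  intro i
  have hk' : (0 : ℝ) < k := by exact_mod_cast hk
  have heq : ∀ p ∈ (Set.univ : Set ℝ) ×ˢ (S.ch i).target, S.fsu φ k s w p.1 ((S.ch i).symm p.2)
      = (1 / k) * Real.log (Real.pi ^ 2 / k ^ 2 *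
        ∑ a, Real.exp (p.1 * w a) * (‖s a i p.2‖ ^ 2 * Real.exp (-k * φ i p.2))) := by
    rintro ⟨t, z⟩ ⟨-, hz⟩
    simp only at hz ⊢
    rw [hs.fsu_eq w t i ((S.ch i).map_target hz), (S.ch i).right_inv hz]
  refine ContDiffOn.congr ?_ heq
  refine contDiffOn_const.mul (ContDiffOn.log ?_ ?_)
  · refine contDiffOn_const.mul (ContDiffOn.sum fun a _ => ?_)
    have hsnd : Set.MapsTo (Prod.snd : ℝ × C2 → C2) ((Set.univ : Set ℝ) ×ˢ (S.ch i).target) (S.ch i).target :=
      fun p hp => hp.2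
    have h1 : ContDiffOn ℝ ∞ (fun p : ℝ × C2 => ‖s a i p.2‖ ^ 2) ((Set.univ : Set ℝ) ×ˢ (S.ch i).target) :=
      (((hs.holo a i).restrict_scalars ℝ).norm_sq ℝ).comp contDiffOn_snd hsnd
    have h2 : ContDiffOn ℝ ∞ (fun p : ℝ × C2 => Real.exp (-k * φ i p.2))
        ((Set.univ : Set ℝ) ×ˢ (S.ch i).target) :=
      (contDiffOn_const.mul ((hφ.smooth i).comp contDiffOn_snd hsnd)).exp
    have h3 : ContDiffOn ℝ ∞ (fun p : ℝ × C2 => Real.exp (p.1 * w a))
        ((Set.univ : Set ℝ) ×ˢ (S.ch i).target) :=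
      (contDiffOn_fst.mul contDiffOn_const).exp
    exact h3.mul (h1.mul h2)
  · rintro ⟨t, z⟩ ⟨-, hz⟩
    simp only at hz ⊢
    have h1 := ws_pos (hpos ((S.ch i).symm z)) (c := fun a => Real.exp (t * w a)) (fun a => Real.exp_pos _)
    rw [hs.ws_eq _ i ((S.ch i).map_target hz), (S.ch i).right_inv hz] at h1
    positivity

lemma hasDerivAt_wsum (X w : α → ℝ) (t : ℝ) :
    HasDerivAt (fun r => ∑ a, Real.exp (r * w a) * X a) (∑ a, Real.exp (t * w a) * w a * X a) t := by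
  refine HasDerivAt.fun_sum fun a _ => ?_
  have h1 : HasDerivAt (fun r : ℝ => Real.exp (r * w a)) (Real.exp (t * w a) * (1 * w a)) t :=
    ((hasDerivAt_id t).mul_const (w a)).exp
  exact (h1.mul_const (X a)).congr_deriv (by ring)

lemma hasDerivAt_wsum' (X w : α → ℝ) (t : ℝ) :
    HasDerivAt (fun r => ∑ a, Real.exp (r * w a) * w a * X a)
      (∑ a, Real.exp (t * w a) * w a ^ 2 * X a) t := by
  refine HasDerivAt.fun_sum fun a _ => ?_
  have h1 : HasDerivAt (fun r : ℝ => Real.exp (r * w a)) (Real.exp (t * w a) * (1 * w a)) t :=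
    ((hasDerivAt_id t).mul_const (w a)).exp
  exact ((h1.mul_const (w a)).mul_const (X a)).congr_deriv (by ring)

theorem td_fsu (hφ : S.IsFrm φ) (hk : 0 < k) (hs : S.IsSec φ k s)
    (hpos : ∀ x, 0 < S.ws φ k s (fun _ => 1) x) (w : α → ℝ) (t : ℝ) (x : M) :
    td (S.fsu φ k s w) t x = (1 / k) * (S.ws φ k s (fun a => Real.exp (t * w a) * w a) x
      / S.ws φ k s (fun a => Real.exp (t * w a)) x) := by
  have hk' : (0 : ℝ) < k := by exact_mod_cast hk
  have h0 := ws_pos (hpos x) (c := fun a => Real.exp (t * w a)) (fun a => Real.exp_pos _)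
  unfold td fsu
  unfold ws at h0 ⊢
  set X : α → ℝ := fun a => ‖s a (S.idx x) (S.ch (S.idx x) x)‖ ^ 2
      * Real.exp (-k * φ (S.idx x) (S.ch (S.idx x) x)) with hX
  have h1 := hasDerivAt_wsum X w t
  have hc : 0 < Real.pi ^ 2 / (k : ℝ) ^ 2 := by positivity
  have h2 : HasDerivAt (fun r => (1 / (k : ℝ)) * Real.log (Real.pi ^ 2 / (k : ℝ) ^ 2 *
      ∑ a, Real.exp (r * w a) * X a)) ((1 / (k : ℝ)) * ((Real.pi ^ 2 / (k : ℝ) ^ 2 *
      ∑ a, Real.exp (t * w a) * w a * X a) / (Real.pi ^ 2 / (k : ℝ) ^ 2 *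
      ∑ a, Real.exp (t * w a) * X a))) t :=
    (((h1.const_mul _).log (mul_pos hc h0).ne')).const_mul _
  have h3 := h2.deriv
  rw [h3]
  congr 1
  rw [mul_div_mul_left _ _ hc.ne']

/-- the potentials of the Fubini-Study forms -/
theorem IsSec.pot_eq (hs : S.IsSec φ k s) (hk : 0 < k)
    (hpos : ∀ x, 0 < S.ws φ k s (fun _ => 1) x) (w : α → ℝ) (t : ℝ) (i : ι) {z : C2}
    (hz : z ∈ (S.ch i).target) :
    (0 < ∑ a, (Real.pi ^ 2 / (k : ℝ) ^ 2 * Real.exp (t * w a)) * ‖s a i z‖ ^ 2) ∧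
    (φ + S.fnF (S.fsu φ k s w t)) i z = (1 / (k : ℝ)) *
      Real.log (∑ a, (Real.pi ^ 2 / (k : ℝ) ^ 2 * Real.exp (t * w a)) * ‖s a i z‖ ^ 2) := by
  have hk' : (0 : ℝ) < k := by exact_mod_cast hk
  have hc : 0 < Real.pi ^ 2 / (k : ℝ) ^ 2 := by positivity
  have h1 := ws_pos (hpos ((S.ch i).symm z)) (c := fun a => Real.exp (t * w a)) (fun a => Real.exp_pos _)
  rw [hs.ws_eq _ i ((S.ch i).map_target hz), (S.ch i).right_inv hz] at h1
  have h2 : ∑ a, Real.exp (t * w a) * (‖s a i z‖ ^ 2 * Real.exp (-k * φ i z))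
      = (∑ a, Real.exp (t * w a) * ‖s a i z‖ ^ 2) * Real.exp (-k * φ i z) := by
    rw [Finset.sum_mul]
    exact Finset.sum_congr rfl fun a _ => by ring
  rw [h2] at h1
  have h3 : 0 < ∑ a, Real.exp (t * w a) * ‖s a i z‖ ^ 2 := by
    exact (mul_pos_iff_of_pos_right (Real.exp_pos _)).1 h1
  have h4 : ∑ a, (Real.pi ^ 2 / (k : ℝ) ^ 2 * Real.exp (t * w a)) * ‖s a i z‖ ^ 2
      = Real.pi ^ 2 / (k : ℝ) ^ 2 * ∑ a, Real.exp (t * w a) * ‖s a i z‖ ^ 2 := by
    rw [Finset.mul_sum]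
    exact Finset.sum_congr rfl fun a _ => by ring
  refine ⟨by rw [h4]; positivity, ?_⟩
  rw [h4, Pi.add_apply, Pi.add_apply, fnF, hs.fsu_eq w t i ((S.ch i).map_target hz), (S.ch i).right_inv hz, h2,
    ← mul_assoc, Real.log_mul (mul_pos hc h3).ne' (Real.exp_pos _).ne', Real.log_exp]
  field_simp
  ring

theorem IsSec.cHess_pot (hs : S.IsSec φ k s) (hk : 0 < k)
    (hpos : ∀ x, 0 < S.ws φ k s (fun _ => 1) x) (w : α → ℝ) (t : ℝ) (i : ι) {z : C2}
    (hz : z ∈ (S.ch i).target) :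
    cHess ((φ + S.fnF (S.fsu φ k s w t)) i) z = ((1 / (k : ℝ) : ℝ) : ℂ) •
      cHess (fun z => Real.log (∑ a, (Real.pi ^ 2 / (k : ℝ) ^ 2 * Real.exp (t * w a)) * ‖s a i z‖ ^ 2)) z := by
  have hev : (φ + S.fnF (S.fsu φ k s w t)) i =ᶠ[𝓝 z] fun z => (1 / (k : ℝ)) *
      Real.log (∑ a, (Real.pi ^ 2 / (k : ℝ) ^ 2 * Real.exp (t * w a)) * ‖s a i z‖ ^ 2) := by
    filter_upwards [(S.ch i).open_target.mem_nhds hz] with y hy
    exact (hs.pot_eq hk hpos w t i hy).2
  rw [cHess_congr hev]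
  refine cHess_const_mul _ ?_
  refine ContDiffAt.log ?_ (hs.pot_eq hk hpos w t i hz).1.ne'
  refine ContDiffAt.sum fun a _ => contDiffAt_const.mul ?_
  exact (((((hs.holo a i).contDiffAt ((S.ch i).open_target.mem_nhds hz)).restrict_scalars ℝ).norm_sq ℝ).of_le
    (by norm_cast))

/-- the Fubini-Study forms are semipositive -/
theorem posSemidef_fsu (hφ : S.IsFrm φ) (hk : 0 < k) (hs : S.IsSec φ k s)
    (hpos : ∀ x, 0 < S.ws φ k s (fun _ => 1) x) (w : α → ℝ) (t : ℝ) (i : ι) :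
    ∀ z ∈ (S.ch i).target, (cHess ((φ + S.fnF (S.fsu φ k s w t)) i) z).PosSemidef := by
  intro z hz
  have hk' : (0 : ℝ) < k := by exact_mod_cast hk
  rw [hs.cHess_pot hk hpos w t i hz]
  refine Matrix.PosSemidef.smul ?_ (by exact_mod_cast (by positivity : (0 : ℝ) ≤ 1 / k))
  exact posSemidef_cHess_log_sum _ (fun a => by positivity)
    (fun a => (((hs.holo a i).contDiffAt ((S.ch i).open_target.mem_nhds hz))).of_le (by norm_cast))
    (hs.pot_eq hk hpos w t i hz).1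

theorem gz_congr {n : ℕ} {u v : Cn n → ℝ} {z : Cn n} (j : Fin n) (h : u =ᶠ[𝓝 z] v) :
    gz j u z = gz j v z := by
  unfold gz
  exact dz_congr j (h.fun_comp (fun t : ℝ => (t : ℂ)))

theorem gz_const_mul {n : ℕ} {u : Cn n → ℝ} {z : Cn n} (c : ℝ) (j : Fin n) (hu : DifferentiableAt ℝ u z) :
    gz j (fun w => c * u w) z = (c : ℂ) * gz j u z := by
  unfold gz
  have h : (fun w => ((c * u w : ℝ) : ℂ)) = fun w => (c : ℂ) * ((u w : ℝ) : ℂ) := by
    funext w; push_cast; rfl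
  rw [h]
  exact dz_const_mul _ j ((ofRealCLM.differentiableAt (x := u z)).comp z hu)

/-- the second time derivative of the Fubini-Study path -/
theorem td_td_fsu (hφ : S.IsFrm φ) (hk : 0 < k) (hs : S.IsSec φ k s)
    (hpos : ∀ x, 0 < S.ws φ k s (fun _ => 1) x) (w : α → ℝ) (t : ℝ) (x : M) :
    td (td (S.fsu φ k s w)) t x = (1 / k) * (S.ws φ k s (fun a => Real.exp (t * w a) * w a ^ 2) x
      / S.ws φ k s (fun a => Real.exp (t * w a)) x
      - (S.ws φ k s (fun a => Real.exp (t * w a) * w a) x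
      / S.ws φ k s (fun a => Real.exp (t * w a)) x) ^ 2) := by
  have hk' : (0 : ℝ) < k := by exact_mod_cast hk
  have h0 := ws_pos (hpos x) (c := fun a => Real.exp (t * w a)) (fun a => Real.exp_pos _)
  have hfun : (fun r => td (S.fsu φ k s w) r x) = fun r => (1 / (k : ℝ)) *
      (S.ws φ k s (fun a => Real.exp (r * w a) * w a) x / S.ws φ k s (fun a => Real.exp (r * w a)) x) := by
    funext r; exact td_fsu hφ hk hs hpos w r x
  rw [td, hfun]
  unfold ws at h0 ⊢
  set X : α → ℝ := fun a => ‖s a (S.idx x) (S.ch (S.idx x) x)‖ ^ 2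
      * Real.exp (-k * φ (S.idx x) (S.ch (S.idx x) x)) with hX
  have h1 := hasDerivAt_wsum X w t
  have h2 := hasDerivAt_wsum' X w t
  have h3 := ((h2.div h1 h0.ne').const_mul (1 / (k : ℝ))).deriv
  have h4 : deriv (fun r => (1 / (k : ℝ)) * ((∑ a, Real.exp (r * w a) * w a * X a) /
      ∑ a, Real.exp (r * w a) * X a)) t = _ := h3
  rw [h4]
  congr 1
  have h5 : ∀ P Q R : ℝ, P ≠ 0 → (R * P - Q * Q) / P ^ 2 = R / P - (Q / P) ^ 2 := by
    intro P Q R hP
    field_simp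
  exact h5 _ _ _ h0.ne'

/-- convexity of the Fubini-Study path -/
theorem fsu_convex (hφ : S.IsKah φ) (hk : 0 < k) (hs : S.IsSec φ k s)
    (hpos : ∀ x, 0 < S.ws φ k s (fun _ => 1) x) (w : α → ℝ) (t : ℝ) (x : M) :
    2 * S.gden φ (td (S.fsu φ k s w) t) (φ + S.fnF (S.fsu φ k s w t)) x
      ≤ td (td (S.fsu φ k s w)) t x
        * S.den φ (φ + S.fnF (S.fsu φ k s w t)) (φ + S.fnF (S.fsu φ k s w t)) x := by
  have hk' : (0 : ℝ) < k := by exact_mod_cast hk
  have hpi : 0 < Real.pi ^ 2 / (k : ℝ) ^ 2 := by positivity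
  rw [td_td_fsu hφ.toIsFrm hk hs hpos w t x]
  have hx := S.idx_mem x
  set i := S.idx x with hi
  have hz : S.ch i x ∈ (S.ch i).target := (S.ch i).map_source hx
  set z := S.ch i x with hzdef
  have hdt : 0 < dt (φ i) z := IsKah.dt_pos hφ i hz
  set c : α → ℝ := fun a => Real.pi ^ 2 / (k : ℝ) ^ 2 * Real.exp (t * w a) with hc
  have hc0 : ∀ a, 0 ≤ c a := fun a => by simp only [hc]; positivity
  have hFz : ∀ a, ContDiffAt ℂ 2 (s a i) z := fun a =>
    ((hs.holo a i).contDiffAt ((S.ch i).open_target.mem_nhds hz)).of_le (by norm_cast)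
  have hFd : ∀ a, ContDiffAt ℝ ∞ (fun y => ‖s a i y‖ ^ 2) z := fun a =>
    ((((hs.holo a i).contDiffAt ((S.ch i).open_target.mem_nhds hz)).restrict_scalars ℝ).norm_sq ℝ)
  have hS0 := (hs.pot_eq hk hpos w t i hz).1
  have hfs := fs_convex (F := fun a => s a i) c w hc0 hFz hS0
  -- the ratio
  set m : C2 → ℝ := fun y => (∑ a, c a * w a * ‖s a i y‖ ^ 2) / ∑ a, c a * ‖s a i y‖ ^ 2 with hm
  -- ratios of densities in terms of `c`
  have hratio : ∀ (v : α → ℝ), ∀ y ∈ (S.ch i).target,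
      S.ws φ k s (fun a => Real.exp (t * w a) * v a) ((S.ch i).symm y)
        / S.ws φ k s (fun a => Real.exp (t * w a)) ((S.ch i).symm y)
      = (∑ a, c a * v a * ‖s a i y‖ ^ 2) / ∑ a, c a * ‖s a i y‖ ^ 2 := by
    intro v y hy
    rw [hs.ws_eq _ i ((S.ch i).map_target hy), hs.ws_eq _ i ((S.ch i).map_target hy), (S.ch i).right_inv hy]
    have h1 : ∀ u : α → ℝ, ∑ a, u a * (‖s a i y‖ ^ 2 * Real.exp (-k * φ i y))
        = (∑ a, u a * ‖s a i y‖ ^ 2) * Real.exp (-k * φ i y) := by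
      intro u
      rw [Finset.sum_mul]
      exact Finset.sum_congr rfl fun a _ => by ring
    have h2 : ∑ a, c a * v a * ‖s a i y‖ ^ 2
        = Real.pi ^ 2 / (k : ℝ) ^ 2 * ∑ a, Real.exp (t * w a) * v a * ‖s a i y‖ ^ 2 := by
      rw [Finset.mul_sum]
      exact Finset.sum_congr rfl fun a _ => by simp only [hc]; ring
    have h3 : ∑ a, c a * ‖s a i y‖ ^ 2
        = Real.pi ^ 2 / (k : ℝ) ^ 2 * ∑ a, Real.exp (t * w a) * ‖s a i y‖ ^ 2 := by
      rw [Finset.mul_sum]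
      exact Finset.sum_congr rfl fun a _ => by simp only [hc]; ring
    rw [h1, h1, h2, h3, mul_div_mul_left _ _ hpi.ne', mul_div_mul_right _ _ (Real.exp_pos _).ne']
  have hxz : (S.ch i).symm z = x := (S.ch i).left_inv hx
  have hr1 : S.ws φ k s (fun a => Real.exp (t * w a) * w a) x
        / S.ws φ k s (fun a => Real.exp (t * w a)) x = m z := by
    have := hratio w z hz; rwa [hxz] at this
  have hr2 : S.ws φ k s (fun a => Real.exp (t * w a) * w a ^ 2) x
        / S.ws φ k s (fun a => Real.exp (t * w a)) x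
      = (∑ a, c a * w a ^ 2 * ‖s a i z‖ ^ 2) / ∑ a, c a * ‖s a i z‖ ^ 2 := by
    have := hratio (fun a => w a ^ 2) z hz; rwa [hxz] at this
  -- gradient of the velocity
  have hmd : DifferentiableAt ℝ m z := by
    have h1 : ContDiffAt ℝ ∞ m z := by
      refine ContDiffAt.div ?_ ?_ hS0.ne'
      · exact ContDiffAt.sum fun a _ => contDiffAt_const.mul (hFd a)
      · exact ContDiffAt.sum fun a _ => contDiffAt_const.mul (hFd a)
    exact h1.differentiableAt (by simp)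
  have hgz : ∀ j, gz j (S.fnF (td (S.fsu φ k s w) t) i) z = ((1 / (k : ℝ) : ℝ) : ℂ) * gz j m z := by
    intro j
    rw [← gz_const_mul _ j hmd]
    refine gz_congr j ?_
    filter_upwards [(S.ch i).open_target.mem_nhds hz] with y hy
    rw [fnF, td_fsu hφ.toIsFrm hk hs hpos, hratio w y hy]
  have hH := hs.cHess_pot hk hpos w t i hz
  set H := cHess (fun z => Real.log (∑ a, c a * ‖s a i z‖ ^ 2)) z with hHdef
  set G : Matrix (Fin 2) (Fin 2) ℂ := fun p q => gz p m z * conj (gz q m z) with hG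
  have hgden : S.gden φ (td (S.fsu φ k s w) t) (φ + S.fnF (S.fsu φ k s w t)) x
      = (1 / (k : ℝ)) ^ 3 * mdet G H / dt (φ i) z := by
    unfold gden
    rw [← hi, ← hzdef, hH, mdet_smul_right]
    have h1 : (fun p q => gz p (S.fnF (td (S.fsu φ k s w) t) i) z
        * conj (gz q (S.fnF (td (S.fsu φ k s w) t) i) z) : Matrix (Fin 2) (Fin 2) ℂ)
        = (((1 / (k : ℝ)) ^ 2 : ℝ) : ℂ) • G := by
      ext p q
      rw [Matrix.smul_apply]
      show gz p (S.fnF (td (S.fsu φ k s w) t) i) z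
        * conj (gz q (S.fnF (td (S.fsu φ k s w) t) i) z) = _
      rw [hgz, hgz, hG]
      simp only [map_mul, Complex.conj_ofReal, smul_eq_mul]
      push_cast
      ring
    rw [h1, mdet_smul_left]
    ring
  have hden : S.den φ (φ + S.fnF (S.fsu φ k s w t)) (φ + S.fnF (S.fsu φ k s w t)) x
      = (1 / (k : ℝ)) ^ 2 * dt (fun z => Real.log (∑ a, c a * ‖s a i z‖ ^ 2)) z / dt (φ i) z := by
    unfold den Dm
    rw [← hi, ← hzdef, hH, mdet_smul_right, mdet_smul_left, mdet_self]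
    unfold dt
    ring
  rw [hgden, hden, hr1, hr2]
  have h5 : 0 < (1 / (k : ℝ)) ^ 3 / dt (φ i) z := by positivity
  have hmz : (∑ a, c a * w a * ‖s a i z‖ ^ 2) / ∑ a, c a * ‖s a i z‖ ^ 2 = m z := rfl
  rw [hmz] at hfs
  have h6 := mul_le_mul_of_nonneg_left hfs h5.le
  calc _ = (1 / (k : ℝ)) ^ 3 / dt (φ i) z * (2 * mdet G H) := by ring
    _ ≤ _ := h6
    _ = _ := by ring

/-! ### GBERG and GDERIV -/

/-- orthonormality -/
def Ortho [MeasurableSpace M] (S : CSurf M ι) (φ : ι → C2 → ℝ) (ν : Measure M) (k : ℕ)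
    {α : Type} [DecidableEq α] (s : α → ι → C2 → ℂ) : Prop :=
  ∀ a b, ∫ x, S.pr φ k s a b x ∂ν = if a = b then 1 else 0

end CSurf

end

end Pool.Agent.KS
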