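import Pool.Agent.KS.FForms
import Pool.Agent.KS.Secs

/-!
# Explicit sections on `FM`: definitions and module FSEC1
-/

namespace Pool.Agent.KS

open MeasureTheory Complex Topology
open scoped ContDiff Matrix ComplexOrder ComplexConjugate Manifold

noncomputable section

/-- exponents of the monomials: `e = α 1 < 5`, total degree in `[k m, k (m+c)]` -/
def Mon (m c k : ℕ) : Finset (Fin 3 → ℕ) :=
  (Fintype.piFinset fun _ => Finset.range (k * (m + c) + 1)).filter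
    fun α => α 1 < 5 ∧ k * m ≤ α 0 + α 1 + α 2 ∧ α 0 + α 1 + α 2 ≤ k * (m + c)

/-- degree -/
def mdg (α : Fin 3 → ℕ) : ℕ := α 0 + α 1 + α 2

/-- the sections: `b^{j-km} a^{k(m+c)-j} X^α` -/
def msec (m c k : ℕ) (α : Fin 3 → ℕ) (κ : Idx) (z : C2) : ℂ :=
  (PV κ z).2 ^ (mdg α - k * m) * (PV κ z).1 ^ (k * (m + c) - mdg α)
    * (PX κ z 0 ^ α 0 * PX κ z 1 ^ α 1 * PX κ z 2 ^ α 2)

theorem mem_Mon {m c k : ℕ} {α : Fin 3 → ℕ} :
    α ∈ Mon m c k ↔ α 1 < 5 ∧ k * m ≤ mdg α ∧ mdg α ≤ k * (m + c) := by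
  unfold Mon mdg
  simp only [Finset.mem_filter, Fintype.mem_piFinset, Finset.mem_range, Fin.forall_fin_succ]
  constructor
  · rintro ⟨-, h⟩; exact h
  · rintro h
    refine ⟨?_, h⟩
    obtain ⟨h1, h2, h3⟩ := h
    simp
    have : (2 : Fin 3) = Fin.succ (Fin.succ 0) := rfl
    refine ⟨by omega, by omega, by omega⟩

theorem fiber_card (m c k j : ℕ) (hj : 4 ≤ j) (h1 : k * m ≤ j) (h2 : j ≤ k * (m + c)) :
    (((Mon m c k).filter fun α => mdg α = j).card : ℝ) = 5 * j - 5 := by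
  have h : ((Mon m c k).filter fun α => mdg α = j).card
      = ((Finset.range 5).sigma fun e => Finset.range (j - e + 1)).card := by
    apply Finset.card_nbij' (fun α => (⟨α 1, α 0⟩ : Σ _ : ℕ, ℕ))
      (fun p => ![p.2, p.1, j - p.1 - p.2])
    · intro α hα
      simp only [Finset.coe_filter, Set.mem_ofPred_eq, mem_Mon] at hα
      simp only [Finset.coe_sigma, Set.mem_sigma_iff, Finset.mem_coe, Finset.mem_range]
      unfold mdg at hα
      omega
    · rintro ⟨e, a⟩ hp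
      simp only [Finset.coe_sigma, Set.mem_sigma_iff, Finset.mem_coe, Finset.mem_range] at hp
      simp only [Finset.coe_filter, Set.mem_ofPred_eq, mem_Mon]
      unfold mdg
      simp
      omega
    · intro α hα
      simp only [Finset.coe_filter, Set.mem_ofPred_eq, mem_Mon] at hα
      unfold mdg at hα
      funext i
      fin_cases i <;> simp
      omega
    · rintro ⟨e, a⟩ hp
      simp
  rw [h, Finset.card_sigma]
  simp only [Finset.card_range]
  rw [Finset.sum_range_succ, Finset.sum_range_succ, Finset.sum_range_succ, Finset.sum_range_succ,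
    Finset.sum_range_succ, Finset.sum_range_zero]
  have : 0 + (j - 0 + 1) + (j - 1 + 1) + (j - 2 + 1) + (j - 3 + 1) + (j - 4 + 1) = 5 * j - 5 := by
    omega
  rw [this, Nat.cast_sub (by omega)]
  push_cast; ring

theorem sum_Mon_gen (m c k : ℕ) (hk : 4 ≤ k * m) (F : ℕ → ℝ) :
    ∑ α ∈ Mon m c k, F (mdg α)
      = ∑ i ∈ Finset.range (k * c + 1), (5 * ((k * m + i : ℕ) : ℝ) - 5) * F (k * m + i) := by
  rw [← Finset.sum_fiberwise_of_maps_to (s := Mon m c k)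
    (t := Finset.Icc (k * m) (k * (m + c))) (g := mdg)]
  · have h1 : ∀ j ∈ Finset.Icc (k * m) (k * (m + c)),
        ∑ α ∈ Mon m c k with mdg α = j, F (mdg α) = (5 * (j : ℝ) - 5) * F j := by
      intro j hj
      rw [Finset.mem_Icc] at hj
      rw [Finset.sum_congr rfl (g := fun _ => F j)]
      · rw [Finset.sum_const, nsmul_eq_mul, fiber_card m c k j (by omega) hj.1 hj.2]
      · intro α hα
        rw [(Finset.mem_filter.mp hα).2]
    rw [Finset.sum_congr rfl h1]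
    have h2 : Finset.Icc (k * m) (k * (m + c)) = Finset.Ico (k * m) (k * m + (k * c + 1)) := by
      ext x; simp only [Finset.mem_Icc, Finset.mem_Ico]; rw [mul_add]; omega
    rw [h2, Finset.sum_Ico_eq_sum_range]
    simp
  · intro α hα
    rw [mem_Mon] at hα
    rw [Finset.mem_Icc]
    exact hα.2

theorem sum_aux (n : ℕ) (a b : ℝ) : ∑ i ∈ Finset.range (n + 1), (a + b * i)
    = a * (n + 1) + b * (n * (n + 1) / 2) := by
  induction n with
  | zero => simp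
  | succ n ih => rw [Finset.sum_range_succ, ih]; push_cast; ring

theorem sum_aux2 (n : ℕ) (a b : ℝ) : ∑ i ∈ Finset.range (n + 1), (a * i + b * i ^ 2)
    = a * (n * (n + 1) / 2) + b * (n * (n + 1) * (2 * n + 1) / 6) := by
  induction n with
  | zero => simp
  | succ n ih => rw [Finset.sum_range_succ, ih]; push_cast; ring

/-- number of monomials -/
theorem card_Mon (m c k : ℕ) (hk : 4 ≤ k * m) : ((Mon m c k).card : ℝ)
    = 5 / 2 * (((m : ℝ) + c) ^ 2 - m ^ 2) * k ^ 2 + 5 / 2 * (2 * m - c) * k - 5 := by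
  have h := sum_Mon_gen m c k hk (fun _ => 1)
  rw [Finset.sum_const, nsmul_eq_mul, mul_one] at h
  rw [h]
  have h2 : ∀ i ∈ Finset.range (k * c + 1), (5 * ((k * m + i : ℕ) : ℝ) - 5) * 1
      = (5 * (k * m) - 5 : ℝ) + 5 * i := by
    intro i _; push_cast; ring
  rw [Finset.sum_congr rfl h2, sum_aux]
  push_cast; ring

/-- sum of the weights -/
theorem sum_Mon (m c k : ℕ) (hk : 4 ≤ k * m) : ∑ α ∈ Mon m c k, ((mdg α : ℝ) - k * m)
    = 5 * ((m : ℝ) * c ^ 2 / 2 + c ^ 3 / 3) * k ^ 3 + 5 / 2 * (c * m) * k ^ 2 - 5 / 3 * c * k := by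
  have h := sum_Mon_gen m c k hk (fun j => (j : ℝ) - k * m)
  rw [h]
  have h2 : ∀ i ∈ Finset.range (k * c + 1),
      (5 * ((k * m + i : ℕ) : ℝ) - 5) * (((k * m + i : ℕ) : ℝ) - k * m)
      = (5 * (k * m) - 5 : ℝ) * i + 5 * i ^ 2 := by
    intro i _; push_cast; ring
  rw [Finset.sum_congr rfl h2, sum_aux2]
  push_cast; ring

/-! ### the monomials are sections -/

theorem n2_smul (a : ℂ) (X : Fin 3 → ℂ) : n2 (a • X) = ‖a‖ ^ 2 * n2 X := by
  unfold n2
  simp only [Pi.smul_apply, smul_eq_mul, norm_mul]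
  ring

theorem n2_pos_FSec {X : Fin 3 → ℂ} (hX : X ∈ Xc) : 0 < n2 X := by
  have h0 : X ≠ 0 := hX.1
  unfold n2
  by_contra h
  push Not at h
  apply h0
  have a0 := sq_nonneg ‖X 0‖
  have a1 := sq_nonneg ‖X 1‖
  have a2 := sq_nonneg ‖X 2‖
  have b0 : ‖X 0‖ ^ 2 = 0 := by linarith
  have b1 : ‖X 1‖ ^ 2 = 0 := by linarith
  have b2 : ‖X 2‖ ^ 2 = 0 := by linarith
  funext i
  fin_cases i
  · simpa using b0
  · simpa using b1
  · simpa using b2

theorem nv_pos {v : ℂ × ℂ} (hv : v ≠ 0) {q : ℝ} (hq : 0 < q) : 0 < ‖v.1‖ ^ 2 + ‖v.2‖ ^ 2 * q := by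
  by_contra h
  push Not at h
  apply hv
  have a1 := sq_nonneg ‖v.1‖
  have a2 := mul_nonneg (sq_nonneg ‖v.2‖) hq.le
  have b1 : ‖v.1‖ ^ 2 = 0 := by linarith
  have b2 : ‖v.2‖ ^ 2 * q = 0 := by linarith
  have b3 : ‖v.2‖ ^ 2 = 0 := by
    rcases mul_eq_zero.mp b2 with h | h
    · exact h
    · exact absurd h hq.ne'
  ext
  · simpa using b1
  · simpa using b3

theorem msec_scale {m c k : ℕ} {α : Fin 3 → ℕ} (hα : α ∈ Mon m c k) {κ κ' : Idx} {z z' : C2}
    {a b : ℂ} (ha : a ≠ 0) (h1 : PX κ z = a • PX κ' z')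
    (h2 : PV κ z = (b * (PV κ' z').1, a⁻¹ * b * (PV κ' z').2)) :
    msec m c k α κ z = a ^ (k * m) * b ^ (k * c) * msec m c k α κ' z' := by
  rw [mem_Mon] at hα
  obtain ⟨h3, h4, h5⟩ := hα
  unfold msec
  rw [h1, h2]
  simp only [Pi.smul_apply, smul_eq_mul]
  obtain ⟨p, hp⟩ := Nat.exists_eq_add_of_le h4
  have hq : k * (m + c) = k * m + k * c := by ring
  obtain ⟨q, hq'⟩ := Nat.exists_eq_add_of_le h5
  have e1 : mdg α - k * m = p := by omega
  have e2 : k * (m + c) - mdg α = q := by omega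
  have e3 : k * c = p + q := by omega
  rw [e1, e2, e3]
  have e4 : a ^ (mdg α) = a ^ (k * m) * a ^ p := by rw [hp, pow_add]
  have e5 : a ^ α 0 * a ^ α 1 * a ^ α 2 = a ^ (mdg α) := by unfold mdg; rw [pow_add, pow_add]
  have e6 : (a⁻¹) ^ p * a ^ p = 1 := by rw [← mul_pow, inv_mul_cancel₀ ha, one_pow]
  have : (a⁻¹ * b * (PV κ' z').2) ^ p * (b * (PV κ' z').1) ^ q *
      ((a * PX κ' z' 0) ^ α 0 * (a * PX κ' z' 1) ^ α 1 * (a * PX κ' z' 2) ^ α 2)
      = ((a⁻¹) ^ p * (a ^ α 0 * a ^ α 1 * a ^ α 2)) * (b ^ p * b ^ q) *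
        ((PV κ' z').2 ^ p * (PV κ' z').1 ^ q *
        (PX κ' z' 0 ^ α 0 * PX κ' z' 1 ^ α 1 * PX κ' z' 2 ^ α 2)) := by
    simp only [mul_pow]; ring
  rw [this, e5, e4, pow_add b]
  calc _ = ((a⁻¹) ^ p * a ^ p) * (a ^ (k * m) * (b ^ p * b ^ q) *
        ((PV κ' z').2 ^ p * (PV κ' z').1 ^ q *
        (PX κ' z' 0 ^ α 0 * PX κ' z' 1 ^ α 1 * PX κ' z' 2 ^ α 2))) := by ring
    _ = _ := by rw [e6]; ring

theorem Phi0_scale {m c : ℝ} {κ κ' : Idx} {z z' : C2} {a b : ℂ} (ha : a ≠ 0) (hb : b ≠ 0)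
    (h1 : PX κ z = a • PX κ' z') (h2 : PV κ z = (b * (PV κ' z').1, a⁻¹ * b * (PV κ' z').2))
    (hX : PX κ' z' ∈ Xc) (hV : PV κ' z' ≠ 0) :
    Phi0 m c κ z = m * Real.log (‖a‖ ^ 2) + c * Real.log (‖b‖ ^ 2) + Phi0 m c κ' z' := by
  unfold Phi0
  have ha' : 0 < ‖a‖ ^ 2 := by positivity
  have hb' : 0 < ‖b‖ ^ 2 := by positivity
  have hX' := n2_pos hX
  have hV' := nv_pos hV hX'
  rw [h1, n2_smul, Real.log_mul ha'.ne' hX'.ne']
  have e : ‖(PV κ z).1‖ ^ 2 + ‖(PV κ z).2‖ ^ 2 * (‖a‖ ^ 2 * n2 (PX κ' z'))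
      = ‖b‖ ^ 2 * (‖(PV κ' z').1‖ ^ 2 + ‖(PV κ' z').2‖ ^ 2 * n2 (PX κ' z')) := by
    rw [h2]
    simp only [norm_mul, norm_inv]
    have : ‖a‖ ≠ 0 := by simpa using ha
    field_simp
  rw [e, Real.log_mul hb'.ne' hV'.ne']
  ring

/-- the monomials are sections -/
theorem isSec_msec (m c k : ℕ) {h : FM → ℝ} (hh : SF.Sm h) :
    SF.IsSec (Phi0 m c + SF.fnF h) k (fun α : Mon m c k => msec m c k α) := by
  constructor
  · intro α κ
    rw [SF_target]
    unfold msec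
    apply ContDiffOn.mul
    · exact (((contDiff_PV2 κ).contDiffOn).pow _).mul (((contDiff_PV1 κ).contDiffOn).pow _)
    · exact (((contDiffOn_PX κ 0).pow _).mul ((contDiffOn_PX κ 1).pow _)).mul
        ((contDiffOn_PX κ 2).pow _)
  · intro α β κ κ' z hz
    obtain ⟨a, b, -, -, hab⟩ := SF_ovl κ κ'
    obtain ⟨ha, hb, -, h1, h2⟩ := hab z hz
    have hz' : SF.tr κ κ' z ∈ tg κ' := by
      rw [← SF_target]
      exact (SF.ch κ').map_source hz.2
    have hX := PX_mem κ' hz'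
    have hV := PV_ne κ' (SF.tr κ κ' z)
    have hP := Phi0_scale (m := (m : ℝ)) (c := (c : ℝ)) ha hb h1 h2 hX hV
    have hfn : SF.fnF h κ' (SF.tr κ κ' z) = SF.fnF h κ z := by
      unfold CSurf.fnF CSurf.tr
      rw [(SF.ch κ').left_inv hz.2]
    simp only [msec_scale α.2 ha h1 h2, msec_scale β.2 ha h1 h2]
    have hE : Real.exp (-(k : ℝ) * (Phi0 m c + SF.fnF h) κ z)
        = ((‖a z‖ ^ 2) ^ (k * m))⁻¹ * ((‖b z‖ ^ 2) ^ (k * c))⁻¹ *
            Real.exp (-(k : ℝ) * (Phi0 m c + SF.fnF h) κ' (SF.tr κ κ' z)) := by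
      have e1 : (Phi0 m c + SF.fnF h) κ z = Phi0 m c κ z + SF.fnF h κ z := rfl
      have e2 : (Phi0 m c + SF.fnF h) κ' (SF.tr κ κ' z)
        = Phi0 m c κ' (SF.tr κ κ' z) + SF.fnF h κ z := by
        rw [← hfn]; rfl
      rw [e1, e2, hP]
      have ha' : 0 < ‖a z‖ ^ 2 := by positivity
      have hb' : 0 < ‖b z‖ ^ 2 := by positivity
      have e3 : ((‖a z‖ ^ 2) ^ (k * m))⁻¹ = Real.exp (-((k * m : ℕ) : ℝ) * Real.log (‖a z‖ ^ 2)) := by
        rw [neg_mul, Real.exp_neg, ← Real.log_pow, Real.exp_log (by positivity)]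
      have e4 : ((‖b z‖ ^ 2) ^ (k * c))⁻¹ = Real.exp (-((k * c : ℕ) : ℝ) * Real.log (‖b z‖ ^ 2)) := by
        rw [neg_mul, Real.exp_neg, ← Real.log_pow, Real.exp_log (by positivity)]
      rw [e3, e4, ← Real.exp_add, ← Real.exp_add]
      congr 1
      push_cast
      ring
    rw [hE]
    have ha2 : (a z) ^ (k * m) * conj ((a z) ^ (k * m)) = (((‖a z‖ ^ 2) ^ (k * m) : ℝ) : ℂ) := by
      rw [Complex.mul_conj, Complex.normSq_eq_norm_sq, norm_pow]
      push_cast; ring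
    have hb2 : (b z) ^ (k * c) * conj ((b z) ^ (k * c)) = (((‖b z‖ ^ 2) ^ (k * c) : ℝ) : ℂ) := by
      rw [Complex.mul_conj, Complex.normSq_eq_norm_sq, norm_pow]
      push_cast; ring
    have key : ∀ (A B S T : ℂ) (x y e : ℝ), x ≠ 0 → y ≠ 0 → A * conj A = (x : ℂ) →
        B * conj B = (y : ℂ) →
        A * B * S * conj (A * B * T) * ((x⁻¹ * y⁻¹ * e : ℝ) : ℂ) = S * conj T * (e : ℂ) := by
      intro A B S T x y e hx hy h3 h4
      have hx' : (x : ℂ) ≠ 0 := by exact_mod_cast hx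
      have hy' : (y : ℂ) ≠ 0 := by exact_mod_cast hy
      simp only [map_mul]
      calc A * B * S * (conj A * conj B * conj T) * ((x⁻¹ * y⁻¹ * e : ℝ) : ℂ)
          = (A * conj A) * (B * conj B) * (S * conj T) * ((x⁻¹ * y⁻¹ * e : ℝ) : ℂ) := by ring
        _ = _ := by
          rw [h3, h4]
          push_cast
          field_simp
    exact key _ _ _ _ _ _ _ (by positivity) (by positivity) ha2 hb2

end

end Pool.Agent.KS
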