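import Pool.Agent.KS.FForms
import Pool.Agent.KS.Radial

/-!
# Topological integrals on `FM` (module FTOP)
-/

namespace Pool.Agent.KS

open MeasureTheory Complex Topology
open scoped ContDiff Matrix ComplexOrder ComplexConjugate Manifold

noncomputable section

/-- the set `{x : x^5 real}` is null -/
theorem volume_fifth_real : volume {x : ℂ | (x ^ 5).im = 0} = 0 := by
  have hfin : Set.Finite {y : ℂ | y ^ 10 = 1} := by
    have h : {y : ℂ | y ^ 10 = 1} ⊆ ((Polynomial.nthRootsFinset 10 (1 : ℂ) : Finset ℂ) : Set ℂ) := by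
      intro y hy
      rw [Finset.mem_coe, Polynomial.mem_nthRootsFinset (by norm_num)]
      exact hy
    exact (Finset.finite_toSet _).subset h
  have hsub : {x : ℂ | (x ^ 5).im = 0} ⊆ ⋃ y ∈ {y : ℂ | y ^ 10 = 1},
      ((Submodule.span ℝ {y} : Submodule ℝ ℂ) : Set ℂ) := by
    intro x hx
    rw [Set.mem_ofPred_eq] at hx
    by_cases h0 : x = 0
    · rw [Set.mem_iUnion₂]
      exact ⟨1, by simp, by rw [h0]; exact Submodule.zero_mem _⟩
    · have hn : (‖x‖ : ℂ) ≠ 0 := by exact_mod_cast (norm_ne_zero_iff.mpr h0)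
      rw [Set.mem_iUnion₂]
      refine ⟨x / (‖x‖ : ℂ), ?_, ?_⟩
      · rw [Set.mem_ofPred_eq, div_pow, div_eq_one_iff_eq (pow_ne_zero _ hn)]
        have h1 : x ^ 5 = ((x ^ 5).re : ℂ) := by
          apply Complex.ext
          · simp
          · simp [hx]
        have h2 : |(x ^ 5).re| = ‖x‖ ^ 5 := by
          rw [← norm_pow, h1, Complex.ofReal_re, Complex.norm_real, Real.norm_eq_abs]
        calc x ^ 10 = (x ^ 5) ^ 2 := by ring
          _ = (((x ^ 5).re : ℝ) : ℂ) ^ 2 := by rw [← h1]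
          _ = (((|(x ^ 5).re|) ^ 2 : ℝ) : ℂ) := by rw [sq_abs]; push_cast; rfl
          _ = (‖x‖ : ℂ) ^ 10 := by rw [h2]; push_cast; ring
      · have : x = (‖x‖ : ℝ) • (x / (‖x‖ : ℂ)) := by
          rw [Complex.real_smul, mul_div_cancel₀ _ hn]
        have h := Submodule.smul_mem (Submodule.span ℝ {x / (‖x‖ : ℂ)}) ‖x‖
          (Submodule.mem_span_singleton_self _)
        rw [← this] at h
        exact h
  refine measure_mono_null hsub ?_
  rw [measure_biUnion_null_iff hfin.countable]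
  intro y _
  apply Measure.addHaar_submodule
  intro htop
  have h1 := finrank_span_le_card (R := ℝ) ({y} : Set ℂ)
  rw [htop, finrank_top, Complex.finrank_real_complex, Set.toFinset_singleton,
    Finset.card_singleton] at h1
  omega

/-- null sets of `C2` -/
theorem volume_bad : volume {z : C2 | ((z 0) ^ 5).im = 0 ∨ z 1 = 0} = 0 := by
  have h1 : volume {z : C2 | ((z 0) ^ 5).im = 0} = 0 :=
    Measure.pi_eval_preimage_null (fun _ : Fin 2 => (volume : Measure ℂ)) (i := 0) volume_fifth_real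
  have h2 : volume {z : C2 | z 1 = 0} = 0 :=
    Measure.pi_eval_preimage_null (fun _ : Fin 2 => (volume : Measure ℂ)) (i := 1)
      (s := {0}) (by simp)
  have : {z : C2 | ((z 0) ^ 5).im = 0 ∨ z 1 = 0} = {z : C2 | ((z 0) ^ 5).im = 0} ∪ {z : C2 | z 1 = 0} :=
    rfl
  rw [this]
  exact measure_union_null h1 h2

/-- the even indices -/
abbrev ev5 : Finset (Fin 10) := {0, 2, 4, 6, 8}

theorem norm_zt (b : Fin 10) : ‖zt b‖ = 1 := by
  unfold zt
  rw [show (2 * Real.pi * I * ((b : ℕ) : ℂ) / 10 : ℂ) = ((2 * Real.pi * (b : ℕ) / 10 : ℝ) : ℂ) * I by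
    push_cast; ring]
  exact Complex.norm_exp_ofReal_mul_I _

theorem zt_ne (b : Fin 10) : zt b ≠ 0 := by
  rw [← norm_ne_zero_iff, norm_zt]; norm_num

theorem polar_zt (y : ℂ) (b : Fin 10) :
    y = (‖y‖ : ℂ) * Complex.exp (((Complex.arg (y / zt b) + 2 * Real.pi * (b : ℕ) / 10 : ℝ) : ℂ) * I) := by
  have h1 : y / zt b = (‖y‖ : ℂ) * Complex.exp ((Complex.arg (y / zt b) : ℂ) * I) := by
    have h := Complex.norm_mul_exp_arg_mul_I (y / zt b)
    rw [norm_div, norm_zt, div_one] at h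
    exact h.symm
  have h2 : y = (y / zt b) * zt b := by rw [div_mul_cancel₀ _ (zt_ne b)]
  have h3 : zt b = Complex.exp (((2 * Real.pi * (b : ℕ) / 10 : ℝ) : ℂ) * I) := by
    unfold zt
    congr 1
    push_cast
    ring
  rw [Complex.ofReal_add, add_mul, Complex.exp_add, ← mul_assoc, ← h1, ← h3]
  exact h2

theorem sector_disj {y : ℂ} (hy : y ≠ 0) {b b' : Fin 10} (hb : b ∈ ev5) (hb' : b' ∈ ev5)
    (h1 : |Complex.arg (y / zt b)| < Real.pi / 5) (h2 : |Complex.arg (y / zt b')| < Real.pi / 5) :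
    b = b' := by
  have hn : (‖y‖ : ℂ) ≠ 0 := by exact_mod_cast (norm_ne_zero_iff.mpr hy)
  have e := (polar_zt y b).symm.trans (polar_zt y b')
  have e2 := mul_left_cancel₀ hn e
  rw [Complex.exp_eq_exp_iff_exists_int] at e2
  obtain ⟨n, hn2⟩ := e2
  have e3 : Complex.arg (y / zt b) + 2 * Real.pi * (b : ℕ) / 10
      = Complex.arg (y / zt b') + 2 * Real.pi * (b' : ℕ) / 10 + n * (2 * Real.pi) := by
    have h := congrArg Complex.im hn2
    simpa using h
  have hpi := Real.pi_pos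
  rw [abs_lt] at h1 h2
  have e4 : Real.pi * (((b : ℕ) : ℝ) - (b' : ℕ) - 10 * n)
      = 5 * (Complex.arg (y / zt b') - Complex.arg (y / zt b)) := by
    linear_combination 5 * e3
  have e5 : -2 < (((b : ℕ) : ℝ) - (b' : ℕ) - 10 * n) := by
    by_contra hcon
    push Not at hcon
    nlinarith
  have e6 : (((b : ℕ) : ℝ) - (b' : ℕ) - 10 * n) < 2 := by
    by_contra hcon
    push Not at hcon
    nlinarith
  have e7 : (-2 : ℤ) < ((b : ℕ) : ℤ) - (b' : ℕ) - 10 * n := by exact_mod_cast e5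
  have e8 : ((b : ℕ) : ℤ) - (b' : ℕ) - 10 * n < (2 : ℤ) := by exact_mod_cast e6
  have hev : ∀ c : Fin 10, c ∈ ev5 → (c : ℕ) % 2 = 0 := by decide
  have g1 := hev b hb
  have g2 := hev b' hb'
  have g3 := b.2
  have g4 := b'.2
  apply Fin.ext
  omega

theorem ev5_mem : ∀ r : Fin 5, (⟨2 * r.1, by omega⟩ : Fin 10) ∈ ev5 := by decide

theorem sector_cover {y : ℂ}
    (h : ∀ b ∈ ev5, ¬ |Complex.arg (y / zt b)| < Real.pi / 5) : (y ^ 5).im = 0 := by
  have hpi := Real.pi_pos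
  set θ := Complex.arg y with hθ
  set n : ℤ := round (5 * θ / (2 * Real.pi)) with hn
  have hr : |5 * θ / (2 * Real.pi) - n| ≤ 1 / 2 := abs_sub_round _
  set δ : ℝ := θ - 2 * Real.pi * n / 5 with hδ
  have hδ1 : |δ| ≤ Real.pi / 5 := by
    have : δ = (2 * Real.pi / 5) * (5 * θ / (2 * Real.pi) - n) := by
      rw [hδ]; field_simp
    rw [this, abs_mul, abs_of_pos (by positivity)]
    calc 2 * Real.pi / 5 * |5 * θ / (2 * Real.pi) - n| ≤ 2 * Real.pi / 5 * (1 / 2) := by gcongr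
      _ = Real.pi / 5 := by ring
  obtain ⟨r, q, hr5, hnq⟩ : ∃ r : ℕ, ∃ q : ℤ, r < 5 ∧ n = 5 * q + r :=
    ⟨(n % 5).toNat, n / 5, by omega, by omega⟩
  have hbm : (⟨2 * r, by omega⟩ : Fin 10) ∈ ev5 := ev5_mem ⟨r, hr5⟩
  have hy0 : y = (‖y‖ : ℂ) * Complex.exp ((θ : ℂ) * I) := (Complex.norm_mul_exp_arg_mul_I y).symm
  have hz : zt ⟨2 * r, by omega⟩ = Complex.exp (((2 * Real.pi * n / 5 : ℝ) : ℂ) * I) := by
    unfold zt
    rw [Complex.exp_eq_exp_iff_exists_int]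
    refine ⟨-q, ?_⟩
    rw [hnq]
    push_cast
    ring
  have hdiv : y / zt ⟨2 * r, by omega⟩ = (‖y‖ : ℂ) * Complex.exp ((δ : ℂ) * I) := by
    rw [hz]
    nth_rewrite 1 [hy0]
    rw [mul_div_assoc, ← Complex.exp_sub]
    congr 2
    rw [hδ]
    push_cast
    ring
  by_cases hy : y = 0
  · rw [hy]; simp
  have harg : Complex.arg (y / zt ⟨2 * r, by omega⟩) = δ := by
    rw [hdiv, Complex.arg_real_mul _ (norm_pos_iff.mpr hy), Complex.exp_mul_I]
    apply Complex.arg_cos_add_sin_mul_I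
    rw [abs_le] at hδ1
    constructor <;> linarith
  have h1 := h _ hbm
  rw [harg] at h1
  have h2 : |δ| = Real.pi / 5 := le_antisymm hδ1 (not_lt.mp h1)
  have h3 : Complex.exp (5 * ((θ : ℂ) * I)) = -1 := by
    rcases (abs_eq (by positivity)).mp h2 with h4 | h4
    · have : (5 * ((θ : ℂ) * I)) = Real.pi * I + n * (2 * Real.pi * I) := by
        have h5 : θ = Real.pi / 5 + 2 * Real.pi * n / 5 := by rw [← h4, hδ]; ring
        rw [h5]; push_cast; ring
      rw [this, Complex.exp_add, Complex.exp_int_mul_two_pi_mul_I, Complex.exp_pi_mul_I, mul_one]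
    · have : (5 * ((θ : ℂ) * I)) = -(Real.pi * I) + n * (2 * Real.pi * I) := by
        have h5 : θ = -(Real.pi / 5) + 2 * Real.pi * n / 5 := by rw [← h4, hδ]; ring
        rw [h5]; push_cast; ring
      rw [this, Complex.exp_add, Complex.exp_int_mul_two_pi_mul_I, Complex.exp_neg,
        Complex.exp_pi_mul_I]
      norm_num
  rw [hy0, mul_pow, ← Complex.exp_nat_mul]
  rw [show ((5 : ℕ) : ℂ) * ((θ : ℂ) * I) = 5 * ((θ : ℂ) * I) by norm_num, h3]
  have : (‖y‖ : ℂ) ^ 5 * -1 = ((-(‖y‖ ^ 5) : ℝ) : ℂ) := by push_cast; ring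
  rw [this, Complex.ofReal_im]

theorem source_five {b : Fin 10} {X : Fin 3 → ℂ} {v : ℂ × ℂ} (hX : X ∈ Xc) (hv : v ≠ 0) :
    pt X v ∈ (SF.ch (0, b, true)).source ↔ X 2 ≠ 0 ∧ v.1 ≠ 0 ∧
      X 1 ≠ 0 ∧ |Complex.arg (X 1 / X 2 / zt b)| < Real.pi / 5 := by
  have h := SF_source (0, b, true) hX hv
  simpa using h

theorem five_disj : (↑ev5 : Set (Fin 10)).Pairwise
    (Function.onFun Disjoint fun b : Fin 10 => (SF.ch (0, b, true)).source) := by
  intro b hb b' hb' hne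
  rw [Function.onFun, Set.disjoint_left]
  intro x hx hx'
  obtain ⟨X, hX, v, hv, rfl⟩ := pt_surj x
  rw [source_five hX hv] at hx hx'
  have hy : X 1 / X 2 ≠ 0 := div_ne_zero hx.2.2.1 hx.1
  exact hne (sector_disj hy (by simpa using hb) (by simpa using hb') hx.2.2.2 hx'.2.2.2)

/-- the complement of the five chart domains -/
theorem five_bad (κ : Idx) {z : C2} (hz : z ∈ tg κ)
    (hn : (SF.ch κ).symm z ∉ ⋃ b ∈ ev5, (SF.ch (0, b, true)).source) :
    ((z 0) ^ 5).im = 0 ∨ z 1 = 0 := by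
  rw [SF_symm κ hz] at hn
  have hX := PX_mem κ hz
  have hv := PV_ne κ z
  have h1 : ∀ b ∈ ev5, ¬ (PX κ z 2 ≠ 0 ∧ (PV κ z).1 ≠ 0 ∧
      PX κ z 1 ≠ 0 ∧ |Complex.arg (PX κ z 1 / PX κ z 2 / zt b)| < Real.pi / 5) := by
    intro b hb hcon
    apply hn
    rw [Set.mem_iUnion₂]
    exact ⟨b, hb, (source_five hX hv).mpr hcon⟩
  by_cases hv1 : (PV κ z).1 = 0
  · right
    unfold PV at hv1
    split_ifs at hv1 with hty
    · simp at hv1
    · exact hv1
  left
  have hsum := hX.2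
  have h2 : PX κ z 2 = 0 ∨ PX κ z 1 = 0 ∨ ((PX κ z 1 / PX κ z 2) ^ 5).im = 0 := by
    by_cases g1 : PX κ z 2 = 0
    · exact Or.inl g1
    by_cases g2 : PX κ z 1 = 0
    · exact Or.inr (Or.inl g2)
    refine Or.inr (Or.inr (sector_cover (fun b hb hcon => h1 b hb ⟨g1, hv1, g2, hcon⟩)))
  have real_of : ∀ w : ℂ, ∀ r : ℝ, w = r → w.im = 0 := fun w r h => by rw [h, Complex.ofReal_im]
  obtain ⟨l, b, ty⟩ := κ
  have hl : l = 0 ∨ l = 1 ∨ l = 2 := by fin_cases l <;> simp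
  rcases hl with rfl | rfl | rfl
  · have e0 : PX (0, b, ty) z 0 = z 0 := by simp [PX]
    have e2 : PX (0, b, ty) z 2 = 1 := by simp [PX]
    rw [e0, e2] at hsum
    rw [e2] at h2
    rcases h2 with h2 | h2 | h2
    · simp at h2
    · rw [h2] at hsum
      apply real_of _ (-1)
      push_cast
      linear_combination hsum
    · rw [div_one] at h2
      have : z 0 ^ 5 = -1 - PX (0, b, ty) z 1 ^ 5 := by linear_combination hsum
      rw [this, Complex.sub_im, h2]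
      simp
  · have e0 : PX (1, b, ty) z 0 = 1 := by simp [PX]
    have e1 : PX (1, b, ty) z 1 = z 0 := by simp [PX]
    rw [e0, e1] at hsum
    rw [e1] at h2
    rcases h2 with h2 | h2 | h2
    · rw [h2] at hsum
      apply real_of _ (-1)
      push_cast
      linear_combination hsum
    · rw [h2]; simp
    · by_cases g : PX (1, b, ty) z 2 = 0
      · rw [g] at hsum
        apply real_of _ (-1)
        push_cast
        linear_combination hsum
      · set w := z 0 ^ 5 with hw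
        set r := (z 0 / PX (1, b, ty) z 2) ^ 5 with hr
        have h3 : w = r * PX (1, b, ty) z 2 ^ 5 := by
          rw [hr, div_pow, div_mul_cancel₀ _ (pow_ne_zero 5 g)]
        have h4 : w * (1 + r) = -r := by
          have : PX (1, b, ty) z 2 ^ 5 = -(1 + w) := by linear_combination hsum
          rw [this] at h3
          linear_combination h3
        have hrr : r = (r.re : ℂ) := by
          apply Complex.ext
          · simp
          · simp [h2]
        by_cases h5 : 1 + r.re = 0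
        · exfalso
          have h6 : (1 : ℂ) + r = 0 := by
            rw [hrr]
            exact_mod_cast h5
          rw [h6, mul_zero] at h4
          have h7 : r = 0 := by linear_combination h4
          rw [h7] at h6
          simp at h6
        · have h6 := congrArg Complex.im h4
          rw [hrr] at h6
          have h7 : ((1 : ℂ) + (r.re : ℂ)) = ((1 + r.re : ℝ) : ℂ) := by push_cast; rfl
          rw [h7, Complex.im_mul_ofReal, ← Complex.ofReal_neg, Complex.ofReal_im] at h6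
          rcases mul_eq_zero.mp h6 with h8 | h8
          · exact h8
          · exact absurd h8 h5
  · have e1 : PX (2, b, ty) z 1 = 1 := by simp [PX]
    have e2 : PX (2, b, ty) z 2 = z 0 := by simp [PX]
    rw [e1, e2] at h2
    rcases h2 with h2 | h2 | h2
    · rw [h2]; simp
    · simp at h2
    · rw [one_div, inv_pow, Complex.inv_im] at h2
      rcases div_eq_zero_iff.mp h2 with h3 | h3
      · linarith
      · rw [Complex.normSq_eq_zero] at h3
        rw [h3]; simp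

/-- up to a null set `FM` is the disjoint union of the five chart domains `(0, 2j, true)` -/
theorem integral_five {φ : Idx → C2 → ℝ} {ν : Measure FM} (hφ : SF.IsKah φ)
    (hν : SF.IsVolF φ ν) {f : FM → ℝ} (hf : Continuous f) :
    ∫ x, f x ∂ν = ∑ b ∈ ({0, 2, 4, 6, 8} : Finset (Fin 10)),
      ∫ z in tg (0, b, true), dt (φ (0, b, true)) z * f ((SF.ch (0, b, true)).symm z) := by
  have hnull : ν (⋃ b ∈ ev5, (SF.ch (0, b, true)).source)ᶜ = 0 := by
    apply CSurf.IsVolF.null hφ hν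
    intro κ
    refine measure_mono_null ?_ volume_bad
    intro z hz
    rw [SF_target] at hz
    exact five_bad κ hz.1 hz.2
  have hint : Integrable f ν := CSurf.integrable_of_sm hφ hν hf
  have h1 : ∫ x in ⋃ b ∈ ev5, (SF.ch (0, b, true)).source, f x ∂ν = ∫ x, f x ∂ν := by
    apply setIntegral_eq_integral_of_ae_compl_eq_zero
    have h2 : ∀ᵐ x ∂ν, x ∈ ⋃ b ∈ ev5, (SF.ch (0, b, true)).source := by
      rw [ae_iff]
      exact hnull
    filter_upwards [h2] with x hx hx' using absurd hx hx'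
  rw [← h1, integral_biUnion_finset ev5 (fun b _ => (SF.ch (0, b, true)).open_source.measurableSet)
    five_disj (fun b _ => hint.integrableOn)]
  refine Finset.sum_congr rfl (fun b _ => ?_)
  rw [CSurf.IsVolF.integral hφ hν (0, b, true) f, SF_target]
  simp only [smul_eq_mul]

/-! ### The radial potentials in the five charts -/

theorem tg_compl_null {b : Fin 10} (hb : b ∈ ev5) : volume (tg (0, b, true))ᶜ = 0 := by
  refine measure_mono_null ?_ volume_bad
  intro z hz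
  left
  have h1 : zt b ^ 5 = 1 := by
    unfold zt
    rw [← Complex.exp_nat_mul]
    have hev : ∀ c : Fin 10, c ∈ ev5 → ∃ d : ℕ, (c : ℕ) = 2 * d := by
      intro c hc
      have : ∀ c : Fin 10, c ∈ ev5 → (c : ℕ) % 2 = 0 := by decide
      exact ⟨(c : ℕ) / 2, by have := this c hc; omega⟩
    obtain ⟨d, hd⟩ := hev b hb
    rw [hd]
    rw [Complex.exp_eq_one_iff]
    refine ⟨d, ?_⟩
    push_cast
    ring
  have h2 : ¬ (-(1 + z 0 ^ 5) ∈ slitPlane) := by
    intro h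
    apply hz
    change -(1 + z 0 ^ 5) / zt b ^ 5 ∈ slitPlane
    rw [h1, div_one]
    exact h
  rw [Complex.mem_slitPlane_iff, not_or, not_not] at h2
  have h3 := h2.2
  simpa using h3

theorem PV_true (b : Fin 10) (z : C2) : PV (0, b, true) z = (1, z 1) := by simp [PV]

theorem n1_PX (b : Fin 10) (ty : Bool) (z : C2) : n1 (PX (0, b, ty) z) = 1 + ‖z 0‖ ^ 2 := by
  simp [n1, PX, add_comm]

theorem exp_ll {z : C2} (hz : z 1 ≠ 0) : Real.exp (ll z) = ‖z 1‖ ^ 2 * (1 + ‖z 0‖ ^ 2) := by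
  unfold ll
  rw [Real.exp_add, Real.exp_log (by positivity), Real.exp_log (by positivity)]

theorem Psi_eq_chi (m c t : ℝ) (b : Fin 10) {z : C2} (hz : z 1 ≠ 0) :
    Psi m c t (0, b, true) z = chi m c t (ll z) - m * Real.log (‖z 1‖ ^ 2) := by
  unfold Psi chi
  rw [n1_PX, PV_true, Real.exp_add, exp_ll hz]
  simp only [norm_one, one_pow]
  unfold ll
  have : 1 + Real.exp t * ‖z 1‖ ^ 2 * (1 + ‖z 0‖ ^ 2)
      = 1 + ‖z 1‖ ^ 2 * (1 + ‖z 0‖ ^ 2) * Real.exp t := by ring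
  rw [this]
  ring

theorem cHess_Psi (m c t : ℝ) (b : Fin 10) {z : C2} (hz : z 1 ≠ 0) :
    cHess (Psi m c t (0, b, true)) z = cHess (fun w => chi m c t (ll w)) z := by
  have hopen : IsOpen {w : C2 | w 1 ≠ 0} := isOpen_ne_fun (by fun_prop) (by fun_prop)
  have h1 : Psi m c t (0, b, true) =ᶠ[𝓝 z]
      fun w => chi m c t (ll w) - m * Real.log (‖w 1‖ ^ 2) := by
    filter_upwards [hopen.mem_nhds hz] with w hw using Psi_eq_chi m c t b hw
  have c1 : ContDiffAt ℝ 2 (fun w : C2 => chi m c t (ll w)) z :=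
    ((contDiff_chi m c t).contDiffAt.of_le (WithTop.coe_le_coe.mpr le_top)).comp z
      (contDiffAt_ll hz)
  have c2 : ContDiffAt ℝ 2 (fun w : C2 => Real.log (‖w 1‖ ^ 2)) z :=
    (contDiffAt_norm_sq_coord 1 z).log (by positivity)
  have h2 : cHess (fun w : C2 => Real.log (‖w 1‖ ^ 2)) z = 0 :=
    cHess_log_norm_sq (h := fun w : C2 => w 1) (by fun_prop) hz
  rw [cHess_congr h1, cHess_sub c1 (contDiffAt_const.mul c2), cHess_const_mul m c2, h2]
  simp

/-- the radial density -/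
def rden (m₁ c₁ t₁ m₂ c₂ t₂ : ℝ) (z : C2) : ℝ :=
  (1 / 2) * (deriv (chi m₁ c₁ t₁) (ll z) * deriv (deriv (chi m₂ c₂ t₂)) (ll z)
    + deriv (deriv (chi m₁ c₁ t₁)) (ll z) * deriv (chi m₂ c₂ t₂) (ll z))
    / ((1 + ‖z 0‖ ^ 2) ^ 2 * ‖z 1‖ ^ 2)

theorem Dm_Psi (m₁ c₁ t₁ m₂ c₂ t₂ : ℝ) (b : Fin 10) {z : C2} (hz : z 1 ≠ 0) :
    Dm (Psi m₁ c₁ t₁ (0, b, true)) (Psi m₂ c₂ t₂ (0, b, true)) z = rden m₁ c₁ t₁ m₂ c₂ t₂ z := by
  unfold Dm
  rw [cHess_Psi m₁ c₁ t₁ b hz, cHess_Psi m₂ c₂ t₂ b hz]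
  exact Dm_radial (contDiff_chi _ _ _) (contDiff_chi _ _ _) hz

theorem ae_z1 : ∀ᵐ z : C2, z 1 ≠ 0 := by
  rw [ae_iff]
  refine measure_mono_null ?_ volume_bad
  intro z hz
  right
  simpa using hz

/-- integrals over a chart of the five -/
theorem integral_tg {b : Fin 10} (hb : b ∈ ev5) {F G : C2 → ℝ}
    (h : ∀ z ∈ tg (0, b, true), z 1 ≠ 0 → F z = G z) :
    ∫ z in tg (0, b, true), F z = ∫ z, G z := by
  have h1 : ∫ z in tg (0, b, true), F z = ∫ z in tg (0, b, true), G z := by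
    apply setIntegral_congr_ae (isOpen_tg _).measurableSet
    filter_upwards [ae_z1] with z hz hzt using h z hzt hz
  rw [h1]
  have h2 : (volume : Measure C2).restrict (tg (0, b, true)) = volume := by
    apply Measure.restrict_eq_self_of_ae_mem
    rw [ae_iff]
    exact tg_compl_null hb
  rw [h2]

theorem integral_den_Psi {φ : Idx → C2 → ℝ} {ν : Measure FM} (hφ : SF.IsKah φ)
    (hν : SF.IsVolF φ ν) (m₁ c₁ t₁ m₂ c₂ t₂ : ℝ) :
    ∫ x, SF.den φ (Psi m₁ c₁ t₁) (Psi m₂ c₂ t₂) x ∂ν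
      = 5 * Real.pi ^ 2 * (((m₁ + c₁) * (m₂ + c₂) - m₁ * m₂) / 2) := by
  have hf : Continuous (SF.den φ (Psi m₁ c₁ t₁) (Psi m₂ c₂ t₂)) :=
    (CSurf.sm_den hφ (isFrm_Psi m₁ c₁ t₁) (isFrm_Psi m₂ c₂ t₂)).continuous
  rw [integral_five hφ hν hf]
  have h1 : ∀ b ∈ ev5, ∫ z in tg (0, b, true), dt (φ (0, b, true)) z
      * SF.den φ (Psi m₁ c₁ t₁) (Psi m₂ c₂ t₂) ((SF.ch (0, b, true)).symm z)
      = Real.pi ^ 2 * (((m₁ + c₁) * (m₂ + c₂) - m₁ * m₂) / 2) := by
    intro b hb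
    rw [← (integral_Dm_chi m₁ c₁ t₁ m₂ c₂ t₂).2]
    apply integral_tg hb
    intro z hz hz1
    have hzt : z ∈ (SF.ch (0, b, true)).target := by rw [SF_target]; exact hz
    rw [CSurf.den_eq hφ (isFrm_Psi m₁ c₁ t₁) (isFrm_Psi m₂ c₂ t₂) (0, b, true)
      ((SF.ch (0, b, true)).map_target hzt), (SF.ch (0, b, true)).right_inv hzt,
      mul_div_cancel₀ _ (CSurf.IsKah.dt_pos hφ (0, b, true) hzt).ne']
    exact Dm_Psi m₁ c₁ t₁ m₂ c₂ t₂ b hz1
  rw [Finset.sum_congr rfl h1, Finset.sum_const]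
  have : ({0, 2, 4, 6, 8} : Finset (Fin 10)).card = 5 := by decide
  rw [this]
  simp only [nsmul_eq_mul, Nat.cast_ofNat]
  ring

/-! ### Mass, total scalar curvature, energy -/

theorem den_congr_tg {φ A A' B B' : Idx → C2 → ℝ} (hA : ∀ κ, ∀ z ∈ tg κ, A κ z = A' κ z)
    (hB : ∀ κ, ∀ z ∈ tg κ, B κ z = B' κ z) (x : FM) : SF.den φ A B x = SF.den φ A' B' x := by
  unfold CSurf.den Dm
  have hz : SF.ch (SF.idx x) x ∈ tg (SF.idx x) := by
    rw [← SF_target]
    exact (SF.ch (SF.idx x)).map_source (SF.idx_mem x)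
  have hn := (isOpen_tg (SF.idx x)).mem_nhds hz
  rw [cHess_congr (u := A (SF.idx x)) (v := A' (SF.idx x))
      (by filter_upwards [hn] with w hw using hA _ w hw),
    cHess_congr (u := B (SF.idx x)) (v := B' (SF.idx x))
      (by filter_upwards [hn] with w hw using hB _ w hw)]

theorem fnF_apply (u : FM → ℝ) (κ : Idx) (z : C2) : SF.fnF u κ z = u ((SF.ch κ).symm z) := rfl

/-- total mass of the class -/
theorem mass_FM {m c : ℝ} {h : FM → ℝ} (hh : SF.Sm h) (hφ : SF.IsKah (Phi0 m c + SF.fnF h))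
    {ν : Measure FM} (hν : SF.IsVolF (Phi0 m c + SF.fnF h) ν) :
    ν.real Set.univ = Real.pi ^ 2 * (5 / 2 * ((m + c) ^ 2 - m ^ 2)) := by
  obtain ⟨ψ, hψ, hψ1, -⟩ := exists_psi m c hh
  set φ := Phi0 m c + SF.fnF h with hφd
  have h1 := CSurf.integral_den_add_fnF hφ hν (hψ.sm 0) (hψ.sm 0)
  have h2 : ∀ κ, ∀ z ∈ tg κ, (φ + SF.fnF (ψ 0)) κ z = Psi m c 0 κ z := by
    intro κ z hz
    rw [← hψ1 0 κ z hz]
    rfl
  rw [← h1]
  simp only [den_congr_tg h2 h2]
  rw [integral_den_Psi hφ hν]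
  ring

/-- total scalar curvature of the class -/
theorem scal_FM {m c : ℝ} {h : FM → ℝ} (hh : SF.Sm h) (hφ : SF.IsKah (Phi0 m c + SF.fnF h))
    {ν : Measure FM} (hν : SF.IsVolF (Phi0 m c + SF.fnF h) ν) :
    ∫ x, SF.shM (Phi0 m c + SF.fnF h) x ∂ν = Real.pi ^ 2 * (5 / 2 * (2 * m - c)) := by
  obtain ⟨ψ, hψ, hψ1, -⟩ := exists_psi m c hh
  set φ := Phi0 m c + SF.fnF h with hφd
  obtain ⟨w, hw, hw1⟩ := exists_ric hφ
  have hF : SF.IsFrm φ := hφ.toIsFrm
  have hR : SF.IsFrm (ricF φ) := CSurf.isFrm_ricF hφ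
  have hP := isFrm_Psi 3 (-2) 0
  have hfw := CSurf.isFrm_fnF hw
  have hfp := CSurf.isFrm_fnF (hψ.sm 0)
  have h2 : ∀ κ, ∀ z ∈ tg κ, (φ + SF.fnF (ψ 0)) κ z = Psi m c 0 κ z := by
    intro κ z hz
    rw [← hψ1 0 κ z hz]
    rfl
  -- first identity
  have e1 : ∀ x, SF.den φ (ricF φ + SF.fnF w) φ x = SF.den φ (Psi 3 (-2) 0) φ x := by
    intro x
    unfold CSurf.den Dm
    have hz : SF.ch (SF.idx x) x ∈ tg (SF.idx x) := by
      rw [← SF_target]
      exact (SF.ch (SF.idx x)).map_source (SF.idx_mem x)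
    have hn := (isOpen_tg (SF.idx x)).mem_nhds hz
    set κ := SF.idx x
    set z := SF.ch κ x
    have h3 : (ricF φ + SF.fnF w) κ =ᶠ[𝓝 z]
        fun v => Psi 3 (-2) 0 κ v - 4 * Real.log (‖PX κ v (κ.1 + 1)‖ ^ 2) := by
      filter_upwards [hn] with v hv
      have := hw1 κ v hv
      unfold Rref at this
      exact this
    have hX : ContDiffAt ℂ ∞ (fun v => PX κ v (κ.1 + 1)) z :=
      (contDiffOn_PX κ (κ.1 + 1)).contDiffAt hn
    have hX0 : PX κ z (κ.1 + 1) ≠ 0 := by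
      have : PX κ z (κ.1 + 1) = rt κ.2.1 (z 0) := by
        unfold PX
        have h4 : ∀ l : Fin 3, l + 1 ≠ l := by decide
        rw [if_neg (h4 κ.1), if_pos rfl]
      rw [this]
      exact rt_ne κ hz
    have h5 : cHess (fun v => Real.log (‖PX κ v (κ.1 + 1)‖ ^ 2)) z = 0 :=
      cHess_log_norm_sq (h := fun v => PX κ v (κ.1 + 1))
        (hX.of_le (WithTop.coe_le_coe.mpr le_top)) hX0
    have h6 : ContDiffAt ℝ 2 (fun v => Real.log (‖PX κ v (κ.1 + 1)‖ ^ 2)) z := by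
      have h7 : ContDiffAt ℝ 2 (fun v => PX κ v (κ.1 + 1)) z :=
        (hX.of_le (WithTop.coe_le_coe.mpr le_top)).restrict_scalars ℝ
      exact (h7.norm_sq ℝ).log (by positivity)
    have h8 : ContDiffAt ℝ 2 (Psi 3 (-2) 0 κ) z := by
      have h9 := (hP.smooth κ).contDiffAt (x := z) (by rw [SF_target]; exact hn)
      exact h9.of_le (WithTop.coe_le_coe.mpr le_top)
    rw [cHess_congr h3, cHess_sub h8 (contDiffAt_const.mul h6), cHess_const_mul 4 h6, h5]
    simp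
  have e2 : ∀ x, SF.den φ (ricF φ) φ x = SF.den φ (Psi 3 (-2) 0) φ x - SF.den φ (SF.fnF w) φ x := by
    intro x
    rw [← e1 x, CSurf.den_add_left hR hfw x]
    ring
  have e3 : ∀ x, SF.den φ (Psi 3 (-2) 0) φ x
      = SF.den φ (Psi 3 (-2) 0) (Psi m c 0) x - SF.den φ (SF.fnF (ψ 0)) (Psi 3 (-2) 0) x := by
    intro x
    have h3 : SF.den φ (Psi 3 (-2) 0) (Psi m c 0) x
        = SF.den φ (Psi 3 (-2) 0) (φ + SF.fnF (ψ 0)) x :=
      den_congr_tg (fun _ _ _ => rfl) (fun κ z hz => (h2 κ z hz).symm) x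
    rw [h3, CSurf.den_comm φ (Psi 3 (-2) 0) (φ + SF.fnF (ψ 0)), CSurf.den_add_left hF hfp x,
      CSurf.den_comm φ (Psi 3 (-2) 0) φ]
    ring
  have i1 : Integrable (SF.den φ (Psi 3 (-2) 0) (Psi m c 0)) ν :=
    CSurf.integrable_of_sm hφ hν (CSurf.sm_den hφ hP (isFrm_Psi m c 0)).continuous
  have i2 : Integrable (SF.den φ (SF.fnF (ψ 0)) (Psi 3 (-2) 0)) ν :=
    CSurf.integrable_of_sm hφ hν (CSurf.sm_den hφ hfp hP).continuous
  have i3 : Integrable (SF.den φ (SF.fnF w) φ) ν :=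
    CSurf.integrable_of_sm hφ hν (CSurf.sm_den hφ hfw hF).continuous
  have i4 : Integrable (fun x => SF.den φ (Psi 3 (-2) 0) (Psi m c 0) x
      - SF.den φ (SF.fnF (ψ 0)) (Psi 3 (-2) 0) x) ν := i1.sub i2
  simp only [CSurf.shM_eq_den, e2, e3]
  rw [integral_neg, integral_sub i4 i3, integral_sub i1 i2, integral_den_Psi hφ hν,
    CSurf.integral_den_fnF hφ hν (hψ.sm 0) hP, CSurf.integral_den_fnF hφ hν hw hF]
  ring

/-- the energy of the comparison path -/
theorem energy_FM {m c : ℝ} {h : FM → ℝ} (hh : SF.Sm h) (hφ : SF.IsKah (Phi0 m c + SF.fnF h))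
    {ν : Measure FM} (hν : SF.IsVolF (Phi0 m c + SF.fnF h) ν) {ψ : ℝ → FM → ℝ}
    (hψ : SF.SPath ψ)
    (hψ1 : ∀ t κ, ∀ z ∈ tg κ, (Phi0 m c + SF.fnF h) κ z + ψ t ((SF.ch κ).symm z)
      = Psi m c t κ z)
    (hψ2 : ∀ t κ, ∀ z ∈ tg κ, CSurf.td ψ t ((SF.ch κ).symm z)
      = c * (Real.exp t * ‖(PV κ z).2‖ ^ 2 * n1 (PX κ z)
        / (‖(PV κ z).1‖ ^ 2 + Real.exp t * ‖(PV κ z).2‖ ^ 2 * n1 (PX κ z)))) (t : ℝ) :
    SF.En (Phi0 m c + SF.fnF h) ν (ψ t) = SF.En (Phi0 m c + SF.fnF h) ν (ψ 0)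
      + Real.pi ^ 2 * (5 * (m * c ^ 2 / 2 + c ^ 3 / 3)) * t := by
  set φ := Phi0 m c + SF.fnF h with hφd
  apply CSurf.En_eq_of_slope hφ hν hψ
  intro s
  have hF : SF.IsFrm φ := hφ.toIsFrm
  have hfp := CSurf.isFrm_fnF (hψ.sm s)
  have hG : SF.IsFrm (φ + SF.fnF (ψ s)) := hF.add hfp
  have h2 : ∀ κ, ∀ z ∈ tg κ, (φ + SF.fnF (ψ s)) κ z = Psi m c s κ z := by
    intro κ z hz
    rw [← hψ1 s κ z hz]
    rfl
  have hcont : Continuous (fun x => CSurf.td ψ s x
      * SF.den φ (φ + SF.fnF (ψ s)) (φ + SF.fnF (ψ s)) x) :=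
    (hψ.td.sm s).continuous.mul (CSurf.sm_den hφ hG hG).continuous
  rw [integral_five hφ hν hcont]
  have h1 : ∀ b ∈ ev5, ∫ z in tg (0, b, true), dt (φ (0, b, true)) z
      * (CSurf.td ψ s ((SF.ch (0, b, true)).symm z)
      * SF.den φ (φ + SF.fnF (ψ s)) (φ + SF.fnF (ψ s)) ((SF.ch (0, b, true)).symm z))
      = Real.pi ^ 2 * (((m + c) ^ 3 - m ^ 3) / 3 - m * ((m + c) ^ 2 - m ^ 2) / 2) := by
    intro b hb
    rw [← (integral_energy_chi m c s).2]
    apply integral_tg hb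
    intro z hz hz1
    have hzt : z ∈ (SF.ch (0, b, true)).target := by rw [SF_target]; exact hz
    have hden : SF.den φ (φ + SF.fnF (ψ s)) (φ + SF.fnF (ψ s)) ((SF.ch (0, b, true)).symm z)
        = rden m c s m c s z / dt (φ (0, b, true)) z := by
      rw [den_congr_tg h2 h2, CSurf.den_eq hφ (isFrm_Psi m c s) (isFrm_Psi m c s) (0, b, true)
        ((SF.ch (0, b, true)).map_target hzt), (SF.ch (0, b, true)).right_inv hzt,
        Dm_Psi m c s m c s b hz1]
    have htd : CSurf.td ψ s ((SF.ch (0, b, true)).symm z) = deriv (chi m c s) (ll z) - m := by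
      rw [hψ2 s (0, b, true) z hz, deriv_chi, n1_PX, PV_true]
      unfold sg
      simp only [norm_one, one_pow]
      rw [Real.exp_add, exp_ll hz1,
        show Real.exp s * ‖z 1‖ ^ 2 * (1 + ‖z 0‖ ^ 2)
          = ‖z 1‖ ^ 2 * (1 + ‖z 0‖ ^ 2) * Real.exp s by ring]
      ring
    have hdt := (CSurf.IsKah.dt_pos hφ (0, b, true) hzt).ne'
    rw [hden, htd]
    have h3 : dt (φ (0, b, true)) z * ((deriv (chi m c s) (ll z) - m)
        * (rden m c s m c s z / dt (φ (0, b, true)) z))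
        = (deriv (chi m c s) (ll z) - m) * rden m c s m c s z := by
      field_simp
    rw [h3]
    rfl
  rw [Finset.sum_congr rfl h1, Finset.sum_const]
  have : ({0, 2, 4, 6, 8} : Finset (Fin 10)).card = 5 := by decide
  rw [this]
  simp only [nsmul_eq_mul, Nat.cast_ofNat]
  ring

end

end Pool.Agent.KS
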