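import Pool.Agent.KS.Main

/-!
# From `CSurf` to Mathlib manifolds, final theorem (module FINAL)
-/

namespace Pool.Agent.KS

open MeasureTheory Complex Topology
open scoped ContDiff Matrix ComplexOrder ComplexConjugate Manifold

noncomputable section

namespace CSurf

section general

variable {M ι : Type} [TopologicalSpace M] {S : CSurf M ι}

open Classical in
/-- coefficients of the metric with potentials `φ` in the charts -/
def cf (S : CSurf M ι) (φ : ι → C2 → ℝ) (e : OpenPartialHomeomorph M (Cn 2)) (z : Cn 2) :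
    Matrix (Fin 2) (Fin 2) ℂ :=
  if h : ∃ i, S.ch i = e then cHess (φ (Classical.choose h)) z else 1

theorem Jm_id (z : C2) : Jm (fun w : C2 => w) z = 1 := by
  ext a b
  have : (fun w : C2 => w) = id := rfl
  rw [Jm, this, fderiv_id]
  simp only [ContinuousLinearMap.coe_id', id_eq, Matrix.one_apply]
  by_cases hab : a = b
  · subst hab; simp
  · rw [if_neg hab, Pi.single_eq_of_ne hab]

theorem cHess_eq_of_ch_eq {φ : ι → C2 → ℝ} (hφ : S.IsFrm φ) {i j : ι} (h : S.ch j = S.ch i)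
    {z : C2} (hz : z ∈ (S.ch i).target) : cHess (φ j) z = cHess (φ i) z := by
  have hzo : z ∈ S.ovl j i := by
    refine ⟨h ▸ hz, ?_⟩
    rw [h]
    exact (S.ch i).map_target hz
  have htr : S.tr j i =ᶠ[𝓝 z] fun w => w := by
    filter_upwards [(S.isOpen_ovl j i).mem_nhds hzo] with w hw
    have hw1 : w ∈ (S.ch i).target := h ▸ hw.1
    simp only [tr, h]
    exact (S.ch i).right_inv hw1
  have hJ : Jm (S.tr j i) z = 1 := by
    rw [← Jm_id z]
    ext a b
    rw [Jm, Jm, htr.fderiv_eq]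
  have h1 : S.tr j i z = z := htr.self_of_nhds
  rw [hφ.compat j i z hzo, hJ, h1, Matrix.transpose_one, one_mul,
    Matrix.map_one _ (map_zero _) (map_one _), mul_one]

theorem cf_eq {φ : ι → C2 → ℝ} (hφ : S.IsFrm φ) (i : ι) {z : C2} (hz : z ∈ (S.ch i).target) :
    S.cf φ (S.ch i) z = cHess (φ i) z := by
  have h : ∃ j, S.ch j = S.ch i := ⟨i, rfl⟩
  rw [cf, dif_pos h]
  exact cHess_eq_of_ch_eq hφ (Classical.choose_spec h) hz

variable [ChartedSpace (Cn 2) M]

/-- The Kaehler metric with potentials `φ`. -/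
def toMet (hatl : ∀ e ∈ atlas (Cn 2) M, ∃ i, S.ch i = e) {φ : ι → C2 → ℝ} (hφ : S.IsKah φ) :
    KahlerMetric 2 M where
  coef := S.cf φ
  smooth e he i j := by
    obtain ⟨κ, rfl⟩ := hatl e he
    refine (contDiffOn_cHess (S.ch κ).open_target i j (hφ.smooth κ)).congr fun z hz => ?_
    rw [cf_eq hφ.toIsFrm κ hz]
  posDef e he z hz := by
    obtain ⟨κ, rfl⟩ := hatl e he
    rw [cf_eq hφ.toIsFrm κ hz]
    exact hφ.pos κ z hz
  closed e he z hz i j k := by
    obtain ⟨κ, rfl⟩ := hatl e he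
    have h1 : ∀ a b, (fun w => S.cf φ (S.ch κ) w a b) =ᶠ[𝓝 z] fun w => cHess (φ κ) w a b := by
      intro a b
      filter_upwards [(S.ch κ).open_target.mem_nhds hz] with w hw
      rw [cf_eq hφ.toIsFrm κ hw]
    rw [dz_congr k (h1 i j), dz_congr i (h1 k j)]
    have h2 : ContDiffAt ℝ 2 (fun w => dzb j (fun w => ((φ κ w : ℝ) : ℂ)) w) z :=
      ((contDiffOn_dzb (S.ch κ).open_target j (contDiffOn_ofReal (hφ.smooth κ))).contDiffAt
        ((S.ch κ).open_target.mem_nhds hz)).of_le two_le_inf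
    exact dz_dz_comm k i h2
  transf e he e' he' p hp := by
    obtain ⟨κ, rfl⟩ := hatl e he
    obtain ⟨κ', rfl⟩ := hatl e' he'
    rw [cf_eq hφ.toIsFrm κ ((S.ch κ).map_source hp.1),
      cf_eq hφ.toIsFrm κ' ((S.ch κ').map_source hp.2)]
    have h := hφ.compat κ κ' (S.ch κ p) (S.mem_ovl hp.1 hp.2)
    rw [S.tr_apply hp.1] at h
    exact h

theorem trace_formula {G H : Matrix (Fin 2) (Fin 2) ℂ} (hG : G.PosDef) :
    ((G⁻¹ * H).trace).re = 2 * mdet H G / G.det.re := by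
  have hd := hG.det_pos
  rw [Complex.lt_def] at hd
  simp only [zero_re, zero_im] at hd
  have hdr : G.det = ((G.det.re : ℝ) : ℂ) := by
    apply Complex.ext
    · simp
    · rw [ofReal_im]; exact hd.2.symm
  have h0 : ((G.det.re : ℝ) : ℂ) ≠ 0 := ofReal_ne_zero.2 hd.1.ne'
  have h1 : (G⁻¹ * H).trace = (((G.det.re)⁻¹ : ℝ) : ℂ)
      * (2 * ((H 0 0 * G 1 1 + H 1 1 * G 0 0 - H 0 1 * G 1 0 - H 1 0 * G 0 1) / 2)) := by
    rw [Matrix.inv_def, Matrix.adjugate_fin_two, Ring.inverse_eq_inv', Matrix.smul_mul,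
      Matrix.trace_smul, Matrix.trace_fin_two]
    simp only [Matrix.mul_apply, Fin.sum_univ_two, Matrix.of_apply, Matrix.cons_val',
      Matrix.cons_val_zero, Matrix.cons_val_one, smul_eq_mul, Matrix.cons_val_fin_one]
    rw [ofReal_inv, ← hdr]
    ring
  rw [h1, Complex.re_ofReal_mul, mdet]
  have h2 : ∀ w : ℂ, (2 * w).re = 2 * w.re := fun w => by
    rw [show (2 : ℂ) = ((2 : ℝ) : ℂ) by norm_num, Complex.re_ofReal_mul]
  rw [h2]
  field_simp

theorem scal_eq (hatl : ∀ e ∈ atlas (Cn 2) M, ∃ i, S.ch i = e) {φ : ι → C2 → ℝ}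
    (hφ : S.IsKah φ) {g : KahlerMetric 2 M}
    (hg : ∀ i, S.ch i ∈ atlas (Cn 2) M → ∀ z ∈ (S.ch i).target,
      g.coef (S.ch i) z = cHess (φ i) z) (p : M) :
    scal g p = 4 * S.shM φ p := by
  obtain ⟨i, hi⟩ := hatl _ (chart_mem_atlas (Cn 2) p)
  have hp : p ∈ (S.ch i).source := by rw [hi]; exact mem_chart_source _ p
  have hia : S.ch i ∈ atlas (Cn 2) M := by rw [hi]; exact chart_mem_atlas _ p
  have hz := (S.ch i).map_source hp
  rw [scal, ← hi, scalAt, hg i hia _ hz]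
  have h1 : (fun w => Real.log (detC g (S.ch i) w)) =ᶠ[𝓝 (S.ch i p)]
      fun w => Real.log (dt (φ i) w) := by
    filter_upwards [(S.ch i).open_target.mem_nhds hz] with w hw
    rw [detC, hg i hia w hw, dt]
  rw [cHess_congr h1, trace_formula (hφ.pos i _ hz), shM_eq hφ i hp, sh, Dm, dt]
  ring

theorem isVolume_of {φ : ι → C2 → ℝ} [MeasurableSpace M] [BorelSpace M]
    (hatl : ∀ e ∈ atlas (Cn 2) M, ∃ i, S.ch i = e)
    {g : KahlerMetric 2 M} {ν : Measure M} (hν : S.IsVolF φ ν)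
    (hg : ∀ i, S.ch i ∈ atlas (Cn 2) M → ∀ z ∈ (S.ch i).target,
      g.coef (S.ch i) z = cHess (φ i) z) :
    IsVolume g ((4 : ENNReal) • ν) := by
  intro e he A hA hAe
  obtain ⟨i, rfl⟩ := hatl e he
  have himg : S.ch i '' A ⊆ (S.ch i).target := by
    rintro _ ⟨x, hx, rfl⟩
    exact (S.ch i).map_source (hAe hx)
  have hmeas : MeasurableSet (S.ch i '' A) := by
    have h1 : S.ch i '' A = (S.ch i).target ∩ (S.ch i).symm ⁻¹' A :=
      (S.ch i).image_eq_target_inter_inv_preimage hAe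
    rw [h1]
    have h2 : ContinuousOn (S.ch i).symm (S.ch i).target := (S.ch i).symm.continuousOn
    have h3 : Measurable ((S.ch i).target.domRestrict (S.ch i).symm) :=
      (continuousOn_iff_continuous_domRestrict.1 h2).measurable
    have h4 : MeasurableSet ((S.ch i).target.domRestrict (S.ch i).symm ⁻¹' A) := h3 hA
    have h5 := ((MeasurableEmbedding.subtype_coe
      (S.ch i).open_target.measurableSet).measurableSet_image).2 h4
    convert h5 using 1
    ext z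
    simp [Set.domRestrict, and_comm]
  rw [Measure.smul_apply, hν i A hA hAe, smul_eq_mul, ← lintegral_const_mul' _ _ (by simp)]
  refine setLIntegral_congr_fun hmeas fun z hz => ?_
  have h2 : detC g (S.ch i) z = dt (φ i) z := by
    rw [detC, hg i he z (himg hz), dt]
  simp only [h2]
  rw [ENNReal.ofReal_mul (by norm_num)]
  congr 1
  norm_num

/-- a metric in the same class has potentials `φ + h` -/
theorem exists_pot (hatl : ∀ e ∈ atlas (Cn 2) M, ∃ i, S.ch i = e)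
    (hall : ∀ i, S.ch i ∈ atlas (Cn 2) M) {φ : ι → C2 → ℝ}
    (hφ : S.IsKah φ) {g' : KahlerMetric 2 M} (hc : SameClass (toMet hatl hφ) g') :
    ∃ h : M → ℝ, S.Sm h ∧ S.IsKah (φ + S.fnF h) ∧
      ∀ p, scal g' p = 4 * S.shM (φ + S.fnF h) p := by
  obtain ⟨h, hh, hg⟩ := hc
  have hsm : S.Sm h := fun i => hh _ (hall i)
  have hfr : S.IsFrm (φ + S.fnF h) := hφ.toIsFrm.add (isFrm_fnF hsm)
  have hco : ∀ i, S.ch i ∈ atlas (Cn 2) M → ∀ z ∈ (S.ch i).target,
      g'.coef (S.ch i) z = cHess ((φ + S.fnF h) i) z := by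
    intro i hi z hz
    rw [hg _ hi z hz]
    have e1 : (toMet hatl hφ).coef (S.ch i) z = cHess (φ i) z := cf_eq hφ.toIsFrm i hz
    rw [e1]
    exact (cHess_add (hφ.toIsFrm.contDiffAt2 i hz) (hsm.contDiffAt2 i hz)).symm
  have hK : S.IsKah (φ + S.fnF h) := by
    refine ⟨hfr, fun i z hz => ?_⟩
    rw [← hco i (hall i) z hz]
    exact g'.posDef _ (hall i) z hz
  exact ⟨h, hsm, hK, scal_eq hatl hK hco⟩

end general

end CSurf

/-- charted space structure -/
instance : ChartedSpace (Cn 2) FM where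
  atlas := Set.range SF.ch
  chartAt x := SF.ch (SF.idx x)
  mem_chart_source x := SF.idx_mem x
  chart_mem_atlas x := ⟨_, rfl⟩

instance : IsManifold 𝓘(ℂ, Cn 2) ω FM := by
  refine isManifold_of_contDiffOn _ _ _ fun e e' he he' => ?_
  obtain ⟨κ, rfl⟩ := he
  obtain ⟨κ', rfl⟩ := he'
  have h := SF.hol κ κ'
  have e1 : (𝓘(ℂ, Cn 2)).symm ⁻¹' ((SF.ch κ).symm ≫ₕ SF.ch κ').source ∩
      Set.range 𝓘(ℂ, Cn 2) = (SF.ch κ).target ∩ (SF.ch κ).symm ⁻¹' (SF.ch κ').source := by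
    ext z
    simp
  rw [e1]
  exact h

theorem FM_atl : ∀ e ∈ atlas (Cn 2) FM, ∃ i, SF.ch i = e := fun _ he => he

theorem FM_all (κ : Idx) : SF.ch κ ∈ atlas (Cn 2) FM := ⟨κ, rfl⟩

theorem add_fnF_zero (φ : Idx → C2 → ℝ) : φ + SF.fnF (fun _ => 0) = φ := by
  funext i z
  simp [CSurf.fnF]

/-- the metric, its volume measure and its total scalar curvature -/
theorem exists_total {m c : ℝ} (hm : 0 < m) (hc : 0 < c) :
    ∃ hφ : SF.IsKah (Phi0 m c), ∃ μ : Measure FM,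
      IsVolume (CSurf.toMet FM_atl hφ) μ ∧
      ∫ p, scal (CSurf.toMet FM_atl hφ) p ∂μ = 40 * Real.pi ^ 2 * (2 * m - c) := by
  have hφ : SF.IsKah (Phi0 m c) := isKah_Phi0 hm hc
  obtain ⟨ν, hν⟩ := CSurf.exists_volF hφ
  have hco : ∀ i, SF.ch i ∈ atlas (Cn 2) FM → ∀ z ∈ (SF.ch i).target,
      (CSurf.toMet FM_atl hφ).coef (SF.ch i) z = cHess (Phi0 m c i) z :=
    fun i _ z hz => CSurf.cf_eq hφ.toIsFrm i hz
  refine ⟨hφ, (4 : ENNReal) • ν, CSurf.isVolume_of FM_atl hν hco, ?_⟩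
  have e := add_fnF_zero (Phi0 m c)
  have h1 : ∫ x, SF.shM (Phi0 m c + SF.fnF (fun _ => 0)) x ∂ν
      = Real.pi ^ 2 * (5 / 2 * (2 * m - c)) :=
    scal_FM (CSurf.Sm.const 0) (by rw [e]; exact hφ) (by rw [e]; exact hν)
  rw [e] at h1
  rw [integral_smul_measure]
  simp only [CSurf.scal_eq FM_atl hφ hco]
  rw [integral_const_mul, h1]
  norm_num
  ring

theorem not_plus : ¬ Plus := by
  intro H
  obtain ⟨hφ, μ, hμ, htot⟩ := exists_total (m := 2) (c := 3) (by norm_num) (by norm_num)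
  obtain ⟨g', hc, hpos⟩ := H 2 FM (CSurf.toMet FM_atl hφ) μ hμ (by
    rw [htot]
    have := Real.pi_pos
    positivity)
  obtain ⟨h, hh, hK, hs⟩ := CSurf.exists_pot FM_atl FM_all hφ hc
  obtain ⟨x, hx⟩ := plus_FM hh hK
  have h1 := hpos x
  rw [hs x] at h1
  linarith

theorem not_minus : ¬ Minus := by
  intro H
  obtain ⟨hφ, μ, hμ, htot⟩ := exists_total (m := 1) (c := 3) (by norm_num) (by norm_num)
  obtain ⟨g', hc, hneg⟩ := H 2 FM (CSurf.toMet FM_atl hφ) μ hμ (by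
    rw [htot]
    have := Real.pi_pos
    have h2 : 0 < 40 * Real.pi ^ 2 := by positivity
    linarith)
  obtain ⟨h, hh, hK, hs⟩ := CSurf.exists_pot FM_atl FM_all hφ hc
  obtain ⟨x, hx⟩ := minus_FM hh hK
  have h1 := hneg x
  rw [hs x] at h1
  linarith

end

end Pool.Agent.KS
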