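import Pool.Agent.KS.Vol

/-!
# Closed real `(1,1)`-forms on complex surfaces, integration by parts
-/

namespace Pool.Agent.KS

open Wir

open scoped ContDiff Matrix ComplexOrder Manifold
open Complex MeasureTheory Set

section forms

variable {n : ℕ} {M : Type} [TopologicalSpace M]

/-- families of coefficient matrices in all charts -/
abbrev RawForm (n : ℕ) (M : Type) [TopologicalSpace M] : Type :=
  OpenPartialHomeomorph M (Cn n) → Cn n → Matrix (Fin n) (Fin n) ℂ

/-- `√-1 ∂\bar∂ u` -/
noncomputable def ddc (u : M → ℝ) : RawForm n M := fun e z => cHess (fun w => u (e.symm w)) z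

variable [ChartedSpace (Cn n) M]

/-- closed real `(1,1)`-forms -/
structure IsForm (A : RawForm n M) : Prop where
  smooth : ∀ e ∈ atlas (Cn n) M, ∀ i j, ContDiffOn ℝ ∞ (fun z => A e z i j) e.target
  herm : ∀ e ∈ atlas (Cn n) M, ∀ z ∈ e.target, (A e z).IsHermitian
  closed : ∀ e ∈ atlas (Cn n) M, ∀ z ∈ e.target, ∀ i j k,
    dz k (fun w => A e w i j) z = dz i (fun w => A e w k j) z
  transf : ∀ e ∈ atlas (Cn n) M, ∀ e' ∈ atlas (Cn n) M, ∀ p ∈ e.source ∩ e'.source,
    A e (e p) = (jac e e' p)ᵀ * A e' (e' p) * (jac e e' p).map (starRingEnd ℂ)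

lemma KahlerMetric.isForm (g : KahlerMetric n M) : IsForm g.coef :=
  ⟨g.smooth, fun e he z hz => (g.posDef e he z hz).isHermitian, g.closed, g.transf⟩

namespace Wir

lemma cHess_congr {u v : Cn n → ℝ} {z : Cn n} (h : u =ᶠ[nhds z] v) : cHess u z = cHess v z := by
  ext i j
  simp only [cHess]
  apply dz_congr
  have h2 := h.eventuallyEq_nhds
  filter_upwards [h2] with w hw
  apply dzb_congr
  filter_upwards [hw] with y hy
  rw [hy]

lemma cHess_add {U : Set (Cn n)} (hU : IsOpen U) {u v : Cn n → ℝ} (hu : ContDiffOn ℝ ∞ u U) (hv : ContDiffOn ℝ ∞ v U)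
    {z : Cn n} (hz : z ∈ U) : cHess (fun w => u w + v w) z = cHess u z + cHess v z := by
  ext i j
  simp only [cHess, Matrix.add_apply]
  have huC := contDiffOn_ofReal hu
  have hvC := contDiffOn_ofReal hv
  have e1 : dzb j (fun w => ((u w + v w : ℝ) : ℂ)) =ᶠ[nhds z]
      fun w => dzb j (fun w => (u w : ℂ)) w + dzb j (fun w => (v w : ℂ)) w := by
    filter_upwards [hU.mem_nhds hz] with w hw
    have h1 : (fun w => ((u w + v w : ℝ) : ℂ)) = fun w => (u w : ℂ) + (v w : ℂ) := by funext w; push_cast; rfl
    rw [h1]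
    exact dzb_add (F := fun w => (u w : ℂ)) (G := fun w => (v w : ℂ)) j
      ((huC.differentiableOn (by simp)).differentiableAt (hU.mem_nhds hw))
      ((hvC.differentiableOn (by simp)).differentiableAt (hU.mem_nhds hw))
  rw [dz_congr i e1]
  exact dz_add i (((contDiffOn_dzb hU huC j).differentiableOn (by simp)).differentiableAt (hU.mem_nhds hz))
    (((contDiffOn_dzb hU hvC j).differentiableOn (by simp)).differentiableAt (hU.mem_nhds hz))

lemma cHess_const_mul {U : Set (Cn n)} (hU : IsOpen U) (c : ℝ) {u : Cn n → ℝ} (hu : ContDiffOn ℝ ∞ u U)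
    {z : Cn n} (hz : z ∈ U) : cHess (fun w => c * u w) z = c • cHess u z := by
  ext i j
  simp only [cHess, Matrix.smul_apply, real_smul]
  have huC := contDiffOn_ofReal hu
  have e1 : dzb j (fun w => ((c * u w : ℝ) : ℂ)) =ᶠ[nhds z]
      fun w => (c : ℂ) * dzb j (fun w => (u w : ℂ)) w := by
    filter_upwards [hU.mem_nhds hz] with w hw
    have h1 : (fun w => ((c * u w : ℝ) : ℂ)) = fun w => (c : ℂ) * (u w : ℂ) := by funext w; push_cast; rfl
    rw [h1]
    exact dzb_const_mul (F := fun w => (u w : ℂ)) j _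
      ((huC.differentiableOn (by simp)).differentiableAt (hU.mem_nhds hw))
  rw [dz_congr i e1]
  exact dz_const_mul i _ (((contDiffOn_dzb hU huC j).differentiableOn (by simp)).differentiableAt (hU.mem_nhds hz))

lemma cHess_const (c : ℝ) (z : Cn n) : cHess (fun _ => c) z = 0 := by
  ext i j
  simp only [cHess, Matrix.zero_apply]
  have : dzb j (fun _ : Cn n => (c : ℂ)) = fun _ => 0 := by funext w; exact dzb_const j _
  rw [this, dz_const]

lemma cHess_sum {U : Set (Cn n)} (hU : IsOpen U) {ι : Type*} (s : Finset ι) {u : ι → Cn n → ℝ}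
    (hu : ∀ i ∈ s, ContDiffOn ℝ ∞ (u i) U) {z : Cn n} (hz : z ∈ U) :
    cHess (fun w => ∑ i ∈ s, u i w) z = ∑ i ∈ s, cHess (u i) z := by
  classical
  induction s using Finset.induction_on with
  | empty => simp [cHess_const]
  | insert a s ha ih =>
    have h1 : ∀ i ∈ s, ContDiffOn ℝ ∞ (u i) U := fun i hi => hu i (Finset.mem_insert_of_mem hi)
    simp only [Finset.sum_insert ha]
    rw [cHess_add hU (hu a (Finset.mem_insert_self _ _)) (ContDiffOn.sum fun i hi => h1 i hi) hz, ih h1]

end Wir

lemma isForm_ddc [IsManifold 𝓘(ℂ, Cn n) ω M] {u : M → ℝ} (hu : SmoothFun (n := n) u) : IsForm (ddc (n := n) u) where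
  smooth e he i j := contDiffOn_cHess e.open_target (hu e he) i j
  herm e he z hz := cHess_isHermitian e.open_target (hu e he) hz
  closed e he z hz i j k := cHess_closed e.open_target (hu e he) hz i j k
  transf e he e' he' p hp := by
    have hzo := mem_overlap hp.1 hp.2
    have h1 : (fun w => u (e.symm w)) =ᶠ[nhds (e p)] fun w => (fun y => u (e'.symm y)) (e' (e.symm w)) := by
      filter_upwards [(overlap_isOpen e e').mem_nhds hzo] with w hw
      simp only [e'.left_inv hw.2]
    ext i j
    have h2 := cHess_comp_hol (overlap_isOpen e e') e'.open_target (hu e' he') (tr_contDiffOn he he')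
      (fun w hw => e'.map_source hw.2) hzo i j
    simp only [ddc]
    rw [cHess_congr h1, h2]
    simp only [Matrix.mul_apply, Matrix.transpose_apply, Matrix.map_apply, jac, e.left_inv hp.1]
    rw [Finset.sum_comm]
    refine Finset.sum_congr rfl fun b _ => ?_
    rw [Finset.sum_mul]
    refine Finset.sum_congr rfl fun a _ => ?_
    ring

lemma IsForm.add {A B : RawForm n M} (hA : IsForm A) (hB : IsForm B) : IsForm (A + B) where
  smooth e he i j := (hA.smooth e he i j).add (hB.smooth e he i j)
  herm e he z hz := (hA.herm e he z hz).add (hB.herm e he z hz)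
  closed e he z hz i j k := by
    have d : ∀ {C : RawForm n M}, IsForm C → ∀ i j, DifferentiableAt ℝ (fun w => C e w i j) z := fun hC i j =>
      ((hC.smooth e he i j).differentiableOn (by simp)).differentiableAt (e.open_target.mem_nhds hz)
    have h1 := dz_add k (F := fun w => A e w i j) (G := fun w => B e w i j) (d hA i j) (d hB i j)
    have h2 := dz_add i (F := fun w => A e w k j) (G := fun w => B e w k j) (d hA k j) (d hB k j)
    have h3 := hA.closed e he z hz i j k
    have h4 := hB.closed e he z hz i j k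
    show dz k (fun w => A e w i j + B e w i j) z = dz i (fun w => A e w k j + B e w k j) z
    rw [h1, h2, h3, h4]
  transf e he e' he' p hp := by
    show A e (e p) + B e (e p) = _ * (A e' (e' p) + B e' (e' p)) * _
    rw [hA.transf e he e' he' p hp, hB.transf e he e' he' p hp, Matrix.mul_add, Matrix.add_mul]

lemma IsForm.smul {A : RawForm n M} (hA : IsForm A) (c : ℝ) : IsForm (c • A) where
  smooth e he i j := by
    have h : (fun z => (c • A) e z i j) = fun z => (c : ℂ) * A e z i j := by
      funext z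
      show (c • A e z) i j = _
      simp
    rw [h]
    exact contDiffOn_const.mul (hA.smooth e he i j)
  herm e he z hz := by
    show (c • A e z).IsHermitian
    have h := hA.herm e he z hz
    rw [Matrix.IsHermitian, Matrix.conjTranspose_smul, h.eq]
    simp
  closed e he z hz i j k := by
    have d : ∀ i j, DifferentiableAt ℝ (fun w => A e w i j) z := fun i j =>
      ((hA.smooth e he i j).differentiableOn (by simp)).differentiableAt (e.open_target.mem_nhds hz)
    have h : ∀ i j, (fun z => (c • A) e z i j) = fun z => (c : ℂ) * A e z i j := by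
      intro i j
      funext z
      show (c • A e z) i j = _
      simp
    rw [h, h, dz_const_mul k _ (d i j), dz_const_mul i _ (d k j), hA.closed e he z hz i j k]
  transf e he e' he' p hp := by
    show c • A e (e p) = _ * (c • A e' (e' p)) * _
    rw [hA.transf e he e' he' p hp, Matrix.mul_smul, Matrix.smul_mul]

end forms

section pou

variable {n : ℕ} {M : Type} [TopologicalSpace M] [T2Space M] [CompactSpace M] [ChartedSpace (Cn n) M]
  [IsManifold 𝓘(ℂ, Cn n) ω M]

variable (n M) in
/-- smooth partitions of unity -/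
theorem exists_pou : ∃ (ι : Type) (_ : Fintype ι) (c : ι → OpenPartialHomeomorph M (Cn n)) (ρ : ι → M → ℝ),
    (∀ i, c i ∈ atlas (Cn n) M) ∧ (∀ i, SmoothFun (n := n) (ρ i)) ∧ (∀ i, tsupport (ρ i) ⊆ (c i).source) ∧
    (∀ i p, 0 ≤ ρ i p) ∧ ∀ p, ∑ i, ρ i p = 1 := by
  have := isManifold_real (n := n) (M := M)
  obtain ⟨t, ht⟩ := isCompact_univ.elim_finite_subcover (fun x : M => (chartAt (Cn n) x).source)
    (fun x => (chartAt (Cn n) x).open_source) (fun x _ => mem_iUnion.2 ⟨x, mem_chart_source _ x⟩)
  obtain ⟨f, hf⟩ := SmoothPartitionOfUnity.exists_isSubordinate 𝓘(ℝ, Cn n) (s := (univ : Set M)) isClosed_univ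
    (fun x : t => (chartAt (Cn n) x.1).source) (fun x => (chartAt (Cn n) x.1).open_source) (by
      intro p hp
      obtain ⟨x, hx⟩ := mem_iUnion.1 (ht hp)
      obtain ⟨hx1, hx2⟩ := mem_iUnion.1 hx
      exact mem_iUnion.2 ⟨⟨x, hx1⟩, hx2⟩)
  refine ⟨t, inferInstance, fun x => chartAt (Cn n) x.1, fun x => f x, fun x => chart_mem_atlas _ _,
    fun x => smoothFun_of_contMDiff (f x).contMDiff, fun x => hf x, fun x p => f.nonneg x p, fun p => ?_⟩
  rw [← finsum_eq_sum_of_fintype]
  exact f.sum_eq_one (mem_univ p)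

end pou

section surface

variable {M : Type} [TopologicalSpace M] [ChartedSpace (Cn 2) M]

/-- the function `A ∧ B / (ω²/2)`-like quotient: mixed discriminant of two `(1,1)`-forms over `det g` -/
noncomputable def wd (g : KahlerMetric 2 M) (A B : RawForm 2 M) (p : M) : ℝ :=
  mixd (A (chartAt (Cn 2) p) (chartAt (Cn 2) p p)) (B (chartAt (Cn 2) p) (chartAt (Cn 2) p p)) /
    detC g (chartAt (Cn 2) p) (chartAt (Cn 2) p p)

variable {g : KahlerMetric 2 M} {A B : RawForm 2 M}

/-- `wd` can be computed in every chart -/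
lemma wd_eq [IsManifold 𝓘(ℂ, Cn 2) ω M] (hA : IsForm A) (hB : IsForm B) {e : OpenPartialHomeomorph M (Cn 2)}
    (he : e ∈ atlas (Cn 2) M) {p : M} (hp : p ∈ e.source) :
    wd g A B p = mixd (A e (e p)) (B e (e p)) / detC g e (e p) := by
  set e' := chartAt (Cn 2) p with he'def
  have he' : e' ∈ atlas (Cn 2) M := chart_mem_atlas _ p
  have hp' : p ∈ e'.source := mem_chart_source _ p
  show mixd (A e' (e' p)) (B e' (e' p)) / detC g e' (e' p) = _
  rw [hA.transf e he e' he' p ⟨hp, hp'⟩, hB.transf e he e' he' p ⟨hp, hp'⟩, mixd_conj, detC_transf g he he' hp hp']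
  have h1 : normSq (jac e e' p).det ≠ 0 := by
    rw [Ne, normSq_eq_zero]
    exact jac_det_ne he he' hp hp'
  rw [mul_div_mul_left _ _ h1]

lemma wd_symm_eq [IsManifold 𝓘(ℂ, Cn 2) ω M] (hA : IsForm A) (hB : IsForm B) {e : OpenPartialHomeomorph M (Cn 2)}
    (he : e ∈ atlas (Cn 2) M) {z : Cn 2} (hz : z ∈ e.target) :
    wd g A B (e.symm z) = mixd (A e z) (B e z) / detC g e z := by
  rw [wd_eq hA hB he (e.map_target hz), e.right_inv hz]

lemma contDiffOn_mixd {U : Set (Cn 2)} {A B : Cn 2 → Matrix (Fin 2) (Fin 2) ℂ}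
    (hA : ∀ i j, ContDiffOn ℝ ∞ (fun z => A z i j) U) (hB : ∀ i j, ContDiffOn ℝ ∞ (fun z => B z i j) U) :
    ContDiffOn ℝ ∞ (fun z => mixd (A z) (B z)) U :=
  reCLM.contDiff.comp_contDiffOn (((((hA 0 0).mul (hB 1 1)).add ((hA 1 1).mul (hB 0 0))).sub
      ((hA 0 1).mul (hB 1 0))).sub ((hA 1 0).mul (hB 0 1)))

lemma smoothFun_wd [IsManifold 𝓘(ℂ, Cn 2) ω M] (g : KahlerMetric 2 M) (hA : IsForm A) (hB : IsForm B) :
    SmoothFun (n := 2) (wd g A B) := by
  intro e he
  refine ((contDiffOn_mixd (hA.smooth e he) (hB.smooth e he)).div (contDiffOn_detC g he)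
    fun z hz => (detC_pos g he hz).ne').congr fun z hz => wd_symm_eq hA hB he hz

lemma wd_comm (g : KahlerMetric 2 M) (A B : RawForm 2 M) (p : M) : wd g A B p = wd g B A p := by
  rw [wd, mixd_comm]; rfl

lemma wd_add_left (g : KahlerMetric 2 M) (A A' B : RawForm 2 M) (p : M) :
    wd g (A + A') B p = wd g A B p + wd g A' B p := by
  simp only [wd, Pi.add_apply, mixd_add_left, add_div]

lemma wd_add_right (g : KahlerMetric 2 M) (A B B' : RawForm 2 M) (p : M) :
    wd g A (B + B') p = wd g A B p + wd g A B' p := by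
  simp only [wd, Pi.add_apply, mixd_add_right, add_div]

lemma wd_smul_left (g : KahlerMetric 2 M) (c : ℝ) (A B : RawForm 2 M) (p : M) :
    wd g (c • A) B p = c * wd g A B p := by
  simp only [wd, Pi.smul_apply, mixd_smul_left, mul_div_assoc]

lemma wd_smul_right (g : KahlerMetric 2 M) (c : ℝ) (A B : RawForm 2 M) (p : M) :
    wd g A (c • B) p = c * wd g A B p := by
  simp only [wd, Pi.smul_apply, mixd_smul_right, mul_div_assoc]

lemma wd_self (g : KahlerMetric 2 M) (p : M) : wd g g.coef g.coef p = 2 := by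
  have h := detC_pos g (chart_mem_atlas (Cn 2) p) (mem_chart_target (Cn 2) p)
  rw [wd, mixd_self, div_eq_iff h.ne']; rfl

lemma wd_congr_left {A A' B : RawForm 2 M} (h : ∀ e ∈ atlas (Cn 2) M, ∀ z ∈ e.target, A e z = A' e z) (p : M) :
    wd g A B p = wd g A' B p := by
  rw [wd, h _ (chart_mem_atlas _ p) _ (mem_chart_target _ p)]; rfl

lemma wd_congr_right {A B B' : RawForm 2 M} (h : ∀ e ∈ atlas (Cn 2) M, ∀ z ∈ e.target, B e z = B' e z) (p : M) :
    wd g A B p = wd g A B' p := by
  rw [wd, h _ (chart_mem_atlas _ p) _ (mem_chart_target _ p)]; rfl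

lemma ddc_add {u v : M → ℝ} (hu : SmoothFun (n := 2) u) (hv : SmoothFun (n := 2) v)
    {e : OpenPartialHomeomorph M (Cn 2)} (he : e ∈ atlas (Cn 2) M) {z : Cn 2} (hz : z ∈ e.target) :
    ddc (n := 2) (fun p => u p + v p) e z = (ddc u + ddc v : RawForm 2 M) e z :=
  cHess_add e.open_target (hu e he) (hv e he) hz

lemma ddc_const_mul (c : ℝ) {u : M → ℝ} (hu : SmoothFun (n := 2) u)
    {e : OpenPartialHomeomorph M (Cn 2)} (he : e ∈ atlas (Cn 2) M) {z : Cn 2} (hz : z ∈ e.target) :
    ddc (n := 2) (fun p => c * u p) e z = (c • ddc u : RawForm 2 M) e z :=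
  cHess_const_mul e.open_target c (hu e he) hz

variable [T2Space M] [CompactSpace M] [IsManifold 𝓘(ℂ, Cn 2) ω M] [MeasurableSpace M] [BorelSpace M] {μ : Measure M}

omit [T2Space M] [IsManifold 𝓘(ℂ, Cn 2) ω M] in
lemma IsVolume.integrable (hμ : IsVolume g μ) {f : M → ℝ} (hf : Continuous f) : Integrable f μ := by
  have := hμ.isFiniteMeasure
  exact hf.integrable_of_hasCompactSupport (HasCompactSupport.of_compactSpace f)

/-- integration by parts for functions supported in a chart -/
lemma ibp_chart (hμ : IsVolume g μ) {T : RawForm 2 M} (hT : IsForm T) {u v : M → ℝ} (hu : SmoothFun (n := 2) u)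
    (hv : SmoothFun (n := 2) v) {e : OpenPartialHomeomorph M (Cn 2)} (he : e ∈ atlas (Cn 2) M)
    (hsupp : tsupport v ⊆ e.source) :
    ∫ p, v p * wd g (ddc u) T p ∂μ = ∫ p, u p * wd g (ddc v) T p ∂μ := by
  have hv0 : ∀ p ∉ e.source, v p = 0 := fun p hp => image_eq_zero_of_notMem_tsupport fun h => hp (hsupp h)
  have hfu := isForm_ddc (n := 2) hu
  have hfv := isForm_ddc (n := 2) hv
  -- `wd g (ddc v) T` vanishes off the support
  have hw0 : ∀ p ∉ e.source, wd g (ddc v) T p = 0 := by
    intro p hp
    have hp2 : p ∉ tsupport v := fun h => hp (hsupp h)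
    have hev : v =ᶠ[nhds p] fun _ => 0 := notMem_tsupport_iff_eventuallyEq.1 hp2
    set e' := chartAt (Cn 2) p with he'def
    have hp' : p ∈ e'.source := mem_chart_source _ p
    have h1 : (fun w => v (e'.symm w)) =ᶠ[nhds (e' p)] fun _ => 0 := by
      have hc : ContinuousAt e'.symm (e' p) := e'.symm.continuousAt (e'.map_source hp')
      have h2 : Filter.Tendsto e'.symm (nhds (e' p)) (nhds p) := by
        have := hc.tendsto; rwa [e'.left_inv hp'] at this
      exact h2.eventually hev
    have h3 : ddc (n := 2) v e' (e' p) = 0 := by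
      simp only [ddc]
      rw [cHess_congr h1, cHess_const]
    show mixd (ddc v e' (e' p)) (T e' (e' p)) / detC g e' (e' p) = 0
    rw [h3, mixd_zero_left, zero_div]
  have m1 : AEStronglyMeasurable (fun p => v p * wd g (ddc u) T p) μ :=
    (hv.continuous.mul (smoothFun_wd g hfu hT).continuous).aestronglyMeasurable
  have m2 : AEStronglyMeasurable (fun p => u p * wd g (ddc v) T p) μ :=
    (hu.continuous.mul (smoothFun_wd g hfv hT).continuous).aestronglyMeasurable
  rw [hμ.integral_eq he m1 (fun p hp => by simp [hv0 p hp]), hμ.integral_eq he m2 (fun p hp => by simp [hw0 p hp])]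
  -- the local functions
  set K : Set (Cn 2) := e '' tsupport v with hKdef
  have hK : IsCompact K := (isClosed_tsupport v).isCompact.image_of_continuousOn (e.continuousOn.mono hsupp)
  have hKU : K ⊆ e.target := by
    rintro _ ⟨p, hp, rfl⟩; exact e.map_source (hsupp hp)
  set v' : Cn 2 → ℝ := e.target.indicator (fun z => v (e.symm z)) with hv'
  have hv'eq : ∀ z ∈ e.target, v' z = v (e.symm z) := fun z hz => indicator_of_mem hz _
  have hv's : ContDiffOn ℝ ∞ v' e.target := (hv e he).congr hv'eq
  have hv'0 : ∀ z ∉ K, v' z = 0 := by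
    intro z hz
    by_cases hzt : z ∈ e.target
    · rw [hv'eq z hzt]
      apply image_eq_zero_of_notMem_tsupport
      intro h
      exact hz ⟨e.symm z, h, e.right_inv hzt⟩
    · exact indicator_of_notMem hzt _
  have key := local_ibp e.open_target hK hKU (hT.smooth e he) (hT.herm e he) (hT.closed e he) (hu e he) hv's hv'0
  have hH : ∀ z ∈ e.target, cHess v' z = ddc (n := 2) v e z := by
    intro z hz
    apply cHess_congr
    filter_upwards [e.open_target.mem_nhds hz] with w hw using hv'eq w hw
  have e1 : ∫ z in e.target, v (e.symm z) * wd g (ddc u) T (e.symm z) * (2 ^ 2 * detC g e z) =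
      4 * ∫ z, v' z * mixd (cHess (fun w => u (e.symm w)) z) (T e z) := by
    rw [← integral_const_mul, ← integral_indicator e.open_target.measurableSet]
    refine integral_congr_ae (Filter.Eventually.of_forall fun z => ?_)
    simp only
    by_cases hz : z ∈ e.target
    · rw [indicator_of_mem hz, wd_symm_eq hfu hT he hz, hv'eq z hz]
      have := (detC_pos g he hz).ne'
      simp only [ddc]
      field_simp
      ring
    · rw [indicator_of_notMem hz, hv'0 z (fun h => hz (hKU h))]
      ring
  have e2 : ∫ z in e.target, u (e.symm z) * wd g (ddc v) T (e.symm z) * (2 ^ 2 * detC g e z) =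
      4 * ∫ z, u (e.symm z) * mixd (cHess v' z) (T e z) := by
    rw [← integral_const_mul, ← integral_indicator e.open_target.measurableSet]
    refine integral_congr_ae (Filter.Eventually.of_forall fun z => ?_)
    simp only
    by_cases hz : z ∈ e.target
    · rw [indicator_of_mem hz, wd_symm_eq hfv hT he hz, hH z hz]
      have := (detC_pos g he hz).ne'
      field_simp
      ring
    · rw [indicator_of_notMem hz]
      have hzK : z ∉ K := fun h => hz (hKU h)
      have : cHess v' z = 0 := by
        have hev : v' =ᶠ[nhds z] fun _ => 0 := by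
          filter_upwards [hK.isClosed.isOpen_compl.mem_nhds hzK] with w hw using hv'0 w hw
        rw [cHess_congr hev, cHess_const]
      rw [this, mixd_zero_left]
      ring
  rw [e1, e2, key]

/-- Global integration by parts: `∫ v √-1∂\bar∂u ∧ T = ∫ u √-1∂\bar∂v ∧ T`. -/
theorem ibp (hμ : IsVolume g μ) {T : RawForm 2 M} (hT : IsForm T) {u v : M → ℝ} (hu : SmoothFun (n := 2) u)
    (hv : SmoothFun (n := 2) v) :
    ∫ p, v p * wd g (ddc u) T p ∂μ = ∫ p, u p * wd g (ddc v) T p ∂μ := by
  obtain ⟨ι, hι, c, ρ, hc, hρ, hs, -, hsum⟩ := exists_pou 2 M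
  have hvi : ∀ i, SmoothFun (n := 2) (fun p => ρ i p * v p) := fun i => (hρ i).mul hv
  have hvs : ∀ i, tsupport (fun p => ρ i p * v p) ⊆ (c i).source := fun i =>
    (tsupport_mul_subset_left).trans (hs i)
  have h1 := fun i => ibp_chart hμ hT hu (hvi i) (hc i) (hvs i)
  have hfu := isForm_ddc (n := 2) hu
  have i1 : ∫ p, v p * wd g (ddc u) T p ∂μ = ∑ i, ∫ p, (ρ i p * v p) * wd g (ddc u) T p ∂μ := by
    rw [← integral_finsetSum]
    · refine integral_congr_ae (Filter.Eventually.of_forall fun p => ?_)
      simp only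
      rw [← Finset.sum_mul, ← Finset.sum_mul, hsum p, one_mul]
    · intro i _
      exact hμ.integrable ((hvi i).continuous.mul (smoothFun_wd g hfu hT).continuous)
  have i2 : ∫ p, u p * wd g (ddc v) T p ∂μ = ∑ i, ∫ p, u p * wd g (ddc (fun q => ρ i q * v q)) T p ∂μ := by
    rw [← integral_finsetSum]
    · refine integral_congr_ae (Filter.Eventually.of_forall fun p => ?_)
      simp only
      rw [← Finset.mul_sum]
      congr 1
      set e := chartAt (Cn 2) p with hedef
      have he : e ∈ atlas (Cn 2) M := chart_mem_atlas _ p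
      have hz : e p ∈ e.target := mem_chart_target _ p
      have h3 : ddc (n := 2) v e (e p) = ∑ i, ddc (n := 2) (fun q => ρ i q * v q) e (e p) := by
        simp only [ddc]
        rw [← cHess_sum e.open_target Finset.univ (u := fun i w => ρ i (e.symm w) * v (e.symm w))
          (fun i _ => hvi i e he) hz]
        congr 1
        funext w
        rw [← Finset.sum_mul, hsum, one_mul]
      have h4 : ∀ (s : Finset ι) (f : ι → Matrix (Fin 2) (Fin 2) ℂ) (B : Matrix (Fin 2) (Fin 2) ℂ),
          mixd (∑ i ∈ s, f i) B = ∑ i ∈ s, mixd (f i) B := by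
        classical
        intro s f B
        induction s using Finset.induction_on with
        | empty => simp [mixd_zero_left]
        | insert a s ha ih => rw [Finset.sum_insert ha, Finset.sum_insert ha, mixd_add_left, ih]
      show mixd (ddc v e (e p)) (T e (e p)) / detC g e (e p) =
        ∑ i, mixd (ddc (fun q => ρ i q * v q) e (e p)) (T e (e p)) / detC g e (e p)
      rw [h3, h4, Finset.sum_div]
    · intro i _
      exact hμ.integrable (hu.continuous.mul (smoothFun_wd g (isForm_ddc (hvi i)) hT).continuous)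
  rw [i1, i2]
  exact Finset.sum_congr rfl fun i _ => h1 i

/-- the integral of `√-1∂\bar∂u ∧ T` vanishes -/
theorem integral_ddc_zero (hμ : IsVolume g μ) {T : RawForm 2 M} (hT : IsForm T) {u : M → ℝ}
    (hu : SmoothFun (n := 2) u) : ∫ p, wd g (ddc u) T p ∂μ = 0 := by
  have h := ibp hμ hT hu (SmoothFun.const (n := 2) (M := M) 1)
  have h2 : ∀ p, wd g (ddc (fun _ => (1 : ℝ))) T p = 0 := by
    intro p
    simp only [wd, ddc, cHess_const, mixd_zero_left, zero_div]
  simpa [h2] using h

end surface

end Pool.Agent.KS
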