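import Pool.Agent.KS.Secs

/-!
# Global upper bound of the Bergman function (module GBERG)
-/

namespace Pool.Agent.KS

open MeasureTheory Complex Topology
open scoped ContDiff Matrix ComplexOrder ComplexConjugate Manifold

noncomputable section

namespace CSurf

namespace GB

variable {M ι : Type} [TopologicalSpace M] {S : CSurf M ι} {φ : ι → C2 → ℝ} {k : ℕ}

/-- the function `|∑ conj(s_a(z₀)) s_a|² e^{-kφ}` written with the pairings -/
def hfun (S : CSurf M ι) (φ : ι → C2 → ℝ) (k : ℕ) {N : ℕ} (s : Fin N → ι → C2 → ℂ)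
    (v : Fin N → ℂ) (y : M) : ℂ :=
  ∑ a, ∑ b, conj (v a) * v b * S.pr φ k s a b y

theorem hfun_eq {N : ℕ} {s : Fin N → ι → C2 → ℂ} (hs : S.IsSec φ k s) (v : Fin N → ℂ) (i : ι)
    {y : M} (hy : y ∈ (S.ch i).source) :
    hfun S φ k s v y = ((‖∑ a, conj (v a) * s a i (S.ch i y)‖ ^ 2
      * Real.exp (-k * φ i (S.ch i y)) : ℝ) : ℂ) := by
  unfold hfun
  have h1 : ((‖∑ a, conj (v a) * s a i (S.ch i y)‖ ^ 2 : ℝ) : ℂ) =
      (∑ a, conj (v a) * s a i (S.ch i y)) * conj (∑ a, conj (v a) * s a i (S.ch i y)) := by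
    rw [Complex.mul_conj']; push_cast; rfl
  rw [Complex.ofReal_mul, h1, map_sum, Finset.sum_mul_sum, Finset.sum_mul]
  refine Finset.sum_congr rfl fun a _ => ?_
  rw [Finset.sum_mul]
  refine Finset.sum_congr rfl fun b _ => ?_
  rw [hs.pr_eq a b i hy, map_mul, Complex.conj_conj]
  ring

theorem hfun_nonneg {N : ℕ} {s : Fin N → ι → C2 → ℂ} (hs : S.IsSec φ k s) (v : Fin N → ℂ)
    (y : M) : 0 ≤ (hfun S φ k s v y).re := by
  obtain ⟨i, hi⟩ := S.cover y
  rw [hfun_eq hs v i hi, Complex.ofReal_re]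
  positivity

theorem continuous_hfun {N : ℕ} {s : Fin N → ι → C2 → ℂ} (hφ : S.IsFrm φ) (hs : S.IsSec φ k s)
    (v : Fin N → ℂ) : Continuous (hfun S φ k s v) := by
  unfold hfun
  refine continuous_finsetSum _ fun a _ => continuous_finsetSum _ fun b _ => ?_
  exact continuous_const.mul (hs.continuous_pr hφ a b)

theorem integrable_of_continuous [MeasurableSpace M] [BorelSpace M] [CompactSpace M]
    {ν : Measure M} [IsFiniteMeasure ν] {f : M → ℂ} (hf : Continuous f) : Integrable f ν :=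
  hf.integrable_of_hasCompactSupport (HasCompactSupport.of_compactSpace f)

theorem integral_hfun [MeasurableSpace M] [BorelSpace M] [CompactSpace M]
    {ν : Measure M} [IsFiniteMeasure ν] {N : ℕ} {s : Fin N → ι → C2 → ℂ} (hφ : S.IsFrm φ)
    (hs : S.IsSec φ k s) (ho : S.Ortho φ ν k s) (v : Fin N → ℂ) :
    ∫ y, hfun S φ k s v y ∂ν = ((∑ a, ‖v a‖ ^ 2 : ℝ) : ℂ) := by
  unfold hfun
  have hint : ∀ a b, Integrable (fun y => conj (v a) * v b * S.pr φ k s a b y) ν := fun a b =>
    integrable_of_continuous (continuous_const.mul (hs.continuous_pr hφ a b))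
  rw [integral_finsetSum _ (fun a _ => integrable_finsetSum _ fun b _ => hint a b)]
  push_cast
  refine Finset.sum_congr rfl fun a _ => ?_
  rw [integral_finsetSum _ (fun b _ => hint a b)]
  have h1 : ∀ b, ∫ y, conj (v a) * v b * S.pr φ k s a b y ∂ν =
      if a = b then conj (v a) * v b else 0 := by
    intro b
    rw [integral_const_mul, ho a b]
    split_ifs <;> simp
  simp_rw [h1]
  rw [Finset.sum_ite_eq Finset.univ a, if_pos (Finset.mem_univ a), mul_comm, Complex.mul_conj']

end GB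

open GB

variable {M ι : Type} [TopologicalSpace M] {S : CSurf M ι}

/-- global upper bound of the Bergman function (module GBERG) -/
theorem global_bergman [MeasurableSpace M] [BorelSpace M] [CompactSpace M] [T2Space M] [Fintype ι]
    {φ : ι → C2 → ℝ} {ν : Measure M} (hφ : S.IsKah φ) (hν : S.IsVolF φ ν) :
    ∃ C : ℝ, ∃ k0 : ℕ, 0 < k0 ∧ ∀ k : ℕ, k0 ≤ k → ∀ (N : ℕ) (s : Fin N → ι → C2 → ℂ),
      S.IsSec φ k s → S.Ortho φ ν k s → ∀ x,
      Real.pi ^ 2 / k ^ 2 * S.ws φ k s (fun _ => 1) x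
        ≤ 1 + S.shM φ x / k + C / (k * Real.sqrt k) := by
  classical
  have hfin : IsFiniteMeasure ν := hν.finite hφ
  obtain ⟨K, hKc, hKt, hcov⟩ := exists_compact_cover S
  have hloc := fun i => local_bergman (S.ch i).open_target (hφ.smooth i) (hφ.pos i) (hKc i) (hKt i)
  choose r hr hrU C k0 hk0 hmain using hloc
  obtain ⟨S0, hS0⟩ : ∃ S0 : ℝ, ∀ x, |S.shM φ x| ≤ S0 := by
    have hc : Continuous (S.shM φ) := (sm_shM hφ).continuous
    obtain ⟨S0, h⟩ := isCompact_univ.exists_bound_of_continuousOn (f := S.shM φ) hc.continuousOn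
    exact ⟨S0, fun x => h x (Set.mem_univ x)⟩
  set Cm : ℝ := ∑ i, |C i| with hCm
  have hCi : ∀ i, C i ≤ Cm := fun i =>
    (le_abs_self _).trans (Finset.single_le_sum (f := fun i => |C i|) (fun _ _ => abs_nonneg _)
      (Finset.mem_univ i))
  have hCm0 : 0 ≤ Cm := Finset.sum_nonneg fun _ _ => abs_nonneg _
  refine ⟨Cm, (∑ i, k0 i) + ⌈S0⌉₊ + 1, by omega, ?_⟩
  intro k hk N s hs ho x
  have hki : ∀ i, k0 i ≤ k := fun i => by
    have := Finset.single_le_sum (f := k0) (fun _ _ => Nat.zero_le _) (Finset.mem_univ i)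
    omega
  have hk1 : 0 < k := by omega
  have hkR : (0 : ℝ) < k := by exact_mod_cast hk1
  have hsq : 0 < Real.sqrt k := Real.sqrt_pos.2 hkR
  have hkS : S0 ≤ k := by
    have h1 : ⌈S0⌉₊ ≤ k := by omega
    have h2 : ((⌈S0⌉₊ : ℕ) : ℝ) ≤ k := by exact_mod_cast h1
    exact (Nat.le_ceil S0).trans h2
  obtain ⟨i, hxi, hzK⟩ := hcov x
  set z : C2 := S.ch i x with hz
  set v : Fin N → ℂ := fun a => s a i z with hv
  set B : ℝ := ∑ a, ‖v a‖ ^ 2 with hB
  have hB0 : 0 ≤ B := Finset.sum_nonneg fun _ _ => by positivity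
  have hws : S.ws φ k s (fun _ => 1) x = B * Real.exp (-k * φ i z) := by
    rw [hs.ws_eq (fun _ => 1) i hxi, hB, Finset.sum_mul]
    refine Finset.sum_congr rfl fun a _ => ?_
    rw [one_mul]
  set D : ℝ := 1 + S.shM φ x / k + Cm / (k * Real.sqrt k) with hD
  have hD0 : 0 ≤ D := by
    have h1 : -1 ≤ S.shM φ x / k := by
      rw [le_div_iff₀ hkR]
      have := neg_abs_le (S.shM φ x)
      have := hS0 x
      linarith
    have h2 : 0 ≤ Cm / (k * Real.sqrt k) := by positivity
    linarith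
  -- the local estimate
  set f : C2 → ℂ := fun w => ∑ a, conj (v a) * s a i w with hf
  have hfd : DifferentiableOn ℂ f (S.ch i).target := by
    refine DifferentiableOn.fun_sum fun a _ => ?_
    exact ((hs.holo a i).differentiableOn (by simp)).const_mul _
  have hmn := hmain i k (hki i) z hzK f hfd
  have hfz : f z = ((B : ℝ) : ℂ) := by
    simp only [hf, hB]
    push_cast
    refine Finset.sum_congr rfl fun a _ => ?_
    rw [mul_comm, Complex.mul_conj']
  have hI : ∫ w in Metric.closedBall z (r i), ‖f w‖ ^ 2 * Real.exp (-k * φ i w) * dt (φ i) w ≤ B := by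
    have hball : Metric.closedBall z (r i) ⊆ (S.ch i).target := hrU i z hzK
    have h1 : ∫ w in Metric.closedBall z (r i), ‖f w‖ ^ 2 * Real.exp (-k * φ i w) * dt (φ i) w =
        ∫ w in Metric.closedBall z (r i),
          dt (φ i) w • (hfun S φ k s v ((S.ch i).symm w)).re := by
      refine setIntegral_congr_fun Metric.isClosed_closedBall.measurableSet fun w hw => ?_
      have hw' := hball hw
      have hsrc : (S.ch i).symm w ∈ (S.ch i).source := (S.ch i).map_target hw'
      simp only [smul_eq_mul]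
      rw [hfun_eq hs v i hsrc, Complex.ofReal_re, (S.ch i).right_inv hw']
      ring
    rw [h1, ← hν.integral_subset hφ i (fun y => (hfun S φ k s v y).re)
      Metric.isClosed_closedBall.measurableSet hball]
    have hint : Integrable (fun y => (hfun S φ k s v y).re) ν :=
      (integrable_of_continuous (continuous_hfun hφ.toIsFrm hs v)).re
    refine (setIntegral_le_integral hint
      (Filter.Eventually.of_forall fun y => hfun_nonneg hs v y)).trans (le_of_eq ?_)
    have h2 : ∫ y, (hfun S φ k s v y).re ∂ν = (∫ y, hfun S φ k s v y ∂ν).re :=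
      integral_re (integrable_of_continuous (continuous_hfun hφ.toIsFrm hs v))
    rw [h2, integral_hfun hφ.toIsFrm hs ho v, Complex.ofReal_re]
  have hshz : sh (φ i) z = S.shM φ x := (shM_eq hφ i hxi).symm
  rw [hfz, Complex.norm_real, Real.norm_of_nonneg hB0, hshz] at hmn
  have hfac : (1 + S.shM φ x / k + C i / (k * Real.sqrt k)) ≤ D := by
    have : C i / (k * Real.sqrt k) ≤ Cm / (k * Real.sqrt k) :=
      div_le_div_of_nonneg_right (hCi i) (by positivity)
    linarith
  have hI0 : 0 ≤ ∫ w in Metric.closedBall z (r i),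
      ‖f w‖ ^ 2 * Real.exp (-k * φ i w) * dt (φ i) w := by
    refine setIntegral_nonneg Metric.isClosed_closedBall.measurableSet fun w hw => ?_
    exact mul_nonneg (by positivity) (hφ.dt_pos i (hrU i z hzK hw)).le
  have hpk : 0 ≤ (k : ℝ) ^ 2 / Real.pi ^ 2 := by positivity
  have hkey : B ^ 2 * Real.exp (-k * φ i z) ≤ (k : ℝ) ^ 2 / Real.pi ^ 2 * D * B := by
    refine hmn.trans ?_
    calc _ ≤ (k : ℝ) ^ 2 / Real.pi ^ 2 * D *
          ∫ w in Metric.closedBall z (r i),
            ‖f w‖ ^ 2 * Real.exp (-k * φ i w) * dt (φ i) w :=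
          mul_le_mul_of_nonneg_right (mul_le_mul_of_nonneg_left hfac hpk) hI0
      _ ≤ _ := mul_le_mul_of_nonneg_left hI (mul_nonneg hpk hD0)
  rw [hws]
  rcases hB0.eq_or_lt with h0 | h0
  · rw [← h0, zero_mul, mul_zero]
    exact hD0
  · have h3 : B * Real.exp (-k * φ i z) ≤ (k : ℝ) ^ 2 / Real.pi ^ 2 * D := by
      have h4 : (B * Real.exp (-k * φ i z)) * B ≤ ((k : ℝ) ^ 2 / Real.pi ^ 2 * D) * B := by
        calc _ = B ^ 2 * Real.exp (-k * φ i z) := by ring
          _ ≤ _ := hkey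
      exact le_of_mul_le_mul_right h4 h0
    calc Real.pi ^ 2 / k ^ 2 * (B * Real.exp (-k * φ i z)) ≤
          Real.pi ^ 2 / k ^ 2 * ((k : ℝ) ^ 2 / Real.pi ^ 2 * D) := by gcongr
      _ = D := by
          have hpi : Real.pi ≠ 0 := Real.pi_ne_zero
          field_simp

end CSurf

end

end Pool.Agent.KS
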