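import Pool.Agent.KS.GBerg

/-!
# Global derivative bounds (module GDERIV)
-/

namespace Pool.Agent.KS

open MeasureTheory Complex Topology
open scoped ContDiff Matrix ComplexOrder ComplexConjugate Manifold

noncomputable section

namespace CSurf

variable {M ι : Type} [TopologicalSpace M] {S : CSurf M ι}

/-- global derivative bounds (module GDERIV); `K` is a compact cover -/
theorem global_deriv [MeasurableSpace M] [BorelSpace M] [CompactSpace M] [T2Space M] [Fintype ι]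
    {φ : ι → C2 → ℝ} {ν : Measure M} (hφ : S.IsKah φ) (hν : S.IsVolF φ ν)
    {K : ι → Set C2} (hK : ∀ i, IsCompact (K i)) (hKt : ∀ i, K i ⊆ (S.ch i).target) :
    ∃ C : ℝ, 0 ≤ C ∧ ∃ k0 : ℕ, 0 < k0 ∧ ∀ k : ℕ, k0 ≤ k → ∀ (N : ℕ) (s : Fin N → ι → C2 → ℂ),
      S.IsSec φ k s → S.Ortho φ ν k s → ∀ c : Fin N → ℝ, (∀ a, 0 ≤ c a ∧ c a ≤ 1) →
      ∀ i, ∀ z ∈ K i,
        (∀ j, ‖gz j (S.fnF (fun x => Real.pi ^ 2 / k ^ 2 * S.ws φ k s c x) i) z‖
          ≤ C * Real.sqrt k) ∧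
        (∀ j l, ‖cHess (S.fnF (fun x => Real.pi ^ 2 / k ^ 2 * S.ws φ k s c x) i) z j l‖
          ≤ C * k) := by
  obtain ⟨CB, kB, hkB, hB⟩ := global_bergman hφ hν
  have hloc := fun i => local_deriv (S.ch i).open_target (hφ.smooth i) (hK i) (hKt i)
  choose CL hCL0 kL hkL hL using hloc
  -- a bound of the scalar curvature
  obtain ⟨Sb, hSb⟩ : ∃ Sb : ℝ, ∀ x : M, S.shM φ x ≤ Sb := by
    have h1 := isCompact_univ.bddAbove_image (sm_shM hφ).continuous.continuousOn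
    obtain ⟨b, hb⟩ := h1
    exact ⟨b, fun x => hb (Set.mem_image_of_mem _ (Set.mem_univ x))⟩
  set A : ℝ := 1 + |Sb| + |CB| with hA
  have hA0 : 0 ≤ A := by positivity
  refine ⟨∑ i, CL i * A, Finset.sum_nonneg fun i _ => mul_nonneg (hCL0 i) hA0,
    kB + ∑ i, kL i, by omega, ?_⟩
  intro k hk N s hs ho c hc i z hz
  have hkB' : kB ≤ k := by omega
  have hkLi : kL i ≤ k := by
    have : kL i ≤ ∑ i, kL i := Finset.single_le_sum (f := kL) (fun _ _ => Nat.zero_le _) (Finset.mem_univ i)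
    omega
  have hk1 : (1 : ℝ) ≤ k := by exact_mod_cast (by omega : 1 ≤ k)
  have hk0 : (0 : ℝ) < k := by linarith
  have hsk : 1 ≤ Real.sqrt k := by
    rw [show (1 : ℝ) = Real.sqrt 1 by simp]; exact Real.sqrt_le_sqrt hk1
  -- the upper bound of the Bergman function
  have hup : ∀ x : M, Real.pi ^ 2 / k ^ 2 * S.ws φ k s (fun _ => 1) x ≤ A := by
    intro x
    refine (hB k hkB' N s hs ho x).trans ?_
    have h1 : S.shM φ x / k ≤ |Sb| := by
      rw [div_le_iff₀ hk0]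
      have h2 : |Sb| * 1 ≤ |Sb| * k := mul_le_mul_of_nonneg_left hk1 (abs_nonneg _)
      linarith [hSb x, le_abs_self Sb]
    have h3 : CB / (k * Real.sqrt k) ≤ |CB| := by
      have h4 : (1 : ℝ) ≤ k * Real.sqrt k := by nlinarith
      rw [div_le_iff₀ (by positivity)]
      have h2 : |CB| * 1 ≤ |CB| * (k * Real.sqrt k) := mul_le_mul_of_nonneg_left h4 (abs_nonneg _)
      linarith [le_abs_self CB]
    rw [hA]; linarith
  obtain ⟨hsub, hmain⟩ := hL i k hkLi z hz
  have hzt : z ∈ (S.ch i).target := hKt i hz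
  set c' : Fin N → ℝ := fun a => Real.pi ^ 2 / k ^ 2 * c a with hc'
  have hc'0 : ∀ a, 0 ≤ c' a := fun a => mul_nonneg (by positivity) (hc a).1
  have hwsloc : ∀ (e : Fin N → ℝ), ∀ w ∈ (S.ch i).target,
      Real.pi ^ 2 / k ^ 2 * S.ws φ k s e ((S.ch i).symm w)
        = ∑ a, (Real.pi ^ 2 / k ^ 2 * e a) * ‖s a i w‖ ^ 2 * Real.exp (-k * φ i w) := by
    intro e w hw
    rw [hs.ws_eq e i ((S.ch i).map_target hw), (S.ch i).right_inv hw, Finset.mul_sum]
    refine Finset.sum_congr rfl fun a _ => ?_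
    ring
  have hbd : ∀ w ∈ Metric.closedBall z (1 / Real.sqrt k),
      ∑ a, c' a * ‖s a i w‖ ^ 2 * Real.exp (-k * φ i w) ≤ A := by
    intro w hw
    have hwt := hsub hw
    refine le_trans ?_ (hup ((S.ch i).symm w))
    rw [hwsloc _ w hwt]
    refine Finset.sum_le_sum fun a _ => ?_
    have : c' a ≤ Real.pi ^ 2 / k ^ 2 * 1 := mul_le_mul_of_nonneg_left (hc a).2 (by positivity)
    gcongr
  obtain ⟨h1, h2⟩ := hmain (Fin N) (fun a => s a i) c' A (fun a => hs.holo a i) hc'0 hbd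
  have hev : S.fnF (fun x => Real.pi ^ 2 / k ^ 2 * S.ws φ k s c x) i =ᶠ[𝓝 z]
      fun w => ∑ a, c' a * ‖s a i w‖ ^ 2 * Real.exp (-k * φ i w) := by
    filter_upwards [(S.ch i).open_target.mem_nhds hzt] with w hw
    exact hwsloc c w hw
  have hle : CL i * A ≤ ∑ i, CL i * A :=
    Finset.single_le_sum (f := fun i => CL i * A) (fun i _ => mul_nonneg (hCL0 i) hA0) (Finset.mem_univ i)
  constructor
  · intro j
    have hg : gz j (S.fnF (fun x => Real.pi ^ 2 / k ^ 2 * S.ws φ k s c x) i) z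
        = gz j (fun w => ∑ a, c' a * ‖s a i w‖ ^ 2 * Real.exp (-k * φ i w)) z := by
      unfold gz
      exact dz_congr j (hev.fun_comp (fun t : ℝ => (t : ℂ)))
    rw [hg]
    exact (h1 j).trans (mul_le_mul_of_nonneg_right hle (Real.sqrt_nonneg _))
  · intro j l
    rw [cHess_congr hev]
    exact (h2 j l).trans (mul_le_mul_of_nonneg_right hle hk0.le)

end CSurf

end

end Pool.Agent.KS
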