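import Pool.Agent.KS.Calc

/-!
# Local integration by parts (module IBP)
-/

namespace Pool.Agent.KS

open MeasureTheory Complex Topology
open scoped ContDiff Matrix ComplexOrder ComplexConjugate Manifold

noncomputable section

theorem integral_fderiv_zero {G : C2 → ℂ} (hG : ContDiff ℝ ∞ G) (hc : HasCompactSupport G)
    (v : C2) : Integrable (fun z => fderiv ℝ G z v) ∧ ∫ z, fderiv ℝ G z v = 0 := by
  have hG1 : ContDiff ℝ 1 G := hG.of_le (WithTop.coe_le_coe.mpr le_top)
  have hcont : Continuous (fun z => fderiv ℝ G z v) :=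
    (hG1.continuous_fderiv (by norm_num)).clm_apply continuous_const
  have hcs : HasCompactSupport (fun z => fderiv ℝ G z v) := hc.fderiv_apply ℝ v
  have hint : Integrable (fun z => fderiv ℝ G z v) := hcont.integrable_of_hasCompactSupport hcs
  refine ⟨hint, ?_⟩
  have h := integral_smul_fderiv_eq_neg_fderiv_smul_of_integrable (μ := (volume : Measure C2))
    (f := fun _ => (1 : ℝ)) (g := G) (v := v)
    (by simp)
    (by simpa using hint)
    (by simpa using (hG1.continuous.integrable_of_hasCompactSupport hc))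
    (fun _ _ => differentiableAt_const _)
    (fun x _ => hG1.differentiable (by norm_num) x)
  simpa using h

theorem integral_dz_zero {G : C2 → ℂ} (hG : ContDiff ℝ ∞ G) (hc : HasCompactSupport G)
    (i : Fin 2) : Integrable (fun z => dz i G z) ∧ ∫ z, dz i G z = 0 := by
  have h1 := integral_fderiv_zero hG hc (Pi.single i 1)
  have h2 := integral_fderiv_zero hG hc (Pi.single i Complex.I)
  have h3 : Integrable (fun z => Complex.I * fderiv ℝ G z (Pi.single i Complex.I)) :=
    h2.1.const_mul _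
  unfold dz
  refine ⟨(h1.1.sub h3).const_mul _, ?_⟩
  rw [integral_const_mul, integral_sub h1.1 h3, integral_const_mul, h1.2, h2.2]
  simp

theorem integral_dzb_zero {G : C2 → ℂ} (hG : ContDiff ℝ ∞ G) (hc : HasCompactSupport G)
    (i : Fin 2) : Integrable (fun z => dzb i G z) ∧ ∫ z, dzb i G z = 0 := by
  have h1 := integral_fderiv_zero hG hc (Pi.single i 1)
  have h2 := integral_fderiv_zero hG hc (Pi.single i Complex.I)
  have h3 : Integrable (fun z => Complex.I * fderiv ℝ G z (Pi.single i Complex.I)) :=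
    h2.1.const_mul _
  unfold dzb
  refine ⟨(h1.1.add h3).const_mul _, ?_⟩
  rw [integral_const_mul, integral_add h1.1 h3, integral_const_mul, h1.2, h2.2]
  simp

theorem contDiff_zero_off_ibp {E : Type*} [NormedAddCommGroup E] [NormedSpace ℝ E]
    {U K : Set C2} (hU : IsOpen U) (hK : IsClosed K) (hKU : K ⊆ U)
    {G : C2 → E} (h1 : ContDiffOn ℝ ∞ G U) (h2 : ∀ z, z ∉ K → G z = 0) : ContDiff ℝ ∞ G := by
  rw [contDiff_iff_contDiffAt]
  intro z
  by_cases hz : z ∈ K
  · exact h1.contDiffAt (hU.mem_nhds (hKU hz))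
  · have h3 : G =ᶠ[𝓝 z] fun _ => 0 := by
      filter_upwards [hK.isOpen_compl.mem_nhds hz] with w hw using h2 w hw
    exact contDiffAt_const.congr_of_eventuallyEq h3

theorem hcs_zero_off_ibp {E : Type*} [Zero E]
    {K : Set C2} (hK : IsCompact K) {G : C2 → E} (h2 : ∀ z, z ∉ K → G z = 0) :
    HasCompactSupport G :=
  HasCompactSupport.intro hK (fun z hz => h2 z hz)

theorem four_zero {f₁ f₂ f₃ f₄ : C2 → ℂ} (h₁ : Integrable f₁ ∧ ∫ z, f₁ z = 0)
    (h₂ : Integrable f₂ ∧ ∫ z, f₂ z = 0) (h₃ : Integrable f₃ ∧ ∫ z, f₃ z = 0)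
    (h₄ : Integrable f₄ ∧ ∫ z, f₄ z = 0) :
    Integrable (fun z => (f₁ z + f₂ z) - (f₃ z + f₄ z)) ∧
      ∫ z, ((f₁ z + f₂ z) - (f₃ z + f₄ z)) = 0 := by
  have h12 : Integrable (fun z => f₁ z + f₂ z) := h₁.1.add h₂.1
  have h34 : Integrable (fun z => f₃ z + f₄ z) := h₃.1.add h₄.1
  refine ⟨h12.sub h34, ?_⟩
  rw [integral_sub h12 h34, integral_add h₁.1 h₂.1, integral_add h₃.1 h₄.1, h₁.2, h₂.2, h₃.2, h₄.2]
  simp

/-- Local integration by parts: `∫ a · D(b,u) = ∫ b · D(a,u)` for `a` with compact support in `U`. -/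
theorem ibp_local {U : Set C2} (hU : IsOpen U) {a b u : C2 → ℝ} (ha : ContDiff ℝ ∞ a)
    (hac : HasCompactSupport a) (haU : tsupport a ⊆ U) (hb : ContDiffOn ℝ ∞ b U)
    (hu : ContDiffOn ℝ ∞ u U) :
    ∫ z in U, a z * Dm b u z = ∫ z in U, b z * Dm a u z := by
  set K := tsupport a with hKdef
  have hK : IsClosed K := isClosed_tsupport a
  have hKc : IsCompact K := hac
  have aev : ∀ z, z ∉ K → a =ᶠ[𝓝 z] fun _ => 0 := by
    intro z hz
    exact notMem_tsupport_iff_eventuallyEq.mp hz
  -- complexifications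
  set aC : C2 → ℂ := fun z => ((a z : ℝ) : ℂ) with haC
  set bC : C2 → ℂ := fun z => ((b z : ℝ) : ℂ) with hbC
  set uC : C2 → ℂ := fun z => ((u z : ℝ) : ℂ) with huC
  have saC : ContDiffOn ℝ ∞ aC U := (Complex.ofRealCLM.contDiff.comp ha).contDiffOn
  have sbC : ContDiffOn ℝ ∞ bC U := Complex.ofRealCLM.contDiff.comp_contDiffOn hb
  have suC : ContDiffOn ℝ ∞ uC U := Complex.ofRealCLM.contDiff.comp_contDiffOn hu
  have aC0 : ∀ z, z ∉ K → aC z = 0 := by
    intro z hz
    have : a z = 0 := image_eq_zero_of_notMem_tsupport hz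
    simp [haC, this]
  have aCev : ∀ z, z ∉ K → aC =ᶠ[𝓝 z] fun _ => 0 := by
    intro z hz
    filter_upwards [hK.isOpen_compl.mem_nhds hz] with w hw using aC0 w hw
  have daC0 : ∀ i z, z ∉ K → dz i aC z = 0 := by
    intro i z hz
    rw [dz_congr i (aCev z hz), dz_const]
  -- the Hessian of u
  have sH : ∀ i j, ContDiffOn ℝ ∞ (fun z => cHess u z i j) U := fun i j =>
    contDiffOn_cHess hU i j hu
  have sdb : ∀ j, ContDiffOn ℝ ∞ (fun z => dzb j bC z) U := fun j => contDiffOn_dzb hU j sbC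
  have sda : ∀ j, ContDiffOn ℝ ∞ (fun z => dz j aC z) U := fun j => contDiffOn_dz hU j saC
  have sdu : ∀ j, ContDiffOn ℝ ∞ (fun z => dzb j uC z) U := fun j => contDiffOn_dzb hU j suC
  -- the functions whose derivatives are integrated
  set G : Fin 2 → Fin 2 → Fin 2 → C2 → ℂ := fun p q j z =>
    cHess u z p q * (aC z * dzb j bC z) with hG
  set H : Fin 2 → Fin 2 → Fin 2 → C2 → ℂ := fun p q i z =>
    cHess u z p q * (bC z * dz i aC z) with hH
  have G0 : ∀ p q j z, z ∉ K → G p q j z = 0 := by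
    intro p q j z hz
    simp [hG, aC0 z hz]
  have H0 : ∀ p q j z, z ∉ K → H p q j z = 0 := by
    intro p q j z hz
    simp [hH, daC0 j z hz]
  have sG : ∀ p q j, ContDiff ℝ ∞ (G p q j) := fun p q j =>
    contDiff_zero_off_ibp hU hK haU ((sH p q).mul (saC.mul (sdb j))) (G0 p q j)
  have sHH : ∀ p q j, ContDiff ℝ ∞ (H p q j) := fun p q j =>
    contDiff_zero_off_ibp hU hK haU ((sH p q).mul (sbC.mul (sda j))) (H0 p q j)
  have cG : ∀ p q j, HasCompactSupport (G p q j) := fun p q j =>
    hcs_zero_off_ibp hKc (G0 p q j)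
  have cH : ∀ p q j, HasCompactSupport (H p q j) := fun p q j =>
    hcs_zero_off_ibp hKc (H0 p q j)
  set T : C2 → ℂ := fun z =>
    ((dz 0 (G 1 1 0) z - dzb 0 (H 1 1 0) z) + (dz 1 (G 0 0 1) z - dzb 1 (H 0 0 1) z))
    - ((dz 0 (G 1 0 1) z - dzb 1 (H 1 0 0) z) + (dz 1 (G 0 1 0) z - dzb 0 (H 0 1 1) z)) with hT
  have iT1 : ∀ p q j i p' q' j' i', Integrable (fun z => dz i (G p q j) z - dzb i' (H p' q' j') z)
      ∧ ∫ z, (dz i (G p q j) z - dzb i' (H p' q' j') z) = 0 := by
    intro p q j i p' q' j' i'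
    have h1 := integral_dz_zero (sG p q j) (cG p q j) i
    have h2 := integral_dzb_zero (sHH p' q' j') (cH p' q' j') i'
    refine ⟨h1.1.sub h2.1, ?_⟩
    rw [integral_sub h1.1 h2.1, h1.2, h2.2, sub_zero]
  obtain ⟨iT2, iT3⟩ : Integrable T ∧ ∫ z, T z = 0 :=
    four_zero (iT1 1 1 0 0 1 1 0 0) (iT1 0 0 1 1 0 0 1 1) (iT1 1 0 1 0 1 0 0 1)
      (iT1 0 1 0 1 0 1 1 0)
  -- the pointwise identity
  have key : ∀ z, a z * Dm b u z - b z * Dm a u z = ((1 / 2 : ℂ) * T z).re := by
    intro z
    by_cases hz : z ∈ K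
    · have hzU : z ∈ U := haU hz
      have hnU : U ∈ 𝓝 z := hU.mem_nhds hzU
      have dif : ∀ {F : C2 → ℂ}, ContDiffOn ℝ ∞ F U → DifferentiableAt ℝ F z := by
        intro F hF
        exact (hF.contDiffAt hnU).differentiableAt (by simp)
      have cd2 : ∀ {F : C2 → ℂ}, ContDiffOn ℝ ∞ F U → ContDiffAt ℝ 2 F z := by
        intro F hF
        exact (hF.contDiffAt hnU).of_le (WithTop.coe_le_coe.mpr le_top)
      have cd2' : ∀ {F : C2 → ℂ}, ContDiffOn ℝ ∞ F U → ∀ w ∈ U, ContDiffAt ℝ 2 F w := by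
        intro F hF w hw
        exact (hF.contDiffAt (hU.mem_nhds hw)).of_le (WithTop.coe_le_coe.mpr le_top)
      -- derivative of G, H
      have eG : ∀ p q i j, dz i (G p q j) z = dz i (fun w => cHess u w p q) z * (aC z * dzb j bC z)
          + cHess u z p q * (dz i aC z * dzb j bC z + aC z * cHess b z i j) := by
        intro p q i j
        simp only [hG]
        rw [dz_mul i (dif (sH p q)) (dif (saC.mul (sdb j))), dz_mul i (dif saC) (dif (sdb j))]
        rfl
      have eH : ∀ p q i j, dzb j (H p q i) z = dzb j (fun w => cHess u w p q) z * (bC z * dz i aC z)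
          + cHess u z p q * (dzb j bC z * dz i aC z + bC z * cHess a z i j) := by
        intro p q i j
        simp only [hH]
        rw [dzb_mul j (dif (sH p q)) (dif (sbC.mul (sda i))), dzb_mul j (dif sbC) (dif (sda i)),
          ← dz_dzb_comm i j (cd2 saC)]
        rfl
      -- closedness
      have c1 : dz 0 (fun w => cHess u w 1 1) z = dz 1 (fun w => cHess u w 0 1) z :=
        dz_dz_comm 0 1 (cd2 (sdu 1))
      have c2 : dz 1 (fun w => cHess u w 0 0) z = dz 0 (fun w => cHess u w 1 0) z :=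
        dz_dz_comm 1 0 (cd2 (sdu 0))
      have hswap : ∀ p i j, dzb i (fun w => cHess u w p j) z = dzb j (fun w => cHess u w p i) z := by
        intro p i j
        have h1 : dzb i (fun w => cHess u w p j) z = dz p (fun w => dzb i (fun v => dzb j uC v) w) z :=
          (dz_dzb_comm p i (cd2 (sdu j))).symm
        have h2 : dzb j (fun w => cHess u w p i) z = dz p (fun w => dzb j (fun v => dzb i uC v) w) z :=
          (dz_dzb_comm p j (cd2 (sdu i))).symm
        rw [h1, h2]
        apply dz_congr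
        filter_upwards [hnU] with w hw
        exact dzb_dzb_comm i j (cd2' suC w hw)
      have c3 : dzb 0 (fun w => cHess u w 1 1) z = dzb 1 (fun w => cHess u w 1 0) z := hswap 1 0 1
      have c4 : dzb 1 (fun w => cHess u w 0 0) z = dzb 0 (fun w => cHess u w 0 1) z := hswap 0 1 0
      have e1 : a z * Dm b u z = (aC z * ((cHess b z 0 0 * cHess u z 1 1
          + cHess b z 1 1 * cHess u z 0 0 - cHess b z 0 1 * cHess u z 1 0
          - cHess b z 1 0 * cHess u z 0 1) / 2)).re := by
        unfold Dm mdet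
        rw [haC, Complex.re_ofReal_mul]
      have e2 : b z * Dm a u z = (bC z * ((cHess a z 0 0 * cHess u z 1 1
          + cHess a z 1 1 * cHess u z 0 0 - cHess a z 0 1 * cHess u z 1 0
          - cHess a z 1 0 * cHess u z 0 1) / 2)).re := by
        unfold Dm mdet
        rw [hbC, Complex.re_ofReal_mul]
      rw [e1, e2, ← Complex.sub_re]
      congr 1
      simp only [hT, eG, eH, c1, c2, c3, c4]
      ring
    · have hnK : Kᶜ ∈ 𝓝 z := hK.isOpen_compl.mem_nhds hz
      have h1 : a z = 0 := image_eq_zero_of_notMem_tsupport hz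
      have h2 : Dm a u z = 0 := by
        unfold Dm
        rw [cHess_congr (aev z hz), cHess_const]
        simp [mdet]
      have h3 : ∀ p q j i, dz i (G p q j) z = 0 := by
        intro p q j i
        have : G p q j =ᶠ[𝓝 z] fun _ => 0 := by
          filter_upwards [hnK] with w hw using G0 p q j w hw
        rw [dz_congr i this, dz_const]
      have h4 : ∀ p q j i, dzb i (H p q j) z = 0 := by
        intro p q j i
        have : H p q j =ᶠ[𝓝 z] fun _ => 0 := by
          filter_upwards [hnK] with w hw using H0 p q j w hw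
        rw [dzb_congr i this, dzb_const]
      simp only [hT, h3, h4, h1, h2]
      simp
  -- integrability of the two sides
  have z1 : ∀ z, z ∉ K → a z * Dm b u z = 0 := by
    intro z hz
    have h1 : a z = 0 := image_eq_zero_of_notMem_tsupport hz
    rw [h1, zero_mul]
  have z2 : ∀ z, z ∉ K → b z * Dm a u z = 0 := by
    intro z hz
    have h2 : Dm a u z = 0 := by
      unfold Dm
      rw [cHess_congr (aev z hz), cHess_const]
      simp [mdet]
    rw [h2, mul_zero]
  have i1 : Integrable (fun z => a z * Dm b u z) :=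
    (contDiff_zero_off_ibp hU hK haU (ha.contDiffOn.mul (contDiffOn_Dm hU hb hu))
      z1).continuous.integrable_of_hasCompactSupport (hcs_zero_off_ibp hKc z1)
  have i2 : Integrable (fun z => b z * Dm a u z) :=
    (contDiff_zero_off_ibp hU hK haU (hb.mul (contDiffOn_Dm hU ha.contDiffOn hu))
      z2).continuous.integrable_of_hasCompactSupport (hcs_zero_off_ibp hKc z2)
  have s1 : ∫ z in U, a z * Dm b u z = ∫ z, a z * Dm b u z :=
    setIntegral_eq_integral_of_forall_compl_eq_zero (fun z hz => z1 z (fun h => hz (haU h)))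
  have s2 : ∫ z in U, b z * Dm a u z = ∫ z, b z * Dm a u z :=
    setIntegral_eq_integral_of_forall_compl_eq_zero (fun z hz => z2 z (fun h => hz (haU h)))
  have s3 : ∫ z, (a z * Dm b u z - b z * Dm a u z) = 0 := by
    simp only [key]
    have h5 : ∫ z, ((1 / 2 : ℂ) * T z).re = (∫ z, (1 / 2 : ℂ) * T z).re :=
      integral_re (iT2.const_mul _)
    rw [h5, integral_const_mul, iT3]
    simp
  rw [s1, s2, ← sub_eq_zero, ← integral_sub i1 i2]
  exact s3

end

end Pool.Agent.KS
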