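import Pool.Agent.KS.SVol
import Pool.Agent.KS.IBPLocal

/-!
# Global integration by parts (module GIBP)
-/

namespace Pool.Agent.KS

open MeasureTheory Complex Topology
open scoped ContDiff Matrix ComplexOrder ComplexConjugate Manifold

noncomputable section

namespace CSurf

section part

variable {M ι : Type} [TopologicalSpace M] [T2Space M] {S : CSurf M ι}

open Classical in
/-- extension by zero of a function with compact support in a chart -/
theorem Sm.ext_chart (S : CSurf M ι) (i : ι) {χ : C2 → ℝ} (hχ : ContDiff ℝ ∞ χ) {L : Set C2}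
    (hL : IsCompact L) (hLt : L ⊆ (S.ch i).target) (h0 : ∀ z, z ∉ L → χ z = 0) :
    S.Sm (fun x => if x ∈ (S.ch i).source then χ (S.ch i x) else 0) := by
  intro j z hz
  apply ContDiffAt.contDiffWithinAt
  by_cases h : (S.ch j).symm z ∈ (S.ch i).source
  · have hov : z ∈ S.ovl j i := ⟨hz, h⟩
    have htr : ContDiffAt ℝ ∞ (S.tr j i) z :=
      (((S.contDiffOn_tr j i).contDiffAt ((S.isOpen_ovl j i).mem_nhds hov))).restrict_scalars ℝ
    have hc : ContDiffAt ℝ ∞ (fun w => χ (S.tr j i w)) z :=
      (hχ.contDiffAt (x := S.tr j i z)).comp z htr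
    apply hc.congr_of_eventuallyEq
    filter_upwards [(S.isOpen_ovl j i).mem_nhds hov] with w hw
    have hw2 : (S.ch j).symm w ∈ (S.ch i).source := hw.2
    simp only [hw2, if_true]
    rfl
  · have hcl : IsClosed ((S.ch i).symm '' L) :=
      (hL.image_of_continuousOn ((S.ch i).continuousOn_symm.mono hLt)).isClosed
    have hnot : (S.ch j).symm z ∉ (S.ch i).symm '' L := by
      rintro ⟨y, hy, hyz⟩
      apply h
      rw [← hyz]
      exact (S.ch i).map_target (hLt hy)
    have hev : ∀ᶠ w in 𝓝 z, (S.ch j).symm w ∈ ((S.ch i).symm '' L)ᶜ :=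
      ((S.ch j).continuousAt_symm hz).eventually (hcl.isOpen_compl.mem_nhds hnot)
    have hc : ContDiffAt ℝ ∞ (fun _ : C2 => (0 : ℝ)) z := contDiffAt_const
    apply hc.congr_of_eventuallyEq
    filter_upwards [hev] with w hw
    by_cases h2 : (S.ch j).symm w ∈ (S.ch i).source
    · simp only [h2, if_true]
      apply h0
      intro hL2
      exact hw ⟨_, hL2, (S.ch i).left_inv h2⟩
    · simp only [h2, if_false]

variable [CompactSpace M] [Fintype ι]

/-- smooth partition of unity subordinate to the charts -/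
theorem exists_partition (S : CSurf M ι) : ∃ ρ : ι → M → ℝ, (∀ i, S.Sm (ρ i)) ∧
    (∀ x, ∑ i, ρ i x = 1) ∧ ∀ i, tsupport (ρ i) ⊆ (S.ch i).source := by
  classical
  obtain ⟨K, hK, hKt, hcov⟩ := exists_compact_cover S
  have hL : ∀ i, ∃ L, IsCompact L ∧ K i ⊆ interior L ∧ L ⊆ (S.ch i).target :=
    fun i => exists_compact_between (hK i) (S.ch i).open_target (hKt i)
  choose L hLc hKL hLt using hL
  have hχ : ∀ i, ∃ χ : C2 → ℝ, ContDiff ℝ ∞ χ ∧ (∀ z ∈ K i, χ z = 1) ∧ (∀ z, z ∉ L i → χ z = 0) ∧
      ∀ z, 0 ≤ χ z := by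
    intro i
    obtain ⟨f, hf0, hf1, hf⟩ := exists_contMDiffMap_zero_one_of_isClosed (n := ⊤) 𝓘(ℝ, C2)
      (isOpen_interior (s := L i)).isClosed_compl (hK i).isClosed
      (Set.disjoint_left.mpr fun x hx hx2 => hx (hKL i hx2))
    refine ⟨f, f.contMDiff.contDiff, fun z hz => hf1 hz, ?_, fun z => (hf z).1⟩
    intro z hz
    exact hf0 (fun h => hz (interior_subset h))
  choose χ hχs hχ1 hχ0 hχn using hχ
  let g : ι → M → ℝ := fun i x => if x ∈ (S.ch i).source then χ i (S.ch i x) else 0
  have hg : ∀ i, S.Sm (g i) := fun i => Sm.ext_chart S i (hχs i) (hLc i) (hLt i) (hχ0 i)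
  have hgn : ∀ i x, 0 ≤ g i x := by
    intro i x
    simp only [g]
    split_ifs
    · exact hχn i _
    · exact le_rfl
  have hpos : ∀ x, 0 < ∑ i, g i x := by
    intro x
    obtain ⟨i, hx, hxK⟩ := hcov x
    apply Finset.sum_pos' (fun j _ => hgn j x) ⟨i, Finset.mem_univ _, ?_⟩
    simp only [g, hx, if_true]
    rw [hχ1 i _ hxK]
    exact one_pos
  have hs : S.Sm (fun x => ∑ i, g i x) := Sm.sum Finset.univ (fun i _ => hg i)
  refine ⟨fun i x => g i x / ∑ j, g j x, fun i => (hg i).div hs (fun x => (hpos x).ne'), ?_, ?_⟩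
  · intro x
    rw [← Finset.sum_div, div_self (hpos x).ne']
  · intro i
    have hcl : IsClosed ((S.ch i).symm '' (L i)) :=
      ((hLc i).image_of_continuousOn ((S.ch i).continuousOn_symm.mono (hLt i))).isClosed
    have hsub : tsupport (fun x => g i x / ∑ j, g j x) ⊆ (S.ch i).symm '' (L i) := by
      apply closure_minimal _ hcl
      intro x hx
      by_contra hx2
      apply hx
      have : g i x = 0 := by
        simp only [g]
        split_ifs with h
        · apply hχ0
          intro hL2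
          exact hx2 ⟨_, hL2, (S.ch i).left_inv h⟩
        · rfl
      simp only [this, zero_div]
    refine hsub.trans ?_
    rintro _ ⟨y, hy, rfl⟩
    exact (S.ch i).map_target (hLt i hy)

end part

variable {M ι : Type} [TopologicalSpace M] [CompactSpace M] [T2Space M] [Fintype ι]
  {S : CSurf M ι}

variable [MeasurableSpace M] [BorelSpace M]

theorem integrable_of_sm {φ : ι → C2 → ℝ} {ν : Measure M} (hφ : S.IsKah φ)
    (hν : S.IsVolF φ ν) {u : M → ℝ} (hu : Continuous u) : Integrable u ν := by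
  have := hν.finite hφ
  exact hu.integrable_of_hasCompactSupport (HasCompactSupport.of_compactSpace u)

omit [CompactSpace M] [T2Space M] [Fintype ι] [MeasurableSpace M] [BorelSpace M] in
theorem den_fnF_eq_zero {φ B : ι → C2 → ℝ} {w : M → ℝ} {x : M} (hx : x ∉ tsupport w) :
    S.den φ (S.fnF w) B x = 0 := by
  unfold den Dm
  have hxs := S.idx_mem x
  have hev : ∀ᶠ y in 𝓝 x, w y = 0 := by
    filter_upwards [(isClosed_tsupport w).isOpen_compl.mem_nhds hx] with y hy
    by_contra h
    exact hy (subset_tsupport w h)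
  have hev2 : (S.fnF w (S.idx x)) =ᶠ[𝓝 (S.ch (S.idx x) x)] (fun _ => (0 : ℝ)) := by
    have hc : Filter.Tendsto (S.ch (S.idx x)).symm (𝓝 (S.ch (S.idx x) x)) (𝓝 x) := by
      have := (S.ch (S.idx x)).continuousAt_symm ((S.ch (S.idx x)).map_source hxs)
      rw [ContinuousAt, (S.ch (S.idx x)).left_inv hxs] at this
      exact this
    exact hc.eventually hev
  rw [cHess_congr hev2, cHess_const]
  unfold mdet
  simp

omit [CompactSpace M] [Fintype ι] in
theorem gibp_piece {φ B : ι → C2 → ℝ} {ν : Measure M} (hφ : S.IsKah φ) (hν : S.IsVolF φ ν)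
    {u w : M → ℝ} (hu : S.Sm u) (hw : S.Sm w) (hB : S.IsFrm B) (i : ι)
    (hwc : IsCompact (tsupport w)) (hwi : tsupport w ⊆ (S.ch i).source) :
    ∫ x, u x * S.den φ (S.fnF w) B x ∂ν = ∫ x, w x * S.den φ (S.fnF u) B x ∂ν := by
  classical
  have hT : IsOpen (S.ch i).target := (S.ch i).open_target
  have h1 : ∫ x, u x * S.den φ (S.fnF w) B x ∂ν
      = ∫ x in (S.ch i).source, u x * S.den φ (S.fnF w) B x ∂ν := by
    rw [setIntegral_eq_integral_of_forall_compl_eq_zero]
    intro x hx
    rw [den_fnF_eq_zero (fun h => hx (hwi h)), mul_zero]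
  have h2 : ∫ x, w x * S.den φ (S.fnF u) B x ∂ν
      = ∫ x in (S.ch i).source, w x * S.den φ (S.fnF u) B x ∂ν := by
    rw [setIntegral_eq_integral_of_forall_compl_eq_zero]
    intro x hx
    have : w x = 0 := by
      by_contra h
      exact hx (hwi (subset_tsupport w h))
    rw [this, zero_mul]
  rw [h1, h2, hν.integral hφ i, hν.integral hφ i]
  -- the local function
  let a : C2 → ℝ := fun z => if z ∈ (S.ch i).target then w ((S.ch i).symm z) else 0
  have hLc : IsCompact (S.ch i '' tsupport w) :=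
    hwc.image_of_continuousOn ((S.ch i).continuousOn.mono hwi)
  have hLt : S.ch i '' tsupport w ⊆ (S.ch i).target := by
    rintro _ ⟨x, hx, rfl⟩
    exact (S.ch i).map_source (hwi hx)
  have ha0 : ∀ z, z ∉ S.ch i '' tsupport w → a z = 0 := by
    intro z hz
    simp only [a]
    split_ifs with h
    · by_contra h2
      exact hz ⟨_, subset_tsupport w h2, (S.ch i).right_inv h⟩
    · rfl
  have haloc : ∀ z ∈ (S.ch i).target, a =ᶠ[𝓝 z] S.fnF w i := by
    intro z hz
    filter_upwards [hT.mem_nhds hz] with y hy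
    simp only [a, hy, if_true, fnF]
  have has : ContDiff ℝ ∞ a := by
    rw [contDiff_iff_contDiffAt]
    intro z
    by_cases hz : z ∈ (S.ch i).target
    · exact ((hw i).contDiffAt (hT.mem_nhds hz)).congr_of_eventuallyEq (haloc z hz)
    · have hz2 : z ∉ S.ch i '' tsupport w := fun h => hz (hLt h)
      have hc : ContDiffAt ℝ ∞ (fun _ : C2 => (0 : ℝ)) z := contDiffAt_const
      apply hc.congr_of_eventuallyEq
      filter_upwards [hLc.isClosed.isOpen_compl.mem_nhds hz2] with y hy
      exact ha0 y hy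
  have htsub : tsupport a ⊆ S.ch i '' tsupport w := by
    apply closure_minimal _ hLc.isClosed
    intro z hz
    by_contra h
    exact hz (ha0 z h)
  have hac : HasCompactSupport a := hLc.of_isClosed_subset (isClosed_tsupport a) htsub
  have hib := ibp_local hT has hac (htsub.trans hLt) (hu i) (hB.smooth i)
  have hL : ∀ z ∈ (S.ch i).target, dt (φ i) z • (u ((S.ch i).symm z)
      * S.den φ (S.fnF w) B ((S.ch i).symm z)) = S.fnF u i z * Dm a (B i) z := by
    intro z hz
    have hzs := (S.ch i).map_target hz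
    rw [den_eq hφ (isFrm_fnF hw) hB i hzs, (S.ch i).right_inv hz]
    have hne : dt (φ i) z ≠ 0 := (hφ.dt_pos i hz).ne'
    have hD : Dm a (B i) z = Dm (S.fnF w i) (B i) z := by
      unfold Dm
      rw [cHess_congr (haloc z hz)]
    rw [hD, smul_eq_mul]
    unfold fnF
    field_simp
  have hR : ∀ z ∈ (S.ch i).target, dt (φ i) z • (w ((S.ch i).symm z)
      * S.den φ (S.fnF u) B ((S.ch i).symm z)) = a z * Dm (S.fnF u i) (B i) z := by
    intro z hz
    have hzs := (S.ch i).map_target hz
    rw [den_eq hφ (isFrm_fnF hu) hB i hzs, (S.ch i).right_inv hz]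
    have hne : dt (φ i) z ≠ 0 := (hφ.dt_pos i hz).ne'
    have ha : a z = w ((S.ch i).symm z) := by simp only [a, hz, if_true]
    rw [ha, smul_eq_mul]
    field_simp
  rw [setIntegral_congr_fun hT.measurableSet hL, setIntegral_congr_fun hT.measurableSet hR]
  exact hib.symm

omit [CompactSpace M] [T2Space M] [Fintype ι] [MeasurableSpace M] [BorelSpace M] in
theorem den_fnF_sum {α : Type} (s : Finset α) {φ B : ι → C2 → ℝ} {w : α → M → ℝ}
    (hw : ∀ a ∈ s, S.Sm (w a)) (x : M) :
    S.den φ (S.fnF fun y => ∑ a ∈ s, w a y) B x = ∑ a ∈ s, S.den φ (S.fnF (w a)) B x := by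
  classical
  induction s using Finset.induction_on with
  | empty =>
    simp only [Finset.sum_empty]
    exact den_const φ B 0 x
  | insert a s ha ih =>
    have h1 : (S.fnF fun y => ∑ b ∈ insert a s, w b y)
        = S.fnF (w a) + S.fnF (fun y => ∑ b ∈ s, w b y) := by
      funext i z
      simp only [fnF, Pi.add_apply, Finset.sum_insert ha]
    have h2 : S.Sm (fun y => ∑ b ∈ s, w b y) :=
      Sm.sum s (fun b hb => hw b (Finset.mem_insert_of_mem hb))
    rw [h1, den_add_left (isFrm_fnF (hw a (Finset.mem_insert_self a s))) (isFrm_fnF h2),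
      Finset.sum_insert ha, ih (fun b hb => hw b (Finset.mem_insert_of_mem hb))]

/-- global integration by parts -/
theorem gibp {φ B : ι → C2 → ℝ} {ν : Measure M} (hφ : S.IsKah φ) (hν : S.IsVolF φ ν)
    {u v : M → ℝ} (hu : S.Sm u) (hv : S.Sm v) (hB : S.IsFrm B) :
    ∫ x, u x * S.den φ (S.fnF v) B x ∂ν = ∫ x, v x * S.den φ (S.fnF u) B x ∂ν := by
  obtain ⟨ρ, hρ, hρ1, hρs⟩ := exists_partition S
  have hw : ∀ i, S.Sm (fun x => ρ i x * v x) := fun i => (hρ i).mul hv
  have hv1 : v = fun x => ∑ i, ρ i x * v x := by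
    funext x
    rw [← Finset.sum_mul, hρ1 x, one_mul]
  have hts : ∀ i, tsupport (fun x => ρ i x * v x) ⊆ (S.ch i).source := by
    intro i
    refine (closure_mono ?_).trans (hρs i)
    intro x hx
    simp only [Function.mem_support, ne_eq, mul_eq_zero, not_or] at hx ⊢
    exact hx.1
  have hL : ∫ x, u x * S.den φ (S.fnF v) B x ∂ν
      = ∑ i, ∫ x, u x * S.den φ (S.fnF fun y => ρ i y * v y) B x ∂ν := by
    rw [← integral_finsetSum]
    · apply integral_congr_ae
      filter_upwards with x
      rw [← Finset.mul_sum, ← den_fnF_sum Finset.univ (fun i _ => hw i) x, ← hv1]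
    · intro i _
      exact integrable_of_sm hφ hν (hu.mul (sm_den hφ (isFrm_fnF (hw i)) hB)).continuous
  have hR : ∫ x, v x * S.den φ (S.fnF u) B x ∂ν
      = ∑ i, ∫ x, (ρ i x * v x) * S.den φ (S.fnF u) B x ∂ν := by
    rw [← integral_finsetSum]
    · apply integral_congr_ae
      filter_upwards with x
      rw [← Finset.sum_mul, ← Finset.sum_mul, hρ1 x, one_mul]
    · intro i _
      exact integrable_of_sm hφ hν ((hw i).mul (sm_den hφ (isFrm_fnF hu) hB)).continuous
  rw [hL, hR]
  apply Finset.sum_congr rfl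
  intro i _
  exact gibp_piece hφ hν hu (hw i) hB i (isClosed_tsupport _).isCompact (hts i)

/-- exact forms integrate to zero -/
theorem integral_den_fnF {φ B : ι → C2 → ℝ} {ν : Measure M} (hφ : S.IsKah φ)
    (hν : S.IsVolF φ ν) {v : M → ℝ} (hv : S.Sm v) (hB : S.IsFrm B) :
    ∫ x, S.den φ (S.fnF v) B x ∂ν = 0 := by
  have h := gibp hφ hν (Sm.const 1) hv hB
  simp only [one_mul] at h
  rw [h]
  simp only [den_const, mul_zero, integral_zero]

end CSurf

end

end Pool.Agent.KS
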