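import Pool.Agent.KS.Wirt

/-!
# Mixed discriminants and the local integration by parts formula on `ℂ²`
-/

namespace Pool.Agent.KS

open Wir

open scoped ContDiff Matrix ComplexOrder
open Complex MeasureTheory

/-- complex mixed discriminant of `2 × 2` matrices -/
def mixC (A B : Matrix (Fin 2) (Fin 2) ℂ) : ℂ :=
  A 0 0 * B 1 1 + A 1 1 * B 0 0 - A 0 1 * B 1 0 - A 1 0 * B 0 1

/-- mixed discriminant (real part) -/
def mixd (A B : Matrix (Fin 2) (Fin 2) ℂ) : ℝ := (mixC A B).re

lemma mixC_comm (A B : Matrix (Fin 2) (Fin 2) ℂ) : mixC A B = mixC B A := by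
  simp only [mixC]; ring

lemma mixd_comm (A B : Matrix (Fin 2) (Fin 2) ℂ) : mixd A B = mixd B A := by
  rw [mixd, mixC_comm, mixd]

lemma mixC_add_left (A A' B : Matrix (Fin 2) (Fin 2) ℂ) : mixC (A + A') B = mixC A B + mixC A' B := by
  simp only [mixC, Matrix.add_apply]; ring

lemma mixC_add_right (A B B' : Matrix (Fin 2) (Fin 2) ℂ) : mixC A (B + B') = mixC A B + mixC A B' := by
  simp only [mixC, Matrix.add_apply]; ring

lemma mixC_smul_left (c : ℂ) (A B : Matrix (Fin 2) (Fin 2) ℂ) : mixC (c • A) B = c * mixC A B := by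
  simp only [mixC, Matrix.smul_apply, smul_eq_mul]; ring

lemma mixC_smul_right (c : ℂ) (A B : Matrix (Fin 2) (Fin 2) ℂ) : mixC A (c • B) = c * mixC A B := by
  simp only [mixC, Matrix.smul_apply, smul_eq_mul]; ring

lemma mixd_add_left (A A' B : Matrix (Fin 2) (Fin 2) ℂ) : mixd (A + A') B = mixd A B + mixd A' B := by
  rw [mixd, mixC_add_left, add_re]; rfl

lemma mixd_add_right (A B B' : Matrix (Fin 2) (Fin 2) ℂ) : mixd A (B + B') = mixd A B + mixd A B' := by
  rw [mixd, mixC_add_right, add_re]; rfl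

lemma mixd_smul_left (c : ℝ) (A B : Matrix (Fin 2) (Fin 2) ℂ) : mixd (c • A) B = c * mixd A B := by
  have h : c • A = (c : ℂ) • A := by ext i j; simp
  rw [mixd, h, mixC_smul_left, re_ofReal_mul]; rfl

lemma mixd_smul_right (c : ℝ) (A B : Matrix (Fin 2) (Fin 2) ℂ) : mixd A (c • B) = c * mixd A B := by
  rw [mixd_comm, mixd_smul_left, mixd_comm]

lemma mixd_zero_left (B : Matrix (Fin 2) (Fin 2) ℂ) : mixd 0 B = 0 := by
  simp [mixd, mixC]

lemma mixd_zero_right (B : Matrix (Fin 2) (Fin 2) ℂ) : mixd B 0 = 0 := by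
  simp [mixd, mixC]

lemma mixd_self (A : Matrix (Fin 2) (Fin 2) ℂ) : mixd A A = 2 * A.det.re := by
  have h : mixC A A = (2 : ℝ) * A.det := by
    rw [Matrix.det_fin_two]; simp only [mixC]; push_cast; ring
  rw [mixd, h, re_ofReal_mul]

lemma det_add_re (A B : Matrix (Fin 2) (Fin 2) ℂ) : (A + B).det.re = A.det.re + mixd A B + B.det.re := by
  have h : (A + B).det = A.det + mixC A B + B.det := by
    simp only [Matrix.det_fin_two, mixC, Matrix.add_apply]; ring
  rw [h, add_re, add_re]; rfl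

lemma mixC_conj (J A B : Matrix (Fin 2) (Fin 2) ℂ) :
    mixC (Jᵀ * A * J.map (starRingEnd ℂ)) (Jᵀ * B * J.map (starRingEnd ℂ)) =
      (normSq J.det : ℂ) * mixC A B := by
  have h : (normSq J.det : ℂ) = J.det * (starRingEnd ℂ) J.det := (mul_conj _).symm
  rw [h, Matrix.det_fin_two]
  simp only [mixC, Matrix.mul_apply, Fin.sum_univ_two, Matrix.transpose_apply, Matrix.map_apply,
    map_sub, map_mul]
  ring

lemma mixd_conj (J A B : Matrix (Fin 2) (Fin 2) ℂ) :
    mixd (Jᵀ * A * J.map (starRingEnd ℂ)) (Jᵀ * B * J.map (starRingEnd ℂ)) =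
      normSq J.det * mixd A B := by
  rw [mixd, mixC_conj, re_ofReal_mul]; rfl

lemma det_conj {n : ℕ} (J A : Matrix (Fin n) (Fin n) ℂ) :
    (Jᵀ * A * J.map (starRingEnd ℂ)).det = (normSq J.det : ℂ) * A.det := by
  have h : (J.map (starRingEnd ℂ)).det = (starRingEnd ℂ) J.det := by
    rw [← RingHom.mapMatrix_apply, ← RingHom.map_det]
  rw [Matrix.det_mul, Matrix.det_mul, Matrix.det_transpose, h]
  have h2 : (normSq J.det : ℂ) = J.det * (starRingEnd ℂ) J.det := (mul_conj _).symm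
  rw [h2]; ring

section aux

variable {n : ℕ} {U K : Set (Cn n)}

lemma continuous_of_zero_off {F : Type*} [NormedAddCommGroup F] {f : Cn n → F} (hU : IsOpen U) (hK : IsClosed K) (hKU : K ⊆ U)
    (hf : ContinuousOn f U) (h0 : ∀ z ∉ K, f z = 0) : Continuous f := by
  rw [continuous_iff_continuousAt]
  intro x
  by_cases hx : x ∈ K
  · exact hf.continuousAt (hU.mem_nhds (hKU hx))
  · have : f =ᶠ[nhds x] fun _ => 0 := by
      filter_upwards [hK.isOpen_compl.mem_nhds hx] with y hy using h0 y hy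
    exact continuousAt_const.congr this.symm

lemma contDiff_of_zero_off {F : Type*} [NormedAddCommGroup F] [NormedSpace ℝ F] {f : Cn n → F} (hU : IsOpen U)
    (hK : IsClosed K) (hKU : K ⊆ U)
    (hf : ContDiffOn ℝ ∞ f U) (h0 : ∀ z ∉ K, f z = 0) : ContDiff ℝ ∞ f := by
  rw [contDiff_iff_contDiffAt]
  intro x
  by_cases hx : x ∈ K
  · exact hf.contDiffAt (hU.mem_nhds (hKU hx))
  · have : f =ᶠ[nhds x] fun _ => 0 := by
      filter_upwards [hK.isOpen_compl.mem_nhds hx] with y hy using h0 y hy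
    exact contDiffAt_const.congr_of_eventuallyEq this

lemma hasCompactSupport_of_zero_off {F : Type*} [NormedAddCommGroup F] {f : Cn n → F} (hK : IsCompact K)
    (h0 : ∀ z ∉ K, f z = 0) : HasCompactSupport f :=
  HasCompactSupport.intro hK fun z hz => h0 z hz

lemma integrable_of_zero_off {F : Type*} [NormedAddCommGroup F] {f : Cn n → F} (hU : IsOpen U) (hK : IsCompact K)
    (hKU : K ⊆ U) (hf : ContinuousOn f U) (h0 : ∀ z ∉ K, f z = 0) : Integrable f :=
  (continuous_of_zero_off hU hK.isClosed hKU hf h0).integrable_of_hasCompactSupport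
    (hasCompactSupport_of_zero_off hK h0)

lemma integral_fderiv_dir {h : Cn n → ℂ} (hh : ContDiff ℝ ∞ h) (hc : HasCompactSupport h) (v : Cn n) :
    ∫ z, fderiv ℝ h z v = 0 := by
  have hd : Differentiable ℝ h := hh.differentiable (by simp)
  have h1 : Integrable h := hh.continuous.integrable_of_hasCompactSupport hc
  have h2 : Integrable (fun z => fderiv ℝ h z v) := by
    apply Continuous.integrable_of_hasCompactSupport
    · exact (hh.continuous_fderiv (by simp)).clm_apply continuous_const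
    · exact hc.fderiv_apply (𝕜 := ℝ) v
  have key := integral_mul_fderiv_eq_neg_fderiv_mul_of_integrable (𝕜 := ℂ) (f := fun _ : Cn n => (1 : ℂ)) (g := h) (v := v)
    (μ := volume)
    (by simp) (by simpa using h2) (by simpa using h1) (fun x _ => differentiableAt_const _) (fun x _ => hd x)
  simpa using key

lemma integral_dz {h : Cn n → ℂ} (hh : ContDiff ℝ ∞ h) (hc : HasCompactSupport h) (i : Fin n) :
    ∫ z, dz i h z = 0 := by
  have h2 : ∀ v, Integrable (fun z => fderiv ℝ h z v) := by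
    intro v
    apply Continuous.integrable_of_hasCompactSupport
    · exact (hh.continuous_fderiv (by simp)).clm_apply continuous_const
    · exact hc.fderiv_apply (𝕜 := ℝ) v
  have e : ∀ z, dz i h z = (1 / 2 : ℂ) * (fderiv ℝ h z (Pi.single i 1) - I * fderiv ℝ h z (Pi.single i I)) := fun _ => rfl
  simp_rw [e]
  rw [integral_const_mul, integral_sub (h2 _) ((h2 _).const_mul _), integral_const_mul,
    integral_fderiv_dir hh hc, integral_fderiv_dir hh hc]
  simp

end aux

/-- the gradient pairing -/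
noncomputable def gam (T : Cn 2 → Matrix (Fin 2) (Fin 2) ℂ) (a b : Cn 2 → ℝ) (z : Cn 2) : ℂ :=
  dz 0 (fun w => (a w : ℂ)) z * dzb 0 (fun w => (b w : ℂ)) z * T z 1 1 +
    dz 1 (fun w => (a w : ℂ)) z * dzb 1 (fun w => (b w : ℂ)) z * T z 0 0 -
    dz 0 (fun w => (a w : ℂ)) z * dzb 1 (fun w => (b w : ℂ)) z * T z 1 0 -
    dz 1 (fun w => (a w : ℂ)) z * dzb 0 (fun w => (b w : ℂ)) z * T z 0 1

lemma gam_conj {T : Cn 2 → Matrix (Fin 2) (Fin 2) ℂ} {z : Cn 2} (hT : (T z).IsHermitian) (a b : Cn 2 → ℝ) :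
    (starRingEnd ℂ) (gam T a b z) = gam T b a z := by
  have h00 : (starRingEnd ℂ) (T z 0 0) = T z 0 0 := by simpa using hT.apply 0 0
  have h11 : (starRingEnd ℂ) (T z 1 1) = T z 1 1 := by simpa using hT.apply 1 1
  have h01 : (starRingEnd ℂ) (T z 0 1) = T z 1 0 := by simpa using hT.apply 1 0
  have h10 : (starRingEnd ℂ) (T z 1 0) = T z 0 1 := by simpa using hT.apply 0 1
  simp only [gam, map_sub, map_add, map_mul, dz_ofReal_conj, dzb_ofReal_conj, h00, h11, h01, h10]
  ring

lemma dz_abcde {n : ℕ} (i : Fin n) {A B C D E : Cn n → ℂ} {z : Cn n} (hA : DifferentiableAt ℝ A z)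
    (hB : DifferentiableAt ℝ B z) (hC : DifferentiableAt ℝ C z) (hD : DifferentiableAt ℝ D z)
    (hE : DifferentiableAt ℝ E z) :
    dz i (fun w => A w * (B w * C w - D w * E w)) z =
      A z * (B z * dz i C z + C z * dz i B z - (D z * dz i E z + E z * dz i D z)) +
        (B z * C z - D z * E z) * dz i A z := by
  rw [dz_mul i (F := A) (G := fun w => B w * C w - D w * E w) hA ((hB.mul hC).sub (hD.mul hE)),
    dz_sub i (F := fun w => B w * C w) (G := fun w => D w * E w) (hB.mul hC) (hD.mul hE),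
    dz_mul i hB hC, dz_mul i hD hE]

section loc

variable {U K : Set (Cn 2)} {T : Cn 2 → Matrix (Fin 2) (Fin 2) ℂ}

lemma dz_zero_off {F : Cn 2 → ℂ} (hK : IsClosed K) (h0 : ∀ z ∉ K, F z = 0) (i : Fin 2) {z : Cn 2} (hz : z ∉ K) :
    dz i F z = 0 := by
  have : F =ᶠ[nhds z] fun _ => 0 := by
    filter_upwards [hK.isOpen_compl.mem_nhds hz] with y hy using h0 y hy
  rw [dz_congr i this, dz_const]

lemma dzb_zero_off {F : Cn 2 → ℂ} (hK : IsClosed K) (h0 : ∀ z ∉ K, F z = 0) (i : Fin 2) {z : Cn 2} (hz : z ∉ K) :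
    dzb i F z = 0 := by
  have : F =ᶠ[nhds z] fun _ => 0 := by
    filter_upwards [hK.isOpen_compl.mem_nhds hz] with y hy using h0 y hy
  rw [dzb_congr i this, dzb_const]

lemma ofReal_zero_off {v : Cn 2 → ℝ} (h0 : ∀ z ∉ K, v z = 0) : ∀ z ∉ K, (v z : ℂ) = 0 := by
  intro z hz; simp [h0 z hz]

/-- the general identity: one of `a`, `b` vanishes off a compact subset of `U` -/
lemma loc_aux (hU : IsOpen U) (hK : IsCompact K) (hKU : K ⊆ U)
    (hT : ∀ i j, ContDiffOn ℝ ∞ (fun z => T z i j) U)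
    (hcl : ∀ z ∈ U, ∀ i j k, dz k (fun w => T w i j) z = dz i (fun w => T w k j) z)
    {a b : Cn 2 → ℝ} (ha : ContDiffOn ℝ ∞ a U) (hb : ContDiffOn ℝ ∞ b U)
    (h0 : (∀ z ∉ K, a z = 0) ∨ (∀ z ∉ K, b z = 0)) :
    ∫ z, (a z : ℂ) * mixC (cHess b z) (T z) = - ∫ z, gam T a b z := by
  have haC := contDiffOn_ofReal ha
  have hbC := contDiffOn_ofReal hb
  have hKc := hK.isClosed
  -- the two components
  set h1 : Cn 2 → ℂ := fun z => (a z : ℂ) *
    (dzb 0 (fun w => (b w : ℂ)) z * T z 1 1 - dzb 1 (fun w => (b w : ℂ)) z * T z 1 0) with hh1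
  set h2 : Cn 2 → ℂ := fun z => (a z : ℂ) *
    (dzb 1 (fun w => (b w : ℂ)) z * T z 0 0 - dzb 0 (fun w => (b w : ℂ)) z * T z 0 1) with hh2
  have hbz : ∀ i, ContDiffOn ℝ ∞ (dzb i (fun w => (b w : ℂ))) U := fun i => contDiffOn_dzb hU hbC i
  have s1 : ContDiffOn ℝ ∞ h1 U := haC.mul (((hbz 0).mul (hT 1 1)).sub ((hbz 1).mul (hT 1 0)))
  have s2 : ContDiffOn ℝ ∞ h2 U := haC.mul (((hbz 1).mul (hT 0 0)).sub ((hbz 0).mul (hT 0 1)))
  have z1 : ∀ z ∉ K, h1 z = 0 := by
    intro z hz
    rcases h0 with h | h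
    · simp [hh1, h z hz]
    · simp [hh1, dzb_zero_off hKc (ofReal_zero_off h) _ hz]
  have z2 : ∀ z ∉ K, h2 z = 0 := by
    intro z hz
    rcases h0 with h | h
    · simp [hh2, h z hz]
    · simp [hh2, dzb_zero_off hKc (ofReal_zero_off h) _ hz]
  have i1 := integral_dz (contDiff_of_zero_off hU hKc hKU s1 z1) (hasCompactSupport_of_zero_off hK z1) 0
  have i2 := integral_dz (contDiff_of_zero_off hU hKc hKU s2 z2) (hasCompactSupport_of_zero_off hK z2) 1
  -- the pointwise identity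
  have pw : ∀ z, dz 0 h1 z + dz 1 h2 z = (a z : ℂ) * mixC (cHess b z) (T z) + gam T a b z := by
    intro z
    by_cases hz : z ∈ U
    · have dA : DifferentiableAt ℝ (fun w => (a w : ℂ)) z :=
        (haC.differentiableOn (by simp)).differentiableAt (hU.mem_nhds hz)
      have dB : ∀ i, DifferentiableAt ℝ (dzb i (fun w => (b w : ℂ))) z := fun i =>
        ((hbz i).differentiableOn (by simp)).differentiableAt (hU.mem_nhds hz)
      have dT : ∀ i j, DifferentiableAt ℝ (fun w => T w i j) z := fun i j =>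
        ((hT i j).differentiableOn (by simp)).differentiableAt (hU.mem_nhds hz)
      have e1 : dz 0 h1 z = (a z : ℂ) * (dzb 0 (fun w => (b w : ℂ)) z * dz 0 (fun w => T w 1 1) z +
          T z 1 1 * dz 0 (dzb 0 (fun w => (b w : ℂ))) z - (dzb 1 (fun w => (b w : ℂ)) z * dz 0 (fun w => T w 1 0) z +
          T z 1 0 * dz 0 (dzb 1 (fun w => (b w : ℂ))) z)) + (dzb 0 (fun w => (b w : ℂ)) z * T z 1 1 -
          dzb 1 (fun w => (b w : ℂ)) z * T z 1 0) * dz 0 (fun w => (a w : ℂ)) z := by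
        exact dz_abcde 0 dA (dB 0) (dT 1 1) (dB 1) (dT 1 0)
      have e2 : dz 1 h2 z = (a z : ℂ) * (dzb 1 (fun w => (b w : ℂ)) z * dz 1 (fun w => T w 0 0) z +
          T z 0 0 * dz 1 (dzb 1 (fun w => (b w : ℂ))) z - (dzb 0 (fun w => (b w : ℂ)) z * dz 1 (fun w => T w 0 1) z +
          T z 0 1 * dz 1 (dzb 0 (fun w => (b w : ℂ))) z)) + (dzb 1 (fun w => (b w : ℂ)) z * T z 0 0 -
          dzb 0 (fun w => (b w : ℂ)) z * T z 0 1) * dz 1 (fun w => (a w : ℂ)) z := by
        exact dz_abcde 1 dA (dB 1) (dT 0 0) (dB 0) (dT 0 1)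
      rw [e1, e2, hcl z hz 1 1 0, hcl z hz 1 0 0]
      simp only [mixC, gam, cHess]
      ring
    · have hzK : z ∉ K := fun h => hz (hKU h)
      rw [dz_zero_off hKc z1 _ hzK, dz_zero_off hKc z2 _ hzK]
      rcases h0 with h | h
      · simp [gam, h z hzK, dz_zero_off hKc (ofReal_zero_off h) _ hzK]
      · have e : ∀ i j, cHess b z i j = 0 := by
          intro i j
          exact dz_zero_off hKc (fun w hw => dzb_zero_off hKc (ofReal_zero_off h) j hw) i hzK
        simp [gam, mixC, e, dzb_zero_off hKc (ofReal_zero_off h) _ hzK]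
  -- integrability
  have c1 : ContinuousOn (fun z => (a z : ℂ) * mixC (cHess b z) (T z)) U := by
    have hH : ∀ i j, ContinuousOn (fun z => cHess b z i j) U := fun i j => (contDiffOn_cHess hU hb i j).continuousOn
    have hTc : ∀ i j, ContinuousOn (fun z => T z i j) U := fun i j => (hT i j).continuousOn
    exact haC.continuousOn.mul (((((hH 0 0).mul (hTc 1 1)).add ((hH 1 1).mul (hTc 0 0))).sub
      ((hH 0 1).mul (hTc 1 0))).sub ((hH 1 0).mul (hTc 0 1)))
  have zc1 : ∀ z ∉ K, (a z : ℂ) * mixC (cHess b z) (T z) = 0 := by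
    intro z hzK
    rcases h0 with h | h
    · simp [h z hzK]
    · have e : ∀ i j, cHess b z i j = 0 := by
        intro i j
        exact dz_zero_off hKc (fun w hw => dzb_zero_off hKc (ofReal_zero_off h) j hw) i hzK
      simp [mixC, e]
  have I1 : Integrable (fun z => (a z : ℂ) * mixC (cHess b z) (T z)) :=
    integrable_of_zero_off hU hK hKU c1 zc1
  have c2 : ContinuousOn (fun z => gam T a b z) U := by
    have hTc : ∀ i j, ContinuousOn (fun z => T z i j) U := fun i j => (hT i j).continuousOn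
    have hac : ∀ i, ContinuousOn (dz i (fun w => (a w : ℂ))) U := fun i => (contDiffOn_dz hU haC i).continuousOn
    have hbc : ∀ i, ContinuousOn (dzb i (fun w => (b w : ℂ))) U := fun i => (hbz i).continuousOn
    exact ((((((hac 0).mul (hbc 0)).mul (hTc 1 1)).add (((hac 1).mul (hbc 1)).mul (hTc 0 0))).sub
      (((hac 0).mul (hbc 1)).mul (hTc 1 0))).sub (((hac 1).mul (hbc 0)).mul (hTc 0 1)))
  have zc2 : ∀ z ∉ K, gam T a b z = 0 := by
    intro z hzK
    rcases h0 with h | h
    · simp [gam, dz_zero_off hKc (ofReal_zero_off h) _ hzK]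
    · simp [gam, dzb_zero_off hKc (ofReal_zero_off h) _ hzK]
  have I2 : Integrable (fun z => gam T a b z) := integrable_of_zero_off hU hK hKU c2 zc2
  have i3 : ∫ z, (dz 0 h1 z + dz 1 h2 z) = 0 := by
    rw [integral_add, i1, i2, add_zero]
    · exact integrable_of_zero_off hU hK hKU (contDiffOn_dz hU s1 0).continuousOn
        (fun z hz => dz_zero_off hKc z1 0 hz)
    · exact integrable_of_zero_off hU hK hKU (contDiffOn_dz hU s2 1).continuousOn
        (fun z hz => dz_zero_off hKc z2 1 hz)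
  simp_rw [pw] at i3
  rw [integral_add I1 I2] at i3
  exact eq_neg_of_add_eq_zero_left i3

/-- Local integration by parts for a closed real `(1,1)`-form `T` on an open subset `U` of `ℂ²`. -/
theorem local_ibp (hU : IsOpen U) (hK : IsCompact K) (hKU : K ⊆ U)
    (hT : ∀ i j, ContDiffOn ℝ ∞ (fun z => T z i j) U) (hherm : ∀ z ∈ U, (T z).IsHermitian)
    (hcl : ∀ z ∈ U, ∀ i j k, dz k (fun w => T w i j) z = dz i (fun w => T w k j) z)
    {u v : Cn 2 → ℝ} (hu : ContDiffOn ℝ ∞ u U) (hv : ContDiffOn ℝ ∞ v U) (h0 : ∀ z ∉ K, v z = 0) :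
    ∫ z, v z * mixd (cHess u z) (T z) = ∫ z, u z * mixd (cHess v z) (T z) := by
  have A := loc_aux hU hK hKU hT hcl hv hu (Or.inl h0)
  have B := loc_aux hU hK hKU hT hcl hu hv (Or.inr h0)
  have hg : ∀ z, gam T u v z = (starRingEnd ℂ) (gam T v u z) := by
    intro z
    by_cases hz : z ∈ U
    · exact (gam_conj (hherm z hz) v u).symm
    · have hzK : z ∉ K := fun h => hz (hKU h)
      simp [gam, dzb_zero_off hK.isClosed (ofReal_zero_off h0) _ hzK, dz_zero_off hK.isClosed (ofReal_zero_off h0) _ hzK]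
  simp_rw [hg] at B
  rw [integral_conj] at B
  -- the integrals of the real parts
  have re1 : ∀ (a b : Cn 2 → ℝ), ((∀ z ∉ K, a z = 0) ∨ (∀ z ∉ K, b z = 0)) → ContDiffOn ℝ ∞ a U → ContDiffOn ℝ ∞ b U →
      ∫ z, a z * mixd (cHess b z) (T z) = (∫ z, (a z : ℂ) * mixC (cHess b z) (T z)).re := by
    intro a b hab ha hb
    have I1 : Integrable (fun z => (a z : ℂ) * mixC (cHess b z) (T z)) := by
      refine integrable_of_zero_off hU hK hKU ?_ ?_
      · have hH : ∀ i j, ContinuousOn (fun z => cHess b z i j) U := fun i j => (contDiffOn_cHess hU hb i j).continuousOn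
        have hTc : ∀ i j, ContinuousOn (fun z => T z i j) U := fun i j => (hT i j).continuousOn
        exact (contDiffOn_ofReal ha).continuousOn.mul (((((hH 0 0).mul (hTc 1 1)).add ((hH 1 1).mul (hTc 0 0))).sub
          ((hH 0 1).mul (hTc 1 0))).sub ((hH 1 0).mul (hTc 0 1)))
      · intro z hzK
        rcases hab with h | h
        · simp [h z hzK]
        · have e : ∀ i j, cHess b z i j = 0 := by
            intro i j
            exact dz_zero_off hK.isClosed (fun w hw => dzb_zero_off hK.isClosed (ofReal_zero_off h) j hw) i hzK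
          simp [mixC, e]
    have h3 := integral_re I1
    have h4 : (∫ z, (a z : ℂ) * mixC (cHess b z) (T z)).re = RCLike.re (∫ z, (a z : ℂ) * mixC (cHess b z) (T z)) := rfl
    rw [h4, ← h3]
    refine integral_congr_ae (Filter.Eventually.of_forall fun z => ?_)
    show a z * mixd (cHess b z) (T z) = ((a z : ℂ) * mixC (cHess b z) (T z)).re
    rw [re_ofReal_mul]; rfl
  rw [re1 v u (Or.inl h0) hv hu, re1 u v (Or.inr h0) hu hv, A, B]
  simp

end loc

end Pool.Agent.KS
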