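import Pool.Agent.KS.FTop
import Pool.Agent.KS.FSec
import Pool.Agent.KS.CoreT

/-!
# Assembly (module MAIN)
-/

namespace Pool.Agent.KS

open MeasureTheory Complex Topology
open scoped ContDiff Matrix ComplexOrder ComplexConjugate Manifold

noncomputable section

/-- comparison of the Fubini-Study path with the explicit path -/
theorem fsu_le_psi {m c : ℝ} {h : FM → ℝ}
    {ψ : ℝ → FM → ℝ}
    (hψ1 : ∀ t κ, ∀ z ∈ tg κ, (Phi0 m c + SF.fnF h) κ z + ψ t ((SF.ch κ).symm z)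
      = Psi m c t κ z) {k : ℕ} (hk : 0 < k) {N : ℕ} {s : Fin N → Idx → C2 → ℂ} {w : Fin N → ℝ}
    (hs : SF.IsSec (Phi0 m c + SF.fnF h) k s)
    (hpos : ∀ x, 0 < SF.ws (Phi0 m c + SF.fnF h) k s (fun _ => 1) x)
    {C : ℝ} (hC : 0 < C) {t : ℝ}
    (hb : ∀ κ, ∀ z ∈ tg κ,
        ∑ a, Real.exp (t * w a) * ‖s a κ z‖ ^ 2 ≤ C * Real.exp (k * Psi m c t κ z)) (x : FM) :
    SF.fsu (Phi0 m c + SF.fnF h) k s w t x
      ≤ ψ t x + (1 / k) * Real.log (Real.pi ^ 2 / k ^ 2 * C) := by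
  obtain ⟨κ, hκ⟩ := SF.cover x
  set z : C2 := SF.ch κ x with hz
  have hzt : z ∈ tg κ := by
    rw [← SF_target]; exact (SF.ch κ).map_source hκ
  have hx : (SF.ch κ).symm z = x := (SF.ch κ).left_inv hκ
  have hkr : (0 : ℝ) < k := by exact_mod_cast hk
  have e1 := hs.ws_eq (fun a => Real.exp (t * w a)) κ hκ
  have e2 := hs.ws_eq (fun _ => (1 : ℝ)) κ hκ
  rw [← hz] at e1 e2
  have hp := hpos x
  rw [e2] at hp
  set φ : Idx → C2 → ℝ := Phi0 m c + SF.fnF h with hφ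
  have hex : 0 < Real.exp (-k * φ κ z) := Real.exp_pos _
  have hp1 : 0 < ∑ a, ‖s a κ z‖ ^ 2 := by
    have : ∑ a, (1 : ℝ) * (‖s a κ z‖ ^ 2 * Real.exp (-k * φ κ z))
        = (∑ a, ‖s a κ z‖ ^ 2) * Real.exp (-k * φ κ z) := by
      rw [Finset.sum_mul]; simp
    rw [this] at hp
    exact (pos_iff_pos_of_mul_pos hp).2 hex
  have hp2 : 0 < ∑ a, Real.exp (t * w a) * ‖s a κ z‖ ^ 2 := by
    obtain ⟨a, -, ha⟩ := Finset.exists_ne_zero_of_sum_ne_zero hp1.ne'
    refine Finset.sum_pos' (fun b _ => by positivity) ⟨a, Finset.mem_univ _, ?_⟩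
    have : 0 < ‖s a κ z‖ ^ 2 := lt_of_le_of_ne (by positivity) (Ne.symm ha)
    positivity
  have e3 : SF.ws φ k s (fun a => Real.exp (t * w a)) x
      = (∑ a, Real.exp (t * w a) * ‖s a κ z‖ ^ 2) * Real.exp (-k * φ κ z) := by
    rw [e1, Finset.sum_mul]
    exact Finset.sum_congr rfl fun a _ => by ring
  have hle : SF.ws φ k s (fun a => Real.exp (t * w a)) x
      ≤ C * Real.exp (k * ψ t x) := by
    rw [e3]
    have h1 := hψ1 t κ z hzt
    rw [hx] at h1
    have h2 : C * Real.exp (k * ψ t x)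
        = C * Real.exp (k * Psi m c t κ z) * Real.exp (-k * φ κ z) := by
      rw [mul_assoc, ← Real.exp_add]
      congr 2
      rw [← h1]; ring
    rw [h2]
    exact mul_le_mul_of_nonneg_right (hb κ z hzt) hex.le
  have hwpos : 0 < SF.ws φ k s (fun a => Real.exp (t * w a)) x := by
    rw [e3]; positivity
  have hπ : 0 < Real.pi ^ 2 / (k : ℝ) ^ 2 := by positivity
  unfold CSurf.fsu
  have h3 : Real.log (Real.pi ^ 2 / k ^ 2 * SF.ws φ k s (fun a => Real.exp (t * w a)) x)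
      ≤ Real.log (Real.pi ^ 2 / k ^ 2 * C) + k * ψ t x := by
    rw [← Real.log_exp (k * ψ t x), ← Real.log_mul (by positivity) (by positivity)]
    refine Real.log_le_log (by positivity) ?_
    calc Real.pi ^ 2 / k ^ 2 * SF.ws φ k s (fun a => Real.exp (t * w a)) x
        ≤ Real.pi ^ 2 / k ^ 2 * (C * Real.exp (k * ψ t x)) :=
          mul_le_mul_of_nonneg_left hle hπ.le
      _ = Real.pi ^ 2 / k ^ 2 * C * Real.exp (k * ψ t x) := by ring
  calc (1 / (k : ℝ)) * Real.log (Real.pi ^ 2 / k ^ 2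
          * SF.ws φ k s (fun a => Real.exp (t * w a)) x)
      ≤ (1 / (k : ℝ)) * (Real.log (Real.pi ^ 2 / k ^ 2 * C) + k * ψ t x) :=
        mul_le_mul_of_nonneg_left h3 (by positivity)
    _ = ψ t x + (1 / k) * Real.log (Real.pi ^ 2 / k ^ 2 * C) := by
        field_simp
        ring

/-- the key inequality on `FM`: for every Kaehler metric in the class `(m, c)` and every `ε` there
is a test function `0 ≤ f ≤ c` with `∫ f s/4 ≥ π² (5/2) c m - ε`. -/
theorem key_FM {m c : ℕ} (hm : 0 < m) (hc : 0 < c) {h : FM → ℝ} (hh : SF.Sm h)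
    (hφ : SF.IsKah (Phi0 m c + SF.fnF h)) {ν : Measure FM}
    (hν : SF.IsVolF (Phi0 m c + SF.fnF h) ν) :
    ∀ ε : ℝ, 0 < ε → ∃ f : FM → ℝ, Continuous f ∧ (∀ x, 0 ≤ f x ∧ f x ≤ c) ∧
      Real.pi ^ 2 * (5 / 2 * (c * m)) - ε ≤ ∫ x, f x * SF.shM (Phi0 m c + SF.fnF h) x ∂ν := by
  have hcr : (0 : ℝ) < c := by exact_mod_cast hc
  have hmr : (0 : ℝ) < m := by exact_mod_cast hm
  refine CSurf.core (S := SF) hφ hν (c := (c : ℝ))
    (a0 := 5 / 2 * (((m : ℝ) + c) ^ 2 - m ^ 2)) (a1 := 5 / 2 * (2 * m - c))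
    (b0 := 5 * ((m : ℝ) * c ^ 2 / 2 + c ^ 3 / 3)) (b1 := 5 / 2 * (c * m)) hcr
    (mass_FM hh hφ hν) (scal_FM hh hφ hν) (C := 5 + 5 / 3 * c) (k1 := 4) ?_
  intro k hk
  have hk0 : 0 < k := by omega
  have hkr : (0 : ℝ) < k := by exact_mod_cast hk0
  obtain ⟨N, s, w, hs, ho, hpos, hw, hN, hW, C, hC, hb⟩ := exists_adapted hm hc hh hφ hν hk
  have hkm : 4 ≤ k * m := le_trans hk (Nat.le_mul_of_pos_right k hm)
  refine ⟨N, s, w, hs, ho, hpos, hw, ?_, ?_, ?_⟩
  · rw [hN, card_Mon m c k hkm]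
    have : (0 : ℝ) ≤ 5 / 3 * c := by positivity
    linarith
  · rw [hW, sum_Mon m c k hkm]
    have : (0 : ℝ) ≤ 5 * k := by positivity
    nlinarith
  · obtain ⟨ψ, hψ, hψ1, hψ2⟩ := exists_psi (m : ℝ) (c : ℝ) hh
    set φ : Idx → C2 → ℝ := Phi0 m c + SF.fnF h with hφdef
    set D : ℝ := (1 / k) * Real.log (Real.pi ^ 2 / k ^ 2 * C) with hD
    refine ⟨SF.En φ ν (ψ 0) + D * ν.real Set.univ, fun t ht => ?_⟩
    have hsm1 : SF.Sm (SF.fsu φ k s w t) :=
      (CSurf.spath_fsu hφ.toIsFrm hk0 hs hpos w).sm t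
    have hsmψ : SF.Sm (ψ t) := hψ.sm t
    have hsm2 : SF.Sm (fun x => ψ t x + D) := hsmψ.add (CSurf.Sm.const D)
    have hpsd2 : ∀ i, ∀ z ∈ (SF.ch i).target,
        (cHess ((φ + SF.fnF (fun x => ψ t x + D)) i) z).PosSemidef := by
      intro i z hz
      have hev : (φ + SF.fnF (fun x => ψ t x + D)) i =ᶠ[𝓝 z] fun y => Psi m c t i y + D := by
        filter_upwards [(SF.ch i).open_target.mem_nhds hz] with y hy
        have hy' : y ∈ tg i := by rw [← SF_target]; exact hy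
        have := hψ1 t i y hy'
        show φ i y + (ψ t ((SF.ch i).symm y) + D) = _
        rw [← this]; ring
      have hz' : z ∈ tg i := by rw [← SF_target]; exact hz
      rw [cHess_congr hev]
      have hsm : ContDiffAt ℝ 2 (Psi m c t i) z := by
        have h1 := (isFrm_Psi (m : ℝ) (c : ℝ) t).smooth i
        exact (h1.contDiffAt ((SF.ch i).open_target.mem_nhds hz)).of_le ENat.LEInfty.out
      rw [cHess_add hsm contDiffAt_const, cHess_const, add_zero]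
      exact psd_Psi hmr.le hcr.le t i hz'
    have hmono := CSurf.En_mono hφ hν hsm1 hsm2
      (fun x => fsu_le_psi hψ1 hk0 hs hpos hC (fun κ z hz => hb t ht κ z hz) x)
      (CSurf.posSemidef_fsu hφ.toIsFrm hk0 hs hpos w t) hpsd2
    rw [CSurf.En_add_const hφ hν hsmψ D, energy_FM hh hφ hν hψ hψ1 hψ2 t] at hmono
    linarith

/-- class `(1,3)`: every metric has a point of positive scalar curvature -/
theorem minus_FM {h : FM → ℝ} (hh : SF.Sm h) (hφ : SF.IsKah (Phi0 1 3 + SF.fnF h)) :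
    ∃ x, 0 < SF.shM (Phi0 1 3 + SF.fnF h) x := by
  by_contra hcon
  push Not at hcon
  obtain ⟨ν, hν⟩ := CSurf.exists_volF hφ
  have h1 := key_FM (m := 1) (c := 3) (by norm_num) (by norm_num) hh
    (by simpa using hφ) (ν := ν) (by simpa using hν) 1 (by norm_num)
  obtain ⟨f, -, hf, hint⟩ := h1
  simp only [Nat.cast_one, Nat.cast_ofNat, mul_one] at hint
  have h2 : ∫ x, f x * SF.shM (Phi0 1 3 + SF.fnF h) x ∂ν ≤ 0 :=
    integral_nonpos fun x => mul_nonpos_of_nonneg_of_nonpos (hf x).1 (hcon x)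
  have h3 : (3 : ℝ) < Real.pi := Real.pi_gt_three
  nlinarith

/-- class `(2,3)`: every metric has a point of negative scalar curvature -/
theorem plus_FM {h : FM → ℝ} (hh : SF.Sm h) (hφ : SF.IsKah (Phi0 2 3 + SF.fnF h)) :
    ∃ x, SF.shM (Phi0 2 3 + SF.fnF h) x < 0 := by
  by_contra hcon
  push Not at hcon
  obtain ⟨ν, hν⟩ := CSurf.exists_volF hφ
  have h1 := key_FM (m := 2) (c := 3) (by norm_num) (by norm_num) hh
    (by simpa using hφ) (ν := ν) (by simpa using hν) 1 (by norm_num)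
  obtain ⟨f, hfc, hf, hint⟩ := h1
  simp only [Nat.cast_ofNat] at hint hf
  have hfin : IsFiniteMeasure ν := CSurf.IsVolF.finite hφ hν
  have hsc : Continuous (SF.shM (Phi0 2 3 + SF.fnF h)) := (CSurf.sm_shM hφ).continuous
  have h2 : ∫ x, f x * SF.shM (Phi0 2 3 + SF.fnF h) x ∂ν
      ≤ ∫ x, 3 * SF.shM (Phi0 2 3 + SF.fnF h) x ∂ν := by
    refine integral_mono (CSurf.integrable_of_sm hφ hν (hfc.mul hsc))
      (CSurf.integrable_of_sm hφ hν (continuous_const.mul hsc)) fun x => ?_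
    exact mul_le_mul_of_nonneg_right (hf x).2 (hcon x)
  rw [integral_const_mul, scal_FM hh hφ hν] at h2
  have h3 : (3 : ℝ) < Real.pi := Real.pi_gt_three
  nlinarith

end

end Pool.Agent.KS
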