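import Pool.Agent.KS.Vol

/-!
# The ruled surface `P(O ⊕ O(-1))` over the Fermat quintic: underlying space and charts
-/

namespace Pool.Agent.KS.Sp

open scoped ContDiff Matrix ComplexOrder Manifold ComplexConjugate
open Complex MeasureTheory Set

/-- ambient space of homogeneous lifts `(X, (a,b))` -/
abbrev Amb : Type := (Fin 3 → ℂ) × (Fin 2 → ℂ)

/-- the cone over the Fermat quintic, without the origin -/
def cone : Set (Fin 3 → ℂ) := {X | X ≠ 0 ∧ X 0 ^ 5 + X 1 ^ 5 + X 2 ^ 5 = 0}

/-- homogeneous lifts -/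
def Lift : Set Amb := {q | q.1 ∈ cone ∧ q.2 ≠ 0}

/-- `|X|²` -/
noncomputable def nn (X : Fin 3 → ℂ) : ℝ := ∑ a, normSq (X a)

/-- `|a|² + |b|² |X|²` -/
noncomputable def NN (q : Amb) : ℝ := normSq (q.2 0) + normSq (q.2 1) * nn q.1

/-- the action of `ℂˣ × ℂˣ` on lifts -/
noncomputable def act (l k : ℂ) (q : Amb) : Amb := (l • q.1, ![k * q.2 0, k * l⁻¹ * q.2 1])

/-- the space in which the surface is embedded -/
abbrev Tgt : Type := (Fin 3 → Fin 3 → ℂ) × (Fin 3 → ℂ) × ℂ

/-- the embedding map -/
noncomputable def Theta (q : Amb) : Tgt :=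
  (fun c d => q.1 c * conj (q.1 d) / (nn q.1 : ℂ), fun c => q.2 1 * q.1 c * conj (q.2 0) / (NN q : ℂ),
    (normSq (q.2 0) : ℂ) / (NN q : ℂ))

lemma nn_nonneg (X : Fin 3 → ℂ) : 0 ≤ nn X := Finset.sum_nonneg fun _ _ => normSq_nonneg _

lemma nn_pos {X : Fin 3 → ℂ} (h : X ≠ 0) : 0 < nn X := by
  obtain ⟨a, ha⟩ := Function.ne_iff.1 h
  exact Finset.sum_pos' (fun _ _ => normSq_nonneg _) ⟨a, Finset.mem_univ _, normSq_pos.2 ha⟩

lemma NN_pos {q : Amb} (h : q ∈ Lift) : 0 < NN q := by
  have h1 := nn_pos h.1.1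
  have h2 := normSq_nonneg (q.2 0)
  have h3 := normSq_nonneg (q.2 1)
  by_cases h0 : q.2 0 = 0
  · have h4 : q.2 1 ≠ 0 := by
      intro h5
      apply h.2
      funext i
      fin_cases i
      · exact h0
      · exact h5
    have := normSq_pos.2 h4
    unfold NN
    positivity
  · have := normSq_pos.2 h0
    unfold NN
    positivity

lemma nn_smul (l : ℂ) (X : Fin 3 → ℂ) : nn (l • X) = normSq l * nn X := by
  simp only [nn, Pi.smul_apply, smul_eq_mul, normSq_mul, Finset.mul_sum]

lemma NN_act {l : ℂ} (hl : l ≠ 0) (k : ℂ) (q : Amb) : NN (act l k q) = normSq k * NN q := by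
  have h : normSq l ≠ 0 := by rwa [Ne, normSq_eq_zero]
  simp only [NN, act, nn_smul, Matrix.cons_val_zero, Matrix.cons_val_one, normSq_mul, normSq_inv]
  field_simp

lemma act_mem {l k : ℂ} (hl : l ≠ 0) (hk : k ≠ 0) {q : Amb} (hq : q ∈ Lift) : act l k q ∈ Lift := by
  refine ⟨⟨smul_ne_zero hl hq.1.1, ?_⟩, ?_⟩
  · have := hq.1.2
    simp only [act, Pi.smul_apply, smul_eq_mul, mul_pow]
    rw [← mul_add, ← mul_add, this, mul_zero]
  · intro h
    apply hq.2
    funext i
    have h0 := congrFun h 0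
    have h1 := congrFun h 1
    simp only [act, Matrix.cons_val_zero, Matrix.cons_val_one, Pi.zero_apply, mul_eq_zero, hk, hl, inv_eq_zero,
      false_or] at h0 h1
    fin_cases i
    · exact h0
    · exact h1

lemma Theta_act {l k : ℂ} (hl : l ≠ 0) (hk : k ≠ 0) (q : Amb) : Theta (act l k q) = Theta q := by
  have hl' : (normSq l : ℂ) ≠ 0 := by simpa using hl
  have hk' : (normSq k : ℂ) ≠ 0 := by simpa using hk
  have el : (normSq l : ℂ) = l * conj l := (mul_conj l).symm
  have ek : (normSq k : ℂ) = k * conj k := (mul_conj k).symm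
  have hlc : conj l ≠ 0 := by simpa using hl
  have hkc : conj k ≠ 0 := by simpa using hk
  unfold Theta
  rw [NN_act hl]
  refine Prod.ext ?_ (Prod.ext ?_ ?_)
  · funext c d
    simp only [act, nn_smul, Pi.smul_apply, smul_eq_mul, map_mul, ofReal_mul]
    rw [el]
    have : l * q.1 c * (conj l * conj (q.1 d)) = (l * conj l) * (q.1 c * conj (q.1 d)) := by ring
    rw [this, mul_div_mul_left _ _ (mul_ne_zero hl hlc)]
  · funext c
    simp only [act, Pi.smul_apply, smul_eq_mul, map_mul, ofReal_mul, Matrix.cons_val_zero, Matrix.cons_val_one]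
    rw [ek]
    have : k * l⁻¹ * q.2 1 * (l * q.1 c) * (conj k * conj (q.2 0)) =
        (k * conj k) * (q.2 1 * q.1 c * conj (q.2 0)) := by field_simp
    rw [this, mul_div_mul_left _ _ (mul_ne_zero hk hkc)]
  · simp only [act, Matrix.cons_val_zero, normSq_mul, ofReal_mul]
    rw [mul_div_mul_left _ _ hk']

/-- the surface -/
def Surf : Type := ↥(Theta '' Lift)

instance : TopologicalSpace Surf := inferInstanceAs (TopologicalSpace ↥(Theta '' Lift))
instance : T2Space Surf := inferInstanceAs (T2Space ↥(Theta '' Lift))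
instance : MeasurableSpace Surf := borel Surf
instance : BorelSpace Surf := ⟨rfl⟩

/-- the underlying point of the ambient space -/
def Surf.val (p : Surf) : Tgt := Subtype.val p

/-- constructor -/
def Surf.of (x : Tgt) (h : x ∈ Theta '' Lift) : Surf := Subtype.mk x h

lemma Surf.val_of (x : Tgt) (h : x ∈ Theta '' Lift) : (Surf.of x h).val = x := rfl

lemma Surf.continuous_val : Continuous Surf.val := continuous_subtype_val

lemma Surf.ext {p q : Surf} (h : p.val = q.val) : p = q := Subtype.ext h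

/-- a base lift -/
noncomputable def q0 : Amb := (![1, -1, 0], ![1, 0])

lemma q0_mem : q0 ∈ Lift := by
  refine ⟨⟨?_, ?_⟩, ?_⟩
  · intro h
    have := congrFun h 0
    simp [q0] at this
  · simp only [q0, Matrix.cons_val_zero, Matrix.cons_val_one, Matrix.cons_val]; norm_num
  · intro h
    have := congrFun h 0
    simp [q0] at this

open Classical in
/-- the point of the surface with a given lift -/
noncomputable def mk (q : Amb) : Surf :=
  if h : q ∈ Lift then Surf.of (Theta q) (mem_image_of_mem _ h) else Surf.of (Theta q0) (mem_image_of_mem _ q0_mem)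

lemma mk_val {q : Amb} (h : q ∈ Lift) : (mk q).val = Theta q := by
  rw [mk, dif_pos h, Surf.val_of]

lemma mk_surj (p : Surf) : ∃ q ∈ Lift, mk q = p := by
  obtain ⟨x, hx⟩ := p
  obtain ⟨q, hq, hqx⟩ := hx
  refine ⟨q, hq, Surf.ext ?_⟩
  rw [mk_val hq]; exact hqx

lemma mk_act {l k : ℂ} (hl : l ≠ 0) (hk : k ≠ 0) {q : Amb} (hq : q ∈ Lift) : mk (act l k q) = mk q := by
  apply Surf.ext
  rw [mk_val hq, mk_val (act_mem hl hk hq), Theta_act hl hk]

lemma continuous_nn : Continuous nn := by
  unfold nn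
  exact continuous_finsetSum _ fun a _ => continuous_normSq.comp (continuous_apply a)

lemma continuous_NN : Continuous NN := by
  unfold NN
  refine (continuous_normSq.comp ((continuous_apply 0).comp continuous_snd)).add
    ((continuous_normSq.comp ((continuous_apply 1).comp continuous_snd)).mul (continuous_nn.comp continuous_fst))

lemma continuousOn_Theta : ContinuousOn Theta Lift := by
  have h1 : ∀ q ∈ Lift, (nn q.1 : ℂ) ≠ 0 := fun q hq => by
    simpa using (nn_pos hq.1.1).ne'
  have h2 : ∀ q ∈ Lift, (NN q : ℂ) ≠ 0 := fun q hq => by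
    simpa using (NN_pos hq).ne'
  have c1 : Continuous fun q : Amb => (nn q.1 : ℂ) := continuous_ofReal.comp (continuous_nn.comp continuous_fst)
  have c2 : Continuous fun q : Amb => (NN q : ℂ) := continuous_ofReal.comp continuous_NN
  have cX : ∀ c, Continuous fun q : Amb => q.1 c := fun c => (continuous_apply c).comp continuous_fst
  have cv : ∀ c, Continuous fun q : Amb => q.2 c := fun c => (continuous_apply c).comp continuous_snd
  unfold Theta
  refine ContinuousOn.prodMk ?_ (ContinuousOn.prodMk ?_ ?_)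
  · refine continuousOn_pi.2 fun c => continuousOn_pi.2 fun d => ?_
    exact ((cX c).mul (continuous_conj.comp (cX d))).continuousOn.div c1.continuousOn h1
  · refine continuousOn_pi.2 fun c => ?_
    exact (((cv 1).mul (cX c)).mul (continuous_conj.comp (cv 0))).continuousOn.div c2.continuousOn h2
  · exact (continuous_ofReal.comp (continuous_normSq.comp (cv 0))).continuousOn.div c2.continuousOn h2

lemma continuousOn_mk : ContinuousOn mk Lift := by
  have h : ContinuousOn (fun q => (mk q).val) Lift := continuousOn_Theta.congr fun q hq => mk_val hq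
  exact (Topology.IsInducing.subtypeVal.continuousOn_iff).2 h

/-- normalised lifts -/
def Kn : Set Amb := {q | q.1 0 ^ 5 + q.1 1 ^ 5 + q.1 2 ^ 5 = 0 ∧ nn q.1 = 1 ∧ normSq (q.2 0) + normSq (q.2 1) = 1}

lemma Kn_sub : Kn ⊆ Lift := by
  rintro q ⟨h1, h2, h3⟩
  refine ⟨⟨?_, h1⟩, ?_⟩
  · intro h
    rw [h] at h2
    simp [nn] at h2
  · intro h
    rw [h] at h3
    simp at h3

lemma isCompact_Kn : IsCompact Kn := by
  have cX : ∀ c, Continuous fun q : Amb => q.1 c := fun c => (continuous_apply c).comp continuous_fst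
  have cv : ∀ c, Continuous fun q : Amb => q.2 c := fun c => (continuous_apply c).comp continuous_snd
  apply Metric.isCompact_of_isClosed_isBounded
  · have c1 : Continuous fun q : Amb => q.1 0 ^ 5 + q.1 1 ^ 5 + q.1 2 ^ 5 :=
      (((cX 0).pow 5).add ((cX 1).pow 5)).add ((cX 2).pow 5)
    have c2 : Continuous fun q : Amb => nn q.1 := continuous_nn.comp continuous_fst
    have c3 : Continuous fun q : Amb => normSq (q.2 0) + normSq (q.2 1) :=
      (continuous_normSq.comp (cv 0)).add (continuous_normSq.comp (cv 1))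
    exact (isClosed_eq c1 continuous_const).inter ((isClosed_eq c2 continuous_const).inter
      (isClosed_eq c3 continuous_const))
  · refine (Metric.isBounded_closedBall (x := (0 : Amb)) (r := 1)).subset ?_
    rintro q ⟨-, h2, h3⟩
    rw [mem_closedBall_zero_iff, Prod.norm_def, max_le_iff]
    have aux : ∀ w : ℂ, normSq w ≤ 1 → ‖w‖ ≤ 1 := by
      intro w hw
      rw [normSq_eq_norm_sq] at hw
      nlinarith [norm_nonneg w]
    constructor
    · rw [pi_norm_le_iff_of_nonneg zero_le_one]
      intro c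
      apply aux
      rw [← h2]
      exact Finset.single_le_sum (f := fun a => normSq (q.1 a)) (fun _ _ => normSq_nonneg _) (Finset.mem_univ c)
    · rw [pi_norm_le_iff_of_nonneg zero_le_one]
      intro c
      apply aux
      have n0 := normSq_nonneg (q.2 0)
      have n1 := normSq_nonneg (q.2 1)
      fin_cases c
      · show normSq (q.2 0) ≤ 1
        linarith
      · show normSq (q.2 1) ≤ 1
        linarith

lemma exists_normalised {q : Amb} (hq : q ∈ Lift) : ∃ q' ∈ Kn, mk q' = mk q := by
  have h1 := nn_pos hq.1.1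
  set l : ℂ := (((Real.sqrt (nn q.1))⁻¹ : ℝ) : ℂ) with hl
  have hl0 : l ≠ 0 := by
    rw [hl]; simpa using (Real.sqrt_pos.2 h1).ne'
  have hln : normSq l * nn q.1 = 1 := by
    rw [hl, normSq_ofReal, ← mul_inv, Real.mul_self_sqrt h1.le, inv_mul_cancel₀ h1.ne']
  set S : ℝ := normSq (q.2 0) + normSq (l⁻¹ * q.2 1) with hS
  have hSpos : 0 < S := by
    have n0 := normSq_nonneg (q.2 0)
    have n1 := normSq_nonneg (l⁻¹ * q.2 1)
    rcases (add_nonneg n0 n1).lt_or_eq with h | h
    · exact h
    · exfalso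
      have h0 : q.2 0 = 0 := normSq_eq_zero.1 (by linarith)
      have h1 : l⁻¹ * q.2 1 = 0 := normSq_eq_zero.1 (by linarith)
      have h2 : q.2 1 = 0 := by
        rcases mul_eq_zero.1 h1 with h | h
        · exact absurd (inv_eq_zero.1 h) hl0
        · exact h
      apply hq.2
      funext i
      fin_cases i
      · exact h0
      · exact h2
  set k : ℂ := (((Real.sqrt S)⁻¹ : ℝ) : ℂ) with hk
  have hk0 : k ≠ 0 := by
    rw [hk]; simpa using (Real.sqrt_pos.2 hSpos).ne'
  have hkn : normSq k * S = 1 := by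
    rw [hk, normSq_ofReal, ← mul_inv, Real.mul_self_sqrt hSpos.le, inv_mul_cancel₀ hSpos.ne']
  refine ⟨act l k q, ⟨(act_mem hl0 hk0 hq).1.2, ?_, ?_⟩, mk_act hl0 hk0 hq⟩
  · show nn (l • q.1) = 1
    rw [nn_smul, hln]
  · simp only [act, Matrix.cons_val_zero, Matrix.cons_val_one]
    rw [mul_assoc k l⁻¹ (q.2 1), normSq_mul k (q.2 0), normSq_mul k, ← mul_add, ← hS, hkn]

instance : CompactSpace Surf := by
  have h : (univ : Set Surf) = mk '' Kn := by
    ext p
    simp only [mem_univ, true_iff]
    obtain ⟨q, hq, rfl⟩ := mk_surj p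
    obtain ⟨q', hq', h⟩ := exists_normalised hq
    exact ⟨q', hq', h⟩
  rw [← isCompact_univ_iff, h]
  exact isCompact_Kn.image_of_continuousOn (continuousOn_mk.mono Kn_sub)

end Pool.Agent.KS.Sp
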