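import Pool.Agent.KS.Calc

/-!
# Complex surfaces with an indexed holomorphic atlas, local potentials (module SURF)
-/

namespace Pool.Agent.KS

open MeasureTheory Complex Topology
open scoped ContDiff Matrix ComplexOrder ComplexConjugate Manifold

noncomputable section

/-- A holomorphic atlas of dimension two, indexed by `ι`. -/
structure CSurf (M ι : Type) [TopologicalSpace M] where
  /-- the charts -/
  ch : ι → OpenPartialHomeomorph M C2
  /-- they cover -/
  cover : ∀ x, ∃ i, x ∈ (ch i).source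
  /-- holomorphic transition maps -/
  hol : ∀ i j, ContDiffOn ℂ ω (fun z => ch j ((ch i).symm z))
    ((ch i).target ∩ (ch i).symm ⁻¹' (ch j).source)

/-- potentials of (minus) the Ricci form -/
def ricF {ι : Type} (φ : ι → C2 → ℝ) : ι → C2 → ℝ := fun i z => Real.log (dt (φ i) z)

namespace CSurf

variable {M ι : Type} [TopologicalSpace M] (S : CSurf M ι)

/-- transition map from the chart `i` to the chart `j` -/
def tr (i j : ι) : C2 → C2 := fun z => S.ch j ((S.ch i).symm z)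

/-- domain of the transition map -/
def ovl (i j : ι) : Set C2 := (S.ch i).target ∩ (S.ch i).symm ⁻¹' (S.ch j).source

/-- smooth real functions on `M` -/
def Sm (u : M → ℝ) : Prop := ∀ i, ContDiffOn ℝ ∞ (fun z => u ((S.ch i).symm z)) (S.ch i).target

/-- the family of local expressions of a function -/
def fnF (u : M → ℝ) : ι → C2 → ℝ := fun i z => u ((S.ch i).symm z)

/-- A family of local potentials whose complex Hessians define a global `(1,1)`-form. -/
structure IsFrm (A : ι → C2 → ℝ) : Prop where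
  smooth : ∀ i, ContDiffOn ℝ ∞ (A i) (S.ch i).target
  compat : ∀ i j, ∀ z ∈ S.ovl i j, cHess (A i) z
    = (Jm (S.tr i j) z)ᵀ * cHess (A j) (S.tr i j z) * (Jm (S.tr i j) z).map (starRingEnd ℂ)

/-- Local potentials of a Kaehler metric. -/
structure IsKah (φ : ι → C2 → ℝ) : Prop extends S.IsFrm φ where
  pos : ∀ i, ∀ z ∈ (S.ch i).target, (cHess (φ i) z).PosDef

/-- a chart index at a point -/
def idx (x : M) : ι := Classical.choose (S.cover x)

theorem idx_mem (x : M) : x ∈ (S.ch (S.idx x)).source := Classical.choose_spec (S.cover x)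

/-- The function `D(A,B)/D(φ,φ)` on `M`. -/
def den (φ A B : ι → C2 → ℝ) (x : M) : ℝ :=
  Dm (A (S.idx x)) (B (S.idx x)) (S.ch (S.idx x) x) / dt (φ (S.idx x)) (S.ch (S.idx x) x)

/-- one quarter of the scalar curvature as a function on `M` -/
def shM (φ : ι → C2 → ℝ) (x : M) : ℝ := sh (φ (S.idx x)) (S.ch (S.idx x) x)

theorem isOpen_ovl (i j : ι) : IsOpen (S.ovl i j) :=
  (S.ch i).symm.continuousOn.isOpen_inter_preimage (S.ch i).open_target (S.ch j).open_source

theorem mem_ovl {i j : ι} {x : M} (hi : x ∈ (S.ch i).source) (hj : x ∈ (S.ch j).source) :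
    S.ch i x ∈ S.ovl i j := by
  refine ⟨(S.ch i).map_source hi, ?_⟩
  simpa only [Set.mem_preimage, (S.ch i).left_inv hi] using hj

theorem tr_apply {i j : ι} {x : M} (hi : x ∈ (S.ch i).source) :
    S.tr i j (S.ch i x) = S.ch j x := by
  simp only [tr, (S.ch i).left_inv hi]

theorem symm_tr {i j : ι} {z : C2} (hz : z ∈ S.ovl i j) :
    (S.ch j).symm (S.tr i j z) = (S.ch i).symm z := by
  simp only [tr]
  exact (S.ch j).left_inv hz.2

theorem tr_mem_target {i j : ι} {z : C2} (hz : z ∈ S.ovl i j) :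
    S.tr i j z ∈ (S.ch j).target := (S.ch j).map_source hz.2

theorem tr_mem_ovl {i j : ι} {z : C2} (hz : z ∈ S.ovl i j) : S.tr i j z ∈ S.ovl j i := by
  refine ⟨S.tr_mem_target hz, ?_⟩
  simp only [Set.mem_preimage, S.symm_tr hz]
  exact (S.ch i).map_target hz.1

theorem tr_tr {i j : ι} {z : C2} (hz : z ∈ S.ovl i j) : S.tr j i (S.tr i j z) = z := by
  have : S.tr j i (S.tr i j z) = S.ch i ((S.ch j).symm (S.tr i j z)) := rfl
  rw [this, S.symm_tr hz]
  exact (S.ch i).right_inv hz.1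

theorem contDiffOn_tr (i j : ι) : ContDiffOn ℂ ∞ (S.tr i j) (S.ovl i j) :=
  (S.hol i j).of_le (by exact le_top)

theorem contDiffAt_tr {i j : ι} {z : C2} (hz : z ∈ S.ovl i j) :
    ContDiffAt ℂ ∞ (S.tr i j) z :=
  (S.contDiffOn_tr i j).contDiffAt ((S.isOpen_ovl i j).mem_nhds hz)

theorem det_tr_ne_zero (i j : ι) {z : C2} (hz : z ∈ S.ovl i j) : (Jm (S.tr i j) z).det ≠ 0 := by
  have h1 : DifferentiableAt ℂ (S.tr i j) z :=
    (S.contDiffAt_tr hz).differentiableAt (by simp)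
  have h2 : DifferentiableAt ℂ (S.tr j i) (S.tr i j z) :=
    (S.contDiffAt_tr (S.tr_mem_ovl hz)).differentiableAt (by simp)
  have h3 := Jm_comp h1 h2
  have h4 : (fun w => S.tr j i (S.tr i j w)) =ᶠ[𝓝 z] fun w => w := by
    filter_upwards [(S.isOpen_ovl i j).mem_nhds hz] with w hw
    exact S.tr_tr hw
  have h5 : Jm (fun w => S.tr j i (S.tr i j w)) z = 1 := by
    ext a b
    rw [Jm, h4.fderiv_eq]
    have : (fun w : C2 => w) = id := rfl
    rw [this, fderiv_id]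
    simp only [ContinuousLinearMap.coe_id', id_eq, Matrix.one_apply]
    by_cases hab : a = b
    · subst hab; simp
    · rw [if_neg hab, Pi.single_eq_of_ne hab]
  intro h0
  have h6 : (Jm (S.tr j i) (S.tr i j z) * Jm (S.tr i j) z).det = 1 := by
    rw [← h3, h5, Matrix.det_one]
  rw [Matrix.det_mul, h0, mul_zero] at h6
  exact zero_ne_one h6

variable {S}

theorem Sm.const (c : ℝ) : S.Sm (fun _ => c) := fun _ => contDiffOn_const

theorem Sm.add {u v : M → ℝ} (hu : S.Sm u) (hv : S.Sm v) : S.Sm (fun x => u x + v x) :=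
  fun i => (hu i).add (hv i)

theorem Sm.sub {u v : M → ℝ} (hu : S.Sm u) (hv : S.Sm v) : S.Sm (fun x => u x - v x) :=
  fun i => (hu i).sub (hv i)

theorem Sm.mul {u v : M → ℝ} (hu : S.Sm u) (hv : S.Sm v) : S.Sm (fun x => u x * v x) :=
  fun i => (hu i).mul (hv i)

theorem Sm.const_mul {u : M → ℝ} (c : ℝ) (hu : S.Sm u) : S.Sm (fun x => c * u x) :=
  fun i => contDiffOn_const.mul (hu i)

theorem Sm.sum {α : Type} (s : Finset α) {u : α → M → ℝ} (hu : ∀ a ∈ s, S.Sm (u a)) :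
    S.Sm (fun x => ∑ a ∈ s, u a x) :=
  fun i => ContDiffOn.sum fun a ha => hu a ha i

theorem Sm.comp {u : M → ℝ} {h : ℝ → ℝ} (hu : S.Sm u) (hh : ∀ x, ContDiffAt ℝ ∞ h (u x)) :
    S.Sm (fun x => h (u x)) :=
  fun i z hz => (hh ((S.ch i).symm z)).comp_contDiffWithinAt z (hu i z hz)

theorem Sm.div {u v : M → ℝ} (hu : S.Sm u) (hv : S.Sm v) (h0 : ∀ x, v x ≠ 0) :
    S.Sm (fun x => u x / v x) :=
  fun i => (hu i).div (hv i) fun _ _ => h0 _

theorem Sm.log {u : M → ℝ} (hu : S.Sm u) (h0 : ∀ x, 0 < u x) :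
    S.Sm (fun x => Real.log (u x)) :=
  fun i => (hu i).log fun _ _ => (h0 _).ne'

theorem Sm.continuous {u : M → ℝ} (hu : S.Sm u) : Continuous u := by
  rw [continuous_iff_continuousAt]
  intro x
  have hx := S.idx_mem x
  have h1 : ContinuousAt (fun z => u ((S.ch (S.idx x)).symm z)) (S.ch (S.idx x) x) :=
    (hu (S.idx x)).continuousOn.continuousAt
      ((S.ch (S.idx x)).open_target.mem_nhds ((S.ch (S.idx x)).map_source hx))
  have h2 : ContinuousAt (fun y => u ((S.ch (S.idx x)).symm (S.ch (S.idx x) y))) x :=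
    ContinuousAt.comp (f := S.ch (S.idx x)) (g := fun z => u ((S.ch (S.idx x)).symm z)) h1
      ((S.ch (S.idx x)).continuousAt hx)
  refine h2.congr ?_
  filter_upwards [(S.ch (S.idx x)).open_source.mem_nhds hx] with y hy
  rw [(S.ch (S.idx x)).left_inv hy]

/-- If local functions agree on overlaps, the function they define is smooth. -/
theorem Sm.of_local {u : M → ℝ} (f : ι → C2 → ℝ)
    (hf : ∀ i, ContDiffOn ℝ ∞ (f i) (S.ch i).target)
    (h : ∀ i, ∀ x ∈ (S.ch i).source, u x = f i (S.ch i x)) : S.Sm u := by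
  intro i
  refine (hf i).congr fun z hz => ?_
  rw [h i _ ((S.ch i).map_target hz), (S.ch i).right_inv hz]

theorem two_le_inf : (2 : WithTop ℕ∞) ≤ ∞ := WithTop.coe_le_coe.2 (le_top : (2 : ℕ∞) ≤ ⊤)

theorem three_le_inf : (3 : WithTop ℕ∞) ≤ ∞ := WithTop.coe_le_coe.2 (le_top : (3 : ℕ∞) ≤ ⊤)

theorem contDiffAt_tr2 {i j : ι} {z : C2} (hz : z ∈ S.ovl i j) :
    ContDiffAt ℂ 2 (S.tr i j) z := (S.contDiffAt_tr hz).of_le two_le_inf

theorem IsFrm.contDiffAt {A : ι → C2 → ℝ} (hA : S.IsFrm A) (i : ι) {z : C2}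
    (hz : z ∈ (S.ch i).target) : ContDiffAt ℝ ∞ (A i) z :=
  (hA.smooth i).contDiffAt ((S.ch i).open_target.mem_nhds hz)

theorem IsFrm.contDiffAt2 {A : ι → C2 → ℝ} (hA : S.IsFrm A) (i : ι) {z : C2}
    (hz : z ∈ (S.ch i).target) : ContDiffAt ℝ 2 (A i) z :=
  (hA.contDiffAt i hz).of_le two_le_inf

theorem Sm.contDiffAt {u : M → ℝ} (hu : S.Sm u) (i : ι) {z : C2}
    (hz : z ∈ (S.ch i).target) : ContDiffAt ℝ ∞ (S.fnF u i) z :=
  (hu i).contDiffAt ((S.ch i).open_target.mem_nhds hz)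

theorem Sm.contDiffAt2 {u : M → ℝ} (hu : S.Sm u) (i : ι) {z : C2}
    (hz : z ∈ (S.ch i).target) : ContDiffAt ℝ 2 (S.fnF u i) z :=
  (hu.contDiffAt i hz).of_le two_le_inf

theorem isFrm_fnF {u : M → ℝ} (hu : S.Sm u) : S.IsFrm (S.fnF u) := by
  refine ⟨fun i => hu i, fun i j z hz => ?_⟩
  rw [← cHess_comp_holo (contDiffAt_tr2 hz) (hu.contDiffAt2 j (S.tr_mem_target hz))]
  refine cHess_congr ?_
  filter_upwards [(S.isOpen_ovl i j).mem_nhds hz] with w hw
  simp only [fnF]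
  rw [S.symm_tr hw]

theorem IsFrm.add {A B : ι → C2 → ℝ} (hA : S.IsFrm A) (hB : S.IsFrm B) : S.IsFrm (A + B) := by
  refine ⟨fun i => (hA.smooth i).add (hB.smooth i), fun i j z hz => ?_⟩
  have h1 : cHess ((A + B) i) z = cHess (A i) z + cHess (B i) z :=
    cHess_add (hA.contDiffAt2 i hz.1) (hB.contDiffAt2 i hz.1)
  have h2 : cHess ((A + B) j) (S.tr i j z) = cHess (A j) (S.tr i j z) + cHess (B j) (S.tr i j z) :=
    cHess_add (hA.contDiffAt2 j (S.tr_mem_target hz)) (hB.contDiffAt2 j (S.tr_mem_target hz))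
  rw [h1, h2, hA.compat i j z hz, hB.compat i j z hz, Matrix.mul_add, Matrix.add_mul]

theorem IsFrm.sub {A B : ι → C2 → ℝ} (hA : S.IsFrm A) (hB : S.IsFrm B) : S.IsFrm (A - B) := by
  refine ⟨fun i => (hA.smooth i).sub (hB.smooth i), fun i j z hz => ?_⟩
  have h1 : cHess ((A - B) i) z = cHess (A i) z - cHess (B i) z :=
    cHess_sub (hA.contDiffAt2 i hz.1) (hB.contDiffAt2 i hz.1)
  have h2 : cHess ((A - B) j) (S.tr i j z) = cHess (A j) (S.tr i j z) - cHess (B j) (S.tr i j z) :=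
    cHess_sub (hA.contDiffAt2 j (S.tr_mem_target hz)) (hB.contDiffAt2 j (S.tr_mem_target hz))
  rw [h1, h2, hA.compat i j z hz, hB.compat i j z hz, Matrix.mul_sub, Matrix.sub_mul]

theorem IsFrm.smul {A : ι → C2 → ℝ} (c : ℝ) (hA : S.IsFrm A) : S.IsFrm (c • A) := by
  refine ⟨fun i => contDiffOn_const.mul (hA.smooth i), fun i j z hz => ?_⟩
  have h1 : cHess ((c • A) i) z = (c : ℂ) • cHess (A i) z :=
    cHess_const_mul c (hA.contDiffAt2 i hz.1)
  have h2 : cHess ((c • A) j) (S.tr i j z) = (c : ℂ) • cHess (A j) (S.tr i j z) :=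
    cHess_const_mul c (hA.contDiffAt2 j (S.tr_mem_target hz))
  rw [h1, h2, hA.compat i j z hz, Matrix.mul_smul, Matrix.smul_mul]

theorem IsKah.dt_pos {φ : ι → C2 → ℝ} (hφ : S.IsKah φ) (i : ι) {z : C2}
    (hz : z ∈ (S.ch i).target) : 0 < dt (φ i) z := by
  have h := (hφ.pos i z hz).det_pos
  rw [Complex.lt_def] at h
  exact h.1

theorem IsFrm.Dm_compat {A B : ι → C2 → ℝ} (hA : S.IsFrm A) (hB : S.IsFrm B) {i j : ι} {z : C2}
    (hz : z ∈ S.ovl i j) :
    Dm (A i) (B i) z = ‖(Jm (S.tr i j) z).det‖ ^ 2 * Dm (A j) (B j) (S.tr i j z) := by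
  rw [Dm, hA.compat i j z hz, hB.compat i j z hz, mdet_congruence, Dm]

theorem IsFrm.dt_compat {A : ι → C2 → ℝ} (hA : S.IsFrm A) {i j : ι} {z : C2}
    (hz : z ∈ S.ovl i j) :
    dt (A i) z = ‖(Jm (S.tr i j) z).det‖ ^ 2 * dt (A j) (S.tr i j z) := by
  rw [dt_eq_Dm, hA.Dm_compat hA hz, dt_eq_Dm]

theorem isFrm_ricF {φ : ι → C2 → ℝ} (hφ : S.IsKah φ) : S.IsFrm (ricF φ) := by
  have hsm : ∀ i, ContDiffOn ℝ ∞ (ricF φ i) (S.ch i).target := fun i =>
    contDiffOn_log_dt (S.ch i).open_target (hφ.smooth i) fun z hz => hφ.dt_pos i hz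
  refine ⟨hsm, fun i j z hz => ?_⟩
  have hJ0 := S.det_tr_ne_zero i j hz
  have hn : 0 < ‖(Jm (S.tr i j) z).det‖ := norm_pos_iff.2 hJ0
  have hJd : ContDiffAt ℂ 2 (fun w => (Jm (S.tr i j) w).det) z :=
    contDiffAt_det_Jm ((S.contDiffAt_tr hz).of_le three_le_inf) (by norm_num)
  have hj : ContDiffAt ℝ 2 (ricF φ j) (S.tr i j z) :=
    ((hsm j).contDiffAt ((S.ch j).open_target.mem_nhds (S.tr_mem_target hz))).of_le two_le_inf
  have hcomp : ContDiffAt ℝ 2 (fun w => ricF φ j (S.tr i j w)) z :=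
    ContDiffAt.comp (g := ricF φ j) (f := S.tr i j) z hj ((contDiffAt_tr2 hz).restrict_scalars ℝ)
  have hlogJ : ContDiffAt ℝ 2 (fun w => Real.log (‖(Jm (S.tr i j) w).det‖ ^ 2)) z :=
    (contDiffAt_norm_sq_holo hJd).log (by positivity)
  have hev : ricF φ i =ᶠ[𝓝 z] fun w => Real.log (‖(Jm (S.tr i j) w).det‖ ^ 2)
      + ricF φ j (S.tr i j w) := by
    filter_upwards [(S.isOpen_ovl i j).mem_nhds hz] with w hw
    have hw0 : 0 < ‖(Jm (S.tr i j) w).det‖ := norm_pos_iff.2 (S.det_tr_ne_zero i j hw)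
    simp only [ricF]
    rw [hφ.toIsFrm.dt_compat hw, Real.log_mul (by positivity)
      (hφ.dt_pos j (S.tr_mem_target hw)).ne']
  rw [cHess_congr hev, cHess_add hlogJ hcomp, cHess_log_norm_sq hJd hJ0, zero_add,
    cHess_comp_holo (contDiffAt_tr2 hz) hj]

/-- `den` can be computed in any chart -/
theorem den_eq {φ A B : ι → C2 → ℝ} (hφ : S.IsKah φ) (hA : S.IsFrm A) (hB : S.IsFrm B) (i : ι)
    {x : M} (hx : x ∈ (S.ch i).source) :
    S.den φ A B x = Dm (A i) (B i) (S.ch i x) / dt (φ i) (S.ch i x) := by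
  have hz : S.ch (S.idx x) x ∈ S.ovl (S.idx x) i := S.mem_ovl (S.idx_mem x) hx
  have ht : S.tr (S.idx x) i (S.ch (S.idx x) x) = S.ch i x := S.tr_apply (S.idx_mem x)
  have hn : 0 < ‖(Jm (S.tr (S.idx x) i) (S.ch (S.idx x) x)).det‖ :=
    norm_pos_iff.2 (S.det_tr_ne_zero _ _ hz)
  have hd := hφ.dt_pos i ((S.ch i).map_source hx)
  rw [den, hA.Dm_compat hB hz, hφ.toIsFrm.dt_compat hz, ht]
  field_simp

theorem shM_eq {φ : ι → C2 → ℝ} (hφ : S.IsKah φ) (i : ι) {x : M} (hx : x ∈ (S.ch i).source) :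
    S.shM φ x = sh (φ i) (S.ch i x) := by
  have h : S.shM φ x = - S.den φ (ricF φ) φ x := by unfold shM den sh ricF; ring
  rw [h, den_eq hφ (isFrm_ricF hφ) hφ.toIsFrm i hx, sh]
  unfold ricF; ring

theorem shM_eq_den {φ : ι → C2 → ℝ} (x : M) : S.shM φ x = - S.den φ (ricF φ) φ x := by
  unfold shM den sh ricF; ring

theorem sm_den {φ A B : ι → C2 → ℝ} (hφ : S.IsKah φ) (hA : S.IsFrm A) (hB : S.IsFrm B) :
    S.Sm (S.den φ A B) := by
  refine Sm.of_local (fun i z => Dm (A i) (B i) z / dt (φ i) z) (fun i => ?_)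
    (fun i x hx => den_eq hφ hA hB i hx)
  exact (contDiffOn_Dm (S.ch i).open_target (hA.smooth i) (hB.smooth i)).div
    (contDiffOn_dt (S.ch i).open_target (hφ.smooth i)) fun z hz => (hφ.dt_pos i hz).ne'

theorem sm_shM {φ : ι → C2 → ℝ} (hφ : S.IsKah φ) : S.Sm (S.shM φ) := by
  refine Sm.of_local (fun i z => sh (φ i) z) (fun i => ?_) (fun i x hx => shM_eq hφ i hx)
  exact contDiffOn_sh (S.ch i).open_target (hφ.smooth i) fun z hz => hφ.dt_pos i hz

theorem den_comm (φ A B : ι → C2 → ℝ) : S.den φ A B = S.den φ B A := by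
  funext x; unfold den Dm; rw [mdet_comm]

theorem mem_idx_target (S : CSurf M ι) (x : M) :
    S.ch (S.idx x) x ∈ (S.ch (S.idx x)).target := (S.ch (S.idx x)).map_source (S.idx_mem x)

theorem den_add_left {φ A A' B : ι → C2 → ℝ} (hA : S.IsFrm A) (hA' : S.IsFrm A') (x : M) :
    S.den φ (A + A') B x = S.den φ A B x + S.den φ A' B x := by
  have h : cHess ((A + A') (S.idx x)) (S.ch (S.idx x) x)
      = cHess (A (S.idx x)) (S.ch (S.idx x) x) + cHess (A' (S.idx x)) (S.ch (S.idx x) x) :=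
    cHess_add (hA.contDiffAt2 _ (S.mem_idx_target x)) (hA'.contDiffAt2 _ (S.mem_idx_target x))
  unfold den Dm
  rw [h, mdet_add_left, add_div]

theorem den_sub_left {φ A A' B : ι → C2 → ℝ} (hA : S.IsFrm A) (hA' : S.IsFrm A') (x : M) :
    S.den φ (A - A') B x = S.den φ A B x - S.den φ A' B x := by
  have h := den_add_left (B := B) (φ := φ) (hA.sub hA') hA' x
  rw [sub_add_cancel] at h
  linarith

theorem den_smul_left {φ A B : ι → C2 → ℝ} (c : ℝ) (hA : S.IsFrm A) (x : M) :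
    S.den φ (c • A) B x = c * S.den φ A B x := by
  have h : cHess ((c • A) (S.idx x)) (S.ch (S.idx x) x)
      = (c : ℂ) • cHess (A (S.idx x)) (S.ch (S.idx x) x) :=
    cHess_const_mul c (hA.contDiffAt2 _ (S.mem_idx_target x))
  unfold den Dm
  rw [h, mdet_smul_left, mul_div_assoc]

theorem mdet_zero_left (B : Matrix (Fin 2) (Fin 2) ℂ) : mdet 0 B = 0 := by
  simp [mdet]

theorem den_const (φ B : ι → C2 → ℝ) (c : ℝ) (x : M) : S.den φ (S.fnF fun _ => c) B x = 0 := by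
  have h : cHess (S.fnF (fun _ => c) (S.idx x)) (S.ch (S.idx x) x) = 0 :=
    cHess_const c _
  unfold den Dm
  rw [h, mdet_zero_left, zero_div]

theorem den_self {φ : ι → C2 → ℝ} (hφ : S.IsKah φ) (x : M) : S.den φ φ φ x = 1 := by
  have h := hφ.dt_pos _ (S.mem_idx_target x)
  rw [den, ← dt_eq_Dm, div_self h.ne']

/-- nonnegativity of mixed densities of semipositive forms -/
theorem den_nonneg {φ A B : ι → C2 → ℝ} (hφ : S.IsKah φ)
    (hA : ∀ i, ∀ z ∈ (S.ch i).target, (cHess (A i) z).PosSemidef)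
    (hB : ∀ i, ∀ z ∈ (S.ch i).target, (cHess (B i) z).PosSemidef) (x : M) :
    0 ≤ S.den φ A B x :=
  div_nonneg (mdet_nonneg (hA _ _ (S.mem_idx_target x)) (hB _ _ (S.mem_idx_target x)))
    (hφ.dt_pos _ (S.mem_idx_target x)).le

/-- The gradient density `mdet(∂u ⊗ ∂̄v, H B)/det H φ`. -/
def gden (S : CSurf M ι) (φ : ι → C2 → ℝ) (u : M → ℝ) (B : ι → C2 → ℝ) (x : M) : ℝ :=
  mdet (fun i j => gz i (S.fnF u (S.idx x)) (S.ch (S.idx x) x)
      * conj (gz j (S.fnF u (S.idx x)) (S.ch (S.idx x) x)))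
    (cHess (B (S.idx x)) (S.ch (S.idx x) x)) / dt (φ (S.idx x)) (S.ch (S.idx x) x)

/-- product rule: `D(u²,B) = 2 u D(u,B) + 2 mdet(∂u ⊗ ∂̄u, H B)`. -/
theorem den_sq {φ B : ι → C2 → ℝ} {u : M → ℝ} (hu : S.Sm u) (x : M) :
    S.den φ (S.fnF fun y => u y ^ 2) B x = 2 * (u x * S.den φ (S.fnF u) B x)
      + 2 * S.gden φ u B x := by
  set i := S.idx x with hi
  set z := S.ch i x with hz
  have hzt : z ∈ (S.ch i).target := S.mem_idx_target x
  have hu2 : ContDiffAt ℝ 2 (S.fnF u i) z := hu.contDiffAt2 i hzt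
  have hux : S.fnF u i z = u x := by
    simp only [fnF, hz]; rw [(S.ch i).left_inv (S.idx_mem x)]
  obtain ⟨G, hG⟩ : ∃ G : Matrix (Fin 2) (Fin 2) ℂ,
      G = fun a b => gz a (S.fnF u i) z * conj (gz b (S.fnF u i) z) := ⟨_, rfl⟩
  have h : cHess (S.fnF (fun y => u y ^ 2) i) z
      = ((2 * u x : ℝ) : ℂ) • cHess (S.fnF u i) z + ((2 : ℝ) : ℂ) • G := by
    ext a b
    have e : S.fnF (fun y => u y ^ 2) i = fun w => S.fnF u i w * S.fnF u i w := by
      funext w; simp only [fnF]; ring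
    rw [e, cHess_mul a b hu2 hu2, hux]
    simp only [Matrix.add_apply, Matrix.smul_apply, smul_eq_mul]
    have hGab : G a b = gz a (S.fnF u i) z * conj (gz b (S.fnF u i) z) := by rw [hG]
    rw [hGab]
    push_cast
    ring
  unfold den gden Dm
  rw [← hi, ← hz, h, mdet_add_left, mdet_smul_left, mdet_smul_left, ← hG]
  ring

/-- A compact cover: compact subsets `K i` of the targets whose images cover `M`. -/
theorem exists_compact_cover [CompactSpace M] [T2Space M] [Fintype ι] (S : CSurf M ι) :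
    ∃ K : ι → Set C2, (∀ i, IsCompact (K i)) ∧ (∀ i, K i ⊆ (S.ch i).target) ∧
      ∀ x, ∃ i, x ∈ (S.ch i).source ∧ S.ch i x ∈ K i := by
  obtain ⟨K, hK, hKU, hKc⟩ := isCompact_univ.finite_compact_cover (Finset.univ : Finset ι)
    (fun i => (S.ch i).source) (fun i _ => (S.ch i).open_source)
    (fun x _ => by
      obtain ⟨i, hi⟩ := S.cover x
      simp only [Finset.mem_univ, Set.iUnion_true, Set.mem_iUnion]
      exact ⟨i, hi⟩)
  refine ⟨fun i => S.ch i '' K i, fun i => ?_, fun i => ?_, fun x => ?_⟩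
  · exact (hK i).image_of_continuousOn ((S.ch i).continuousOn.mono (hKU i))
  · rintro _ ⟨x, hx, rfl⟩
    exact (S.ch i).map_source (hKU i hx)
  · have hx : x ∈ ⋃ i ∈ (Finset.univ : Finset ι), K i := hKc ▸ Set.mem_univ x
    simp only [Finset.mem_univ, Set.iUnion_true, Set.mem_iUnion] at hx
    obtain ⟨i, hi⟩ := hx
    exact ⟨i, hKU i hi, x, hi, rfl⟩

end CSurf

end

end Pool.Agent.KS
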