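import Pool.Agent.KS.LocIBP

/-!
# Changes of charts, the volume measure of a Kaehler metric: existence, finiteness, integration in charts
-/

namespace Pool.Agent.KS

open Wir

open scoped ContDiff Matrix ComplexOrder Manifold
open Complex MeasureTheory Set

section basic

variable {n : ℕ} {M : Type} [TopologicalSpace M] [ChartedSpace (Cn n) M]

omit [ChartedSpace (Cn n) M] in
lemma overlap_isOpen (e e' : OpenPartialHomeomorph M (Cn n)) : IsOpen (e.target ∩ e.symm ⁻¹' e'.source) :=
  e.symm.continuousOn.isOpen_inter_preimage e.open_target e'.open_source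

omit [ChartedSpace (Cn n) M] in
lemma mem_overlap {e e' : OpenPartialHomeomorph M (Cn n)} {p : M} (h : p ∈ e.source) (h' : p ∈ e'.source) :
    e p ∈ e.target ∩ e.symm ⁻¹' e'.source := by
  refine ⟨e.map_source h, ?_⟩
  simp only [mem_preimage, e.left_inv h]
  exact h'

/-- changes of charts are holomorphic -/
lemma tr_contDiffOn [IsManifold 𝓘(ℂ, Cn n) ω M] {e e' : OpenPartialHomeomorph M (Cn n)} (he : e ∈ atlas (Cn n) M)
    (he' : e' ∈ atlas (Cn n) M) :
    ContDiffOn ℂ ω (fun z => e' (e.symm z)) (e.target ∩ e.symm ⁻¹' e'.source) := by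
  have h := (contDiffGroupoid ω 𝓘(ℂ, Cn n)).compatible he he'
  rw [contDiffGroupoid, mem_groupoid_of_pregroupoid] at h
  have h1 := h.1
  simp only [contDiffPregroupoid] at h1
  refine h1.mono ?_ |>.congr fun z _ => ?_
  · intro z hz
    simp only [OpenPartialHomeomorph.trans_source, OpenPartialHomeomorph.symm_source, mem_inter_iff,
      mem_preimage, modelWithCornersSelf_coe_symm, id, modelWithCornersSelf_coe, range_id, mem_univ, and_true]
    exact hz
  · simp

lemma tr_differentiableAt [IsManifold 𝓘(ℂ, Cn n) ω M] {e e' : OpenPartialHomeomorph M (Cn n)} (he : e ∈ atlas (Cn n) M)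
    (he' : e' ∈ atlas (Cn n) M) {z : Cn n} (hz : z ∈ e.target ∩ e.symm ⁻¹' e'.source) :
    DifferentiableAt ℂ (fun z => e' (e.symm z)) z :=
  ((tr_contDiffOn he he').differentiableOn (by simp)).differentiableAt ((overlap_isOpen e e').mem_nhds hz)

lemma tr_contDiffOn_real [IsManifold 𝓘(ℂ, Cn n) ω M] {e e' : OpenPartialHomeomorph M (Cn n)} (he : e ∈ atlas (Cn n) M)
    (he' : e' ∈ atlas (Cn n) M) :
    ContDiffOn ℝ ∞ (fun z => e' (e.symm z)) (e.target ∩ e.symm ⁻¹' e'.source) :=
  ((tr_contDiffOn he he').restrict_scalars ℝ).of_le le_top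

/-- a complex manifold is a smooth real manifold -/
lemma isManifold_real [IsManifold 𝓘(ℂ, Cn n) ω M] : IsManifold 𝓘(ℝ, Cn n) ∞ M := by
  refine isManifold_of_contDiffOn _ _ _ fun e e' he he' => ?_
  refine (tr_contDiffOn_real he he').mono ?_ |>.congr fun z _ => ?_
  · intro z hz
    simp only [OpenPartialHomeomorph.trans_source, OpenPartialHomeomorph.symm_source, mem_inter_iff,
      mem_preimage, modelWithCornersSelf_coe_symm, id, modelWithCornersSelf_coe, range_id, mem_univ, and_true] at hz
    exact hz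
  · simp

/-- `ContMDiff` functions are smooth in the sense of `SmoothFun`. -/
lemma smoothFun_of_contMDiff [IsManifold 𝓘(ℂ, Cn n) ω M] {φ : M → ℝ}
    (h : ContMDiff 𝓘(ℝ, Cn n) 𝓘(ℝ, ℝ) ∞ φ) : SmoothFun (n := n) φ := by
  have := isManifold_real (n := n) (M := M)
  intro e he
  have h1 := contMDiffOn_symm_of_mem_maximalAtlas (I := 𝓘(ℝ, Cn n)) (n := ∞)
    (IsManifold.subset_maximalAtlas he)
  have h2 : ContMDiffOn 𝓘(ℝ, Cn n) 𝓘(ℝ, ℝ) ∞ (φ ∘ e.symm) e.target :=
    h.comp_contMDiffOn h1
  exact contMDiffOn_iff_contDiffOn.1 h2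

/-- Smoothness can be checked in a neighbourhood of each point in some chart of the atlas. -/
lemma smoothFun_of_local [IsManifold 𝓘(ℂ, Cn n) ω M] {φ : M → ℝ}
    (h : ∀ p : M, ∃ e ∈ atlas (Cn n) M, p ∈ e.source ∧ ContDiffAt ℝ ∞ (fun z => φ (e.symm z)) (e p)) :
    SmoothFun (n := n) φ := by
  intro e he z hz
  obtain ⟨e', he', hp, hs⟩ := h (e.symm z)
  have hzo : z ∈ e.target ∩ e.symm ⁻¹' e'.source := ⟨hz, hp⟩
  have h1 : ContDiffAt ℝ ∞ (fun w => e' (e.symm w)) z :=
    (tr_contDiffOn_real he he').contDiffAt ((overlap_isOpen e e').mem_nhds hzo)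
  have h2 : ContDiffAt ℝ ∞ ((fun w => φ (e'.symm w)) ∘ (fun w => e' (e.symm w))) z :=
    ContDiffAt.comp z hs h1
  refine (h2.congr_of_eventuallyEq ?_).contDiffWithinAt
  filter_upwards [(overlap_isOpen e e').mem_nhds hzo] with w hw
  simp only [Function.comp_apply]
  rw [e'.left_inv hw.2]

lemma SmoothFun.continuous {φ : M → ℝ} (h : SmoothFun (n := n) φ) : Continuous φ := by
  rw [continuous_iff_continuousAt]
  intro p
  set e := chartAt (Cn n) p with hedef
  have he : e ∈ atlas (Cn n) M := chart_mem_atlas _ p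
  have hp : p ∈ e.source := mem_chart_source _ p
  have h1 : ContinuousAt (fun z => φ (e.symm z)) (e p) :=
    ((h e he).continuousOn).continuousAt (e.open_target.mem_nhds (e.map_source hp))
  have h2 : ContinuousAt ((fun z => φ (e.symm z)) ∘ e) p := ContinuousAt.comp h1 (e.continuousAt hp)
  refine h2.congr ?_
  filter_upwards [e.open_source.mem_nhds hp] with q hq
  simp [e.left_inv hq]

lemma SmoothFun.add {φ ψ : M → ℝ} (h : SmoothFun (n := n) φ) (h' : SmoothFun (n := n) ψ) :
    SmoothFun (n := n) (fun p => φ p + ψ p) := fun e he => (h e he).add (h' e he)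

lemma SmoothFun.sub {φ ψ : M → ℝ} (h : SmoothFun (n := n) φ) (h' : SmoothFun (n := n) ψ) :
    SmoothFun (n := n) (fun p => φ p - ψ p) := fun e he => (h e he).sub (h' e he)

lemma SmoothFun.mul {φ ψ : M → ℝ} (h : SmoothFun (n := n) φ) (h' : SmoothFun (n := n) ψ) :
    SmoothFun (n := n) (fun p => φ p * ψ p) := fun e he => (h e he).mul (h' e he)

lemma SmoothFun.const (c : ℝ) : SmoothFun (n := n) (fun _ : M => c) := fun _ _ => contDiffOn_const

lemma SmoothFun.comp {φ : M → ℝ} (h : SmoothFun (n := n) φ) {f : ℝ → ℝ} (hf : ContDiff ℝ ∞ f) :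
    SmoothFun (n := n) (fun p => f (φ p)) := fun e he => hf.comp_contDiffOn (h e he)

lemma SmoothFun.log {φ : M → ℝ} (h : SmoothFun (n := n) φ) (h0 : ∀ p, φ p ≠ 0) :
    SmoothFun (n := n) (fun p => Real.log (φ p)) := fun e he => (h e he).log fun _ _ => h0 _

lemma SmoothFun.div {φ ψ : M → ℝ} (h : SmoothFun (n := n) φ) (h' : SmoothFun (n := n) ψ) (h0 : ∀ p, ψ p ≠ 0) :
    SmoothFun (n := n) (fun p => φ p / ψ p) := fun e he => (h e he).div (h' e he) fun _ _ => h0 _

lemma SmoothFun.sum {ι : Type*} (s : Finset ι) {φ : ι → M → ℝ} (h : ∀ i ∈ s, SmoothFun (n := n) (φ i)) :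
    SmoothFun (n := n) (fun p => ∑ i ∈ s, φ i p) := fun e he =>
  ContDiffOn.sum fun i hi => h i hi e he

omit [ChartedSpace (Cn n) M] in
/-- the Jacobian matrix as a matrix of a linear map -/
lemma jac_eq (e e' : OpenPartialHomeomorph M (Cn n)) (p : M) :
    jac e e' p = LinearMap.toMatrix' (fderiv ℂ (fun z => e' (e.symm z)) (e p)).toLinearMap := by
  ext a i
  simp [jac, LinearMap.toMatrix'_apply]

omit [ChartedSpace (Cn n) M] in
lemma det_jac_real (e e' : OpenPartialHomeomorph M (Cn n)) (p : M) :
    ((fderiv ℂ (fun z => e' (e.symm z)) (e p)).restrictScalars ℝ).det = normSq (jac e e' p).det := by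
  rw [jac_eq, LinearMap.det_toMatrix']
  have h := LinearMap.det_restrictScalars (R := ℝ) (S := ℂ)
    (f := (fderiv ℂ (fun z => e' (e.symm z)) (e p)).toLinearMap)
  rw [Algebra.norm_complex_apply] at h
  exact h

lemma jac_det_ne [IsManifold 𝓘(ℂ, Cn n) ω M] {e e' : OpenPartialHomeomorph M (Cn n)} (he : e ∈ atlas (Cn n) M)
    (he' : e' ∈ atlas (Cn n) M) {p : M} (hp : p ∈ e.source) (hp' : p ∈ e'.source) :
    (jac e e' p).det ≠ 0 := by
  have h1 : DifferentiableAt ℂ (fun z => e' (e.symm z)) (e p) := tr_differentiableAt he he' (mem_overlap hp hp')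
  have h2 : DifferentiableAt ℂ (fun z => e (e'.symm z)) (e' (e.symm (e p))) := by
    rw [e.left_inv hp]; exact tr_differentiableAt he' he (mem_overlap hp' hp)
  have h3 : fderiv ℂ ((fun z => e (e'.symm z)) ∘ fun z => e' (e.symm z)) (e p) = ContinuousLinearMap.id ℂ _ := by
    have : ((fun z => e (e'.symm z)) ∘ fun z => e' (e.symm z)) =ᶠ[nhds (e p)] id := by
      filter_upwards [(overlap_isOpen e e').mem_nhds (mem_overlap hp hp')] with z hz
      simp only [Function.comp_apply, id]
      rw [e'.left_inv hz.2, e.right_inv hz.1]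
    rw [this.fderiv_eq, fderiv_id]
  have hc := fderiv_comp (𝕜 := ℂ) (g := fun z => e (e'.symm z)) (f := fun z => e' (e.symm z)) (e p) h2 h1
  rw [hc] at h3
  intro h0
  have h4 : (fderiv ℂ (fun z => e' (e.symm z)) (e p)).toLinearMap.det = 0 := by
    rw [← LinearMap.det_toMatrix', ← jac_eq]; exact h0
  have h5 := congrArg (fun L : Cn n →L[ℂ] Cn n => LinearMap.det L.toLinearMap) h3
  simp only [ContinuousLinearMap.toLinearMap_comp, LinearMap.det_comp] at h5
  rw [h4, mul_zero] at h5
  simp at h5

end basic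

section vol

variable {n : ℕ} {M : Type} [TopologicalSpace M]

/-- the measurable image under a chart -/
lemma meas_image [MeasurableSpace M] [BorelSpace M] (e : OpenPartialHomeomorph M (Cn n)) {A : Set M}
    (hA : MeasurableSet A) (hAs : A ⊆ e.source) : MeasurableSet (e '' A) := by
  have h1 : e '' A = Subtype.val '' ((fun z : e.target => e.symm z) ⁻¹' A) := by
    ext z
    constructor
    · rintro ⟨p, hp, rfl⟩
      exact ⟨⟨e p, e.map_source (hAs hp)⟩, by simpa [e.left_inv (hAs hp)] using hp, rfl⟩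
    · rintro ⟨⟨w, hw⟩, hw2, rfl⟩
      exact ⟨e.symm w, hw2, e.right_inv hw⟩
  rw [h1]
  apply MeasurableSet.subtype_image e.open_target.measurableSet
  have hc : Continuous (fun z : e.target => e.symm z) := continuousOn_iff_continuous_domRestrict.1 e.symm.continuousOn
  exact hc.measurable hA

variable [ChartedSpace (Cn n) M]

lemma detC_transf (g : KahlerMetric n M) {e e' : OpenPartialHomeomorph M (Cn n)} (he : e ∈ atlas (Cn n) M)
    (he' : e' ∈ atlas (Cn n) M) {p : M} (hp : p ∈ e.source) (hp' : p ∈ e'.source) :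
    detC g e (e p) = normSq (jac e e' p).det * detC g e' (e' p) := by
  rw [detC, g.transf e he e' he' p ⟨hp, hp'⟩, det_conj, re_ofReal_mul]; rfl

lemma detC_pos (g : KahlerMetric n M) {e : OpenPartialHomeomorph M (Cn n)} (he : e ∈ atlas (Cn n) M)
    {z : Cn n} (hz : z ∈ e.target) : 0 < detC g e z := by
  have h := (g.posDef e he z hz).det_pos
  exact (Complex.lt_def.1 h).1

lemma contDiffOn_det {U : Set (Cn n)} {A : Cn n → Matrix (Fin n) (Fin n) ℂ}
    (h : ∀ i j, ContDiffOn ℝ ∞ (fun z => A z i j) U) : ContDiffOn ℝ ∞ (fun z => (A z).det.re) U := by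
  have h1 : ContDiffOn ℝ ∞ (fun z => (A z).det) U := by
    simp only [Matrix.det_apply]
    refine ContDiffOn.sum fun σ _ => ?_
    have h2 : ContDiffOn ℝ ∞ (fun z => ∏ i, A z (σ i) i) U := contDiffOn_prod fun i _ => h _ _
    have h3 : (fun z => Equiv.Perm.sign σ • ∏ i, A z (σ i) i) =
        fun z => ((Equiv.Perm.sign σ : ℤ) : ℂ) * ∏ i, A z (σ i) i := by
      funext z
      rw [Units.smul_def, zsmul_eq_mul]
    rw [h3]
    exact contDiffOn_const.mul h2
  exact reCLM.contDiff.comp_contDiffOn h1

lemma contDiffOn_detC (g : KahlerMetric n M) {e : OpenPartialHomeomorph M (Cn n)} (he : e ∈ atlas (Cn n) M) :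
    ContDiffOn ℝ ∞ (detC g e) e.target :=
  contDiffOn_det (fun i j => g.smooth e he i j)

/-- change of variables for the volume form -/
lemma lintegral_chart_change [IsManifold 𝓘(ℂ, Cn n) ω M] [MeasurableSpace M] [BorelSpace M]
    (g : KahlerMetric n M) {e e' : OpenPartialHomeomorph M (Cn n)} (he : e ∈ atlas (Cn n) M)
    (he' : e' ∈ atlas (Cn n) M) {B : Set M} (hB : MeasurableSet B) (hBe : B ⊆ e.source) (hBe' : B ⊆ e'.source) :
    ∫⁻ z in e' '' B, ENNReal.ofReal (2 ^ n * detC g e' z) = ∫⁻ z in e '' B, ENNReal.ofReal (2 ^ n * detC g e z) := by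
  set F : Cn n → Cn n := fun z => e' (e.symm z) with hF
  have himg : e' '' B = F '' (e '' B) := by
    rw [image_image]
    refine image_congr fun p hp => ?_
    simp [hF, e.left_inv (hBe hp)]
  have hsub : e '' B ⊆ e.target ∩ e.symm ⁻¹' e'.source := by
    rintro _ ⟨p, hp, rfl⟩
    exact mem_overlap (hBe hp) (hBe' hp)
  have hinj : InjOn F (e '' B) := by
    rintro _ ⟨p, hp, rfl⟩ _ ⟨q, hq, rfl⟩ h
    simp only [hF, e.left_inv (hBe hp), e.left_inv (hBe hq)] at h
    rw [e'.injOn (hBe' hp) (hBe' hq) h]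
  have hder : ∀ z ∈ e '' B, HasFDerivWithinAt F ((fderiv ℂ F z).restrictScalars ℝ) (e '' B) z := by
    intro z hz
    exact ((tr_differentiableAt he he' (hsub hz)).hasFDerivAt.restrictScalars ℝ).hasFDerivWithinAt
  rw [himg, lintegral_image_eq_lintegral_abs_det_fderiv_mul volume (meas_image e hB hBe) hder hinj]
  refine setLIntegral_congr_fun (meas_image e hB hBe) ?_
  rintro _ ⟨p, hp, rfl⟩
  have h1 : ((fderiv ℂ F (e p)).restrictScalars ℝ).det = normSq (jac e e' p).det := det_jac_real e e' p
  simp only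
  rw [h1, abs_of_nonneg (normSq_nonneg _), ← ENNReal.ofReal_mul (normSq_nonneg _),
    detC_transf g he he' (hBe hp) (hBe' hp)]
  have h2 : F (e p) = e' p := by simp [hF, e.left_inv (hBe hp)]
  rw [h2]
  congr 1
  ring

/-- the volume measure in a chart -/
noncomputable def cm [MeasurableSpace M] (g : KahlerMetric n M) (e : OpenPartialHomeomorph M (Cn n)) : Measure M :=
  Measure.map e.symm ((volume.withDensity (fun z => ENNReal.ofReal (2 ^ n * detC g e z))).restrict e.target)

lemma cm_apply [MeasurableSpace M] [BorelSpace M] (g : KahlerMetric n M) (e : OpenPartialHomeomorph M (Cn n))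
    {A : Set M} (hA : MeasurableSet A) (hAs : A ⊆ e.source) :
    cm g e A = ∫⁻ z in e '' A, ENNReal.ofReal (2 ^ n * detC g e z) := by
  have hm : AEMeasurable e.symm ((volume.withDensity (fun z => ENNReal.ofReal (2 ^ n * detC g e z))).restrict e.target) :=
    e.symm.continuousOn.aemeasurable e.open_target.measurableSet
  have hset : e.symm ⁻¹' A ∩ e.target = e '' A := by
    ext z
    constructor
    · rintro ⟨h1, h2⟩
      exact ⟨e.symm z, h1, e.right_inv h2⟩
    · rintro ⟨p, hp, rfl⟩
      exact ⟨by simpa [e.left_inv (hAs hp)] using hp, e.map_source (hAs hp)⟩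
  rw [cm, Measure.map_apply_of_aemeasurable hm hA, Measure.restrict_apply' e.open_target.measurableSet, hset,
    withDensity_apply _ (meas_image e hA hAs)]

/-- Existence of the volume measure. -/
theorem exists_volume [IsManifold 𝓘(ℂ, Cn n) ω M] [CompactSpace M] [MeasurableSpace M] [BorelSpace M]
    (g : KahlerMetric n M) : ∃ μ : Measure M, IsVolume g μ := by
  -- a finite cover by chart domains
  obtain ⟨t, ht⟩ := isCompact_univ.elim_finite_subcover (fun x : M => (chartAt (Cn n) x).source)
    (fun x => (chartAt (Cn n) x).open_source) (fun x _ => mem_iUnion.2 ⟨x, mem_chart_source _ x⟩)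
  let l : List M := t.toList
  have hl : ∀ p : M, ∃ x ∈ l, p ∈ (chartAt (Cn n) x).source := by
    intro p
    obtain ⟨x, hx⟩ := mem_iUnion.1 (ht (mem_univ p))
    obtain ⟨hx1, hx2⟩ := mem_iUnion.1 hx
    exact ⟨x, Finset.mem_toList.2 hx1, hx2⟩
  -- induction over the list: measures which are right on the union of the first charts
  have key : ∀ l : List M, ∃ μ : Measure M, ∀ e ∈ atlas (Cn n) M, ∀ A : Set M, MeasurableSet A → A ⊆ e.source →
      μ A = ∫⁻ z in e '' (A ∩ ⋃ x ∈ l, (chartAt (Cn n) x).source), ENNReal.ofReal (2 ^ n * detC g e z) := by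
    intro l
    induction l with
    | nil => exact ⟨0, fun e he A hA hAs => by simp⟩
    | cons x l ih =>
      obtain ⟨μ, hμ⟩ := ih
      set V : Set M := ⋃ y ∈ l, (chartAt (Cn n) y).source with hV
      have hVo : IsOpen V := isOpen_biUnion fun y _ => (chartAt (Cn n) y).open_source
      set W : Set M := (chartAt (Cn n) x).source with hW
      have hWo : IsOpen W := (chartAt (Cn n) x).open_source
      have hWV : MeasurableSet (W \ V) := hWo.measurableSet.diff hVo.measurableSet
      refine ⟨μ + (cm g (chartAt (Cn n) x)).restrict (W \ V), fun e he A hA hAs => ?_⟩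
      have hU : (⋃ y ∈ x :: l, (chartAt (Cn n) y).source) = V ∪ (W \ V) := by
        rw [union_sdiff_self, hV]
        ext p
        simp only [List.mem_cons, mem_iUnion, mem_union]
        constructor
        · rintro ⟨y, hy | hy, hp⟩
          · subst hy; exact Or.inr hp
          · exact Or.inl ⟨y, hy, hp⟩
        · rintro (⟨y, hy, hp⟩ | hp)
          · exact ⟨y, Or.inr hy, hp⟩
          · exact ⟨x, Or.inl rfl, hp⟩
      rw [hU, Measure.add_apply, Measure.restrict_apply hA, hμ e he A hA hAs, inter_union_distrib_left, image_union,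
        lintegral_union]
      · congr 1
        rw [cm_apply g _ (hA.inter hWV) (fun p hp => hp.2.1)]
        exact lintegral_chart_change g he (chart_mem_atlas _ x) (hA.inter hWV) (fun p hp => hAs hp.1)
          (fun p hp => hp.2.1)
      · exact meas_image e (hA.inter hWV) (fun p hp => hAs hp.1)
      · rw [disjoint_left]
        rintro _ ⟨p, hp, rfl⟩ ⟨q, hq, hpq⟩
        have : q = p := e.injOn (hAs hq.1) (hAs hp.1) hpq
        subst this
        exact hq.2.2 hp.2
  obtain ⟨μ, hμ⟩ := key l
  refine ⟨μ, fun e he A hA hAs => ?_⟩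
  rw [hμ e he A hA hAs]
  have : A ∩ ⋃ x ∈ l, (chartAt (Cn n) x).source = A := by
    apply inter_eq_left.2
    intro p _
    obtain ⟨x, hx, hp⟩ := hl p
    exact mem_biUnion (x := x) hx hp
  rw [this]

variable [MeasurableSpace M] [BorelSpace M] {g : KahlerMetric n M} {μ : Measure M}

lemma IsVolume.restrict_eq (hμ : IsVolume g μ) {e : OpenPartialHomeomorph M (Cn n)} (he : e ∈ atlas (Cn n) M) :
    μ.restrict e.source = cm g e := by
  have hm : AEMeasurable e.symm ((volume.withDensity (fun z => ENNReal.ofReal (2 ^ n * detC g e z))).restrict e.target) :=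
    e.symm.continuousOn.aemeasurable e.open_target.measurableSet
  ext A hA
  rw [Measure.restrict_apply hA, hμ e he _ (hA.inter e.open_source.measurableSet) inter_subset_right,
    ← cm_apply g e (hA.inter e.open_source.measurableSet) inter_subset_right]
  rw [cm, Measure.map_apply_of_aemeasurable hm hA,
    Measure.map_apply_of_aemeasurable hm (hA.inter e.open_source.measurableSet),
    Measure.restrict_apply' e.open_target.measurableSet, Measure.restrict_apply' e.open_target.measurableSet]
  congr 1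
  ext z
  constructor
  · rintro ⟨h1, h2⟩
    exact ⟨h1.1, h2⟩
  · rintro ⟨h1, h2⟩
    exact ⟨⟨h1, e.map_target h2⟩, h2⟩

/-- the volume of a compact manifold is finite -/
theorem IsVolume.isFiniteMeasure [CompactSpace M] (hμ : IsVolume g μ) : IsFiniteMeasure μ := by
  -- it suffices that each point has a neighbourhood of finite measure
  refine ⟨?_⟩
  refine isCompact_univ.measure_lt_top_of_nhdsWithin fun p _ => ?_
  set e := chartAt (Cn n) p with hedef
  have he : e ∈ atlas (Cn n) M := chart_mem_atlas _ p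
  have hp : p ∈ e.source := mem_chart_source _ p
  obtain ⟨K, hK1, hK2, hK3⟩ := local_compact_nhds (e.open_target.mem_nhds (e.map_source hp))
  refine ⟨e.source ∩ e ⁻¹' (interior K), ?_, ?_⟩
  · rw [nhdsWithin_univ]
    exact (e.continuousOn.isOpen_inter_preimage e.open_source isOpen_interior).mem_nhds
      ⟨hp, mem_interior_iff_mem_nhds.2 hK1⟩
  · have hm : MeasurableSet (e.source ∩ e ⁻¹' (interior K)) :=
      (e.continuousOn.isOpen_inter_preimage e.open_source isOpen_interior).measurableSet
    rw [hμ e he _ hm inter_subset_left]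
    have hsub : e '' (e.source ∩ e ⁻¹' (interior K)) ⊆ K := by
      rintro _ ⟨q, hq, rfl⟩
      exact interior_subset hq.2
    refine lt_of_le_of_lt (lintegral_mono_set hsub) ?_
    have hc : ContinuousOn (fun z => 2 ^ n * detC g e z) K :=
      continuousOn_const.mul ((contDiffOn_detC g he).continuousOn.mono hK2)
    have hi : IntegrableOn (fun z => 2 ^ n * detC g e z) K volume := hc.integrableOn_compact hK3
    exact (hi.lintegral_lt_top)

/-- integration in a chart -/
theorem IsVolume.setIntegral_eq (hμ : IsVolume g μ) {e : OpenPartialHomeomorph M (Cn n)} (he : e ∈ atlas (Cn n) M)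
    {F : M → ℝ} (hF : AEStronglyMeasurable F (μ.restrict e.source)) :
    ∫ p in e.source, F p ∂μ = ∫ z in e.target, F (e.symm z) * (2 ^ n * detC g e z) := by
  have hm : AEMeasurable e.symm ((volume.withDensity (fun z => ENNReal.ofReal (2 ^ n * detC g e z))).restrict e.target) :=
    e.symm.continuousOn.aemeasurable e.open_target.measurableSet
  rw [hμ.restrict_eq he] at hF ⊢
  rw [cm, integral_map hm hF]
  have hdm : AEMeasurable (fun z => ENNReal.ofReal (2 ^ n * detC g e z)) (volume.restrict e.target) := by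
    apply AEMeasurable.ennreal_ofReal
    exact (continuousOn_const.mul (contDiffOn_detC g he).continuousOn).aemeasurable e.open_target.measurableSet
  rw [restrict_withDensity e.open_target.measurableSet, integral_withDensity_eq_integral_toReal_smul₀ hdm
    (Filter.Eventually.of_forall fun z => ENNReal.ofReal_lt_top)]
  refine setIntegral_congr_fun e.open_target.measurableSet fun z hz => ?_
  have hpos : 0 ≤ 2 ^ n * detC g e z := mul_nonneg (by positivity) (detC_pos g he hz).le
  simp only [ENNReal.toReal_ofReal hpos, smul_eq_mul]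
  ring

theorem IsVolume.integral_eq (hμ : IsVolume g μ) {e : OpenPartialHomeomorph M (Cn n)} (he : e ∈ atlas (Cn n) M)
    {F : M → ℝ} (hF : AEStronglyMeasurable F μ) (h0 : ∀ p ∉ e.source, F p = 0) :
    ∫ p, F p ∂μ = ∫ z in e.target, F (e.symm z) * (2 ^ n * detC g e z) := by
  rw [← hμ.setIntegral_eq he hF.restrict]
  exact (setIntegral_eq_integral_of_forall_compl_eq_zero h0).symm

/-- null sets can be tested in charts -/
lemma IsVolume.null_iff (hμ : IsVolume g μ) {e : OpenPartialHomeomorph M (Cn n)} (he : e ∈ atlas (Cn n) M)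
    {A : Set M} (hA : MeasurableSet A) (hAs : A ⊆ e.source) : μ A = 0 ↔ volume (e '' A) = 0 := by
  rw [hμ e he A hA hAs]
  have hdm : AEMeasurable (fun z => ENNReal.ofReal (2 ^ n * detC g e z)) (volume.restrict (e '' A)) := by
    have hsub : e '' A ⊆ e.target := by
      rintro _ ⟨p, hp, rfl⟩; exact e.map_source (hAs hp)
    apply AEMeasurable.ennreal_ofReal
    exact ((continuousOn_const.mul (contDiffOn_detC g he).continuousOn).mono hsub).aemeasurable (meas_image e hA hAs)
  rw [lintegral_eq_zero_iff' hdm]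
  constructor
  · intro h
    rw [Filter.EventuallyEq, ae_restrict_iff' (meas_image e hA hAs)] at h
    rw [measure_eq_zero_iff_ae_notMem]
    filter_upwards [h] with z hz hzA
    have h1 := hz hzA
    obtain ⟨p, hp, rfl⟩ := hzA
    have h2 := detC_pos g he (e.map_source (hAs hp))
    rw [Pi.zero_apply, ENNReal.ofReal_eq_zero] at h1
    have h3 : 0 < 2 ^ n * detC g e (e p) := by positivity
    linarith
  · intro h
    rw [Measure.restrict_eq_zero.2 h]
    simp [Filter.EventuallyEq]

end vol

end Pool.Agent.KS
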