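import Pool.Agent.KS.Defs

/-!
# Wirtinger calculus on `Fin n → ℂ`
-/

namespace Pool.Agent.KS.Wir

open scoped ContDiff Matrix ComplexOrder
open Complex

variable {n m : ℕ}

/-- the `z_i`-coefficient of a real linear map -/
noncomputable def lz (L : Cn n →L[ℝ] ℂ) (i : Fin n) : ℂ :=
  (1 / 2 : ℂ) * (L (Pi.single i 1) - I * L (Pi.single i I))

/-- the `\bar z_i`-coefficient of a real linear map -/
noncomputable def lzb (L : Cn n →L[ℝ] ℂ) (i : Fin n) : ℂ :=
  (1 / 2 : ℂ) * (L (Pi.single i 1) + I * L (Pi.single i I))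

lemma dz_eq (i : Fin n) (F : Cn n → ℂ) (z : Cn n) : dz i F z = lz (fderiv ℝ F z) i := rfl

lemma dzb_eq (i : Fin n) (F : Cn n → ℂ) (z : Cn n) : dzb i F z = lzb (fderiv ℝ F z) i := rfl

lemma single_decomp (w : Cn n) :
    w = ∑ a, ((w a).re • (Pi.single a 1 : Cn n) + (w a).im • (Pi.single a I : Cn n)) := by
  funext b
  simp only [Finset.sum_apply, Pi.add_apply, Pi.smul_apply, real_smul]
  rw [Finset.sum_eq_single b]
  · simp only [Pi.single_eq_same, mul_one]
    exact (re_add_im (w b)).symm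
  · intro a _ hab
    simp [Pi.single_eq_of_ne (Ne.symm hab)]
  · intro h; exact absurd (Finset.mem_univ _) h

lemma apply_eq_sum (L : Cn n →L[ℝ] ℂ) (w : Cn n) :
    L w = ∑ a, (lz L a * w a + lzb L a * (starRingEnd ℂ) (w a)) := by
  conv_lhs => rw [single_decomp w]
  rw [map_sum]
  refine Finset.sum_congr rfl fun a _ => ?_
  rw [map_add, map_smul, map_smul]
  simp only [lz, lzb, real_smul]
  set A := L (Pi.single a 1)
  set B := L (Pi.single a I)
  have h1 : (w a) = ((w a).re : ℂ) + ((w a).im : ℂ) * I := (re_add_im (w a)).symm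
  have h2 : (starRingEnd ℂ) (w a) = ((w a).re : ℂ) - ((w a).im : ℂ) * I := by
    apply Complex.ext <;> simp
  have hI : I * I = -1 := I_mul_I
  rw [h2]
  generalize (w a).re = r at *
  generalize (w a).im = s at *
  rw [h1]
  linear_combination ((s : ℂ) * B) * hI

lemma lz_apply_complex (L : Cn n →L[ℂ] ℂ) (i : Fin n) : lz (L.restrictScalars ℝ) i = L (Pi.single i 1) := by
  have h : (Pi.single i I : Cn n) = I • (Pi.single i 1 : Cn n) := by
    rw [← Pi.single_smul]; simp
  simp only [lz, ContinuousLinearMap.coe_restrictScalars', h, map_smul, smul_eq_mul]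
  linear_combination (-(1/2) * L (Pi.single i 1)) * I_mul_I

lemma lzb_apply_complex (L : Cn n →L[ℂ] ℂ) (i : Fin n) : lzb (L.restrictScalars ℝ) i = 0 := by
  have h : (Pi.single i I : Cn n) = I • (Pi.single i 1 : Cn n) := by
    rw [← Pi.single_smul]; simp
  simp only [lzb, ContinuousLinearMap.coe_restrictScalars', h, map_smul, smul_eq_mul]
  linear_combination ((1/2) * L (Pi.single i 1)) * I_mul_I

section rules

variable {F G : Cn n → ℂ} {z : Cn n} (i : Fin n)

lemma dz_congr (h : F =ᶠ[nhds z] G) : dz i F z = dz i G z := by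
  simp only [dz, h.fderiv_eq]

lemma dzb_congr (h : F =ᶠ[nhds z] G) : dzb i F z = dzb i G z := by
  simp only [dzb, h.fderiv_eq]

lemma dz_add (hF : DifferentiableAt ℝ F z) (hG : DifferentiableAt ℝ G z) :
    dz i (fun w => F w + G w) z = dz i F z + dz i G z := by
  simp only [dz, fderiv_fun_add hF hG, add_apply]; ring

lemma dzb_add (hF : DifferentiableAt ℝ F z) (hG : DifferentiableAt ℝ G z) :
    dzb i (fun w => F w + G w) z = dzb i F z + dzb i G z := by
  simp only [dzb, fderiv_fun_add hF hG, add_apply]; ring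

lemma dz_sub (hF : DifferentiableAt ℝ F z) (hG : DifferentiableAt ℝ G z) :
    dz i (fun w => F w - G w) z = dz i F z - dz i G z := by
  simp only [dz, fderiv_fun_sub hF hG, sub_apply]; ring

lemma dzb_sub (hF : DifferentiableAt ℝ F z) (hG : DifferentiableAt ℝ G z) :
    dzb i (fun w => F w - G w) z = dzb i F z - dzb i G z := by
  simp only [dzb, fderiv_fun_sub hF hG, sub_apply]; ring

lemma dz_neg : dz i (fun w => - F w) z = - dz i F z := by
  simp only [dz, fderiv_fun_neg, neg_apply]; ring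

lemma dzb_neg : dzb i (fun w => - F w) z = - dzb i F z := by
  simp only [dzb, fderiv_fun_neg, neg_apply]; ring

lemma dz_mul (hF : DifferentiableAt ℝ F z) (hG : DifferentiableAt ℝ G z) :
    dz i (fun w => F w * G w) z = F z * dz i G z + G z * dz i F z := by
  simp only [dz, fderiv_fun_mul hF hG, add_apply, smul_apply, smul_eq_mul]; ring

lemma dzb_mul (hF : DifferentiableAt ℝ F z) (hG : DifferentiableAt ℝ G z) :
    dzb i (fun w => F w * G w) z = F z * dzb i G z + G z * dzb i F z := by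
  simp only [dzb, fderiv_fun_mul hF hG, add_apply, smul_apply, smul_eq_mul]; ring

lemma dz_const (c : ℂ) : dz i (fun _ => c) z = 0 := by
  simp [dz]

lemma dzb_const (c : ℂ) : dzb i (fun _ => c) z = 0 := by
  simp [dzb]

lemma dz_const_mul (c : ℂ) (hF : DifferentiableAt ℝ F z) :
    dz i (fun w => c * F w) z = c * dz i F z := by
  rw [dz_mul i (differentiableAt_const c) hF, dz_const]; ring

lemma dzb_const_mul (c : ℂ) (hF : DifferentiableAt ℝ F z) :
    dzb i (fun w => c * F w) z = c * dzb i F z := by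
  rw [dzb_mul i (differentiableAt_const c) hF, dzb_const]; ring

lemma dz_sum {ι : Type*} (s : Finset ι) (f : ι → Cn n → ℂ) (hf : ∀ a ∈ s, DifferentiableAt ℝ (f a) z) :
    dz i (fun w => ∑ a ∈ s, f a w) z = ∑ a ∈ s, dz i (f a) z := by
  simp only [dz, fderiv_fun_sum hf, sum_apply, Finset.mul_sum, ← Finset.sum_sub_distrib]

lemma dzb_sum {ι : Type*} (s : Finset ι) (f : ι → Cn n → ℂ) (hf : ∀ a ∈ s, DifferentiableAt ℝ (f a) z) :
    dzb i (fun w => ∑ a ∈ s, f a w) z = ∑ a ∈ s, dzb i (f a) z := by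
  simp only [dzb, fderiv_fun_sum hf, sum_apply, Finset.mul_sum, ← Finset.sum_add_distrib]

lemma fderiv_conj (F : Cn n → ℂ) (z v : Cn n) :
    fderiv ℝ (fun w => (starRingEnd ℂ) (F w)) z v = (starRingEnd ℂ) (fderiv ℝ F z v) := by
  have h : (fun w => (starRingEnd ℂ) (F w)) = (conjCLE : ℂ → ℂ) ∘ F := by
    funext w; simp
  rw [h, ContinuousLinearEquiv.comp_fderiv]
  simp

lemma conj_dz (F : Cn n → ℂ) (z : Cn n) :
    (starRingEnd ℂ) (dz i F z) = dzb i (fun w => (starRingEnd ℂ) (F w)) z := by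
  simp only [dz, dzb, fderiv_conj, map_mul, map_sub, conj_I, map_div₀, map_one, map_ofNat]
  ring

lemma conj_dzb (F : Cn n → ℂ) (z : Cn n) :
    (starRingEnd ℂ) (dzb i F z) = dz i (fun w => (starRingEnd ℂ) (F w)) z := by
  simp only [dz, dzb, fderiv_conj, map_mul, map_add, conj_I, map_div₀, map_one, map_ofNat]
  ring

lemma dz_ofReal_conj (u : Cn n → ℝ) (z : Cn n) :
    (starRingEnd ℂ) (dz i (fun w => (u w : ℂ)) z) = dzb i (fun w => (u w : ℂ)) z := by
  rw [conj_dz]; simp

lemma dzb_ofReal_conj (u : Cn n → ℝ) (z : Cn n) :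
    (starRingEnd ℂ) (dzb i (fun w => (u w : ℂ)) z) = dz i (fun w => (u w : ℂ)) z := by
  rw [conj_dzb]; simp

lemma dz_hol (hF : DifferentiableAt ℂ F z) : dz i F z = fderiv ℂ F z (Pi.single i 1) := by
  rw [dz_eq, hF.fderiv_restrictScalars ℝ, lz_apply_complex]

lemma dzb_hol (hF : DifferentiableAt ℂ F z) : dzb i F z = 0 := by
  rw [dzb_eq, hF.fderiv_restrictScalars ℝ, lzb_apply_complex]

end rules

section chain

variable {u : Cn m → ℂ} {F : Cn n → Cn m} {z : Cn n}

lemma fderiv_comp_hol (hu : DifferentiableAt ℝ u (F z)) (hF : DifferentiableAt ℂ F z) (v : Cn n) :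
    fderiv ℝ (fun w => u (F w)) z v = fderiv ℝ u (F z) (fderiv ℂ F z v) := by
  have h := fderiv_comp (𝕜 := ℝ) z hu (hF.restrictScalars ℝ)
  have h2 : (fun w => u (F w)) = u ∘ F := rfl
  rw [h2, h, ContinuousLinearMap.comp_apply, hF.fderiv_restrictScalars ℝ]
  rfl

lemma dz_comp_hol (hu : DifferentiableAt ℝ u (F z)) (hF : DifferentiableAt ℂ F z) (i : Fin n) :
    dz i (fun w => u (F w)) z = ∑ a, dz a u (F z) * fderiv ℂ F z (Pi.single i 1) a := by
  have hI : (Pi.single i I : Cn n) = I • (Pi.single i 1 : Cn n) := by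
    rw [← Pi.single_smul]; simp
  simp only [dz, fderiv_comp_hol hu hF, hI, map_smul]
  rw [apply_eq_sum (fderiv ℝ u (F z)) (fderiv ℂ F z (Pi.single i 1)),
    apply_eq_sum (fderiv ℝ u (F z)) (I • fderiv ℂ F z (Pi.single i 1)), Finset.mul_sum,
    ← Finset.sum_sub_distrib, Finset.mul_sum]
  refine Finset.sum_congr rfl fun a _ => ?_
  simp only [Pi.smul_apply, smul_eq_mul, map_mul, conj_I, lz, lzb]
  set A := fderiv ℝ u (F z) (Pi.single a 1)
  set B := fderiv ℝ u (F z) (Pi.single a I)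
  set w := fderiv ℂ F z (Pi.single i 1) a
  linear_combination (-(1/4 : ℂ) * (A - I * B) * w + (1/4 : ℂ) * (A + I * B) * (starRingEnd ℂ) w) * I_mul_I

lemma dzb_comp_hol (hu : DifferentiableAt ℝ u (F z)) (hF : DifferentiableAt ℂ F z) (i : Fin n) :
    dzb i (fun w => u (F w)) z = ∑ a, dzb a u (F z) * (starRingEnd ℂ) (fderiv ℂ F z (Pi.single i 1) a) := by
  have hI : (Pi.single i I : Cn n) = I • (Pi.single i 1 : Cn n) := by
    rw [← Pi.single_smul]; simp
  simp only [dzb, fderiv_comp_hol hu hF, hI, map_smul]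
  rw [apply_eq_sum (fderiv ℝ u (F z)) (fderiv ℂ F z (Pi.single i 1)),
    apply_eq_sum (fderiv ℝ u (F z)) (I • fderiv ℂ F z (Pi.single i 1)), Finset.mul_sum,
    ← Finset.sum_add_distrib, Finset.mul_sum]
  refine Finset.sum_congr rfl fun a _ => ?_
  simp only [Pi.smul_apply, smul_eq_mul, map_mul, conj_I, lz, lzb]
  set A := fderiv ℝ u (F z) (Pi.single a 1)
  set B := fderiv ℝ u (F z) (Pi.single a I)
  set w := fderiv ℂ F z (Pi.single i 1) a
  linear_combination ((1/4 : ℂ) * (A - I * B) * w - (1/4 : ℂ) * (A + I * B) * (starRingEnd ℂ) w) * I_mul_I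

end chain

section smooth

variable {U : Set (Cn n)} {F : Cn n → ℂ}

lemma contDiffOn_dir (hU : IsOpen U) (hF : ContDiffOn ℝ ∞ F U) (v : Cn n) :
    ContDiffOn ℝ ∞ (fun z => fderiv ℝ F z v) U :=
  (hF.fderiv_of_isOpen hU (by simp)).clm_apply contDiffOn_const

lemma contDiffOn_dz (hU : IsOpen U) (hF : ContDiffOn ℝ ∞ F U) (i : Fin n) :
    ContDiffOn ℝ ∞ (dz i F) U :=
  contDiffOn_const.mul ((contDiffOn_dir hU hF _).sub (contDiffOn_const.mul (contDiffOn_dir hU hF _)))

lemma contDiffOn_dzb (hU : IsOpen U) (hF : ContDiffOn ℝ ∞ F U) (i : Fin n) :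
    ContDiffOn ℝ ∞ (dzb i F) U :=
  contDiffOn_const.mul ((contDiffOn_dir hU hF _).add (contDiffOn_const.mul (contDiffOn_dir hU hF _)))

lemma contDiffOn_ofReal {u : Cn n → ℝ} (hu : ContDiffOn ℝ ∞ u U) :
    ContDiffOn ℝ ∞ (fun w => (u w : ℂ)) U :=
  ofRealCLM.contDiff.comp_contDiffOn hu

lemma contDiffOn_cHess {u : Cn n → ℝ} (hU : IsOpen U) (hu : ContDiffOn ℝ ∞ u U) (i j : Fin n) :
    ContDiffOn ℝ ∞ (fun z => cHess u z i j) U :=
  contDiffOn_dz hU (contDiffOn_dzb hU (contDiffOn_ofReal hu) j) i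

/-- second derivatives in two directions -/
lemma fderiv_dir (hU : IsOpen U) (hF : ContDiffOn ℝ ∞ F U) {z : Cn n} (hz : z ∈ U) (v w : Cn n) :
    fderiv ℝ (fun y => fderiv ℝ F y v) z w = fderiv ℝ (fderiv ℝ F) z w v := by
  have h1 : DifferentiableAt ℝ (fderiv ℝ F) z :=
    ((hF.fderiv_of_isOpen (m := ∞) hU (by simp)).differentiableOn (by simp)).differentiableAt (hU.mem_nhds hz)
  rw [fderiv_clm_apply h1 (differentiableAt_const v)]
  simp

lemma fderiv_dir_comm (hU : IsOpen U) (hF : ContDiffOn ℝ ∞ F U) {z : Cn n} (hz : z ∈ U) (v w : Cn n) :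
    fderiv ℝ (fun y => fderiv ℝ F y v) z w = fderiv ℝ (fun y => fderiv ℝ F y w) z v := by
  rw [fderiv_dir hU hF hz, fderiv_dir hU hF hz]
  have h : IsSymmSndFDerivAt ℝ F z := by
    apply ContDiffAt.isSymmSndFDerivAt (n := ∞) (hF.contDiffAt (hU.mem_nhds hz))
    rw [minSmoothness_of_isRCLikeNormedField]
    exact WithTop.coe_le_coe.2 le_top
  exact h.eq w v

lemma differentiableAt_dir (hU : IsOpen U) (hF : ContDiffOn ℝ ∞ F U) {z : Cn n} (hz : z ∈ U) (v : Cn n) :
    DifferentiableAt ℝ (fun y => fderiv ℝ F y v) z :=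
  ((contDiffOn_dir hU hF v).differentiableOn (by simp)).differentiableAt (hU.mem_nhds hz)

lemma dz_lin {F G : Cn n → ℂ} {z : Cn n} (i : Fin n) (a b : ℂ) (hF : DifferentiableAt ℝ F z)
    (hG : DifferentiableAt ℝ G z) :
    dz i (fun w => a * (F w + b * G w)) z = a * (dz i F z + b * dz i G z) := by
  rw [dz_const_mul i a (F := fun w => F w + b * G w) (hF.add (hG.const_mul b)),
    dz_add i (F := F) (G := fun w => b * G w) hF (hG.const_mul b), dz_const_mul i b hG]

lemma dzb_lin {F G : Cn n → ℂ} {z : Cn n} (i : Fin n) (a b : ℂ) (hF : DifferentiableAt ℝ F z)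
    (hG : DifferentiableAt ℝ G z) :
    dzb i (fun w => a * (F w + b * G w)) z = a * (dzb i F z + b * dzb i G z) := by
  rw [dzb_const_mul i a (F := fun w => F w + b * G w) (hF.add (hG.const_mul b)),
    dzb_add i (F := F) (G := fun w => b * G w) hF (hG.const_mul b), dzb_const_mul i b hG]

lemma dz_fun (F : Cn n → ℂ) (i : Fin n) : dz i F =
    fun y => (1 / 2 : ℂ) * (fderiv ℝ F y (Pi.single i 1) + (-I) * fderiv ℝ F y (Pi.single i I)) := by
  funext y; simp only [dz]; ring

lemma dzb_fun (F : Cn n → ℂ) (i : Fin n) : dzb i F =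
    fun y => (1 / 2 : ℂ) * (fderiv ℝ F y (Pi.single i 1) + I * fderiv ℝ F y (Pi.single i I)) := rfl

lemma dz_dzb_comm (hU : IsOpen U) (hF : ContDiffOn ℝ ∞ F U) {z : Cn n} (hz : z ∈ U) (i j : Fin n) :
    dz i (dzb j F) z = dzb j (dz i F) z := by
  have hd := fun v => differentiableAt_dir hU hF hz v
  rw [dzb_fun F j, dz_fun F i, dz_lin _ _ _ (hd _) (hd _), dzb_lin _ _ _ (hd _) (hd _)]
  simp only [dz, dzb]
  rw [fderiv_dir_comm hU hF hz (Pi.single j 1) (Pi.single i 1), fderiv_dir_comm hU hF hz (Pi.single j 1) (Pi.single i I),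
    fderiv_dir_comm hU hF hz (Pi.single j I) (Pi.single i 1), fderiv_dir_comm hU hF hz (Pi.single j I) (Pi.single i I)]
  ring

lemma dz_dz_comm (hU : IsOpen U) (hF : ContDiffOn ℝ ∞ F U) {z : Cn n} (hz : z ∈ U) (i j : Fin n) :
    dz i (dz j F) z = dz j (dz i F) z := by
  have hd := fun v => differentiableAt_dir hU hF hz v
  rw [dz_fun F j, dz_fun F i, dz_lin _ _ _ (hd _) (hd _), dz_lin _ _ _ (hd _) (hd _)]
  simp only [dz]
  rw [fderiv_dir_comm hU hF hz (Pi.single j 1) (Pi.single i 1), fderiv_dir_comm hU hF hz (Pi.single j 1) (Pi.single i I),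
    fderiv_dir_comm hU hF hz (Pi.single j I) (Pi.single i 1), fderiv_dir_comm hU hF hz (Pi.single j I) (Pi.single i I)]
  ring

lemma dzb_dzb_comm (hU : IsOpen U) (hF : ContDiffOn ℝ ∞ F U) {z : Cn n} (hz : z ∈ U) (i j : Fin n) :
    dzb i (dzb j F) z = dzb j (dzb i F) z := by
  have hd := fun v => differentiableAt_dir hU hF hz v
  rw [dzb_fun F j, dzb_fun F i, dzb_lin _ _ _ (hd _) (hd _), dzb_lin _ _ _ (hd _) (hd _)]
  simp only [dzb]
  rw [fderiv_dir_comm hU hF hz (Pi.single j 1) (Pi.single i 1), fderiv_dir_comm hU hF hz (Pi.single j 1) (Pi.single i I),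
    fderiv_dir_comm hU hF hz (Pi.single j I) (Pi.single i 1), fderiv_dir_comm hU hF hz (Pi.single j I) (Pi.single i I)]
  ring

/-- complex Hessians of real functions are Hermitian -/
lemma cHess_isHermitian {u : Cn n → ℝ} (hU : IsOpen U) (hu : ContDiffOn ℝ ∞ u U) {z : Cn n} (hz : z ∈ U) :
    (cHess u z).IsHermitian := by
  ext i j
  simp only [Matrix.conjTranspose_apply, cHess, RCLike.star_def]
  rw [conj_dz]
  have h : (fun w => (starRingEnd ℂ) (dzb i (fun w => (u w : ℂ)) w)) = dz i (fun w => (u w : ℂ)) := by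
    funext w; exact dzb_ofReal_conj i u w
  rw [h]
  exact (dz_dzb_comm hU (contDiffOn_ofReal hu) hz i j).symm

/-- closedness of a complex Hessian -/
lemma cHess_closed {u : Cn n → ℝ} (hU : IsOpen U) (hu : ContDiffOn ℝ ∞ u U) {z : Cn n} (hz : z ∈ U)
    (i j k : Fin n) :
    dz k (fun w => cHess u w i j) z = dz i (fun w => cHess u w k j) z :=
  dz_dz_comm hU (contDiffOn_dzb hU (contDiffOn_ofReal hu) j) hz k i

/-- the complex Hessian and holomorphic changes of variables -/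
lemma cHess_comp_hol {m : ℕ} {u : Cn m → ℝ} {V : Set (Cn m)} (hU : IsOpen U) (hV : IsOpen V)
    (hu : ContDiffOn ℝ ∞ u V) {F : Cn n → Cn m} (hF : ContDiffOn ℂ ω F U) (hUV : Set.MapsTo F U V)
    {z : Cn n} (hz : z ∈ U) (i j : Fin n) :
    cHess (fun w => u (F w)) z i j = ∑ a, ∑ b, cHess u (F z) a b * fderiv ℂ F z (Pi.single i 1) a *
      (starRingEnd ℂ) (fderiv ℂ F z (Pi.single j 1) b) := by
  have hFd : ∀ w ∈ U, DifferentiableAt ℂ F w := fun w hw =>
    (hF.differentiableOn (by simp)).differentiableAt (hU.mem_nhds hw)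
  have hud : ∀ y ∈ V, DifferentiableAt ℝ (fun w => (u w : ℂ)) y := fun y hy =>
    ((contDiffOn_ofReal hu).differentiableOn (by simp)).differentiableAt (hV.mem_nhds hy)
  have hb : ∀ b, ContDiffOn ℝ ∞ (dzb b (fun w => (u w : ℂ))) V := fun b =>
    contDiffOn_dzb hV (contDiffOn_ofReal hu) b
  have hbd : ∀ b, ∀ y ∈ V, DifferentiableAt ℝ (dzb b (fun w => (u w : ℂ))) y := fun b y hy =>
    ((hb b).differentiableOn (by simp)).differentiableAt (hV.mem_nhds hy)
  -- the holomorphic functions `∂_j F_b`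
  have hJ : ∀ b, DifferentiableAt ℂ (fun w => fderiv ℂ F w (Pi.single j 1) b) z := by
    intro b
    have h1 : ContDiffOn ℂ ω (fderiv ℂ F) U := hF.fderiv_of_isOpen hU (by simp)
    have h2 : DifferentiableAt ℂ (fderiv ℂ F) z := (h1.differentiableOn (by simp)).differentiableAt (hU.mem_nhds hz)
    have h3 : DifferentiableAt ℂ (fun w => fderiv ℂ F w (Pi.single j 1)) z := h2.clm_apply (differentiableAt_const _)
    exact (differentiableAt_pi.1 h3) b
  have hJc : ∀ b, DifferentiableAt ℝ (fun w => (starRingEnd ℂ) (fderiv ℂ F w (Pi.single j 1) b)) z := by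
    intro b
    exact (conjCLE.differentiableAt).comp z ((hJ b).restrictScalars ℝ)
  have e1 : dzb j (fun w => ((u (F w) : ℝ) : ℂ)) =ᶠ[nhds z] fun w => ∑ b, dzb b (fun y => (u y : ℂ)) (F w) *
      (starRingEnd ℂ) (fderiv ℂ F w (Pi.single j 1) b) := by
    filter_upwards [hU.mem_nhds hz] with w hw
    exact dzb_comp_hol (u := fun y => (u y : ℂ)) (hud _ (hUV hw)) (hFd w hw) j
  show dz i (dzb j (fun w => ((u (F w) : ℝ) : ℂ))) z = _
  rw [dz_congr i e1]
  have hcomp : ∀ b, DifferentiableAt ℝ (fun w => dzb b (fun y => (u y : ℂ)) (F w)) z := fun b =>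
    (hbd b _ (hUV hz)).comp z ((hFd z hz).restrictScalars ℝ)
  rw [dz_sum i Finset.univ (fun b w => dzb b (fun y => (u y : ℂ)) (F w) *
      (starRingEnd ℂ) (fderiv ℂ F w (Pi.single j 1) b)) (fun b _ => (hcomp b).mul (hJc b))]
  rw [Finset.sum_comm]
  refine Finset.sum_congr rfl fun b _ => ?_
  rw [dz_mul i (hcomp b) (hJc b), ← conj_dzb, dzb_hol i (hJ b), map_zero, mul_zero, zero_add,
    dz_comp_hol (hbd b _ (hUV hz)) (hFd z hz) i, Finset.mul_sum]
  refine Finset.sum_congr rfl fun a _ => ?_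
  simp only [cHess]
  ring

end smooth

end Pool.Agent.KS.Wir
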